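import Mathlib

/-!
# Weierstrass functions as functions of the two periods

Raw definitions (junk values outside the natural domain) of the Weierstrass functions attached to
the lattice `ℤ a + ℤ b`, as functions of `a`, `b` and `z`, together with the affine Weierstrass
curve `Y ^ 2 = X ^ 3 - (g₂ / 4) X - g₃ / 4` (so `Y = ℘' / 2`).
-/

namespace Pool.Agent.EllSch

noncomputable section

/-- The lattice vector `m a + n b`. -/
def lat (a b : ℂ) (x : ℤ × ℤ) : ℂ := (x.1 : ℂ) * a + (x.2 : ℂ) * b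

/-- `z` does not lie in `ℤ a + ℤ b`. -/
def Off (a b z : ℂ) : Prop := ∀ x : ℤ × ℤ, z ≠ lat a b x

/-- `a` and `b` are linearly independent over `ℝ`, in the form of a nonzero real determinant. -/
def Ind (a b : ℂ) : Prop := a.re * b.im - a.im * b.re ≠ 0

/-- The Weierstrass function `℘`. -/
def wp (a b z : ℂ) : ℂ := ∑' x : ℤ × ℤ, (1 / (z - lat a b x) ^ 2 - 1 / lat a b x ^ 2)

/-- The derivative `℘'`. -/
def wq (a b z : ℂ) : ℂ := ∑' x : ℤ × ℤ, -2 / (z - lat a b x) ^ 3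

/-- The Weierstrass zeta function. -/
def wz (a b z : ℂ) : ℂ :=
  ∑' x : ℤ × ℤ, (1 / (z - lat a b x) + 1 / lat a b x + z / lat a b x ^ 2)

/-- The invariant `g₂`. -/
def G2 (a b : ℂ) : ℂ := 60 * ∑' x : ℤ × ℤ, 1 / lat a b x ^ 4

/-- The invariant `g₃`. -/
def G3 (a b : ℂ) : ℂ := 140 * ∑' x : ℤ × ℤ, 1 / lat a b x ^ 6

/-- The quasi-period of `a`. -/
def eta1 (a b : ℂ) : ℂ := 2 * wz a b (a / 2)

/-- The quasi-period of `b`. -/
def eta2 (a b : ℂ) : ℂ := 2 * wz a b (b / 2)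

/-- The Legendre determinant. -/
def det (a b : ℂ) : ℂ := a * eta2 a b - b * eta1 a b

/-- The quasi-period of the lattice vector `m a + n b`. -/
def eta (a b : ℂ) (x : ℤ × ℤ) : ℂ := (x.1 : ℂ) * eta1 a b + (x.2 : ℂ) * eta2 a b

/-- The coefficient `α` of a tangent vector `u` at `(a, b)`: `u = α (a, b) + β (η₁, η₂)`. -/
def cA (a b : ℂ) (u : ℂ × ℂ) : ℂ := (u.1 * eta2 a b - u.2 * eta1 a b) / det a b

/-- The coefficient `β` of a tangent vector `u` at `(a, b)`: `u = α (a, b) + β (η₁, η₂)`. -/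
def cB (a b : ℂ) (u : ℂ × ℂ) : ℂ := (a * u.2 - b * u.1) / det a b

/-- The affine curve `Y ^ 2 = X ^ 3 - (g₂ / 4) X - g₃ / 4`. -/
def crv {F : Type*} [Field F] (g2 g3 : F) : WeierstrassCurve.Affine F := ⟨0, 0, 0, -g2 / 4, -g3 / 4⟩

open Classical in
/-- The point `(x, y / 2)` of `crv g2 g3` (and the zero point if it is not on the curve or is
singular). -/
def pt {F : Type*} [Field F] (g2 g3 x y : F) : (crv g2 g3).Point :=
  if h : (crv g2 g3).Nonsingular x (y / 2) then .some x (y / 2) h else 0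

/-! ### The coefficients of the connection attached to a derivation -/

section Conn

variable {C K : Type*} [Field C] [Field K] [Algebra C K]

/-- `α(δ) = - δ Δ / (12 Δ)`. -/
def al (g2 g3 : K) (δ : Derivation C K K) : K :=
  -δ (g2 ^ 3 - 27 * g3 ^ 2) / (12 * (g2 ^ 3 - 27 * g3 ^ 2))

/-- `β(δ) = (3 / 2) (3 g₃ δ g₂ - 2 g₂ δ g₃) / Δ`. -/
def be (g2 g3 : K) (δ : Derivation C K K) : K :=
  3 / 2 * (3 * g3 * δ g2 - 2 * g2 * δ g3) / (g2 ^ 3 - 27 * g3 ^ 2)

/-- `γ(δ) = (δ x + 2 α x + 2 β x ^ 2 - β g₂ / 3) / y`. -/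
def ga (g2 g3 x y : K) (δ : Derivation C K K) : K :=
  (δ x + 2 * al g2 g3 δ * x + 2 * be g2 g3 δ * x ^ 2 - be g2 g3 δ * g2 / 3) / y

end Conn

end

end Pool.Agent.EllSch
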