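import Pool.Agent.EllSch.Defs

/-! # [LT] Lattice basics, bridge to Mathlib's `PeriodPair` -/

open Filter Topology

namespace Pool.Agent.EllSch

theorem ind_iff (a b : ℂ) : Ind a b ↔ LinearIndependent ℝ ![a, b] := by
  rw [LinearIndependent.pair_iff]
  constructor
  · intro h s t hst
    have h1 : s * a.re + t * b.re = 0 := by simpa using congrArg Complex.re hst
    have h2 : s * a.im + t * b.im = 0 := by simpa using congrArg Complex.im hst
    have hs : s * (a.re * b.im - a.im * b.re) = 0 := by linear_combination b.im * h1 - b.re * h2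
    have ht : t * (a.re * b.im - a.im * b.re) = 0 := by linear_combination a.re * h2 - a.im * h1
    exact ⟨(mul_eq_zero.1 hs).resolve_right h, (mul_eq_zero.1 ht).resolve_right h⟩
  · intro h h0
    obtain ⟨h1, h2⟩ := h b.im (-a.im) (by
      apply Complex.ext
      · simp; linear_combination h0
      · simp; ring)
    obtain ⟨h3, h4⟩ := h b.re (-a.re) (by
      apply Complex.ext
      · simp; ring
      · simp; linear_combination -h0)
    have ha : a = 0 := by
      apply Complex.ext
      · simpa using h4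
      · simpa using h2
    have := h 1 0 (by simp [ha])
    exact one_ne_zero this.1

/-- The period pair attached to `a`, `b`. -/
noncomputable def pp {a b : ℂ} (h : Ind a b) : PeriodPair := ⟨a, b, (ind_iff a b).1 h⟩

theorem pp_mem_iff {a b : ℂ} (h : Ind a b) (z : ℂ) :
    z ∈ (pp h).lattice ↔ ∃ x : ℤ × ℤ, lat a b x = z := by
  rw [PeriodPair.mem_lattice]
  constructor
  · rintro ⟨m, n, e⟩
    exact ⟨(m, n), e⟩
  · rintro ⟨⟨m, n⟩, e⟩
    exact ⟨m, n, e⟩

theorem off_iff {a b : ℂ} (h : Ind a b) (z : ℂ) : Off a b z ↔ z ∉ (pp h).lattice := by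
  rw [pp_mem_iff]
  constructor
  · rintro h1 ⟨x, hx⟩
    exact h1 x hx.symm
  · intro h1 x hx
    exact h1 ⟨x, hx.symm⟩

theorem pp_symm_coe {a b : ℂ} (h : Ind a b) (x : ℤ × ℤ) :
    (((pp h).latticeEquivProd.symm x : (pp h).lattice) : ℂ) = lat a b x :=
  (pp h).latticeEquiv_symm_apply x

theorem tsum_lattice {a b : ℂ} (h : Ind a b) (f : ℂ → ℂ) :
    ∑' l : (pp h).lattice, f l = ∑' x : ℤ × ℤ, f (lat a b x) := by
  rw [← ((pp h).latticeEquivProd.symm.toEquiv).tsum_eq]
  congr 1
  ext x
  exact congrArg f (pp_symm_coe h x)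

theorem wp_eq {a b : ℂ} (h : Ind a b) (z : ℂ) : wp a b z = (pp h).weierstrassP z := by
  unfold wp PeriodPair.weierstrassP
  exact (tsum_lattice h fun l => 1 / (z - l) ^ 2 - 1 / l ^ 2).symm

theorem wq_eq {a b : ℂ} (h : Ind a b) (z : ℂ) : wq a b z = (pp h).derivWeierstrassP z := by
  unfold wq PeriodPair.derivWeierstrassP
  rw [tsum_lattice h fun l => 2 / (z - l) ^ 3, ← tsum_neg]
  congr 1
  ext x
  rw [neg_div]

theorem G_eq {a b : ℂ} (h : Ind a b) (n : ℕ) :
    (pp h).G n = ∑' x : ℤ × ℤ, 1 / lat a b x ^ n := by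
  unfold PeriodPair.G
  rw [tsum_lattice h fun l => (l ^ n)⁻¹]
  simp only [one_div]

theorem G2_eq {a b : ℂ} (h : Ind a b) : G2 a b = (pp h).g₂ := by
  unfold G2 PeriodPair.g₂
  rw [G_eq h]

theorem G3_eq {a b : ℂ} (h : Ind a b) : G3 a b = (pp h).g₃ := by
  unfold G3 PeriodPair.g₃
  rw [G_eq h]

theorem off_set_eq {a b : ℂ} (h : Ind a b) :
    {z : ℂ | Off a b z} = (((pp h).lattice : Set ℂ))ᶜ := by
  ext z
  simp only [Set.mem_ofPred_eq, Set.mem_compl_iff, SetLike.mem_coe]
  exact off_iff h z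

/-- the set of off-lattice points is open -/
theorem isOpen_off {a b : ℂ} (h : Ind a b) : IsOpen {z : ℂ | Off a b z} := by
  rw [off_set_eq h]
  exact (pp h).isClosed_lattice.isOpen_compl

/-- the complement of the lattice is preconnected -/
theorem isPreconnected_off {a b : ℂ} (h : Ind a b) : IsPreconnected {z : ℂ | Off a b z} := by
  have hset : {z : ℂ | Off a b z} = (Set.range (lat a b))ᶜ := by
    ext z
    simp only [Set.mem_ofPred_eq, Set.mem_compl_iff, Set.mem_range, not_exists]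
    exact ⟨fun h x hx => h x hx.symm, fun h x hx => h x hx.symm⟩
  rw [hset]
  have hc : (Set.range (lat a b)).Countable := Set.countable_range _
  have h1 : 1 < Module.rank ℝ ℂ := by
    rw [Complex.rank_real_complex]
    norm_num
  exact (hc.isPathConnected_compl_of_one_lt_rank h1).isConnected.isPreconnected

theorem lat_add (a b : ℂ) (x y : ℤ × ℤ) : lat a b (x + y) = lat a b x + lat a b y := by
  unfold lat
  simp
  ring

theorem lat_neg (a b : ℂ) (x : ℤ × ℤ) : lat a b (-x) = -lat a b x := by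
  unfold lat
  simp
  ring

theorem lat_sub (a b : ℂ) (x y : ℤ × ℤ) : lat a b (x - y) = lat a b x - lat a b y := by
  rw [sub_eq_add_neg, lat_add, lat_neg, sub_eq_add_neg]

theorem lat_zero (a b : ℂ) : lat a b 0 = 0 := by
  unfold lat
  simp

theorem off_add_lat {a b z : ℂ} (x : ℤ × ℤ) : Off a b (z + lat a b x) ↔ Off a b z := by
  constructor
  · intro h y hy
    exact h (y + x) (by rw [lat_add, hy])
  · intro h y hy
    exact h (y - x) (by rw [lat_sub, ← hy]; ring)

theorem off_neg {a b z : ℂ} : Off a b (-z) ↔ Off a b z := by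
  constructor
  · intro h y hy
    exact h (-y) (by rw [lat_neg, hy])
  · intro h y hy
    exact h (-y) (by rw [lat_neg, ← hy]; ring)

theorem lat_injective {a b : ℂ} (h : Ind a b) : Function.Injective (lat a b) := by
  intro x y hxy
  have h1 : (pp h).latticeEquivProd.symm x = (pp h).latticeEquivProd.symm y := by
    apply Subtype.ext
    rw [pp_symm_coe, pp_symm_coe, hxy]
  exact (pp h).latticeEquivProd.symm.injective h1

theorem hasDerivAt_wp {a b : ℂ} (h : Ind a b) {z : ℂ} (hz : Off a b z) :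
    HasDerivAt (wp a b) (wq a b z) z := by
  have h1 : wp a b = (pp h).weierstrassP := funext (wp_eq h)
  have h2 : DifferentiableAt ℂ (pp h).weierstrassP z :=
    ((pp h).differentiableOn_weierstrassP).differentiableAt
      ((pp h).isClosed_lattice.isOpen_compl.mem_nhds ((off_iff h z).1 hz))
  rw [h1, wq_eq h, ← (pp h).deriv_weierstrassP]
  exact h2.hasDerivAt

theorem ode {a b : ℂ} (h : Ind a b) {z : ℂ} (hz : Off a b z) :
    wq a b z ^ 2 = 4 * wp a b z ^ 3 - G2 a b * wp a b z - G3 a b := by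
  rw [wq_eq h, wp_eq h, G2_eq h, G3_eq h]
  exact (pp h).derivWeierstrassP_sq z ((off_iff h z).1 hz)

theorem wp_add_lat {a b : ℂ} (h : Ind a b) (z : ℂ) (x : ℤ × ℤ) :
    wp a b (z + lat a b x) = wp a b z := by
  rw [wp_eq h, wp_eq h, ← pp_symm_coe h]
  exact (pp h).weierstrassP_add_coe z _

theorem wq_add_lat {a b : ℂ} (h : Ind a b) (z : ℂ) (x : ℤ × ℤ) :
    wq a b (z + lat a b x) = wq a b z := by
  rw [wq_eq h, wq_eq h, ← pp_symm_coe h]
  exact (pp h).derivWeierstrassP_add_coe z _

theorem wp_neg {a b : ℂ} (h : Ind a b) (z : ℂ) : wp a b (-z) = wp a b z := by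
  rw [wp_eq h, wp_eq h]
  exact (pp h).weierstrassP_neg z

theorem wq_neg {a b : ℂ} (h : Ind a b) (z : ℂ) : wq a b (-z) = -wq a b z := by
  rw [wq_eq h, wq_eq h]
  exact (pp h).derivWeierstrassP_neg z

/-- second order Taylor expansion at a zero with vanishing derivative -/
theorem tendsto_div_sq {f : ℂ → ℂ} {p : FormalMultilinearSeries ℂ ℂ ℂ}
    (hf : HasFPowerSeriesAt f p 0) (h0 : p.coeff 0 = 0) (h1 : p.coeff 1 = 0) :
    Tendsto (fun z => f z / z ^ 2) (𝓝[≠] 0) (𝓝 (p.coeff 2)) := by
  have hO := hf.isBigO_sub_partialSum_pow 3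
  have hO' : (fun y : ℂ => f y - p.coeff 2 * y ^ 2) =O[𝓝 0] fun y => ‖y‖ ^ 3 := by
    refine hO.congr_left ?_
    intro y
    rw [zero_add]
    congr 1
    rw [FormalMultilinearSeries.partialSum]
    simp [Finset.sum_range_succ, FormalMultilinearSeries.apply_eq_pow_smul_coeff, h0, h1]
    ring
  have hlim : Tendsto (fun z => f z / z ^ 2 - p.coeff 2) (𝓝[≠] 0) (𝓝 0) := by
    have hO2 : (fun z => f z / z ^ 2 - p.coeff 2) =O[𝓝[≠] 0] fun z : ℂ => ‖z‖ := by
      obtain ⟨C, hC⟩ := (hO'.mono (nhdsWithin_le_nhds (s := {0}ᶜ))).bound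
      refine Asymptotics.IsBigO.of_bound C ?_
      filter_upwards [hC, self_mem_nhdsWithin] with z hz hz0
      have hz0' : z ≠ 0 := hz0
      have hpos : 0 < ‖z‖ := norm_pos_iff.2 hz0'
      have e : f z / z ^ 2 - p.coeff 2 = (f z - p.coeff 2 * z ^ 2) / z ^ 2 := by
        field_simp
      rw [e, norm_div, norm_pow, div_le_iff₀ (by positivity)]
      calc ‖f z - p.coeff 2 * z ^ 2‖ ≤ C * ‖‖z‖ ^ 3‖ := hz
        _ = C * ‖‖z‖‖ * ‖z‖ ^ 2 := by
          rw [norm_pow, norm_norm]
          ring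
    refine hO2.trans_tendsto ?_
    have : Tendsto (fun z : ℂ => ‖z‖) (𝓝 0) (𝓝 ‖(0 : ℂ)‖) := continuous_norm.tendsto 0
    rw [norm_zero] at this
    exact this.mono_left nhdsWithin_le_nhds
  have := hlim.add_const (p.coeff 2)
  simpa using this

theorem tendsto_wp_zero {a b : ℂ} (h : Ind a b) :
    Tendsto (fun z => (wp a b z - 1 / z ^ 2) / z ^ 2) (𝓝[≠] 0) (𝓝 (G2 a b / 20)) := by
  have h1 := tendsto_div_sq ((pp h).hasFPowerSeriesAt_weierstrassPExcept 0)
    (by simp [FormalMultilinearSeries.coeff_ofScalars])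
    (by
      rw [FormalMultilinearSeries.coeff_ofScalars]
      simp [(pp h).G_eq_zero_of_odd 3 (by decide)])
  rw [FormalMultilinearSeries.coeff_ofScalars] at h1
  have e1 : (if (2 : ℕ) = 0 then (pp h).weierstrassPExcept 0 0 else
      ((2 : ℕ) + 1 : ℂ) * (pp h).sumInvPow 0 (2 + 2)) = G2 a b / 20 := by
    rw [G2_eq h, PeriodPair.g₂]
    simp
    ring
  rw [e1] at h1
  refine h1.congr' ?_
  filter_upwards [self_mem_nhdsWithin] with z hz0
  have h2 := (pp h).weierstrassPExcept_def 0 z
  simp only [ZeroMemClass.coe_zero, sub_zero] at h2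
  rw [h2, wp_eq h]
  norm_num
  ring

theorem tendsto_wq_zero {a b : ℂ} (h : Ind a b) :
    Tendsto (fun z => (wq a b z + 2 / z ^ 3) / z) (𝓝[≠] 0) (𝓝 (G2 a b / 10)) := by
  have h1 : HasDerivAt ((pp h).derivWeierstrassPExcept 0)
      (deriv ((pp h).derivWeierstrassPExcept 0) 0) 0 :=
    ((pp h).analyticAt_derivWeierstrassPExcept 0).differentiableAt.hasDerivAt
  rw [(pp h).deriv_derivWeierstrassPExcept_self 0] at h1
  have h2 := h1.tendsto_slope_zero
  have e1 : 6 * (pp h).sumInvPow 0 4 = G2 a b / 10 := by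
    rw [G2_eq h, PeriodPair.g₂]
    simp
    ring
  rw [e1] at h2
  refine h2.congr' ?_
  filter_upwards [self_mem_nhdsWithin] with z hz0
  have h3 := (pp h).derivWeierstrassPExcept_def 0 z
  simp only [ZeroMemClass.coe_zero, sub_zero] at h3
  rw [zero_add, h3, (pp h).derivWeierstrassPExcept_zero_zero, wq_eq h, sub_zero, smul_eq_mul]
  field_simp

theorem analyticOnNhd_wp {a b : ℂ} (h : Ind a b) : AnalyticOnNhd ℂ (wp a b) {z | Off a b z} := by
  apply DifferentiableOn.analyticOnNhd _ (isOpen_off h)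
  intro z hz
  exact (hasDerivAt_wp h hz).differentiableAt.differentiableWithinAt

theorem analyticOnNhd_wq {a b : ℂ} (h : Ind a b) : AnalyticOnNhd ℂ (wq a b) {z | Off a b z} := by
  have h1 : wq a b = (pp h).derivWeierstrassP := funext (wq_eq h)
  rw [h1, off_set_eq h]
  exact (pp h).analyticOnNhd_derivWeierstrassP

theorem exists_wq_ne_zero {a b : ℂ} (h : Ind a b) : ∃ z, Off a b z ∧ wq a b z ≠ 0 := by
  by_contra hcon
  push Not at hcon
  have h1 := tendsto_wq_zero h
  have hoff : ∀ᶠ z in 𝓝[≠] (0 : ℂ), Off a b z := by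
    have := (pp h).compl_lattice_sdiff_singleton_mem_nhds 0
    filter_upwards [mem_nhdsWithin_of_mem_nhds this, self_mem_nhdsWithin] with z hz hz0
    rw [off_iff h]
    intro hmem
    exact hz ⟨hmem, hz0⟩
  have h2 : Tendsto (fun z : ℂ => 2 / z ^ 4) (𝓝[≠] 0) (𝓝 (G2 a b / 10)) := by
    refine h1.congr' ?_
    filter_upwards [hoff, self_mem_nhdsWithin] with z hz hz0
    have hz0' : z ≠ 0 := hz0
    rw [hcon z hz, zero_add, div_div]
    congr 1
  have h3 : Tendsto (fun z : ℂ => z ^ 4) (𝓝[≠] 0) (𝓝 0) := by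
    have : Tendsto (fun z : ℂ => z ^ 4) (𝓝 0) (𝓝 (0 ^ 4)) := (continuous_pow 4).tendsto 0
    simp only [ne_eq, OfNat.ofNat_ne_zero, not_false_eq_true, zero_pow] at this
    exact this.mono_left nhdsWithin_le_nhds
  have h4 := h2.mul h3
  have h5 : Tendsto (fun z : ℂ => 2 / z ^ 4 * z ^ 4) (𝓝[≠] 0) (𝓝 2) := by
    refine (tendsto_const_nhds (x := (2 : ℂ))).congr' ?_
    filter_upwards [self_mem_nhdsWithin] with z hz0
    have hz0' : z ≠ 0 := hz0
    field_simp
  have h6 := tendsto_nhds_unique h4 h5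
  norm_num at h6

theorem hasDerivAt_wq {a b : ℂ} (h : Ind a b) {z : ℂ} (hz : Off a b z) :
    HasDerivAt (wq a b) (6 * wp a b z ^ 2 - G2 a b / 2) z := by
  have hwp := analyticOnNhd_wp h
  have hwq := analyticOnNhd_wq h
  have hdwq : AnalyticOnNhd ℂ (deriv (wq a b)) {z | Off a b z} := hwq.deriv
  have hF : AnalyticOnNhd ℂ (fun z => deriv (wq a b) z - (6 * wp a b z ^ 2 - G2 a b / 2))
      {z | Off a b z} := by
    intro w hw
    have h1 := hwp w hw
    have h2 := hdwq w hw
    fun_prop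
  have hmul : ∀ w ∈ {z : ℂ | Off a b z},
      wq a b w * (deriv (wq a b) w - (6 * wp a b w ^ 2 - G2 a b / 2)) = 0 := by
    intro w hw
    have h1 : HasDerivAt (fun z => wq a b z ^ 2) (2 * wq a b w * deriv (wq a b) w) w := by
      have := (hwq w hw).differentiableAt.hasDerivAt.fun_pow 2
      simpa using this
    have h2 : HasDerivAt (fun z => 4 * wp a b z ^ 3 - G2 a b * wp a b z - G3 a b)
        (4 * (3 * wp a b w ^ 2 * wq a b w) - G2 a b * wq a b w) w := by
      have h3 := hasDerivAt_wp h hw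
      have := (((h3.fun_pow 3).const_mul 4).fun_sub (h3.const_mul (G2 a b))).sub_const (G3 a b)
      simpa using this
    have h3 : (fun z => wq a b z ^ 2) =ᶠ[𝓝 w]
        fun z => 4 * wp a b z ^ 3 - G2 a b * wp a b z - G3 a b := by
      filter_upwards [(isOpen_off h).mem_nhds hw] with v hv
      exact ode h hv
    have h4 := (h1.congr_of_eventuallyEq h3.symm).unique h2
    linear_combination h4 / 2
  have hz' : deriv (wq a b) z - (6 * wp a b z ^ 2 - G2 a b / 2) = 0 := by
    rcases AnalyticOnNhd.eq_zero_or_eq_zero_of_mul_eq_zero hwq hF hmul (isPreconnected_off h)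
      with h1 | h1
    · obtain ⟨w, hw, hw'⟩ := exists_wq_ne_zero h
      exact absurd (h1 w hw) hw'
    · exact h1 z hz
  have h1 := (hwq z hz).differentiableAt.hasDerivAt
  rwa [sub_eq_zero.1 hz'] at h1

/-! ### change of basis and homogeneity -/

section Change

variable {a b : ℂ} {p q r s : ℤ}

/-- unimodular change of basis permutes the lattice vectors -/
theorem ind_change (h : Ind a b) (hd : p * s - q * r = 1) :
    Ind (p * a + q * b) (r * a + s * b) := by
  unfold Ind at *
  have hd' : (p : ℝ) * s - q * r = 1 := by exact_mod_cast hd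
  have : ((p : ℂ) * a + q * b).re * ((r : ℂ) * a + s * b).im
      - ((p : ℂ) * a + q * b).im * ((r : ℂ) * a + s * b).re = a.re * b.im - a.im * b.re := by
    simp
    linear_combination (a.re * b.im - a.im * b.re) * hd'
  rw [this]
  exact h

/-- the permutation of `ℤ × ℤ` attached to a unimodular change of basis -/
def chEquiv (p q r s : ℤ) (hd : p * s - q * r = 1) : ℤ × ℤ ≃ ℤ × ℤ where
  toFun x := (x.1 * p + x.2 * r, x.1 * q + x.2 * s)
  invFun x := (s * x.1 - r * x.2, p * x.2 - q * x.1)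
  left_inv x := by
    apply Prod.ext
    · simp only
      linear_combination x.1 * hd
    · simp only
      linear_combination x.2 * hd
  right_inv x := by
    apply Prod.ext
    · simp only
      linear_combination x.1 * hd
    · simp only
      linear_combination x.2 * hd

theorem lat_change (hd : p * s - q * r = 1) (x : ℤ × ℤ) :
    lat (p * a + q * b) (r * a + s * b) x = lat a b (chEquiv p q r s hd x) := by
  unfold lat chEquiv
  simp
  ring

theorem off_change (hd : p * s - q * r = 1) (z : ℂ) :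
    Off (p * a + q * b) (r * a + s * b) z ↔ Off a b z := by
  constructor
  · intro h x hx
    refine h ((chEquiv p q r s hd).symm x) ?_
    rw [lat_change hd, Equiv.apply_symm_apply]
    exact hx
  · intro h x hx
    rw [lat_change hd] at hx
    exact h _ hx

theorem tsum_change (hd : p * s - q * r = 1) (f : ℂ → ℂ) :
    ∑' x : ℤ × ℤ, f (lat (p * a + q * b) (r * a + s * b) x) = ∑' x : ℤ × ℤ, f (lat a b x) := by
  simp only [lat_change hd]
  exact (chEquiv p q r s hd).tsum_eq fun x => f (lat a b x)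

theorem wp_change (hd : p * s - q * r = 1) (z : ℂ) :
    wp (p * a + q * b) (r * a + s * b) z = wp a b z :=
  tsum_change hd fun l => 1 / (z - l) ^ 2 - 1 / l ^ 2

theorem wq_change (hd : p * s - q * r = 1) (z : ℂ) :
    wq (p * a + q * b) (r * a + s * b) z = wq a b z :=
  tsum_change hd fun l => -2 / (z - l) ^ 3

theorem wz_change (hd : p * s - q * r = 1) (z : ℂ) :
    wz (p * a + q * b) (r * a + s * b) z = wz a b z :=
  tsum_change hd fun l => 1 / (z - l) + 1 / l + z / l ^ 2

theorem G2_change (hd : p * s - q * r = 1) :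
    G2 (p * a + q * b) (r * a + s * b) = G2 a b := by
  unfold G2
  rw [tsum_change hd fun l => 1 / l ^ 4]

theorem G3_change (hd : p * s - q * r = 1) :
    G3 (p * a + q * b) (r * a + s * b) = G3 a b := by
  unfold G3
  rw [tsum_change hd fun l => 1 / l ^ 6]

end Change

section Homog

variable {a b c : ℂ}

theorem lat_smul (a b c : ℂ) (x : ℤ × ℤ) : lat (c * a) (c * b) x = c * lat a b x := by
  unfold lat
  ring

theorem ind_smul (h : Ind a b) (hc : c ≠ 0) : Ind (c * a) (c * b) := by
  unfold Ind at *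
  have : (c * a).re * (c * b).im - (c * a).im * (c * b).re
      = (c.re ^ 2 + c.im ^ 2) * (a.re * b.im - a.im * b.re) := by
    simp
    ring
  rw [this]
  refine mul_ne_zero ?_ h
  intro h0
  apply hc
  apply Complex.ext
  · simp; nlinarith [sq_nonneg c.re, sq_nonneg c.im]
  · simp; nlinarith [sq_nonneg c.re, sq_nonneg c.im]

theorem off_smul (hc : c ≠ 0) (z : ℂ) : Off (c * a) (c * b) (c * z) ↔ Off a b z := by
  unfold Off
  refine forall_congr' fun x => ?_
  rw [lat_smul, ne_eq, ne_eq, mul_right_inj' hc]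

theorem wp_smul (hc : c ≠ 0) (z : ℂ) : wp (c * a) (c * b) (c * z) = wp a b z / c ^ 2 := by
  unfold wp
  rw [div_eq_mul_inv, ← tsum_mul_right]
  congr 1
  ext x
  rw [lat_smul, ← mul_sub, mul_pow, mul_pow]
  simp only [one_div, mul_inv]
  ring

theorem wq_smul (hc : c ≠ 0) (z : ℂ) : wq (c * a) (c * b) (c * z) = wq a b z / c ^ 3 := by
  unfold wq
  rw [div_eq_mul_inv, ← tsum_mul_right]
  congr 1
  ext x
  rw [lat_smul, ← mul_sub, mul_pow]
  simp only [div_eq_mul_inv, mul_inv]
  ring

theorem wz_smul (hc : c ≠ 0) (z : ℂ) : wz (c * a) (c * b) (c * z) = wz a b z / c := by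
  unfold wz
  rw [div_eq_mul_inv, ← tsum_mul_right]
  congr 1
  ext x
  rw [lat_smul, ← mul_sub, mul_pow]
  have h1 : c * z / (c ^ 2 * lat a b x ^ 2) = z / lat a b x ^ 2 * c⁻¹ := by
    by_cases hl : lat a b x = 0
    · simp [hl]
    · field_simp
  rw [h1]
  simp only [one_div, mul_inv]
  ring

theorem G2_smul (hc : c ≠ 0) : G2 (c * a) (c * b) = G2 a b / c ^ 4 := by
  unfold G2
  rw [div_eq_mul_inv, mul_assoc, ← tsum_mul_right]
  congr 2
  ext x
  rw [lat_smul, mul_pow]
  simp only [one_div, mul_inv]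
  ring

theorem G3_smul (hc : c ≠ 0) : G3 (c * a) (c * b) = G3 a b / c ^ 6 := by
  unfold G3
  rw [div_eq_mul_inv, mul_assoc, ← tsum_mul_right]
  congr 2
  ext x
  rw [lat_smul, mul_pow]
  simp only [one_div, mul_inv]
  ring

theorem eta1_smul (hc : c ≠ 0) : eta1 (c * a) (c * b) = eta1 a b / c := by
  unfold eta1
  rw [mul_div_assoc, wz_smul hc, mul_div_assoc]

theorem eta2_smul (hc : c ≠ 0) : eta2 (c * a) (c * b) = eta2 a b / c := by
  unfold eta2
  rw [mul_div_assoc, wz_smul hc, mul_div_assoc]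

end Homog

end Pool.Agent.EllSch
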