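import Pool.Agent.EllSch.Basic

/-! # [ADD] Addition theorems -/

open Filter Topology

namespace Pool.Agent.EllSch

namespace Add

variable {a b : ℂ}

/-- The points `u` for which `u`, `s - u` and `2 u - s` are off the lattice. -/
def good (a b s : ℂ) : Set ℂ := {u | Off a b u ∧ Off a b (s - u) ∧ Off a b (2 * u - s)}

theorem isOpen_good (h : Ind a b) (s : ℂ) : IsOpen (good a b s) := by
  have h0 := isOpen_off h
  refine h0.inter (IsOpen.inter ?_ ?_)
  · exact h0.preimage (by fun_prop : Continuous fun u : ℂ => s - u)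
  · exact h0.preimage (by fun_prop : Continuous fun u : ℂ => 2 * u - s)

theorem countable_compl_good (a b s : ℂ) : ((good a b s)ᶜ).Countable := by
  have h1 : (Set.range fun x : ℤ × ℤ => lat a b x).Countable := Set.countable_range _
  have h2 : (Set.range fun x : ℤ × ℤ => s - lat a b x).Countable := Set.countable_range _
  have h3 : (Set.range fun x : ℤ × ℤ => (s + lat a b x) / 2).Countable := Set.countable_range _
  refine ((h1.union h2).union h3).mono ?_
  intro u hu
  simp only [good, Off, Set.mem_compl_iff, Set.mem_ofPred_eq, not_and_or, not_forall, not_not] at hu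
  simp only [Set.mem_union, Set.mem_range]
  rcases hu with ⟨x, hx⟩ | ⟨x, hx⟩ | ⟨x, hx⟩
  · exact Or.inl (Or.inl ⟨x, hx.symm⟩)
  · exact Or.inl (Or.inr ⟨x, by rw [← hx]; ring⟩)
  · exact Or.inr ⟨x, by rw [← hx]; ring⟩

theorem isPreconnected_good (a b s : ℂ) : IsPreconnected (good a b s) := by
  have h := (countable_compl_good a b s).isConnected_compl_of_one_lt_rank
    (by rw [Complex.rank_real_complex]; norm_num)
  rw [compl_compl] at h
  exact h.isPreconnected

theorem neBot_good (a b s : ℂ) : (𝓝[good a b s] (0 : ℂ)).NeBot := by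
  have h := (countable_compl_good a b s).dense_compl ℝ
  rw [compl_compl] at h
  exact mem_closure_iff_nhdsWithin_neBot.1 (h 0)

theorem le_ne (a b s : ℂ) : 𝓝[good a b s] (0 : ℂ) ≤ 𝓝[≠] (0 : ℂ) := by
  apply nhdsWithin_mono
  intro u hu
  simp only [Set.mem_compl_iff, Set.mem_singleton_iff]
  rintro rfl
  exact hu.1 (0, 0) (by simp [lat])

theorem wp_ne (h : Ind a b) {s u : ℂ} (hs : Off a b s) (hu : u ∈ good a b s) :
    wp a b u ≠ wp a b (s - u) := by
  intro he
  obtain ⟨h1, h2, h3⟩ := hu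
  have e1 := ode h h1
  have e2 := ode h h2
  rw [he, ← e2] at e1
  rcases sq_eq_sq_iff_eq_or_eq_neg.1 e1 with e | e
  · obtain ⟨x, hx⟩ := exists_lat_of_eq h h1 h2 he e
    exact h3 x (by rw [two_mul]; nth_rewrite 1 [hx]; ring)
  · obtain ⟨x, hx⟩ := exists_lat_of_eq h h1 (off_neg.2 h2) (he.trans (wp_neg h _).symm)
      (e.trans (wq_neg h _).symm)
    exact hs x (by linear_combination hx)

theorem mem_good (h : Ind a b) {u v : ℂ} (hu : Off a b u) (hv : Off a b v)
    (hne : wp a b u ≠ wp a b v) : u ∈ good a b (u + v) := by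
  refine ⟨hu, by simpa using hv, ?_⟩
  intro x hx
  apply hne
  have : u = v + lat a b x := by linear_combination hx
  rw [this, wp_add_lat h]

/-- the chord slope -/
noncomputable def lam (a b s u : ℂ) : ℂ :=
  (wq a b u - wq a b (s - u)) / (wp a b u - wp a b (s - u))

theorem hasDerivAt_lam (h : Ind a b) {s u : ℂ} (hs : Off a b s) (hu : u ∈ good a b s) :
    HasDerivAt (lam a b s) (2 * (wp a b u - wp a b (s - u))) u := by
  have hne := sub_ne_zero.2 (wp_ne h hs hu)
  obtain ⟨h1, h2, h3⟩ := hu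
  have p1 := hasDerivAt_wp h h1
  have p2 := (hasDerivAt_wp h h2).comp_const_sub s u
  have q1 := hasDerivAt_wq h h1
  have q2 := (hasDerivAt_wq h h2).comp_const_sub s u
  have e1 := ode h h1
  have e2 := ode h h2
  refine ((q1.sub q2).div (p1.sub p2) hne).congr_deriv ?_
  simp only [Pi.sub_apply]
  rw [div_eq_iff (pow_ne_zero 2 hne)]
  linear_combination (-1 : ℂ) * e1 + e2

theorem const_H (h : Ind a b) {s : ℂ} (hs : Off a b s) {u v : ℂ} (hu : u ∈ good a b s)
    (hv : v ∈ good a b s) :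
    wz a b u + wz a b (s - u) + 1 / 2 * lam a b s u =
      wz a b v + wz a b (s - v) + 1 / 2 * lam a b s v := by
  have key : ∀ w ∈ good a b s, HasDerivAt
      (fun w => wz a b w + wz a b (s - w) + 1 / 2 * lam a b s w) 0 w := by
    intro w hw
    have d1 := hasDerivAt_wz h hw.1
    have d2 := (hasDerivAt_wz h hw.2.1).comp_const_sub s w
    have d3 := (hasDerivAt_lam h hs hw).const_mul (1 / 2 : ℂ)
    refine ((d1.add d2).add d3).congr_deriv ?_
    ring
  exact (isOpen_good h s).is_const_of_deriv_eq_zero (isPreconnected_good a b s)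
    (fun w hw => (key w hw).differentiableAt.differentiableWithinAt)
    (fun w hw => (key w hw).deriv) hu hv

theorem const_K (h : Ind a b) {s : ℂ} (hs : Off a b s) {u v : ℂ} (hu : u ∈ good a b s)
    (hv : v ∈ good a b s) :
    (lam a b s u) ^ 2 / 4 - wp a b u - wp a b (s - u) =
      (lam a b s v) ^ 2 / 4 - wp a b v - wp a b (s - v) := by
  have key : ∀ w ∈ good a b s, HasDerivAt
      (fun w => (lam a b s w) ^ 2 / 4 - wp a b w - wp a b (s - w)) 0 w := by
    intro w hw
    have hne := sub_ne_zero.2 (wp_ne h hs hw)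
    have d1 := hasDerivAt_wp h hw.1
    have d2 := (hasDerivAt_wp h hw.2.1).comp_const_sub s w
    have d3 := ((hasDerivAt_lam h hs hw).pow 2).div_const (4 : ℂ)
    refine ((d3.sub d1).sub d2).congr_deriv ?_
    have : lam a b s w * (wp a b w - wp a b (s - w)) = wq a b w - wq a b (s - w) := by
      rw [lam, div_mul_cancel₀ _ hne]
    simp only [Nat.cast_ofNat, Nat.add_one_sub_one, pow_one]
    linear_combination this
  exact (isOpen_good h s).is_const_of_deriv_eq_zero (isPreconnected_good a b s)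
    (fun w hw => (key w hw).differentiableAt.differentiableWithinAt)
    (fun w hw => (key w hw).deriv) hu hv

/-- the correction term `E`, with `λ / 2 = - 1 / u + u E` -/
noncomputable def EE (a b s u : ℂ) : ℂ :=
  (u * (wq a b u - wq a b (s - u)) + 2 * (wp a b u - wp a b (s - u))) /
    (2 * (u ^ 2 * (wp a b u - wp a b (s - u))))

theorem tendsto_id_zero (l : Filter ℂ) (hl : l ≤ 𝓝[≠] (0 : ℂ)) : Tendsto (fun u : ℂ => u) l (𝓝 0) :=
  hl.trans nhdsWithin_le_nhds

theorem tendsto_wp_sub (h : Ind a b) : Tendsto (fun u => wp a b u - 1 / u ^ 2) (𝓝[≠] 0) (𝓝 0) := by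
  have h1 := tendsto_wp_zero h
  have h2 : Tendsto (fun u : ℂ => u ^ 2) (𝓝[≠] 0) (𝓝 0) := by
    have := (tendsto_id_zero _ le_rfl).pow 2
    simpa using this
  have h3 := h1.mul h2
  rw [mul_zero] at h3
  refine h3.congr' ?_
  filter_upwards [self_mem_nhdsWithin] with u hu
  rw [div_mul_cancel₀ _ (pow_ne_zero 2 hu)]

theorem tendsto_wq_sub (h : Ind a b) :
    Tendsto (fun u => u * wq a b u + 2 / u ^ 2) (𝓝[≠] 0) (𝓝 0) := by
  have h1 := tendsto_wq_zero h
  have h2 : Tendsto (fun u : ℂ => u ^ 2) (𝓝[≠] 0) (𝓝 0) := by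
    have := (tendsto_id_zero _ le_rfl).pow 2
    simpa using this
  have h3 := h1.mul h2
  rw [mul_zero] at h3
  refine h3.congr' ?_
  filter_upwards [self_mem_nhdsWithin] with u hu
  have hu' : u ≠ 0 := hu
  field_simp

theorem tendsto_wz_sub (h : Ind a b) : Tendsto (fun u => wz a b u - 1 / u) (𝓝[≠] 0) (𝓝 0) := by
  have h1 := tendsto_wz_zero h
  have h2 : Tendsto (fun u : ℂ => u ^ 3) (𝓝[≠] 0) (𝓝 0) := by
    have := (tendsto_id_zero _ le_rfl).pow 3
    simpa using this
  have h3 := h1.mul h2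
  rw [mul_zero] at h3
  refine h3.congr' ?_
  filter_upwards [self_mem_nhdsWithin] with u hu
  rw [div_mul_cancel₀ _ (pow_ne_zero 3 hu)]

theorem tendsto_shift {f : ℂ → ℂ} {s : ℂ} (hf : ContinuousAt f s) :
    Tendsto (fun u => f (s - u)) (𝓝[≠] 0) (𝓝 (f s)) := by
  have h1 : Tendsto (fun u : ℂ => s - u) (𝓝[≠] 0) (𝓝 s) := by
    have := (tendsto_const_nhds (x := s) (f := 𝓝[≠] (0 : ℂ))).sub (tendsto_id_zero _ le_rfl)
    simpa using this
  exact hf.tendsto.comp h1

theorem tendsto_D (h : Ind a b) {s : ℂ} (hs : Off a b s) :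
    Tendsto (fun u => u ^ 2 * (wp a b u - wp a b (s - u))) (𝓝[≠] 0) (𝓝 1) := by
  have h1 := tendsto_wp_sub h
  have h2 : Tendsto (fun u : ℂ => u ^ 2) (𝓝[≠] 0) (𝓝 0) := by
    have := (tendsto_id_zero _ le_rfl).pow 2
    simpa using this
  have h3 := tendsto_shift (hasDerivAt_wp h hs).continuousAt
  have h4 := (h2.mul (h1.sub h3)).const_add 1
  rw [zero_mul, add_zero] at h4
  refine h4.congr' ?_
  filter_upwards [self_mem_nhdsWithin] with u hu
  have hu' : u ≠ 0 := hu
  field_simp
  ring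

theorem tendsto_EE (h : Ind a b) {s : ℂ} (hs : Off a b s) :
    Tendsto (EE a b s) (𝓝[≠] 0) (𝓝 (-wp a b s)) := by
  have h1 := tendsto_wp_sub h
  have h2 := tendsto_wq_sub h
  have h3 := tendsto_shift (hasDerivAt_wp h hs).continuousAt
  have h4 := tendsto_shift (hasDerivAt_wq h hs).continuousAt
  have h5 := tendsto_D h hs
  have h0 := tendsto_id_zero _ (le_refl (𝓝[≠] (0 : ℂ)))
  have h6 : Tendsto (fun u => (u * (wq a b u - wq a b (s - u)) +
      2 * (wp a b u - wp a b (s - u)))) (𝓝[≠] 0) (𝓝 (-2 * wp a b s)) := by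
    have := ((h2.add (h1.const_mul 2)).sub (h0.mul h4)).sub (h3.const_mul 2)
    have e : (0 : ℂ) + 2 * 0 - 0 * wq a b s - 2 * wp a b s = -2 * wp a b s := by ring
    rw [e] at this
    refine this.congr' ?_
    filter_upwards [self_mem_nhdsWithin] with u hu
    have hu' : u ≠ 0 := hu
    field_simp
    ring
  have h7 := h6.div (h5.const_mul 2) (by norm_num)
  have e : -2 * wp a b s / (2 * 1) = -wp a b s := by ring
  rw [e] at h7
  exact h7

theorem lam_eq {s u : ℂ} (hu : u ≠ 0) (hne : wp a b u - wp a b (s - u) ≠ 0) :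
    lam a b s u = 2 * (-1 / u + u * EE a b s u) := by
  rw [lam, EE]
  field_simp
  ring

theorem H_eq (h : Ind a b) {s : ℂ} (hs : Off a b s) {u : ℂ} (hu : u ∈ good a b s) :
    wz a b u + wz a b (s - u) + 1 / 2 * lam a b s u = wz a b s := by
  have hb := neBot_good a b s
  have hl := le_ne a b s
  have h0 := tendsto_id_zero _ hl
  have h1 := (tendsto_wz_sub h).mono_left hl
  have h3 := (tendsto_shift (hasDerivAt_wz h hs).continuousAt).mono_left hl
  have h4 := (tendsto_EE h hs).mono_left hl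
  have h5 := (h1.add h3).add (h0.mul h4)
  rw [zero_add, zero_mul, add_zero] at h5
  refine tendsto_nhds_unique_of_eventuallyEq tendsto_const_nhds h5 ?_
  filter_upwards [self_mem_nhdsWithin, hl self_mem_nhdsWithin] with w hw hw0
  rw [const_H h hs hu hw, lam_eq hw0 (sub_ne_zero.2 (wp_ne h hs hw))]
  ring

theorem K_eq (h : Ind a b) {s : ℂ} (hs : Off a b s) {u : ℂ} (hu : u ∈ good a b s) :
    (lam a b s u) ^ 2 / 4 - wp a b u - wp a b (s - u) = wp a b s := by
  have hb := neBot_good a b s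
  have hl := le_ne a b s
  have h0 := tendsto_id_zero _ hl
  have h1 := (tendsto_wp_sub h).mono_left hl
  have h3 := (tendsto_shift (hasDerivAt_wp h hs).continuousAt).mono_left hl
  have h4 := (tendsto_EE h hs).mono_left hl
  have h5 := ((((h0.mul h4).pow 2).sub (h4.const_mul 2)).sub h1).sub h3
  have e : (0 * -wp a b s) ^ 2 - 2 * -wp a b s - 0 - wp a b s = wp a b s := by ring
  rw [e] at h5
  refine tendsto_nhds_unique_of_eventuallyEq tendsto_const_nhds h5 ?_
  filter_upwards [self_mem_nhdsWithin, hl self_mem_nhdsWithin] with w hw hw0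
  have hw0' : w ≠ 0 := hw0
  rw [const_K h hs hu hw, lam_eq hw0 (sub_ne_zero.2 (wp_ne h hs hw))]
  field_simp
  ring

theorem alg_aux {X Y X' Y' g g' : ℂ} (hd : X - X' ≠ 0) (e1 : Y ^ 2 = 4 * X ^ 3 - g * X - g')
    (e2 : Y' ^ 2 = 4 * X' ^ 3 - g * X' - g') :
    2 * ((Y - Y') / (X - X')) *
          ((-(6 * X' ^ 2 - g / 2) * (X - X') - (Y - Y') * -Y') / (X - X') ^ 2) / 4 - Y' =
      -(Y + (Y - Y') / (X - X') * (((Y - Y') / (X - X')) ^ 2 / 4 - X - X' - X)) := by
  have key : 2 * ((Y - Y') / (X - X')) *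
          ((-(6 * X' ^ 2 - g / 2) * (X - X') - (Y - Y') * -Y') / (X - X') ^ 2) / 4 - Y' -
      -(Y + (Y - Y') / (X - X') * (((Y - Y') / (X - X')) ^ 2 / 4 - X - X' - X)) =
      (Y - Y') * (Y ^ 2 - (4 * X ^ 3 - g * X - g') - (Y' ^ 2 - (4 * X' ^ 3 - g * X' - g'))) /
        (4 * (X - X') ^ 3) := by
    field_simp
    ring
  rw [← sub_eq_zero, key, e1, e2]
  simp

end Add

section
variable {a b : ℂ}

open Pool.Agent.EllSch.Add

theorem wz_add (h : Ind a b) {u v : ℂ} (hu : Off a b u) (hv : Off a b v) (huv : Off a b (u + v))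
    (hne : wp a b u ≠ wp a b v) :
    wz a b (u + v) = wz a b u + wz a b v +
      1 / 2 * ((wq a b u - wq a b v) / (wp a b u - wp a b v)) := by
  have := H_eq h huv (mem_good h hu hv hne)
  rw [lam, add_sub_cancel_left] at this
  exact this.symm

theorem wp_add (h : Ind a b) {u v : ℂ} (hu : Off a b u) (hv : Off a b v) (huv : Off a b (u + v))
    (hne : wp a b u ≠ wp a b v) :
    wp a b (u + v) = ((wq a b u - wq a b v) / (wp a b u - wp a b v)) ^ 2 / 4
      - wp a b u - wp a b v := by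
  have := K_eq h huv (mem_good h hu hv hne)
  rw [lam, add_sub_cancel_left] at this
  exact this.symm

theorem wq_add (h : Ind a b) {u v : ℂ} (hu : Off a b u) (hv : Off a b v) (huv : Off a b (u + v))
    (hne : wp a b u ≠ wp a b v) :
    wq a b (u + v) = -(wq a b u +
      (wq a b u - wq a b v) / (wp a b u - wp a b v) * (wp a b (u + v) - wp a b u)) := by
  have hne' : wp a b u - wp a b v ≠ 0 := sub_ne_zero.2 hne
  have e1 := ode h hu
  have e2 := ode h hv
  have d0 : HasDerivAt (fun w => wp a b (u + w)) (wq a b (u + v)) v :=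
    (hasDerivAt_wp h huv).comp_const_add u v
  have p := hasDerivAt_wp h hv
  have q := hasDerivAt_wq h hv
  have d1 := ((((q.const_sub (wq a b u)).div (p.const_sub (wp a b u)) hne').pow 2).div_const
    (4 : ℂ)).sub_const (wp a b u) |>.sub p
  have hev : (fun w => wp a b (u + w)) =ᶠ[𝓝 v] fun w =>
      ((wq a b u - wq a b w) / (wp a b u - wp a b w)) ^ 2 / 4 - wp a b u - wp a b w := by
    have o1 : ∀ᶠ w in 𝓝 v, Off a b w := (isOpen_off h).mem_nhds hv
    have o2 : ∀ᶠ w in 𝓝 v, Off a b (u + w) :=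
      ((isOpen_off h).preimage (by fun_prop : Continuous fun w : ℂ => u + w)).mem_nhds huv
    have o3 : ∀ᶠ w in 𝓝 v, wp a b w ≠ wp a b u := p.continuousAt.eventually_ne hne.symm
    filter_upwards [o1, o2, o3] with w w1 w2 w3
    exact wp_add h hu w1 w2 w3.symm
  have hk := d0.unique (d1.congr_of_eventuallyEq hev)
  rw [hk, wp_add h hu hv huv hne]
  simp only [Nat.cast_ofNat, Nat.add_one_sub_one, pow_one, Pi.div_apply]
  exact alg_aux hne' e1 e2

/-- the slope tends to `℘'' / ℘'` -/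
theorem tendsto_lam (h : Ind a b) {u : ℂ} (hu : Off a b u) (hq : wq a b u ≠ 0) :
    Tendsto (fun v => (wq a b u - wq a b v) / (wp a b u - wp a b v)) (𝓝[≠] u)
      (𝓝 ((6 * wp a b u ^ 2 - G2 a b / 2) / wq a b u)) := by
  have p := hasDerivAt_iff_tendsto_slope.1 (hasDerivAt_wp h hu)
  have q := hasDerivAt_iff_tendsto_slope.1 (hasDerivAt_wq h hu)
  refine (q.div p hq).congr' ?_
  filter_upwards [self_mem_nhdsWithin] with v hv
  have hv' : v - u ≠ 0 := sub_ne_zero.2 hv
  rw [Pi.div_apply, slope_def_field, slope_def_field, div_div_div_cancel_right₀ hv', ← neg_sub,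
    ← neg_sub (wp a b u), neg_div_neg_eq]

theorem eventually_two (h : Ind a b) {u : ℂ} (hu : Off a b u) (huu : Off a b (2 * u))
    (hq : wq a b u ≠ 0) : ∀ᶠ v in 𝓝[≠] u, Off a b v ∧ Off a b (u + v) ∧ wp a b u ≠ wp a b v := by
  have o1 : ∀ᶠ w in 𝓝 u, Off a b w := (isOpen_off h).mem_nhds hu
  have o2 : ∀ᶠ w in 𝓝 u, Off a b (u + w) :=
    ((isOpen_off h).preimage (by fun_prop : Continuous fun w : ℂ => u + w)).mem_nhds
      (by simpa [two_mul] using huu)
  have o3 := (hasDerivAt_wp h hu).eventually_ne (c := wp a b u) hq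
  filter_upwards [nhdsWithin_le_nhds o1, nhdsWithin_le_nhds o2, o3] with w w1 w2 w3
  exact ⟨w1, w2, w3.symm⟩

theorem tendsto_two {f : ℂ → ℂ} {u : ℂ} (hf : ContinuousAt f (2 * u)) :
    Tendsto (fun v => f (u + v)) (𝓝[≠] u) (𝓝 (f (2 * u))) := by
  have h1 : Tendsto (fun v : ℂ => u + v) (𝓝[≠] u) (𝓝 (2 * u)) := by
    have : Tendsto (fun v : ℂ => u + v) (𝓝 u) (𝓝 (u + u)) :=
      (continuous_const.add continuous_id).tendsto u
    rw [← two_mul] at this
    exact this.mono_left nhdsWithin_le_nhds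
  exact hf.tendsto.comp h1

theorem wz_two_mul (h : Ind a b) {u : ℂ} (hu : Off a b u) (huu : Off a b (2 * u)) :
    wz a b (2 * u) = 2 * wz a b u +
      1 / 2 * ((6 * wp a b u ^ 2 - G2 a b / 2) / wq a b u) := by
  have hq := wq_ne_zero h huu
  have t1 := tendsto_two (hasDerivAt_wz h huu).continuousAt
  have t2 : Tendsto (wz a b) (𝓝[≠] u) (𝓝 (wz a b u)) :=
    (hasDerivAt_wz h hu).continuousAt.tendsto.mono_left nhdsWithin_le_nhds
  have t3 := (t2.const_add (wz a b u)).add ((tendsto_lam h hu hq).const_mul (1 / 2))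
  have := tendsto_nhds_unique_of_eventuallyEq t1 t3 (by
    filter_upwards [eventually_two h hu huu hq] with v hv
    exact wz_add h hu hv.1 hv.2.1 hv.2.2)
  rw [this]
  ring

theorem wp_two_mul (h : Ind a b) {u : ℂ} (hu : Off a b u) (huu : Off a b (2 * u)) :
    wp a b (2 * u) = ((6 * wp a b u ^ 2 - G2 a b / 2) / wq a b u) ^ 2 / 4
      - 2 * wp a b u := by
  have hq := wq_ne_zero h huu
  have t1 := tendsto_two (hasDerivAt_wp h huu).continuousAt
  have t2 : Tendsto (wp a b) (𝓝[≠] u) (𝓝 (wp a b u)) :=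
    (hasDerivAt_wp h hu).continuousAt.tendsto.mono_left nhdsWithin_le_nhds
  have t3 := ((((tendsto_lam h hu hq).pow 2).div_const 4).sub_const (wp a b u)).sub t2
  have := tendsto_nhds_unique_of_eventuallyEq t1 t3 (by
    filter_upwards [eventually_two h hu huu hq] with v hv
    exact wp_add h hu hv.1 hv.2.1 hv.2.2)
  rw [this]
  ring

theorem wq_two_mul (h : Ind a b) {u : ℂ} (hu : Off a b u) (huu : Off a b (2 * u)) :
    wq a b (2 * u) = -(wq a b u +
      (6 * wp a b u ^ 2 - G2 a b / 2) / wq a b u * (wp a b (2 * u) - wp a b u)) := by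
  have hq := wq_ne_zero h huu
  have t1 := tendsto_two (hasDerivAt_wq h huu).continuousAt
  have t0 := tendsto_two (hasDerivAt_wp h huu).continuousAt
  have t3 := (((tendsto_lam h hu hq).mul (t0.sub_const (wp a b u))).const_add (wq a b u)).neg
  exact tendsto_nhds_unique_of_eventuallyEq t1 t3 (by
    filter_upwards [eventually_two h hu huu hq] with v hv
    exact wq_add h hu hv.1 hv.2.1 hv.2.2)

end

end Pool.Agent.EllSch
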