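import Pool.Agent.EllSch.Lattice

/-! # [Z] The Weierstrass zeta function -/

open Filter Topology

namespace Pool.Agent.EllSch

namespace Zeta

open PeriodPair

/-- the general term of the zeta series -/
noncomputable def T (l z : ℂ) : ℂ := 1 / (z - l) + 1 / l + z / l ^ 2

theorem T_bound (r : ℝ) (hr : 0 < r) (s : ℂ) (hs : ‖s‖ < r) (l : ℂ) (h : 2 * r ≤ ‖l‖) :
    ‖T l s‖ ≤ 2 * r ^ 2 * ‖l‖ ^ (-3 : ℝ) := by
  have hl : 0 < ‖l‖ := by linarith
  have hl0 : l ≠ 0 := norm_pos_iff.1 hl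
  have hsl : ‖l‖ / 2 ≤ ‖s - l‖ := by
    rw [norm_sub_rev]
    exact .trans (by linarith) (norm_sub_norm_le l s)
  have hsl0 : s - l ≠ 0 := norm_pos_iff.1 (by linarith)
  have h1 : T l s = s ^ 2 / ((s - l) * l ^ 2) := by
    unfold T
    field_simp
    ring
  rw [h1, norm_div, norm_mul, norm_pow, norm_pow]
  calc ‖s‖ ^ 2 / (‖s - l‖ * ‖l‖ ^ 2) ≤ r ^ 2 / ((‖l‖ / 2) * ‖l‖ ^ 2) := by gcongr
    _ = 2 * r ^ 2 / ‖l‖ ^ 3 := by field_simp
    _ = _ := by
      rw [Real.rpow_neg hl.le, div_eq_mul_inv]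
      norm_cast

variable (L : PeriodPair)

/-- the zeta series with the term at `l₀` omitted -/
noncomputable def zE (l₀ z : ℂ) : ℂ := ∑' l : L.lattice, if l.1 = l₀ then 0 else T l z

theorem hasSumLU (l₀ : ℂ) :
    HasSumLocallyUniformly (fun (l : L.lattice) (z : ℂ) ↦ if l.1 = l₀ then 0 else T l z)
      (zE L l₀) := by
  refine L.hasSumLocallyUniformly_aux (u := (2 * · ^ 2 * ‖·‖ ^ (-3 : ℝ))) _
    (fun _ _ ↦ (ZLattice.summable_norm_rpow _ _ (by simp; norm_num)).mul_left _) fun r hr ↦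
    Filter.eventually_atTop.mpr ⟨2 * r, ?_⟩
  rintro _ h s hs l rfl
  split_ifs
  · simpa using! show 0 ≤ 2 * r ^ 2 * (‖(l : ℂ)‖ ^ 3)⁻¹ by positivity
  · exact T_bound r hr s hs l h

theorem hasDerivAt_T {l z : ℂ} (h : z ≠ l) :
    HasDerivAt (T l) (-(1 / (z - l) ^ 2 - 1 / l ^ 2)) z := by
  unfold T
  have h0 : z - l ≠ 0 := sub_ne_zero.2 h
  have h1 : HasDerivAt (fun z : ℂ => 1 / (z - l)) (-(1 / (z - l) ^ 2)) z := by
    have := ((hasDerivAt_id z).sub_const l).fun_inv h0
    simpa [one_div, neg_div] using this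
  have h2 : HasDerivAt (fun z : ℂ => z / l ^ 2) (1 / l ^ 2) z := (hasDerivAt_id z).div_const _
  refine ((h1.add_const (1 / l)).add h2).congr_deriv ?_
  ring

theorem hasDerivAt_zE (l₀ : ℂ) {z : ℂ} (hz : z ∈ ((L.lattice : Set ℂ) \ {l₀})ᶜ) :
    HasDerivAt (zE L l₀) (-L.weierstrassPExcept l₀ z) z := by
  have hopen := L.isOpen_compl_lattice_sdiff (s := {l₀})
  have hterm : ∀ l : L.lattice, ∀ w ∈ ((L.lattice : Set ℂ) \ {l₀})ᶜ,
      HasDerivAt (fun z => if l.1 = l₀ then 0 else T l z)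
        (-(if l.1 = l₀ then 0 else (1 / (w - l) ^ 2 - 1 / (l : ℂ) ^ 2))) w := by
    intro l w hw
    split_ifs with hl
    · simpa using hasDerivAt_const w (0 : ℂ)
    · apply hasDerivAt_T
      rintro rfl
      exact hw ⟨l.2, hl⟩
  have hLU := (hasSumLU L l₀).tendstoLocallyUniformlyOn (s := ((L.lattice : Set ℂ) \ {l₀})ᶜ)
  have hd : ∀ᶠ s : Finset L.lattice in atTop, DifferentiableOn ℂ
      (fun z => ∑ l ∈ s, if l.1 = l₀ then 0 else T l z) ((L.lattice : Set ℂ) \ {l₀})ᶜ :=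
    .of_forall fun s w hw => by
      have : HasDerivAt (fun z => ∑ l ∈ s, if l.1 = l₀ then 0 else T l z)
          (∑ l ∈ s, -(if l.1 = l₀ then 0 else (1 / (w - l) ^ 2 - 1 / (l : ℂ) ^ 2))) w :=
        HasDerivAt.fun_sum fun l _ => hterm l w hw
      exact this.differentiableAt.differentiableWithinAt
  have h1 : DifferentiableOn ℂ (zE L l₀) ((L.lattice : Set ℂ) \ {l₀})ᶜ :=
    hLU.differentiableOn hd hopen
  have h2 := (hLU.deriv hd hopen).tendsto_at hz
  have h3 : Tendsto (fun s : Finset L.lattice => ∑ l ∈ s,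
      -(if l.1 = l₀ then 0 else (1 / (z - l) ^ 2 - 1 / (l : ℂ) ^ 2))) atTop
      (𝓝 (-L.weierstrassPExcept l₀ z)) :=
    (L.hasSum_weierstrassPExcept l₀ z).neg
  have h4 : deriv (zE L l₀) z = -L.weierstrassPExcept l₀ z := by
    refine tendsto_nhds_unique h2 (h3.congr fun s => ?_)
    have : HasDerivAt (fun z => ∑ l ∈ s, if l.1 = l₀ then 0 else T l z)
          (∑ l ∈ s, -(if l.1 = l₀ then 0 else (1 / (z - l) ^ 2 - 1 / (l : ℂ) ^ 2))) z :=
        HasDerivAt.fun_sum fun l _ => hterm l z hz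
    exact this.deriv.symm
  rw [← h4]
  exact (h1.differentiableAt (hopen.mem_nhds hz)).hasDerivAt

theorem summable_T (z : ℂ) : Summable fun l : L.lattice => T l z := by
  have h := (hasSumLU L (L.ω₁ / 2)).hasSum (x := z)
  refine h.summable.congr fun l => ?_
  rw [if_neg]
  exact fun e ↦ L.ω₁_div_two_notMem_lattice (e ▸ l.2)

theorem zE_half (z : ℂ) : zE L (L.ω₁ / 2) z = ∑' l : L.lattice, T l z := by
  unfold zE
  congr! 2 with l
  rw [if_neg]
  exact fun e ↦ L.ω₁_div_two_notMem_lattice (e ▸ l.2)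

theorem zE_zero (z : ℂ) : ∑' l : L.lattice, T l z = zE L 0 z + 1 / z := by
  have h1 : zE L 0 z + 1 / z = zE L 0 z + ∑' l : L.lattice, if l = 0 then 1 / z else 0 := by
    simp
  rw [h1, zE, ← Summable.tsum_add]
  · congr with l
    by_cases hl : l = 0
    · subst hl
      simp [T]
    · have : (l : ℂ) ≠ 0 := by simpa using hl
      simp [hl, this]
  · exact ((hasSumLU L 0).hasSum (x := z)).summable
  · exact summable_of_hasFiniteSupport ((Set.finite_singleton (0 : L.lattice)).subset (by simp))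

theorem symm_apply {a b : ℂ} (h : Ind a b) (x : ℤ × ℤ) :
    (((pp h).latticeEquivProd.symm x : (pp h).lattice) : ℂ) = lat a b x := by
  rw [latticeEquiv_symm_apply]
  rfl

theorem wz_eq {a b : ℂ} (h : Ind a b) (z : ℂ) :
    wz a b z = ∑' l : (pp h).lattice, T l z := by
  rw [← (pp h).latticeEquivProd.symm.toEquiv.tsum_eq]
  unfold wz
  congr with x
  change _ = T (((pp h).latticeEquivProd.symm x : (pp h).lattice) : ℂ) z
  rw [symm_apply h x]
  rfl

theorem wz_eq_zE {a b : ℂ} (h : Ind a b) : wz a b = zE (pp h) ((pp h).ω₁ / 2) := by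
  funext z
  rw [wz_eq h, zE_half]

theorem off_half {a b : ℂ} (h : Ind a b) : Off a b (a / 2) := by
  rw [off_iff h]
  exact (pp h).ω₁_div_two_notMem_lattice

end Zeta

open Zeta

theorem summable_wz {a b : ℂ} (h : Ind a b) (z : ℂ) :
    Summable fun x : ℤ × ℤ => 1 / (z - lat a b x) + 1 / lat a b x + z / lat a b x ^ 2 := by
  have h1 := summable_T (pp h) z
  rw [← (pp h).latticeEquivProd.symm.toEquiv.summable_iff] at h1
  refine h1.congr fun x => ?_
  change T (((pp h).latticeEquivProd.symm x : (pp h).lattice) : ℂ) z = _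
  rw [symm_apply h x]
  rfl

theorem hasDerivAt_wz {a b : ℂ} (h : Ind a b) {z : ℂ} (hz : Off a b z) :
    HasDerivAt (wz a b) (-wp a b z) z := by
  rw [wz_eq_zE h, wp_eq h, ← (pp h).weierstrassPExcept_of_notMem _
    (pp h).ω₁_div_two_notMem_lattice]
  apply hasDerivAt_zE
  rw [off_iff h] at hz
  rintro ⟨h1, _⟩
  exact hz h1

theorem wz_neg (a b z : ℂ) : wz a b (-z) = -wz a b z := by
  unfold wz
  rw [← (Equiv.neg (ℤ × ℤ)).tsum_eq, ← tsum_neg]
  congr with x
  have h1 : lat a b ((Equiv.neg (ℤ × ℤ)) x) = -lat a b x := by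
    simp [lat]
    ring
  rw [h1]
  have h2 : -z - -lat a b x = -(z - lat a b x) := by ring
  rw [h2, one_div, one_div, one_div, one_div, inv_neg, inv_neg, neg_sq, neg_div]
  ring

namespace Zeta

theorem exists_const {a b : ℂ} (h : Ind a b) (x : ℤ × ℤ) :
    ∃ c : ℂ, ∀ z, Off a b z → wz a b (z + lat a b x) - wz a b z = c := by
  apply (isOpen_off h).exists_is_const_of_deriv_eq_zero (isPreconnected_off h)
    (f := fun z => wz a b (z + lat a b x) - wz a b z)
  · intro z hz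
    have h1 : HasDerivAt (fun z => wz a b (z + lat a b x)) (-wp a b (z + lat a b x)) z :=
      HasDerivAt.comp_add_const _ _ (hasDerivAt_wz h ((off_add_lat x).2 hz))
    exact (h1.sub (hasDerivAt_wz h hz)).differentiableAt.differentiableWithinAt
  · intro z hz
    have h1 : HasDerivAt (fun z => wz a b (z + lat a b x)) (-wp a b (z + lat a b x)) z :=
      HasDerivAt.comp_add_const _ _ (hasDerivAt_wz h ((off_add_lat x).2 hz))
    have := (h1.sub (hasDerivAt_wz h hz)).deriv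
    rw [wp_add_lat h, sub_self] at this
    exact this

/-- the quasi-period homomorphism -/
noncomputable def cst {a b : ℂ} (h : Ind a b) (x : ℤ × ℤ) : ℂ := (exists_const h x).choose

theorem cst_spec {a b : ℂ} (h : Ind a b) (x : ℤ × ℤ) {z : ℂ} (hz : Off a b z) :
    wz a b (z + lat a b x) = wz a b z + cst h x := by
  have := (exists_const h x).choose_spec z hz
  unfold cst
  rw [← this]
  ring

theorem lat_add (a b : ℂ) (x y : ℤ × ℤ) : lat a b (x + y) = lat a b x + lat a b y := by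
  simp only [lat, Prod.fst_add, Prod.snd_add]
  push_cast
  ring

theorem cst_add {a b : ℂ} (h : Ind a b) (x y : ℤ × ℤ) : cst h (x + y) = cst h x + cst h y := by
  have hz := off_half h
  have h1 := cst_spec h (x + y) hz
  rw [lat_add, ← add_assoc, cst_spec h y ((off_add_lat x).2 hz), cst_spec h x hz] at h1
  linear_combination -h1

/-- the homomorphism -/
noncomputable def cstHom {a b : ℂ} (h : Ind a b) : ℤ × ℤ →+ ℂ :=
  AddMonoidHom.mk' (cst h) (cst_add h)

theorem cst_half {a b : ℂ} (h : Ind a b) (x : ℤ × ℤ) (hx : Off a b (lat a b x / 2)) :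
    cst h x = 2 * wz a b (lat a b x / 2) := by
  have h1 := cst_spec h x (off_neg.2 hx)
  rw [wz_neg] at h1
  have h2 : -(lat a b x / 2) + lat a b x = lat a b x / 2 := by ring
  rw [h2] at h1
  linear_combination -h1

theorem off_half' {a b : ℂ} (h : Ind a b) : Off a b (b / 2) := by
  rw [off_iff h]
  exact (pp h).ω₂_div_two_notMem_lattice

theorem cst_eq {a b : ℂ} (h : Ind a b) (x : ℤ × ℤ) : cst h x = eta a b x := by
  have h1 : cst h (1, 0) = eta1 a b := by
    have e : lat a b (1, 0) = a := by simp [lat]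
    rw [cst_half h (1, 0) (by rw [e]; exact off_half h), e]
    rfl
  have h2 : cst h (0, 1) = eta2 a b := by
    have e : lat a b (0, 1) = b := by simp [lat]
    rw [cst_half h (0, 1) (by rw [e]; exact off_half' h), e]
    rfl
  have h3 : x = x.1 • ((1, 0) : ℤ × ℤ) + x.2 • ((0, 1) : ℤ × ℤ) := by
    ext <;> simp
  have h4 : cst h x = cstHom h x := rfl
  rw [h4, h3, map_add, map_zsmul, map_zsmul]
  have h5 : cstHom h (1, 0) = eta1 a b := h1
  have h6 : cstHom h (0, 1) = eta2 a b := h2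
  rw [h5, h6]
  simp [eta]

end Zeta

theorem wz_add_lat {a b : ℂ} (h : Ind a b) {z : ℂ} (hz : Off a b z) (x : ℤ × ℤ) :
    wz a b (z + lat a b x) = wz a b z + eta a b x := by
  rw [cst_spec h x hz, cst_eq]

theorem tendsto_wz_zero {a b : ℂ} (h : Ind a b) :
    Tendsto (fun z => (wz a b z - 1 / z) / z ^ 3) (𝓝[≠] 0) (𝓝 (-(G2 a b / 60))) := by
  set L := pp h with hL
  set γ := G2 a b with hγ
  -- `F = ζ - 1/z + γ z^3 / 60`
  set F : ℂ → ℂ := fun z => zE L 0 z + γ / 60 * z ^ 3 with hF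
  have hmem : ((L.lattice : Set ℂ) \ {0})ᶜ ∈ 𝓝 (0 : ℂ) := L.compl_lattice_sdiff_singleton_mem_nhds 0
  have hFd : ∀ z ∈ ((L.lattice : Set ℂ) \ {0})ᶜ,
      HasDerivAt F (-L.weierstrassPExcept 0 z + γ / 20 * z ^ 2) z := by
    intro z hz
    have h1 := (hasDerivAt_zE L 0 hz).add (((hasDerivAt_pow 3 z).const_mul (γ / 60)))
    refine h1.congr_deriv ?_
    push_cast
    ring
  have hF0 : F 0 = 0 := by
    simp [hF, zE, T]
  have hwp : ∀ z : ℂ, z ≠ 0 → L.weierstrassPExcept 0 z = wp a b z - 1 / z ^ 2 := by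
    intro z hz
    have := L.weierstrassPExcept_def 0 z
    simp only [Submodule.coe_zero, sub_zero] at this
    rw [this, wp_eq h]
    simp
    ring
  -- the derivative is `o(z^2)`
  have hsmall : ∀ ε > 0, ∀ᶠ z in 𝓝 (0 : ℂ), ‖-L.weierstrassPExcept 0 z + γ / 20 * z ^ 2‖
      ≤ ε * ‖z‖ ^ 2 := by
    intro ε hε
    have h1 := tendsto_wp_zero h
    rw [Metric.tendsto_nhds] at h1
    have h2 := h1 ε hε
    rw [eventually_nhdsWithin_iff] at h2
    filter_upwards [h2] with z hz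
    by_cases hz0 : z = 0
    · subst hz0
      simp
    · have h3 := hz hz0
      rw [dist_eq_norm] at h3
      have h4 : -L.weierstrassPExcept 0 z + γ / 20 * z ^ 2 =
          -((wp a b z - 1 / z ^ 2) / z ^ 2 - γ / 20) * z ^ 2 := by
        rw [hwp z hz0]
        field_simp
        ring
      rw [h4, norm_mul, norm_neg, norm_pow]
      gcongr
  have hFs : ∀ ε > 0, ∀ᶠ z in 𝓝 (0 : ℂ), ‖F z‖ ≤ ε * ‖z‖ ^ 3 := by
    intro ε hε
    have h1 := (hsmall ε hε).and hmem
    obtain ⟨δ, hδ, h2⟩ := Metric.eventually_nhds_iff_ball.1 h1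
    filter_upwards [Metric.ball_mem_nhds (0 : ℂ) hδ] with z hz
    have hz' : ‖z‖ < δ := by simpa using hz
    have hsub : Metric.closedBall (0 : ℂ) ‖z‖ ⊆ Metric.ball 0 δ :=
      Metric.closedBall_subset_ball hz'
    have h3 := (convex_closedBall (0 : ℂ) ‖z‖).norm_image_sub_le_of_norm_hasDerivWithin_le
      (f := F) (f' := fun z => -L.weierstrassPExcept 0 z + γ / 20 * z ^ 2) (C := ε * ‖z‖ ^ 2)
      (x := 0) (y := z)
      (fun w hw => (hFd w (h2 w (hsub hw)).2).hasDerivWithinAt)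
      (fun w hw => by
        refine (h2 w (hsub hw)).1.trans ?_
        have : ‖w‖ ≤ ‖z‖ := by simpa using hw
        gcongr)
      (by simp) (by simp)
    rw [hF0, sub_zero, sub_zero] at h3
    calc ‖F z‖ ≤ ε * ‖z‖ ^ 2 * ‖z‖ := h3
      _ = ε * ‖z‖ ^ 3 := by ring
  rw [Metric.tendsto_nhds]
  intro ε hε
  rw [eventually_nhdsWithin_iff]
  filter_upwards [hFs (ε / 2) (by positivity)] with z hz hz0
  have hz0' : z ≠ 0 := hz0
  have h1 : (wz a b z - 1 / z) / z ^ 3 - -(γ / 60) = F z / z ^ 3 := by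
    rw [wz_eq h, zE_zero]
    simp only [hF]
    field_simp
    ring
  rw [dist_eq_norm, h1, norm_div, norm_pow]
  have h2 : 0 < ‖z‖ ^ 3 := by positivity
  calc ‖F z‖ / ‖z‖ ^ 3 ≤ (ε / 2 * ‖z‖ ^ 3) / ‖z‖ ^ 3 := by gcongr
    _ = ε / 2 := by field_simp
    _ < ε := by linarith

theorem eta1_change {a b : ℂ} {p q r s : ℤ} (h : Ind a b) (hd : p * s - q * r = 1) :
    eta1 (p * a + q * b) (r * a + s * b) = p * eta1 a b + q * eta2 a b := by
  have hoff : Off a b (lat a b (p, q) / 2) := by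
    have := off_half (ind_change h hd)
    rwa [off_change hd] at this
  unfold eta1
  rw [wz_change hd]
  have h1 := cst_half h (p, q) hoff
  rw [cst_eq] at h1
  have h2 : lat a b (p, q) = p * a + q * b := rfl
  rw [h2] at h1
  rw [← h1]
  rfl

theorem eta2_change {a b : ℂ} {p q r s : ℤ} (h : Ind a b) (hd : p * s - q * r = 1) :
    eta2 (p * a + q * b) (r * a + s * b) = r * eta1 a b + s * eta2 a b := by
  have hoff : Off a b (lat a b (r, s) / 2) := by
    have := off_half' (ind_change h hd)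
    rwa [off_change hd] at this
  unfold eta2
  rw [wz_change hd]
  have h1 := cst_half h (r, s) hoff
  rw [cst_eq] at h1
  have h2 : lat a b (r, s) = r * a + s * b := rfl
  rw [h2] at h1
  rw [← h1]
  rfl

end Pool.Agent.EllSch
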