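import Pool.Agent.EllSch.Zeta

/-! # [B] Surjectivity, injectivity, discriminant and Legendre determinant -/

open Filter Topology

namespace Pool.Agent.EllSch

/-! ### auxiliary facts -/

namespace Basic

theorem mem_lattice_iff {a b : ℂ} (h : Ind a b) (w : ℂ) :
    w ∈ (pp h).lattice ↔ ∃ x, w = lat a b x := by
  rw [PeriodPair.mem_lattice]
  constructor
  · rintro ⟨m, n, e⟩
    exact ⟨(m, n), e.symm⟩
  · rintro ⟨x, e⟩
    exact ⟨x.1, x.2, e.symm⟩

theorem not_off_lat (a b : ℂ) (x : ℤ × ℤ) : ¬ Off a b (lat a b x) := fun h => h x rfl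

theorem not_off_iff (a b z : ℂ) : ¬ Off a b z ↔ ∃ x, z = lat a b x := by
  unfold Off
  push Not
  rfl

theorem eventually_off {a b : ℂ} (h : Ind a b) (z : ℂ) : ∀ᶠ u in 𝓝[≠] z, Off a b u := by
  filter_upwards [nhdsWithin_le_nhds ((pp h).compl_lattice_sdiff_singleton_mem_nhds z),
    self_mem_nhdsWithin] with u hu hne
  exact (off_iff h u).2 (fun hmem => hu ⟨hmem, hne⟩)

theorem differentiableAt_wp {a b : ℂ} (h : Ind a b) {z : ℂ} (hz : Off a b z) :
    DifferentiableAt ℂ (wp a b) z := (hasDerivAt_wp h hz).differentiableAt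

theorem differentiableAt_wq {a b : ℂ} (h : Ind a b) {z : ℂ} (hz : Off a b z) :
    DifferentiableAt ℂ (wq a b) z := (hasDerivAt_wq h hz).differentiableAt

theorem lat_zero (a b : ℂ) : lat a b (0, 0) = 0 := by simp [lat]

/-- `z² ℘(z) → 1` -/
theorem tendsto_sq_mul_wp {a b : ℂ} (h : Ind a b) :
    Tendsto (fun z => z ^ 2 * wp a b z) (𝓝[≠] 0) (𝓝 1) := by
  have h0 : Tendsto (fun z : ℂ => z) (𝓝[≠] 0) (𝓝 0) := tendsto_nhdsWithin_of_tendsto_nhds tendsto_id
  have h1 := ((tendsto_wp_zero h).mul (h0.pow 4)).add_const 1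
  have e : G2 a b / 20 * 0 ^ 4 + 1 = 1 := by norm_num
  rw [e] at h1
  refine h1.congr' ?_
  filter_upwards [self_mem_nhdsWithin] with z hz
  have hz' : z ≠ 0 := hz
  field_simp
  ring

/-- `℘(z) → ∞` as `z → 0` -/
theorem tendsto_norm_wp {a b : ℂ} (h : Ind a b) :
    Tendsto (fun z => ‖wp a b z‖) (𝓝[≠] 0) atTop := by
  have h1 := (tendsto_sq_mul_wp h).norm
  rw [norm_one] at h1
  have h0 : Tendsto (fun z : ℂ => ‖z ^ 2‖) (𝓝[≠] 0) (𝓝[>] 0) := by
    rw [tendsto_nhdsWithin_iff]
    constructor
    · have h2 : Tendsto (fun z : ℂ => ‖z ^ 2‖) (𝓝 0) (𝓝 0) := by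
        have : Continuous (fun z : ℂ => ‖z ^ 2‖) := by fun_prop
        have := this.tendsto 0
        simpa using this
      exact h2.mono_left nhdsWithin_le_nhds
    · filter_upwards [self_mem_nhdsWithin] with z hz
      have hz' : z ≠ 0 := hz
      exact norm_pos_iff.2 (pow_ne_zero 2 hz')
  have h2 := h1.pos_mul_atTop one_pos (tendsto_inv_nhdsGT_zero.comp h0)
  refine h2.congr' ?_
  filter_upwards [self_mem_nhdsWithin] with z hz
  have hz' : z ≠ 0 := hz
  have : ‖z ^ 2‖ ≠ 0 := norm_ne_zero_iff.2 (pow_ne_zero 2 hz')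
  simp only [Function.comp_apply, norm_mul]
  field_simp

end Basic

open Basic

/-- an entire doubly periodic function is constant -/
theorem const_of_periodic {a b : ℂ} (h : Ind a b) {f : ℂ → ℂ} (hf : Differentiable ℂ f)
    (hp : ∀ z x, f (z + lat a b x) = f z) : ∃ c, ∀ z, f z = c := by
  refine ⟨f 0, fun z => ?_⟩
  refine hf.apply_eq_apply_of_bounded (IsZLattice.isCompact_range_of_periodic (pp h).lattice _
    hf.continuous fun z w hw => ?_).isBounded z 0
  obtain ⟨x, rfl⟩ := (mem_lattice_iff h w).1 hw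
  exact hp z x

namespace Basic

/-- a periodic function, holomorphic off the lattice, with a limit at `0`, is constant -/
theorem const_of_off {a b : ℂ} (h : Ind a b) {f : ℂ → ℂ}
    (hf : ∀ z, Off a b z → DifferentiableAt ℂ f z)
    (hp : ∀ z x, Off a b z → f (z + lat a b x) = f z) {c : ℂ}
    (h0 : Tendsto f (𝓝[≠] 0) (𝓝 c)) : ∀ z, Off a b z → f z = c := by
  classical
  set g : ℂ → ℂ := fun z => if Off a b z then f z else c with hg
  have gper : ∀ z x, g (z + lat a b x) = g z := by
    intro z x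
    by_cases hz : Off a b z
    · simp only [hg, off_add_lat, hz, if_true]
      exact hp z x hz
    · simp only [hg, off_add_lat, hz, if_false]
  have gcont : ∀ x, ContinuousAt g (lat a b x) := by
    intro x
    have h1 : Tendsto g (𝓝[≠] (lat a b x)) (𝓝 c) := by
      have h2 : Tendsto (fun z => z - lat a b x) (𝓝[≠] (lat a b x)) (𝓝[≠] 0) := by
        rw [tendsto_nhdsWithin_iff]
        constructor
        · have : Tendsto (fun z => z - lat a b x) (𝓝 (lat a b x)) (𝓝 (lat a b x - lat a b x)) :=
            (continuous_id.sub continuous_const).tendsto _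
          rw [sub_self] at this
          exact this.mono_left nhdsWithin_le_nhds
        · filter_upwards [self_mem_nhdsWithin] with z hz
          exact sub_ne_zero.2 hz
      refine (h0.comp h2).congr' ?_
      filter_upwards [eventually_off h (lat a b x)] with z hz
      have h3 : Off a b (z - lat a b x) := by
        have := off_add_lat (a := a) (b := b) (z := z - lat a b x) x
        rw [sub_add_cancel] at this
        exact this.1 hz
      simp only [hg, hz, if_true, Function.comp_apply]
      rw [← hp _ x h3, sub_add_cancel]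
    have h3 : g (lat a b x) = c := by
      simp only [hg, not_off_lat, if_false]
    rw [continuousAt_iff_punctured_nhds, h3]
    exact h1
  have gdoff : ∀ z, Off a b z → DifferentiableAt ℂ g z := by
    intro z hz
    refine (hf z hz).congr_of_eventuallyEq ?_
    filter_upwards [(isOpen_off h).mem_nhds hz] with u hu
    have hu' : Off a b u := hu
    simp only [hg, hu', if_true]
  have gdiff : Differentiable ℂ g := by
    intro z
    by_cases hz : Off a b z
    · exact gdoff z hz
    · obtain ⟨x, rfl⟩ := (not_off_iff a b z).1 hz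
      refine (Complex.analyticAt_of_differentiable_on_punctured_nhds_of_continuousAt ?_
        (gcont x)).differentiableAt
      filter_upwards [eventually_off h (lat a b x)] with u hu
      exact gdoff u hu
  obtain ⟨c', hc'⟩ := const_of_periodic h gdiff gper
  have e0 : g (lat a b (0, 0)) = c := by simp only [hg, not_off_lat, if_false]
  rw [hc'] at e0
  intro z hz
  have := hc' z
  simp only [hg, hz, if_true] at this
  rw [this, e0]

/-- local uniqueness for `X' = Y`, `Y' = 6 X² - g/2` -/
theorem ode_unique {g : ℂ} {f₁ q₁ f₂ q₂ : ℂ → ℂ} {z₁ z₂ : ℂ}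
    (h₁ : ∀ᶠ z in 𝓝 z₁, HasDerivAt f₁ (q₁ z) z ∧ HasDerivAt q₁ (6 * f₁ z ^ 2 - g / 2) z)
    (h₂ : ∀ᶠ z in 𝓝 z₂, HasDerivAt f₂ (q₂ z) z ∧ HasDerivAt q₂ (6 * f₂ z ^ 2 - g / 2) z)
    (hf : f₁ z₁ = f₂ z₂) (hq : q₁ z₁ = q₂ z₂) :
    (fun u => f₁ (z₁ + u)) =ᶠ[𝓝 0] (fun u => f₂ (z₂ + u)) := by
  have s₁ : Tendsto (fun u : ℂ => z₁ + u) (𝓝 0) (𝓝 z₁) := by
    have : Continuous (fun u : ℂ => z₁ + u) := by fun_prop
    simpa using this.tendsto 0
  have s₂ : Tendsto (fun u : ℂ => z₂ + u) (𝓝 0) (𝓝 z₂) := by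
    have : Continuous (fun u : ℂ => z₂ + u) := by fun_prop
    simpa using this.tendsto 0
  have t₁ := s₁.eventually h₁
  have t₂ := s₂.eventually h₂
  -- analyticity
  have a₁ : AnalyticAt ℂ (fun u => f₁ (z₁ + u)) 0 := by
    rw [Complex.analyticAt_iff_eventually_differentiableAt]
    filter_upwards [t₁] with u hu
    exact (HasDerivAt.comp_const_add z₁ u hu.1).differentiableAt
  have a₂ : AnalyticAt ℂ (fun u => f₂ (z₂ + u)) 0 := by
    rw [Complex.analyticAt_iff_eventually_differentiableAt]
    filter_upwards [t₂] with u hu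
    exact (HasDerivAt.comp_const_add z₂ u hu.1).differentiableAt
  -- the restriction to the real line
  have r0 : Tendsto (fun t : ℝ => (t : ℂ)) (𝓝 0) (𝓝 0) := by
    have := Complex.continuous_ofReal.tendsto 0
    simpa using this
  set v : ℝ → ℂ × ℂ → ℂ × ℂ := fun _ x => (x.2, 6 * x.1 ^ 2 - g / 2) with hv
  have hv1 : ContDiff ℝ 1 (v 0) := by
    rw [hv]
    fun_prop
  obtain ⟨K, s, hs, hK⟩ := hv1.contDiffAt (x := (f₁ z₁, q₁ z₁)) |>.exists_lipschitzOnWith
  have lift : ∀ {f q : ℂ → ℂ} {z : ℂ}, (∀ᶠ u in 𝓝 (0 : ℂ), HasDerivAt f (q (z + u)) (z + u) ∧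
      HasDerivAt q (6 * f (z + u) ^ 2 - g / 2) (z + u)) →
      (f z, q z) = (f₁ z₁, q₁ z₁) →
      ∀ᶠ t : ℝ in 𝓝 0, HasDerivAt (fun t : ℝ => (f (z + t), q (z + t)))
        (v t (f (z + t), q (z + t))) t ∧ (f (z + t), q (z + t)) ∈ s := by
    intro f q z hh h0
    have hd : ∀ᶠ t : ℝ in 𝓝 0, HasDerivAt (fun t : ℝ => (f (z + t), q (z + t)))
        (v t (f (z + t), q (z + t))) t := by
      filter_upwards [r0.eventually hh] with t ht
      have e1 : HasDerivAt (fun t : ℝ => z + (t : ℂ)) 1 t := by
        simpa using (Complex.ofRealCLM.hasDerivAt (x := t)).const_add z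
      have e2 : HasDerivAt (fun t : ℝ => f (z + t)) (q (z + t)) t := by
        have := ht.1.scomp t e1
        rw [one_smul] at this
        exact this
      have e3 : HasDerivAt (fun t : ℝ => q (z + t)) (6 * f (z + t) ^ 2 - g / 2) t := by
        have := ht.2.scomp t e1
        rw [one_smul] at this
        exact this
      exact e2.prodMk e3
    have hc : ContinuousAt (fun t : ℝ => (f (z + t), q (z + t))) 0 := hd.self_of_nhds.continuousAt
    have hm : ∀ᶠ t : ℝ in 𝓝 0, (f (z + t), q (z + t)) ∈ s := by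
      refine hc.eventually_mem ?_
      simp only [Complex.ofReal_zero, add_zero]
      rw [h0]
      exact hs
    exact hd.and hm
  have u₁ := lift t₁ rfl
  have u₂ := lift t₂ (by rw [hf, hq])
  have hE := ODE_solution_unique_of_eventually (v := v) (s := fun _ => s) (K := K) (t₀ := 0)
    (Eventually.of_forall fun t => hK) u₁ u₂ (by simp [hf, hq])
  -- identity theorem
  refine (a₁.frequently_eq_iff_eventually_eq a₂).1 ?_
  have hfr : ∃ᶠ t : ℝ in 𝓝[≠] 0, f₁ (z₁ + (t : ℂ)) = f₂ (z₂ + (t : ℂ)) := by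
    refine Eventually.frequently ?_
    filter_upwards [nhdsWithin_le_nhds hE] with t ht
    exact congrArg Prod.fst ht
  have hr : Tendsto (fun t : ℝ => (t : ℂ)) (𝓝[≠] 0) (𝓝[≠] 0) := by
    rw [tendsto_nhdsWithin_iff]
    refine ⟨r0.mono_left nhdsWithin_le_nhds, ?_⟩
    filter_upwards [self_mem_nhdsWithin] with t ht
    simpa using ht
  exact hr.frequently hfr

theorem ode_wp {a b : ℂ} (h : Ind a b) {z : ℂ} (hz : Off a b z) :
    ∀ᶠ u in 𝓝 z, HasDerivAt (wp a b) (wq a b u) u ∧
      HasDerivAt (wq a b) (6 * wp a b u ^ 2 - G2 a b / 2) u := by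
  filter_upwards [(isOpen_off h).mem_nhds hz] with u hu
  exact ⟨hasDerivAt_wp h hu, hasDerivAt_wq h hu⟩

end Basic

/-- uniqueness for the differential equation: `z ↦ (℘ z, ℘' z)` is injective modulo the lattice -/
theorem exists_lat_of_eq {a b : ℂ} (h : Ind a b) {z w : ℂ} (hz : Off a b z) (hw : Off a b w)
    (h1 : wp a b z = wp a b w) (h2 : wq a b z = wq a b w) : ∃ x, z = w + lat a b x := by
  by_contra hne
  push Not at hne
  have hloc := ode_unique (ode_wp h hz) (ode_wp h hw) h1 h2
  -- the set where both are off the lattice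
  set U : Set ℂ := {u | Off a b (z + u) ∧ Off a b (w + u)} with hU
  have hUc : IsPreconnected U := by
    have hcount : (Set.range fun x : ℤ × ℤ => lat a b x - z).Countable := Set.countable_range _
    have hcount' : (Set.range fun x : ℤ × ℤ => lat a b x - w).Countable := Set.countable_range _
    have h3 := (hcount.union hcount').isConnected_compl_of_one_lt_rank
      (E := ℂ) (by rw [Complex.rank_real_complex]; norm_num)
    have e : U = (Set.range (fun x : ℤ × ℤ => lat a b x - z)
        ∪ Set.range fun x : ℤ × ℤ => lat a b x - w)ᶜ := by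
      ext u
      simp only [hU, Set.mem_ofPred_eq, Off, Set.compl_union, Set.mem_inter_iff, Set.mem_compl_iff,
        Set.mem_range, not_exists]
      constructor
      · rintro ⟨g1, g2⟩
        exact ⟨fun x hx => g1 x (by rw [← hx]; ring), fun x hx => g2 x (by rw [← hx]; ring)⟩
      · rintro ⟨g1, g2⟩
        exact ⟨fun x hx => g1 x (by rw [← hx]; ring), fun x hx => g2 x (by rw [← hx]; ring)⟩
    rw [e]
    exact h3.isPreconnected
  have hUo : IsOpen U := by
    have g1 : IsOpen {u | Off a b (z + u)} :=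
      (isOpen_off h).preimage (f := fun u => z + u) (by fun_prop)
    have g2 : IsOpen {u | Off a b (w + u)} :=
      (isOpen_off h).preimage (f := fun u => w + u) (by fun_prop)
    exact g1.inter g2
  have a1 : AnalyticOnNhd ℂ (fun u => wp a b (z + u)) U := by
    refine DifferentiableOn.analyticOnNhd (fun u hu => ?_) hUo
    exact (HasDerivAt.comp_const_add z u (hasDerivAt_wp h hu.1)).differentiableAt.differentiableWithinAt
  have a2 : AnalyticOnNhd ℂ (fun u => wp a b (w + u)) U := by
    refine DifferentiableOn.analyticOnNhd (fun u hu => ?_) hUo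
    exact (HasDerivAt.comp_const_add w u (hasDerivAt_wp h hu.2)).differentiableAt.differentiableWithinAt
  have h0 : (0 : ℂ) ∈ U := by
    simp only [hU, Set.mem_ofPred_eq, add_zero]
    exact ⟨hz, hw⟩
  have hEq := a1.eqOn_of_preconnected_of_eventuallyEq a2 hUc h0 hloc
  -- contradiction at the pole `u = -z`
  have hwz : Off a b (w + -z) := by
    intro x hx
    refine hne (-x.1, -x.2) ?_
    have : lat a b (-x.1, -x.2) = -lat a b x := by simp [lat]; ring
    rw [this, ← hx]
    ring
  have hev : ∀ᶠ u in 𝓝[≠] (-z), u ∈ U := by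
    have g1 : ∀ᶠ u in 𝓝[≠] (-z), Off a b (z + u) := by
      have hs : Tendsto (fun u => z + u) (𝓝[≠] (-z)) (𝓝[≠] 0) := by
        rw [tendsto_nhdsWithin_iff]
        constructor
        · have : Continuous (fun u : ℂ => z + u) := by fun_prop
          have := this.tendsto (-z)
          rw [add_neg_cancel] at this
          exact this.mono_left nhdsWithin_le_nhds
        · filter_upwards [self_mem_nhdsWithin] with u hu
          intro h5
          apply hu
          have h6 : z + u = 0 := h5
          exact (eq_neg_of_add_eq_zero_right h6)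
      exact hs.eventually (eventually_off h 0)
    have g2 : ∀ᶠ u in 𝓝[≠] (-z), Off a b (w + u) := by
      have : IsOpen {u | Off a b (w + u)} :=
        (isOpen_off h).preimage (f := fun u => w + u) (by fun_prop)
      exact nhdsWithin_le_nhds (this.mem_nhds hwz)
    exact g1.and g2
  have hs : Tendsto (fun u => z + u) (𝓝[≠] (-z)) (𝓝[≠] 0) := by
    rw [tendsto_nhdsWithin_iff]
    constructor
    · have : Continuous (fun u : ℂ => z + u) := by fun_prop
      have := this.tendsto (-z)
      rw [add_neg_cancel] at this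
      exact this.mono_left nhdsWithin_le_nhds
    · filter_upwards [self_mem_nhdsWithin] with u hu
      intro h5
      apply hu
      have h6 : z + u = 0 := h5
      exact (eq_neg_of_add_eq_zero_right h6)
  have ht1 : Tendsto (fun u => ‖wp a b (z + u)‖) (𝓝[≠] (-z)) atTop := (tendsto_norm_wp h).comp hs
  have ht2 : Tendsto (fun u => ‖wp a b (w + u)‖) (𝓝[≠] (-z)) (𝓝 ‖wp a b (w + -z)‖) := by
    have hc : ContinuousAt (fun u => wp a b (w + u)) (-z) :=
      (HasDerivAt.comp_const_add w (-z) (hasDerivAt_wp h hwz)).continuousAt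
    exact hc.norm.tendsto.mono_left nhdsWithin_le_nhds
  have ht3 : Tendsto (fun u => ‖wp a b (w + u)‖) (𝓝[≠] (-z)) atTop := by
    refine ht1.congr' ?_
    filter_upwards [hev] with u hu
    have := hEq hu
    simp only at this
    rw [this]
  exact not_tendsto_nhds_of_tendsto_atTop ht3 _ ht2

theorem exists_wp_eq {a b : ℂ} (h : Ind a b) {x y : ℂ}
    (hxy : y ^ 2 = 4 * x ^ 3 - G2 a b * x - G3 a b) :
    ∃ z, Off a b z ∧ wp a b z = x ∧ wq a b z = y := by
  have h1 : ∃ z, Off a b z ∧ wp a b z = x := by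
    by_contra hne
    push Not at hne
    have hlim : Tendsto (fun z => (wp a b z - x)⁻¹) (𝓝[≠] 0) (𝓝 0) := by
      rw [tendsto_zero_iff_norm_tendsto_zero]
      have h2 : Tendsto (fun z => ‖wp a b z - x‖) (𝓝[≠] 0) atTop := by
        have h3 : Tendsto (fun z => ‖wp a b z‖ + -‖x‖) (𝓝[≠] 0) atTop :=
          tendsto_atTop_add_const_right _ _ (tendsto_norm_wp h)
        refine tendsto_atTop_mono (fun z => ?_) h3
        have := norm_sub_norm_le (wp a b z) x
        linarith
      refine h2.inv_tendsto_atTop.congr (fun z => ?_)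
      simp only [Pi.inv_apply, norm_inv]
    have hc := const_of_off h (f := fun z => (wp a b z - x)⁻¹) (fun z hz => by
        have := (differentiableAt_wp h hz).sub_const x
        exact this.inv (sub_ne_zero.2 (hne z hz)))
      (fun z v hz => by simp only [wp_add_lat h z v]) hlim
    obtain ⟨z, hz⟩ := (eventually_off h 0).exists
    have := hc z hz
    simp only [inv_eq_zero, sub_eq_zero] at this
    exact hne z hz this
  obtain ⟨z, hz, hx⟩ := h1
  have h2 : wq a b z ^ 2 = y ^ 2 := by rw [ode h hz, hx, hxy]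
  rcases sq_eq_sq_iff_eq_or_eq_neg.1 h2 with h3 | h3
  · exact ⟨z, hz, hx, h3⟩
  · refine ⟨-z, off_neg.2 hz, by rw [wp_neg h, hx], by rw [wq_neg h, h3, neg_neg]⟩

theorem disc_ne_zero {a b : ℂ} (h : Ind a b) : G2 a b ^ 3 - 27 * G3 a b ^ 2 ≠ 0 := by
  intro hD
  -- the double root
  obtain ⟨e, he2, he3⟩ : ∃ e : ℂ, G2 a b = 12 * e ^ 2 ∧ G3 a b = -8 * e ^ 3 := by
    by_cases h0 : G2 a b = 0
    · refine ⟨0, by rw [h0]; ring, ?_⟩
      rw [h0] at hD
      have : G3 a b ^ 2 = 0 := by linear_combination (-1 / 27 : ℂ) * hD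
      rw [pow_eq_zero_iff (by norm_num)] at this
      rw [this]
      ring
    · refine ⟨-3 * G3 a b / (2 * G2 a b), ?_, ?_⟩
      · field_simp
        linear_combination 4 * hD
      · field_simp
        linear_combination 8 * G3 a b * hD
  obtain ⟨z, hz, hx, hy⟩ := exists_wp_eq h (x := e) (y := 0) (by rw [he2, he3]; ring)
  have hconst : ∀ᶠ u in 𝓝 (0 : ℂ), HasDerivAt (fun _ : ℂ => e) ((fun _ : ℂ => (0 : ℂ)) u) u ∧
      HasDerivAt (fun _ : ℂ => (0 : ℂ)) (6 * (fun _ : ℂ => e) u ^ 2 - G2 a b / 2) u := by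
    refine Eventually.of_forall fun u => ⟨hasDerivAt_const _ _, ?_⟩
    have : 6 * (fun _ : ℂ => e) u ^ 2 - G2 a b / 2 = 0 := by
      simp only
      rw [he2]; ring
    rw [this]
    exact hasDerivAt_const _ _
  have hloc := ode_unique (ode_wp h hz) hconst hx hy
  have hloc' : wp a b =ᶠ[𝓝 z] fun _ => e := by
    have hs : Tendsto (fun u => u - z) (𝓝 z) (𝓝 0) := by
      have : Continuous (fun u : ℂ => u - z) := by fun_prop
      have := this.tendsto z
      rwa [sub_self] at this
    filter_upwards [hs.eventually hloc] with u hu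
    rwa [add_sub_cancel] at hu
  have a1 : AnalyticOnNhd ℂ (wp a b) {z | Off a b z} := by
    refine DifferentiableOn.analyticOnNhd (fun u hu => ?_) (isOpen_off h)
    exact (differentiableAt_wp h hu).differentiableWithinAt
  have hEq := a1.eqOn_of_preconnected_of_eventuallyEq (analyticOnNhd_const (v := e))
    (isPreconnected_off h) hz hloc'
  have ht : Tendsto (fun u => ‖wp a b u‖) (𝓝[≠] 0) (𝓝 ‖e‖) := by
    refine tendsto_const_nhds.congr' ?_
    filter_upwards [eventually_off h 0] with u hu
    rw [hEq hu]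
  exact not_tendsto_nhds_of_tendsto_atTop (tendsto_norm_wp h) _ ht

theorem det_ne_zero {a b : ℂ} (h : Ind a b) : det a b ≠ 0 := by
  intro hdet
  have ha : a ≠ 0 := by
    rintro rfl
    exact h (by simp)
  set c : ℂ := eta1 a b / a with hc
  have e1 : eta1 a b = c * a := by rw [hc, div_mul_cancel₀ _ ha]
  have e2 : eta2 a b = c * b := by
    have h1 : a * eta2 a b - b * eta1 a b = 0 := hdet
    rw [e1] at h1
    have : a * (eta2 a b - c * b) = 0 := by linear_combination h1
    rcases mul_eq_zero.1 this with h2 | h2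
    · exact absurd h2 ha
    · exact sub_eq_zero.1 h2
  have eeta : ∀ x, eta a b x = c * lat a b x := by
    intro x
    unfold eta lat
    rw [e1, e2]
    ring
  set f : ℂ → ℂ := fun z => wz a b z - c * z with hf
  have fd : ∀ z, Off a b z → HasDerivAt f (-wp a b z - c) z := by
    intro z hz
    have h1 := (hasDerivAt_wz h hz).sub ((hasDerivAt_id z).const_mul c)
    rw [mul_one] at h1
    exact h1
  have fper : ∀ z x, Off a b z → f (z + lat a b x) = f z := by
    intro z x hz
    simp only [hf]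
    rw [wz_add_lat h hz, eeta]
    ring
  have id0 : Tendsto (fun z : ℂ => z) (𝓝[≠] 0) (𝓝 0) :=
    tendsto_nhdsWithin_of_tendsto_nhds tendsto_id
  have hlim : Tendsto (fun z => f z ^ 2 - wp a b z) (𝓝[≠] 0) (𝓝 (-2 * c)) := by
    have hA := tendsto_wz_zero h
    have hB := tendsto_wp_zero h
    have h1 := (((((id0.pow 2).const_mul (c ^ 2)).add ((id0.pow 6).mul (hA.pow 2))).add
      (((id0.pow 2).const_mul 2).mul hA)).sub (((id0.pow 4).const_mul (2 * c)).mul hA)).sub
      ((id0.pow 2).mul hB)
    have h2 := h1.const_add (-2 * c)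
    have e0 : -2 * c + (c ^ 2 * 0 ^ 2 + 0 ^ 6 * (-(G2 a b / 60)) ^ 2 + 2 * 0 ^ 2 * -(G2 a b / 60)
        - 2 * c * 0 ^ 4 * -(G2 a b / 60) - 0 ^ 2 * (G2 a b / 20)) = -2 * c := by ring
    rw [e0] at h2
    refine h2.congr' ?_
    filter_upwards [self_mem_nhdsWithin] with z hz
    have hz' : z ≠ 0 := hz
    simp only [hf]
    field_simp
    ring
  have hF := const_of_off h (f := fun z => f z ^ 2 - wp a b z)
    (fun z hz => ((fd z hz).differentiableAt.pow 2).sub (differentiableAt_wp h hz))
    (fun z x hz => by simp only [fper z x hz, wp_add_lat h]) hlim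
  have hq : ∀ z, Off a b z → wq a b z = -2 * f z * (wp a b z + c) := by
    intro z hz
    have h1 : HasDerivAt (fun z => f z ^ 2 - wp a b z)
        (2 * f z ^ (2 - 1) * (-wp a b z - c) - wq a b z) z :=
      ((fd z hz).pow 2).sub (hasDerivAt_wp h hz)
    have h2 : HasDerivAt (fun z => f z ^ 2 - wp a b z) 0 z := by
      refine (hasDerivAt_const z (-2 * c)).congr_of_eventuallyEq ?_
      filter_upwards [(isOpen_off h).mem_nhds hz] with u hu
      exact hF u hu
    have h3 := h1.unique h2
    simp only [Nat.add_one_sub_one, pow_one] at h3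
    linear_combination -h3
  have key : ∀ z, Off a b z →
      (G2 a b - 12 * c ^ 2) * wp a b z + (G3 a b - 8 * c ^ 3) = 0 := by
    intro z hz
    have h1 := ode h hz
    have h2 : f z ^ 2 - wp a b z = -2 * c := hF z hz
    have h3 : f z ^ 2 = wp a b z - 2 * c := by linear_combination h2
    rw [hq z hz] at h1
    linear_combination h1 - 4 * (wp a b z + c) ^ 2 * h3
  have val : ∀ x : ℂ, (G2 a b - 12 * c ^ 2) * x + (G3 a b - 8 * c ^ 3) = 0 := by
    intro x
    obtain ⟨y, hy⟩ := IsAlgClosed.exists_pow_nat_eq (4 * x ^ 3 - G2 a b * x - G3 a b)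
      (n := 2) (by norm_num)
    obtain ⟨z, hz, hx, -⟩ := exists_wp_eq h hy
    rw [← hx]
    exact key z hz
  have v0 := val 0
  have v1 := val 1
  have g3 : G3 a b = 8 * c ^ 3 := by linear_combination v0
  have g2 : G2 a b = 12 * c ^ 2 := by linear_combination v1 - v0
  refine disc_ne_zero h ?_
  rw [g2, g3]
  ring

/-- `℘'` vanishes exactly at the half-periods -/
theorem wq_ne_zero {a b : ℂ} (h : Ind a b) {z : ℂ} (hz : Off a b (2 * z)) : wq a b z ≠ 0 := by
  intro h0
  have hzo : Off a b z := by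
    intro x hx
    refine hz (2 * x.1, 2 * x.2) ?_
    rw [hx]
    simp only [lat]
    push_cast
    ring
  obtain ⟨x, hx⟩ := exists_lat_of_eq h hzo (off_neg.2 hzo) (wp_neg h z).symm
    (by rw [wq_neg h, h0, neg_zero])
  exact hz x (by linear_combination hx)

end Pool.Agent.EllSch
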