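import Pool.Agent.EllSch.C1
import Pool.Agent.EllSch.Basic

/-! # [FS] The Frobenius-Stickelberger formulas -/

open Filter Topology

namespace Pool.Agent.EllSch

namespace FS

variable {a b z : ℂ}

theorem off_half (h : Ind a b) {c : ℂ} {p q : ℤ} (hc : 2 * c = lat a b (p, q))
    (hpq : ¬ (Even p ∧ Even q)) : Off a b c := by
  intro x hx
  have h1 : lat a b (p, q) = lat a b (2 * x.1, 2 * x.2) := by
    rw [← hc, hx]; simp only [lat]; push_cast; ring
  have h2 := lat_injective h h1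
  rw [Prod.mk.injEq] at h2
  exact hpq ⟨⟨x.1, by rw [h2.1]; ring⟩, ⟨x.2, by rw [h2.2]; ring⟩⟩

theorem off_half_a (h : Ind a b) : Off a b (a / 2) :=
  off_half h (p := 1) (q := 0) (by simp [lat]; ring) (fun hh => by simpa using hh.1)

theorem off_half_b (h : Ind a b) : Off a b (b / 2) :=
  off_half h (p := 0) (q := 1) (by simp [lat]; ring) (fun hh => by simpa using hh.2)

theorem wq_half (h : Ind a b) {c : ℂ} {x : ℤ × ℤ} (hc : c = -c + lat a b x) :
    wq a b c = 0 := by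
  have h1 : wq a b c = -wq a b c := by
    calc wq a b c = wq a b (-c + lat a b x) := by rw [← hc]
      _ = wq a b (-c) := wq_add_lat h _ _
      _ = -wq a b c := wq_neg h _
  linear_combination (1 / 2) * h1

theorem wq_half_a (h : Ind a b) : wq a b (a / 2) = 0 :=
  wq_half h (x := (1, 0)) (by simp [lat]; ring)

theorem wq_half_b (h : Ind a b) : wq a b (b / 2) = 0 :=
  wq_half h (x := (0, 1)) (by simp [lat]; ring)

theorem ev_off (h : Ind a b) (hz : Off a b z) :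
    ∀ᶠ v : ℂ × ℂ × ℂ in 𝓝 (a, b, z), Ind v.1 v.2.1 ∧ Off v.1 v.2.1 v.2.2 :=
  isOpen_ind_off.mem_nhds ⟨h, hz⟩

/-- `ℂ`-differentiability along a curve -/
theorem wp_curve (h : Ind a b) (hz : Off a b z) {γ : ℂ → ℂ × ℂ × ℂ} {t₀ : ℂ} {u : ℂ × ℂ × ℂ}
    (h0 : γ t₀ = (a, b, z)) (hγ : HasDerivAt γ u t₀) :
    HasDerivAt (fun t => wp (γ t).1 (γ t).2.1 (γ t).2.2)
      (u.1 * wpa a b z + u.2.1 * wpb a b z + u.2.2 * wq a b z) t₀ := by
  obtain ⟨L, hL, hLu⟩ := c1_wp h hz
  rw [← hLu]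
  have hL' := hL.hasFDerivAt
  rw [← h0] at hL'
  exact HasFDerivAt.comp_hasDerivAt t₀ hL' hγ

theorem wq_curve (h : Ind a b) (hz : Off a b z) {γ : ℂ → ℂ × ℂ × ℂ} {t₀ : ℂ} {u : ℂ × ℂ × ℂ}
    (h0 : γ t₀ = (a, b, z)) (hγ : HasDerivAt γ u t₀) :
    HasDerivAt (fun t => wq (γ t).1 (γ t).2.1 (γ t).2.2)
      (u.1 * wqa a b z + u.2.1 * wqb a b z + u.2.2 * wr a b z) t₀ := by
  obtain ⟨L, hL, hLu⟩ := c1_wq h hz
  rw [← hLu]
  have hL' := hL.hasFDerivAt
  rw [← h0] at hL'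
  exact HasFDerivAt.comp_hasDerivAt t₀ hL' hγ

theorem wz_curve (h : Ind a b) (hz : Off a b z) {γ : ℂ → ℂ × ℂ × ℂ} {t₀ : ℂ} {u : ℂ × ℂ × ℂ}
    (h0 : γ t₀ = (a, b, z)) (hγ : HasDerivAt γ u t₀) :
    HasDerivAt (fun t => wz (γ t).1 (γ t).2.1 (γ t).2.2)
      (u.1 * wza a b z + u.2.1 * wzb a b z + u.2.2 * (-wp a b z)) t₀ := by
  obtain ⟨L, hL, hLu⟩ := c1_wz h hz
  rw [← hLu]
  have hL' := hL.hasFDerivAt
  rw [← h0] at hL'
  exact HasFDerivAt.comp_hasDerivAt t₀ hL' hγ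

theorem G2_curve (h : Ind a b) {γ : ℂ → ℂ × ℂ} {t₀ : ℂ} {u : ℂ × ℂ}
    (h0 : γ t₀ = (a, b)) (hγ : HasDerivAt γ u t₀) :
    HasDerivAt (fun t => G2 (γ t).1 (γ t).2) (u.1 * G2a a b + u.2 * G2b a b) t₀ := by
  obtain ⟨L, hL, hLu⟩ := c1_G2 h
  rw [← hLu]
  have hL' := hL.hasFDerivAt
  rw [← h0] at hL'
  exact HasFDerivAt.comp_hasDerivAt t₀ hL' hγ

theorem G3_curve (h : Ind a b) {γ : ℂ → ℂ × ℂ} {t₀ : ℂ} {u : ℂ × ℂ}
    (h0 : γ t₀ = (a, b)) (hγ : HasDerivAt γ u t₀) :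
    HasDerivAt (fun t => G3 (γ t).1 (γ t).2) (u.1 * G3a a b + u.2 * G3b a b) t₀ := by
  obtain ⟨L, hL, hLu⟩ := c1_G3 h
  rw [← hLu]
  have hL' := hL.hasFDerivAt
  rw [← h0] at hL'
  exact HasFDerivAt.comp_hasDerivAt t₀ hL' hγ

/-- the affine curve `t ↦ (a + t u, b + t v, z + t w)` -/
theorem line (u v w : ℂ) (t₀ : ℂ) :
    HasDerivAt (fun t : ℂ => ((a + t * u, b + t * v, z + t * w) : ℂ × ℂ × ℂ)) (u, v, w) t₀ := by
  have h1 : ∀ c d : ℂ, HasDerivAt (fun t : ℂ => c + t * d) d t₀ := fun c d => by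
    simpa using ((hasDerivAt_id t₀).mul_const d).const_add c
  exact (h1 a u).prodMk ((h1 b v).prodMk (h1 z w))

theorem line2 (u v : ℂ) (t₀ : ℂ) :
    HasDerivAt (fun t : ℂ => ((a + t * u, b + t * v) : ℂ × ℂ)) (u, v) t₀ := by
  have h1 : ∀ c d : ℂ, HasDerivAt (fun t : ℂ => c + t * d) d t₀ := fun c d => by
    simpa using ((hasDerivAt_id t₀).mul_const d).const_add c
  exact (h1 a u).prodMk (h1 b v)

theorem line_ev (h : Ind a b) (hz : Off a b z) (u v w : ℂ) :
    ∀ᶠ t : ℂ in 𝓝 0, Ind (a + t * u) (b + t * v) ∧ Off (a + t * u) (b + t * v) (z + t * w) := by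
  have h1 := (line (a := a) (b := b) (z := z) u v w 0).continuousAt
  have h2 := ev_off h hz
  have h3 : (fun t : ℂ => ((a + t * u, b + t * v, z + t * w) : ℂ × ℂ × ℂ)) 0 = (a, b, z) := by
    simp
  have h4 : Tendsto (fun t : ℂ => ((a + t * u, b + t * v, z + t * w) : ℂ × ℂ × ℂ)) (𝓝 0)
      (𝓝 (a, b, z)) := by
    rw [← h3]; exact h1
  exact h4.eventually h2

/-- behaviour of the partial derivatives of `℘` under translation by a lattice vector -/
theorem shift_wp (h : Ind a b) (hz : Off a b z) (x : ℤ × ℤ) (u v : ℂ) :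
    u * wpa a b (z + lat a b x) + v * wpb a b (z + lat a b x) =
      u * wpa a b z + v * wpb a b z - (u * x.1 + v * x.2) * wq a b z := by
  have hz' := (off_add_lat (a := a) (b := b) x).2 hz
  have h1 := wp_curve h hz (t₀ := 0) (u := (u, v, 0))
    (γ := fun t : ℂ => ((a + t * u, b + t * v, z + t * 0) : ℂ × ℂ × ℂ)) (by simp) (line u v 0 0)
  have h2 := wp_curve h hz' (t₀ := 0) (u := (u, v, x.1 * u + x.2 * v))
    (γ := fun t : ℂ => ((a + t * u, b + t * v, (z + lat a b x) + t * (x.1 * u + x.2 * v)) :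
      ℂ × ℂ × ℂ)) (by simp) (line u v _ 0)
  have h3 : (fun t : ℂ => wp (a + t * u) (b + t * v) (z + t * 0)) =ᶠ[𝓝 0]
      (fun t : ℂ => wp (a + t * u) (b + t * v) ((z + lat a b x) + t * (x.1 * u + x.2 * v))) := by
    filter_upwards [line_ev h hz u v 0] with t ht
    rw [← wp_add_lat ht.1 _ x]
    congr 1
    simp only [lat]; ring
  have h4 := h1.unique (h2.congr_of_eventuallyEq h3)
  simp only at h4
  rw [wq_add_lat h] at h4
  linear_combination -h4

/-! ### homogeneity -/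

theorem hom_line (c : ℂ) : HasDerivAt (fun t : ℂ => c + t * c) c 0 := by
  simpa using ((hasDerivAt_id (0 : ℂ)).mul_const c).const_add c

theorem ev_ne : ∀ᶠ t : ℂ in 𝓝 0, (1 + t : ℂ) ≠ 0 := by
  have h : ContinuousAt (fun t : ℂ => 1 + t) 0 := by fun_prop
  exact h.eventually_ne (by simp)

theorem hasDerivAt_inv_pow (w : ℂ) (n : ℕ) :
    HasDerivAt (fun t : ℂ => w / (1 + t) ^ n) (-n * w) 0 := by
  have h1 : HasDerivAt (fun t : ℂ => (1 + t) ^ n) (n * (1 + 0) ^ (n - 1) * 1) 0 :=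
    ((hasDerivAt_id (0 : ℂ)).const_add 1).pow n
  have h2 := (hasDerivAt_const (0 : ℂ) w).div h1 (by simp)
  refine (h2.congr_deriv ?_)
  simp [mul_comm]

theorem d1_wp (h : Ind a b) (hz : Off a b z) :
    a * wpa a b z + b * wpb a b z + z * wq a b z = -2 * wp a b z := by
  have h1 := wp_curve h hz (t₀ := 0) (u := (a, b, z))
    (γ := fun t : ℂ => ((a + t * a, b + t * b, z + t * z) : ℂ × ℂ × ℂ)) (by simp) (line a b z 0)
  have h2 : (fun t : ℂ => wp (a + t * a) (b + t * b) (z + t * z)) =ᶠ[𝓝 0]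
      (fun t : ℂ => wp a b z / (1 + t) ^ 2) := by
    filter_upwards [ev_ne] with t ht
    rw [← wp_smul ht]
    congr 1 <;> ring
  simpa using h1.unique ((hasDerivAt_inv_pow (wp a b z) 2).congr_of_eventuallyEq h2)

theorem d1_wq (h : Ind a b) (hz : Off a b z) :
    a * wqa a b z + b * wqb a b z + z * wr a b z = -3 * wq a b z := by
  have h1 := wq_curve h hz (t₀ := 0) (u := (a, b, z))
    (γ := fun t : ℂ => ((a + t * a, b + t * b, z + t * z) : ℂ × ℂ × ℂ)) (by simp) (line a b z 0)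
  have h2 : (fun t : ℂ => wq (a + t * a) (b + t * b) (z + t * z)) =ᶠ[𝓝 0]
      (fun t : ℂ => wq a b z / (1 + t) ^ 3) := by
    filter_upwards [ev_ne] with t ht
    rw [← wq_smul ht]
    congr 1 <;> ring
  simpa using h1.unique ((hasDerivAt_inv_pow (wq a b z) 3).congr_of_eventuallyEq h2)

theorem d1_wz (h : Ind a b) (hz : Off a b z) :
    a * wza a b z + b * wzb a b z - z * wp a b z = -wz a b z := by
  have h1 := wz_curve h hz (t₀ := 0) (u := (a, b, z))
    (γ := fun t : ℂ => ((a + t * a, b + t * b, z + t * z) : ℂ × ℂ × ℂ)) (by simp) (line a b z 0)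
  have h2 : (fun t : ℂ => wz (a + t * a) (b + t * b) (z + t * z)) =ᶠ[𝓝 0]
      (fun t : ℂ => wz a b z / (1 + t) ^ 1) := by
    filter_upwards [ev_ne] with t ht
    rw [pow_one, ← wz_smul ht]
    congr 1 <;> ring
  have h3 := h1.unique ((hasDerivAt_inv_pow (wz a b z) 1).congr_of_eventuallyEq h2)
  simp only at h3
  push_cast at h3
  linear_combination h3

theorem d1_G2 (h : Ind a b) : a * G2a a b + b * G2b a b = -4 * G2 a b := by
  have h1 := G2_curve h (t₀ := 0) (u := (a, b))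
    (γ := fun t : ℂ => ((a + t * a, b + t * b) : ℂ × ℂ)) (by simp) (line2 a b 0)
  have h2 : (fun t : ℂ => G2 (a + t * a) (b + t * b)) =ᶠ[𝓝 0]
      (fun t : ℂ => G2 a b / (1 + t) ^ 4) := by
    filter_upwards [ev_ne] with t ht
    rw [← G2_smul ht]
    congr 1 <;> ring
  simpa using h1.unique ((hasDerivAt_inv_pow (G2 a b) 4).congr_of_eventuallyEq h2)

theorem d1_G3 (h : Ind a b) : a * G3a a b + b * G3b a b = -6 * G3 a b := by
  have h1 := G3_curve h (t₀ := 0) (u := (a, b))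
    (γ := fun t : ℂ => ((a + t * a, b + t * b) : ℂ × ℂ)) (by simp) (line2 a b 0)
  have h2 : (fun t : ℂ => G3 (a + t * a) (b + t * b)) =ᶠ[𝓝 0]
      (fun t : ℂ => G3 a b / (1 + t) ^ 6) := by
    filter_upwards [ev_ne] with t ht
    rw [← G3_smul ht]
    congr 1 <;> ring
  simpa using h1.unique ((hasDerivAt_inv_pow (G3 a b) 6).congr_of_eventuallyEq h2)

/-- `℘'' = 6 ℘ ^ 2 - g₂ / 2` for the series `wr` -/
theorem wr_eq (h : Ind a b) (hz : Off a b z) : wr a b z = 6 * wp a b z ^ 2 - G2 a b / 2 := by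
  have h1 := wq_curve h hz (t₀ := z) (u := (0, 0, 1))
    (γ := fun t : ℂ => ((a, b, t) : ℂ × ℂ × ℂ)) rfl
    ((hasDerivAt_const z a).prodMk ((hasDerivAt_const z b).prodMk (hasDerivAt_id z)))
  simpa using h1.unique (hasDerivAt_wq h hz)

/-! ### the function which vanishes -/

/-- `D₂ ℘ + 2 ℘ ^ 2 - g₂ / 3` -/
noncomputable def W (a b z : ℂ) : ℂ :=
  eta1 a b * wpa a b z + eta2 a b * wpb a b z + wz a b z * wq a b z +
    2 * wp a b z ^ 2 - G2 a b / 3

theorem hasDerivAt_W (h : Ind a b) (hz : Off a b z) :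
    HasDerivAt (W a b) (eta1 a b * wqa a b z + eta2 a b * wqb a b z +
      (-wp a b z * wq a b z + wz a b z * (6 * wp a b z ^ 2 - G2 a b / 2)) +
      2 * (2 * wp a b z * wq a b z)) z := by
  have h1 := (hasDerivAt_wpa h (Or.inl hz)).const_mul (eta1 a b)
  have h2 := (hasDerivAt_wpb h (Or.inl hz)).const_mul (eta2 a b)
  have h3 := (hasDerivAt_wz h hz).mul (hasDerivAt_wq h hz)
  have h4 := ((hasDerivAt_wp h hz).pow 2).const_mul 2
  have h5 := (((h1.add h2).add h3).add h4).sub_const (G2 a b / 3)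
  refine h5.congr_deriv ?_
  push_cast
  simp only [pow_one]

theorem W_add_lat (h : Ind a b) (hz : Off a b z) (x : ℤ × ℤ) :
    W a b (z + lat a b x) = W a b z := by
  have h1 := shift_wp h hz x (eta1 a b) (eta2 a b)
  simp only [W]
  rw [wz_add_lat h hz, wq_add_lat h, wp_add_lat h, eta]
  linear_combination h1

theorem off_punctured (h : Ind a b) : ∀ᶠ z : ℂ in 𝓝[≠] 0, Off a b z := by
  obtain ⟨c, hc, hev⟩ := lat_lower_bound h
  have h1 := hev.self_of_nhds
  simp only at h1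
  have h2 : ∀ᶠ z : ℂ in 𝓝[≠] 0, ‖z‖ < c := by
    apply eventually_nhdsWithin_of_eventually_nhds
    have : Tendsto (fun z : ℂ => ‖z‖) (𝓝 0) (𝓝 ‖(0 : ℂ)‖) := continuous_norm.continuousAt
    rw [norm_zero] at this
    exact this.eventually_lt_const hc
  filter_upwards [h2, self_mem_nhdsWithin] with z hz hz0 x hx
  have hx0 : x ≠ 0 := by
    rintro rfl
    apply hz0
    simp [hx, lat]
  have h3 : (1 : ℝ) ≤ |(x.1 : ℝ)| + |(x.2 : ℝ)| := by
    have h4 : (1 : ℤ) ≤ |x.1| + |x.2| := by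
      by_contra hcon
      push Not at hcon
      have h5 : |x.1| + |x.2| = 0 := by
        have := abs_nonneg x.1
        have := abs_nonneg x.2
        omega
      have h6 : |x.1| = 0 := by
        have := abs_nonneg x.1
        have := abs_nonneg x.2
        omega
      have h7 : |x.2| = 0 := by omega
      exact hx0 (Prod.ext (abs_eq_zero.1 h6) (abs_eq_zero.1 h7))
    exact_mod_cast h4
  have h4 := h1 x
  rw [← hx] at h4
  nlinarith

theorem tendsto_W_zero (h : Ind a b) : Tendsto (W a b) (𝓝[≠] 0) (𝓝 0) := by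
  have hA := tendsto_wp_zero h
  have hB := tendsto_wq_zero h
  have hC := tendsto_wz_zero h
  have hz : Tendsto (fun z : ℂ => z) (𝓝[≠] 0) (𝓝 0) := tendsto_id.mono_left nhdsWithin_le_nhds
  have hpa : Tendsto (wpa a b) (𝓝[≠] 0) (𝓝 0) := by
    have h1 := (hasDerivAt_wpa h (z := 0) (Or.inr rfl)).continuousAt
    rw [ContinuousAt, wpa_zero] at h1
    exact h1.mono_left nhdsWithin_le_nhds
  have hpb : Tendsto (wpb a b) (𝓝[≠] 0) (𝓝 0) := by
    have h1 := (hasDerivAt_wpb h (z := 0) (Or.inr rfl)).continuousAt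
    rw [ContinuousAt, wpb_zero] at h1
    exact h1.mono_left nhdsWithin_le_nhds
  have h1 := (((hpa.const_mul (eta1 a b)).add (hpb.const_mul (eta2 a b))).add
    (((hB.sub (hC.const_mul 2)).add (hA.const_mul 4)).add
      ((hz.pow 4).mul ((hB.mul hC).add ((hA.pow 2).const_mul 2))))).sub_const (G2 a b / 3)
  have h2 : eta1 a b * 0 + eta2 a b * 0 + (G2 a b / 10 - 2 * -(G2 a b / 60) + 4 * (G2 a b / 20) +
      0 ^ 4 * (G2 a b / 10 * -(G2 a b / 60) + 2 * (G2 a b / 20) ^ 2)) - G2 a b / 3 = 0 := by ring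
  rw [h2] at h1
  refine h1.congr' ?_
  filter_upwards [self_mem_nhdsWithin] with z hz0
  have hz0' : z ≠ 0 := hz0
  simp only [W]
  field_simp
  ring

theorem W_eq_zero (h : Ind a b) (hz : Off a b z) : W a b z = 0 := by
  classical
  set f : ℂ → ℂ := fun z => if Off a b z then W a b z else 0 with hf
  have hper : ∀ z x, f (z + lat a b x) = f z := by
    intro z x
    simp only [hf]
    by_cases hz : Off a b z
    · rw [if_pos hz, if_pos ((off_add_lat x).2 hz), W_add_lat h hz]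
    · rw [if_neg hz, if_neg (fun h' => hz ((off_add_lat x).1 h'))]
  have hoff : ∀ z, Off a b z → DifferentiableAt ℂ f z := by
    intro z hz
    have h1 : f =ᶠ[𝓝 z] W a b := by
      filter_upwards [(isOpen_off h).mem_nhds hz] with w hw
      simp only [hf]
      exact if_pos hw
    exact ((hasDerivAt_W h hz).congr_of_eventuallyEq h1).differentiableAt
  have hno0 : ¬ Off a b 0 := fun h' => h' (0, 0) (by simp [lat])
  have hf0 : f 0 = 0 := by simp only [hf]; exact if_neg hno0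
  have h0 : DifferentiableAt ℂ f 0 := by
    apply AnalyticAt.differentiableAt
    apply Complex.analyticAt_of_differentiable_on_punctured_nhds_of_continuousAt
    · filter_upwards [off_punctured h] with w hw
      exact hoff w hw
    · rw [continuousAt_iff_punctured_nhds, hf0]
      refine (tendsto_W_zero h).congr' ?_
      filter_upwards [off_punctured h] with w hw
      simp only [hf]
      exact (if_pos hw).symm
  have hdiff : Differentiable ℂ f := by
    intro z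
    by_cases hz : Off a b z
    · exact hoff z hz
    · simp only [Off] at hz
      push Not at hz
      obtain ⟨x, hx⟩ := hz
      have h1 : f = fun w => f (w - lat a b x) := by
        funext w
        rw [← hper (w - lat a b x) x, sub_add_cancel]
      rw [h1, hx]
      have h2 : DifferentiableAt ℂ f (lat a b x - lat a b x) := by rw [sub_self]; exact h0
      exact h2.comp (lat a b x) (f := fun w => w - lat a b x) (by fun_prop)
  obtain ⟨c, hc⟩ := const_of_periodic h hdiff hper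
  have h1 : f z = 0 := by rw [hc z, ← hc 0, hf0]
  rw [← h1]
  simp only [hf]
  exact (if_pos hz).symm

end FS

section
variable {a b z : ℂ}

/-- `D₂ ℘ = -2 ℘ ^ 2 + g₂ / 3` -/
theorem d2_wp (h : Ind a b) (hz : Off a b z) :
    eta1 a b * wpa a b z + eta2 a b * wpb a b z + wz a b z * wq a b z =
      -2 * wp a b z ^ 2 + G2 a b / 3 := by
  have h1 := FS.W_eq_zero h hz
  simp only [FS.W] at h1
  linear_combination h1

/-- `D₂ ℘' = -3 ℘ ℘'` -/
theorem d2_wq (h : Ind a b) (hz : Off a b z) :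
    eta1 a b * wqa a b z + eta2 a b * wqb a b z + wz a b z * wr a b z =
      -3 * wp a b z * wq a b z := by
  have h1 : HasDerivAt (FS.W a b) 0 z := by
    have h2 : FS.W a b =ᶠ[𝓝 z] fun _ => 0 := by
      filter_upwards [(isOpen_off h).mem_nhds hz] with w hw
      exact FS.W_eq_zero h hw
    exact (hasDerivAt_const z 0).congr_of_eventuallyEq h2
  have h2 := h1.unique (FS.hasDerivAt_W h hz)
  rw [FS.wr_eq h hz]
  linear_combination -h2

/-- `D₂ ζ = ℘' / 2 - g₂ z / 12` -/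
theorem d2_wz (h : Ind a b) (hz : Off a b z) :
    eta1 a b * wza a b z + eta2 a b * wzb a b z - wz a b z * wp a b z =
      wq a b z / 2 - G2 a b / 12 * z := by
  set Z : ℂ → ℂ := fun z => eta1 a b * wza a b z + eta2 a b * wzb a b z - wz a b z * wp a b z -
    wq a b z / 2 + G2 a b / 12 * z with hZ
  have hd : ∀ w, Off a b w → HasDerivAt Z 0 w := by
    intro w hw
    have h1 := (hasDerivAt_wza h (Or.inl hw)).const_mul (eta1 a b)
    have h2 := (hasDerivAt_wzb h (Or.inl hw)).const_mul (eta2 a b)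
    have h3 := (hasDerivAt_wz h hw).mul (hasDerivAt_wp h hw)
    have h4 := (hasDerivAt_wq h hw).div_const 2
    have h5 := (hasDerivAt_id w).const_mul (G2 a b / 12)
    have h6 := (((h1.add h2).sub h3).sub h4).add h5
    refine h6.congr_deriv ?_
    have h7 := d2_wp h hw
    linear_combination -h7
  have h1 : Z z = Z (-z) := by
    refine (isOpen_off h).is_const_of_deriv_eq_zero (isPreconnected_off h)
      (fun w hw => (hd w hw).differentiableAt.differentiableWithinAt)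
      (fun w hw => (hd w hw).deriv) hz (off_neg.2 hz)
  have h2 : Z (-z) = -Z z := by
    simp only [hZ]
    rw [wza_neg, wzb_neg, wz_neg, wp_neg h, wq_neg h]
    ring
  have h3 : Z z = 0 := by
    have : Z z = -Z z := h1.trans h2
    linear_combination (1 / 2) * this
  simp only [hZ] at h3
  linear_combination h3

end

namespace FS

variable {a b z : ℂ}

theorem d2_ode (h : Ind a b) (hz : Off a b z) :
    (eta1 a b * G2a a b + eta2 a b * G2b a b + 6 * G3 a b) * wp a b z =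
      -(eta1 a b * G3a a b + eta2 a b * G3b a b + G2 a b ^ 2 / 3) := by
  have h1 := wp_curve h hz (t₀ := 0) (u := (eta1 a b, eta2 a b, wz a b z))
    (γ := fun t : ℂ => ((a + t * eta1 a b, b + t * eta2 a b, z + t * wz a b z) : ℂ × ℂ × ℂ))
    (by simp) (line _ _ _ 0)
  have h2 := wq_curve h hz (t₀ := 0) (u := (eta1 a b, eta2 a b, wz a b z))
    (γ := fun t : ℂ => ((a + t * eta1 a b, b + t * eta2 a b, z + t * wz a b z) : ℂ × ℂ × ℂ))
    (by simp) (line _ _ _ 0)
  have h3 := G2_curve h (t₀ := 0) (u := (eta1 a b, eta2 a b))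
    (γ := fun t : ℂ => ((a + t * eta1 a b, b + t * eta2 a b) : ℂ × ℂ)) (by simp) (line2 _ _ 0)
  have h4 := G3_curve h (t₀ := 0) (u := (eta1 a b, eta2 a b))
    (γ := fun t : ℂ => ((a + t * eta1 a b, b + t * eta2 a b) : ℂ × ℂ)) (by simp) (line2 _ _ 0)
  simp only at h1 h2 h3 h4
  rw [d2_wp h hz] at h1
  rw [d2_wq h hz] at h2
  have h5 := h2.pow 2
  have h6 := (((h1.pow 3).const_mul 4).sub (h3.mul h1)).sub h4
  have h7 := h5.unique (h6.congr_of_eventuallyEq (by
    filter_upwards [line_ev h hz (eta1 a b) (eta2 a b) (wz a b z)] with t ht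
    exact ode ht.1 ht.2))
  simp only [zero_mul, add_zero] at h7
  have h8 := ode h hz
  push_cast at h7
  linear_combination h7 + 6 * wp a b z * h8

theorem d2_both (h : Ind a b) :
    eta1 a b * G2a a b + eta2 a b * G2b a b = -6 * G3 a b ∧
    eta1 a b * G3a a b + eta2 a b * G3b a b = -(G2 a b ^ 2 / 3) := by
  have key : ∀ x : ℂ, (eta1 a b * G2a a b + eta2 a b * G2b a b + 6 * G3 a b) * x =
      -(eta1 a b * G3a a b + eta2 a b * G3b a b + G2 a b ^ 2 / 3) := by
    intro x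
    obtain ⟨y, hy⟩ := IsAlgClosed.exists_pow_nat_eq (4 * x ^ 3 - G2 a b * x - G3 a b)
      (n := 2) (by norm_num)
    obtain ⟨z, hz, hx, -⟩ := exists_wp_eq h hy
    rw [← hx]
    exact d2_ode h hz
  have k0 := key 0
  have k1 := key 1
  constructor
  · linear_combination k1 - k0
  · linear_combination k0

theorem decomp (h : Ind a b) (u : ℂ × ℂ) :
    u.1 = cA a b u * a + cB a b u * eta1 a b ∧ u.2 = cA a b u * b + cB a b u * eta2 a b := by
  have hd := det_ne_zero h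
  simp only [cA, cB]
  constructor
  · field_simp
    simp only [det]; ring
  · field_simp
    simp only [det]; ring

end FS

section
variable {a b z : ℂ}

theorem fs_G2 (h : Ind a b) :
    ∃ L : ℂ × ℂ →L[ℂ] ℂ, HasStrictFDerivAt (fun v : ℂ × ℂ => G2 v.1 v.2) L (a, b) ∧
      ∀ u, L u = -4 * cA a b u * G2 a b - 6 * cB a b u * G3 a b := by
  obtain ⟨L, hL, hLu⟩ := c1_G2 h
  refine ⟨L, hL, fun u => ?_⟩
  obtain ⟨h1, h2⟩ := FS.decomp h u
  have h3 := FS.d1_G2 h
  have h4 := (FS.d2_both h).1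
  rw [hLu]
  linear_combination G2a a b * h1 + G2b a b * h2 + cA a b u * h3 + cB a b u * h4

theorem fs_G3 (h : Ind a b) :
    ∃ L : ℂ × ℂ →L[ℂ] ℂ, HasStrictFDerivAt (fun v : ℂ × ℂ => G3 v.1 v.2) L (a, b) ∧
      ∀ u, L u = -6 * cA a b u * G3 a b - cB a b u * G2 a b ^ 2 / 3 := by
  obtain ⟨L, hL, hLu⟩ := c1_G3 h
  refine ⟨L, hL, fun u => ?_⟩
  obtain ⟨h1, h2⟩ := FS.decomp h u
  have h3 := FS.d1_G3 h
  have h4 := (FS.d2_both h).2
  rw [hLu]
  linear_combination G3a a b * h1 + G3b a b * h2 + cA a b u * h3 + cB a b u * h4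

theorem fs_wp (h : Ind a b) (hz : Off a b z) :
    ∃ L : ℂ × ℂ × ℂ →L[ℂ] ℂ,
      HasStrictFDerivAt (fun v : ℂ × ℂ × ℂ => wp v.1 v.2.1 v.2.2) L (a, b, z) ∧
      ∀ u, L u = -2 * cA a b (u.1, u.2.1) * wp a b z
        + cB a b (u.1, u.2.1) * (-2 * wp a b z ^ 2 + G2 a b / 3)
        + (u.2.2 - cA a b (u.1, u.2.1) * z - cB a b (u.1, u.2.1) * wz a b z) * wq a b z := by
  obtain ⟨L, hL, hLu⟩ := c1_wp h hz
  refine ⟨L, hL, fun u => ?_⟩
  obtain ⟨h1, h2⟩ := FS.decomp h (u.1, u.2.1)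
  simp only at h1 h2
  have h3 := FS.d1_wp h hz
  have h4 := d2_wp h hz
  rw [hLu]
  linear_combination wpa a b z * h1 + wpb a b z * h2 + cA a b (u.1, u.2.1) * h3 +
    cB a b (u.1, u.2.1) * h4

theorem fs_wq (h : Ind a b) (hz : Off a b z) :
    ∃ L : ℂ × ℂ × ℂ →L[ℂ] ℂ,
      HasStrictFDerivAt (fun v : ℂ × ℂ × ℂ => wq v.1 v.2.1 v.2.2) L (a, b, z) ∧
      ∀ u, L u = -3 * cA a b (u.1, u.2.1) * wq a b z
        - 3 * cB a b (u.1, u.2.1) * wp a b z * wq a b z
        + (u.2.2 - cA a b (u.1, u.2.1) * z - cB a b (u.1, u.2.1) * wz a b z) *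
          (6 * wp a b z ^ 2 - G2 a b / 2) := by
  obtain ⟨L, hL, hLu⟩ := c1_wq h hz
  refine ⟨L, hL, fun u => ?_⟩
  obtain ⟨h1, h2⟩ := FS.decomp h (u.1, u.2.1)
  simp only at h1 h2
  have h3 := FS.d1_wq h hz
  have h4 := d2_wq h hz
  have h5 := FS.wr_eq h hz
  rw [hLu]
  linear_combination wqa a b z * h1 + wqb a b z * h2 + cA a b (u.1, u.2.1) * h3 +
    cB a b (u.1, u.2.1) * h4 +
    (u.2.2 - cA a b (u.1, u.2.1) * z - cB a b (u.1, u.2.1) * wz a b z) * h5

theorem fs_wz (h : Ind a b) (hz : Off a b z) :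
    ∃ L : ℂ × ℂ × ℂ →L[ℂ] ℂ,
      HasStrictFDerivAt (fun v : ℂ × ℂ × ℂ => wz v.1 v.2.1 v.2.2) L (a, b, z) ∧
      ∀ u, L u = -cA a b (u.1, u.2.1) * wz a b z
        + cB a b (u.1, u.2.1) * (wq a b z / 2 - G2 a b / 12 * z)
        - (u.2.2 - cA a b (u.1, u.2.1) * z - cB a b (u.1, u.2.1) * wz a b z) * wp a b z := by
  obtain ⟨L, hL, hLu⟩ := c1_wz h hz
  refine ⟨L, hL, fun u => ?_⟩
  obtain ⟨h1, h2⟩ := FS.decomp h (u.1, u.2.1)
  simp only at h1 h2
  have h3 := FS.d1_wz h hz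
  have h4 := d2_wz h hz
  rw [hLu]
  linear_combination wza a b z * h1 + wzb a b z * h2 + cA a b (u.1, u.2.1) * h3 +
    cB a b (u.1, u.2.1) * h4

theorem fs_eta1 (h : Ind a b) :
    ∃ L : ℂ × ℂ →L[ℂ] ℂ, HasStrictFDerivAt (fun v : ℂ × ℂ => eta1 v.1 v.2) L (a, b) ∧
      ∀ u, L u = -cA a b u * eta1 a b - cB a b u * (G2 a b / 12) * a := by
  obtain ⟨L, hL, hLu⟩ := fs_wz h (FS.off_half_a h)
  set T : ℂ × ℂ →L[ℂ] ℂ × ℂ × ℂ :=
    (ContinuousLinearMap.fst ℂ ℂ ℂ).prod ((ContinuousLinearMap.snd ℂ ℂ ℂ).prod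
      ((1 / 2 : ℂ) • ContinuousLinearMap.fst ℂ ℂ ℂ)) with hT
  have hTu : ∀ u, T u = (u.1, u.2, u.1 / 2) := by
    intro u
    simp only [hT, ContinuousLinearMap.prod_apply, ContinuousLinearMap.coe_fst',
      ContinuousLinearMap.coe_snd', _root_.smul_apply, smul_eq_mul]
    rw [show (1 / 2 : ℂ) * u.1 = u.1 / 2 by ring]
  have hL' : HasStrictFDerivAt (fun v : ℂ × ℂ × ℂ => wz v.1 v.2.1 v.2.2) L (T (a, b)) := by
    rw [hTu]; exact hL
  refine ⟨(2 : ℂ) • (L.comp T), ?_, fun u => ?_⟩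
  · have h1 := (hL'.comp (a, b) T.hasStrictFDerivAt).const_smul (2 : ℂ)
    refine h1.congr_of_eventuallyEq (Eventually.of_forall fun v => ?_)
    simp only [Pi.smul_apply, hTu, smul_eq_mul, eta1]
  · simp only [_root_.smul_apply, ContinuousLinearMap.comp_apply, hTu, smul_eq_mul]
    rw [hLu]
    simp only
    rw [FS.wq_half_a h]
    have h1 := (FS.decomp h u).1
    have h2 : wz a b (a / 2) = eta1 a b / 2 := by simp only [eta1]; ring
    rw [h2]
    simp only [Prod.mk.eta]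
    linear_combination -wp a b (a / 2) * h1

theorem fs_eta2 (h : Ind a b) :
    ∃ L : ℂ × ℂ →L[ℂ] ℂ, HasStrictFDerivAt (fun v : ℂ × ℂ => eta2 v.1 v.2) L (a, b) ∧
      ∀ u, L u = -cA a b u * eta2 a b - cB a b u * (G2 a b / 12) * b := by
  obtain ⟨L, hL, hLu⟩ := fs_wz h (FS.off_half_b h)
  set T : ℂ × ℂ →L[ℂ] ℂ × ℂ × ℂ :=
    (ContinuousLinearMap.fst ℂ ℂ ℂ).prod ((ContinuousLinearMap.snd ℂ ℂ ℂ).prod
      ((1 / 2 : ℂ) • ContinuousLinearMap.snd ℂ ℂ ℂ)) with hT
  have hTu : ∀ u, T u = (u.1, u.2, u.2 / 2) := by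
    intro u
    simp only [hT, ContinuousLinearMap.prod_apply, ContinuousLinearMap.coe_fst',
      ContinuousLinearMap.coe_snd', _root_.smul_apply, smul_eq_mul]
    rw [show (1 / 2 : ℂ) * u.2 = u.2 / 2 by ring]
  have hL' : HasStrictFDerivAt (fun v : ℂ × ℂ × ℂ => wz v.1 v.2.1 v.2.2) L (T (a, b)) := by
    rw [hTu]; exact hL
  refine ⟨(2 : ℂ) • (L.comp T), ?_, fun u => ?_⟩
  · have h1 := (hL'.comp (a, b) T.hasStrictFDerivAt).const_smul (2 : ℂ)
    refine h1.congr_of_eventuallyEq (Eventually.of_forall fun v => ?_)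
    simp only [Pi.smul_apply, hTu, smul_eq_mul, eta2]
  · simp only [_root_.smul_apply, ContinuousLinearMap.comp_apply, hTu, smul_eq_mul]
    rw [hLu]
    simp only
    rw [FS.wq_half_b h]
    have h1 := (FS.decomp h u).2
    have h2 : wz a b (b / 2) = eta2 a b / 2 := by simp only [eta2]; ring
    rw [h2]
    simp only [Prod.mk.eta]
    linear_combination -wp a b (b / 2) * h1

end

end Pool.Agent.EllSch
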