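import Pool.Agent.EllSch.Final
import Pool.Agent.EllSch.Zeta

/-! # [FB4] From the raw sums to the statement of the problem -/

namespace Pool.Agent.EllSch

theorem summable_wp {a b : ℂ} (h : Ind a b) (z : ℂ) :
    Summable fun x : ℤ × ℤ => 1 / (z - lat a b x) ^ 2 - 1 / lat a b x ^ 2 := by
  have h1 := ((pp h).hasSum_weierstrassP z).summable
  rw [← (pp h).latticeEquivProd.symm.toEquiv.summable_iff] at h1
  refine h1.congr fun x => ?_
  change 1 / (z - (((pp h).latticeEquivProd.symm x : (pp h).lattice) : ℂ)) ^ 2 -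
    1 / (((pp h).latticeEquivProd.symm x : (pp h).lattice) : ℂ) ^ 2 = _
  rw [pp_symm_coe]

theorem wp_split {a b : ℂ} (h : Ind a b) (z : ℂ) :
    wp a b z = 1 / z ^ 2 + ∑' x : ℤ × ℤ,
      (if x = 0 then (0 : ℂ) else (1 / (z - lat a b x) ^ 2 - 1 / lat a b x ^ 2)) := by
  unfold wp
  rw [(summable_wp h z).tsum_eq_add_tsum_ite 0]
  simp [lat_zero]

theorem wz_split {a b : ℂ} (h : Ind a b) (z : ℂ) :
    wz a b z = 1 / z + ∑' x : ℤ × ℤ,
      (if x = 0 then (0 : ℂ) else (1 / (z - lat a b x) + 1 / lat a b x + z / lat a b x ^ 2)) := by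
  unfold wz
  rw [(summable_wz h z).tsum_eq_add_tsum_ite 0]
  simp [lat_zero]

theorem G2_split (a b : ℂ) :
    G2 a b = 60 * ∑' x : ℤ × ℤ, (if x = 0 then (0 : ℂ) else 1 / lat a b x ^ 4) := by
  unfold G2
  congr 2
  funext x
  split_ifs with hx
  · rw [hx, lat_zero]
    simp
  · rfl

theorem G3_split (a b : ℂ) :
    G3 a b = 140 * ∑' x : ℤ × ℤ, (if x = 0 then (0 : ℂ) else 1 / lat a b x ^ 6) := by
  unfold G3
  congr 2
  funext x
  split_ifs with hx
  · rw [hx, lat_zero]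
    simp
  · rfl

end Pool.Agent.EllSch
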