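import Mathlib

/-! # [UP] Complex analysis on the upper half plane and on punctured discs -/

open Filter Topology

namespace Pool.Agent.EllSch

namespace Upper

/-- a homeomorphic parametrisation of the upper half plane by the plane -/
noncomputable def par (z : ℂ) : ℂ := ⟨z.re, Real.exp z.im⟩

theorem continuous_par : Continuous par := by
  have : par = fun z : ℂ => ((z.re : ℝ) : ℂ) + ((Real.exp z.im : ℝ) : ℂ) * Complex.I := by
    funext z
    exact (Complex.re_add_im (par z)).symm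
  rw [this]
  fun_prop

theorem par_injective : Function.Injective par := by
  intro z w h
  have h1 : (par z).re = (par w).re := by rw [h]
  have h2 : (par z).im = (par w).im := by rw [h]
  exact Complex.ext h1 (Real.exp_injective h2)

end Upper

/-- the upper half plane minus a countable set is preconnected -/
theorem isPreconnected_upper_sdiff {Z : Set ℂ} (hZ : Z.Countable) :
    IsPreconnected ({τ : ℂ | 0 < τ.im} \ Z) := by
  have h1 : (Upper.par ⁻¹' Z).Countable := hZ.preimage Upper.par_injective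
  have h2 : IsPreconnected (Upper.par ⁻¹' Z)ᶜ :=
    (h1.isConnected_compl_of_one_lt_rank (by simp)).2
  have h3 := h2.image Upper.par Upper.continuous_par.continuousOn
  convert h3 using 1
  ext τ
  constructor
  · rintro ⟨h, h'⟩
    refine ⟨⟨τ.re, Real.log τ.im⟩, ?_, ?_⟩
    · intro h4
      apply h'
      have : Upper.par ⟨τ.re, Real.log τ.im⟩ = τ := by
        apply Complex.ext
        · simp [Upper.par]
        · simp only [Upper.par]
          exact Real.exp_log h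
      rwa [Set.mem_preimage, this] at h4
    · apply Complex.ext
      · simp [Upper.par]
      · simp only [Upper.par]
        exact Real.exp_log h
  · rintro ⟨z, hz, rfl⟩
    exact ⟨Real.exp_pos _, hz⟩

namespace Upper

open Classical in
/-- the extension over the removable singularities -/
noncomputable def ext (Θ : ℂ → ℂ) (Z : Set ℂ) (z : ℂ) : ℂ :=
  if z ∈ Z then limUnder (𝓝[≠] z) Θ else Θ z

variable {Θ : ℂ → ℂ} {Z : Set ℂ}

theorem ext_of_notMem {z : ℂ} (hz : z ∉ Z) : ext Θ Z z = Θ z := by simp [ext, hz]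

theorem ev_notMem (hZ : ∀ z : ℂ, 0 < z.im → ∃ ε > 0, ∀ w ∈ Metric.ball z ε, w ≠ z → w ∉ Z)
    {z : ℂ} (hz : 0 < z.im) : ∀ᶠ w in 𝓝[≠] z, w ∉ Z := by
  obtain ⟨ε, hε, h⟩ := hZ z hz
  rw [eventually_nhdsWithin_iff]
  filter_upwards [Metric.ball_mem_nhds z hε] with w hw hw'
  exact h w hw hw'

theorem ev_upper {z : ℂ} (hz : 0 < z.im) : ∀ᶠ w in 𝓝 z, 0 < w.im :=
  (isOpen_lt continuous_const Complex.continuous_im).mem_nhds hz

theorem differentiableAt_ext
    (hZ : ∀ z : ℂ, 0 < z.im → ∃ ε > 0, ∀ w ∈ Metric.ball z ε, w ≠ z → w ∉ Z)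
    (hd : ∀ τ : ℂ, 0 < τ.im → τ ∉ Z → DifferentiableAt ℂ Θ τ)
    (hb : ∀ z : ℂ, 0 < z.im → z ∈ Z → ∃ B : ℝ, ∀ᶠ τ in 𝓝[≠] z, ‖Θ τ‖ ≤ B)
    {z : ℂ} (hz : 0 < z.im) : DifferentiableAt ℂ (ext Θ Z) z := by
  by_cases hzZ : z ∈ Z
  · obtain ⟨B, hB⟩ := hb z hz hzZ
    have h1 : ∀ᶠ w in 𝓝 z, w ≠ z → (w ∉ Z ∧ ‖Θ w‖ ≤ B) := by
      have := (ev_notMem hZ hz).and hB
      rwa [eventually_nhdsWithin_iff] at this
    have h2 := h1.and (ev_upper hz)
    rw [Filter.Eventually, Metric.mem_nhds_iff] at h2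
    obtain ⟨ε, hε, h3⟩ := h2
    have h4 : DifferentiableOn ℂ (Function.update Θ z (limUnder (𝓝[≠] z) Θ)) (Metric.ball z ε) := by
      apply Complex.differentiableOn_update_limUnder_of_bddAbove (Metric.ball_mem_nhds z hε)
      · rintro w ⟨hw, hw'⟩
        have := h3 hw
        exact (hd w this.2 (this.1 hw').1).differentiableWithinAt
      · refine ⟨B, ?_⟩
        rintro _ ⟨w, ⟨hw, hw'⟩, rfl⟩
        exact ((h3 hw).1 hw').2
    have h5 := h4.differentiableAt (Metric.ball_mem_nhds z hε)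
    refine h5.congr_of_eventuallyEq ?_
    filter_upwards [h1] with w hw
    by_cases hwz : w = z
    · subst hwz
      simp [ext, hzZ]
    · rw [Function.update_of_ne hwz, ext_of_notMem (hw hwz).1]
  · refine (hd z hz hzZ).congr_of_eventuallyEq ?_
    have h1 : ∀ᶠ w in 𝓝 z, w ≠ z → w ∉ Z := by
      have := ev_notMem hZ hz
      rwa [eventually_nhdsWithin_iff] at this
    filter_upwards [h1] with w hw
    by_cases hwz : w = z
    · subst hwz
      exact ext_of_notMem hzZ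
    · exact ext_of_notMem (hw hwz)

/-- two functions that are continuous at a point and agree off `Z` near it agree there -/
theorem eq_of_ev {F G : ℂ → ℂ} {z : ℂ} (hF : ContinuousAt F z) (hG : ContinuousAt G z)
    (h : ∀ᶠ w in 𝓝[≠] z, F w = G w) : F z = G z := by
  have h1 : Tendsto F (𝓝[≠] z) (𝓝 (F z)) := hF.tendsto.mono_left nhdsWithin_le_nhds
  have h2 : Tendsto G (𝓝[≠] z) (𝓝 (G z)) := hG.tendsto.mono_left nhdsWithin_le_nhds
  exact tendsto_nhds_unique (h1.congr' h) h2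

end Upper

open UpperHalfPlane ModularForm in
open scoped MatrixGroups Manifold in
/-- [MP] a bounded-at-the-cusp form of negative weight, holomorphic outside a discrete set near
which it is bounded, vanishes -/
theorem form_eq_zero (Θ : ℂ → ℂ) (Z : Set ℂ) (k : ℕ) (hk : 0 < k)
    (hZ : ∀ z : ℂ, 0 < z.im → ∃ ε > 0, ∀ w ∈ Metric.ball z ε, w ≠ z → w ∉ Z)
    (hd : ∀ τ : ℂ, 0 < τ.im → τ ∉ Z → DifferentiableAt ℂ Θ τ)
    (hb : ∀ z : ℂ, 0 < z.im → z ∈ Z → ∃ B : ℝ, ∀ᶠ τ in 𝓝[≠] z, ‖Θ τ‖ ≤ B)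
    (hc : ∃ B T₀ : ℝ, ∀ τ : ℂ, T₀ < τ.im → τ ∉ Z → ‖Θ τ‖ ≤ B)
    (hT : ∀ τ : ℂ, 0 < τ.im → τ ∉ Z → τ + 1 ∉ Z ∧ Θ (τ + 1) = Θ τ)
    (hT' : ∀ τ : ℂ, 0 < τ.im → τ ∉ Z → τ - 1 ∉ Z)
    (hS : ∀ τ : ℂ, 0 < τ.im → τ ∉ Z → -1 / τ ∉ Z ∧ τ ^ k * Θ (-1 / τ) = Θ τ) :
    ∀ τ : ℂ, 0 < τ.im → τ ∉ Z → Θ τ = 0 := by
  set g := Upper.ext Θ Z with hg
  have hgd : ∀ {z : ℂ}, 0 < z.im → DifferentiableAt ℂ g z :=
    fun hz => Upper.differentiableAt_ext hZ hd hb hz
  have im_S : ∀ {z : ℂ}, 0 < z.im → 0 < (-1 / z).im := by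
    intro z hz
    have h0 : z ≠ 0 := by rintro rfl; simp at hz
    rw [neg_div, one_div, Complex.neg_im, Complex.inv_im]
    have := Complex.normSq_pos.2 h0
    have : -(-z.im / Complex.normSq z) = z.im / Complex.normSq z := by ring
    rw [this]
    positivity
  -- invariance
  have gT : ∀ {z : ℂ}, 0 < z.im → g (z + 1) = g z := by
    intro z hz
    have hz1 : 0 < (z + 1).im := by simpa using hz
    apply Upper.eq_of_ev (F := fun w => g (w + 1)) (G := g)
    · exact ContinuousAt.comp (f := fun w : ℂ => w + 1) (hgd hz1).continuousAt (by fun_prop)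
    · exact (hgd hz).continuousAt
    · filter_upwards [Upper.ev_notMem hZ hz,
        (Upper.ev_upper hz).filter_mono nhdsWithin_le_nhds] with w hw hw'
      have := hT w hw' hw
      rw [hg, Upper.ext_of_notMem this.1, Upper.ext_of_notMem hw, this.2]
  have gS : ∀ {z : ℂ}, 0 < z.im → z ^ k * g (-1 / z) = g z := by
    intro z hz
    have h0 : z ≠ 0 := by rintro rfl; simp at hz
    apply Upper.eq_of_ev (F := fun w => w ^ k * g (-1 / w)) (G := g)
    · apply ContinuousAt.mul (by fun_prop)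
      apply ContinuousAt.comp (f := fun w : ℂ => -1 / w) (hgd (im_S hz)).continuousAt
      exact continuousAt_const.div continuousAt_id h0
    · exact (hgd hz).continuousAt
    · filter_upwards [Upper.ev_notMem hZ hz,
        (Upper.ev_upper hz).filter_mono nhdsWithin_le_nhds] with w hw hw'
      have := hS w hw' hw
      rw [hg, Upper.ext_of_notMem this.1, Upper.ext_of_notMem hw, this.2]
  have gB : ∃ B T₀ : ℝ, ∀ τ : ℂ, T₀ < τ.im → 0 < τ.im → ‖g τ‖ ≤ B := by
    obtain ⟨B, T₀, h⟩ := hc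
    refine ⟨B, T₀, fun τ hτ hτ' => ?_⟩
    have h1 : Tendsto (fun w => ‖g w‖) (𝓝[≠] τ) (𝓝 ‖g τ‖) :=
      ((hgd hτ').continuousAt.norm.tendsto).mono_left nhdsWithin_le_nhds
    refine le_of_tendsto h1 ?_
    have h2 : ∀ᶠ w in 𝓝 τ, T₀ < w.im :=
      (isOpen_lt continuous_const Complex.continuous_im).mem_nhds hτ
    filter_upwards [Upper.ev_notMem hZ hτ', h2.filter_mono nhdsWithin_le_nhds] with w hw hw'
    rw [hg, Upper.ext_of_notMem hw]
    exact h w hw' hw
  -- the modular form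
  let f : ℍ → ℂ := fun τ => g τ
  have fS : f ∣[(-k : ℤ)] ModularGroup.S = f := by
    ext τ
    rw [ModularForm.SL_slash_apply, UpperHalfPlane.modular_S_smul, ModularGroup.denom_S]
    simp only [f, neg_neg, zpow_natCast]
    have := gS τ.2
    rw [← gS τ.2]
    change g (-(τ : ℂ))⁻¹ * _ = _
    rw [mul_comm, ← neg_inv, neg_div, one_div]
  have fT : f ∣[(-k : ℤ)] ModularGroup.T = f := by
    ext τ
    rw [ModularForm.SL_slash_apply, UpperHalfPlane.modular_T_smul]
    have hden : denom (ModularGroup.T : SL(2, ℤ)) τ = 1 := by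
      simp [ModularGroup.denom_apply, ModularGroup.T]
    rw [hden]
    simp only [f, one_zpow, mul_one, UpperHalfPlane.coe_vadd]
    rw [add_comm]
    exact_mod_cast gT τ.2
  have fall := SlashInvariantForm.slash_action_generators_SL2Z fS fT
  have fbd : UpperHalfPlane.IsBoundedAtImInfty f := by
    rw [UpperHalfPlane.isBoundedAtImInfty_iff]
    obtain ⟨B, T₀, h⟩ := gB
    refine ⟨B, T₀ + 1, fun τ hτ => h τ ?_ τ.2⟩
    have : τ.im = (τ : ℂ).im := rfl
    linarith
  have fmd : MDifferentiable 𝓘(ℂ) 𝓘(ℂ) f := by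
    rw [UpperHalfPlane.mdifferentiable_iff]
    intro z hz
    refine ((hgd hz).congr_of_eventuallyEq ?_).differentiableWithinAt
    filter_upwards [Upper.ev_upper hz] with w hw
    simp only [Function.comp, f]
    rw [UpperHalfPlane.ofComplex_apply_of_im_pos hw]
  let F : ModularForm 𝒮ℒ (-k : ℤ) :=
    { toFun := f
      slash_action_eq' := by
        rintro _ ⟨γ, rfl⟩
        exact fall γ
      holo' := fmd
      bdd_at_cusps' := by
        intro c hc
        rw [OnePoint.isBoundedAt_iff_forall_SL2Z hc]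
        intro γ _
        rw [fall γ]
        exact fbd }
  have hF : ⇑F = 0 := ModularFormClass.levelOne_neg_weight_eq_zero (by omega) F
  intro τ hτ hτZ
  have := congrFun hF ⟨τ, hτ⟩
  have h2 : F ⟨τ, hτ⟩ = g τ := rfl
  rw [h2, hg, Upper.ext_of_notMem hτZ] at this
  simpa using this

/-- [CW] a holomorphic function on a punctured disc avoiding the squares of a translation
invariant open set is bounded near the puncture -/
theorem bounded_of_avoid (G : ℂ → ℂ) {ρ : ℝ} (hρ : 0 < ρ)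
    (hG : DifferentiableOn ℂ G (Metric.ball 0 ρ \ {0})) (z₀ : ℂ) {r : ℝ} (hr : 0 < r)
    (hav : ∀ s ∈ Metric.ball (0 : ℂ) ρ \ {0}, ∀ z ∈ Metric.ball z₀ r, ∀ n : ℤ,
      G s ≠ (z + n) ^ 2) :
    ∃ B : ℝ, ∀ᶠ s in 𝓝[≠] (0 : ℂ), ‖G s‖ ≤ B := by
  -- a ball around `z₀ ^ 2` is avoided
  have h1 : ∃ c > 0, ∀ s ∈ Metric.ball (0 : ℂ) ρ \ {0}, c ≤ ‖G s - z₀ ^ 2‖ := by
    have han : AnalyticAt ℂ (fun z : ℂ => z ^ 2) z₀ := by fun_prop
    rcases han.eventually_constant_or_nhds_le_map_nhds with h | h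
    · exfalso
      have h2 : (fun z : ℂ => z ^ 2) =ᶠ[𝓝 z₀] fun _ => z₀ ^ 2 := h
      have h3 := h2.deriv
      have h4 := h3.deriv.eq_of_nhds
      have h5 : deriv (fun z : ℂ => z ^ 2) = fun z => 2 * z := by
        funext z
        simp
      rw [h5] at h4
      simp at h4
    · have h2 : (fun z : ℂ => z ^ 2) '' Metric.ball z₀ r ∈ 𝓝 (z₀ ^ 2) :=
        h (image_mem_map (Metric.ball_mem_nhds z₀ hr))
      obtain ⟨c, hc, hc'⟩ := Metric.mem_nhds_iff.1 h2
      refine ⟨c, hc, fun s hs => ?_⟩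
      by_contra hlt
      push Not at hlt
      have : G s ∈ Metric.ball (z₀ ^ 2) c := by
        rwa [Metric.mem_ball, dist_eq_norm]
      obtain ⟨z, hz, hz'⟩ := hc' this
      exact hav s hs z hz 0 (by simpa using hz'.symm)
  obtain ⟨c, hc, hc'⟩ := h1
  set K : ℂ → ℂ := fun s => (G s - z₀ ^ 2)⁻¹ with hK
  have hball : Metric.ball (0 : ℂ) ρ ∈ 𝓝 (0 : ℂ) := Metric.ball_mem_nhds 0 hρ
  have hne : ∀ s ∈ Metric.ball (0 : ℂ) ρ \ {0}, G s - z₀ ^ 2 ≠ 0 := by
    intro s hs h0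
    have := hc' s hs
    rw [h0, norm_zero] at this
    linarith
  have hKd : DifferentiableOn ℂ K (Metric.ball 0 ρ \ {0}) :=
    (hG.sub_const _).inv hne
  have hKb : BddAbove (norm ∘ K '' (Metric.ball 0 ρ \ {0})) := by
    refine ⟨c⁻¹, ?_⟩
    rintro _ ⟨s, hs, rfl⟩
    simp only [Function.comp, hK, norm_inv]
    exact inv_anti₀ hc (hc' s hs)
  set K₁ := Function.update K 0 (limUnder (𝓝[≠] 0) K) with hK₁
  have hK₁d : DifferentiableOn ℂ K₁ (Metric.ball 0 ρ) :=
    Complex.differentiableOn_update_limUnder_of_bddAbove hball hKd hKb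
  have hK₁a : AnalyticAt ℂ K₁ 0 := hK₁d.analyticAt hball
  have hK₁e : ∀ s ∈ Metric.ball (0 : ℂ) ρ \ {0}, K₁ s = (G s - z₀ ^ 2)⁻¹ := by
    rintro s ⟨_, hs⟩
    rw [hK₁, Function.update_of_ne hs]
  have hmem : ∀ᶠ s in 𝓝[≠] (0 : ℂ), s ∈ Metric.ball (0 : ℂ) ρ \ {0} := by
    rw [eventually_nhdsWithin_iff]
    filter_upwards [hball] with s hs hs'
    exact ⟨hs, hs'⟩
  by_cases h0 : K₁ 0 = 0
  · exfalso
    rcases hK₁a.eventually_constant_or_nhds_le_map_nhds with h | h
    · rw [h0] at h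
      have h2 := (h.filter_mono nhdsWithin_le_nhds : ∀ᶠ s in 𝓝[≠] (0 : ℂ), K₁ s = 0).and hmem
      obtain ⟨s, hs, hs'⟩ := h2.exists
      rw [hK₁e s hs'] at hs
      exact hne s hs' (inv_eq_zero.1 hs)
    · rw [h0] at h
      have h2 : K₁ '' Metric.ball 0 ρ ∈ 𝓝 (0 : ℂ) := h (image_mem_map hball)
      -- small values
      have h3 : Tendsto (fun n : ℕ => ((z₀ + (n : ℂ)) ^ 2 - z₀ ^ 2)⁻¹) atTop (𝓝 0) := by
        apply tendsto_inv₀_cobounded.comp
        rw [← tendsto_norm_atTop_iff_cobounded]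
        have h4 : ∀ n : ℕ, (n : ℝ) * ((n : ℝ) - 2 * ‖z₀‖) ≤ ‖(z₀ + (n : ℂ)) ^ 2 - z₀ ^ 2‖ := by
          intro n
          have : (z₀ + (n : ℂ)) ^ 2 - z₀ ^ 2 = (n : ℂ) * ((n : ℂ) + 2 * z₀) := by ring
          rw [this, norm_mul, Complex.norm_natCast]
          apply mul_le_mul_of_nonneg_left _ (Nat.cast_nonneg n)
          have h5 := norm_sub_norm_le ((n : ℂ)) (-(2 * z₀))
          rw [norm_neg, norm_mul, Complex.norm_natCast, sub_neg_eq_add] at h5
          simpa using h5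
        refine tendsto_atTop_mono h4 ?_
        apply Tendsto.atTop_mul_atTop₀ tendsto_natCast_atTop_atTop
        exact tendsto_atTop_add_const_right _ _ tendsto_natCast_atTop_atTop
      have h4 := h3.eventually h2
      have h5 : ∀ᶠ n : ℕ in atTop, (z₀ + (n : ℂ)) ^ 2 - z₀ ^ 2 ≠ 0 := by
        have : Tendsto (fun n : ℕ => (n : ℝ)) atTop atTop := tendsto_natCast_atTop_atTop
        filter_upwards [this.eventually_gt_atTop (2 * ‖z₀‖), eventually_gt_atTop 0] with n hn hn0 h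
        have h6 : (n : ℂ) * ((n : ℂ) + 2 * z₀) = 0 := by linear_combination h
        rcases mul_eq_zero.1 h6 with h7 | h7
        · exact hn0.ne' (by exact_mod_cast h7)
        · have h8 : (n : ℂ) = -(2 * z₀) := by linear_combination h7
          have h9 := congrArg norm h8
          rw [Complex.norm_natCast, norm_neg, norm_mul] at h9
          have h10 : ‖(2 : ℂ)‖ = 2 := by simp
          rw [h10] at h9
          linarith
      obtain ⟨n, hn, hn'⟩ := (h4.and h5).exists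
      obtain ⟨s, hs, hs'⟩ := hn
      have hs0 : s ≠ 0 := by
        rintro rfl
        rw [h0] at hs'
        exact hn' (inv_eq_zero.1 hs'.symm)
      rw [hK₁e s ⟨hs, hs0⟩] at hs'
      have h6 := inv_injective hs'
      exact hav s ⟨hs, hs0⟩ z₀ (Metric.mem_ball_self hr) n (by
        push_cast
        linear_combination h6)
  · -- `G = z₀ ^ 2 + 1 / K`
    have h2 : Tendsto (fun s => ‖z₀ ^ 2 + (K₁ s)⁻¹‖) (𝓝[≠] 0) (𝓝 ‖z₀ ^ 2 + (K₁ 0)⁻¹‖) := by
      apply Tendsto.norm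
      apply Tendsto.add tendsto_const_nhds
      exact (hK₁a.continuousAt.tendsto.mono_left nhdsWithin_le_nhds).inv₀ h0
    refine ⟨‖z₀ ^ 2 + (K₁ 0)⁻¹‖ + 1, ?_⟩
    filter_upwards [h2.eventually (gt_mem_nhds (lt_add_one _)), hmem] with s hs hs'
    rw [hK₁e s hs', inv_inv] at hs
    have : z₀ ^ 2 + (G s - z₀ ^ 2) = G s := by ring
    rw [this] at hs
    exact hs.le

end Pool.Agent.EllSch
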