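import Pool.Agent.EllSch.Basic
import Pool.Agent.EllSch.Upper

/-! # [BD1] Boundedness near a puncture -/

open Filter Topology

namespace Pool.Agent.EllSch

/-- near a puncture the values on a small ball are avoided -/
theorem avoid_aux (τ X S : ℂ → ℂ) (w₀ : ℂ)
    (hlim : ∀ (s w : ℕ → ℂ), Tendsto s atTop (𝓝[≠] 0) →
      Tendsto w atTop (𝓝 w₀) → Tendsto (fun k => wp 1 (τ (s k)) (w k)) atTop (𝓝 (S w₀)))
    (hX : (∃ ξ, Tendsto X (𝓝[≠] 0) (𝓝 ξ) ∧ S w₀ ≠ ξ) ∨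
      Tendsto X (𝓝[≠] 0) (Bornology.cobounded ℂ)) :
    ∃ r > 0, ∀ᶠ s in 𝓝[≠] (0 : ℂ), ∀ w ∈ Metric.ball w₀ r, wp 1 (τ s) w ≠ X s := by
  by_contra hcon
  push Not at hcon
  have h1 : ∀ k : ℕ, ∃ s w : ℂ, s ≠ 0 ∧ ‖s‖ < 1 / ((k : ℝ) + 1) ∧ ‖w - w₀‖ < 1 / ((k : ℝ) + 1) ∧
      wp 1 (τ s) w = X s := by
    intro k
    have hk : (0 : ℝ) < 1 / ((k : ℝ) + 1) := Nat.one_div_pos_of_nat
    have h2 := hcon _ hk
    have h3 : ∀ᶠ s in 𝓝[≠] (0 : ℂ), s ≠ 0 ∧ ‖s‖ < 1 / ((k : ℝ) + 1) := by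
      rw [eventually_nhdsWithin_iff]
      filter_upwards [Metric.ball_mem_nhds (0 : ℂ) hk] with s hs hs'
      exact ⟨hs', by simpa using hs⟩
    obtain ⟨s, ⟨w, hw, hw'⟩, hs, hs'⟩ := (h2.and_eventually h3).exists
    exact ⟨s, w, hs, hs', by simpa [dist_eq_norm] using hw, hw'⟩
  choose s w hs hs' hw hw' using h1
  have hlim0 : Tendsto (fun k : ℕ => 1 / ((k : ℝ) + 1)) atTop (𝓝 0) :=
    tendsto_one_div_add_atTop_nhds_zero_nat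
  have hts : Tendsto s atTop (𝓝[≠] 0) := by
    rw [tendsto_nhdsWithin_iff]
    refine ⟨?_, Eventually.of_forall fun k => hs k⟩
    exact squeeze_zero_norm (fun k => (hs' k).le) hlim0
  have htw : Tendsto w atTop (𝓝 w₀) := by
    rw [tendsto_iff_norm_sub_tendsto_zero]
    exact squeeze_zero (fun k => norm_nonneg _) (fun k => (hw k).le) hlim0
  have h4 := hlim s w hts htw
  have h5 : Tendsto (fun k => X (s k)) atTop (𝓝 (S w₀)) := by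
    refine h4.congr fun k => hw' k
  rcases hX with ⟨ξ, h6, h7⟩ | h6
  · exact h7 (tendsto_nhds_unique h5 (h6.comp hts))
  · have h8 := h6.comp hts
    have h9 : Tendsto (fun k => ‖X (s k)‖) atTop atTop := tendsto_norm_cobounded_atTop.comp h8
    exact not_tendsto_nhds_of_tendsto_atTop h9 _ h5.norm

/-- Let `G` be holomorphic on a punctured disc, `G = z²` with `℘(z; 1, τ(s)) = X(s)`, `X`
meromorphic. If `℘(·; 1, τ(s))` converges to a nonconstant function as `s → 0` then `G` is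
bounded. -/
theorem bounded_of_limit (τ X G S : ℂ → ℂ) (O : Set ℂ) (hO : IsOpen O)
    (hS : ∀ w ∈ O, ContinuousAt S w) (hξ : ∀ ξ : ℂ, ∃ w ∈ O, S w ≠ ξ)
    (hlim : ∀ (s w : ℕ → ℂ) (w₀ : ℂ), w₀ ∈ O → Tendsto s atTop (𝓝[≠] 0) →
      Tendsto w atTop (𝓝 w₀) → Tendsto (fun k => wp 1 (τ (s k)) (w k)) atTop (𝓝 (S w₀)))
    (hX : MeromorphicAt X 0)
    (hG : ∀ᶠ s in 𝓝[≠] (0 : ℂ), DifferentiableAt ℂ G s ∧ Ind 1 (τ s) ∧
      ∃ z, z ^ 2 = G s ∧ Off 1 (τ s) z ∧ wp 1 (τ s) z = X s) :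
    ∃ B : ℝ, ∀ᶠ s in 𝓝[≠] (0 : ℂ), ‖G s‖ ≤ B := by
  have key : ∃ w₀ ∈ O, (∃ ξ, Tendsto X (𝓝[≠] 0) (𝓝 ξ) ∧ S w₀ ≠ ξ) ∨
      Tendsto X (𝓝[≠] 0) (Bornology.cobounded ℂ) := by
    rcases lt_or_ge (meromorphicOrderAt X 0) 0 with h | h
    · obtain ⟨w₀, hw₀, -⟩ := hξ 0
      exact ⟨w₀, hw₀, Or.inr (tendsto_cobounded_of_meromorphicOrderAt_neg h)⟩
    · obtain ⟨ξ, h2⟩ := tendsto_nhds_of_meromorphicOrderAt_nonneg hX h
      obtain ⟨w₀, hw₀, h3⟩ := hξ ξ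
      exact ⟨w₀, hw₀, Or.inl ⟨ξ, h2, h3⟩⟩
  obtain ⟨w₀, hw₀, hX'⟩ := key
  obtain ⟨r, hr, hav⟩ := avoid_aux τ X S w₀ (fun s w => hlim s w w₀ hw₀) hX'
  have h1 := hG.and hav
  rw [eventually_nhdsWithin_iff, Metric.eventually_nhds_iff_ball] at h1
  obtain ⟨ρ, hρ, h2⟩ := h1
  refine bounded_of_avoid G hρ ?_ w₀ hr ?_
  · rintro s ⟨hs, hs0⟩
    exact (h2 s hs hs0).1.1.differentiableWithinAt
  · rintro s ⟨hs, hs0⟩ w hw n hGs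
    obtain ⟨⟨-, hind, z, hz, -, hz'⟩, hne⟩ := h2 s hs hs0
    apply hne w hw
    rw [← hz']
    have h3 : wp 1 (τ s) (w + n) = wp 1 (τ s) w := by
      have := wp_add_lat hind w (n, 0)
      simpa [lat] using this
    rw [← h3]
    rw [hGs] at hz
    rcases sq_eq_sq_iff_eq_or_eq_neg.1 hz with h | h
    · rw [h]
    · rw [h, wp_neg hind]

end Pool.Agent.EllSch
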