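import Mathlib

/-! # [AX] Subspaces stable under a derivation are defined over the constants -/

namespace Pool.Agent.EllSch

section
variable {C K : Type*} [Field C] [Field K] [Algebra C K] {ι : Type*} [Fintype ι]

open Classical in
theorem descent (D : Derivation C K K) (hD : ∀ x, D x = 0 → x ∈ Set.range (algebraMap C K))
    (V : Submodule K (ι → K)) (hV : ∀ v ∈ V, (fun i => D (v i)) ∈ V) (v : ι → K) (hv : v ∈ V) :
    v ∈ Submodule.span K {w : ι → K | w ∈ V ∧ ∃ e : ι → C, w = fun i => algebraMap C K (e i)} := by
  set W := Submodule.span K {w : ι → K | w ∈ V ∧ ∃ e : ι → C, w = fun i => algebraMap C K (e i)}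
    with hW
  have hWV : W ≤ V := Submodule.span_le.2 fun w hw => hw.1
  -- support
  let supp : (ι → K) → Finset ι := fun u => Finset.univ.filter fun i => u i ≠ 0
  have key : ∀ n : ℕ, ∀ v ∈ V, (supp v).card = n → v ∈ W := by
    intro n
    induction n using Nat.strong_induction_on with
    | _ n ih =>
      intro v hv hn
      by_cases hv0 : v = 0
      · rw [hv0]; exact W.zero_mem
      -- nonzero vectors with support inside the support of v, minimal
      let P : ℕ → Prop := fun m => ∃ u ∈ V, u ≠ 0 ∧ supp u ⊆ supp v ∧ (supp u).card = m
      have hP : ∃ m, P m := ⟨n, v, hv, hv0, subset_rfl, hn⟩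
      obtain ⟨u, huV, hu0, hus, hum⟩ := Nat.find_spec hP
      obtain ⟨i, hi⟩ : ∃ i, u i ≠ 0 := by
        by_contra hcon
        push Not at hcon
        exact hu0 (funext hcon)
      set w : ι → K := (u i)⁻¹ • u with hw
      have hwV : w ∈ V := V.smul_mem _ huV
      have hwi : w i = 1 := by simp [hw, hi]
      have hsw : supp w = supp u := by
        ext k
        simp [supp, hw, hi]
      have hDw : (fun k => D (w k)) = 0 := by
        by_contra hne
        have h1 : (fun k => D (w k)) ∈ V := hV w hwV
        have h2 : supp (fun k => D (w k)) ⊂ supp u := by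
          rw [Finset.ssubset_iff_of_subset]
          · refine ⟨i, by simp [supp, hi], ?_⟩
            simp [supp, hwi]
          · intro k hk
            rw [← hsw]
            simp only [supp, Finset.mem_filter, Finset.mem_univ, true_and] at hk ⊢
            intro h0
            exact hk (by rw [h0, map_zero])
        have h3 : P (supp (fun k => D (w k))).card :=
          ⟨_, h1, hne, h2.subset.trans hus, rfl⟩
        have h4 := Nat.find_min' hP h3
        have h5 := Finset.card_lt_card h2
        omega
      have hwW : w ∈ W := by
        apply Submodule.subset_span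
        refine ⟨hwV, ?_⟩
        have : ∀ k, ∃ c, algebraMap C K c = w k := fun k => hD _ (congrFun hDw k)
        choose e he using this
        exact ⟨e, funext fun k => (he k).symm⟩
      have hsub : v - v i • w ∈ W := by
        refine ih (supp (v - v i • w)).card ?_ _ (V.sub_mem hv (V.smul_mem _ hwV)) rfl
        rw [← hn]
        apply Finset.card_lt_card
        rw [Finset.ssubset_iff_of_subset]
        · have hiv : i ∈ supp v := hus (by simp [supp, hi])
          exact ⟨i, hiv, by simp [supp, hwi]⟩
        · intro k hk
          by_contra hkv
          have hkw : k ∉ supp w := fun h => hkv (hus (hsw ▸ h))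
          simp only [supp, Finset.mem_filter, Finset.mem_univ, true_and, not_not] at hk hkv hkw
          apply hk
          simp [hkv, hkw]
      have : v = (v - v i • w) + v i • w := by abel
      rw [this]
      exact W.add_mem hsub (W.smul_mem _ hwW)
  exact key _ v hv rfl

end

end Pool.Agent.EllSch
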