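import Mathlib

/-! # [AX] Proper subalgebras of `sl₂ ⋉ (C²)^r` -/

namespace Pool.Agent.EllSch

/-- coordinates of `sl₂ ⋉ (C²)^r`: the entries `m₁₁`, `m₁₂`, `m₂₁` and the two entries of each
vector -/
abbrev LIx (r : ℕ) : Type := Fin 3 ⊕ (Fin r ⊕ Fin r)

section
variable {F : Type*} [CommRing F] {r : ℕ}

/-- build an element from its parts -/
def mkL (a b c : F) (u v : Fin r → F) : LIx r → F := Sum.elim ![a, b, c] (Sum.elim u v)

/-- entry `m₁₁` -/
def lA (e : LIx r → F) : F := e (Sum.inl 0)
/-- entry `m₁₂` -/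
def lB (e : LIx r → F) : F := e (Sum.inl 1)
/-- entry `m₂₁` -/
def lC (e : LIx r → F) : F := e (Sum.inl 2)
/-- first entries of the vectors -/
def lU (e : LIx r → F) (i : Fin r) : F := e (Sum.inr (Sum.inl i))
/-- second entries of the vectors -/
def lV (e : LIx r → F) (i : Fin r) : F := e (Sum.inr (Sum.inr i))

@[simp] theorem lA_mkL (a b c : F) (u v : Fin r → F) : lA (mkL a b c u v) = a := rfl
@[simp] theorem lB_mkL (a b c : F) (u v : Fin r → F) : lB (mkL a b c u v) = b := rfl
@[simp] theorem lC_mkL (a b c : F) (u v : Fin r → F) : lC (mkL a b c u v) = c := rfl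
@[simp] theorem lU_mkL (a b c : F) (u v : Fin r → F) (i : Fin r) :
    lU (mkL a b c u v) i = u i := rfl
@[simp] theorem lV_mkL (a b c : F) (u v : Fin r → F) (i : Fin r) :
    lV (mkL a b c u v) i = v i := rfl

theorem ext_L {e e' : LIx r → F} (ha : lA e = lA e') (hb : lB e = lB e') (hc : lC e = lC e')
    (hu : ∀ i, lU e i = lU e' i) (hv : ∀ i, lV e i = lV e' i) : e = e' := by
  funext k
  rcases k with k | k | k
  · fin_cases k
    · exact ha
    · exact hb
    · exact hc
  · exact hu k
  · exact hv k

/-- the Lie bracket -/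
def brk (e e' : LIx r → F) : LIx r → F :=
  mkL (lB e * lC e' - lB e' * lC e) (2 * (lA e * lB e' - lA e' * lB e))
    (2 * (lC e * lA e' - lC e' * lA e))
    (fun i => (lA e * lU e' i + lB e * lV e' i) - (lA e' * lU e i + lB e' * lV e i))
    (fun i => (lC e * lU e' i - lA e * lV e' i) - (lC e' * lU e i - lA e' * lV e i))

section lin
variable (e e' : LIx r → F) (k : F)
@[simp] theorem lA_add : lA (e + e') = lA e + lA e' := rfl
@[simp] theorem lB_add : lB (e + e') = lB e + lB e' := rfl
@[simp] theorem lC_add : lC (e + e') = lC e + lC e' := rfl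
@[simp] theorem lU_add (i) : lU (e + e') i = lU e i + lU e' i := rfl
@[simp] theorem lV_add (i) : lV (e + e') i = lV e i + lV e' i := rfl
@[simp] theorem lA_sub : lA (e - e') = lA e - lA e' := rfl
@[simp] theorem lB_sub : lB (e - e') = lB e - lB e' := rfl
@[simp] theorem lC_sub : lC (e - e') = lC e - lC e' := rfl
@[simp] theorem lU_sub (i) : lU (e - e') i = lU e i - lU e' i := rfl
@[simp] theorem lV_sub (i) : lV (e - e') i = lV e i - lV e' i := rfl
@[simp] theorem lA_smul : lA (k • e) = k * lA e := rfl
@[simp] theorem lB_smul : lB (k • e) = k * lB e := rfl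
@[simp] theorem lC_smul : lC (k • e) = k * lC e := rfl
@[simp] theorem lU_smul (i) : lU (k • e) i = k * lU e i := rfl
@[simp] theorem lV_smul (i) : lV (k • e) i = k * lV e i := rfl
@[simp] theorem lA_zero : lA (0 : LIx r → F) = 0 := rfl
@[simp] theorem lB_zero : lB (0 : LIx r → F) = 0 := rfl
@[simp] theorem lC_zero : lC (0 : LIx r → F) = 0 := rfl
@[simp] theorem lU_zero (i) : lU (0 : LIx r → F) i = 0 := rfl
@[simp] theorem lV_zero (i) : lV (0 : LIx r → F) i = 0 := rfl
end lin

end

section
variable {C : Type*} [Field C] [IsAlgClosed C] [CharZero C] {r : ℕ}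

/-- a single traceless matrix has an eigenvector -/
theorem exists_eigenvector (a b c : C) :
    ∃ u1 u2 : C, ¬ (u1 = 0 ∧ u2 = 0) ∧ c * u1 ^ 2 - 2 * a * u1 * u2 - b * u2 ^ 2 = 0 := by
  by_cases hb : b = 0
  · exact ⟨0, 1, by simp, by simp [hb]⟩
  · obtain ⟨s, hs⟩ := IsAlgClosed.exists_pow_nat_eq (a ^ 2 + b * c) (n := 2) (by norm_num)
    refine ⟨1, (-a + s) / b, by simp, ?_⟩
    field_simp
    linear_combination -hs

/-- a subalgebra whose projection to `sl₂` is proper has a common eigenvector -/
theorem exists_common_eigenvector (H : Submodule C (LIx r → C))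
    (hH : ∀ e ∈ H, ∀ e' ∈ H, brk e e' ∈ H) (f0 f1 f2 : C)
    (hf : ¬ (f0 = 0 ∧ f1 = 0 ∧ f2 = 0))
    (hfH : ∀ e ∈ H, f0 * lA e + f1 * lB e + f2 * lC e = 0) :
    ∃ u1 u2 : C, ¬ (u1 = 0 ∧ u2 = 0) ∧
      ∀ e ∈ H, lC e * u1 ^ 2 - 2 * lA e * u1 * u2 - lB e * u2 ^ 2 = 0 := by
  by_cases hq : f0 ^ 2 / 4 + f1 * f2 = 0
  · by_cases h2 : f2 = 0
    · have h0 : f0 = 0 := by
        rw [h2, mul_zero, add_zero] at hq
        simpa using hq
      have h1 : f1 ≠ 0 := fun h => hf ⟨h0, h, h2⟩
      refine ⟨0, 1, by simp, fun e he => ?_⟩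
      have := hfH e he
      rw [h0, h2] at this
      simp only [zero_mul, zero_add, add_zero, mul_eq_zero, h1, false_or] at this
      simp [this]
    · refine ⟨f2, -(f0 / 2), by simp [h2], fun e he => ?_⟩
      have := hfH e he
      linear_combination f2 * this - lB e * hq
  · -- any two elements are proportional
    have hcross : ∀ e ∈ H, ∀ e' ∈ H,
        lB e * lC e' - lB e' * lC e = 0 ∧ lC e * lA e' - lC e' * lA e = 0 ∧
          lA e * lB e' - lA e' * lB e = 0 := by
      intro e he e' he'
      have h1 := hfH e he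
      have h2 := hfH e' he'
      have h3 := hfH _ (hH e he e' he')
      simp only [brk, lA_mkL, lB_mkL, lC_mkL] at h3
      set n1 := lB e * lC e' - lB e' * lC e with hn1
      set n2 := lC e * lA e' - lC e' * lA e with hn2
      set n3 := lA e * lB e' - lA e' * lB e with hn3
      -- `f × n = 0` and `(f0 / 2, f2, f1) · n = 0`
      have c1 : f1 * n3 - f2 * n2 = 0 := by
        rw [hn2, hn3]; linear_combination lA e * h2 - lA e' * h1
      have c2 : f2 * n1 - f0 * n3 = 0 := by
        rw [hn1, hn3]; linear_combination lB e * h2 - lB e' * h1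
      have c3 : f0 * n2 - f1 * n1 = 0 := by
        rw [hn1, hn2]; linear_combination lC e * h2 - lC e' * h1
      have h3' : f0 / 2 * n1 + f1 * n3 + f2 * n2 = 0 := by linear_combination h3 / 2
      have hq' : 2 * (f0 ^ 2 / 4 + f1 * f2) ≠ 0 := by
        simpa using hq
      refine ⟨?_, ?_, ?_⟩
      · apply (mul_eq_zero.1 (?_ : 2 * (f0 ^ 2 / 4 + f1 * f2) * n1 = 0)).resolve_left hq'
        linear_combination f0 * h3' + f1 * c2 - f2 * c3
      · apply (mul_eq_zero.1 (?_ : 2 * (f0 ^ 2 / 4 + f1 * f2) * n2 = 0)).resolve_left hq'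
        linear_combination f1 * h3' + f0 / 2 * c3 - f1 * c1
      · apply (mul_eq_zero.1 (?_ : 2 * (f0 ^ 2 / 4 + f1 * f2) * n3 = 0)).resolve_left hq'
        linear_combination f2 * h3' - f0 / 2 * c2 + f2 * c1
    by_cases hz : ∀ e ∈ H, lA e = 0 ∧ lB e = 0 ∧ lC e = 0
    · refine ⟨1, 0, by simp, fun e he => ?_⟩
      obtain ⟨h1, h2, h3⟩ := hz e he
      simp [h1, h2, h3]
    · push Not at hz
      obtain ⟨e0, he0, hne⟩ := hz
      obtain ⟨u1, u2, hu, hu'⟩ := exists_eigenvector (lA e0) (lB e0) (lC e0)
      refine ⟨u1, u2, hu, fun e he => ?_⟩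
      obtain ⟨k1, k2, k3⟩ := hcross e0 he0 e he
      by_cases ha : lA e0 = 0
      · by_cases hb : lB e0 = 0
        · have hc : lC e0 ≠ 0 := hne ha hb
          apply (mul_eq_zero.1 (?_ : lC e0 * (lC e * u1 ^ 2 - 2 * lA e * u1 * u2
            - lB e * u2 ^ 2) = 0)).resolve_left hc
          linear_combination lC e * hu' - 2 * u1 * u2 * k2 + u2 ^ 2 * k1
        · apply (mul_eq_zero.1 (?_ : lB e0 * (lC e * u1 ^ 2 - 2 * lA e * u1 * u2
            - lB e * u2 ^ 2) = 0)).resolve_left hb
          linear_combination lB e * hu' + u1 ^ 2 * k1 + 2 * u1 * u2 * k3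
      · apply (mul_eq_zero.1 (?_ : lA e0 * (lC e * u1 ^ 2 - 2 * lA e * u1 * u2
            - lB e * u2 ^ 2) = 0)).resolve_left ha
        linear_combination lA e * hu' - u1 ^ 2 * k2 - u2 ^ 2 * k3

/-- proper subalgebras of `sl₂ ⋉ (C²)^r` -/
theorem proper_subalgebra (H : Submodule C (LIx r → C))
    (hH : ∀ e ∈ H, ∀ e' ∈ H, brk e e' ∈ H) (hne : H ≠ ⊤) :
    (∃ u1 u2 : C, ¬ (u1 = 0 ∧ u2 = 0) ∧
      ∀ e ∈ H, lC e * u1 ^ 2 - 2 * lA e * u1 * u2 - lB e * u2 ^ 2 = 0) ∨
    (∃ c : Fin r → C, c ≠ 0 ∧ ∃ w1 w2 : C, ∀ e ∈ H,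
      ∑ i, c i * lU e i = lA e * w1 + lB e * w2 ∧ ∑ i, c i * lV e i = lC e * w1 - lA e * w2) := by
  classical
  -- projection to `sl₂`
  let π : (LIx r → C) →ₗ[C] (Fin 3 → C) :=
    { toFun := fun e => fun k => e (Sum.inl k)
      map_add' := fun _ _ => rfl
      map_smul' := fun _ _ => rfl }
  by_cases hS : H.map π = ⊤
  · right
    have hsurj : ∀ a b c : C, ∃ e ∈ H, lA e = a ∧ lB e = b ∧ lC e = c := by
      intro a b c
      have : (![a, b, c] : Fin 3 → C) ∈ H.map π := by rw [hS]; trivial
      obtain ⟨e, he, hee⟩ := this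
      exact ⟨e, he, congrFun hee 0, congrFun hee 1, congrFun hee 2⟩
    -- the subspace `W`
    let W : Submodule C (Fin r → C) :=
      { carrier := {a | mkL 0 0 0 a 0 ∈ H}
        zero_mem' := by
          have : (mkL 0 0 0 0 0 : LIx r → C) = 0 :=
            ext_L rfl rfl rfl (fun _ => rfl) (fun _ => rfl)
          change mkL 0 0 0 0 0 ∈ H
          rw [this]
          exact H.zero_mem
        add_mem' := by
          intro a b ha hb
          have : (mkL 0 0 0 (a + b) 0 : LIx r → C) = mkL 0 0 0 a 0 + mkL 0 0 0 b 0 :=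
            ext_L (by simp) (by simp) (by simp) (fun _ => by simp) (fun _ => by simp)
          change mkL 0 0 0 (a + b) 0 ∈ H
          rw [this]
          exact H.add_mem ha hb
        smul_mem' := by
          intro k a ha
          have : (mkL 0 0 0 (k • a) 0 : LIx r → C) = k • mkL 0 0 0 a 0 :=
            ext_L (by simp) (by simp) (by simp) (fun _ => by simp) (fun _ => by simp)
          change mkL 0 0 0 (k • a) 0 ∈ H
          rw [this]
          exact H.smul_mem k ha }
    obtain ⟨eX, heX, hXa, hXb, hXc⟩ := hsurj 0 1 0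
    obtain ⟨eY, heY, hYa, hYb, hYc⟩ := hsurj 0 0 1
    obtain ⟨eH, heH, hHa, hHb, hHc⟩ := hsurj 1 0 0
    -- pure translations in `H` have both components in `W`
    have hN : ∀ e ∈ H, lA e = 0 → lB e = 0 → lC e = 0 → (lU e ∈ W ∧ lV e ∈ W) := by
      intro e he ha hb hc
      have h1 : brk eX e = mkL 0 0 0 (lV e) 0 :=
        ext_L (by simp [brk, hb, hc]) (by simp [brk, ha, hb, hXa]) (by simp [brk, hc, hXc])
          (fun i => by simp [brk, hXa, hXb, ha, hb]) (fun i => by simp [brk, hXa, hXc, ha, hc])
      have h2 : brk eY e = mkL 0 0 0 0 (lU e) :=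
        ext_L (by simp [brk, hb, hc, hYb]) (by simp [brk, ha, hb, hYa])
          (by simp [brk, ha, hc])
          (fun i => by simp [brk, hYa, hYb, ha, hb]) (fun i => by simp [brk, hYa, hYc, ha, hc])
      have h3 : mkL 0 0 0 (lV e) 0 ∈ H := h1 ▸ hH _ heX _ he
      have h4 : mkL 0 0 0 0 (lU e) ∈ H := h2 ▸ hH _ heY _ he
      have h5 : brk eX (mkL 0 0 0 0 (lU e)) = mkL 0 0 0 (lU e) 0 :=
        ext_L (by simp [brk]) (by simp [brk]) (by simp [brk])
          (fun i => by simp [brk, hXa, hXb]) (fun i => by simp [brk, hXa, hXc])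
      have h6 : mkL 0 0 0 (lU e) 0 ∈ H := h5 ▸ hH _ heX _ h4
      exact ⟨h6, h3⟩
    by_cases hW : W = ⊤
    · exfalso
      apply hne
      rw [eq_top_iff]
      rintro e -
      obtain ⟨e', he', h1, h2, h3⟩ := hsurj (lA e) (lB e) (lC e)
      have hA : mkL 0 0 0 (lU (e - e')) 0 ∈ H := by
        have : lU (e - e') ∈ W := by rw [hW]; trivial
        exact this
      have hB : mkL 0 0 0 0 (lV (e - e')) ∈ H := by
        have h4 : lV (e - e') ∈ W := by rw [hW]; trivial
        have h5 : brk eY (mkL 0 0 0 (lV (e - e')) 0) = mkL 0 0 0 0 (lV (e - e')) :=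
          ext_L (by simp [brk]) (by simp [brk]) (by simp [brk])
            (fun i => by simp [brk, hYa, hYb]) (fun i => by simp [brk, hYa, hYc])
        exact h5 ▸ hH _ heY _ h4
      have : e = e' + (mkL 0 0 0 (lU (e - e')) 0 + mkL 0 0 0 0 (lV (e - e'))) :=
        ext_L (by simp [h1]) (by simp [h2]) (by simp [h3]) (fun i => by simp) (fun i => by simp)
      rw [this]
      exact H.add_mem he' (H.add_mem hA hB)
    · -- a functional vanishing on `W`
      obtain ⟨f, hf, hfW⟩ := Submodule.exists_le_ker_of_lt_top W (lt_top_iff_ne_top.2 hW)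
      have hfc : ∀ a : Fin r → C, f a = ∑ i, f (Pi.single i 1) * a i := by
        intro a
        conv_lhs => rw [LinearMap.pi_apply_eq_sum_univ f a]
        refine Finset.sum_congr rfl fun i _ => ?_
        rw [smul_eq_mul, mul_comm]
        congr 2
        funext j
        simp [Pi.single_apply, eq_comm]
      refine ⟨fun i => f (Pi.single i 1), ?_, ?_⟩
      · intro h0
        apply hf
        ext1 i
        exact LinearMap.ext fun x => by
          simp only [LinearMap.comp_apply, LinearMap.zero_apply, LinearMap.single_apply]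
          rw [hfc]
          have := congrFun h0 i
          simp only [Pi.zero_apply] at this
          rw [Finset.sum_eq_single i]
          · simp [this]
          · intro j _ hj
            simp [hj]
          · simp
      · -- pairing with `f`
        set gU : (LIx r → C) → C := fun e => f (lU e) with hgU
        set gV : (LIx r → C) → C := fun e => f (lV e) with hgV
        have hvan : ∀ e ∈ H, lA e = 0 → lB e = 0 → lC e = 0 → gU e = 0 ∧ gV e = 0 := by
          intro e he ha hb hc
          obtain ⟨h1, h2⟩ := hN e he ha hb hc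
          exact ⟨hfW h1, hfW h2⟩
        have addU : ∀ e e', gU (e + e') = gU e + gU e' := fun e e' => f.map_add _ _
        have addV : ∀ e e', gV (e + e') = gV e + gV e' := fun e e' => f.map_add _ _
        have subU : ∀ e e', gU (e - e') = gU e - gU e' := fun e e' => f.map_sub _ _
        have subV : ∀ e e', gV (e - e') = gV e - gV e' := fun e e' => f.map_sub _ _
        have smulU : ∀ k e, gU (k • e) = k * gU e := fun k e => f.map_smul k _
        have smulV : ∀ k e, gV (k • e) = k * gV e := fun k e => f.map_smul k _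
        have brkU : ∀ e e', gU (brk e e') =
            (lA e * gU e' + lB e * gV e') - (lA e' * gU e + lB e' * gV e) := by
          intro e e'
          have : lU (brk e e') = (lA e • lU e' + lB e • lV e') - (lA e' • lU e + lB e' • lV e) := by
            funext i; simp [brk]
          simp only [hgU, hgV, this, map_sub, map_add, map_smul, smul_eq_mul]
        have brkV : ∀ e e', gV (brk e e') =
            (lC e * gU e' - lA e * gV e') - (lC e' * gU e - lA e' * gV e) := by
          intro e e'
          have : lV (brk e e') = (lC e • lU e' - lA e • lV e') - (lC e' • lU e - lA e' • lV e) := by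
            funext i; simp [brk]
          simp only [hgU, hgV, this, map_sub, map_smul, smul_eq_mul]
        -- normalise at `H`
        refine ⟨gU eH, -gV eH, ?_⟩
        have hX0 : gU eX = -gV eH ∧ gV eX = 0 := by
          -- `[H, X] = 2 X` modulo translations
          have h1 : brk eH eX - (2 : C) • eX ∈ H :=
            H.sub_mem (hH _ heH _ heX) (H.smul_mem _ heX)
          obtain ⟨h2, h3⟩ := hvan _ h1 (by simp [brk, hHa, hHb, hHc, hXa, hXb, hXc])
            (by simp [brk, hHa, hHb, hHc, hXa, hXb, hXc])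
            (by simp [brk, hHa, hHb, hHc, hXa, hXb, hXc])
          rw [subU, smulU, brkU, hHa, hHb, hXa, hXb] at h2
          rw [subV, smulV, brkV, hHa, hHc, hXa, hXc] at h3
          constructor
          · linear_combination -h2
          · have : (3 : C) ≠ 0 := by norm_num
            apply (mul_eq_zero.1 (?_ : (3 : C) * gV eX = 0)).resolve_left this
            linear_combination -h3
        have hY0 : gV eY = gU eH ∧ gU eY = 0 := by
          have h1 : brk eH eY + (2 : C) • eY ∈ H :=
            H.add_mem (hH _ heH _ heY) (H.smul_mem _ heY)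
          obtain ⟨h2, h3⟩ := hvan _ h1 (by simp [brk, hHa, hHb, hHc, hYa, hYb, hYc])
            (by simp [brk, hHa, hHb, hHc, hYa, hYb, hYc])
            (by simp [brk, hHa, hHb, hHc, hYa, hYb, hYc])
          rw [addU, smulU, brkU, hHa, hHb, hYa, hYb] at h2
          rw [addV, smulV, brkV, hHa, hHc, hYa, hYc] at h3
          constructor
          · linear_combination h3
          · have : (3 : C) ≠ 0 := by norm_num
            apply (mul_eq_zero.1 (?_ : (3 : C) * gU eY = 0)).resolve_left this
            linear_combination h2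
        intro e he
        have h1 : e - (lA e • eH + lB e • eX + lC e • eY) ∈ H :=
          H.sub_mem he (H.add_mem (H.add_mem (H.smul_mem _ heH) (H.smul_mem _ heX))
            (H.smul_mem _ heY))
        obtain ⟨h2, h3⟩ := hvan _ h1 (by simp [hHa, hXa, hYa]) (by simp [hHb, hXb, hYb])
          (by simp [hHc, hXc, hYc])
        rw [subU, addU, addU, smulU, smulU, smulU, hX0.1, hY0.2] at h2
        rw [subV, addV, addV, smulV, smulV, smulV, hX0.2, hY0.1] at h3
        constructor
        · have := hfc (lU e)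
          change gU e = _ at this
          rw [← this]
          linear_combination h2
        · have := hfc (lV e)
          change gV e = _ at this
          rw [← this]
          linear_combination h3
  · left
    obtain ⟨f, hf, hfS⟩ := Submodule.exists_le_ker_of_lt_top _ (lt_top_iff_ne_top.2 hS)
    have hfc : ∀ a : Fin 3 → C, f a = f (Pi.single 0 1) * a 0 + f (Pi.single 1 1) * a 1
        + f (Pi.single 2 1) * a 2 := by
      intro a
      have : a = a 0 • (Pi.single 0 1 : Fin 3 → C) + a 1 • (Pi.single 1 1 : Fin 3 → C)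
          + a 2 • (Pi.single 2 1 : Fin 3 → C) := by
        funext j
        fin_cases j <;> simp
      conv_lhs => rw [this]
      simp only [map_add, map_smul, smul_eq_mul]
      ring
    refine exists_common_eigenvector H hH (f (Pi.single 0 1)) (f (Pi.single 1 1))
      (f (Pi.single 2 1)) ?_ ?_
    · rintro ⟨h0, h1, h2⟩
      apply hf
      refine LinearMap.ext fun a => ?_
      rw [hfc, h0, h1, h2]
      simp
    · intro e he
      have h1 : π e ∈ H.map π := Submodule.mem_map_of_mem he
      have h2 : f (π e) = 0 := hfS h1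
      rw [hfc] at h2
      exact h2

end

end Pool.Agent.EllSch
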