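import Pool.Agent.EllSch.AxFlat
import Pool.Agent.EllSch.AxDescent
import Pool.Agent.EllSch.AxLie

/-! # [AX] The algebraic Ax theorem for families of elliptic curves -/

namespace Pool.Agent.EllSch

section

variable {C K : Type*} [Field C] [Field K] [Algebra C K]

theorem der_const (δ : Derivation C K K) {x : K} (hx : x ∈ Set.range (algebraMap C K)) :
    δ x = 0 := by
  obtain ⟨c, rfl⟩ := hx
  exact δ.map_algebraMap c

section nabLin
variable [CharZero K] (g2 g3 : K)

theorem nab_add_der (δ δ' : Derivation C K K) (u : K × K) :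
    nab g2 g3 (δ + δ') u = nab g2 g3 δ u + nab g2 g3 δ' u := by
  ext
  · simp only [nab, al_add, be_add, Derivation.add_apply, Prod.fst_add]; ring
  · simp only [nab, al_add, be_add, Derivation.add_apply, Prod.snd_add]; ring

theorem nab_smul_der (k : K) (δ : Derivation C K K) (u : K × K) :
    nab g2 g3 (k • δ) u = k • nab g2 g3 δ u := by
  ext
  · simp only [nab, al_smul, be_smul, Derivation.smul_apply, Prod.smul_fst, smul_eq_mul]; ring
  · simp only [nab, al_smul, be_smul, Derivation.smul_apply, Prod.smul_snd, smul_eq_mul]; ring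

theorem src_add_der (x y : K) (δ δ' : Derivation C K K) :
    src g2 g3 x y (δ + δ') = src g2 g3 x y δ + src g2 g3 x y δ' := by
  ext
  · simp only [src, ga_add, Prod.fst_add]
  · simp only [src, ga_add, be_add, Prod.snd_add]; ring

theorem src_smul_der (x y : K) (k : K) (δ : Derivation C K K) :
    src g2 g3 x y (k • δ) = k • src g2 g3 x y δ := by
  ext
  · simp only [src, ga_smul, Prod.smul_fst, smul_eq_mul]
  · simp only [src, ga_smul, be_smul, Prod.smul_snd, smul_eq_mul]; ring

end nabLin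

/-- The data of a family of elliptic curves with points, along a derivation `D`: periods `w1`,
`w2`, quasi-periods `e1`, `e2`, logarithms `p` and zeta values `z` of the points `(x, y)`. -/
structure AxData (C K : Type*) [Field C] [Field K] [Algebra C K] (r : ℕ) where
  D : Derivation C K K
  g2 : K
  g3 : K
  w1 : K
  w2 : K
  e1 : K
  e2 : K
  x : Fin r → K
  y : Fin r → K
  p : Fin r → K
  z : Fin r → K
  hconst : ∀ x, D x = 0 → x ∈ Set.range (algebraMap C K)
  hΔ : g2 ^ 3 - 27 * g3 ^ 2 ≠ 0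
  hdet : w1 * e2 - w2 * e1 ≠ 0
  hβ : be g2 g3 D ≠ 0
  h1 : nab g2 g3 D (w1, e1) = 0
  h2 : nab g2 g3 D (w2, e2) = 0
  hy : ∀ i, y i ≠ 0
  hxy : ∀ i, y i ^ 2 = 4 * x i ^ 3 - g2 * x i - g3
  hp : ∀ i, nab g2 g3 D (p i, z i) = src g2 g3 (x i) (y i) D

namespace AxData

variable {r : ℕ} [CharZero K] (A : AxData C K r)

/-- multiplication by the fundamental matrix -/
def Wv (A : AxData C K r) (X : K × K) : K × K :=
  (A.w1 * X.1 + A.w2 * X.2, A.e1 * X.1 + A.e2 * X.2)

/-- multiplication by the inverse of the fundamental matrix -/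
def Wi (A : AxData C K r) (q : K × K) : K × K :=
  ((A.e2 * q.1 - A.w2 * q.2) / (A.w1 * A.e2 - A.w2 * A.e1),
    (-A.e1 * q.1 + A.w1 * q.2) / (A.w1 * A.e2 - A.w2 * A.e1))

omit [CharZero K] in
theorem Wv_Wi (q : K × K) : A.Wv (A.Wi q) = q := by
  have h := A.hdet
  ext
  · simp only [Wv, Wi]
    rw [← mul_div_assoc, ← mul_div_assoc, ← add_div, div_eq_iff h]
    ring
  · simp only [Wv, Wi]
    rw [← mul_div_assoc, ← mul_div_assoc, ← add_div, div_eq_iff h]
    ring

omit [CharZero K] in
theorem Wi_Wv (X : K × K) : A.Wi (A.Wv X) = X := by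
  have h := A.hdet
  ext
  · simp only [Wv, Wi]
    rw [div_eq_iff h]
    ring
  · simp only [Wv, Wi]
    rw [div_eq_iff h]
    ring

/-- the three curvature defects -/
def R1 (A : AxData C K r) (δ : Derivation C K K) : K × K := nab A.g2 A.g3 δ (A.w1, A.e1)
def R2 (A : AxData C K r) (δ : Derivation C K K) : K × K := nab A.g2 A.g3 δ (A.w2, A.e2)
def Q (A : AxData C K r) (i : Fin r) (δ : Derivation C K K) : K × K :=
  nab A.g2 A.g3 δ (A.p i, A.z i) - src A.g2 A.g3 (A.x i) (A.y i) δ

/-- the logarithmic differential -/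
def Th (A : AxData C K r) (δ : Derivation C K K) : LIx r → K :=
  mkL (A.Wi (A.R1 δ)).1 (A.Wi (A.R2 δ)).1 (A.Wi (A.R1 δ)).2 (fun i => (A.Wi (A.Q i δ)).1)
    (fun i => (A.Wi (A.Q i δ)).2)

omit [CharZero K] in
theorem Wi_add (q q' : K × K) : A.Wi (q + q') = A.Wi q + A.Wi q' := by
  ext
  · simp only [Wi, Prod.fst_add, Prod.snd_add]; ring
  · simp only [Wi, Prod.fst_add, Prod.snd_add]; ring

omit [CharZero K] in
theorem Wi_sub (q q' : K × K) : A.Wi (q - q') = A.Wi q - A.Wi q' := by
  ext
  · simp only [Wi, Prod.fst_sub, Prod.snd_sub]; ring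
  · simp only [Wi, Prod.fst_sub, Prod.snd_sub]; ring

omit [CharZero K] in
theorem Wi_smul (k : K) (q : K × K) : A.Wi (k • q) = k • A.Wi q := by
  ext
  · simp only [Wi, Prod.smul_fst, Prod.smul_snd, smul_eq_mul]; ring
  · simp only [Wi, Prod.smul_fst, Prod.smul_snd, smul_eq_mul]; ring

theorem R1_add (δ δ' : Derivation C K K) : A.R1 (δ + δ') = A.R1 δ + A.R1 δ' := nab_add_der _ _ _ _ _
theorem R2_add (δ δ' : Derivation C K K) : A.R2 (δ + δ') = A.R2 δ + A.R2 δ' := nab_add_der _ _ _ _ _
theorem Q_add (i : Fin r) (δ δ' : Derivation C K K) : A.Q i (δ + δ') = A.Q i δ + A.Q i δ' := by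
  simp only [Q, nab_add_der, src_add_der]; abel
theorem R1_smul (k : K) (δ : Derivation C K K) : A.R1 (k • δ) = k • A.R1 δ := nab_smul_der _ _ _ _ _
theorem R2_smul (k : K) (δ : Derivation C K K) : A.R2 (k • δ) = k • A.R2 δ := nab_smul_der _ _ _ _ _
theorem Q_smul (i : Fin r) (k : K) (δ : Derivation C K K) : A.Q i (k • δ) = k • A.Q i δ := by
  simp only [Q, nab_smul_der, src_smul_der, smul_sub]

/-- the logarithmic differential as a linear map -/
def ThL (A : AxData C K r) : Derivation C K K →ₗ[K] (LIx r → K) where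
  toFun := A.Th
  map_add' := by
    intro δ δ'
    apply ext_L <;> intros <;>
      simp only [Th, lA_mkL, lB_mkL, lC_mkL, lU_mkL, lV_mkL, lA_add, lB_add, lC_add, lU_add, lV_add,
        R1_add, R2_add, Q_add, Wi_add, Prod.fst_add, Prod.snd_add]
  map_smul' := by
    intro k δ
    apply ext_L <;> intros <;>
      simp only [Th, lA_mkL, lB_mkL, lC_mkL, lU_mkL, lV_mkL, lA_smul, lB_smul, lC_smul, lU_smul,
        lV_smul, R1_smul, R2_smul, Q_smul, Wi_smul, Prod.smul_fst, Prod.smul_snd, smul_eq_mul,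
        RingHom.id_apply]

theorem Th_D : A.Th A.D = 0 := by
  have e1 : A.R1 A.D = 0 := A.h1
  have e2 : A.R2 A.D = 0 := A.h2
  have e3 : ∀ i, A.Q i A.D = 0 := fun i => by simp [Q, A.hp i]
  have e4 : A.Wi 0 = 0 := by ext <;> simp [Wi]
  apply ext_L <;> intros <;>
    simp only [Th, lA_mkL, lB_mkL, lC_mkL, lU_mkL, lV_mkL, lA_zero, lB_zero, lC_zero, lU_zero,
      lV_zero, e1, e2, e3, e4, Prod.fst_zero, Prod.snd_zero]

theorem der_det_aux (δ : Derivation C K K) :
    A.e2 * (A.R1 δ).1 - A.w2 * (A.R1 δ).2 + (-A.e1 * (A.R2 δ).1 + A.w1 * (A.R2 δ).2) =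
      δ (A.w1 * A.e2 - A.w2 * A.e1) := by
  simp only [R1, R2, nab, map_sub, Derivation.leibniz, smul_eq_mul]
  ring

theorem det_const : A.w1 * A.e2 - A.w2 * A.e1 ∈ Set.range (algebraMap C K) := by
  apply A.hconst
  rw [← A.der_det_aux]
  have e1 : A.R1 A.D = 0 := A.h1
  have e2 : A.R2 A.D = 0 := A.h2
  simp [e1, e2]

theorem trace_zero (δ : Derivation C K K) : (A.Wi (A.R2 δ)).2 = -(A.Wi (A.R1 δ)).1 := by
  have h := A.der_det_aux δ
  rw [der_const δ A.det_const] at h
  simp only [Wi]
  rw [← neg_div]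
  congr 1
  linear_combination h

theorem nab_Wv (δ : Derivation C K K) (X : K × K) :
    nab A.g2 A.g3 δ (A.Wv X) = A.Wv (lA (A.Th δ) * X.1 + lB (A.Th δ) * X.2 + δ X.1,
      lC (A.Th δ) * X.1 - lA (A.Th δ) * X.2 + δ X.2) := by
  have r1 := A.Wv_Wi (A.R1 δ)
  have r2 := A.Wv_Wi (A.R2 δ)
  have t := A.trace_zero δ
  have e : nab A.g2 A.g3 δ (A.Wv X) = (X.1 • A.R1 δ + X.2 • A.R2 δ) + A.Wv (δ X.1, δ X.2) := by
    ext
    · simp only [nab, Wv, R1, R2, map_add, Derivation.leibniz, smul_eq_mul, Prod.fst_add,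
        Prod.smul_fst]
      ring
    · simp only [nab, Wv, R1, R2, map_add, Derivation.leibniz, smul_eq_mul, Prod.snd_add,
        Prod.smul_snd]
      ring
  rw [e]
  conv_lhs => rw [← r1, ← r2]
  ext
  · simp only [Wv, Th, lA_mkL, lB_mkL, lC_mkL, Prod.fst_add, Prod.smul_fst, smul_eq_mul, t]
    ring
  · simp only [Wv, Th, lA_mkL, lB_mkL, lC_mkL, Prod.snd_add, Prod.smul_snd, smul_eq_mul, t]
    ring

/-- structure equation -/
theorem Th_comm (δ δ' : Derivation C K K) :
    A.Th ⁅δ, δ'⁆ = (fun k => δ (A.Th δ' k)) - (fun k => δ' (A.Th δ k)) +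
      brk (A.Th δ) (A.Th δ') := by
  -- general principle
  have gen : ∀ (q q' qc : K × K), qc = nab A.g2 A.g3 δ q' - nab A.g2 A.g3 δ' q →
      A.Wi qc = (lA (A.Th δ) * (A.Wi q').1 + lB (A.Th δ) * (A.Wi q').2 + δ (A.Wi q').1
          - (lA (A.Th δ') * (A.Wi q).1 + lB (A.Th δ') * (A.Wi q).2 + δ' (A.Wi q).1),
        lC (A.Th δ) * (A.Wi q').1 - lA (A.Th δ) * (A.Wi q').2 + δ (A.Wi q').2
          - (lC (A.Th δ') * (A.Wi q).1 - lA (A.Th δ') * (A.Wi q).2 + δ' (A.Wi q).2)) := by
    intro q q' qc h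
    rw [h]
    conv_lhs => rw [← A.Wv_Wi q, ← A.Wv_Wi q']
    rw [nab_Wv, nab_Wv, Wi_sub, Wi_Wv, Wi_Wv]
    rfl
  have g1 := gen (A.R1 δ) (A.R1 δ') (A.R1 ⁅δ, δ'⁆) (nab_comm A.hΔ δ δ' _)
  have g2 := gen (A.R2 δ) (A.R2 δ') (A.R2 ⁅δ, δ'⁆) (nab_comm A.hΔ δ δ' _)
  have g3 : ∀ i, A.Q i ⁅δ, δ'⁆ = nab A.g2 A.g3 δ (A.Q i δ') - nab A.g2 A.g3 δ' (A.Q i δ) := by
    intro i
    have hs : ∀ (δ : Derivation C K K) (u v : K × K), nab A.g2 A.g3 δ (u - v) =
        nab A.g2 A.g3 δ u - nab A.g2 A.g3 δ v := by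
      intro δ u v
      ext
      · simp only [nab, Prod.fst_sub, Prod.snd_sub, map_sub]; ring
      · simp only [nab, Prod.fst_sub, Prod.snd_sub, map_sub]; ring
    simp only [Q, hs, nab_comm A.hΔ δ δ', src_comm A.hΔ (A.hy i) (A.hxy i) δ δ']
    abel
  have g4 := fun i => gen (A.Q i δ) (A.Q i δ') (A.Q i ⁅δ, δ'⁆) (g3 i)
  have t := A.trace_zero δ
  have t' := A.trace_zero δ'
  have a1 : lA (A.Th δ) = (A.Wi (A.R1 δ)).1 := rfl
  have a2 : lA (A.Th δ') = (A.Wi (A.R1 δ')).1 := rfl
  have b1 : lB (A.Th δ) = (A.Wi (A.R2 δ)).1 := rfl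
  have b2 : lB (A.Th δ') = (A.Wi (A.R2 δ')).1 := rfl
  have c1 : lC (A.Th δ) = (A.Wi (A.R1 δ)).2 := rfl
  have c2 : lC (A.Th δ') = (A.Wi (A.R1 δ')).2 := rfl
  have u1 : ∀ i, lU (A.Th δ) i = (A.Wi (A.Q i δ)).1 := fun i => rfl
  have u2 : ∀ i, lU (A.Th δ') i = (A.Wi (A.Q i δ')).1 := fun i => rfl
  have v1 : ∀ i, lV (A.Th δ) i = (A.Wi (A.Q i δ)).2 := fun i => rfl
  have v2 : ∀ i, lV (A.Th δ') i = (A.Wi (A.Q i δ')).2 := fun i => rfl
  apply ext_L
  · have h := congrArg Prod.fst g1
    change (A.Wi (A.R1 ⁅δ, δ'⁆)).1 = _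
    rw [h]
    simp only [lA_add, lA_sub, brk, lA_mkL]
    change _ = δ (A.Wi (A.R1 δ')).1 - δ' (A.Wi (A.R1 δ)).1 + _
    rw [a1, a2, b1, b2, c1, c2]
    ring
  · have h := congrArg Prod.fst g2
    change (A.Wi (A.R2 ⁅δ, δ'⁆)).1 = _
    rw [h]
    simp only [lB_add, lB_sub, brk, lB_mkL]
    change _ = δ (A.Wi (A.R2 δ')).1 - δ' (A.Wi (A.R2 δ)).1 + _
    rw [t, t', a1, a2, b1, b2]
    ring
  · have h := congrArg Prod.snd g1
    change (A.Wi (A.R1 ⁅δ, δ'⁆)).2 = _
    rw [h]
    simp only [lC_add, lC_sub, brk, lC_mkL]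
    change _ = δ (A.Wi (A.R1 δ')).2 - δ' (A.Wi (A.R1 δ)).2 + _
    rw [a1, a2, c1, c2]
    ring
  · intro i
    have h := congrArg Prod.fst (g4 i)
    change (A.Wi (A.Q i ⁅δ, δ'⁆)).1 = _
    rw [h]
    simp only [lU_add, lU_sub, brk, lU_mkL]
    change _ = δ (A.Wi (A.Q i δ')).1 - δ' (A.Wi (A.Q i δ)).1 + _
    rw [u1, u2, v1, v2]
    ring
  · intro i
    have h := congrArg Prod.snd (g4 i)
    change (A.Wi (A.Q i ⁅δ, δ'⁆)).2 = _
    rw [h]
    simp only [lV_add, lV_sub, brk, lV_mkL]
    change _ = δ (A.Wi (A.Q i δ')).2 - δ' (A.Wi (A.Q i δ)).2 + _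
    rw [u1, u2, v1, v2]
    ring

/-- the constant vectors in the image of the logarithmic differential -/
def hSub (A : AxData C K r) : Submodule C (LIx r → C) where
  carrier := {e | (fun k => algebraMap C K (e k)) ∈ LinearMap.range A.ThL}
  zero_mem' := by
    simp only [Set.mem_setOf_eq, Pi.zero_apply, map_zero]
    exact (LinearMap.range A.ThL).zero_mem
  add_mem' := by
    intro a b ha hb
    simp only [Set.mem_setOf_eq, Pi.add_apply, map_add] at *
    exact (LinearMap.range A.ThL).add_mem ha hb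
  smul_mem' := by
    intro k a ha
    simp only [Set.mem_setOf_eq, Pi.smul_apply, smul_eq_mul, map_mul] at *
    exact (LinearMap.range A.ThL).smul_mem (algebraMap C K k) ha

theorem hSub_brk (e e' : LIx r → C) (he : e ∈ A.hSub) (he' : e' ∈ A.hSub) :
    brk e e' ∈ A.hSub := by
  obtain ⟨δ, hδ⟩ := he
  obtain ⟨δ', hδ'⟩ := he'
  refine ⟨⁅δ, δ'⁆, ?_⟩
  change A.Th δ = _ at hδ
  change A.Th δ' = _ at hδ'
  change A.Th ⁅δ, δ'⁆ = _
  rw [A.Th_comm, hδ, hδ']
  have z1 : (fun k => δ (algebraMap C K (e' k))) = 0 := funext fun k => δ.map_algebraMap _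
  have z2 : (fun k => δ' (algebraMap C K (e k))) = 0 := funext fun k => δ'.map_algebraMap _
  rw [z1, z2, sub_zero, zero_add]
  apply ext_L
  · simp only [brk, lA_mkL]
    change _ = algebraMap C K (lA (brk e e'))
    simp only [brk, lA_mkL, map_sub, map_mul]
    rfl
  · simp only [brk, lB_mkL]
    change _ = algebraMap C K (lB (brk e e'))
    simp only [brk, lB_mkL, map_sub, map_mul, map_ofNat]
    rfl
  · simp only [brk, lC_mkL]
    change _ = algebraMap C K (lC (brk e e'))
    simp only [brk, lC_mkL, map_sub, map_mul, map_ofNat]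
    rfl
  · intro i
    simp only [brk, lU_mkL]
    change _ = algebraMap C K (lU (brk e e') i)
    simp only [brk, lU_mkL, map_sub, map_add, map_mul]
    rfl
  · intro i
    simp only [brk, lV_mkL]
    change _ = algebraMap C K (lV (brk e e') i)
    simp only [brk, lV_mkL, map_sub, map_mul]
    rfl

theorem range_span (v : LIx r → K) (hv : v ∈ LinearMap.range A.ThL) :
    v ∈ Submodule.span K {w : LIx r → K | ∃ e ∈ A.hSub, w = fun i => algebraMap C K (e i)} := by
  have h := descent A.D A.hconst (LinearMap.range A.ThL) (by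
    rintro v ⟨δ, rfl⟩
    refine ⟨⁅A.D, δ⁆, ?_⟩
    change A.Th ⁅A.D, δ⁆ = _
    rw [A.Th_comm, A.Th_D]
    have z1 : (fun k => δ ((0 : LIx r → K) k)) = 0 := funext fun k => map_zero _
    have z2 : brk (0 : LIx r → K) (A.Th δ) = 0 := by
      apply ext_L <;> intros <;> simp [brk]
    rw [z1, z2, sub_zero, add_zero]
    rfl) v hv
  refine Submodule.span_mono ?_ h
  rintro w ⟨hw, e, rfl⟩
  exact ⟨e, hw, rfl⟩

/-- The algebraic Ax theorem: the logarithmic differential is surjective, or the Riccati equation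
has a solution, or a combination of the inhomogeneous terms is exact. -/
theorem trichotomy [IsAlgClosed C] [CharZero C] :
    Function.Surjective A.ThL ∨
    (∃ ρ : K, ∀ δ : Derivation C K K, δ ρ = -(be A.g2 A.g3 δ * (A.g2 / 12))
      - 2 * al A.g2 A.g3 δ * ρ - be A.g2 A.g3 δ * ρ ^ 2) ∨
    (∃ c : Fin r → C, c ≠ 0 ∧ ∃ u : K × K, ∀ δ : Derivation C K K,
      nab A.g2 A.g3 δ u = ∑ i, algebraMap C K (c i) • src A.g2 A.g3 (A.x i) (A.y i) δ) := by
  by_cases hT : A.hSub = ⊤
  · left
    rw [← LinearMap.range_eq_top, eq_top_iff]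
    rintro v -
    have h1 : ∀ k : LIx r, (Pi.single k 1 : LIx r → K) ∈ LinearMap.range A.ThL := by
      intro k
      have : (Pi.single k 1 : LIx r → C) ∈ A.hSub := by rw [hT]; trivial
      have h2 : (fun j => algebraMap C K ((Pi.single k 1 : LIx r → C) j)) = Pi.single k 1 := by
        funext j
        by_cases hj : j = k
        · subst hj; simp
        · simp [hj]
      have h3 : (fun j => algebraMap C K ((Pi.single k 1 : LIx r → C) j)) ∈
        LinearMap.range A.ThL := this
      rwa [h2] at h3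
    have h2 : v = ∑ k, v k • (Pi.single k 1 : LIx r → K) := by
      funext j
      simp [Finset.sum_apply, Pi.single_apply]
    rw [h2]
    exact Submodule.sum_mem _ fun k _ => Submodule.smul_mem _ _ (h1 k)
  · right
    rcases proper_subalgebra A.hSub (fun e he e' he' => A.hSub_brk e e' he he') hT with
      ⟨u1, u2, hu, hH⟩ | ⟨c, hc, w1, w2, hH⟩
    · left
      set U1 := algebraMap C K u1 with hU1
      set U2 := algebraMap C K u2 with hU2
      -- extend to the range
      have hV : ∀ v ∈ LinearMap.range A.ThL,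
          lC v * U1 ^ 2 - 2 * lA v * U1 * U2 - lB v * U2 ^ 2 = 0 := by
        intro v hv
        refine Submodule.span_induction ?_ ?_ ?_ ?_ (A.range_span v hv)
        · rintro w ⟨e, he, rfl⟩
          have := congrArg (algebraMap C K) (hH e he)
          simp only [map_sub, map_mul, map_pow, map_ofNat, map_zero] at this
          exact this
        · simp
        · intro a b _ _ ha hb
          simp only [lA_add, lB_add, lC_add]
          linear_combination ha + hb
        · intro k a _ ha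
          simp only [lA_smul, lB_smul, lC_smul]
          linear_combination k * ha
      set a := A.Wv (U1, U2) with ha
      have key : ∀ δ : Derivation C K K, a.1 * δ a.2 - a.2 * δ a.1 =
          -(be A.g2 A.g3 δ * (A.g2 / 12)) * a.1 ^ 2 - 2 * al A.g2 A.g3 δ * a.1 * a.2
            - be A.g2 A.g3 δ * a.2 ^ 2 := by
        intro δ
        have h1 := A.nab_Wv δ (U1, U2)
        have z1 : δ U1 = 0 := δ.map_algebraMap _
        have z2 : δ U2 = 0 := δ.map_algebraMap _
        simp only [z1, z2, add_zero] at h1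
        have h2 := hV _ ⟨δ, rfl⟩
        change lC (A.Th δ) * U1 ^ 2 - 2 * lA (A.Th δ) * U1 * U2 - lB (A.Th δ) * U2 ^ 2 = 0 at h2
        have h3 := congrArg Prod.fst h1
        have h4 := congrArg Prod.snd h1
        rw [← ha] at h3 h4
        simp only [nab] at h3 h4
        have a1 : a.1 = A.w1 * U1 + A.w2 * U2 := rfl
        have a2 : a.2 = A.e1 * U1 + A.e2 * U2 := rfl
        have h5 : a.1 * (A.Wv (lA (A.Th δ) * U1 + lB (A.Th δ) * U2,
            lC (A.Th δ) * U1 - lA (A.Th δ) * U2)).2 -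
            a.2 * (A.Wv (lA (A.Th δ) * U1 + lB (A.Th δ) * U2,
            lC (A.Th δ) * U1 - lA (A.Th δ) * U2)).1 = 0 := by
          simp only [Wv, a1, a2]
          linear_combination (A.w1 * A.e2 - A.w2 * A.e1) * h2
        rw [← h3, ← h4] at h5
        linear_combination h5
      have ha1 : a.1 ≠ 0 := by
        intro h0
        have h1 := key A.D
        rw [h0] at h1
        simp only [zero_mul, map_zero, mul_zero, sub_zero, zero_sub, ne_eq, OfNat.ofNat_ne_zero,
          not_false_eq_true, zero_pow, zero_eq_neg, mul_eq_zero, pow_eq_zero_iff] at h1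
        rcases h1 with h1 | h1
        · exact A.hβ h1
        · apply hu
          have h2 : a = 0 := Prod.ext h0 h1
          have h3 : ((U1, U2) : K × K) = 0 := by
            rw [← A.Wi_Wv (U1, U2), ← ha, h2]
            ext <;> simp [Wi]
          have h4 : U1 = 0 := congrArg Prod.fst h3
          have h5 : U2 = 0 := congrArg Prod.snd h3
          exact ⟨(map_eq_zero (algebraMap C K)).1 h4, (map_eq_zero (algebraMap C K)).1 h5⟩
      refine ⟨a.2 / a.1, fun δ => ?_⟩
      have h1 : δ (a.2 / a.1) = (a.1 * δ a.2 - a.2 * δ a.1) / a.1 ^ 2 := by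
        rw [div_eq_mul_inv, Derivation.leibniz, Derivation.leibniz_inv]
        simp only [smul_eq_mul]
        field_simp
        ring
      rw [h1, key δ]
      field_simp
    · right
      refine ⟨c, hc, (∑ i, algebraMap C K (c i) • (A.p i, A.z i))
        - A.Wv (algebraMap C K w1, algebraMap C K w2), fun δ => ?_⟩
      have hV : ∀ v ∈ LinearMap.range A.ThL,
          ∑ i, algebraMap C K (c i) * lU v i = lA v * algebraMap C K w1 + lB v * algebraMap C K w2 ∧
          ∑ i, algebraMap C K (c i) * lV v i =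
            lC v * algebraMap C K w1 - lA v * algebraMap C K w2 := by
        intro v hv
        refine Submodule.span_induction ?_ ?_ ?_ ?_ (A.range_span v hv)
        · rintro w ⟨e, he, rfl⟩
          obtain ⟨h1, h2⟩ := hH e he
          have k1 := congrArg (algebraMap C K) h1
          have k2 := congrArg (algebraMap C K) h2
          simp only [map_sum, map_mul, map_add, map_sub] at k1 k2
          exact ⟨k1, k2⟩
        · simp
        · intro a b _ _ ha hb
          simp only [lA_add, lB_add, lC_add, lU_add, lV_add, mul_add, Finset.sum_add_distrib,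
            ha.1, ha.2, hb.1, hb.2]
          constructor <;> ring
        · intro k a _ ha
          simp only [lA_smul, lB_smul, lC_smul, lU_smul, lV_smul]
          constructor
          · rw [show ∑ i, algebraMap C K (c i) * (k * lU a i) =
              k * ∑ i, algebraMap C K (c i) * lU a i by
              rw [Finset.mul_sum]; exact Finset.sum_congr rfl fun i _ => by ring]
            rw [ha.1]; ring
          · rw [show ∑ i, algebraMap C K (c i) * (k * lV a i) =
              k * ∑ i, algebraMap C K (c i) * lV a i by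
              rw [Finset.mul_sum]; exact Finset.sum_congr rfl fun i _ => by ring]
            rw [ha.2]; ring
      obtain ⟨v1, v2⟩ := hV _ ⟨δ, rfl⟩
      change ∑ i, algebraMap C K (c i) * (A.Wi (A.Q i δ)).1 = lA (A.Th δ) * algebraMap C K w1
        + lB (A.Th δ) * algebraMap C K w2 at v1
      change ∑ i, algebraMap C K (c i) * (A.Wi (A.Q i δ)).2 = lC (A.Th δ) * algebraMap C K w1
        - lA (A.Th δ) * algebraMap C K w2 at v2
      -- additivity of `nab`
      have hadd : ∀ u v : K × K, nab A.g2 A.g3 δ (u - v) =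
          nab A.g2 A.g3 δ u - nab A.g2 A.g3 δ v := by
        intro u v
        ext
        · simp only [nab, Prod.fst_sub, Prod.snd_sub, map_sub]; ring
        · simp only [nab, Prod.fst_sub, Prod.snd_sub, map_sub]; ring
      have hsmul : ∀ (k : C) (u : K × K), nab A.g2 A.g3 δ (algebraMap C K k • u) =
          algebraMap C K k • nab A.g2 A.g3 δ u := by
        intro k u
        have hk : δ (algebraMap C K k) = 0 := δ.map_algebraMap k
        ext
        · simp only [nab, Prod.smul_fst, Prod.smul_snd, smul_eq_mul, Derivation.leibniz, hk]; ring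
        · simp only [nab, Prod.smul_fst, Prod.smul_snd, smul_eq_mul, Derivation.leibniz, hk]; ring
      have hsum : nab A.g2 A.g3 δ (∑ i, algebraMap C K (c i) • (A.p i, A.z i)) =
          ∑ i, algebraMap C K (c i) • nab A.g2 A.g3 δ (A.p i, A.z i) := by
        classical
        have hadd' : ∀ u v : K × K, nab A.g2 A.g3 δ (u + v) =
            nab A.g2 A.g3 δ u + nab A.g2 A.g3 δ v := by
          intro u v
          ext
          · simp only [nab, Prod.fst_add, Prod.snd_add, map_add]; ring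
          · simp only [nab, Prod.fst_add, Prod.snd_add, map_add]; ring
        have h0 : nab A.g2 A.g3 δ 0 = 0 := by ext <;> simp [nab]
        have : ∀ s : Finset (Fin r), nab A.g2 A.g3 δ (∑ i ∈ s, algebraMap C K (c i) • (A.p i, A.z i))
            = ∑ i ∈ s, algebraMap C K (c i) • nab A.g2 A.g3 δ (A.p i, A.z i) := by
          intro s
          induction s using Finset.induction_on with
          | empty => simp [h0]
          | insert i s hi ih => rw [Finset.sum_insert hi, Finset.sum_insert hi, hadd', hsmul, ih]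
        exact this Finset.univ
      rw [hadd, hsum, A.nab_Wv]
      have z1 : δ (algebraMap C K w1) = 0 := δ.map_algebraMap _
      have z2 : δ (algebraMap C K w2) = 0 := δ.map_algebraMap _
      simp only [z1, z2, add_zero]
      rw [← v1, ← v2]
      have hq : ∀ i, nab A.g2 A.g3 δ (A.p i, A.z i) =
          A.Wv (A.Wi (A.Q i δ)) + src A.g2 A.g3 (A.x i) (A.y i) δ := by
        intro i
        rw [A.Wv_Wi]
        simp [Q]
      simp only [hq, smul_add, Finset.sum_add_distrib]
      have hW : A.Wv (∑ i, algebraMap C K (c i) * (A.Wi (A.Q i δ)).1,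
          ∑ i, algebraMap C K (c i) * (A.Wi (A.Q i δ)).2) =
          ∑ i, algebraMap C K (c i) • A.Wv (A.Wi (A.Q i δ)) := by
        ext
        · simp only [Wv, Prod.fst_sum, Prod.smul_fst, smul_eq_mul, Finset.mul_sum,
            ← Finset.sum_add_distrib]
          exact Finset.sum_congr rfl fun i _ => by ring
        · simp only [Wv, Prod.snd_sum, Prod.smul_snd, smul_eq_mul, Finset.mul_sum,
            ← Finset.sum_add_distrib]
          exact Finset.sum_congr rfl fun i _ => by ring
      rw [hW]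
      abel

end AxData

end

end Pool.Agent.EllSch
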