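import Mathlib

/-! # [FT] Derivations of field extensions -/

namespace Pool.Agent.EllSch

section
variable {k K : Type*} [Field k] [Field K] [Algebra k K] [CharZero k]

open scoped IntermediateField.algebraAdjoinAdjoin TensorProduct in
theorem exists_derivation_ne_zero {x : K} (hx : Transcendental k x) :
    ∃ δ : Derivation k K K, δ x ≠ 0 := by
  classical
  obtain ⟨s, hxs, hs⟩ : ∃ s : Set K, {x} ⊆ s ∧ IsTranscendenceBasis k ((↑) : s → K) := by
    have h : AlgebraicIndepOn k id ({x} : Set K) :=
      (algebraicIndependent_unique_type_iff (R := k)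
        (x := fun i : ({x} : Set K) => id (i : K))).mpr hx
    obtain ⟨s, h1, h2⟩ := exists_isTranscendenceBasis_superset h
    exact ⟨s, h1, h2⟩
  have halg := hs.isAlgebraic_field
  let A := Algebra.adjoin k (Set.range ((↑) : s → K))
  let F := IntermediateField.adjoin k (Set.range ((↑) : s → K))
  have : Algebra.IsSeparable F K := inferInstance
  have h1 : Algebra.FormallyEtale F K := Algebra.FormallyEtale.of_isSeparable _ _
  have h2 : Algebra.FormallyEtale A F := Algebra.FormallyEtale.of_isLocalization (nonZeroDivisors _)
  have h3 : Algebra.FormallyEtale A K := Algebra.FormallyEtale.comp A F K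
  -- the derivation of `A`
  let i : s := ⟨x, hxs rfl⟩
  let d : Derivation k A K := Derivation.mk'
    ((MvPolynomial.aeval ((↑) : s → K)).toLinearMap ∘ₗ
      (MvPolynomial.pderiv i : Derivation k (MvPolynomial s k) (MvPolynomial s k)).toLinearMap ∘ₗ
        hs.1.repr.toLinearMap) (by
      intro a b
      have ha : MvPolynomial.aeval ((↑) : s → K) (hs.1.repr a) = (a : K) := hs.1.aeval_repr a
      have hb : MvPolynomial.aeval ((↑) : s → K) (hs.1.repr b) = (b : K) := hs.1.aeval_repr b
      show MvPolynomial.aeval ((↑) : s → K) (MvPolynomial.pderiv i (hs.1.repr (a * b))) =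
        (a : K) * MvPolynomial.aeval ((↑) : s → K) (MvPolynomial.pderiv i (hs.1.repr b)) +
        (b : K) * MvPolynomial.aeval ((↑) : s → K) (MvPolynomial.pderiv i (hs.1.repr a))
      rw [map_mul, Derivation.leibniz, map_add, smul_eq_mul, smul_eq_mul, map_mul, map_mul, ha, hb])
  have hdx : d ⟨x, Algebra.subset_adjoin ⟨i, rfl⟩⟩ = 1 := by
    have h7 : hs.1.repr ⟨x, Algebra.subset_adjoin ⟨i, rfl⟩⟩ = MvPolynomial.X i := by
      apply (algebraicIndependent_iff_injective_aeval.1 hs.1)
      rw [hs.1.aeval_repr, MvPolynomial.aeval_X]
    show MvPolynomial.aeval ((↑) : s → K) (MvPolynomial.pderiv i (hs.1.repr _)) = 1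
    rw [h7, MvPolynomial.pderiv_X_self, map_one]
  have hD : KaehlerDifferential.D k K x ≠ 0 := by
    intro h0
    have h4 := KaehlerDifferential.tensorKaehlerEquivOfFormallyEtale_symm_D_algebraMap k A K
      ⟨x, Algebra.subset_adjoin ⟨i, rfl⟩⟩
    have h5 : algebraMap A K ⟨x, Algebra.subset_adjoin ⟨i, rfl⟩⟩ = x := rfl
    rw [h5, h0, map_zero] at h4
    have h6 := congrArg (d.liftKaehlerDifferential.liftBaseChange K) h4
    rw [map_zero, LinearMap.liftBaseChange_tmul, Derivation.liftKaehlerDifferential_comp_D, hdx,
      one_smul] at h6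
    exact zero_ne_one h6
  by_contra hcon
  push Not at hcon
  apply hD
  rw [← Module.forall_dual_apply_eq_zero_iff K]
  intro φ
  exact hcon (φ.compDer (KaehlerDifferential.D k K))

/-- prescribed values on an algebraically independent pair: `δ j = 1` and `δ` kills `S` -/
theorem exists_derivation_eq_one {S : Set K} {x : K}
    (hx : Transcendental (IntermediateField.adjoin k S) x) :
    ∃ δ : Derivation k K K, δ x = 1 ∧ ∀ s ∈ S, δ s = 0 := by
  obtain ⟨δ, hδ⟩ := exists_derivation_ne_zero hx
  refine ⟨((δ x)⁻¹ • δ).restrictScalars k, ?_, ?_⟩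
  · show (δ x)⁻¹ * δ x = 1
    exact inv_mul_cancel₀ hδ
  · intro s hs
    show (δ x)⁻¹ * δ s = 0
    have : δ (algebraMap (IntermediateField.adjoin k S) K
      ⟨s, IntermediateField.subset_adjoin k S hs⟩) = 0 := δ.map_algebraMap _
    have h2 : δ s = 0 := this
    rw [h2, mul_zero]

/-- a derivation (into any field extension) which kills the generators kills everything algebraic
over them -/
theorem derivation_eq_zero_of_algebraic {M : Type*} [AddCommGroup M] [Module K M] [Module k M]
    [IsScalarTower k K M] {S : Set K} (δ : Derivation k K M) (hS : ∀ s ∈ S, δ s = 0) {x : K}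
    (hx : IsAlgebraic (IntermediateField.adjoin k S) x) : δ x = 0 := by
  have h0 : ∀ y ∈ IntermediateField.adjoin k S, δ y = 0 := by
    intro y hy
    induction hy using IntermediateField.adjoin_induction with
    | mem y hy => exact hS y hy
    | algebraMap c => exact δ.map_algebraMap c
    | add a b _ _ ha hb => rw [map_add, ha, hb, add_zero]
    | inv a _ ha => rw [Derivation.leibniz_inv, ha, smul_zero]
    | mul a b _ _ ha hb => rw [Derivation.leibniz, ha, hb, smul_zero, smul_zero, add_zero]
  have key : ∀ p : Polynomial (IntermediateField.adjoin k S),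
      δ (Polynomial.aeval x p) = Polynomial.aeval x p.derivative • δ x := by
    intro p
    induction p using Polynomial.induction_on' with
    | add p q hp hq => rw [map_add, map_add, hp, hq, Polynomial.derivative_add, map_add, add_smul]
    | monomial n a =>
      rw [Polynomial.aeval_monomial, Polynomial.derivative_monomial, Polynomial.aeval_monomial,
        Derivation.leibniz, Derivation.leibniz_pow]
      have : δ (algebraMap (IntermediateField.adjoin k S) K a) = 0 := h0 _ a.2
      rw [this, smul_zero, add_zero, map_mul, map_natCast, mul_smul, mul_smul]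
      simp [← Nat.cast_smul_eq_nsmul K]
  have hint : IsIntegral (IntermediateField.adjoin k S) x := hx.isIntegral
  have h1 := key (minpoly (IntermediateField.adjoin k S) x)
  rw [minpoly.aeval, map_zero] at h1
  have hsep : (minpoly (IntermediateField.adjoin k S) x).Separable :=
    (minpoly.irreducible hint).separable
  rcases smul_eq_zero.mp h1.symm with h | h
  · exact absurd h (hsep.aeval_derivative_ne_zero (minpoly.aeval _ _))
  · exact h

/-- a subfield stable under a derivation stays stable after adjoining algebraic elements -/
theorem derivation_mem_of_algebraic (δ : Derivation k K K) (F : IntermediateField k K)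
    (hF : ∀ x ∈ F, δ x ∈ F) (G : IntermediateField k K) (hFG : F ≤ G) {x : K} (hxG : x ∈ G)
    (hx : IsAlgebraic F x) : δ x ∈ G := by
  have hmem : ∀ p : Polynomial F, Polynomial.aeval x p ∈ G := by
    intro p
    induction p using Polynomial.induction_on' with
    | add p q hp hq => rw [map_add]; exact add_mem hp hq
    | monomial n a =>
      rw [Polynomial.aeval_monomial]
      exact mul_mem (hFG a.2) (pow_mem hxG n)
  have key : ∀ p : Polynomial F, ∃ g ∈ G,
      δ (Polynomial.aeval x p) = g + Polynomial.aeval x p.derivative * δ x := by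
    intro p
    induction p using Polynomial.induction_on' with
    | add p q hp hq =>
      obtain ⟨g, hg, hp⟩ := hp
      obtain ⟨g', hg', hq⟩ := hq
      refine ⟨g + g', add_mem hg hg', ?_⟩
      rw [map_add, map_add, hp, hq, Polynomial.derivative_add, map_add]
      ring
    | monomial n a =>
      refine ⟨x ^ n * δ a, mul_mem (pow_mem hxG n) (hFG (hF _ a.2)), ?_⟩
      rw [Polynomial.aeval_monomial, Polynomial.derivative_monomial, Polynomial.aeval_monomial,
        Derivation.leibniz, Derivation.leibniz_pow]
      simp only [smul_eq_mul, nsmul_eq_mul, map_mul, map_natCast]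
      show (a : K) * _ + _ * δ (a : K) = _ + (a : K) * _ * _ * _
      ring
  have hint : IsIntegral F x := hx.isIntegral
  obtain ⟨g, hg, h1⟩ := key (minpoly F x)
  rw [minpoly.aeval, map_zero] at h1
  have hsep : (minpoly F x).Separable := (minpoly.irreducible hint).separable
  have hne := hsep.aeval_derivative_ne_zero (minpoly.aeval F x)
  have h2 : δ x = -g / Polynomial.aeval x (minpoly F x).derivative := by
    field_simp
    linear_combination -h1
  rw [h2]
  exact div_mem (neg_mem hg) (hmem _)

end

end Pool.Agent.EllSch
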