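import Pool.Agent.EllSch.Defs

/-! # [PT] Points under field homomorphisms and under specialisation -/

namespace Pool.Agent.EllSch

namespace PtMap

set_option linter.unusedSectionVars false

section Basic
variable {K : Type*} [Field K] [CharZero K] [DecidableEq K]

lemma nonsing {g2 g3 x y : K} (hΔ : g2 ^ 3 - 27 * g3 ^ 2 ≠ 0)
    (h : y ^ 2 = 4 * x ^ 3 - g2 * x - g3) : (crv g2 g3).Nonsingular x (y / 2) := by
  have hΔ' : (crv g2 g3).Δ ≠ 0 := by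
    have : (crv g2 g3).Δ = g2 ^ 3 - 27 * g3 ^ 2 := by
      simp only [WeierstrassCurve.Δ, WeierstrassCurve.b₂, WeierstrassCurve.b₄, WeierstrassCurve.b₆,
        WeierstrassCurve.b₈, crv]
      ring
    rwa [this]
  refine ((crv g2 g3).equation_iff_nonsingular_of_Δ_ne_zero hΔ').mp ?_
  rw [WeierstrassCurve.Affine.equation_iff]
  simp only [crv]
  linear_combination h / 4

lemma crv_of_nonsing {g2 g3 x y : K} (h : (crv g2 g3).Nonsingular x (y / 2)) :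
    y ^ 2 = 4 * x ^ 3 - g2 * x - g3 := by
  have := h.1
  rw [WeierstrassCurve.Affine.equation_iff] at this
  simp only [crv] at this
  linear_combination 4 * this

lemma pt_some {g2 g3 x y : K} (hΔ : g2 ^ 3 - 27 * g3 ^ 2 ≠ 0)
    (h : y ^ 2 = 4 * x ^ 3 - g2 * x - g3) :
    pt g2 g3 x y = .some x (y / 2) (nonsing hΔ h) := by
  unfold pt
  rw [dif_pos (nonsing hΔ h)]

lemma pt_ne {g2 g3 x y : K} (hΔ : g2 ^ 3 - 27 * g3 ^ 2 ≠ 0)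
    (h : y ^ 2 = 4 * x ^ 3 - g2 * x - g3) : pt g2 g3 x y ≠ 0 := by
  rw [pt_some hΔ h]
  exact WeierstrassCurve.Affine.Point.some_ne_zero _

lemma neg_pt (g2 g3 x y : K) : -pt g2 g3 x y = pt g2 g3 x (-y) := by
  have hneg : (crv g2 g3).negY x (y / 2) = -y / 2 := by
    simp only [WeierstrassCurve.Affine.negY, crv]
    ring
  have hiff : (crv g2 g3).Nonsingular x (-y / 2) ↔ (crv g2 g3).Nonsingular x (y / 2) := by
    rw [← hneg]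
    exact WeierstrassCurve.Affine.nonsingular_neg ..
  unfold pt
  by_cases h : (crv g2 g3).Nonsingular x (y / 2)
  · rw [dif_pos h, dif_pos (hiff.mpr h), WeierstrassCurve.Affine.Point.neg_some]
    simp only [hneg]
  · rw [dif_neg h, dif_neg (fun h' => h (hiff.mp h'))]
    simp

lemma add_pt_of_X_ne {g2 g3 x₁ y₁ x₂ y₂ X Y : K} (hΔ : g2 ^ 3 - 27 * g3 ^ 2 ≠ 0)
    (h₁ : y₁ ^ 2 = 4 * x₁ ^ 3 - g2 * x₁ - g3) (h₂ : y₂ ^ 2 = 4 * x₂ ^ 3 - g2 * x₂ - g3)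
    (hne : x₁ ≠ x₂) (hX : 4 * (x₁ - x₂) ^ 2 * (X + x₁ + x₂) = (y₁ - y₂) ^ 2)
    (hY : (x₁ - x₂) * (Y + y₁) = -(y₁ - y₂) * (X - x₁)) :
    pt g2 g3 x₁ y₁ + pt g2 g3 x₂ y₂ = pt g2 g3 X Y ∧ Y ^ 2 = 4 * X ^ 3 - g2 * X - g3 := by
  have hsub : x₁ - x₂ ≠ 0 := sub_ne_zero.mpr hne
  have hadd := WeierstrassCurve.Affine.nonsingular_add (nonsing hΔ h₁) (nonsing hΔ h₂)
    (fun h => hne h.1)
  have hX' : (crv g2 g3).addX x₁ x₂ ((crv g2 g3).slope x₁ x₂ (y₁ / 2) (y₂ / 2)) = X := by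
    rw [WeierstrassCurve.Affine.slope_of_X_ne hne]
    simp only [WeierstrassCurve.Affine.addX, crv]
    field_simp
    linear_combination -hX
  have hY' : (crv g2 g3).addY x₁ x₂ (y₁ / 2) ((crv g2 g3).slope x₁ x₂ (y₁ / 2) (y₂ / 2)) =
      Y / 2 := by
    simp only [WeierstrassCurve.Affine.addY, WeierstrassCurve.Affine.negAddY,
      WeierstrassCurve.Affine.negY, hX']
    rw [WeierstrassCurve.Affine.slope_of_X_ne hne]
    simp only [crv]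
    field_simp
    linear_combination -hY
  have hns : (crv g2 g3).Nonsingular X (Y / 2) := by
    rw [hX', hY'] at hadd
    exact hadd
  refine ⟨?_, crv_of_nonsing hns⟩
  rw [pt_some hΔ h₁, pt_some hΔ h₂, WeierstrassCurve.Affine.Point.add_of_X_ne hne]
  unfold pt
  rw [dif_pos hns]
  simp only [hX', hY']

lemma add_pt_self {g2 g3 x y X Y : K} (hΔ : g2 ^ 3 - 27 * g3 ^ 2 ≠ 0)
    (h : y ^ 2 = 4 * x ^ 3 - g2 * x - g3) (hy : y ≠ 0)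
    (hX : 16 * y ^ 2 * (X + 2 * x) = (12 * x ^ 2 - g2) ^ 2)
    (hY : 2 * y * (Y + y) = -(12 * x ^ 2 - g2) * (X - x)) :
    pt g2 g3 x y + pt g2 g3 x y = pt g2 g3 X Y ∧ Y ^ 2 = 4 * X ^ 3 - g2 * X - g3 := by
  have hneg : y / 2 ≠ (crv g2 g3).negY x (y / 2) := by
    simp only [WeierstrassCurve.Affine.negY, crv]
    intro h
    apply hy
    linear_combination h
  have hadd := WeierstrassCurve.Affine.nonsingular_add (nonsing hΔ h) (nonsing hΔ h)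
    (fun h => hneg h.2)
  have hsl : (crv g2 g3).slope x x (y / 2) (y / 2) = (12 * x ^ 2 - g2) / (4 * y) := by
    rw [WeierstrassCurve.Affine.slope_of_Y_ne rfl hneg]
    simp only [WeierstrassCurve.Affine.negY, crv]
    have : y / 2 - (-(y / 2) - 0 * x - 0) = y := by ring
    rw [this]
    field_simp
    ring
  have hX' : (crv g2 g3).addX x x ((crv g2 g3).slope x x (y / 2) (y / 2)) = X := by
    rw [hsl]
    simp only [WeierstrassCurve.Affine.addX, crv]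
    field_simp
    linear_combination -hX
  have hY' : (crv g2 g3).addY x x (y / 2) ((crv g2 g3).slope x x (y / 2) (y / 2)) =
      Y / 2 := by
    simp only [WeierstrassCurve.Affine.addY, WeierstrassCurve.Affine.negAddY,
      WeierstrassCurve.Affine.negY, hX']
    rw [hsl]
    simp only [crv]
    field_simp
    linear_combination -2 * hY
  have hns : (crv g2 g3).Nonsingular X (Y / 2) := by
    rw [hX', hY'] at hadd
    exact hadd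
  refine ⟨?_, crv_of_nonsing hns⟩
  rw [pt_some hΔ h, WeierstrassCurve.Affine.Point.add_self_of_Y_ne hneg]
  unfold pt
  rw [dif_pos hns]
  simp only [hX', hY']

end Basic

section Spec
variable {F L : Type*} [Field F] [Field L] [CharZero F] [CharZero L] [DecidableEq F]
  [DecidableEq L]

/-- a subring containing the data, with a homomorphism to `L` -/
structure Ctx (g2 g3 : F) {n : ℕ} (x y : Fin n → F) (L : Type*) [Field L] where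
  R : Subring F
  h2 : g2 ∈ R
  h3 : g3 ∈ R
  hx : ∀ i, x i ∈ R
  hy : ∀ i, y i ∈ R
  χ : R →+* L

variable {g2 g3 : F} {n : ℕ} {x y : Fin n → F}

/-- the images of the invariants -/
def Ctx.g2' (c : Ctx g2 g3 x y L) : L := c.χ ⟨g2, c.h2⟩
def Ctx.g3' (c : Ctx g2 g3 x y L) : L := c.χ ⟨g3, c.h3⟩

/-- all elements of `T` are units of the subring -/
def Adm (T : Finset F) (c : Ctx g2 g3 x y L) : Prop := ∀ t ∈ T, t ∈ c.R ∧ t⁻¹ ∈ c.R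

lemma Adm.mono {T T' : Finset F} (h : T ⊆ T') {c : Ctx g2 g3 x y L} (hc : Adm T' c) : Adm T c :=
  fun t ht => hc t (h ht)

lemma Adm.ne_zero {T : Finset F} {c : Ctx g2 g3 x y L} (hc : Adm T c) {t : F} (ht : t ∈ T)
    (h0 : t ≠ 0) (h : t ∈ c.R) : c.χ ⟨t, h⟩ ≠ 0 := by
  have h1 : (⟨t, h⟩ : c.R) * ⟨t⁻¹, (hc t ht).2⟩ = 1 := Subtype.ext (by
    simpa using mul_inv_cancel₀ h0)
  have h2 := congrArg c.χ h1
  rw [map_mul, map_one] at h2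
  exact left_ne_zero_of_mul_eq_one h2

lemma Adm.hΔ {T : Finset F} {c : Ctx g2 g3 x y L} (hc : Adm T c)
    (hΔ : g2 ^ 3 - 27 * g3 ^ 2 ≠ 0) (hT : g2 ^ 3 - 27 * g3 ^ 2 ∈ T) :
    c.g2' ^ 3 - 27 * c.g3' ^ 2 ≠ 0 := by
  have h := hc.ne_zero hT hΔ (hc _ hT).1
  have h1 : (⟨g2 ^ 3 - 27 * g3 ^ 2, (hc _ hT).1⟩ : c.R) =
      ⟨g2, c.h2⟩ ^ 3 - 27 * ⟨g3, c.h3⟩ ^ 2 := Subtype.ext (by push_cast; rfl)
  rw [h1] at h
  simp only [map_sub, map_mul, map_pow, map_ofNat] at h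
  exact h

lemma Ctx.curve (c : Ctx g2 g3 x y L) {X Y : F} (hX : X ∈ c.R) (hY : Y ∈ c.R)
    (h : Y ^ 2 = 4 * X ^ 3 - g2 * X - g3) :
    c.χ ⟨Y, hY⟩ ^ 2 = 4 * c.χ ⟨X, hX⟩ ^ 3 - c.g2' * c.χ ⟨X, hX⟩ - c.g3' := by
  have h1 : (⟨Y, hY⟩ : c.R) ^ 2 = 4 * ⟨X, hX⟩ ^ 3 - ⟨g2, c.h2⟩ * ⟨X, hX⟩ - ⟨g3, c.h3⟩ :=
    Subtype.ext (by push_cast; exact h)
  have h2 := congrArg c.χ h1
  simp only [map_sub, map_mul, map_pow, map_ofNat] at h2
  exact h2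

/-- compatible families of points -/
def Good (g2 g3 : F) (x y : Fin n → F) (L : Type*) [Field L] (P : (crv g2 g3).Point)
    (Φ : ∀ c : Ctx g2 g3 x y L, (crv c.g2' c.g3').Point) : Prop :=
  ∃ T : Finset F, (∀ t ∈ T, t ≠ 0) ∧
    ((P = 0 ∧ ∀ c, Adm T c → Φ c = 0) ∨
      ∃ X Y : F, Y ^ 2 = 4 * X ^ 3 - g2 * X - g3 ∧ P = pt g2 g3 X Y ∧
        ∀ (c : Ctx g2 g3 x y L) (hX : X ∈ c.R) (hY : Y ∈ c.R), Adm T c →
          Φ c = pt c.g2' c.g3' (c.χ ⟨X, hX⟩) (c.χ ⟨Y, hY⟩))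

lemma Good.zero : Good g2 g3 x y L 0 (fun _ => 0) :=
  ⟨∅, by simp, Or.inl ⟨rfl, fun _ _ => rfl⟩⟩

lemma Good.pt (hxy : ∀ i, y i ^ 2 = 4 * x i ^ 3 - g2 * x i - g3) (i : Fin n) :
    Good g2 g3 x y L (pt g2 g3 (x i) (y i))
      (fun c => Pool.Agent.EllSch.pt c.g2' c.g3' (c.χ ⟨x i, c.hx i⟩) (c.χ ⟨y i, c.hy i⟩)) :=
  ⟨∅, by simp, Or.inr ⟨x i, y i, hxy i, rfl, fun _ _ _ _ => rfl⟩⟩

lemma Good.neg {P : (crv g2 g3).Point} {Φ : ∀ c : Ctx g2 g3 x y L, (crv c.g2' c.g3').Point}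
    (h : Good g2 g3 x y L P Φ) : Good g2 g3 x y L (-P) (fun c => -Φ c) := by
  obtain ⟨T, hT, h | ⟨X, Y, hXY, hP, hΦ⟩⟩ := h
  · exact ⟨T, hT, Or.inl ⟨by rw [h.1, neg_zero], fun c hc => by
      show -Φ c = 0
      rw [h.2 c hc, neg_zero]⟩⟩
  · refine ⟨T, hT, Or.inr ⟨X, -Y, by rw [neg_sq]; exact hXY, by rw [hP, neg_pt], ?_⟩⟩
    intro c hX hY hc
    have hY' : Y ∈ c.R := by simpa using c.R.neg_mem hY
    show -Φ c = _
    rw [hΦ c hX hY' hc, neg_pt]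
    congr 1
    rw [← map_neg]
    rfl

open Classical in
lemma Good.add (hΔ : g2 ^ 3 - 27 * g3 ^ 2 ≠ 0) {P Q : (crv g2 g3).Point}
    {Φ Ψ : ∀ c : Ctx g2 g3 x y L, (crv c.g2' c.g3').Point}
    (hP : Good g2 g3 x y L P Φ) (hQ : Good g2 g3 x y L Q Ψ) :
    Good g2 g3 x y L (P + Q) (fun c => Φ c + Ψ c) := by
  obtain ⟨T₁, hT₁, h₁⟩ := hP
  obtain ⟨T₂, hT₂, h₂⟩ := hQ
  rcases h₁ with ⟨hP0, hΦ0⟩ | ⟨X₁, Y₁, hXY₁, hP₁, hΦ₁⟩
  · rcases h₂ with ⟨hQ0, hΨ0⟩ | ⟨X₂, Y₂, hXY₂, hQ₂, hΨ₂⟩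
    · refine ⟨T₁ ∪ T₂, ?_, Or.inl ⟨by rw [hP0, hQ0, add_zero], fun c hc => ?_⟩⟩
      · intro t ht
        rcases Finset.mem_union.mp ht with h | h
        exacts [hT₁ t h, hT₂ t h]
      · show Φ c + Ψ c = 0
        rw [hΦ0 c (hc.mono Finset.subset_union_left), hΨ0 c (hc.mono Finset.subset_union_right),
          add_zero]
    · refine ⟨T₁ ∪ T₂, ?_, Or.inr ⟨X₂, Y₂, hXY₂, by rw [hP0, zero_add, hQ₂], ?_⟩⟩
      · intro t ht
        rcases Finset.mem_union.mp ht with h | h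
        exacts [hT₁ t h, hT₂ t h]
      · intro c hX hY hc
        show Φ c + Ψ c = _
        rw [hΦ0 c (hc.mono Finset.subset_union_left),
          hΨ₂ c hX hY (hc.mono Finset.subset_union_right), zero_add]
  rcases h₂ with ⟨hQ0, hΨ0⟩ | ⟨X₂, Y₂, hXY₂, hQ₂, hΨ₂⟩
  · refine ⟨T₁ ∪ T₂, ?_, Or.inr ⟨X₁, Y₁, hXY₁, by rw [hQ0, add_zero, hP₁], ?_⟩⟩
    · intro t ht
      rcases Finset.mem_union.mp ht with h | h
      exacts [hT₁ t h, hT₂ t h]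
    · intro c hX hY hc
      show Φ c + Ψ c = _
      rw [hΨ0 c (hc.mono Finset.subset_union_right),
        hΦ₁ c hX hY (hc.mono Finset.subset_union_left), add_zero]
  -- both points are affine
  set T : Finset F := (T₁ ∪ T₂ ∪ {X₁, Y₁, X₂, Y₂, X₁ - X₂, g2 ^ 3 - 27 * g3 ^ 2}).filter (· ≠ 0)
    with hTdef
  have hT0 : ∀ t ∈ T, t ≠ 0 := fun t ht => (Finset.mem_filter.mp ht).2
  have hsub₁ : T₁ ⊆ T := fun t ht => by
    rw [hTdef, Finset.mem_filter]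
    exact ⟨by simp [ht], hT₁ t ht⟩
  have hsub₂ : T₂ ⊆ T := fun t ht => by
    rw [hTdef, Finset.mem_filter]
    exact ⟨by simp [ht], hT₂ t ht⟩
  have hmem : ∀ t ∈ ({X₁, Y₁, X₂, Y₂, X₁ - X₂, g2 ^ 3 - 27 * g3 ^ 2} : Finset F),
      ∀ c : Ctx g2 g3 x y L, Adm T c → t ∈ c.R := by
    intro t ht c hc
    by_cases h0 : t = 0
    · rw [h0]
      exact c.R.zero_mem
    · exact (hc t (by
        rw [hTdef, Finset.mem_filter]
        exact ⟨Finset.mem_union_right _ ht, h0⟩)).1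
  have hΔT : g2 ^ 3 - 27 * g3 ^ 2 ∈ T := by
    rw [hTdef, Finset.mem_filter]
    exact ⟨by simp, hΔ⟩
  have hX₁ := hmem X₁ (by simp)
  have hY₁ := hmem Y₁ (by simp)
  have hX₂ := hmem X₂ (by simp)
  have hY₂ := hmem Y₂ (by simp)
  by_cases hne : X₁ = X₂
  · subst hne
    have hYY : (Y₁ - Y₂) * (Y₁ + Y₂) = 0 := by linear_combination hXY₁ - hXY₂
    by_cases hopp : Y₁ = -Y₂
    · -- opposite points
      refine ⟨T, hT0, Or.inl ⟨?_, ?_⟩⟩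
      · rw [hP₁, hQ₂, hopp, ← neg_pt, neg_add_cancel]
      · intro c hc
        show Φ c + Ψ c = _
        rw [hΦ₁ c (hX₁ c hc) (hY₁ c hc) (hc.mono hsub₁), hΨ₂ c (hX₁ c hc) (hY₂ c hc) (hc.mono hsub₂)]
        have h1 : c.χ ⟨Y₁, hY₁ c hc⟩ = - c.χ ⟨Y₂, hY₂ c hc⟩ := by
          rw [← map_neg]
          congr 1
          exact Subtype.ext hopp
        rw [h1, ← neg_pt, neg_add_cancel]
    · -- equal points
      have hYeq : Y₁ = Y₂ := by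
        rcases mul_eq_zero.mp hYY with h | h
        · exact sub_eq_zero.mp h
        · exact absurd (eq_neg_of_add_eq_zero_left h) hopp
      subst hYeq
      have hY0 : Y₁ ≠ 0 := by
        rintro rfl
        exact hopp (by simp)
      have hY₁T : Y₁ ∈ T := by
        rw [hTdef, Finset.mem_filter]
        exact ⟨by simp, hY0⟩
      obtain ⟨X, hX⟩ : ∃ X : F, 16 * Y₁ ^ 2 * (X + 2 * X₁) = (12 * X₁ ^ 2 - g2) ^ 2 :=
        ⟨(12 * X₁ ^ 2 - g2) ^ 2 / (16 * Y₁ ^ 2) - 2 * X₁, by field_simp; ring⟩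
      obtain ⟨Y, hY⟩ : ∃ Y : F, 2 * Y₁ * (Y + Y₁) = -(12 * X₁ ^ 2 - g2) * (X - X₁) :=
        ⟨-(12 * X₁ ^ 2 - g2) * (X - X₁) / (2 * Y₁) - Y₁, by field_simp; ring⟩
      have hsum := add_pt_self hΔ hXY₁ hY0 hX hY
      refine ⟨T, hT0, Or.inr ⟨X, Y, hsum.2, by rw [hP₁, hQ₂, hsum.1], ?_⟩⟩
      intro c hXR hYR hc
      show Φ c + Ψ c = _
      rw [hΦ₁ c (hX₁ c hc) (hY₁ c hc) (hc.mono hsub₁), hΨ₂ c (hX₁ c hc) (hY₂ c hc) (hc.mono hsub₂)]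
      have hX' : (16 : c.R) * ⟨Y₁, hY₁ c hc⟩ ^ 2 * (⟨X, hXR⟩ + 2 * ⟨X₁, hX₁ c hc⟩) =
          (12 * ⟨X₁, hX₁ c hc⟩ ^ 2 - ⟨g2, c.h2⟩) ^ 2 := Subtype.ext (by push_cast; exact hX)
      have hY' : (2 : c.R) * ⟨Y₁, hY₁ c hc⟩ * (⟨Y, hYR⟩ + ⟨Y₁, hY₁ c hc⟩) =
          -(12 * ⟨X₁, hX₁ c hc⟩ ^ 2 - ⟨g2, c.h2⟩) * (⟨X, hXR⟩ - ⟨X₁, hX₁ c hc⟩) :=
        Subtype.ext (by push_cast; exact hY)
      refine (add_pt_self (hc.hΔ hΔ hΔT) (c.curve (hX₁ c hc) (hY₁ c hc) hXY₁)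
        (hc.ne_zero hY₁T hY0 _) ?_ ?_).1
      · have := congrArg c.χ hX'
        simp only [map_sub, map_add, map_mul, map_pow, map_ofNat] at this
        exact this
      · have := congrArg c.χ hY'
        simp only [map_neg, map_sub, map_add, map_mul, map_pow, map_ofNat] at this
        exact this
  · -- different abscissas
    have hsub : X₁ - X₂ ≠ 0 := sub_ne_zero.mpr hne
    have hsubT : X₁ - X₂ ∈ T := by
      rw [hTdef, Finset.mem_filter]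
      exact ⟨by simp, hsub⟩
    obtain ⟨X, hX⟩ : ∃ X : F, 4 * (X₁ - X₂) ^ 2 * (X + X₁ + X₂) = (Y₁ - Y₂) ^ 2 :=
      ⟨(Y₁ - Y₂) ^ 2 / (4 * (X₁ - X₂) ^ 2) - X₁ - X₂, by field_simp; ring⟩
    obtain ⟨Y, hY⟩ : ∃ Y : F, (X₁ - X₂) * (Y + Y₁) = -(Y₁ - Y₂) * (X - X₁) :=
      ⟨-(Y₁ - Y₂) * (X - X₁) / (X₁ - X₂) - Y₁, by field_simp; ring⟩
    have hsum := add_pt_of_X_ne hΔ hXY₁ hXY₂ hne hX hY
    refine ⟨T, hT0, Or.inr ⟨X, Y, hsum.2, by rw [hP₁, hQ₂, hsum.1], ?_⟩⟩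
    intro c hXR hYR hc
    show Φ c + Ψ c = _
    rw [hΦ₁ c (hX₁ c hc) (hY₁ c hc) (hc.mono hsub₁), hΨ₂ c (hX₂ c hc) (hY₂ c hc) (hc.mono hsub₂)]
    have hX' : (4 : c.R) * (⟨X₁, hX₁ c hc⟩ - ⟨X₂, hX₂ c hc⟩) ^ 2 *
        (⟨X, hXR⟩ + ⟨X₁, hX₁ c hc⟩ + ⟨X₂, hX₂ c hc⟩) =
        (⟨Y₁, hY₁ c hc⟩ - ⟨Y₂, hY₂ c hc⟩) ^ 2 := Subtype.ext (by push_cast; exact hX)
    have hY' : ((⟨X₁, hX₁ c hc⟩ : c.R) - ⟨X₂, hX₂ c hc⟩) * (⟨Y, hYR⟩ + ⟨Y₁, hY₁ c hc⟩) =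
        -(⟨Y₁, hY₁ c hc⟩ - ⟨Y₂, hY₂ c hc⟩) * (⟨X, hXR⟩ - ⟨X₁, hX₁ c hc⟩) :=
      Subtype.ext (by push_cast; exact hY)
    refine (add_pt_of_X_ne (hc.hΔ hΔ hΔT) (c.curve (hX₁ c hc) (hY₁ c hc) hXY₁)
      (c.curve (hX₂ c hc) (hY₂ c hc) hXY₂) ?_ ?_ ?_).1
    · intro h
      refine hc.ne_zero hsubT hsub (c.R.sub_mem (hX₁ c hc) (hX₂ c hc)) ?_
      have : (⟨X₁ - X₂, c.R.sub_mem (hX₁ c hc) (hX₂ c hc)⟩ : c.R) =
          ⟨X₁, hX₁ c hc⟩ - ⟨X₂, hX₂ c hc⟩ := rfl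
      rw [this, map_sub, h, sub_self]
    · have := congrArg c.χ hX'
      simp only [map_sub, map_add, map_mul, map_pow, map_ofNat] at this
      exact this
    · have := congrArg c.χ hY'
      simp only [map_neg, map_sub, map_add, map_mul] at this
      exact this

lemma Good.nsmul (hΔ : g2 ^ 3 - 27 * g3 ^ 2 ≠ 0) {P : (crv g2 g3).Point}
    {Φ : ∀ c : Ctx g2 g3 x y L, (crv c.g2' c.g3').Point}
    (hP : Good g2 g3 x y L P Φ) (m : ℕ) : Good g2 g3 x y L (m • P) (fun c => m • Φ c) := by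
  induction m with
  | zero => simpa using Good.zero
  | succ m ih =>
    have := ih.add hΔ hP
    simpa only [succ_nsmul] using this

lemma Good.zsmul (hΔ : g2 ^ 3 - 27 * g3 ^ 2 ≠ 0) {P : (crv g2 g3).Point}
    {Φ : ∀ c : Ctx g2 g3 x y L, (crv c.g2' c.g3').Point}
    (hP : Good g2 g3 x y L P Φ) (m : ℤ) : Good g2 g3 x y L (m • P) (fun c => m • Φ c) := by
  obtain ⟨k, rfl | rfl⟩ := m.eq_nat_or_neg
  · simpa only [natCast_zsmul] using hP.nsmul hΔ k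
  · have := (hP.nsmul hΔ k).neg
    simpa only [neg_smul, natCast_zsmul] using this

lemma Good.sum (hΔ : g2 ^ 3 - 27 * g3 ^ 2 ≠ 0)
    (hxy : ∀ i, y i ^ 2 = 4 * x i ^ 3 - g2 * x i - g3) (m : Fin n → ℤ) (s : Finset (Fin n)) :
    Good g2 g3 x y L (∑ i ∈ s, m i • Pool.Agent.EllSch.pt g2 g3 (x i) (y i))
      (fun c => ∑ i ∈ s, m i •
        Pool.Agent.EllSch.pt c.g2' c.g3' (c.χ ⟨x i, c.hx i⟩) (c.χ ⟨y i, c.hy i⟩)) := by
  classical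
  induction s using Finset.induction_on with
  | empty => simpa using Good.zero
  | insert a s ha ih =>
    have := ((Good.pt hxy a).zsmul hΔ (m a)).add hΔ ih
    simpa only [Finset.sum_insert ha] using this

end Spec

end PtMap

section
variable {F L : Type*} [Field F] [Field L] [CharZero F] [CharZero L] [DecidableEq F]
  [DecidableEq L]

/-- specialisation of a linear combination of points: there is a finite set `T` of nonzero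
elements such that for every homomorphism `χ` from a subring `R` in which all elements of `T` are
units, `χ` is compatible with the linear combination. -/
theorem sum_pt_spec {g2 g3 : F} (hΔ : g2 ^ 3 - 27 * g3 ^ 2 ≠ 0) {n : ℕ}
    (x y : Fin n → F) (hxy : ∀ i, y i ^ 2 = 4 * x i ^ 3 - g2 * x i - g3) (m : Fin n → ℤ) :
    ∃ T : Finset F, (∀ t ∈ T, t ≠ 0) ∧
      ((∑ i, m i • pt g2 g3 (x i) (y i) = 0 ∧
        ∀ (R : Subring F) (h2 : g2 ∈ R) (h3 : g3 ∈ R) (hx : ∀ i, x i ∈ R) (hy : ∀ i, y i ∈ R)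
          (_ : ∀ t ∈ T, t ∈ R ∧ t⁻¹ ∈ R) (χ : R →+* L),
          ∑ i, m i • pt (χ ⟨g2, h2⟩) (χ ⟨g3, h3⟩) (χ ⟨x i, hx i⟩) (χ ⟨y i, hy i⟩) = 0) ∨
       (∃ X Y : F, Y ^ 2 = 4 * X ^ 3 - g2 * X - g3 ∧
        ∑ i, m i • pt g2 g3 (x i) (y i) = pt g2 g3 X Y ∧
        ∀ (R : Subring F) (h2 : g2 ∈ R) (h3 : g3 ∈ R) (hx : ∀ i, x i ∈ R) (hy : ∀ i, y i ∈ R)
          (hX : X ∈ R) (hY : Y ∈ R)
          (_ : ∀ t ∈ T, t ∈ R ∧ t⁻¹ ∈ R) (χ : R →+* L),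
          ∑ i, m i • pt (χ ⟨g2, h2⟩) (χ ⟨g3, h3⟩) (χ ⟨x i, hx i⟩) (χ ⟨y i, hy i⟩) =
            pt (χ ⟨g2, h2⟩) (χ ⟨g3, h3⟩) (χ ⟨X, hX⟩) (χ ⟨Y, hY⟩))) := by
  obtain ⟨T, hT, h | ⟨X, Y, hXY, h1, h2⟩⟩ := PtMap.Good.sum (L := L) hΔ hxy m Finset.univ
  · exact ⟨T, hT, Or.inl ⟨h.1, fun R h2 h3 hx hy hR χ => h.2 ⟨R, h2, h3, hx, hy, χ⟩ hR⟩⟩
  · exact ⟨T, hT, Or.inr ⟨X, Y, hXY, h1, fun R g2R g3R hx hy hX hY hR χ =>
      h2 ⟨R, g2R, g3R, hx, hy, χ⟩ hX hY hR⟩⟩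

/-- field homomorphisms preserve and reflect linear relations between points -/
theorem sum_pt_map (f : F →+* L) {g2 g3 : F} (hΔ : g2 ^ 3 - 27 * g3 ^ 2 ≠ 0) {n : ℕ}
    (x y : Fin n → F) (hxy : ∀ i, y i ^ 2 = 4 * x i ^ 3 - g2 * x i - g3) (m : Fin n → ℤ) :
    (∑ i, m i • pt (f g2) (f g3) (f (x i)) (f (y i)) = 0) ↔
      (∑ i, m i • pt g2 g3 (x i) (y i) = 0) := by
  have hfΔ : f g2 ^ 3 - 27 * f g3 ^ 2 ≠ 0 := by
    have := (map_ne_zero f).mpr hΔ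
    simp only [map_sub, map_mul, map_pow, map_ofNat] at this
    exact this
  obtain ⟨T, -, h | ⟨X, Y, hXY, h1, h2⟩⟩ := sum_pt_spec (L := L) hΔ x y hxy m
  · have h' := h.2 ⊤ trivial trivial (fun _ => trivial) (fun _ => trivial)
      (fun _ _ => ⟨trivial, trivial⟩) (f.comp (⊤ : Subring F).subtype)
    exact ⟨fun _ => h.1, fun _ => h'⟩
  · have h' := h2 ⊤ trivial trivial (fun _ => trivial) (fun _ => trivial) trivial trivial
      (fun _ _ => ⟨trivial, trivial⟩) (f.comp (⊤ : Subring F).subtype)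
    have hcurve : f Y ^ 2 = 4 * f X ^ 3 - f g2 * f X - f g3 := by
      have := congrArg f hXY
      simp only [map_sub, map_mul, map_pow, map_ofNat] at this
      exact this
    constructor
    · intro h3
      exact absurd (h'.symm.trans h3) (PtMap.pt_ne hfΔ hcurve)
    · intro h3
      exact absurd (h1.symm.trans h3) (PtMap.pt_ne hΔ hXY)

end

end Pool.Agent.EllSch
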