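import Pool.Agent.EllSch.FieldThy

/-! # [RL] Reduction of a finitely generated extension to one variable -/

set_option linter.all false

open Polynomial Cardinal

namespace Pool.Agent.EllSch

namespace Reduction

theorem exists_embedding {B : Type} [Field B] [CharZero B] (h : #B = #ℂ) :
    Nonempty (B →+* ℂ) := by
  have h1 : #(AlgebraicClosure B) = #ℂ := by
    apply le_antisymm
    · have h2 := Algebra.IsAlgebraic.cardinalMk_le_max B (AlgebraicClosure B)
      rw [h, max_eq_left (by rw [Cardinal.mk_complex]; exact Cardinal.aleph0_lt_continuum.le)] at h2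
      exact h2
    · rw [← h]
      exact Cardinal.mk_le_of_injective (algebraMap B (AlgebraicClosure B)).injective
  haveI : CharZero (AlgebraicClosure B) :=
    charZero_of_injective_algebraMap (algebraMap B (AlgebraicClosure B)).injective
  obtain ⟨e⟩ := IsAlgClosed.ringEquiv_of_equiv_of_charZero (K := AlgebraicClosure B) (L := ℂ)
    (by rw [h1, Cardinal.mk_complex]; exact Cardinal.aleph0_lt_continuum) (Cardinal.eq.1 h1)
  exact ⟨(e : AlgebraicClosure B →+* ℂ).comp (algebraMap B _)⟩

/-- algebraic over `B(j)` implies algebraic over `B[X]` acting through `j` -/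
theorem isAlgebraic_poly {B L : Type*} [Field B] [Field L] [Algebra B L] (j : L) (e : L)
    (h : IsAlgebraic (IntermediateField.adjoin B {j}) e) :
    letI : Algebra B[X] L := (aeval j : B[X] →ₐ[B] L).toRingHom.toAlgebra
    IsAlgebraic B[X] e := by
  letI : Algebra B[X] L := (aeval j : B[X] →ₐ[B] L).toRingHom.toAlgebra
  open scoped IntermediateField.algebraAdjoinAdjoin in
  have h1 : IsAlgebraic (Algebra.adjoin B {j}) e :=
    (IsFractionRing.isAlgebraic_iff (Algebra.adjoin B {j}) (IntermediateField.adjoin B {j}) L).2 h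
  have h2 : ∀ p : B[X], aeval j p ∈ Algebra.adjoin B {j} := fun p => by
    rw [Algebra.adjoin_singleton_eq_range_aeval]; exact ⟨p, rfl⟩
  let f : B[X] →ₐ[B] Algebra.adjoin B {j} := (aeval j).codRestrict _ h2
  have hf : Function.Surjective f := by
    rintro ⟨x, hx⟩
    have hx' := hx
    rw [Algebra.adjoin_singleton_eq_range_aeval] at hx'
    obtain ⟨p, hp⟩ := hx'
    exact ⟨p, Subtype.ext hp⟩
  exact IsAlgebraic.of_ringHom_of_comp_eq f (RingHom.id L) (a := e) h1 hf
    Function.injective_id (by ext x <;> rfl)

/-- extension of `B → E`, `j ↦ y` to `L` algebraic over `B(j)` -/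
theorem exists_kappa {B L : Type} [Field B] [Field L] [Algebra B L] {j : L}
    (hj : Transcendental B j) (halg : ∀ x : L, IsAlgebraic (IntermediateField.adjoin B {j}) x)
    {E : Type} [Field E] [IsAlgClosed E] [Algebra B E] {y : E} (hy : Transcendental B y) :
    ∃ κ : L →+* E, κ j = y ∧ ∀ b : B, κ (algebraMap B L b) = algebraMap B E b := by
  letI : Algebra B[X] L := (aeval j : B[X] →ₐ[B] L).toRingHom.toAlgebra
  letI : Algebra B[X] E := (aeval y : B[X] →ₐ[B] E).toRingHom.toAlgebra
  haveI : FaithfulSMul B[X] L :=
    (faithfulSMul_iff_algebraMap_injective B[X] L).2 (transcendental_iff_injective.1 hj)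
  haveI : FaithfulSMul B[X] E :=
    (faithfulSMul_iff_algebraMap_injective B[X] E).2 (transcendental_iff_injective.1 hy)
  haveI : Algebra.IsAlgebraic B[X] L := ⟨fun e => isAlgebraic_poly j e (halg e)⟩
  let κ : L →ₐ[B[X]] E := IsAlgClosed.lift
  have hκ : ∀ p : B[X], κ (aeval j p) = aeval y p := fun p => κ.commutes p
  refine ⟨κ, ?_, fun b => ?_⟩
  · have := hκ X
    rwa [aeval_X, aeval_X] at this
  · have := hκ (C b)
    rwa [aeval_C, aeval_C] at this

/-- the algebraic closure of `ℂ(X)` -/
abbrev EE : Type := AlgebraicClosure (FractionRing ℂ[X])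

/-- the variable -/
noncomputable def xx : EE := algebraMap ℂ[X] EE X

theorem aeval_xx (p : ℂ[X]) : aeval xx p = algebraMap ℂ[X] EE p := by
  have : (aeval xx : ℂ[X] →ₐ[ℂ] EE) = IsScalarTower.toAlgHom ℂ ℂ[X] EE := by
    ext
    simp [xx]
  rw [this]
  rfl

theorem algebraMap_inj : Function.Injective (algebraMap ℂ[X] EE) := by
  rw [IsScalarTower.algebraMap_eq ℂ[X] (FractionRing ℂ[X]) EE]
  exact (algebraMap (FractionRing ℂ[X]) EE).injective.comp (IsFractionRing.injective _ _)

theorem transcendental_xx : Transcendental ℂ xx := by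
  rw [transcendental_iff_injective]
  intro p q h
  rw [aeval_xx, aeval_xx] at h
  exact algebraMap_inj h

theorem isAlgebraic_EE (e : EE) : IsAlgebraic (IntermediateField.adjoin ℂ {xx}) e := by
  have h1 : IsAlgebraic (FractionRing ℂ[X]) e := Algebra.IsAlgebraic.isAlgebraic e
  have h2 : IsAlgebraic ℂ[X] e :=
    (IsFractionRing.isAlgebraic_iff ℂ[X] (FractionRing ℂ[X]) EE).2 h1
  have h3 : ∀ p : ℂ[X], algebraMap ℂ[X] EE p ∈ IntermediateField.adjoin ℂ {xx} := by
    intro p
    rw [← aeval_xx]
    exact IntermediateField.algebra_adjoin_le_adjoin ℂ _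
      (by rw [Algebra.adjoin_singleton_eq_range_aeval]; exact ⟨p, rfl⟩)
  let f : ℂ[X] →+* IntermediateField.adjoin ℂ {xx} :=
    (algebraMap ℂ[X] EE).codRestrict (IntermediateField.adjoin ℂ {xx}) h3
  have hf : Function.Injective f := by
    intro p q h
    exact algebraMap_inj (congrArg Subtype.val h)
  exact h2.ringHom_of_comp_eq f (RingHom.id EE) hf (by ext <;> rfl)


/-- transporting algebraicity along an injective map of base fields -/
theorem isAlgebraic_of_map {A A' L L' : Type*} [CommRing A] [CommRing A'] [CommRing L] [CommRing L']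
    [Algebra A L] [Algebra A' L'] (f : A →+* A') (g : L →+* L') (hf : Function.Injective f)
    (h : ∀ a, algebraMap A' L' (f a) = g (algebraMap A L a)) {x : L} (hx : IsAlgebraic A x) :
    IsAlgebraic A' (g x) :=
  hx.ringHom_of_comp_eq f g hf (RingHom.ext h)

/-- two derivations along `κ` which agree on a set agree on everything algebraic over it -/
theorem compat {L E : Type} [Field L] [CharZero L] [Field E] [CharZero E] (κ : L →+* E)
    (δ : L →+ L) (hδ : ∀ a b, δ (a * b) = a * δ b + b * δ a)
    (D : E →+ E) (hD : ∀ a b, D (a * b) = a * D b + b * D a) (T : Set L)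
    (hT : ∀ x ∈ T, κ (δ x) = D (κ x)) {x : L}
    (hx : IsAlgebraic (IntermediateField.adjoin ℚ T) x) : κ (δ x) = D (κ x) := by
  letI : Module L E := Module.compHom E κ
  have hsmul : ∀ (a : L) (e : E), a • e = κ a * e := fun a e => rfl
  haveI : IsScalarTower ℚ L E := by
    refine ⟨fun q a e => ?_⟩
    rw [hsmul, hsmul, Rat.smul_def, map_mul, map_ratCast, Rat.smul_def, mul_assoc]
  let Δ : Derivation ℚ L E := Derivation.mk'
    (((κ : L →+ E).comp δ) - (D.comp (κ : L →+ E))).toRatLinearMap (by
      intro a b
      show κ (δ (a * b)) - D (κ (a * b)) = a • (κ (δ b) - D (κ b)) + b • (κ (δ a) - D (κ a))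
      rw [hδ, map_mul κ a b, hD, hsmul, hsmul, map_add, map_mul, map_mul]
      ring)
  have h := derivation_eq_zero_of_algebraic (k := ℚ) (K := L) (M := E) (S := T) Δ (by
    intro s hs
    show κ (δ s) - D (κ s) = 0
    rw [hT s hs, sub_self]) hx
  have h' : κ (δ x) - D (κ x) = 0 := h
  exact sub_eq_zero.1 h'

end Reduction

open Reduction in
/-- [RL] A finitely generated extension of `ℂ` containing a transcendental element `j` can be
mapped to the algebraic closure of `ℂ(j)`, the constants being twisted by an endomorphism `σ` of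
`ℂ`, compatibly with suitable derivations. -/
theorem reduction {K : Type} [Field K] [Algebra ℂ K] (S : Finset K) (j : K) (hj : Transcendental ℂ j)
    (hjS : j ∈ IntermediateField.adjoin ℂ (S : Set K)) :
    ∃ (E : Type) (_ : Field E) (_ : Algebra ℂ E) (σ : ℂ →+* ℂ) (δ : Derivation ℂ K K)
      (κ : IntermediateField.adjoin ℂ (S : Set K) →+* E) (D : Derivation ℂ E E),
      (∀ c : ℂ, κ (algebraMap ℂ _ c) = algebraMap ℂ E (σ c)) ∧
      Transcendental ℂ (κ ⟨j, hjS⟩) ∧ D (κ ⟨j, hjS⟩) = 1 ∧
      (∀ e : E, IsAlgebraic (IntermediateField.adjoin ℂ {κ ⟨j, hjS⟩}) e) ∧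
      (∀ e : IntermediateField.adjoin ℂ (S : Set K),
        ∃ h : δ (e : K) ∈ IntermediateField.adjoin ℂ (S : Set K), κ ⟨δ e, h⟩ = D (κ e)) := by
  classical
  set L : IntermediateField ℂ K := IntermediateField.adjoin ℂ (S : Set K) with hLdef
  let j' : L := ⟨j, hjS⟩
  haveI : CharZero K := charZero_of_injective_algebraMap (algebraMap ℂ K).injective
  haveI : CharZero L := charZero_of_injective_algebraMap (algebraMap ℂ L).injective
  have hj' : Transcendental ℂ j' :=
    (transcendental_algebraMap_iff (FaithfulSMul.algebraMap_injective L K)).1 hj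
  have hsing : AlgebraicIndepOn ℂ id ({j'} : Set L) := by
    show AlgebraicIndependent ℂ (fun i : ({j'} : Set L) => (i : L))
    exact algebraicIndependent_unique_type_iff.2 hj'
  obtain ⟨t, ht, hb⟩ := exists_isTranscendenceBasis_superset hsing
  set b : Set L := t \ {j'} with hbdef
  have htb : insert j' b = t := by
    rw [hbdef, Set.insert_diff_singleton, Set.insert_eq_of_mem (ht rfl)]
  have hjb : j' ∉ b := fun h => h.2 rfl
  have hindep : AlgebraicIndepOn ℂ id (insert j' b) := by
    rw [htb]; exact hb.1
  have htr : Transcendental (Algebra.adjoin ℂ b) j' := by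
    have := ((AlgebraicIndepOn.insert_iff hjb).1 hindep).2
    rwa [Set.image_id, id] at this
  set B : IntermediateField ℂ L := IntermediateField.adjoin ℂ b with hBdef
  have hBj : Transcendental B j' := by
    open scoped IntermediateField.algebraAdjoinAdjoin in
    exact fun h => htr ((IsFractionRing.isAlgebraic_iff (Algebra.adjoin ℂ b) B L).2 h)
  have halgt : ∀ x : L, IsAlgebraic (IntermediateField.adjoin ℂ t) x := by
    intro x
    have := hb.isAlgebraic_field
    rw [Subtype.range_coe] at this
    exact this.isAlgebraic x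
  -- `L` is algebraic over `B(j)`
  have halgL : ∀ x : L, IsAlgebraic (IntermediateField.adjoin B {j'}) x := by
    intro x
    have hle : IntermediateField.adjoin ℂ t ≤
        (IntermediateField.adjoin B {j'}).restrictScalars ℂ := by
      rw [IntermediateField.adjoin_le_iff, ← htb]
      rintro y (rfl | hy)
      · exact IntermediateField.mem_adjoin_simple_self B _
      · have : y ∈ B := IntermediateField.subset_adjoin ℂ b hy
        exact IntermediateField.algebraMap_mem (IntermediateField.adjoin B {j'}) (⟨y, this⟩ : B)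
    let f : IntermediateField.adjoin ℂ t →+* IntermediateField.adjoin B {j'} :=
      ((IntermediateField.adjoin ℂ t).val : _ →+* L).codRestrict
        (IntermediateField.adjoin B {j'}) (fun y => hle y.2)
    exact isAlgebraic_of_map f (RingHom.id L) (RingHom.injective _) (fun a => rfl) (halgt x)
  -- the embedding of `B` in `ℂ`
  have hcard : #B = #ℂ := by
    apply le_antisymm
    · have h1 : #B ≤ #L := Cardinal.mk_le_of_injective Subtype.val_injective
      have h2 : #L ≤ #ℂ ⊔ #(S : Set K) ⊔ ℵ₀ := IntermediateField.cardinalMk_adjoin_le ℂ _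
      refine h1.trans (h2.trans ?_)
      have h3 : ℵ₀ ≤ #ℂ := by rw [Cardinal.mk_complex]; exact Cardinal.aleph0_le_continuum
      have h4 : #(S : Set K) ≤ #ℂ := by
        refine le_trans ?_ h3
        exact (Cardinal.lt_aleph0_of_finite _).le
      exact sup_le (sup_le le_rfl h4) h3
    · exact Cardinal.mk_le_of_injective (algebraMap ℂ B).injective
  haveI : CharZero B := charZero_of_injective_algebraMap (algebraMap ℂ B).injective
  obtain ⟨σB⟩ := exists_embedding hcard
  letI : Algebra B EE := ((algebraMap ℂ EE).comp σB).toAlgebra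
  have hxB : Transcendental B xx := by
    intro h
    exact transcendental_xx (isAlgebraic_of_map σB (RingHom.id EE) σB.injective (fun a => rfl) h)
  obtain ⟨κ, hκj, hκB⟩ := exists_kappa hBj halgL hxB
  have hκB' : ∀ y : B, κ (y : L) = algebraMap ℂ EE (σB y) := hκB
  -- the derivation of `EE`
  haveI : CharZero EE := charZero_of_injective_algebraMap (algebraMap ℂ EE).injective
  obtain ⟨D₀, hD₀⟩ := exists_derivation_ne_zero (k := ℂ) (K := EE) transcendental_xx
  let D : Derivation ℂ EE EE := (D₀ xx)⁻¹ • D₀
  have hDx : D xx = 1 := by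
    show (D₀ xx)⁻¹ • D₀ xx = 1
    rw [smul_eq_mul, inv_mul_cancel₀ hD₀]
  -- the derivation of `K`
  have hjK : Transcendental (IntermediateField.adjoin ℂ (L.val '' b)) j := by
    intro h
    apply hBj
    have hmem : ∀ y : B, L.val (y : L) ∈ IntermediateField.adjoin ℂ (L.val '' b) := by
      intro y
      rw [← IntermediateField.adjoin_map]
      exact ⟨y, y.2, rfl⟩
    let f : B →+* IntermediateField.adjoin ℂ (L.val '' b) :=
      ((L.val : L →+* K).comp (B.val : B →+* L)).codRestrict
        (IntermediateField.adjoin ℂ (L.val '' b)) hmem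
    have hf : Function.Surjective f := by
      rintro ⟨y, hy⟩
      have hy' := hy
      rw [← IntermediateField.adjoin_map] at hy'
      obtain ⟨z, hz, hzy⟩ := hy'
      exact ⟨⟨z, hz⟩, Subtype.ext hzy⟩
    exact IsAlgebraic.of_ringHom_of_comp_eq f (L.val : L →+* K) (a := j') h hf
      (RingHom.injective _) (by ext <;> rfl)
  obtain ⟨δ, hδj, hδb⟩ := exists_derivation_eq_one (k := ℂ) (K := K) hjK
  have hδL : ∀ x ∈ L, δ x ∈ L := by
    intro x hx
    have hFst : ∀ y ∈ IntermediateField.adjoin ℂ (insert j (L.val '' b)),
        δ y ∈ IntermediateField.adjoin ℂ (insert j (L.val '' b)) := by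
      intro y hy
      induction hy using IntermediateField.adjoin_induction with
      | mem z hz =>
        rcases hz with rfl | hz
        · rw [hδj]; exact one_mem _
        · rw [hδb z hz]; exact zero_mem _
      | algebraMap c => rw [Derivation.map_algebraMap]; exact zero_mem _
      | add u v hu hv hu' hv' => rw [map_add]; exact add_mem hu' hv'
      | inv u hu hu' =>
        rw [Derivation.leibniz_inv]
        exact mul_mem (neg_mem (pow_mem (inv_mem hu) 2)) hu'
      | mul u v hu hv hu' hv' =>
        rw [Derivation.leibniz]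
        exact add_mem (mul_mem hu hv') (mul_mem hv hu')
    have hFL : IntermediateField.adjoin ℂ (insert j (L.val '' b)) ≤ L := by
      rw [IntermediateField.adjoin_le_iff]
      rintro y (rfl | ⟨z, hz, rfl⟩)
      · exact hjS
      · exact z.2
    refine derivation_mem_of_algebraic δ _ hFst L hFL hx ?_
    have hmem : ∀ y : IntermediateField.adjoin ℂ t, L.val (y : L) ∈
        IntermediateField.adjoin ℂ (insert j (L.val '' b)) := by
      intro y
      have h1 : insert j (L.val '' b) = L.val '' t := by
        rw [← htb, Set.image_insert_eq]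
        rfl
      rw [h1, ← IntermediateField.adjoin_map]
      exact ⟨y, y.2, rfl⟩
    let f : IntermediateField.adjoin ℂ t →+* IntermediateField.adjoin ℂ (insert j (L.val '' b)) :=
      ((L.val : L →+* K).comp ((IntermediateField.adjoin ℂ t).val : _ →+* L)).codRestrict
        (IntermediateField.adjoin ℂ (insert j (L.val '' b))) hmem
    exact isAlgebraic_of_map f (L.val : L →+* K) (RingHom.injective _) (fun a => rfl)
      (halgt ⟨x, hx⟩)
  refine ⟨EE, inferInstance, inferInstance, σB.comp (algebraMap ℂ B), δ, κ, D, ?_, ?_, ?_, ?_, ?_⟩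
  · intro c
    exact hκB' (algebraMap ℂ B c)
  · show Transcendental ℂ (κ j')
    rw [hκj]
    exact transcendental_xx
  · show D (κ j') = 1
    rw [hκj]
    exact hDx
  · show ∀ e : EE, IsAlgebraic (IntermediateField.adjoin ℂ {κ j'}) e
    rw [hκj]
    exact isAlgebraic_EE
  · intro e
    refine ⟨hδL e e.2, ?_⟩
    let δL : L →+ L :=
      { toFun := fun x => ⟨δ x, hδL x x.2⟩
        map_zero' := Subtype.ext (by simp)
        map_add' := fun a c => Subtype.ext (by simp) }
    have hδLmul : ∀ a c, δL (a * c) = a * δL c + c * δL a := by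
      intro a c
      apply Subtype.ext
      show δ ((a : K) * c) = a * δ c + c * δ a
      rw [Derivation.leibniz]
      rfl
    let DA : EE →+ EE := (D : EE →ₗ[ℂ] EE).toAddMonoidHom
    have hDA : ∀ a c, DA (a * c) = a * DA c + c * DA a := by
      intro a c
      show D (a * c) = a * D c + c * D a
      rw [Derivation.leibniz]
      rfl
    refine compat κ δL hδLmul DA hDA ((B : Set L) ∪ {j'}) ?_ ?_
    · rintro y (hy | rfl)
      · have h1 : δ (y : K) = 0 := by
          refine derivation_eq_zero_of_algebraic (k := ℂ) (S := L.val '' b) δ hδb ?_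
          have h2 : (y : K) ∈ IntermediateField.adjoin ℂ (L.val '' b) := by
            rw [← IntermediateField.adjoin_map]
            exact ⟨y, hy, rfl⟩
          exact isAlgebraic_algebraMap (⟨(y : K), h2⟩ : IntermediateField.adjoin ℂ (L.val '' b))
        have h3 : δL y = 0 := Subtype.ext h1
        rw [h3, map_zero]
        show 0 = D (κ y)
        rw [hκB' ⟨y, hy⟩, Derivation.map_algebraMap]
      · have h1 : δL j' = 1 := Subtype.ext hδj
        rw [h1, map_one]
        show 1 = D (κ j')
        rw [hκj, hDx]
    · have hle : ∀ y : IntermediateField.adjoin ℂ t, (y : L) ∈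
          IntermediateField.adjoin ℚ ((B : Set L) ∪ {j'}) := by
        rintro ⟨y, hy⟩
        show y ∈ _
        induction hy using IntermediateField.adjoin_induction with
        | mem z hz =>
          apply IntermediateField.subset_adjoin
          rw [← htb] at hz
          rcases hz with rfl | hz
          · exact Or.inr rfl
          · exact Or.inl (IntermediateField.subset_adjoin ℂ b hz)
        | algebraMap c =>
          apply IntermediateField.subset_adjoin
          exact Or.inl (B.algebraMap_mem c)
        | add u v hu hv hu' hv' => exact add_mem hu' hv'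
        | inv u hu hu' => exact inv_mem hu'
        | mul u v hu hv hu' hv' => exact mul_mem hu' hv'
      let f : IntermediateField.adjoin ℂ t →+* IntermediateField.adjoin ℚ ((B : Set L) ∪ {j'}) :=
        ((IntermediateField.adjoin ℂ t).val : _ →+* L).codRestrict
          (IntermediateField.adjoin ℚ ((B : Set L) ∪ {j'})) hle
      exact isAlgebraic_of_map f (RingHom.id L) (RingHom.injective _) (fun a => rfl) (halgt e)

end Pool.Agent.EllSch
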