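import Pool.Agent.EllSch.T5E
import Pool.Agent.EllSch.PtMap
import Pool.Agent.EllSch.Reduction

/-! # [T5K] The theorem of the kernel over an arbitrary field extension of `ℂ` -/

namespace Pool.Agent.EllSch

namespace T5K

section
variable {K : Type} [Field K] [Algebra ℂ K] {g2 g3 : K}

theorem g2_ne_zero (hβ : ∃ δ : Derivation ℂ K K, be g2 g3 δ ≠ 0) : g2 ≠ 0 := by
  rintro rfl
  obtain ⟨δ, h⟩ := hβ
  apply h
  simp [be]

theorem g3_ne_zero (hβ : ∃ δ : Derivation ℂ K K, be g2 g3 δ ≠ 0) : g3 ≠ 0 := by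
  rintro rfl
  obtain ⟨δ, h⟩ := hβ
  apply h
  simp [be]

theorem der_j [CharZero K] (hΔ : g2 ^ 3 - 27 * g3 ^ 2 ≠ 0) (δ : Derivation ℂ K K) :
    δ (1728 * g2 ^ 3 / (g2 ^ 3 - 27 * g3 ^ 2)) =
      -(1728 * 18) * be g2 g3 δ * g2 ^ 2 * g3 / (g2 ^ 3 - 27 * g3 ^ 2) := by
  have h1728 : δ (1728 : K) = 0 := by simpa using δ.map_natCast 1728
  rw [div_eq_mul_inv, Derivation.leibniz, Derivation.leibniz_inv, Derivation.leibniz, h1728,
    der_disc, Derivation.leibniz_pow, der_g2 hΔ δ, der_g3 hΔ δ]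
  simp only [smul_eq_mul, nsmul_eq_mul]
  field_simp
  push_cast
  ring

theorem transcendental_j (hΔ : g2 ^ 3 - 27 * g3 ^ 2 ≠ 0)
    (hβ : ∃ δ : Derivation ℂ K K, be g2 g3 δ ≠ 0) :
    Transcendental ℂ (1728 * g2 ^ 3 / (g2 ^ 3 - 27 * g3 ^ 2)) := by
  haveI : CharZero K := charZero_of_injective_algebraMap (algebraMap ℂ K).injective
  intro halg
  obtain ⟨δ, hδ⟩ := hβ
  have h0 : δ (1728 * g2 ^ 3 / (g2 ^ 3 - 27 * g3 ^ 2)) = 0 :=
    derivation_eq_zero_of_algebraic (S := ∅) δ (by simp) (halg.tower_top _)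
  rw [der_j hΔ] at h0
  have h2 := g2_ne_zero ⟨δ, hδ⟩
  have h3 := g3_ne_zero ⟨δ, hδ⟩
  have h4 : -(1728 * 18) * be g2 g3 δ * g2 ^ 2 * g3 / (g2 ^ 3 - 27 * g3 ^ 2) ≠ 0 := by
    refine div_ne_zero (mul_ne_zero (mul_ne_zero (mul_ne_zero ?_ hδ) (pow_ne_zero _ h2)) h3) hΔ
    norm_num
  exact h4 h0

/-- transport of `al`, `be`, `ga` -/
theorem transport {E : Type} [Field E] [Algebra ℂ E] {L : IntermediateField ℂ K}
    {δ : Derivation ℂ K K} {κ : L →+* E} {D : Derivation ℂ E E}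
    (hcomp : ∀ e : L, ∃ h : δ (e : K) ∈ L, κ ⟨δ e, h⟩ = D (κ e)) (g2 g3 : L) :
    (∃ a : L, (a : K) = al (g2 : K) (g3 : K) δ ∧ κ a = al (κ g2) (κ g3) D) ∧
    (∃ b : L, (b : K) = be (g2 : K) (g3 : K) δ ∧ κ b = be (κ g2) (κ g3) D) ∧
    (∀ x y : L, ∃ b : L, (b : K) = ga (g2 : K) (g3 : K) (x : K) (y : K) δ ∧
      κ b = ga (κ g2) (κ g3) (κ x) (κ y) D) := by
  choose h hκ using hcomp
  let dL : L → L := fun e => ⟨δ e, h e⟩
  have hd : ∀ e, κ (dL e) = D (κ e) := hκ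
  have hc : ∀ e, ((dL e : L) : K) = δ e := fun e => rfl
  have hal : (((-dL (g2 ^ 3 - 27 * g3 ^ 2) / (12 * (g2 ^ 3 - 27 * g3 ^ 2)) : L)) : K) =
      al (g2 : K) (g3 : K) δ ∧
      κ (-dL (g2 ^ 3 - 27 * g3 ^ 2) / (12 * (g2 ^ 3 - 27 * g3 ^ 2))) = al (κ g2) (κ g3) D := by
    constructor
    · simp only [al]
      push_cast [hc]
      rfl
    · simp only [al, map_div₀, map_neg, hd, map_mul, map_sub, map_pow, map_ofNat]
  have hbe : (((3 / 2 * (3 * g3 * dL g2 - 2 * g2 * dL g3) / (g2 ^ 3 - 27 * g3 ^ 2) : L)) : K) =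
      be (g2 : K) (g3 : K) δ ∧
      κ (3 / 2 * (3 * g3 * dL g2 - 2 * g2 * dL g3) / (g2 ^ 3 - 27 * g3 ^ 2)) =
        be (κ g2) (κ g3) D := by
    constructor
    · simp only [be]
      push_cast [hc]
      rfl
    · simp only [be, map_div₀, hd, map_mul, map_sub, map_pow, map_ofNat]
  refine ⟨⟨_, hal⟩, ⟨_, hbe⟩, fun x y => ?_⟩
  refine ⟨(dL x + 2 * (-dL (g2 ^ 3 - 27 * g3 ^ 2) / (12 * (g2 ^ 3 - 27 * g3 ^ 2))) * x +
    2 * (3 / 2 * (3 * g3 * dL g2 - 2 * g2 * dL g3) / (g2 ^ 3 - 27 * g3 ^ 2)) * x ^ 2 -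
    (3 / 2 * (3 * g3 * dL g2 - 2 * g2 * dL g3) / (g2 ^ 3 - 27 * g3 ^ 2)) * g2 / 3) / y, ?_, ?_⟩
  · simp only [ga, ← hal.1, ← hbe.1]
    push_cast [hc]
    rfl
  · simp only [ga, ← hal.2, ← hbe.2, ← hd]
    simp only [map_div₀, map_mul, map_sub, map_add, map_pow, map_ofNat]

end

end T5K

section
variable {K : Type} [Field K] [Algebra ℂ K] {g2 g3 : K}

/-- the Riccati equation attached to a non-isotrivial elliptic curve has no solution -/
theorem no_riccati (hΔ : g2 ^ 3 - 27 * g3 ^ 2 ≠ 0) (hβ : ∃ δ : Derivation ℂ K K, be g2 g3 δ ≠ 0)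
    (ρ : K) (h : ∀ δ : Derivation ℂ K K, δ ρ = -(be g2 g3 δ * (g2 / 12))
      - 2 * al g2 g3 δ * ρ - be g2 g3 δ * ρ ^ 2) : False := by
  classical
  let S : Finset K := {g2, g3, ρ}
  have hg2 : g2 ∈ IntermediateField.adjoin ℂ (S : Set K) :=
    IntermediateField.subset_adjoin _ _ (by simp [S])
  have hg3 : g3 ∈ IntermediateField.adjoin ℂ (S : Set K) :=
    IntermediateField.subset_adjoin _ _ (by simp [S])
  have hρ : ρ ∈ IntermediateField.adjoin ℂ (S : Set K) :=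
    IntermediateField.subset_adjoin _ _ (by simp [S])
  let G2' : IntermediateField.adjoin ℂ (S : Set K) := ⟨g2, hg2⟩
  let G3' : IntermediateField.adjoin ℂ (S : Set K) := ⟨g3, hg3⟩
  let P : IntermediateField.adjoin ℂ (S : Set K) := ⟨ρ, hρ⟩
  have hj : 1728 * g2 ^ 3 / (g2 ^ 3 - 27 * g3 ^ 2) ∈ IntermediateField.adjoin ℂ (S : Set K) :=
    (1728 * G2' ^ 3 / (G2' ^ 3 - 27 * G3' ^ 2)).2
  obtain ⟨E, _, _, σ, δ, κ, D, hσ, htr, hD1, halg, hcomp⟩ :=
    reduction S _ (T5K.transcendental_j hΔ hβ) hj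
  obtain ⟨⟨a, ha, ha'⟩, ⟨b, hb, hb'⟩, -⟩ := T5K.transport hcomp G2' G3'
  obtain ⟨hδρ, hκρ⟩ := hcomp P
  have hjj : κ ⟨_, hj⟩ = 1728 * κ G2' ^ 3 / (κ G2' ^ 3 - 27 * κ G3' ^ 2) := by
    have : (⟨_, hj⟩ : IntermediateField.adjoin ℂ (S : Set K)) =
        1728 * G2' ^ 3 / (G2' ^ 3 - 27 * G3' ^ 2) := rfl
    rw [this]
    simp only [map_div₀, map_mul, map_sub, map_pow, map_ofNat]
  have hΔ' : κ G2' ^ 3 - 27 * κ G3' ^ 2 ≠ 0 := by
    have h1 : G2' ^ 3 - 27 * G3' ^ 2 ≠ 0 := fun h0 => hΔ (congrArg Subtype.val h0)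
    have h2 := (map_ne_zero κ).2 h1
    simpa only [map_mul, map_sub, map_pow, map_ofNat] using h2
  refine no_riccati_E D _ htr hD1 halg hΔ' hjj (κ P) ?_
  rw [← hκρ, ← ha', ← hb']
  have h1 : (⟨δ P, hδρ⟩ : IntermediateField.adjoin ℂ (S : Set K)) =
      -(b * (G2' / 12)) - 2 * a * P - b * P ^ 2 := by
    apply Subtype.ext
    push_cast
    rw [ha, hb]
    exact h δ
  rw [h1]
  simp only [map_neg, map_div₀, map_mul, map_sub, map_pow, map_ofNat]

/-- theorem of the kernel, with complex coefficients -/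
theorem manin_kernel [DecidableEq K] (hΔ : g2 ^ 3 - 27 * g3 ^ 2 ≠ 0)
    (hβ : ∃ δ : Derivation ℂ K K, be g2 g3 δ ≠ 0) {r : ℕ} (x y : Fin r → K) (hy : ∀ i, y i ≠ 0)
    (hxy : ∀ i, y i ^ 2 = 4 * x i ^ 3 - g2 * x i - g3) (c : Fin r → ℂ) (hc : c ≠ 0) (u : K × K)
    (h : ∀ δ : Derivation ℂ K K, nab g2 g3 δ u =
      ∑ i, algebraMap ℂ K (c i) • src g2 g3 (x i) (y i) δ) :
    ∃ m : Fin r → ℤ, m ≠ 0 ∧ ∑ i, m i • pt g2 g3 (x i) (y i) = 0 := by
  haveI : CharZero K := charZero_of_injective_algebraMap (algebraMap ℂ K).injective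
  let S : Finset K := {g2, g3, u.1, u.2} ∪ Finset.univ.image x ∪ Finset.univ.image y
  have hg2 : g2 ∈ IntermediateField.adjoin ℂ (S : Set K) :=
    IntermediateField.subset_adjoin _ _ (by simp [S])
  have hg3 : g3 ∈ IntermediateField.adjoin ℂ (S : Set K) :=
    IntermediateField.subset_adjoin _ _ (by simp [S])
  have hu1 : u.1 ∈ IntermediateField.adjoin ℂ (S : Set K) :=
    IntermediateField.subset_adjoin _ _ (by simp [S])
  have hu2 : u.2 ∈ IntermediateField.adjoin ℂ (S : Set K) :=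
    IntermediateField.subset_adjoin _ _ (by simp [S])
  have hx : ∀ i, x i ∈ IntermediateField.adjoin ℂ (S : Set K) := fun i =>
    IntermediateField.subset_adjoin _ _ (by simp [S])
  have hy' : ∀ i, y i ∈ IntermediateField.adjoin ℂ (S : Set K) := fun i =>
    IntermediateField.subset_adjoin _ _ (by simp [S])
  let G2' : IntermediateField.adjoin ℂ (S : Set K) := ⟨g2, hg2⟩
  let G3' : IntermediateField.adjoin ℂ (S : Set K) := ⟨g3, hg3⟩
  let U1 : IntermediateField.adjoin ℂ (S : Set K) := ⟨u.1, hu1⟩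
  let U2 : IntermediateField.adjoin ℂ (S : Set K) := ⟨u.2, hu2⟩
  let X : Fin r → IntermediateField.adjoin ℂ (S : Set K) := fun i => ⟨x i, hx i⟩
  let Y : Fin r → IntermediateField.adjoin ℂ (S : Set K) := fun i => ⟨y i, hy' i⟩
  have hj : 1728 * g2 ^ 3 / (g2 ^ 3 - 27 * g3 ^ 2) ∈ IntermediateField.adjoin ℂ (S : Set K) :=
    (1728 * G2' ^ 3 / (G2' ^ 3 - 27 * G3' ^ 2)).2
  obtain ⟨E, _, _, σ, δ, κ, D, hσ, htr, hD1, halg, hcomp⟩ :=
    reduction S _ (T5K.transcendental_j hΔ hβ) hj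
  obtain ⟨⟨a, ha, ha'⟩, ⟨b, hb, hb'⟩, hga⟩ := T5K.transport hcomp G2' G3'
  choose g hg hg' using fun i => hga (X i) (Y i)
  obtain ⟨hd1, hk1⟩ := hcomp U1
  obtain ⟨hd2, hk2⟩ := hcomp U2
  have hjj : κ ⟨_, hj⟩ = 1728 * κ G2' ^ 3 / (κ G2' ^ 3 - 27 * κ G3' ^ 2) := by
    have : (⟨_, hj⟩ : IntermediateField.adjoin ℂ (S : Set K)) =
        1728 * G2' ^ 3 / (G2' ^ 3 - 27 * G3' ^ 2) := rfl
    rw [this]
    simp only [map_div₀, map_mul, map_sub, map_pow, map_ofNat]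
  have hΔL : G2' ^ 3 - 27 * G3' ^ 2 ≠ 0 := fun h0 => hΔ (congrArg Subtype.val h0)
  have hΔ' : κ G2' ^ 3 - 27 * κ G3' ^ 2 ≠ 0 := by
    have h2 := (map_ne_zero κ).2 hΔL
    simpa only [map_mul, map_sub, map_pow, map_ofNat] using h2
  have hxyL : ∀ i, Y i ^ 2 = 4 * X i ^ 3 - G2' * X i - G3' := fun i => Subtype.ext (hxy i)
  have hxy' : ∀ i, κ (Y i) ^ 2 = 4 * κ (X i) ^ 3 - κ G2' * κ (X i) - κ G3' := by
    intro i
    have h2 := congrArg κ (hxyL i)
    simpa only [map_mul, map_sub, map_pow, map_ofNat] using h2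
  have hyκ : ∀ i, κ (Y i) ≠ 0 := fun i =>
    (map_ne_zero κ).2 fun h0 => hy i (congrArg Subtype.val h0)
  have hcσ : (fun i => σ (c i)) ≠ 0 := by
    intro h0
    apply hc
    funext i
    have := congrFun h0 i
    simp only [Pi.zero_apply] at this
    exact (map_eq_zero σ).1 this
  have h' := h δ
  classical
  letI : DecidableEq E := Classical.decEq E
  letI : DecidableEq (IntermediateField.adjoin ℂ (S : Set K)) := Classical.decEq _
  haveI : CharZero E := charZero_of_injective_algebraMap (algebraMap ℂ E).injective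
  haveI : CharZero (IntermediateField.adjoin ℂ (S : Set K)) :=
    charZero_of_injective_algebraMap (algebraMap ℂ _).injective
  obtain ⟨m, hm, hsum⟩ := manin_kernel_E D _ htr hD1 halg hΔ' hjj (fun i => κ (X i))
    (fun i => κ (Y i)) hyκ hxy' (fun i => σ (c i)) hcσ (κ U1, κ U2) (by
      have e1 := congrArg Prod.fst h'
      have e2 := congrArg Prod.snd h'
      simp only [nab, src, Prod.fst_sum, Prod.snd_sum, Prod.smul_mk, smul_eq_mul] at e1 e2
      ext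
      · simp only [nab, src, Prod.fst_sum, Prod.smul_mk, smul_eq_mul]
        rw [← hk1, ← ha', ← hb']
        simp only [← hg', ← hσ]
        have h1 : (⟨δ U1, hd1⟩ : IntermediateField.adjoin ℂ (S : Set K)) - (a * U1 + b * U2) =
            ∑ i, algebraMap ℂ _ (c i) * g i := by
          apply Subtype.ext
          push_cast
          rw [ha, hb]
          simp only [hg]
          exact e1
        have h2 := congrArg κ h1
        simpa only [map_sub, map_add, map_mul, map_sum] using h2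
      · simp only [nab, src, Prod.snd_sum, Prod.smul_mk, smul_eq_mul]
        rw [← hk2, ← ha', ← hb']
        simp only [← hg', ← hσ]
        have h1 : (⟨δ U2, hd2⟩ : IntermediateField.adjoin ℂ (S : Set K)) +
            (b * (G2' / 12) * U1 + a * U2) =
            ∑ i, algebraMap ℂ _ (c i) * (b * Y i / 2 - g i * X i) := by
          apply Subtype.ext
          push_cast
          rw [ha, hb]
          simp only [hg]
          exact e2
        have h2 := congrArg κ h1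
        simpa only [map_sub, map_add, map_mul, map_sum, map_div₀, map_ofNat] using h2)
  refine ⟨m, hm, ?_⟩
  have h3 := (sum_pt_map κ hΔL X Y hxyL m).1 hsum
  exact (sum_pt_map (algebraMap (IntermediateField.adjoin ℂ (S : Set K)) K) hΔL X Y hxyL m).2 h3

end

end Pool.Agent.EllSch
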