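import Pool.Agent.EllSch.Ax
import Pool.Agent.EllSch.T5K
import Pool.Agent.EllSch.FieldThy

/-! # [FA] The transcendence degree bound over a differential field -/

namespace Pool.Agent.EllSch

namespace AxCount

section
variable {C K : Type*} [Field C] [Field K] [Algebra C K] [CharZero K] {r : ℕ}

/-- a derivation which kills all the data has vanishing logarithmic differential -/
theorem Th_eq_zero (A : AxData C K r) (δ : Derivation C K K) (hg2 : δ A.g2 = 0)
    (hg3 : δ A.g3 = 0) (hw1 : δ A.w1 = 0) (hw2 : δ A.w2 = 0) (he1 : δ A.e1 = 0)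
    (he2 : δ A.e2 = 0) (hx : ∀ i, δ (A.x i) = 0) (hp : ∀ i, δ (A.p i) = 0)
    (hz : ∀ i, δ (A.z i) = 0) : A.Th δ = 0 := by
  have hb : be A.g2 A.g3 δ = 0 := by simp [be, hg2, hg3]
  have ha : al A.g2 A.g3 δ = 0 := by simp [al, der_disc, hg2, hg3]
  have hg : ∀ i, ga A.g2 A.g3 (A.x i) (A.y i) δ = 0 := fun i => by simp [ga, ha, hb, hx]
  have e1 : A.R1 δ = 0 := by
    ext <;> simp [AxData.R1, nab, ha, hb, hw1, he1]
  have e2 : A.R2 δ = 0 := by
    ext <;> simp [AxData.R2, nab, ha, hb, hw2, he2]
  have e3 : ∀ i, A.Q i δ = 0 := by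
    intro i
    ext <;> simp [AxData.Q, nab, src, ha, hb, hg, hp, hz]
  have e4 : A.Wi 0 = 0 := by ext <;> simp [AxData.Wi]
  apply ext_L <;> intros <;>
    simp only [AxData.Th, lA_mkL, lB_mkL, lC_mkL, lU_mkL, lV_mkL, lA_zero, lB_zero, lC_zero,
      lU_zero, lV_zero, e1, e2, e3, e4, Prod.fst_zero, Prod.snd_zero]

/-- evaluation of derivations at finitely many points -/
def ev {d : ℕ} (t : Fin d → K) : Derivation C K K →ₗ[K] (Fin d → K) where
  toFun δ := fun i => δ (t i)
  map_add' _ _ := rfl
  map_smul' _ _ := rfl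

/-- the counting step: surjectivity of the logarithmic differential forces `2 r + 4 ≤ d` -/
theorem count (A : AxData C K r) (hs : Function.Surjective A.ThL) {d : ℕ} (t : Fin d → K)
    (hk : ∀ δ : Derivation C K K, (∀ i, δ (t i) = 0) → δ A.g2 = 0 ∧ δ A.g3 = 0 ∧ A.Th δ = 0) :
    2 * r + 4 ≤ d := by
  classical
  by_contra hlt
  push Not at hlt
  choose f hf using fun k : LIx r => hs (Pi.single k 1)
  let F : Option (LIx r) → Derivation C K K := fun o => o.elim A.D f
  have hcard : Fintype.card (Option (LIx r)) = 2 * r + 4 := by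
    simp [LIx]
    ring
  have hdep : ¬ LinearIndependent K (fun o => ev t (F o)) := by
    intro hli
    have := hli.fintype_card_le_finrank
    rw [hcard, Module.finrank_fin_fun] at this
    omega
  obtain ⟨g, hg, o, ho⟩ := Fintype.not_linearIndependent_iff.1 hdep
  set δ : Derivation C K K := ∑ o, g o • F o with hδ
  have hev : ev t δ = 0 := by
    rw [hδ, map_sum, ← hg]
    exact Finset.sum_congr rfl fun o _ => by rw [map_smul]
  obtain ⟨k2, k3, kT⟩ := hk δ fun i => congrFun hev i
  have hTh : A.ThL δ = fun k => g (some k) := by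
    rw [hδ, map_sum, Fintype.sum_option, map_smul]
    have h0 : A.ThL (F none) = 0 := A.Th_D
    rw [h0, smul_zero, zero_add]
    funext k
    rw [Finset.sum_apply]
    have : ∀ j : LIx r, A.ThL (g (some j) • F (some j)) k = if j = k then g (some j) else 0 := by
      intro j
      rw [map_smul]
      have h1 : A.ThL (F (some j)) = Pi.single j 1 := hf j
      rw [h1, Pi.smul_apply, Pi.single_apply]
      by_cases hjk : k = j
      · subst hjk; simp
      · simp [hjk, Ne.symm hjk]
    simp only [this]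
    simp
  have hz : ∀ k, g (some k) = 0 := by
    intro k
    have h1 : A.ThL δ = 0 := kT
    rw [hTh] at h1
    exact congrFun h1 k
  have hδ' : δ = g none • A.D := by
    rw [hδ, Fintype.sum_option]
    simp only [hz, zero_smul, Finset.sum_const_zero, add_zero]
    rfl
  have hn : g none ≠ 0 := by
    rcases o with _ | k
    · exact ho
    · exact absurd (hz k) ho
  apply A.hβ
  have hb : be A.g2 A.g3 δ = 0 := by simp [be, k2, k3]
  rw [hδ', be_smul] at hb
  exact (mul_eq_zero.1 hb).resolve_left hn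

end

end AxCount

/-- If the points are linearly independent over `ℤ` then every family `t` over which all the data
are algebraic has at least `2 r + 4` elements. -/
theorem ax_count {K : Type} [Field K] [Algebra ℂ K] [DecidableEq K] {r : ℕ} (A : AxData ℂ K r)
    (hind : ∀ m : Fin r → ℤ, m ≠ 0 → ∑ i, m i • pt A.g2 A.g3 (A.x i) (A.y i) ≠ 0)
    {d : ℕ} (t : Fin d → K)
    (hg2 : IsAlgebraic (IntermediateField.adjoin ℂ (Set.range t)) A.g2)
    (hg3 : IsAlgebraic (IntermediateField.adjoin ℂ (Set.range t)) A.g3)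
    (hw1 : IsAlgebraic (IntermediateField.adjoin ℂ (Set.range t)) A.w1)
    (hw2 : IsAlgebraic (IntermediateField.adjoin ℂ (Set.range t)) A.w2)
    (he1 : IsAlgebraic (IntermediateField.adjoin ℂ (Set.range t)) A.e1)
    (he2 : IsAlgebraic (IntermediateField.adjoin ℂ (Set.range t)) A.e2)
    (hx : ∀ i, IsAlgebraic (IntermediateField.adjoin ℂ (Set.range t)) (A.x i))
    (hp : ∀ i, IsAlgebraic (IntermediateField.adjoin ℂ (Set.range t)) (A.p i))
    (hz : ∀ i, IsAlgebraic (IntermediateField.adjoin ℂ (Set.range t)) (A.z i)) :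
    2 * r + 4 ≤ d := by
  haveI : CharZero K := charZero_of_injective_algebraMap (algebraMap ℂ K).injective
  rcases A.trichotomy with hs | ⟨ρ, hρ⟩ | ⟨c, hc, u, hu⟩
  · refine AxCount.count A hs t fun δ hδ => ?_
    have key : ∀ {e : K}, IsAlgebraic (IntermediateField.adjoin ℂ (Set.range t)) e → δ e = 0 :=
      fun he => derivation_eq_zero_of_algebraic δ (by rintro _ ⟨i, rfl⟩; exact hδ i) he
    exact ⟨key hg2, key hg3, AxCount.Th_eq_zero A δ (key hg2) (key hg3) (key hw1) (key hw2)
      (key he1) (key he2) (fun i => key (hx i)) (fun i => key (hp i)) (fun i => key (hz i))⟩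
  · exact (no_riccati A.hΔ ⟨A.D, A.hβ⟩ ρ hρ).elim
  · obtain ⟨m, hm, h⟩ := manin_kernel A.hΔ ⟨A.D, A.hβ⟩ A.x A.y A.hy A.hxy c hc u hu
    exact (hind m hm h).elim

end Pool.Agent.EllSch
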