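import Pool.Agent.EllSch.Defs

/-! # [AX] Flatness of the connection attached to a family of elliptic curves -/

namespace Pool.Agent.EllSch

section

variable {C K : Type*} [Field C] [Field K] [Algebra C K] [CharZero K]

section
variable {g2 g3 : K}

theorem al_add (δ δ' : Derivation C K K) : al g2 g3 (δ + δ') = al g2 g3 δ + al g2 g3 δ' := by
  simp only [al, Derivation.add_apply]; ring

theorem al_smul (k : K) (δ : Derivation C K K) : al g2 g3 (k • δ) = k * al g2 g3 δ := by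
  simp only [al, Derivation.smul_apply, smul_eq_mul]; ring

theorem be_add (δ δ' : Derivation C K K) : be g2 g3 (δ + δ') = be g2 g3 δ + be g2 g3 δ' := by
  simp only [be, Derivation.add_apply]; ring

theorem be_smul (k : K) (δ : Derivation C K K) : be g2 g3 (k • δ) = k * be g2 g3 δ := by
  simp only [be, Derivation.smul_apply, smul_eq_mul]; ring

theorem ga_add (x y : K) (δ δ' : Derivation C K K) :
    ga g2 g3 x y (δ + δ') = ga g2 g3 x y δ + ga g2 g3 x y δ' := by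
  simp only [ga, al_add, be_add, Derivation.add_apply]; ring

theorem ga_smul (x y : K) (k : K) (δ : Derivation C K K) :
    ga g2 g3 x y (k • δ) = k * ga g2 g3 x y δ := by
  simp only [ga, al_smul, be_smul, Derivation.smul_apply, smul_eq_mul]; ring

theorem der_disc (δ : Derivation C K K) :
    δ (g2 ^ 3 - 27 * g3 ^ 2) = 3 * g2 ^ 2 * δ g2 - 54 * g3 * δ g3 := by
  have h27 : δ (27 : K) = 0 := by
    have := δ.map_natCast 27
    simpa using this
  rw [map_sub, Derivation.leibniz, h27, Derivation.leibniz_pow, Derivation.leibniz_pow]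
  simp only [smul_eq_mul, nsmul_eq_mul, Nat.add_one_sub_one, pow_one]
  push_cast
  ring

theorem al_mul (hΔ : g2 ^ 3 - 27 * g3 ^ 2 ≠ 0) (δ : Derivation C K K) :
    al g2 g3 δ * (g2 ^ 3 - 27 * g3 ^ 2) = -(3 * g2 ^ 2 * δ g2 - 54 * g3 * δ g3) / 12 := by
  simp only [al, der_disc]
  rw [div_mul_eq_mul_div, div_eq_div_iff (by simpa using hΔ) (by norm_num)]
  ring

theorem be_mul (hΔ : g2 ^ 3 - 27 * g3 ^ 2 ≠ 0) (δ : Derivation C K K) :
    be g2 g3 δ * (g2 ^ 3 - 27 * g3 ^ 2) = 3 / 2 * (3 * g3 * δ g2 - 2 * g2 * δ g3) := by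
  simp only [be]
  rw [div_mul_cancel₀ _ hΔ]

theorem der_g2 (hΔ : g2 ^ 3 - 27 * g3 ^ 2 ≠ 0) (δ : Derivation C K K) :
    δ g2 = -4 * al g2 g3 δ * g2 - 6 * be g2 g3 δ * g3 := by
  apply mul_right_cancel₀ hΔ
  linear_combination 4 * g2 * al_mul hΔ δ + 6 * g3 * be_mul hΔ δ

theorem der_g3 (hΔ : g2 ^ 3 - 27 * g3 ^ 2 ≠ 0) (δ : Derivation C K K) :
    δ g3 = -6 * al g2 g3 δ * g3 - be g2 g3 δ * g2 ^ 2 / 3 := by
  apply mul_right_cancel₀ hΔ
  linear_combination 6 * g3 * al_mul hΔ δ + g2 ^ 2 / 3 * be_mul hΔ δ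

/-- `α` and `β` are determined by the derivatives of `g₂` and `g₃` -/
theorem al_be_unique (hΔ : g2 ^ 3 - 27 * g3 ^ 2 ≠ 0) {δ : Derivation C K K} {α β : K}
    (h2 : δ g2 = -4 * α * g2 - 6 * β * g3) (h3 : δ g3 = -6 * α * g3 - β * g2 ^ 2 / 3) :
    al g2 g3 δ = α ∧ be g2 g3 δ = β := by
  constructor
  · apply mul_right_cancel₀ hΔ
    rw [al_mul hΔ, h2, h3]
    ring
  · apply mul_right_cancel₀ hΔ
    rw [be_mul hΔ, h2, h3]
    ring

theorem al_be_comm (hΔ : g2 ^ 3 - 27 * g3 ^ 2 ≠ 0) (δ δ' : Derivation C K K) :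
    al g2 g3 ⁅δ, δ'⁆ = δ (al g2 g3 δ') - δ' (al g2 g3 δ) ∧
    be g2 g3 ⁅δ, δ'⁆ = δ (be g2 g3 δ') - δ' (be g2 g3 δ)
      - 2 * (al g2 g3 δ * be g2 g3 δ' - al g2 g3 δ' * be g2 g3 δ) := by
  have h4 : ∀ δ : Derivation C K K, δ (4 : K) = 0 := fun δ => by simpa using δ.map_natCast 4
  have h6 : ∀ δ : Derivation C K K, δ (6 : K) = 0 := fun δ => by simpa using δ.map_natCast 6
  have h3 : ∀ δ : Derivation C K K, δ (3 : K) = 0 := fun δ => by simpa using δ.map_natCast 3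
  have e2 := der_g2 hΔ δ
  have e3 := der_g3 hΔ δ
  have e2' := der_g2 hΔ δ'
  have e3' := der_g3 hΔ δ'
  have f2 : δ (δ' g2) = -4 * (δ (al g2 g3 δ') * g2 + al g2 g3 δ' * δ g2)
      - 6 * (δ (be g2 g3 δ') * g3 + be g2 g3 δ' * δ g3) := by
    rw [e2']
    simp only [map_sub, map_neg, Derivation.leibniz, smul_eq_mul, h4, h6, neg_mul]
    ring
  have f2' : δ' (δ g2) = -4 * (δ' (al g2 g3 δ) * g2 + al g2 g3 δ * δ' g2)
      - 6 * (δ' (be g2 g3 δ) * g3 + be g2 g3 δ * δ' g3) := by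
    rw [e2]
    simp only [map_sub, map_neg, Derivation.leibniz, smul_eq_mul, h4, h6, neg_mul]
    ring
  have f3 : δ (δ' g3) = -6 * (δ (al g2 g3 δ') * g3 + al g2 g3 δ' * δ g3)
      - (δ (be g2 g3 δ') * g2 ^ 2 + be g2 g3 δ' * (2 * g2 * δ g2)) / 3 := by
    rw [e3']
    rw [show -6 * al g2 g3 δ' * g3 - be g2 g3 δ' * g2 ^ 2 / 3 =
      -(6 * (al g2 g3 δ' * g3)) - (be g2 g3 δ' * g2 ^ 2) * (3 : K)⁻¹ by ring]
    simp only [map_sub, map_neg, Derivation.leibniz, Derivation.leibniz_pow, smul_eq_mul, h6,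
      Derivation.leibniz_inv, h3, nsmul_eq_mul]
    push_cast
    ring
  have f3' : δ' (δ g3) = -6 * (δ' (al g2 g3 δ) * g3 + al g2 g3 δ * δ' g3)
      - (δ' (be g2 g3 δ) * g2 ^ 2 + be g2 g3 δ * (2 * g2 * δ' g2)) / 3 := by
    rw [e3]
    rw [show -6 * al g2 g3 δ * g3 - be g2 g3 δ * g2 ^ 2 / 3 =
      -(6 * (al g2 g3 δ * g3)) - (be g2 g3 δ * g2 ^ 2) * (3 : K)⁻¹ by ring]
    simp only [map_sub, map_neg, Derivation.leibniz, Derivation.leibniz_pow, smul_eq_mul, h6,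
      Derivation.leibniz_inv, h3, nsmul_eq_mul]
    push_cast
    ring
  refine al_be_unique hΔ ?_ ?_
  · rw [Derivation.commutator_apply, f2, f2', e2, e3, e2', e3']
    ring
  · rw [Derivation.commutator_apply, f3, f3', e2, e3, e2', e3']
    ring

end

section Point

variable {g2 g3 x y : K}

theorem der_x (hy : y ≠ 0) (δ : Derivation C K K) :
    δ x = -2 * al g2 g3 δ * x + be g2 g3 δ * (-2 * x ^ 2 + g2 / 3) + ga g2 g3 x y δ * y := by
  simp only [ga]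
  field_simp
  ring

theorem der_y (hΔ : g2 ^ 3 - 27 * g3 ^ 2 ≠ 0) (hy : y ≠ 0)
    (hxy : y ^ 2 = 4 * x ^ 3 - g2 * x - g3) (δ : Derivation C K K) :
    δ y = -3 * al g2 g3 δ * y - 3 * be g2 g3 δ * x * y
      + ga g2 g3 x y δ * (6 * x ^ 2 - g2 / 2) := by
  have h4 : δ (4 : K) = 0 := by simpa using δ.map_natCast 4
  have h := congrArg δ hxy
  simp only [map_sub, Derivation.leibniz, Derivation.leibniz_pow, smul_eq_mul, nsmul_eq_mul, h4] at h
  push_cast at h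
  have h' : 2 * y * δ y = (12 * x ^ 2 - g2) * δ x - x * δ g2 - δ g3 := by
    simp only [pow_one] at h
    linear_combination h
  rw [der_x (g2 := g2) (g3 := g3) (x := x) hy δ, der_g2 hΔ δ, der_g3 hΔ δ] at h'
  have h2y : 2 * y ≠ 0 := by simpa using hy
  apply mul_left_cancel₀ h2y
  linear_combination h' + (6 * al g2 g3 δ + 6 * be g2 g3 δ * x) * hxy

theorem ga_comm (hΔ : g2 ^ 3 - 27 * g3 ^ 2 ≠ 0) (hy : y ≠ 0)
    (hxy : y ^ 2 = 4 * x ^ 3 - g2 * x - g3) (δ δ' : Derivation C K K) :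
    ga g2 g3 x y ⁅δ, δ'⁆ = δ (ga g2 g3 x y δ') - δ' (ga g2 g3 x y δ)
      - al g2 g3 δ * ga g2 g3 x y δ' + al g2 g3 δ' * ga g2 g3 x y δ
      + x * (be g2 g3 δ * ga g2 g3 x y δ' - be g2 g3 δ' * ga g2 g3 x y δ) := by
  have h2 : ∀ δ : Derivation C K K, δ (2 : K) = 0 := fun δ => by simpa using δ.map_natCast 2
  have h3 : ∀ δ : Derivation C K K, δ (3 : K) = 0 := fun δ => by simpa using δ.map_natCast 3
  have ex := der_x (g2 := g2) (g3 := g3) (x := x) hy δ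
  have ex' := der_x (g2 := g2) (g3 := g3) (x := x) hy δ'
  have ec := der_x (g2 := g2) (g3 := g3) (x := x) hy ⁅δ, δ'⁆
  have f : δ (δ' x) = -2 * (δ (al g2 g3 δ') * x + al g2 g3 δ' * δ x)
      + (δ (be g2 g3 δ') * (-2 * x ^ 2 + g2 / 3) + be g2 g3 δ' * (-4 * x * δ x + δ g2 / 3))
      + (δ (ga g2 g3 x y δ') * y + ga g2 g3 x y δ' * δ y) := by
    conv_lhs => rw [ex']
    rw [show -2 * al g2 g3 δ' * x + be g2 g3 δ' * (-2 * x ^ 2 + g2 / 3) + ga g2 g3 x y δ' * y =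
      -(2 * (al g2 g3 δ' * x)) + be g2 g3 δ' * (-(2 * x ^ 2) + g2 * (3 : K)⁻¹)
        + ga g2 g3 x y δ' * y by ring]
    simp only [map_add, map_neg, Derivation.leibniz, Derivation.leibniz_pow, smul_eq_mul, h2, h3,
      Derivation.leibniz_inv, nsmul_eq_mul]
    push_cast
    ring
  have f' : δ' (δ x) = -2 * (δ' (al g2 g3 δ) * x + al g2 g3 δ * δ' x)
      + (δ' (be g2 g3 δ) * (-2 * x ^ 2 + g2 / 3) + be g2 g3 δ * (-4 * x * δ' x + δ' g2 / 3))
      + (δ' (ga g2 g3 x y δ) * y + ga g2 g3 x y δ * δ' y) := by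
    conv_lhs => rw [ex]
    rw [show -2 * al g2 g3 δ * x + be g2 g3 δ * (-2 * x ^ 2 + g2 / 3) + ga g2 g3 x y δ * y =
      -(2 * (al g2 g3 δ * x)) + be g2 g3 δ * (-(2 * x ^ 2) + g2 * (3 : K)⁻¹)
        + ga g2 g3 x y δ * y by ring]
    simp only [map_add, map_neg, Derivation.leibniz, Derivation.leibniz_pow, smul_eq_mul, h2, h3,
      Derivation.leibniz_inv, nsmul_eq_mul]
    push_cast
    ring
  obtain ⟨ha, hb⟩ := al_be_comm hΔ δ δ'
  rw [Derivation.commutator_apply, f, f', ha, hb, der_y hΔ hy hxy δ, der_y hΔ hy hxy δ', ex, ex',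
    der_g2 hΔ δ, der_g2 hΔ δ'] at ec
  apply mul_right_cancel₀ hy
  linear_combination -ec

end Point

/-- the covariant derivative of a vector `(u, v)` -/
def nab (g2 g3 : K) (δ : Derivation C K K) (u : K × K) : K × K :=
  (δ u.1 - (al g2 g3 δ * u.1 + be g2 g3 δ * u.2),
    δ u.2 + (be g2 g3 δ * (g2 / 12) * u.1 + al g2 g3 δ * u.2))

/-- the inhomogeneous term attached to a point -/
def src (g2 g3 x y : K) (δ : Derivation C K K) : K × K :=
  (ga g2 g3 x y δ, be g2 g3 δ * y / 2 - ga g2 g3 x y δ * x)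

variable {g2 g3 x y : K}

theorem nab_comm (hΔ : g2 ^ 3 - 27 * g3 ^ 2 ≠ 0) (δ δ' : Derivation C K K) (u : K × K) :
    nab g2 g3 ⁅δ, δ'⁆ u = nab g2 g3 δ (nab g2 g3 δ' u) - nab g2 g3 δ' (nab g2 g3 δ u) := by
  obtain ⟨ha, hb⟩ := al_be_comm hΔ δ δ'
  have h12 : ∀ δ : Derivation C K K, δ (12 : K) = 0 := fun δ => by simpa using δ.map_natCast 12
  have e2 := der_g2 hΔ δ
  have e2' := der_g2 hΔ δ'
  ext
  · simp only [nab, Derivation.commutator_apply, ha, hb, map_sub, map_add, Derivation.leibniz,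
      smul_eq_mul, Prod.fst_sub]
    ring
  · simp only [nab, Derivation.commutator_apply, ha, hb, map_sub, map_add, Derivation.leibniz,
      smul_eq_mul, Prod.snd_sub, div_eq_mul_inv, Derivation.leibniz_inv, h12, e2, e2']
    ring

theorem src_comm (hΔ : g2 ^ 3 - 27 * g3 ^ 2 ≠ 0) (hy : y ≠ 0)
    (hxy : y ^ 2 = 4 * x ^ 3 - g2 * x - g3) (δ δ' : Derivation C K K) :
    src g2 g3 x y ⁅δ, δ'⁆ = nab g2 g3 δ (src g2 g3 x y δ') - nab g2 g3 δ' (src g2 g3 x y δ) := by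
  obtain ⟨ha, hb⟩ := al_be_comm hΔ δ δ'
  have hc := ga_comm hΔ hy hxy δ δ'
  have h2 : ∀ δ : Derivation C K K, δ (2 : K) = 0 := fun δ => by simpa using δ.map_natCast 2
  have ex := der_x (g2 := g2) (g3 := g3) (x := x) hy δ
  have ex' := der_x (g2 := g2) (g3 := g3) (x := x) hy δ'
  have ey := der_y hΔ hy hxy δ
  have ey' := der_y hΔ hy hxy δ'
  ext
  · simp only [nab, src, hc, Prod.fst_sub]
    ring
  · simp only [nab, src, hb, hc, map_sub, map_add, Derivation.leibniz,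
      smul_eq_mul, Prod.snd_sub, div_eq_mul_inv, Derivation.leibniz_inv, h2, ex, ex', ey, ey']
    ring

end

end Pool.Agent.EllSch
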