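import Pool.Agent.EllSch.Add

/-! # [HOM] The homomorphism from the complex plane to the points of the curve; [SUB] -/

open Filter Topology

namespace Pool.Agent.EllSch

namespace Hom

theorem crv_disc {F : Type*} [Field F] [CharZero F] (g2 g3 : F) :
    (crv g2 g3).Δ = g2 ^ 3 - 27 * g3 ^ 2 := by
  simp only [WeierstrassCurve.Δ, WeierstrassCurve.b₂, WeierstrassCurve.b₄, WeierstrassCurve.b₆,
    WeierstrassCurve.b₈, crv]
  ring

theorem crv_equation {F : Type*} [Field F] [CharZero F] {g2 g3 x y : F}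
    (hxy : y ^ 2 = 4 * x ^ 3 - g2 * x - g3) : (crv g2 g3).Equation x (y / 2) := by
  rw [WeierstrassCurve.Affine.equation_iff]
  simp only [crv]
  linear_combination hxy / 4

theorem crv_nonsingular {F : Type*} [Field F] [CharZero F] {g2 g3 x y : F}
    (hΔ : g2 ^ 3 - 27 * g3 ^ 2 ≠ 0)
    (hxy : y ^ 2 = 4 * x ^ 3 - g2 * x - g3) : (crv g2 g3).Nonsingular x (y / 2) := by
  rw [← WeierstrassCurve.Affine.equation_iff_nonsingular_of_Δ_ne_zero]
  · exact crv_equation hxy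
  · rw [crv_disc]
    exact hΔ

theorem crv_negY {F : Type*} [Field F] (g2 g3 x y : F) : (crv g2 g3).negY x y = -y := by
  simp [WeierstrassCurve.Affine.negY, crv]

theorem crv_addX {F : Type*} [Field F] (g2 g3 x1 x2 l : F) :
    (crv g2 g3).addX x1 x2 l = l ^ 2 - x1 - x2 := by
  simp [WeierstrassCurve.Affine.addX, crv]

theorem crv_addY {F : Type*} [Field F] (g2 g3 x1 x2 y1 l : F) :
    (crv g2 g3).addY x1 x2 y1 l = -(l * (l ^ 2 - x1 - x2 - x1) + y1) := by
  rw [WeierstrassCurve.Affine.addY, crv_negY, WeierstrassCurve.Affine.negAddY, crv_addX]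

end Hom

open Hom

theorem pt_eq {F : Type*} [Field F] [CharZero F] {g2 g3 x y : F} (hΔ : g2 ^ 3 - 27 * g3 ^ 2 ≠ 0)
    (hxy : y ^ 2 = 4 * x ^ 3 - g2 * x - g3) :
    ∃ h : (crv g2 g3).Nonsingular x (y / 2), pt g2 g3 x y = .some x (y / 2) h :=
  ⟨crv_nonsingular hΔ hxy, by rw [pt, dif_pos (crv_nonsingular hΔ hxy)]⟩

theorem pt_ne_zero {F : Type*} [Field F] [CharZero F] {g2 g3 x y : F}
    (hΔ : g2 ^ 3 - 27 * g3 ^ 2 ≠ 0) (hxy : y ^ 2 = 4 * x ^ 3 - g2 * x - g3) :
    pt g2 g3 x y ≠ 0 := by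
  obtain ⟨h, e⟩ := pt_eq hΔ hxy
  rw [e]
  exact WeierstrassCurve.Affine.Point.some_ne_zero h

namespace Hom

/-- two points with equal coordinates are equal -/
theorem some_congr {F : Type*} [Field F] {W : WeierstrassCurve.Affine F} {x y x' y' : F}
    (h : W.Nonsingular x y) (h' : W.Nonsingular x' y') (hx : x = x') (hy : y = y') :
    WeierstrassCurve.Affine.Point.some x y h = WeierstrassCurve.Affine.Point.some x' y' h' := by
  subst hx; subst hy; rfl

section
variable {F : Type*} [Field F] [CharZero F] [DecidableEq F] {g2 g3 x1 y1 x2 y2 x3 y3 : F}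

/-- sum of two points with different first coordinate -/
theorem pt_add_of_ne (hΔ : g2 ^ 3 - 27 * g3 ^ 2 ≠ 0)
    (h1 : y1 ^ 2 = 4 * x1 ^ 3 - g2 * x1 - g3) (h2 : y2 ^ 2 = 4 * x2 ^ 3 - g2 * x2 - g3)
    (h3 : y3 ^ 2 = 4 * x3 ^ 3 - g2 * x3 - g3)
    (hne : x1 ≠ x2) (hx : x3 = ((y1 - y2) / (x1 - x2)) ^ 2 / 4 - x1 - x2)
    (hy : y3 = -(y1 + (y1 - y2) / (x1 - x2) * (x3 - x1))) :
    pt g2 g3 x3 y3 = pt g2 g3 x1 y1 + pt g2 g3 x2 y2 := by
  obtain ⟨n1, e1⟩ := pt_eq hΔ h1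
  obtain ⟨n2, e2⟩ := pt_eq hΔ h2
  obtain ⟨n3, e3⟩ := pt_eq hΔ h3
  rw [e1, e2, e3, WeierstrassCurve.Affine.Point.add_of_X_ne hne]
  have hne' : x1 - x2 ≠ 0 := sub_ne_zero.2 hne
  have hs : (crv g2 g3).slope x1 x2 (y1 / 2) (y2 / 2) = ((y1 - y2) / (x1 - x2)) / 2 := by
    rw [WeierstrassCurve.Affine.slope_of_X_ne hne]
    field_simp
  apply some_congr
  · rw [crv_addX, hs, hx]
    ring
  · rw [crv_addY, hs, hy, hx]
    ring

/-- opposite points -/
theorem pt_add_of_neg (hΔ : g2 ^ 3 - 27 * g3 ^ 2 ≠ 0)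
    (h1 : y1 ^ 2 = 4 * x1 ^ 3 - g2 * x1 - g3) (h2 : y2 ^ 2 = 4 * x2 ^ 3 - g2 * x2 - g3)
    (hx : x1 = x2) (hy : y1 = -y2) :
    pt g2 g3 x1 y1 + pt g2 g3 x2 y2 = 0 := by
  obtain ⟨n1, e1⟩ := pt_eq hΔ h1
  obtain ⟨n2, e2⟩ := pt_eq hΔ h2
  rw [e1, e2]
  apply WeierstrassCurve.Affine.Point.add_of_Y_eq hx
  rw [crv_negY, hy]
  ring

/-- doubling -/
theorem pt_add_self (hΔ : g2 ^ 3 - 27 * g3 ^ 2 ≠ 0)
    (h1 : y1 ^ 2 = 4 * x1 ^ 3 - g2 * x1 - g3)
    (h3 : y3 ^ 2 = 4 * x3 ^ 3 - g2 * x3 - g3)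
    (hne : y1 ≠ 0) (hx : x3 = ((6 * x1 ^ 2 - g2 / 2) / y1) ^ 2 / 4 - 2 * x1)
    (hy : y3 = -(y1 + (6 * x1 ^ 2 - g2 / 2) / y1 * (x3 - x1))) :
    pt g2 g3 x3 y3 = pt g2 g3 x1 y1 + pt g2 g3 x1 y1 := by
  obtain ⟨n1, e1⟩ := pt_eq hΔ h1
  obtain ⟨n3, e3⟩ := pt_eq hΔ h3
  have hne2 : y1 / 2 ≠ (crv g2 g3).negY x1 (y1 / 2) := by
    rw [crv_negY]
    intro h
    apply hne
    linear_combination h
  rw [e1, e3, WeierstrassCurve.Affine.Point.add_self_of_Y_ne hne2]
  have hs : (crv g2 g3).slope x1 x1 (y1 / 2) (y1 / 2) = ((6 * x1 ^ 2 - g2 / 2) / y1) / 2 := by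
    rw [WeierstrassCurve.Affine.slope_of_Y_ne rfl hne2, crv_negY]
    simp only [crv]
    field_simp
    ring
  apply some_congr
  · rw [crv_addX, hs, hx]
    ring
  · rw [crv_addY, hs, hy, hx]
    ring

end

theorem lat_add (a b : ℂ) (x y : ℤ × ℤ) : lat a b (x + y) = lat a b x + lat a b y := by
  simp only [lat, Prod.fst_add, Prod.snd_add, Int.cast_add]
  ring

theorem lat_neg (a b : ℂ) (x : ℤ × ℤ) : lat a b (-x) = -lat a b x := by
  simp only [lat, Prod.fst_neg, Prod.snd_neg, Int.cast_neg]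
  ring

theorem lat_zero (a b : ℂ) : lat a b 0 = 0 := by
  simp [lat]

theorem eta_add (a b : ℂ) (x y : ℤ × ℤ) : eta a b (x + y) = eta a b x + eta a b y := by
  simp only [eta, Prod.fst_add, Prod.snd_add, Int.cast_add]
  ring

theorem eta_neg (a b : ℂ) (x : ℤ × ℤ) : eta a b (-x) = -eta a b x := by
  simp only [eta, Prod.fst_neg, Prod.snd_neg, Int.cast_neg]
  ring

theorem eta_zero (a b : ℂ) : eta a b 0 = 0 := by
  simp [eta]

theorem not_off {a b z : ℂ} (h : ¬Off a b z) : ∃ x, z = lat a b x := by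
  simpa [Off] using h

theorem not_off_lat (a b : ℂ) (x : ℤ × ℤ) : ¬Off a b (lat a b x) := fun h => h x rfl

/-- If `u`, `v`, `u + v` are off the lattice and `℘ u = ℘ v` then `u - v` is a lattice vector. -/
theorem exists_of_wp_eq {a b : ℂ} (h : Ind a b) {u v : ℂ} (hu : Off a b u) (hv : Off a b v)
    (huv : Off a b (u + v)) (he : wp a b u = wp a b v) : ∃ x, u = v + lat a b x := by
  have h1 := ode h hu
  have h2 := ode h hv
  have h3 : (wq a b u - wq a b v) * (wq a b u + wq a b v) = 0 := by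
    rw [he] at h1
    linear_combination h1 - h2
  rcases mul_eq_zero.1 h3 with h4 | h4
  · exact exists_lat_of_eq h hu hv he (sub_eq_zero.1 h4)
  · exfalso
    have hv' : Off a b (-v) := off_neg.2 hv
    obtain ⟨x, hx⟩ := exists_lat_of_eq h hu hv' (by rw [wp_neg h]; exact he)
      (by rw [wq_neg h]; linear_combination h4)
    apply huv x
    rw [hx]
    ring

/-- the data in the doubling case -/
theorem double_case {a b : ℂ} (h : Ind a b) {u v : ℂ} (hu : Off a b u) (hv : Off a b v)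
    (huv : Off a b (u + v)) (he : wp a b u = wp a b v) :
    ∃ x, u = v + lat a b x ∧ Off a b (2 * v) ∧ wp a b u = wp a b v ∧ wq a b u = wq a b v ∧
      wp a b (u + v) = wp a b (2 * v) ∧ wq a b (u + v) = wq a b (2 * v) ∧
      wz a b u = wz a b v + eta a b x ∧ wz a b (u + v) = wz a b (2 * v) + eta a b x ∧
      wq a b v ≠ 0 := by
  obtain ⟨x, hx⟩ := exists_of_wp_eq h hu hv huv he
  have e : u + v = 2 * v + lat a b x := by rw [hx]; ring
  have h2 : Off a b (2 * v) := by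
    rw [e, off_add_lat] at huv
    exact huv
  refine ⟨x, hx, h2, he, ?_, ?_, ?_, ?_, ?_, wq_ne_zero h h2⟩
  · rw [hx, wq_add_lat h]
  · rw [e, wp_add_lat h]
  · rw [e, wq_add_lat h]
  · rw [hx, wz_add_lat h hv]
  · rw [e, wz_add_lat h h2]

open Classical in
/-- the underlying function of the exponential map -/
noncomputable def fn (a b z : ℂ) : (crv (G2 a b) (G3 a b)).Point :=
  if Off a b z then pt (G2 a b) (G3 a b) (wp a b z) (wq a b z) else 0

theorem fn_off {a b z : ℂ} (hz : Off a b z) :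
    fn a b z = pt (G2 a b) (G3 a b) (wp a b z) (wq a b z) := by
  rw [fn, if_pos hz]

theorem fn_not_off {a b z : ℂ} (hz : ¬Off a b z) : fn a b z = 0 := by
  rw [fn, if_neg hz]

theorem fn_add_lat {a b : ℂ} (h : Ind a b) (z : ℂ) (x : ℤ × ℤ) :
    fn a b (z + lat a b x) = fn a b z := by
  by_cases hz : Off a b z
  · rw [fn_off hz, fn_off ((off_add_lat x).2 hz), wp_add_lat h, wq_add_lat h]
  · rw [fn_not_off hz, fn_not_off (fun h' => hz ((off_add_lat x).1 h'))]

theorem fn_add {a b : ℂ} (h : Ind a b) (u v : ℂ) : fn a b (u + v) = fn a b u + fn a b v := by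
  have hΔ := disc_ne_zero h
  by_cases hu : Off a b u
  swap
  · obtain ⟨x, rfl⟩ := not_off hu
    rw [fn_not_off hu, zero_add, add_comm, fn_add_lat h]
  by_cases hv : Off a b v
  swap
  · obtain ⟨x, rfl⟩ := not_off hv
    rw [fn_not_off hv, add_zero, fn_add_lat h]
  by_cases huv : Off a b (u + v)
  swap
  · obtain ⟨x, hx⟩ := not_off huv
    have hv' : v = -u + lat a b x := by rw [← hx]; ring
    rw [fn_not_off huv, fn_off hu, fn_off hv]
    symm
    apply pt_add_of_neg hΔ (ode h hu) (ode h hv)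
    · rw [hv', wp_add_lat h, wp_neg h]
    · rw [hv', wq_add_lat h, wq_neg h]
      ring
  rw [fn_off hu, fn_off hv, fn_off huv]
  by_cases he : wp a b u = wp a b v
  · obtain ⟨x, hx, h2, -, e2, e3, e4, -, -, e7⟩ := double_case h hu hv huv he
    rw [he, e2, e3, e4]
    exact pt_add_self hΔ (ode h hv) (ode h h2) e7 (wp_two_mul h hv h2) (wq_two_mul h hv h2)
  · exact pt_add_of_ne hΔ (ode h hu) (ode h hv) (ode h huv) he (wp_add h hu hv huv he)
      (wq_add h hu hv huv he)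

end Hom

/-- the exponential map of the curve -/
theorem exists_hom {a b : ℂ} (h : Ind a b) :
    ∃ Φ : ℂ →+ (crv (G2 a b) (G3 a b)).Point,
      (∀ z, Off a b z → Φ z = pt (G2 a b) (G3 a b) (wp a b z) (wq a b z)) ∧
      (∀ x, Φ (lat a b x) = 0) := by
  refine ⟨AddMonoidHom.mk' (fn a b) (fn_add h), fun z hz => ?_, fun x => ?_⟩
  · rw [AddMonoidHom.mk'_apply, fn_off hz]
  · rw [AddMonoidHom.mk'_apply, fn_not_off (not_off_lat a b x)]

/-- [SUB] the points whose Weierstrass coordinates lie in a subfield form a subgroup -/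
theorem exists_subgroup {a b : ℂ} (h : Ind a b) (F : Subfield ℂ) (h2 : G2 a b ∈ F) :
    ∃ H : AddSubgroup ℂ, ∀ z, z ∈ H ↔
      ((Off a b z ∧ wp a b z ∈ F ∧ wq a b z ∈ F ∧ wz a b z ∈ F) ∨
        ∃ x, z = lat a b x ∧ eta a b x ∈ F) := by
  have F2 : (2 : ℂ) ∈ F := ofNat_mem F 2
  have F4 : (4 : ℂ) ∈ F := ofNat_mem F 4
  have F6 : (6 : ℂ) ∈ F := ofNat_mem F 6
  have F1 : (1 : ℂ) ∈ F := F.one_mem
  refine ⟨{ carrier := {z | (Off a b z ∧ wp a b z ∈ F ∧ wq a b z ∈ F ∧ wz a b z ∈ F) ∨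
              ∃ x, z = lat a b x ∧ eta a b x ∈ F}
            zero_mem' := Or.inr ⟨0, (lat_zero a b).symm, by rw [eta_zero]; exact F.zero_mem⟩
            neg_mem' := ?_
            add_mem' := ?_ }, fun z => Iff.rfl⟩
  · rintro u v (⟨hu, u1, u2, u3⟩ | ⟨x, rfl, hx⟩) (⟨hv, v1, v2, v3⟩ | ⟨y, rfl, hy⟩)
    · by_cases huv : Off a b (u + v)
      swap
      · obtain ⟨x, hx⟩ := not_off huv
        refine Or.inr ⟨x, hx, ?_⟩
        have hv' : v = -u + lat a b x := by rw [← hx]; ring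
        have e : wz a b v = -wz a b u + eta a b x := by
          rw [hv', wz_add_lat h (off_neg.2 hu), wz_neg]
        have e2 : eta a b x = wz a b v + wz a b u := by rw [e]; ring
        rw [e2]
        exact F.add_mem v3 u3
      refine Or.inl ⟨huv, ?_⟩
      by_cases he : wp a b u = wp a b v
      · obtain ⟨x, hx, h22, -, e2, e3, e4, e5, e6, e7⟩ := double_case h hu hv huv he
        have hη : eta a b x ∈ F := by
          have : eta a b x = wz a b u - wz a b v := by rw [e5]; ring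
          rw [this]
          exact F.sub_mem u3 v3
        have hl : (6 * wp a b v ^ 2 - G2 a b / 2) / wq a b v ∈ F :=
          F.div_mem (F.sub_mem (F.mul_mem F6 (F.pow_mem v1 2)) (F.div_mem h2 F2)) v2
        have hp : wp a b (2 * v) ∈ F := by
          rw [wp_two_mul h hv h22]
          exact F.sub_mem (F.div_mem (F.pow_mem hl 2) F4) (F.mul_mem F2 v1)
        have hq : wq a b (2 * v) ∈ F := by
          rw [wq_two_mul h hv h22]
          exact F.neg_mem (F.add_mem v2 (F.mul_mem hl (F.sub_mem hp v1)))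
        have hz : wz a b (2 * v) ∈ F := by
          rw [wz_two_mul h hv h22]
          exact F.add_mem (F.mul_mem F2 v3) (F.mul_mem (F.div_mem F1 F2) hl)
        rw [e3, e4, e6]
        exact ⟨hp, hq, F.add_mem hz hη⟩
      · have hl : (wq a b u - wq a b v) / (wp a b u - wp a b v) ∈ F :=
          F.div_mem (F.sub_mem u2 v2) (F.sub_mem u1 v1)
        have hp : wp a b (u + v) ∈ F := by
          rw [wp_add h hu hv huv he]
          exact F.sub_mem (F.sub_mem (F.div_mem (F.pow_mem hl 2) F4) u1) v1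
        have hq : wq a b (u + v) ∈ F := by
          rw [wq_add h hu hv huv he]
          exact F.neg_mem (F.add_mem u2 (F.mul_mem hl (F.sub_mem hp u1)))
        have hz : wz a b (u + v) ∈ F := by
          rw [wz_add h hu hv huv he]
          exact F.add_mem (F.add_mem u3 v3) (F.mul_mem (F.div_mem F1 F2) hl)
        exact ⟨hp, hq, hz⟩
    · refine Or.inl ⟨(off_add_lat y).2 hu, ?_, ?_, ?_⟩
      · rw [wp_add_lat h]; exact u1
      · rw [wq_add_lat h]; exact u2
      · rw [wz_add_lat h hu]; exact F.add_mem u3 hy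
    · rw [add_comm]
      refine Or.inl ⟨(off_add_lat x).2 hv, ?_, ?_, ?_⟩
      · rw [wp_add_lat h]; exact v1
      · rw [wq_add_lat h]; exact v2
      · rw [wz_add_lat h hv]; exact F.add_mem v3 hx
    · exact Or.inr ⟨x + y, (lat_add a b x y).symm, by rw [eta_add]; exact F.add_mem hx hy⟩
  · rintro u (⟨hu, u1, u2, u3⟩ | ⟨x, rfl, hx⟩)
    · refine Or.inl ⟨off_neg.2 hu, ?_, ?_, ?_⟩
      · rw [wp_neg h]; exact u1
      · rw [wq_neg h]; exact F.neg_mem u2
      · rw [wz_neg]; exact F.neg_mem u3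
    · exact Or.inr ⟨-x, (lat_neg a b x).symm, by rw [eta_neg]; exact F.neg_mem hx⟩

end Pool.Agent.EllSch
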