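import Pool.Agent.EllSch.Branch

/-! # [BRb] Branches near a puncture -/

open Polynomial Filter Topology

namespace Pool.Agent.EllSch

namespace Punct

variable {E : Type} [Field E] [Algebra ℂ E] {D : Derivation ℂ E E} {j : E} (M : Model E D j)

/-- The character space of a model. -/
structure Ch (M : Model E D j) where
  /-- the character -/
  c : M.R →ₐ[ℂ] ℂ

variable {M} in
/-- value at `j` -/
noncomputable def pj (χ : Ch M) : ℂ := M.jv χ.c

variable {M} in
/-- value at `θ` -/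
noncomputable def pt (χ : Ch M) : ℂ := M.tv χ.c

/-- topology induced by the values at `j` and `θ` -/
noncomputable instance : TopologicalSpace (Ch M) :=
  TopologicalSpace.induced (fun χ : Ch M => (pj χ, pt χ)) inferInstance

theorem continuous_pj : Continuous (pj : Ch M → ℂ) :=
  continuous_fst.comp (continuous_induced_dom (f := fun χ : Ch M => (pj χ, pt χ)))

theorem continuous_pt : Continuous (pt : Ch M → ℂ) :=
  continuous_snd.comp (continuous_induced_dom (f := fun χ : Ch M => (pj χ, pt χ)))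

variable {M} in
theorem ch_ext {χ χ' : Ch M} (h1 : pj χ = pj χ') (h2 : pt χ = pt χ') : χ = χ' := by
  cases χ; cases χ'
  congr 1
  exact M.char_ext h1 h2

theorem continuous_to {X : Type*} [TopologicalSpace X] {f : X → Ch M}
    (h1 : Continuous fun x => pj (f x)) (h2 : Continuous fun x => pt (f x)) :
    Continuous f :=
  continuous_induced_rng.2 (h1.prodMk h2)

theorem evenly {J₀ : ℂ} (hJ : M.d.eval J₀ ≠ 0) :
    IsEvenlyCovered (pj : Ch M → ℂ) J₀ (Fin M.F.natDegree) := by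
  classical
  obtain ⟨ε, hε, χ, hχ⟩ := M.local_branches hJ
  refine ⟨inferInstance, Metric.ball J₀ ε, Metric.mem_ball_self hε, Metric.isOpen_ball,
    Metric.isOpen_ball.preimage (continuous_pj M), ?_⟩
  have hex : ∀ c : (pj : Ch M → ℂ) ⁻¹' (Metric.ball J₀ ε), ∃ i, c.1 = ⟨χ i (pj c.1)⟩ := by
    intro c
    obtain ⟨-, -, -, h, -⟩ := hχ _ c.2
    obtain ⟨i, hi⟩ := h c.1.c rfl
    exact ⟨i, by rw [← hi]⟩
  choose ind hind using hex
  have hpj : ∀ i, ∀ J ∈ Metric.ball J₀ ε, pj (⟨χ i J⟩ : Ch M) = J :=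
    fun i J hJ => (hχ J hJ).2.1 i
  have hcont : ∀ i, Continuous fun J : Metric.ball J₀ ε => pt (⟨χ i J.1⟩ : Ch M) := by
    intro i
    rw [continuous_iff_continuousAt]
    intro J
    have := ((hχ J.1 J.2).2.2.2.2 i ⟨M.θ, M.hθ⟩).continuousAt
    exact this.comp continuous_subtype_val.continuousAt
  have hloc : IsLocallyConstant ind := by
    rw [IsLocallyConstant.iff_eventually_eq]
    intro c
    have h1 : ∀ k, k ≠ ind c → pt c.1 ≠ pt (⟨χ k (pj c.1)⟩ : Ch M) := by
      intro k hk h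
      apply hk
      have hb := hχ _ c.2
      apply hb.2.2.1
      have h3 : (⟨χ k (pj c.1)⟩ : Ch M) = ⟨χ (ind c) (pj c.1)⟩ := by
        rw [← hind c]
        exact (ch_ext (hpj k _ c.2).symm h).symm
      exact congrArg Ch.c h3
    have h2 : ∀ k, k ≠ ind c → ∀ᶠ c' : (pj : Ch M → ℂ) ⁻¹' (Metric.ball J₀ ε) in 𝓝 c,
        pt c'.1 ≠ pt (⟨χ k (pj c'.1)⟩ : Ch M) := by
      intro k hk
      have ha : Continuous fun c' : (pj : Ch M → ℂ) ⁻¹' (Metric.ball J₀ ε) => pt c'.1 :=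
        (continuous_pt M).comp continuous_subtype_val
      have hb : Continuous fun c' : (pj : Ch M → ℂ) ⁻¹' (Metric.ball J₀ ε) =>
          pt (⟨χ k (pj c'.1)⟩ : Ch M) := by
        have hc : Continuous fun c' : (pj : Ch M → ℂ) ⁻¹' (Metric.ball J₀ ε) =>
            (⟨pj c'.1, c'.2⟩ : Metric.ball J₀ ε) :=
          ((continuous_pj M).comp continuous_subtype_val).subtype_mk _
        exact (hcont k).comp hc
      exact (isOpen_ne_fun ha hb).mem_nhds (h1 k hk)
    have h3 : ∀ᶠ c' : (pj : Ch M → ℂ) ⁻¹' (Metric.ball J₀ ε) in 𝓝 c, ∀ k, k ≠ ind c →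
        pt c'.1 ≠ pt (⟨χ k (pj c'.1)⟩ : Ch M) := by
      rw [eventually_all]
      intro k
      by_cases hk : k = ind c
      · simp [hk]
      · filter_upwards [h2 k hk] with c' hc' _ using hc'
    filter_upwards [h3] with c' hc'
    by_contra hne
    apply hc' (ind c') hne
    conv_lhs => rw [hind c']
  refine ⟨{ toFun := fun c => (⟨pj c.1, c.2⟩, ind c)
            invFun := fun x => ⟨⟨χ x.2 x.1.1⟩, by
              rw [Set.mem_preimage, hpj _ _ x.1.2]
              exact x.1.2⟩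
            left_inv := ?_
            right_inv := ?_
            continuous_toFun := ?_
            continuous_invFun := ?_ }, ?_⟩
  · intro c
    exact Subtype.ext (hind c).symm
  · rintro ⟨J, i⟩
    have h1 : pj (⟨χ i J.1⟩ : Ch M) = J.1 := hpj i J.1 J.2
    refine Prod.ext (Subtype.ext h1) ?_
    have hm : (⟨χ i J.1⟩ : Ch M) ∈ (pj : Ch M → ℂ) ⁻¹' (Metric.ball J₀ ε) := by
      rw [Set.mem_preimage, h1]; exact J.2
    have h2 := hind ⟨⟨χ i J.1⟩, hm⟩
    simp only [h1] at h2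
    exact ((hχ J.1 J.2).2.2.1 (congrArg Ch.c h2)).symm
  · exact (((continuous_pj M).comp continuous_subtype_val).subtype_mk _).prodMk hloc.continuous
  · refine Continuous.subtype_mk ?_ _
    refine continuous_to M ?_ ?_
    · have : (fun x : Metric.ball J₀ ε × Fin M.F.natDegree => pj (⟨χ x.2 x.1.1⟩ : Ch M)) =
          fun x => x.1.1 := by
        funext x
        exact hpj _ _ x.1.2
      rw [this]
      fun_prop
    · rw [continuous_prod_of_discrete_right]
      exact hcont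
  · intro c
    rfl

theorem isCoveringMapOn : IsCoveringMapOn (pj : Ch M → ℂ) {J | M.d.eval J ≠ 0} :=
  fun _ hJ => (evenly M hJ).to_isEvenlyCovered_preimage


/-! ### Lifts over simply connected spaces -/

section lifts

variable {A : Type*} [TopologicalSpace A] [SimplyConnectedSpace A] [LocallyPathConnectedSpace A]

theorem exists_lift (f : C(A, ℂ)) (hf : ∀ a, M.d.eval (f a) ≠ 0) (a₀ : A) (χ : Ch M)
    (h : pj χ = f a₀) : ∃ F : C(A, Ch M), F a₀ = χ ∧ ∀ a, pj (F a) = f a := by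
  obtain ⟨F, ⟨h1, h2⟩, -⟩ := (isCoveringMapOn M).existsUnique_continuousMap_lifts f h hf
  exact ⟨F, h1, fun a => congrFun h2 a⟩

theorem lift_unique (f : C(A, ℂ)) (hf : ∀ a, M.d.eval (f a) ≠ 0) (F G : C(A, Ch M))
    (hF : ∀ a, pj (F a) = f a) (hG : ∀ a, pj (G a) = f a) (a₀ : A) (h : F a₀ = G a₀) :
    F = G := by
  obtain ⟨F', -, h3⟩ := (isCoveringMapOn M).existsUnique_continuousMap_lifts f (hF a₀) hf
  rw [h3 F ⟨rfl, funext hF⟩, h3 G ⟨h.symm, funext hG⟩]

theorem exists_lifts (f : C(A, ℂ)) (hf : ∀ a, M.d.eval (f a) ≠ 0) :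
    ∃ F : Fin M.F.natDegree → C(A, Ch M), (∀ i a, pj (F i a) = f a) ∧
      (∀ a χ, pj χ = f a → ∃ i, F i a = χ) ∧
      (∀ i k a, F i a = F k a → i = k) ∧
      (∀ G : C(A, Ch M), (∀ a, pj (G a) = f a) → ∃ i, G = F i) := by
  classical
  obtain ⟨a₀⟩ : Nonempty A := inferInstance
  have hfin := M.fib_finite (f a₀)
  have hcard := M.fib_ncard (hf a₀)
  have hft : Fintype (M.fib (f a₀)) := hfin.fintype
  have hc : Fintype.card (M.fib (f a₀)) = M.F.natDegree := by
    rw [← hcard, Set.ncard_eq_toFinset_card', Set.toFinset_card]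
  let e : Fin M.F.natDegree ≃ M.fib (f a₀) := (Fintype.equivFinOfCardEq hc).symm
  have h1 : ∀ i, ∃ F : C(A, Ch M), F a₀ = ⟨(e i).1⟩ ∧ ∀ a, pj (F a) = f a := fun i =>
    exists_lift M f hf a₀ ⟨(e i).1⟩ (e i).2
  choose F hF0 hF using h1
  have huniv : ∀ G : C(A, Ch M), (∀ a, pj (G a) = f a) → ∃ i, G = F i := by
    intro G hG
    have h2 : (G a₀).c ∈ M.fib (f a₀) := hG a₀
    refine ⟨e.symm ⟨(G a₀).c, h2⟩, ?_⟩
    refine lift_unique M f hf _ _ hG (hF _) a₀ ?_
    rw [hF0, Equiv.apply_symm_apply]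
  refine ⟨F, hF, ?_, ?_, huniv⟩
  · intro a χ hχ
    obtain ⟨G, hG0, hG⟩ := exists_lift M f hf a χ hχ
    obtain ⟨i, rfl⟩ := huniv G hG
    exact ⟨i, hG0⟩
  · intro i k a h
    have h2 := lift_unique M f hf _ _ (hF i) (hF k) a h
    have h3 : (⟨(e i).1⟩ : Ch M) = ⟨(e k).1⟩ := by rw [← hF0 i, ← hF0 k, h2]
    exact e.injective (Subtype.ext (congrArg Ch.c h3))

omit [LocallyPathConnectedSpace A] in
/-- an automorphism of the base has finite order on the lifts -/
theorem exists_period (f : C(A, ℂ)) (T : C(A, A)) (hT : ∀ a, f (T a) = f a)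
    (F : Fin M.F.natDegree → C(A, Ch M)) (hF : ∀ i a, pj (F i a) = f a)
    (hinj : ∀ i k a, F i a = F k a → i = k)
    (huniv : ∀ G : C(A, Ch M), (∀ a, pj (G a) = f a) → ∃ i, G = F i) :
    ∃ N : ℕ, 0 < N ∧ ∀ i a, F i (T^[N] a) = F i a := by
  classical
  have h1 : ∀ i, ∃ k, (F i).comp T = F k := fun i =>
    huniv _ fun a => by rw [ContinuousMap.comp_apply, hF, hT]
  choose σ hσ using h1
  have hσ' : ∀ i a, F i (T a) = F (σ i) a := fun i a => by
    rw [← hσ i, ContinuousMap.comp_apply]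
  obtain ⟨a₀⟩ : Nonempty A := inferInstance
  have hσi : Function.Injective σ := by
    intro i k h
    apply hinj i k (T a₀)
    rw [hσ', hσ', h]
  let τ : Equiv.Perm (Fin M.F.natDegree) :=
    Equiv.ofBijective σ ⟨hσi, Finite.surjective_of_injective hσi⟩
  have hiter : ∀ n i a, F i (T^[n] a) = F (σ^[n] i) a := by
    intro n
    induction n with
    | zero => intro i a; rfl
    | succ n ih =>
      intro i a
      rw [Function.iterate_succ_apply', hσ', ih, Function.iterate_succ_apply]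
  refine ⟨orderOf τ, orderOf_pos τ, fun i a => ?_⟩
  rw [hiter]
  congr 1
  have h2 : (τ ^ orderOf τ) i = i := by rw [pow_orderOf_eq_one]; rfl
  rw [Equiv.Perm.coe_pow] at h2
  exact congrArg F h2

end lifts


/-! ### Meromorphy -/

/-- a function holomorphic and bounded near a puncture is meromorphic there -/
theorem meromorphicAt_of_bdd {y : ℂ → ℂ} (hd : ∀ᶠ s in 𝓝[≠] (0 : ℂ), DifferentiableAt ℂ y s)
    {B : ℝ} (hB : ∀ᶠ s in 𝓝[≠] (0 : ℂ), ‖y s‖ ≤ B) : MeromorphicAt y 0 := by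
  have h := hd.and hB
  rw [eventually_nhdsWithin_iff, Metric.eventually_nhds_iff] at h
  obtain ⟨ε, hε, h⟩ := h
  have h1 : DifferentiableOn ℂ y (Metric.ball 0 ε \ {0}) := fun s hs =>
    (h (Metric.mem_ball.1 hs.1) hs.2).1.differentiableWithinAt
  have h2 : BddAbove (norm ∘ y '' (Metric.ball 0 ε \ {0})) := by
    refine ⟨B, ?_⟩
    rintro _ ⟨s, hs, rfl⟩
    exact (h (Metric.mem_ball.1 hs.1) hs.2).2
  have h3 := Complex.differentiableOn_update_limUnder_of_bddAbove
    (Metric.ball_mem_nhds (0 : ℂ) hε) h1 h2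
  have h4 := h3.analyticAt (Metric.ball_mem_nhds (0 : ℂ) hε)
  refine h4.meromorphicAt.congr ?_
  filter_upwards [self_mem_nhdsWithin] with s hs
  exact Function.update_of_ne hs _ _

theorem meromorphicAt_pow_mul {a : ℂ → ℂ} (ha : MeromorphicAt a 0) :
    ∃ n : ℕ, ∀ k, n ≤ k → AnalyticAt ℂ (fun s => s ^ k * a s) 0 := by
  obtain ⟨n, hn⟩ := ha
  refine ⟨n, fun k hk => ?_⟩
  have h1 : AnalyticAt ℂ (fun s : ℂ => s ^ (k - n)) 0 := by fun_prop
  refine (h1.mul hn).congr ?_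
  filter_upwards with s
  simp only [Pi.mul_apply, sub_zero, smul_eq_mul]
  rw [← mul_assoc, ← pow_add, Nat.sub_add_cancel hk]

theorem root_bound {m : ℕ} (b : ℕ → ℂ) (y : ℂ) {B : ℝ} (hb : ∀ i < m, ‖b i‖ ≤ B) (hB : 0 ≤ B)
    (h : y ^ m + ∑ i ∈ Finset.range m, b i * y ^ i = 0) (hm : 0 < m) :
    ‖y‖ ≤ 1 + m * B := by
  by_contra hcon
  push Not at hcon
  have hmB : 0 ≤ m * B := by positivity
  have h1 : 1 < ‖y‖ := by linarith
  have h2 : ‖y‖ ^ m ≤ m * B * ‖y‖ ^ (m - 1) := by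
    have h3 : y ^ m = -∑ i ∈ Finset.range m, b i * y ^ i := eq_neg_of_add_eq_zero_left h
    calc ‖y‖ ^ m = ‖∑ i ∈ Finset.range m, b i * y ^ i‖ := by rw [← norm_pow, h3, norm_neg]
      _ ≤ ∑ i ∈ Finset.range m, ‖b i * y ^ i‖ := norm_sum_le _ _
      _ ≤ ∑ i ∈ Finset.range m, B * ‖y‖ ^ (m - 1) := by
          refine Finset.sum_le_sum fun i hi => ?_
          rw [norm_mul, norm_pow]
          have hi' := Finset.mem_range.1 hi
          exact mul_le_mul (hb i hi') (pow_le_pow_right₀ h1.le (by omega)) (by positivity) hB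
      _ = m * B * ‖y‖ ^ (m - 1) := by rw [Finset.sum_const, Finset.card_range, nsmul_eq_mul]; ring
  have h4 : ‖y‖ ^ m = ‖y‖ * ‖y‖ ^ (m - 1) := by
    rw [← pow_succ']; congr 1; omega
  rw [h4] at h2
  have h5 : 0 < ‖y‖ ^ (m - 1) := by positivity
  have := le_of_mul_le_mul_right h2 h5
  linarith

theorem meromorphicAt_root {m : ℕ} (hm : 0 < m) {a : ℕ → ℂ → ℂ} {x : ℂ → ℂ}
    (ha : ∀ i < m, MeromorphicAt (a i) 0)
    (hx : ∀ᶠ s in 𝓝[≠] (0 : ℂ), DifferentiableAt ℂ x s)
    (h : ∀ᶠ s in 𝓝[≠] (0 : ℂ), x s ^ m + ∑ i ∈ Finset.range m, a i s * x s ^ i = 0) :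
    MeromorphicAt x 0 := by
  have h1 : ∀ i, ∃ n : ℕ, i < m → ∀ k, n ≤ k → AnalyticAt ℂ (fun s => s ^ k * a i s) 0 := by
    intro i
    by_cases hi : i < m
    · obtain ⟨n, hn⟩ := meromorphicAt_pow_mul (ha i hi)
      exact ⟨n, fun _ => hn⟩
    · exact ⟨0, fun h => absurd h hi⟩
  choose n hn using h1
  set k := ∑ i ∈ Finset.range m, n i with hk
  have hnk : ∀ i < m, n i ≤ k := fun i hi =>
    Finset.single_le_sum (f := n) (fun _ _ => Nat.zero_le _) (Finset.mem_range.2 hi)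
  -- the new coefficients
  set b : ℕ → ℂ → ℂ := fun i s => s ^ (k * (m - i)) * a i s with hb
  have hban : ∀ i < m, AnalyticAt ℂ (b i) 0 := by
    intro i hi
    refine hn i hi _ ((hnk i hi).trans ?_)
    exact Nat.le_mul_of_pos_right _ (by omega)
  have hbb : ∀ i < m, ∃ B : ℝ, 0 ≤ B ∧ ∀ᶠ s in 𝓝[≠] (0 : ℂ), ‖b i s‖ ≤ B := by
    intro i hi
    refine ⟨‖b i 0‖ + 1, by positivity, ?_⟩
    have h2 := (hban i hi).continuousAt.norm
    have h3 : ∀ᶠ s in 𝓝 (0 : ℂ), ‖b i s‖ < ‖b i 0‖ + 1 :=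
      h2.eventually_lt_const (by linarith)
    filter_upwards [h3.filter_mono nhdsWithin_le_nhds] with s hs using hs.le
  have hbb' : ∀ i, ∃ B : ℝ, 0 ≤ B ∧ (i < m → ∀ᶠ s in 𝓝[≠] (0 : ℂ), ‖b i s‖ ≤ B) := by
    intro i
    by_cases hi : i < m
    · obtain ⟨B, hB, h⟩ := hbb i hi
      exact ⟨B, hB, fun _ => h⟩
    · exact ⟨0, le_rfl, fun h => absurd h hi⟩
  choose Bi hBi0 hBi using hbb'
  set B := ∑ i ∈ Finset.range m, Bi i with hB
  have hB0 : 0 ≤ B := Finset.sum_nonneg fun i _ => hBi0 i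
  have hall : ∀ᶠ s in 𝓝[≠] (0 : ℂ), ∀ i ∈ Finset.range m, ‖b i s‖ ≤ B := by
    rw [Finset.eventually_all]
    intro i hi
    filter_upwards [hBi i (Finset.mem_range.1 hi)] with s hs
    exact hs.trans (Finset.single_le_sum (f := Bi) (fun i _ => hBi0 i) hi)
  have hy : MeromorphicAt (fun s => s ^ k * x s) 0 := by
    refine meromorphicAt_of_bdd (B := 1 + m * B) ?_ ?_
    · filter_upwards [hx] with s hs
      fun_prop
    · filter_upwards [hall, h] with s hs hs'
      refine root_bound (fun i => b i s) _ (fun i hi => hs i (Finset.mem_range.2 hi)) hB0 ?_ hm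
      have : (s ^ k * x s) ^ m + ∑ i ∈ Finset.range m, b i s * (s ^ k * x s) ^ i =
          s ^ (k * m) * (x s ^ m + ∑ i ∈ Finset.range m, a i s * x s ^ i) := by
        rw [mul_add, mul_pow, ← pow_mul, Finset.mul_sum]
        congr 1
        refine Finset.sum_congr rfl fun i hi => ?_
        have hi' := Finset.mem_range.1 hi
        simp only [hb]
        rw [mul_pow, ← pow_mul]
        have : s ^ (k * m) = s ^ (k * (m - i)) * s ^ (k * i) := by
          rw [← pow_add, ← Nat.mul_add, Nat.sub_add_cancel hi'.le]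
        rw [this]
        ring
      rw [this, hs', mul_zero]
  have hinv : MeromorphicAt (fun s : ℂ => (s ^ k)⁻¹) 0 :=
    (AnalyticAt.meromorphicAt (by fun_prop : AnalyticAt ℂ (fun s : ℂ => s ^ k) 0)).inv
  refine (hinv.mul hy).congr ?_
  filter_upwards [self_mem_nhdsWithin] with s hs
  have : s ^ k ≠ 0 := pow_ne_zero _ hs
  simp only [Pi.mul_apply]
  field_simp

/-- meromorphy of polynomial expressions in a meromorphic function -/
theorem meromorphicAt_eval {J : ℂ → ℂ} (hJ : MeromorphicAt J 0) (p : ℂ[X]) :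
    MeromorphicAt (fun s => p.eval (J s)) 0 := by
  induction p using Polynomial.induction_on' with
  | add p q hp hq =>
    simp only [eval_add]
    exact hp.add hq
  | monomial n c =>
    simp only [eval_monomial]
    exact (MeromorphicAt.const c 0).mul (hJ.pow n)

/-! ### Algebra -/

theorem ev2_map {A B : Type*} [CommRing A] [CommRing B] [Algebra ℂ A] [Algebra ℂ B]
    (φ : A →ₐ[ℂ] B) (N : ℂ[X][X]) (a b : A) : φ (ev2 N a b) = ev2 N (φ a) (φ b) := by
  unfold ev2
  have h := Polynomial.hom_eval₂ N ((aeval a : ℂ[X] →ₐ[ℂ] A).toRingHom) (φ : A →+* B) b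
  rw [show φ (eval₂ ((aeval a : ℂ[X] →ₐ[ℂ] A).toRingHom) b N) =
    (φ : A →+* B) (eval₂ ((aeval a : ℂ[X] →ₐ[ℂ] A).toRingHom) b N) from rfl, h]
  congr 1
  refine RingHom.ext fun p => ?_
  change φ (aeval a p) = aeval (φ a) p
  rw [Polynomial.aeval_algHom_apply]

theorem ev2_complex (N : ℂ[X][X]) (J x : ℂ) :
    ev2 N J x = ∑ i ∈ Finset.range (N.natDegree + 1), (N.coeff i).eval J * x ^ i := by
  unfold ev2
  rw [Polynomial.eval₂_eq_sum_range]
  rfl

theorem char_root (χ : M.R →ₐ[ℂ] ℂ) : ev2 M.F (M.jv χ) (M.tv χ) = 0 := by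
  have h1 : ev2 M.F (⟨j, M.hj⟩ : M.R) ⟨M.θ, M.hθ⟩ = 0 := by
    apply Subtype.ext
    have := ev2_map M.R.val M.F ⟨j, M.hj⟩ ⟨M.θ, M.hθ⟩
    change M.R.val (ev2 M.F (⟨j, M.hj⟩ : M.R) ⟨M.θ, M.hθ⟩) = _
    rw [this]
    exact M.hroot
  have h2 := ev2_map χ M.F ⟨j, M.hj⟩ ⟨M.θ, M.hθ⟩
  rw [h1, map_zero] at h2
  exact h2.symm

theorem char_rep (e : M.R) : ∃ (N : ℂ[X][X]) (n : ℕ), ∀ χ : M.R →ₐ[ℂ] ℂ,
    χ e * (M.d.eval (M.jv χ)) ^ n = ev2 N (M.jv χ) (M.tv χ) := by
  obtain ⟨N, n, h⟩ := M.hrep e e.2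
  refine ⟨N, n, fun χ => ?_⟩
  have h1 : e * (aeval (⟨j, M.hj⟩ : M.R) M.d) ^ n = ev2 N (⟨j, M.hj⟩ : M.R) ⟨M.θ, M.hθ⟩ := by
    apply Subtype.ext
    have h2 := ev2_map M.R.val N ⟨j, M.hj⟩ ⟨M.θ, M.hθ⟩
    change M.R.val (e * (aeval (⟨j, M.hj⟩ : M.R) M.d) ^ n) =
      M.R.val (ev2 N (⟨j, M.hj⟩ : M.R) ⟨M.θ, M.hθ⟩)
    rw [h2, map_mul, map_pow, ← Polynomial.aeval_algHom_apply]
    exact h
  have h3 := congrArg χ h1
  rw [ev2_map, map_mul, map_pow, ← Polynomial.aeval_algHom_apply] at h3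
  exact h3

/-! ### Meromorphy of the characters -/

theorem meromorphicAt_char {J : ℂ → ℂ} (hJ : MeromorphicAt J 0) (χ : ℂ → (M.R →ₐ[ℂ] ℂ))
    (hχJ : ∀ᶠ s in 𝓝[≠] (0 : ℂ), M.jv (χ s) = J s)
    (hd : ∀ᶠ s in 𝓝[≠] (0 : ℂ), M.d.eval (J s) ≠ 0)
    (hdiff : ∀ e, ∀ᶠ s in 𝓝[≠] (0 : ℂ), DifferentiableAt ℂ (fun s => χ s e) s) (e : M.R) :
    MeromorphicAt (fun s => χ s e) 0 := by
  -- first the value at `θ`
  have hx : MeromorphicAt (fun s => M.tv (χ s)) 0 := by
    refine meromorphicAt_root (m := M.F.natDegree) M.hdeg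
      (a := fun i s => (M.F.coeff i).eval (J s)) (fun i _ => meromorphicAt_eval hJ _)
      (hdiff ⟨M.θ, M.hθ⟩) ?_
    filter_upwards [hχJ] with s hs
    have h1 := char_root M (χ s)
    rw [ev2_complex, Finset.sum_range_succ, M.hF.coeff_natDegree, eval_one, one_mul, hs] at h1
    rw [add_comm]
    exact h1
  obtain ⟨N, n, hN⟩ := char_rep M e
  have h2 : MeromorphicAt (fun s => ev2 N (J s) (M.tv (χ s))) 0 := by
    simp only [ev2_complex]
    refine MeromorphicAt.fun_sum fun i _ => ?_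
    exact (meromorphicAt_eval hJ _).mul (hx.pow i)
  have h3 : MeromorphicAt (fun s => (M.d.eval (J s)) ^ n) 0 := (meromorphicAt_eval hJ _).pow n
  refine (h2.div h3).congr ?_
  filter_upwards [hχJ, hd] with s hs hs'
  have h4 := hN (χ s)
  rw [hs] at h4
  have h5 : (M.d.eval (J s)) ^ n ≠ 0 := pow_ne_zero _ hs'
  simp only [Pi.div_apply]
  rw [← h4, mul_div_cancel_right₀ _ h5]

end Punct

open Punct in
/-- [PB] branches near a puncture -/
theorem Model.punctured_branches' {E : Type} [Field E] [Algebra ℂ E] {D : Derivation ℂ E E} {j : E}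
    (M : Model E D j) (J : ℂ → ℂ) {ρ : ℝ} (hρ : 0 < ρ)
    (hJ : DifferentiableOn ℂ J (Metric.ball 0 ρ \ {0})) (hmer : MeromorphicAt J 0)
    (hd : ∀ t ∈ Metric.ball (0 : ℂ) ρ \ {0}, M.d.eval (J t) ≠ 0) :
    ∃ N : ℕ, 0 < N ∧ ∃ χ : Fin M.F.natDegree → ℂ → (M.R →ₐ[ℂ] ℂ),
      (∀ s : ℂ, s ≠ 0 → ‖s‖ ^ N < ρ →
        (∀ i, M.jv (χ i s) = J (s ^ N)) ∧ (∀ χ' ∈ M.fib (J (s ^ N)), ∃ i, χ' = χ i s) ∧
        ∀ (i) (e : M.R), DifferentiableAt ℂ (fun s => χ i s e) s) ∧
      ∀ (i) (e : M.R), MeromorphicAt (fun s => χ i s e) 0 := by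
  classical
  set H : Set ℂ := {w : ℂ | w.re < Real.log ρ} with hH
  have hHconv : Convex ℝ H := convex_halfSpace_re_lt _
  have hHo : IsOpen H := isOpen_lt Complex.continuous_re continuous_const
  have hHne : H.Nonempty := ⟨((Real.log ρ - 1 : ℝ) : ℂ), by
    simp only [hH, Set.mem_ofPred_eq, Complex.ofReal_re]; linarith⟩
  have : ContractibleSpace H := hHconv.contractibleSpace hHne
  have : LocallyPathConnectedSpace H := hHo.locallyPathConnectedSpace
  have hexp : ∀ w ∈ H, Complex.exp w ∈ Metric.ball (0 : ℂ) ρ \ {0} := by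
    intro w hw
    refine ⟨?_, Complex.exp_ne_zero w⟩
    rw [mem_ball_zero_iff, Complex.norm_exp]
    calc Real.exp w.re < Real.exp (Real.log ρ) := Real.exp_lt_exp.2 hw
      _ = ρ := Real.exp_log hρ
  have hUo : IsOpen (Metric.ball (0 : ℂ) ρ \ {0}) :=
    Metric.isOpen_ball.sdiff isClosed_singleton
  have hJd : ∀ t ∈ Metric.ball (0 : ℂ) ρ \ {0}, DifferentiableAt ℂ J t := fun t ht =>
    (hJ t ht).differentiableAt (hUo.mem_nhds ht)
  have hJe : ∀ w ∈ H, DifferentiableAt ℂ (fun w => J (Complex.exp w)) w := fun w hw =>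
    (hJd _ (hexp w hw)).comp w Complex.differentiableAt_exp
  let f : C(H, ℂ) := ⟨fun w => J (Complex.exp w.1), by
    rw [continuous_iff_continuousAt]
    intro w
    exact (hJe w.1 w.2).continuousAt.comp continuous_subtype_val.continuousAt⟩
  have hf : ∀ w, M.d.eval (f w) ≠ 0 := fun w => hd _ (hexp w.1 w.2)
  obtain ⟨F, hF, hsurj, hinj, huniv⟩ := exists_lifts M f hf
  let T : C(H, H) := ⟨fun w => ⟨w.1 + 2 * Real.pi * Complex.I, by
    have := w.2
    simp only [hH, Set.mem_ofPred_eq] at this ⊢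
    simpa using this⟩, by fun_prop⟩
  have hT : ∀ w, f (T w) = f w := by
    intro w
    change J (Complex.exp (w.1 + 2 * Real.pi * Complex.I)) = J (Complex.exp w.1)
    rw [Complex.exp_periodic w.1]
  obtain ⟨N, hN, hper⟩ := exists_period M f T hT F hF hinj huniv
  have hTn : ∀ (n : ℕ) (w : H), (T^[n] w).1 = w.1 + n * (2 * Real.pi * Complex.I) := by
    intro n
    induction n with
    | zero => intro w; simp
    | succ n ih =>
      intro w
      rw [Function.iterate_succ_apply']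
      change (T^[n] w).1 + 2 * Real.pi * Complex.I = _
      rw [ih]
      push_cast
      ring
  -- periodicity under `N` times an integer
  have hper' : ∀ (k : ℕ) i (w : H), F i (T^[k * N] w) = F i w := by
    intro k
    induction k with
    | zero => intro i w; simp
    | succ k ih =>
      intro i w
      rw [Nat.succ_mul, Function.iterate_add_apply, ih, hper]
  have hperZ : ∀ (k : ℤ) i (w w' : H), w'.1 = w.1 + k * (N * (2 * Real.pi * Complex.I)) →
      F i w' = F i w := by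
    intro k i w w' h
    obtain ⟨n, rfl | rfl⟩ := k.eq_nat_or_neg
    · have : w' = T^[n * N] w := by
        apply Subtype.ext
        rw [h, hTn]
        push_cast
        ring
      rw [this, hper']
    · have : w = T^[n * N] w' := by
        apply Subtype.ext
        rw [hTn, h]
        push_cast
        ring
      conv_rhs => rw [this, hper']
  -- differentiability of the lifts
  let w₀ : H := ⟨_, hHne.choose_spec⟩
  let G : Fin M.F.natDegree → ℂ → (M.R →ₐ[ℂ] ℂ) := fun i w =>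
    if h : w ∈ H then (F i ⟨w, h⟩).c else (F i w₀).c
  have hG : ∀ i w (h : w ∈ H), G i w = (F i ⟨w, h⟩).c := fun i w h => dif_pos h
  have hGJ : ∀ i, ∀ w ∈ H, M.jv (G i w) = J (Complex.exp w) := fun i w hw => by
    rw [hG i w hw]; exact hF i ⟨w, hw⟩
  have hGt : ∀ i, ∀ w ∈ H, ContinuousAt (fun w => M.tv (G i w)) w := by
    intro i w hw
    have h1 : ContinuousAt (fun w : H => pt (F i w)) ⟨w, hw⟩ :=
      ((continuous_pt M).comp (F i).continuous).continuousAt
    rw [← continuousWithinAt_iff_continuousAt (hHo.mem_nhds hw)]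
    rw [continuousWithinAt_iff_continuousAt_domRestrict _ hw]
    refine h1.congr ?_
    filter_upwards with v
    change pt (F i v) = M.tv (G i v.1)
    rw [hG i v.1 v.2]
    rfl
  have hGd : ∀ i (e : M.R), ∀ w ∈ H, DifferentiableAt ℂ (fun w => G i w e) w := by
    intro i e w hw
    obtain ⟨ε, hε, χ, hχ⟩ := M.local_branches (hd _ (hexp w hw))
    obtain ⟨-, -, -, h4, h5⟩ := hχ _ (Metric.mem_ball_self hε)
    obtain ⟨k, hk⟩ := h4 (G i w) (hGJ i w hw)
    have hnear : ∀ᶠ v in 𝓝 w, J (Complex.exp v) ∈ Metric.ball (J (Complex.exp w)) ε :=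
      (hJe w hw).continuousAt.eventually_mem (Metric.ball_mem_nhds _ hε)
    have hcont : ContinuousAt (fun v => M.tv (χ k (J (Complex.exp v)))) w :=
      ContinuousAt.comp (g := fun J => M.tv (χ k J)) (h5 k ⟨M.θ, M.hθ⟩).continuousAt
        (hJe w hw).continuousAt
    have hev : ∀ᶠ v in 𝓝 w, G i v = χ k (J (Complex.exp v)) := by
      refine M.unique_branch (χ := G i) (χ' := fun v => χ k (J (Complex.exp v)))
        ?_ (hGt i w hw) hcont ?_ hk
      · refine (hJe w hw).continuousAt.congr ?_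
        filter_upwards [hHo.mem_nhds hw] with v hv
        rw [hGJ i v hv]
      · filter_upwards [hHo.mem_nhds hw, hnear] with v hv hv'
        rw [hGJ i v hv, (hχ _ hv').2.1 k]
    have h6 : DifferentiableAt ℂ (fun v => χ k (J (Complex.exp v)) e) w :=
      DifferentiableAt.comp (g := fun J => χ k J e) w (h5 k e).differentiableAt (hJe w hw)
    refine h6.congr_of_eventuallyEq ?_
    filter_upwards [hev] with v hv
    rw [hv]
  -- the branches in `s`
  have hlog : ∀ s : ℂ, s ≠ 0 → ‖s‖ ^ N < ρ → (N : ℂ) * Complex.log s ∈ H := by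
    intro s hs hsρ
    have h1 : ((N : ℂ) * Complex.log s).re = N * Real.log ‖s‖ := by
      rw [← Complex.ofReal_natCast, Complex.re_ofReal_mul, Complex.log_re]
    change ((N : ℂ) * Complex.log s).re < Real.log ρ
    rw [h1, ← Real.log_pow]
    exact Real.log_lt_log (pow_pos (norm_pos_iff.2 hs) _) hsρ
  have hexplog : ∀ s : ℂ, s ≠ 0 → Complex.exp ((N : ℂ) * Complex.log s) = s ^ N := by
    intro s hs
    rw [Complex.exp_nat_mul, Complex.exp_log hs]
  have hdiff : ∀ s : ℂ, s ≠ 0 → ‖s‖ ^ N < ρ → ∀ (i) (e : M.R),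
      DifferentiableAt ℂ (fun s => G i ((N : ℂ) * Complex.log s) e) s := by
    intro s₁ hs₁ hsρ i e
    -- another branch of the logarithm
    set L : ℂ → ℂ := fun s => (N : ℂ) * (Complex.log (s / s₁) + Complex.log s₁) with hL
    have hL1 : L s₁ = (N : ℂ) * Complex.log s₁ := by
      simp only [hL]; rw [div_self hs₁, Complex.log_one, zero_add]
    have hLd : DifferentiableAt ℂ L s₁ := by
      have h1 : DifferentiableAt ℂ (fun s : ℂ => s / s₁) s₁ := by fun_prop
      have h2 : DifferentiableAt ℂ (fun s : ℂ => Complex.log (s / s₁)) s₁ := by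
        refine h1.clog ?_
        rw [div_self hs₁]
        exact Complex.one_mem_slitPlane
      exact (h2.add_const _).const_mul _
    have hmem : L s₁ ∈ H := by rw [hL1]; exact hlog s₁ hs₁ hsρ
    have hnear : ∀ᶠ s in 𝓝 s₁, L s ∈ H :=
      hLd.continuousAt.eventually_mem (hHo.mem_nhds hmem)
    have hne : ∀ᶠ s in 𝓝 s₁, s ≠ 0 := isOpen_ne.mem_nhds hs₁
    have hρ' : ∀ᶠ s : ℂ in 𝓝 s₁, ‖s‖ ^ N < ρ :=
      (isOpen_lt (by fun_prop : Continuous fun s : ℂ => ‖s‖ ^ N) continuous_const).mem_nhds hsρ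
    have h3 : DifferentiableAt ℂ (fun s => G i (L s) e) s₁ :=
      DifferentiableAt.comp (g := fun w => G i w e) s₁ (hGd i e _ hmem) hLd
    refine h3.congr_of_eventuallyEq ?_
    filter_upwards [hnear, hne, hρ'] with s h4 h5 h6
    have h7 : Complex.exp (Complex.log (s / s₁) + Complex.log s₁) = Complex.exp (Complex.log s) := by
      rw [Complex.exp_add, Complex.exp_log (div_ne_zero h5 hs₁), Complex.exp_log hs₁,
        Complex.exp_log h5, div_mul_cancel₀ _ hs₁]
    obtain ⟨k, hk⟩ := Complex.exp_eq_exp_iff_exists_int.1 h7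
    have h8 : L s = (N : ℂ) * Complex.log s + k * (N * (2 * Real.pi * Complex.I)) := by
      simp only [hL]
      rw [hk]
      ring
    rw [hG i _ h4, hG i _ (hlog s h5 h6)]
    rw [hperZ k i ⟨_, hlog s h5 h6⟩ ⟨_, h4⟩ h8]
  refine ⟨N, hN, fun i s => G i ((N : ℂ) * Complex.log s), ?_, ?_⟩
  · intro s hs hsρ
    refine ⟨fun i => ?_, fun χ' hχ' => ?_, fun i e => hdiff s hs hsρ i e⟩
    · rw [hGJ i _ (hlog s hs hsρ), hexplog s hs]
    · have h1 : pj (⟨χ'⟩ : Ch M) = f ⟨_, hlog s hs hsρ⟩ := by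
        change M.jv χ' = J (Complex.exp ((N : ℂ) * Complex.log s))
        rw [hexplog s hs]
        exact hχ'
      obtain ⟨i, hi⟩ := hsurj _ _ h1
      refine ⟨i, ?_⟩
      change χ' = G i ((N : ℂ) * Complex.log s)
      rw [hG i _ (hlog s hs hsρ), hi]
  · intro i e
    have hJN : MeromorphicAt (fun s : ℂ => J (s ^ N)) 0 := by
      refine MeromorphicAt.comp_analyticAt (f := J) (g := fun s : ℂ => s ^ N) ?_ (by fun_prop)
      simpa [zero_pow hN.ne'] using hmer
    have hsmall : ∀ᶠ s : ℂ in 𝓝[≠] (0 : ℂ), s ≠ 0 ∧ ‖s‖ ^ N < ρ := by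
      have h1 : ∀ᶠ s : ℂ in 𝓝 (0 : ℂ), ‖s‖ ^ N < ρ :=
        (isOpen_lt (by fun_prop : Continuous fun s : ℂ => ‖s‖ ^ N) continuous_const).mem_nhds
          (by simpa [zero_pow hN.ne'] using hρ)
      exact (eventually_mem_nhdsWithin.and (h1.filter_mono nhdsWithin_le_nhds))
    refine meromorphicAt_char M hJN (fun s => G i ((N : ℂ) * Complex.log s)) ?_ ?_ ?_ e
    · filter_upwards [hsmall] with s hs
      rw [hGJ i _ (hlog s hs.1 hs.2), hexplog s hs.1]
    · filter_upwards [hsmall] with s hs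
      refine hd _ ⟨?_, pow_ne_zero _ hs.1⟩
      rw [mem_ball_zero_iff, norm_pow]
      exact hs.2
    · intro e'
      filter_upwards [hsmall] with s hs
      exact hdiff s hs.1 hs.2 i e'

end Pool.Agent.EllSch
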