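import Pool.Agent.EllSch.Orbit
import Pool.Agent.EllSch.Avoid
import Pool.Agent.EllSch.Punct
import Pool.Agent.EllSch.Hom

/-! # [BD] The canonical logarithm is bounded near punctures and near the cusp -/

open Polynomial Filter Topology

namespace Pool.Agent.EllSch

attribute [local irreducible] wp wq wz G2 G3

section
variable {E : Type} [Field E] [Algebra ℂ E] {D : Derivation ℂ E E} {j : E} {M : Model E D j}
  {r : ℕ}

/-- The properties of the square of the normalised canonical logarithm. -/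
structure GData (T : Fam M r) (m : Fin r → ℤ) (G : ℂ → (M.R →ₐ[ℂ] ℂ) → ℂ) : Prop where
  rep : ∀ τ ∈ HH M, ∀ χ, M.jv χ = jf τ → ∃ (l : ℂ) (p : Fin r → ℂ) (k : ℤ × ℤ),
    Rel0 T τ χ l p ∧ G τ χ = ((∑ i, m i * p i) / l + k.1 + k.2 * τ) ^ 2
  hol : ∀ τ₀ ∈ HH M, ∀ χ : ℂ → (M.R →ₐ[ℂ] ℂ), (∀ᶠ t in 𝓝 τ₀, M.jv (χ t) = jf t) →
    (∀ e : M.R, ∀ᶠ t in 𝓝 τ₀,
      HasDerivAt (fun s => χ s e) (deriv jf t * χ t ⟨D e, M.hD e e.2⟩) t) →
    DifferentiableAt ℂ (fun t => G t (χ t)) τ₀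
  hT : ∀ τ ∈ HH M, ∀ χ, M.jv χ = jf τ → G (τ + 1) χ = G τ χ
  hS : ∀ τ ∈ HH M, ∀ χ, M.jv χ = jf τ → τ ^ 2 * G (-1 / τ) χ = G τ χ

/-- `(X, Y)` is the point `∑ m i P i`, also after specialisation. -/
structure SpecData (T : Fam M r) (m : Fin r → ℤ) (X Y : E) : Prop where
  hX : X ∈ M.R
  hY : Y ∈ M.R
  hXY : Y ^ 2 = 4 * X ^ 3 - T.g2 * X - T.g3
  hsp : ∀ χ : M.R →ₐ[ℂ] ℂ,
    ∑ i, m i • pt (M.vl χ T.g2) (M.vl χ T.g3) (M.vl χ (T.x i)) (M.vl χ (T.y i)) =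
      pt (M.vl χ T.g2) (M.vl χ T.g3) (M.vl χ X) (M.vl χ Y)

variable {T : Fam M r} {m : Fin r → ℤ} {G : ℂ → (M.R →ₐ[ℂ] ℂ) → ℂ} {X Y : E}

/-- the function `℘(√G)` -/
noncomputable def Xt (T : Fam M r) (X : E) (τ : ℂ) (χ : M.R →ₐ[ℂ] ℂ) : ℂ :=
  G3 1 τ * M.vl χ T.g2 / (G2 1 τ * M.vl χ T.g3) * M.vl χ X

theorem wp_of_G (h : GData T m G) (hs : SpecData T m X Y) {τ : ℂ} (hτ : τ ∈ HH M)
    {χ : M.R →ₐ[ℂ] ℂ} (hχ : M.jv χ = jf τ) :
    ∃ z, z ^ 2 = G τ χ ∧ Off 1 τ z ∧ wp 1 τ z = Xt T X τ χ := by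
  obtain ⟨l, p, k, hr, hG⟩ := h.rep τ hτ χ hχ
  have hl : l ≠ 0 := hr.1
  have hind : Ind l (l * τ) := Ind_scale hτ.1 hl
  have hsq := Rel0.sq hτ hχ hr
  obtain ⟨-, h2, h3, hp⟩ := hr
  set z := (∑ i, m i * p i) / l + k.1 + k.2 * τ with hz
  have hlz : l * z = (∑ i, m i * p i) + lat l (l * τ) k := by
    have h0 : l * ((∑ i, m i * p i) / l) = ∑ i, m i * p i := mul_div_cancel₀ _ hl
    rw [hz, lat]
    linear_combination h0
  obtain ⟨Φ, hΦ1, hΦ2⟩ := exists_hom hind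
  obtain ⟨hg2, hg3, hdisc, -⟩ := vl_disc T χ
  have hdisc' : G2 l (l * τ) ^ 3 - 27 * G3 l (l * τ) ^ 2 ≠ 0 := disc_ne_zero hind
  -- value of `Φ`
  have hval : Φ (l * z) = pt (G2 l (l * τ)) (G3 l (l * τ)) (M.vl χ X) (M.vl χ Y) := by
    rw [hlz, map_add, hΦ2, add_zero, map_sum]
    have : ∀ i, Φ (m i * p i) = m i • pt (G2 l (l * τ)) (G3 l (l * τ)) (M.vl χ (T.x i))
        (M.vl χ (T.y i)) := by
      intro i
      rw [← zsmul_eq_mul, map_zsmul, hΦ1 _ (hp i).1, (hp i).2.1, (hp i).2.2]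
    rw [Finset.sum_congr rfl fun i _ => this i]
    have := hs.hsp χ
    rw [← h2, ← h3] at this
    exact this
  have hXY : M.vl χ Y ^ 2 = 4 * M.vl χ X ^ 3 - G2 l (l * τ) * M.vl χ X - G3 l (l * τ) := by
    rw [h2, h3]
    have h1 := congrArg (M.vl χ) hs.hXY
    have hX3 : X ^ 3 ∈ M.R := pow_mem hs.hX 3
    have h4 : (4 : E) ∈ M.R := by
      have := M.R.algebraMap_mem 4
      rwa [map_ofNat] at this
    have h4v : M.vl χ 4 = 4 := by
      have := vl_const M χ 4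
      rwa [map_ofNat] at this
    rw [vl_pow M χ hs.hY, vl_sub M χ (sub_mem (mul_mem h4 hX3) (mul_mem T.hg2 hs.hX)) T.hg3,
      vl_sub M χ (mul_mem h4 hX3) (mul_mem T.hg2 hs.hX), vl_mul M χ h4 hX3, vl_pow M χ hs.hX,
      vl_mul M χ T.hg2 hs.hX, h4v] at h1
    exact h1
  have hoff : Off l (l * τ) (l * z) := by
    intro x hx
    have : Φ (l * z) = 0 := by rw [hx]; exact hΦ2 x
    rw [hval] at this
    exact pt_ne_zero hdisc' hXY this
  have hwp : wp l (l * τ) (l * z) = M.vl χ X := by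
    have h5 := hΦ1 _ hoff
    rw [hval] at h5
    obtain ⟨n1, e1⟩ := pt_eq hdisc' hXY
    obtain ⟨n2, e2⟩ := pt_eq hdisc' (ode hind hoff)
    rw [e1, e2] at h5
    have h6 := (WeierstrassCurve.Affine.Point.some.injEq _ _ _ _ _ _).mp h5
    exact h6.1.symm
  refine ⟨z, hG.symm, ?_, ?_⟩
  · have := (off_smul (a := 1) (b := τ) hl z).1 (by simpa using hoff)
    exact this
  · have h7 := wp_smul (a := 1) (b := τ) hl z
    rw [mul_one, hwp] at h7
    rw [Xt, ← hsq, h7, mul_div_cancel₀ _ (pow_ne_zero 2 hl)]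

/-- holomorphy of `G` along any continuous family of characters -/
theorem diff_comp (h : GData T m G) {τ : ℂ → ℂ} {χ : ℂ → (M.R →ₐ[ℂ] ℂ)} {s₀ : ℂ}
    (hτ : DifferentiableAt ℂ τ s₀) (hτ₀ : τ s₀ ∈ HH M) (hj : ∀ᶠ s in 𝓝 s₀, M.jv (χ s) = jf (τ s))
    (hc : ContinuousAt (fun s => M.tv (χ s)) s₀) :
    DifferentiableAt ℂ (fun s => G (τ s) (χ s)) s₀ := by
  obtain ⟨ξ, hξ⟩ := upper_branches M hτ₀
  have hξ₀ := hξ.self_of_nhds
  obtain ⟨-, a1, -, a3, a4⟩ := hξ₀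
  obtain ⟨i, hi⟩ := a3 (χ s₀) hj.self_of_nhds
  have hev : ∀ᶠ s in 𝓝 s₀, χ s = ξ i (τ s) := by
    have hjc : ContinuousAt (fun s => jf (τ s)) s₀ :=
      (ContinuousAt.comp (differentiableAt_jf hτ₀.1).continuousAt hτ.continuousAt :)
    refine M.unique_branch (χ := χ) (χ' := fun s => ξ i (τ s)) ?_ hc ?_ ?_ hi
    · exact hjc.congr (hj.mono fun s hs => hs.symm)
    · have h1 : ContinuousAt (fun t => M.tv (ξ i t)) (τ s₀) := (a4 i ⟨M.θ, M.hθ⟩).continuousAt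
      exact (ContinuousAt.comp h1 hτ.continuousAt :)
    · filter_upwards [hj, hτ.continuousAt.eventually hξ] with s h1 h2
      rw [h1, h2.2.1 i]
  have hd : DifferentiableAt ℂ (fun t => G t (ξ i t)) (τ s₀) := by
    refine h.hol _ hτ₀ (ξ i) (hξ.mono fun t ht => ht.2.1 i) fun e => ?_
    exact hξ.mono fun t ht => ht.2.2.2.2 i e
  have hd' : DifferentiableAt ℂ (fun s => G (τ s) (ξ i (τ s))) s₀ :=
    DifferentiableAt.comp s₀ hd hτ
  exact hd'.congr_of_eventuallyEq (hev.mono fun s hs => by simp only [hs])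

theorem meromorphicAt_vl {χ : ℂ → (M.R →ₐ[ℂ] ℂ)} {s₀ : ℂ}
    (h : ∀ e : M.R, MeromorphicAt (fun s => χ s e) s₀) {e : E} (he : e ∈ M.R) :
    MeromorphicAt (fun s => M.vl (χ s) e) s₀ := by
  have : (fun s => M.vl (χ s) e) = fun s => χ s ⟨e, he⟩ := funext fun s => vl_of_mem M (χ s) he
  rw [this]
  exact h _

theorem meromorphicAt_shift {F : ℂ → ℂ} (hF : ∀ τ : ℂ, 0 < τ.im → DifferentiableAt ℂ F τ) {z : ℂ}
    (hz : 0 < z.im) {N : ℕ} (hN : 0 < N) : MeromorphicAt (fun s : ℂ => F (z + s ^ N)) 0 := by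
  have : AnalyticAt ℂ (fun s : ℂ => F (z + s ^ N)) 0 := by
    have hd1 : ∀ᶠ s in 𝓝 (0 : ℂ), DifferentiableAt ℂ (fun s : ℂ => F (z + s ^ N)) s := by
      have h1 : ∀ᶠ s in 𝓝 (0 : ℂ), 0 < (z + s ^ N).im := by
        have hc : ContinuousAt (fun s : ℂ => (z + s ^ N).im) 0 := by fun_prop
        refine hc.eventually (Ioi_mem_nhds ?_)
        simpa [hN.ne'] using hz
      filter_upwards [h1] with s hs1
      exact DifferentiableAt.comp (g := F) (f := fun s : ℂ => z + s ^ N) s (hF _ hs1) (by fun_prop)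
    exact Complex.analyticAt_iff_eventually_differentiableAt.2 hd1
  exact this.meromorphicAt

/-- boundedness near any point of the upper half plane -/
theorem bdd_puncture (h : GData T m G) (hs : SpecData T m X Y) {z : ℂ} (hz : 0 < z.im) :
    ∃ B : ℝ, ∀ᶠ t in 𝓝[≠] z, ∀ χ, M.jv χ = jf t → ‖G t χ‖ ≤ B := by
  obtain ⟨ε, hε, hdis⟩ := jf_discrete M.hd hz
  have hmem : ∀ t ∈ Metric.ball (0 : ℂ) ε, 0 < (z + t).im := by
    intro t ht
    refine (hdis (z + t) ?_).1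
    rw [Metric.mem_ball, dist_eq_norm] at ht ⊢
    simpa using ht
  have hHH : ∀ t ∈ Metric.ball (0 : ℂ) ε \ {0}, z + t ∈ HH M := by
    rintro t ⟨ht, ht0⟩
    refine ⟨hmem t ht, (hdis (z + t) ?_).2 ?_⟩
    · rw [Metric.mem_ball, dist_eq_norm] at ht ⊢
      simpa using ht
    · intro h0
      apply ht0
      simpa using h0
  have hJd : ∀ t ∈ Metric.ball (0 : ℂ) ε, DifferentiableAt ℂ (fun t => jf (z + t)) t := by
    intro t ht
    exact DifferentiableAt.comp t (differentiableAt_jf (hmem t ht)) (by fun_prop)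
  have hJan : AnalyticAt ℂ (fun t => jf (z + t)) 0 := by
    have : DifferentiableOn ℂ (fun t => jf (z + t)) (Metric.ball 0 ε) :=
      fun t ht => (hJd t ht).differentiableWithinAt
    exact this.analyticAt (Metric.ball_mem_nhds 0 hε)
  obtain ⟨N, hN, χ, hχ, hmer⟩ := M.punctured_branches' (fun t => jf (z + t)) hε
    (fun t ht => (hJd t ht.1).differentiableWithinAt) hJan.meromorphicAt
    (fun t ht => (hHH t ht).2)
  -- small `s`
  have hsmall : ∀ᶠ s in 𝓝[≠] (0 : ℂ), s ≠ 0 ∧ ‖s‖ ^ N < ε := by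
    have h1 : ∀ᶠ s in 𝓝 (0 : ℂ), ‖s‖ ^ N < ε := by
      have : ContinuousAt (fun s : ℂ => ‖s‖ ^ N) 0 := by fun_prop
      refine this.eventually (Iio_mem_nhds ?_)
      simpa [hN.ne'] using hε
    filter_upwards [self_mem_nhdsWithin, nhdsWithin_le_nhds h1] with s hs1 hs2
    exact ⟨hs1, hs2⟩
  have hpow : ∀ s : ℂ, s ≠ 0 → ‖s‖ ^ N < ε → s ^ N ∈ Metric.ball (0 : ℂ) ε \ {0} := by
    intro s hs0 hsN
    refine ⟨?_, ?_⟩
    · rw [mem_ball_zero_iff, norm_pow]; exact hsN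
    · simpa using pow_ne_zero N hs0
  have hB : ∀ i, ∃ B : ℝ, ∀ᶠ s in 𝓝[≠] (0 : ℂ), ‖G (z + s ^ N) (χ i s)‖ ≤ B := by
    intro i
    refine bounded_of_limit (fun s => z + s ^ N) (fun s => Xt T X (z + s ^ N) (χ i s))
      (fun s => G (z + s ^ N) (χ i s)) (fun w => wp 1 z w) {w | Off 1 z w} ?_ ?_ ?_ ?_ ?_ ?_
    · exact isOpen_off (ind_one hz)
    · intro w hw
      exact (hasDerivAt_wp (ind_one hz) hw).continuousAt
    · intro ξ
      obtain ⟨y, hy⟩ := IsAlgClosed.exists_pow_nat_eq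
        (4 * (ξ + 1) ^ 3 - G2 1 z * (ξ + 1) - G3 1 z) (n := 2) (by norm_num)
      obtain ⟨w, hw, hw1, -⟩ := exists_wp_eq (ind_one hz) hy
      refine ⟨w, hw, ?_⟩
      simp only [hw1]
      intro h0
      have : (1 : ℂ) = 0 := by linear_combination h0
      exact one_ne_zero this
    · intro s w w₀ hw₀ hs0 hw
      obtain ⟨L, hL, -⟩ := fs_wp (ind_one hz) (show Off 1 z w₀ from hw₀)
      have hcont : ContinuousAt (fun v : ℂ × ℂ × ℂ => wp v.1 v.2.1 v.2.2) (1, z, w₀) :=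
        hL.continuousAt
      have h1 : Tendsto (fun k => ((1 : ℂ), z + s k ^ N, w k)) atTop (𝓝 (1, z, w₀)) := by
        refine Tendsto.prodMk_nhds tendsto_const_nhds (Tendsto.prodMk_nhds ?_ hw)
        have h2 : Tendsto s atTop (𝓝 0) := hs0.mono_right nhdsWithin_le_nhds
        have h3 : Tendsto (fun k => z + s k ^ N) atTop (𝓝 (z + 0 ^ N)) :=
          tendsto_const_nhds.add (h2.pow N)
        simpa [hN.ne'] using h3
      have h4 := hcont.tendsto.comp h1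
      have h5 : Tendsto (fun k => wp 1 (z + s k ^ N) (w k)) atTop (𝓝 (wp 1 z w₀)) := by
        simpa only [Function.comp_def] using h4
      exact h5
    · have e1 : MeromorphicAt (fun s : ℂ => G3 1 (z + s ^ N)) 0 :=
        meromorphicAt_shift (F := fun t => G3 1 t) (fun τ hτ => differentiableAt_G3 hτ) hz hN
      have e2 : MeromorphicAt (fun s : ℂ => G2 1 (z + s ^ N)) 0 :=
        meromorphicAt_shift (F := fun t => G2 1 t) (fun τ hτ => differentiableAt_G2 hτ) hz hN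
      have e3 := meromorphicAt_vl (hmer i) T.hg2
      have e4 := meromorphicAt_vl (hmer i) T.hg3
      have e5 := meromorphicAt_vl (hmer i) hs.hX
      exact ((e1.mul e3).div (e2.mul e4)).mul e5
    · filter_upwards [hsmall] with s hs1
      obtain ⟨hs0, hsN⟩ := hs1
      have hmem' := hpow s hs0 hsN
      have hH := hHH _ hmem'
      obtain ⟨b1, b2, b3⟩ := hχ s hs0 hsN
      refine ⟨?_, ind_one hH.1, ?_⟩
      · refine diff_comp h (by fun_prop) hH ?_ ?_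
        · have hopen : ∀ᶠ s' in 𝓝 s, s' ≠ 0 ∧ ‖s'‖ ^ N < ε := by
            have h1 : ∀ᶠ s' in 𝓝 s, ‖s'‖ ^ N < ε := by
              have : ContinuousAt (fun s : ℂ => ‖s‖ ^ N) s := by fun_prop
              exact this.eventually (Iio_mem_nhds hsN)
            exact (isOpen_ne.eventually_mem hs0).and h1
          filter_upwards [hopen] with s' hs'
          exact (hχ s' hs'.1 hs'.2).1 i
        · exact (b3 i ⟨M.θ, M.hθ⟩).continuousAt
      · exact wp_of_G h hs hH (b1 i)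
  choose B hB' using hB
  refine ⟨∑ i, |B i|, ?_⟩
  have hall : ∀ᶠ s in 𝓝[≠] (0 : ℂ), (s ≠ 0 ∧ ‖s‖ ^ N < ε) ∧
      ∀ i, ‖G (z + s ^ N) (χ i s)‖ ≤ B i := hsmall.and (eventually_all.2 hB')
  rw [eventually_nhdsWithin_iff, Metric.eventually_nhds_iff] at hall
  obtain ⟨δ, hδ, hall⟩ := hall
  rw [eventually_nhdsWithin_iff, Metric.eventually_nhds_iff]
  refine ⟨δ ^ N, by positivity, fun t ht htz χ' hχ' => ?_⟩
  obtain ⟨s, hs1⟩ := IsAlgClosed.exists_pow_nat_eq (t - z) hN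
  have hs0 : s ≠ 0 := by
    rintro rfl
    rw [zero_pow hN.ne'] at hs1
    exact htz (by simpa [eq_comm, sub_eq_zero] using hs1)
  have hsδ : dist s 0 < δ := by
    rw [dist_zero_right]
    rw [dist_eq_norm, ← hs1, norm_pow] at ht
    exact lt_of_pow_lt_pow_left₀ N hδ.le ht
  obtain ⟨⟨-, hsN⟩, hb⟩ := hall hsδ hs0
  have hzt : z + s ^ N = t := by rw [hs1]; ring
  obtain ⟨b1, b2, b3⟩ := hχ s hs0 hsN
  obtain ⟨i, hi⟩ := b2 χ' (by
    change M.jv χ' = jf (z + s ^ N)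
    rw [hzt, hχ'])
  have h1 := hb i
  rw [hzt, ← hi] at h1
  calc ‖G t χ'‖ ≤ B i := h1
    _ ≤ |B i| := le_abs_self _
    _ ≤ ∑ i, |B i| := Finset.single_le_sum (f := fun i => |B i|) (fun _ _ => abs_nonneg _)
        (Finset.mem_univ i)

end

end Pool.Agent.EllSch
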