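import Pool.Agent.EllSch.Bound

/-! # [BD] Boundedness at the cusp, vanishing of the norm -/

open Polynomial Filter Topology

namespace Pool.Agent.EllSch

attribute [local irreducible] wp wq wz G2 G3

section
variable {E : Type} [Field E] [Algebra ℂ E] {D : Derivation ℂ E E} {j : E} {M : Model E D j}
  {r : ℕ} {T : Fam M r} {m : Fin r → ℤ} {G : ℂ → (M.R →ₐ[ℂ] ℂ) → ℂ} {X Y : E}

theorem HH_add_int {τ : ℂ} (hτ : τ ∈ HH M) (k : ℤ) : τ + k ∈ HH M := by
  induction k using Int.induction_on with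
  | zero => simpa using hτ
  | succ i ih =>
    have := (HH_T (M := M) (τ := τ + (i : ℤ))).2 ih
    push_cast at this ⊢
    rwa [add_assoc] at this
  | pred i ih =>
    have : τ + (-(i : ℤ) - 1 : ℤ) + 1 ∈ HH M := by
      push_cast at ih ⊢
      have e : τ + (-(i : ℂ) - 1) + 1 = τ + -(i : ℂ) := by ring
      rwa [e]
    exact HH_T.1 this

theorem jf_add_int (τ : ℂ) (k : ℤ) : jf (τ + k) = jf τ := by
  induction k using Int.induction_on with
  | zero => simp
  | succ i ih =>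
    have h1 := jf_add_one (τ + (i : ℤ))
    push_cast at h1 ih ⊢
    rw [← add_assoc, h1, ih]
  | pred i ih =>
    have h1 := jf_add_one (τ + (-(i : ℤ) - 1 : ℤ))
    push_cast at h1 ih ⊢
    have e : τ + (-(i : ℂ) - 1) + 1 = τ + -(i : ℂ) := by ring
    rw [← h1, e, ih]

theorem G_add_int (h : GData T m G) {τ : ℂ} (hτ : τ ∈ HH M) {χ : M.R →ₐ[ℂ] ℂ}
    (hχ : M.jv χ = jf τ) (k : ℤ) : G (τ + k) χ = G τ χ := by
  induction k using Int.induction_on with
  | zero => simp
  | succ i ih =>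
    have h1 := h.hT (τ + (i : ℤ)) (HH_add_int hτ i) χ (by rw [hχ, jf_add_int])
    push_cast at h1 ih ⊢
    rw [← add_assoc, h1, ih]
  | pred i ih =>
    have h1 := h.hT (τ + (-(i : ℤ) - 1 : ℤ)) (HH_add_int hτ _) χ (by rw [hχ, jf_add_int])
    push_cast at h1 ih ⊢
    have e : τ + (-(i : ℂ) - 1) + 1 = τ + -(i : ℂ) := by ring
    rw [← h1, e, ih]

/-- boundedness at the cusp -/
theorem bdd_cusp (h : GData T m G) (hs : SpecData T m X Y) :
    ∃ B T₀ : ℝ, ∀ τ : ℂ, T₀ < τ.im → ∀ χ, M.jv χ = jf τ → ‖G τ χ‖ ≤ B := by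
  obtain ⟨ρ, hρ, hρ1, J, hJ, hJm, hJd, hJj⟩ := jf_cusp M.hd
  obtain ⟨N, hN, χ, hχ, hmer⟩ := M.punctured_branches' J hρ hJ hJm hJd
  obtain ⟨g, hg, hg0, hgG⟩ := exists_q_G2
  obtain ⟨g', hg', hg0', hgG'⟩ := exists_q_G3
  have hNC : (N : ℂ) ≠ 0 := by exact_mod_cast hN.ne'
  have hpi : (2 * Real.pi * Complex.I : ℂ) ≠ 0 := by
    simp [Real.pi_ne_zero, Complex.I_ne_zero]
  -- the parameter
  set c : ℂ := N / (2 * Real.pi * Complex.I) with hc
  have hc0 : c ≠ 0 := div_ne_zero hNC hpi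
  have hexp : ∀ τ s : ℂ, Complex.exp (τ / c) = s →
      Complex.exp (2 * Real.pi * Complex.I * τ) = s ^ N := by
    intro τ s h1
    rw [← h1, ← Complex.exp_nat_mul]
    congr 1
    rw [hc]
    field_simp
  have him : ∀ τ s : ℂ, Complex.exp (τ / c) = s → τ.im = -(N / (2 * Real.pi)) * Real.log ‖s‖ := by
    intro τ s h1
    have h2 : ‖s‖ = Real.exp (τ / c).re := by rw [← h1, Complex.norm_exp]
    rw [h2, Real.log_exp]
    have h3 : (τ / c).re = -(2 * Real.pi / N) * τ.im := by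
      have : τ / c = (2 * Real.pi / N : ℝ) * (Complex.I * τ) := by
        rw [hc]
        push_cast
        field_simp
      rw [this, Complex.re_ofReal_mul]
      simp
    rw [h3]
    have hNR : (N : ℝ) ≠ 0 := by exact_mod_cast hN.ne'
    have hpiR := Real.pi_ne_zero
    field_simp
  have hsmallpow : ∀ s : ℂ, s ≠ 0 → ‖s‖ ^ N < ρ → s ^ N ∈ Metric.ball (0 : ℂ) ρ \ {0} := by
    intro s hs0 hsN
    refine ⟨?_, ?_⟩
    · rw [mem_ball_zero_iff, norm_pow]; exact hsN
    · simpa using pow_ne_zero N hs0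
  -- a parameter with small norm gives a good point of the upper half plane
  have hgood : ∀ τ s : ℂ, s ≠ 0 → ‖s‖ ^ N < ρ → Complex.exp (τ / c) = s →
      τ ∈ HH M ∧ jf τ = J (s ^ N) := by
    intro τ s hs0 hsN h1
    have hs1 : ‖s‖ < 1 := by
      by_contra hcon
      push Not at hcon
      have : 1 ≤ ‖s‖ ^ N := one_le_pow₀ hcon
      linarith
    have hτ : 0 < τ.im := by
      rw [him τ s h1]
      have h2 : Real.log ‖s‖ < 0 := Real.log_neg (norm_pos_iff.2 hs0) hs1
      have h3 : (0 : ℝ) < N / (2 * Real.pi) := by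
        have : (0 : ℝ) < N := by exact_mod_cast hN
        positivity
      nlinarith
    have h4 : jf τ = J (s ^ N) := by
      rw [hJj τ hτ (by rw [hexp τ s h1, norm_pow]; exact hsN), hexp τ s h1]
    refine ⟨⟨hτ, ?_⟩, h4⟩
    rw [h4]
    exact hJd _ (hsmallpow s hs0 hsN)
  set τf : ℂ → ℂ := fun s => c * Complex.log s with hτf
  have hτexp : ∀ s : ℂ, s ≠ 0 → Complex.exp (τf s / c) = s := by
    intro s hs0
    rw [hτf]
    simp only
    rw [mul_div_assoc, mul_comm, div_mul_cancel₀ _ hc0, Complex.exp_log hs0]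
  -- two parameters with the same `s` differ by an integer
  have hdiff : ∀ τ τ' s : ℂ, s ≠ 0 → Complex.exp (τ / c) = s → Complex.exp (τ' / c) = s →
      ∃ k : ℤ, τ' = τ + k := by
    intro τ τ' s hs0 h1 h2
    rw [← h1, Complex.exp_eq_exp_iff_exists_int] at h2
    obtain ⟨k, hk⟩ := h2
    refine ⟨k * N, ?_⟩
    have h3 : τ' = c * (τ' / c) := by rw [mul_div_cancel₀ _ hc0]
    rw [h3, hk, mul_add, mul_div_cancel₀ _ hc0]
    congr 1
    rw [hc]
    push_cast
    field_simp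
  have hGeq : ∀ τ τ' s : ℂ, s ≠ 0 → ‖s‖ ^ N < ρ → Complex.exp (τ / c) = s →
      Complex.exp (τ' / c) = s → ∀ ξ, M.jv ξ = jf τ → G τ' ξ = G τ ξ := by
    intro τ τ' s hs0 hsN h1 h2 ξ hξ
    obtain ⟨k, rfl⟩ := hdiff τ τ' s hs0 h1 h2
    exact G_add_int h (hgood τ s hs0 hsN h1).1 hξ k
  have hsmall : ∀ᶠ s in 𝓝[≠] (0 : ℂ), s ≠ 0 ∧ ‖s‖ ^ N < ρ := by
    have h1 : ∀ᶠ s in 𝓝 (0 : ℂ), ‖s‖ ^ N < ρ := by
      have : ContinuousAt (fun s : ℂ => ‖s‖ ^ N) 0 := by fun_prop
      refine this.eventually (Iio_mem_nhds ?_)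
      simpa [hN.ne'] using hρ
    filter_upwards [self_mem_nhdsWithin, nhdsWithin_le_nhds h1] with s hs1 hs2
    exact ⟨hs1, hs2⟩
  have hB : ∀ i, ∃ B : ℝ, ∀ᶠ s in 𝓝[≠] (0 : ℂ), ‖G (τf s) (χ i s)‖ ≤ B := by
    intro i
    refine bounded_of_limit τf
      (fun s => g' (s ^ N) * M.vl (χ i s) T.g2 / (g (s ^ N) * M.vl (χ i s) T.g3) * M.vl (χ i s) X)
      (fun s => G (τf s) (χ i s)) Scot {w | ∀ k : ℤ, w ≠ k} ?_ ?_ ?_ ?_ ?_ ?_
    · have h1 : IsClosed (Set.range ((↑) : ℤ → ℂ)) := by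
        have h2 : IsClosed (Set.range ((↑) : ℤ → ℝ)) := Int.isClosedEmbedding_coe_real.isClosed_range
        have h3 : Set.range ((↑) : ℤ → ℂ) = Complex.ofReal '' (Set.range ((↑) : ℤ → ℝ)) := by
          rw [← Set.range_comp]
          congr 1
        rw [h3]
        exact Complex.isometry_ofReal.isClosedEmbedding.isClosedMap _ h2
      have h4 : {w : ℂ | ∀ k : ℤ, w ≠ k} = (Set.range ((↑) : ℤ → ℂ))ᶜ := by
        ext w
        simp [eq_comm]
      rw [h4]
      exact h1.isOpen_compl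
    · intro w hw
      exact continuousAt_Scot hw
    · intro ξ
      obtain ⟨w, hw, hw1⟩ := exists_Scot_large ‖ξ‖
      exact ⟨w, hw, fun h0 => by rw [h0] at hw1; exact lt_irrefl _ hw1⟩
    · intro s w w₀ hw₀ hs0 hw
      refine tendsto_wp_cusp ?_ hw hw₀
      have h1 : ∀ᶠ k in atTop, s k ≠ 0 := by
        have := hs0.eventually self_mem_nhdsWithin
        exact this
      have h2 : Tendsto (fun k => ‖s k‖) atTop (𝓝[>] 0) := by
        rw [tendsto_nhdsWithin_iff]
        refine ⟨?_, h1.mono fun k hk => norm_pos_iff.2 hk⟩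
        have := (hs0.mono_right nhdsWithin_le_nhds).norm
        simpa using this
      have h3 : Tendsto (fun k => Real.log ‖s k‖) atTop atBot := Real.tendsto_log_nhdsGT_zero.comp h2
      have h4 : Tendsto (fun k => -(N / (2 * Real.pi)) * Real.log ‖s k‖) atTop atTop := by
        have h5 : (-((N : ℝ) / (2 * Real.pi))) < 0 := by
          have : (0 : ℝ) < N := by exact_mod_cast hN
          have h6 : 0 < (N : ℝ) / (2 * Real.pi) := by positivity
          linarith
        exact (Filter.tendsto_const_mul_atTop_of_neg h5).2 h3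
      refine h4.congr' ?_
      filter_upwards [h1] with k hk
      exact (him _ _ (hτexp _ hk)).symm
    · have e1 : MeromorphicAt (fun s : ℂ => g' (s ^ N)) 0 := by
        have h1 : AnalyticAt ℂ g' ((0 : ℂ) ^ N) := by
          rw [zero_pow hN.ne']
          exact hg'.analyticAt (Metric.ball_mem_nhds 0 one_pos)
        exact (h1.comp' (f := fun s : ℂ => s ^ N) (by fun_prop)).meromorphicAt
      have e2 : MeromorphicAt (fun s : ℂ => g (s ^ N)) 0 := by
        have h1 : AnalyticAt ℂ g ((0 : ℂ) ^ N) := by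
          rw [zero_pow hN.ne']
          exact hg.analyticAt (Metric.ball_mem_nhds 0 one_pos)
        exact (h1.comp' (f := fun s : ℂ => s ^ N) (by fun_prop)).meromorphicAt
      have e3 := meromorphicAt_vl (hmer i) T.hg2
      have e4 := meromorphicAt_vl (hmer i) T.hg3
      have e5 := meromorphicAt_vl (hmer i) hs.hX
      exact ((e1.mul e3).div (e2.mul e4)).mul e5
    · filter_upwards [hsmall] with s hs1
      obtain ⟨hs0, hsN⟩ := hs1
      obtain ⟨hH, hjs⟩ := hgood (τf s) s hs0 hsN (hτexp s hs0)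
      obtain ⟨b1, b2, b3⟩ := hχ s hs0 hsN
      refine ⟨?_, ind_one hH.1, ?_⟩
      · -- local holomorphic parameter
        set τl : ℂ → ℂ := fun s' => τf s + c * Complex.log (s' / s) with hτl
        have hss : s / s ∈ Complex.slitPlane := by rw [div_self hs0]; exact Complex.one_mem_slitPlane
        have hτl0 : τl s = τf s := by
          rw [hτl]
          simp [div_self hs0]
        have hdl : DifferentiableAt ℂ τl s := by
          have h1 : DifferentiableAt ℂ (fun s' : ℂ => Complex.log (s' / s)) s := by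
            have h2 : DifferentiableAt ℂ (fun s' : ℂ => s' / s) s := by fun_prop
            exact h2.clog hss
          exact (differentiableAt_const _).add ((differentiableAt_const c).mul h1)
        have hexpl : ∀ s' : ℂ, s' ≠ 0 → Complex.exp (τl s' / c) = s' := by
          intro s' hs'
          rw [hτl]
          simp only
          rw [add_div, Complex.exp_add, hτexp s hs0, mul_div_assoc, mul_comm c,
            div_mul_cancel₀ _ hc0, Complex.exp_log (div_ne_zero hs' hs0), mul_div_cancel₀ _ hs0]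
        have hopen : ∀ᶠ s' in 𝓝 s, s' ≠ 0 ∧ ‖s'‖ ^ N < ρ := by
          have h1 : ∀ᶠ s' in 𝓝 s, ‖s'‖ ^ N < ρ := by
            have : ContinuousAt (fun s : ℂ => ‖s‖ ^ N) s := by fun_prop
            exact this.eventually (Iio_mem_nhds hsN)
          exact (isOpen_ne.eventually_mem hs0).and h1
        have hdG : DifferentiableAt ℂ (fun s' => G (τl s') (χ i s')) s := by
          refine diff_comp h hdl (by rw [hτl0]; exact hH) ?_ ?_
          · filter_upwards [hopen] with s' hs'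
            rw [(hχ s' hs'.1 hs'.2).1 i, (hgood (τl s') s' hs'.1 hs'.2 (hexpl s' hs'.1)).2]
          · exact (b3 i ⟨M.θ, M.hθ⟩).continuousAt
        refine hdG.congr_of_eventuallyEq ?_
        filter_upwards [hopen] with s' hs'
        refine hGeq (τl s') (τf s') s' hs'.1 hs'.2 (hexpl s' hs'.1) (hτexp s' hs'.1) _ ?_
        rw [(hχ s' hs'.1 hs'.2).1 i, (hgood (τl s') s' hs'.1 hs'.2 (hexpl s' hs'.1)).2]
      · obtain ⟨z, hz1, hz2, hz3⟩ := wp_of_G h hs hH (by rw [b1 i, hjs] : M.jv (χ i s) = jf (τf s))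
        refine ⟨z, hz1, hz2, ?_⟩
        rw [hz3, Xt, hgG _ hH.1, hgG' _ hH.1, hexp _ _ (hτexp s hs0)]
  choose B hB' using hB
  have hall : ∀ᶠ s in 𝓝[≠] (0 : ℂ), (s ≠ 0 ∧ ‖s‖ ^ N < ρ) ∧
      ∀ i, ‖G (τf s) (χ i s)‖ ≤ B i := hsmall.and (eventually_all.2 hB')
  rw [eventually_nhdsWithin_iff, Metric.eventually_nhds_iff] at hall
  obtain ⟨δ, hδ, hall⟩ := hall
  refine ⟨∑ i, |B i|, -(N / (2 * Real.pi)) * Real.log δ, fun τ hτ ξ hξ => ?_⟩
  set s : ℂ := Complex.exp (τ / c) with hs_def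
  have hs0 : s ≠ 0 := Complex.exp_ne_zero _
  have hsδ : dist s 0 < δ := by
    rw [dist_zero_right]
    have h1 := him τ s rfl
    rw [h1] at hτ
    have h3 : (0 : ℝ) < N / (2 * Real.pi) := by
      have : (0 : ℝ) < N := by exact_mod_cast hN
      positivity
    have h4 : Real.log ‖s‖ < Real.log δ := by nlinarith
    exact (Real.log_lt_log_iff (norm_pos_iff.2 hs0) hδ).1 h4
  obtain ⟨⟨-, hsN⟩, hb⟩ := hall hsδ hs0
  obtain ⟨hH, hjs⟩ := hgood τ s hs0 hsN rfl
  obtain ⟨b1, b2, b3⟩ := hχ s hs0 hsN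
  obtain ⟨i, hi⟩ := b2 ξ (by
    change M.jv ξ = J (s ^ N)
    rw [← hjs, hξ])
  have h1 := hb i
  have h2 : G (τf s) ξ = G τ ξ := hGeq τ (τf s) s hs0 hsN rfl (hτexp s hs0) ξ hξ
  rw [← hi, h2] at h1
  calc ‖G τ ξ‖ ≤ B i := h1
    _ ≤ |B i| := le_abs_self _
    _ ≤ ∑ i, |B i| := Finset.single_le_sum (f := fun i => |B i|) (fun _ _ => abs_nonneg _)
        (Finset.mem_univ i)

open Classical in
/-- there is no such pair `G`, `(X, Y)` -/
theorem G_contradiction (h : GData T m G) (hs : SpecData T m X Y) : False := by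
  -- the norm of `G`
  set Θ : ℂ → ℂ := fun τ => ∏ χ ∈ (M.fib_finite (jf τ)).toFinset, G τ χ with hΘ
  set Z : Set ℂ := {τ | M.d.eval (jf τ) = 0} with hZ
  have hHH : ∀ τ : ℂ, 0 < τ.im → τ ∉ Z → τ ∈ HH M := fun τ h1 h2 => ⟨h1, h2⟩
  have hdeg : 0 < M.F.natDegree := M.hdeg
  have hcard : ∀ τ ∈ HH M, ((M.fib_finite (jf τ)).toFinset).card = M.F.natDegree := by
    intro τ hτ
    rw [← Set.ncard_eq_toFinset_card _ (M.fib_finite (jf τ)), M.fib_ncard hτ.2]
  have key := form_eq_zero Θ Z (2 * M.F.natDegree) (by omega) ?_ ?_ ?_ ?_ ?_ ?_ ?_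
  · -- contradiction
    obtain ⟨τ, hτ⟩ := nonempty_HH M
    have h1 := key τ hτ.1 hτ.2
    rw [hΘ] at h1
    simp only at h1
    rw [Finset.prod_eq_zero_iff] at h1
    obtain ⟨χ, hχ, h2⟩ := h1
    rw [Set.Finite.mem_toFinset] at hχ
    obtain ⟨z, hz1, hz2, -⟩ := wp_of_G h hs hτ (hχ : M.jv χ = jf τ)
    rw [h2] at hz1
    have hz0 : z = 0 := by simpa using hz1
    apply hz2 (0, 0)
    simp [hz0, lat]
  · intro z hz
    obtain ⟨ε, hε, hd⟩ := jf_discrete M.hd hz
    exact ⟨ε, hε, fun w hw hwz => (hd w hw).2 hwz⟩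
  · intro τ hτ hτZ
    obtain ⟨ξ, hξ⟩ := upper_branches M (hHH τ hτ hτZ)
    have hev : ∀ᶠ t in 𝓝 τ, Θ t = ∏ i, G t (ξ i t) := by
      filter_upwards [hξ] with t ht
      obtain ⟨-, c1, c2, c3, -⟩ := ht
      rw [hΘ]
      simp only
      symm
      refine Finset.prod_bij (fun i _ => ξ i t) ?_ ?_ ?_ ?_
      · intro i _
        rw [Set.Finite.mem_toFinset]
        exact c1 i
      · intro i _ i' _ hii
        exact c2 hii
      · intro χ' hχ'
        rw [Set.Finite.mem_toFinset] at hχ'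
        obtain ⟨i, hi⟩ := c3 χ' hχ'
        exact ⟨i, Finset.mem_univ _, hi.symm⟩
      · intro i _
        rfl
    have hdp : DifferentiableAt ℂ (fun t => ∏ i, G t (ξ i t)) τ := by
      refine DifferentiableAt.fun_finsetProd fun i _ => ?_
      exact h.hol τ (hHH τ hτ hτZ) (ξ i) (hξ.mono fun t ht => ht.2.1 i)
        fun e => hξ.mono fun t ht => ht.2.2.2.2 i e
    exact hdp.congr_of_eventuallyEq hev
  · intro z hz _
    obtain ⟨B, hB⟩ := bdd_puncture h hs hz
    refine ⟨(max B 1) ^ M.F.natDegree, ?_⟩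
    obtain ⟨ε, hε, hd⟩ := jf_discrete M.hd hz
    have h2 : ∀ᶠ t in 𝓝[≠] z, t ∈ HH M := by
      rw [eventually_nhdsWithin_iff]
      filter_upwards [Metric.ball_mem_nhds z hε] with t ht htz
      exact ⟨(hd t ht).1, (hd t ht).2 htz⟩
    filter_upwards [hB, h2] with t ht ht2
    rw [hΘ]
    simp only
    rw [norm_prod, ← hcard t ht2, ← Finset.prod_const]
    refine Finset.prod_le_prod (fun _ _ => norm_nonneg _) fun χ hχ => ?_
    rw [Set.Finite.mem_toFinset] at hχ
    exact (ht χ hχ).trans (le_max_left _ _)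
  · obtain ⟨B, T₀, hB⟩ := bdd_cusp h hs
    refine ⟨(max B 1) ^ M.F.natDegree, max T₀ 0, fun τ hτ hτZ => ?_⟩
    have hτ0 : 0 < τ.im := lt_of_le_of_lt (le_max_right _ _) hτ
    have hτ1 : T₀ < τ.im := lt_of_le_of_lt (le_max_left _ _) hτ
    rw [hΘ]
    simp only
    rw [norm_prod, ← hcard τ (hHH τ hτ0 hτZ), ← Finset.prod_const]
    refine Finset.prod_le_prod (fun _ _ => norm_nonneg _) fun χ hχ => ?_
    rw [Set.Finite.mem_toFinset] at hχ
    exact (hB τ hτ1 χ hχ).trans (le_max_left _ _)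
  · intro τ hτ hτZ
    have hH := hHH τ hτ hτZ
    refine ⟨(HH_T.2 hH).2, ?_⟩
    rw [hΘ]
    simp only
    rw [jf_add_one]
    refine Finset.prod_congr rfl fun χ hχ => ?_
    rw [Set.Finite.mem_toFinset] at hχ
    exact h.hT τ hH χ hχ
  · intro τ hτ hτZ
    have hH := hHH τ hτ hτZ
    have := HH_add_int hH (-1)
    push_cast at this
    exact this.2
  · intro τ hτ hτZ
    have hH := hHH τ hτ hτZ
    refine ⟨(HH_S hH).2, ?_⟩
    rw [hΘ]
    simp only
    rw [jf_S hτ, pow_mul, ← hcard τ hH, ← Finset.prod_const, ← Finset.prod_mul_distrib]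
    refine Finset.prod_congr rfl fun χ hχ => ?_
    rw [Set.Finite.mem_toFinset] at hχ
    exact h.hS τ hH χ hχ

end

end Pool.Agent.EllSch
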