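import Pool.Agent.EllSch.Model

/-! # [BR] Analytic branches of the characters of a model -/

set_option linter.all false

open Polynomial Filter Topology

namespace Pool.Agent.EllSch

namespace Branch

open ModelAux

theorem map_ev2 {A B : Type*} [CommRing A] [Algebra ℂ A] [CommRing B] [Algebra ℂ B]
    (f : A →ₐ[ℂ] B) (N : ℂ[X][X]) (a b : A) : f (ev2 N a b) = ev2 N (f a) (f b) := by
  have h : (f : A →+* B).comp (aeval a : ℂ[X] →ₐ[ℂ] A).toRingHom =
      (aeval (f a) : ℂ[X] →ₐ[ℂ] B).toRingHom := by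
    have h0 : f.comp (aeval a : ℂ[X] →ₐ[ℂ] A) = aeval (f a) := by
      ext; simp
    exact congrArg AlgHom.toRingHom h0
  unfold ev2
  rw [← h]
  exact Polynomial.hom_eval₂ N _ (f : A →+* B) b

theorem ev2_eq_evC (N : ℂ[X][X]) (J x : ℂ) : ev2 N J x = evC N J x := by
  unfold ev2 evC
  rw [eval_map]
  congr 1

/-- the polynomial as a function of two complex variables -/
theorem contDiff_evC (N : ℂ[X][X]) {n : WithTop ℕ∞} :
    ContDiff ℂ n (fun p : ℂ × ℂ => evC N p.1 p.2) := by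
  induction N using Polynomial.induction_on' with
  | add p q hp hq => simpa only [evC_add] using hp.add hq
  | monomial k a =>
    have h : (fun p : ℂ × ℂ => evC (monomial k a) p.1 p.2) = fun p => a.eval p.1 * p.2 ^ k := by
      funext p; simp [evC]
    rw [h]
    have h1 : ContDiff ℂ n fun z : ℂ => a.eval z := by
      simpa using Polynomial.contDiff_aeval (𝕜 := ℂ) a n
    exact (h1.comp contDiff_fst).mul (contDiff_snd.pow k)

theorem hasDerivAt_evC_snd (N : ℂ[X][X]) (J x : ℂ) :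
    HasDerivAt (fun y => evC N J y) (evC (derivative N) J x) x := by
  have := (N.map (evalRingHom J)).hasDerivAt x
  unfold evC
  rwa [← derivative_map]

/-- local solution of `F(J, x) = 0` near a simple root -/
theorem exists_local_root (F : ℂ[X][X]) {J₀ x₀ : ℂ} (h0 : evC F J₀ x₀ = 0)
    (h1 : evC (derivative F) J₀ x₀ ≠ 0) :
    ∃ ψ : ℂ → ℂ, ψ J₀ = x₀ ∧ (∀ᶠ J in 𝓝 J₀, evC F J (ψ J) = 0 ∧ DifferentiableAt ℂ ψ J) ∧
      ∀ᶠ p : ℂ × ℂ in 𝓝 (J₀, x₀), evC F p.1 p.2 = 0 → p.2 = ψ p.1 := by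
  set g : ℂ × ℂ → ℂ := fun p => evC F p.1 p.2 with hg
  set f : ℂ × ℂ → ℂ × ℂ := fun p => (p.1, g p) with hf
  have hgC : ContDiff ℂ 1 g := contDiff_evC F
  have hfC : ContDiff ℂ 1 f := contDiff_fst.prodMk hgC
  have hg' : HasFDerivAt g (fderiv ℂ g (J₀, x₀)) (J₀, x₀) :=
    (hgC.differentiable one_ne_zero).differentiableAt.hasFDerivAt
  set g' := fderiv ℂ g (J₀, x₀) with hg'def
  have hb : g' (0, 1) = evC (derivative F) J₀ x₀ := by
    have h2 : HasDerivAt (fun y : ℂ => ((J₀, y) : ℂ × ℂ)) ((0 : ℂ), (1 : ℂ)) x₀ :=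
      (hasDerivAt_const x₀ J₀).prodMk (hasDerivAt_id x₀)
    have h3 : HasDerivAt (g ∘ fun y : ℂ => ((J₀, y) : ℂ × ℂ)) (g' (0, 1)) x₀ :=
      HasFDerivAt.comp_hasDerivAt x₀ (by exact hg') h2
    exact h3.unique (hasDerivAt_evC_snd F J₀ x₀)
  have hb0 : g' (0, 1) ≠ 0 := by rw [hb]; exact h1
  set f' : ℂ × ℂ →L[ℂ] ℂ × ℂ := (ContinuousLinearMap.fst ℂ ℂ ℂ).prod g' with hf'
  have hgvw : ∀ v w : ℂ, g' (v, w) = v * g' (1, 0) + w * g' (0, 1) := by
    intro v w
    have : ((v, w) : ℂ × ℂ) = v • ((1 : ℂ), (0 : ℂ)) + w • ((0 : ℂ), (1 : ℂ)) := by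
      ext <;> simp
    rw [this, map_add, map_smul, map_smul, smul_eq_mul, smul_eq_mul]
  have hker : f'.ker = ⊥ := by
    rw [LinearMap.ker_eq_bot']
    rintro ⟨v, w⟩ h
    have h2 : (v, g' (v, w)) = ((0 : ℂ), (0 : ℂ)) := h
    rw [Prod.mk.injEq] at h2
    obtain ⟨h3, h4⟩ := h2
    subst h3
    rw [hgvw, zero_mul, zero_add] at h4
    rw [(mul_eq_zero.1 h4).resolve_right hb0]
    rfl
  have hrange : f'.range = ⊤ := by
    rw [LinearMap.range_eq_top]
    rintro ⟨v, w⟩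
    refine ⟨(v, (w - v * g' (1, 0)) / g' (0, 1)), ?_⟩
    show (v, g' (v, (w - v * g' (1, 0)) / g' (0, 1))) = (v, w)
    rw [hgvw, div_mul_cancel₀ _ hb0]
    congr 1
    ring
  set e : (ℂ × ℂ) ≃L[ℂ] (ℂ × ℂ) := ContinuousLinearEquiv.ofBijective f' hker hrange with he
  have hfe : HasFDerivAt f (e : ℂ × ℂ →L[ℂ] ℂ × ℂ) (J₀, x₀) := by
    rw [he, ContinuousLinearEquiv.coe_ofBijective]
    exact hasFDerivAt_fst.prodMk hg'
  have hfCa : ContDiffAt ℂ 1 f (J₀, x₀) := hfC.contDiffAt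
  have hstrict : HasStrictFDerivAt f (e : ℂ × ℂ →L[ℂ] ℂ × ℂ) (J₀, x₀) :=
    hfCa.hasStrictFDerivAt' hfe one_ne_zero
  set Ψ : ℂ × ℂ → ℂ × ℂ := hfCa.localInverse hfe one_ne_zero with hΨ
  have hfa : f (J₀, x₀) = (J₀, 0) := by
    show (J₀, evC F J₀ x₀) = (J₀, 0)
    rw [h0]
  have hΨa : Ψ (J₀, 0) = (J₀, x₀) := by
    rw [← hfa]; exact hfCa.localInverse_apply_image hfe one_ne_zero
  have hΨC : ContDiffAt ℂ 1 Ψ (J₀, 0) := by
    rw [← hfa]; exact hfCa.to_localInverse hfe one_ne_zero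
  have hright : ∀ᶠ y in 𝓝 ((J₀, 0) : ℂ × ℂ), f (Ψ y) = y := by
    rw [← hfa]; exact hstrict.eventually_right_inverse
  have hleft : ∀ᶠ p in 𝓝 ((J₀, x₀) : ℂ × ℂ), Ψ (f p) = p := hstrict.eventually_left_inverse
  have hc : ContDiffAt ℂ 1 (fun J : ℂ => ((J, 0) : ℂ × ℂ)) J₀ :=
    contDiffAt_id.prodMk contDiffAt_const
  refine ⟨fun J => (Ψ (J, 0)).2, by show (Ψ (J₀, 0)).2 = x₀; rw [hΨa], ?_, ?_⟩
  · have h2 : ∀ᶠ J in 𝓝 J₀, f (Ψ (J, 0)) = (J, 0) :=
      hc.continuousAt.eventually (by exact hright)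
    have h3 : ContDiffAt ℂ 1 (fun J => (Ψ (J, 0)).2) J₀ :=
      contDiffAt_snd.comp J₀ (ContDiffAt.comp J₀ (by exact hΨC) hc)
    filter_upwards [h2, h3.eventually (by decide)] with J hJ hJ'
    refine ⟨?_, hJ'.differentiableAt one_ne_zero⟩
    have h4 : ((Ψ (J, 0)).1, g (Ψ (J, 0))) = (J, 0) := hJ
    rw [Prod.mk.injEq] at h4
    obtain ⟨h5, h6⟩ := h4
    have h7 : g (Ψ (J, 0)) = evC F (Ψ (J, 0)).1 (Ψ (J, 0)).2 := rfl
    rw [h7, h5] at h6
    exact h6
  · filter_upwards [hleft] with p hp hp0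
    have h4 : f p = (p.1, 0) := by
      show (p.1, evC F p.1 p.2) = _
      rw [hp0]
    rw [h4] at hp
    show p.2 = (Ψ (p.1, 0)).2
    rw [hp]

end Branch

open ModelAux Branch

variable {E : Type} [Field E] [Algebra ℂ E] {D : Derivation ℂ E E} {j : E} (M : Model E D j)

/-- the value at `j` of a character -/
noncomputable def Model.jv (M : Model E D j) (χ : M.R →ₐ[ℂ] ℂ) : ℂ := χ ⟨j, M.hj⟩

/-- the value at `θ` of a character -/
noncomputable def Model.tv (M : Model E D j) (χ : M.R →ₐ[ℂ] ℂ) : ℂ := χ ⟨M.θ, M.hθ⟩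

namespace Branch

/-- `j` as an element of `R` -/
def jR (M : Model E D j) : M.R := ⟨j, M.hj⟩

/-- `θ` as an element of `R` -/
def tR (M : Model E D j) : M.R := ⟨M.θ, M.hθ⟩

theorem coe_ev2 (N : ℂ[X][X]) : ((ev2 N (jR M) (tR M) : M.R) : E) = ev2 N j M.θ :=
  map_ev2 M.R.val N (jR M) (tR M)

theorem coe_aeval (a : ℂ[X]) : ((aeval (jR M) a : M.R) : E) = aeval j a :=
  (Polynomial.aeval_algHom_apply M.R.val (jR M) a).symm

theorem chi_ev2 (χ : M.R →ₐ[ℂ] ℂ) (N : ℂ[X][X]) :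
    χ (ev2 N (jR M) (tR M)) = evC N (M.jv χ) (M.tv χ) := by
  rw [map_ev2, ev2_eq_evC]
  rfl

theorem chi_aeval (χ : M.R →ₐ[ℂ] ℂ) (a : ℂ[X]) : χ (aeval (jR M) a) = a.eval (M.jv χ) := by
  rw [← Polynomial.aeval_algHom_apply, coe_aeval_eq_eval]
  rfl

theorem rep (e : M.R) : ∃ (N : ℂ[X][X]) (n : ℕ), e * aeval (jR M) M.d ^ n =
    ev2 N (jR M) (tR M) := by
  obtain ⟨N, n, h⟩ := M.hrep e e.2
  refine ⟨N, n, Subtype.ext ?_⟩
  rw [coe_ev2, ← h]
  simp only [MulMemClass.coe_mul, SubmonoidClass.coe_pow, coe_aeval]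

end Branch

theorem Model.eval_d_ne_zero (χ : M.R →ₐ[ℂ] ℂ) : M.d.eval (M.jv χ) ≠ 0 := by
  have h : aeval (jR M) M.d * (⟨_, M.hdinv⟩ : M.R) = 1 := by
    apply Subtype.ext
    simp only [MulMemClass.coe_mul, coe_aeval, OneMemClass.coe_one]
    exact mul_inv_cancel₀ M.hdj
  have h2 := congrArg χ h
  rw [map_mul, map_one, chi_aeval] at h2
  exact left_ne_zero_of_mul_eq_one h2

theorem Model.char_ext {χ χ' : M.R →ₐ[ℂ] ℂ} (h1 : M.jv χ = M.jv χ') (h2 : M.tv χ = M.tv χ') :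
    χ = χ' := by
  ext e
  obtain ⟨N, n, h⟩ := rep M e
  have e1 := congrArg χ h
  have e2 := congrArg χ' h
  rw [map_mul, map_pow, chi_aeval, chi_ev2] at e1 e2
  rw [← h1, ← h2, ← e1] at e2
  exact (mul_right_cancel₀ (pow_ne_zero n (M.eval_d_ne_zero χ)) e2).symm

/-- the characters over `J` -/
def Model.fib (M : Model E D j) (J : ℂ) : Set (M.R →ₐ[ℂ] ℂ) := {χ | M.jv χ = J}

namespace Branch

theorem evC_F (χ : M.R →ₐ[ℂ] ℂ) : evC M.F (M.jv χ) (M.tv χ) = 0 := by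
  rw [← chi_ev2]
  have : ev2 M.F (jR M) (tR M) = 0 := by
    apply Subtype.ext
    rw [coe_ev2, M.hroot]
    rfl
  rw [this, map_zero]

theorem evC_F' {J x : ℂ} (hJ : M.d.eval J ≠ 0) (hx : evC M.F J x = 0) :
    evC (derivative M.F) J x ≠ 0 := by
  intro h
  obtain ⟨a, b, hab⟩ := M.hsep J hJ
  have := congrArg (eval x) hab
  rw [eval_add, eval_mul, eval_mul, derivative_map] at this
  have h1 : eval x (M.F.map (evalRingHom J)) = 0 := hx
  have h2 : eval x ((derivative M.F).map (evalRingHom J)) = 0 := h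
  rw [h1, h2] at this
  simp at this

theorem injOn_tv (J : ℂ) : Set.InjOn M.tv (M.fib J) := by
  intro χ hχ χ' hχ' h
  exact M.char_ext ((hχ : M.jv χ = J).trans (hχ' : M.jv χ' = J).symm) h

theorem image_tv {J : ℂ} (hJ : M.d.eval J ≠ 0) :
    M.tv '' (M.fib J) = ((M.F.map (evalRingHom J)).roots.toFinset : Set ℂ) := by
  have hne : M.F.map (evalRingHom J) ≠ 0 := (M.hF.map _).ne_zero
  ext x
  rw [Finset.mem_coe, Multiset.mem_toFinset, mem_roots hne]
  constructor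
  · rintro ⟨χ, hχ, rfl⟩
    have := evC_F M χ
    rw [(hχ : M.jv χ = J)] at this
    exact this
  · intro hx
    obtain ⟨χ, h1, h2⟩ := M.hchar J x hJ hx
    exact ⟨χ, h1, h2⟩

end Branch

theorem Model.fib_finite (J : ℂ) : (M.fib J).Finite := by
  by_cases hJ : M.d.eval J = 0
  · have : M.fib J = ∅ := by
      rw [Set.eq_empty_iff_forall_notMem]
      intro χ hχ
      apply M.eval_d_ne_zero χ
      rw [(hχ : M.jv χ = J)]
      exact hJ
    rw [this]
    exact Set.finite_empty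
  · apply Set.Finite.of_finite_image _ (injOn_tv M J)
    rw [image_tv M hJ]
    exact Finset.finite_toSet _

theorem Model.fib_ncard {J : ℂ} (hJ : M.d.eval J ≠ 0) : (M.fib J).ncard = M.F.natDegree := by
  rw [← Set.ncard_image_of_injOn (injOn_tv M J), image_tv M hJ, Set.ncard_coe_finset,
    Multiset.toFinset_card_of_nodup (nodup_roots (M.hsep J hJ)),
    splits_iff_card_roots.1 (IsAlgClosed.splits _), M.hF.natDegree_map]

namespace Branch

/-- the derivation of the model ring -/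
noncomputable def DR (M : Model E D j) : Derivation ℂ M.R M.R :=
  Derivation.mk'
    { toFun := fun e => ⟨D e, M.hD e e.2⟩
      map_add' := fun a b => Subtype.ext (by simp)
      map_smul' := fun c a => Subtype.ext (by simp) }
    (fun a b => Subtype.ext (by simp))

theorem coe_DR (e : M.R) : (DR M e : E) = D e := rfl

theorem DR_j : DR M (jR M) = 1 := Subtype.ext M.hDj

/-- the derivative along a branch -/
theorem hasDerivAt_evC (χ : M.R →ₐ[ℂ] ℂ) {x : ℂ → ℂ} {x' J : ℂ} (hJ : M.jv χ = J)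
    (hx : M.tv χ = x J) (hx' : HasDerivAt x x' J) (N : ℂ[X][X]) :
    HasDerivAt (fun z => evC N z (x z))
      (χ (DR M (ev2 N (jR M) (tR M))) +
        evC (derivative N) J (x J) * (x' - χ (DR M (tR M)))) J := by
  have hj : χ (jR M) = J := hJ
  have ht : χ (tR M) = x J := hx
  induction N using Polynomial.induction_on' with
  | add p q hp hq =>
    have h := hp.add hq
    rw [show (fun z => evC (p + q) z (x z)) = (fun z => evC p z (x z)) + fun z => evC q z (x z) from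
      by funext z; exact evC_add _ _ _ _]
    refine h.congr_deriv ?_
    rw [ev2_add, map_add, map_add, derivative_add, evC_add]
    ring
  | monomial n a =>
    have h1 : (fun z => evC (monomial n a) z (x z)) = fun z => a.eval z * x z ^ n := by
      funext p; simp [evC]
    rw [h1, ev2_monomial, Derivation.leibniz, Derivation.leibniz_pow, Derivation.map_aeval, DR_j,
      derivative_monomial]
    have h2 := (a.hasDerivAt J).mul (hx'.pow n)
    refine h2.congr_deriv ?_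
    have h3 : evC (monomial (n - 1) (a * (n : ℂ[X]))) J (x J) = a.eval J * n * x J ^ (n - 1) := by
      simp [evC]
    rw [h3]
    simp only [smul_eq_mul, mul_one, map_mul, map_add, map_pow, hj, ht, nsmul_eq_mul, map_natCast,
      chi_aeval, hJ, Pi.pow_apply]
    ring

/-- the derivative of a branch of roots is the value of `D θ` -/
theorem deriv_root (χ : M.R →ₐ[ℂ] ℂ) {x : ℂ → ℂ} {x' J : ℂ} (hJ : M.jv χ = J)
    (hx : M.tv χ = x J) (hx' : HasDerivAt x x' J) (h0 : ∀ᶠ z in 𝓝 J, evC M.F z (x z) = 0) :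
    x' = χ (DR M (tR M)) := by
  have h1 := hasDerivAt_evC M χ hJ hx hx' M.F
  have h2 : ev2 M.F (jR M) (tR M) = 0 := by
    apply Subtype.ext
    rw [coe_ev2, M.hroot]
    rfl
  rw [h2, map_zero, map_zero, zero_add] at h1
  have h3 : HasDerivAt (fun z => evC M.F z (x z)) 0 J :=
    (hasDerivAt_const J (0 : ℂ)).congr_of_eventuallyEq h0
  have h4 := h1.unique h3
  have h5 : evC (derivative M.F) J (x J) ≠ 0 := by
    have hF := evC_F M χ
    have hd := M.eval_d_ne_zero χ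
    rw [hJ, hx] at hF
    rw [hJ] at hd
    exact evC_F' M hd hF
  exact sub_eq_zero.1 ((mul_eq_zero.1 h4).resolve_left h5)

/-- differentiability of a branch of characters -/
theorem hasDerivAt_branch (χ : ℂ → (M.R →ₐ[ℂ] ℂ)) {x : ℂ → ℂ} {J : ℂ}
    (hx' : DifferentiableAt ℂ x J)
    (h : ∀ᶠ z in 𝓝 J, M.jv (χ z) = z ∧ M.tv (χ z) = x z) (e : M.R) :
    HasDerivAt (fun z => χ z e) (χ J (DR M e)) J := by
  have h0 : ∀ᶠ z in 𝓝 J, evC M.F z (x z) = 0 := by
    filter_upwards [h] with z hz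
    have := evC_F M (χ z)
    rwa [hz.1, hz.2] at this
  have hJ := h.self_of_nhds
  have hr := deriv_root M (χ J) hJ.1 hJ.2 hx'.hasDerivAt h0
  have key : ∀ N : ℂ[X][X], HasDerivAt (fun z => evC N z (x z))
      (χ J (DR M (ev2 N (jR M) (tR M)))) J := by
    intro N
    have := hasDerivAt_evC M (χ J) hJ.1 hJ.2 hx'.hasDerivAt N
    rwa [hr, sub_self, mul_zero, add_zero] at this
  obtain ⟨N, n, hN⟩ := rep M e
  have hdJ : M.d.eval J ≠ 0 := by
    have := M.eval_d_ne_zero (χ J)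
    rwa [hJ.1] at this
  -- the function is a quotient
  have hq : (fun z => χ z e) =ᶠ[𝓝 J] fun z => evC N z (x z) / M.d.eval z ^ n := by
    filter_upwards [h] with z hz
    have e1 := congrArg (χ z) hN
    rw [map_mul, map_pow, chi_aeval, chi_ev2, hz.1, hz.2] at e1
    have hdz : M.d.eval z ≠ 0 := by
      have := M.eval_d_ne_zero (χ z)
      rwa [hz.1] at this
    rw [← e1, mul_div_cancel_right₀ _ (pow_ne_zero n hdz)]
  have hdn : HasDerivAt (fun z => M.d.eval z ^ n) (χ J (DR M (aeval (jR M) M.d ^ n))) J := by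
    have := key (C (M.d ^ n))
    rw [ev2_C, map_pow (aeval (jR M))] at this
    refine this.congr_of_eventuallyEq (Filter.Eventually.of_forall fun z => ?_)
    simp only [evC_C, eval_pow]
  have hdiff : DifferentiableAt ℂ (fun z => χ z e) J := by
    refine DifferentiableAt.congr_of_eventuallyEq ?_ hq
    exact (key N).differentiableAt.div hdn.differentiableAt (pow_ne_zero n hdJ)
  have hprod := hdiff.hasDerivAt.mul hdn
  have hprod' : HasDerivAt (fun z => evC N z (x z))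
      (deriv (fun z => χ z e) J * M.d.eval J ^ n + χ J e * χ J (DR M (aeval (jR M) M.d ^ n))) J := by
    refine hprod.congr_of_eventuallyEq ?_
    filter_upwards [h] with z hz
    have e1 := congrArg (χ z) hN
    rw [map_mul, map_pow, chi_aeval, chi_ev2, hz.1, hz.2] at e1
    exact e1.symm
  have h5 := hprod'.unique (key N)
  have h8 : χ J (aeval (jR M) M.d ^ n) = M.d.eval J ^ n := by rw [map_pow, chi_aeval, hJ.1]
  rw [← hN, Derivation.leibniz, map_add, smul_eq_mul, smul_eq_mul, map_mul, map_mul, h8] at h5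
  have h6 : deriv (fun z => χ z e) J * M.d.eval J ^ n = χ J (DR M e) * M.d.eval J ^ n := by
    linear_combination h5
  have h7 := mul_right_cancel₀ (pow_ne_zero n hdJ) h6
  rw [← h7]
  exact hdiff.hasDerivAt

end Branch

/-- local branches through all the characters over `J₀` -/
theorem Model.local_branches {J₀ : ℂ} (hJ : M.d.eval J₀ ≠ 0) :
    ∃ ε > 0, ∃ χ : Fin M.F.natDegree → ℂ → (M.R →ₐ[ℂ] ℂ), ∀ J ∈ Metric.ball J₀ ε,
      M.d.eval J ≠ 0 ∧ (∀ i, M.jv (χ i J) = J) ∧ (Function.Injective fun i => χ i J) ∧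
      (∀ χ' ∈ M.fib J, ∃ i, χ' = χ i J) ∧
      ∀ (i) (e : M.R), HasDerivAt (fun J => χ i J e) (χ i J ⟨D e, M.hD e e.2⟩) J := by
  classical
  -- enumeration of the characters over `J₀`
  obtain ⟨χ₀, hχ₀inj, hχ₀⟩ : ∃ χ₀ : Fin M.F.natDegree → (M.R →ₐ[ℂ] ℂ),
      Function.Injective χ₀ ∧ ∀ i, χ₀ i ∈ M.fib J₀ := by
    have hfin := M.fib_finite J₀
    haveI : Fintype (M.fib J₀) := hfin.fintype
    have hcard : Fintype.card (M.fib J₀) = M.F.natDegree := by
      rw [← M.fib_ncard hJ, Set.ncard_eq_toFinset_card', Set.toFinset_card]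
    let e := (Fintype.equivFinOfCardEq hcard).symm
    exact ⟨fun i => (e i : M.R →ₐ[ℂ] ℂ), fun a b h => e.injective (Subtype.ext h),
      fun i => (e i).2⟩
  have hloc : ∀ i : Fin M.F.natDegree, ∃ ψ : ℂ → ℂ, ψ J₀ = M.tv (χ₀ i) ∧
      (∀ᶠ J in 𝓝 J₀, evC M.F J (ψ J) = 0 ∧ DifferentiableAt ℂ ψ J) := by
    intro i
    have h1 := evC_F M (χ₀ i)
    rw [(hχ₀ i : M.jv (χ₀ i) = J₀)] at h1
    obtain ⟨ψ, a, b, _⟩ := exists_local_root M.F h1 (evC_F' M hJ h1)
    exact ⟨ψ, a, b⟩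
  choose ψ hψ0 hψ using hloc
  have hex : ∀ J x : ℂ, ∃ χ : M.R →ₐ[ℂ] ℂ, M.d.eval J ≠ 0 → evC M.F J x = 0 →
      M.jv χ = J ∧ M.tv χ = x := by
    intro J x
    by_cases h1 : M.d.eval J ≠ 0 ∧ evC M.F J x = 0
    · obtain ⟨χ, a, b⟩ := M.hchar J x h1.1 h1.2
      exact ⟨χ, fun _ _ => ⟨a, b⟩⟩
    · exact ⟨χ₀ ⟨0, M.hdeg⟩, fun a b => absurd ⟨a, b⟩ h1⟩
  choose X hX using hex
  -- the ball
  have hd : ∀ᶠ J in 𝓝 J₀, M.d.eval J ≠ 0 :=
    (M.d.continuous.continuousAt (x := J₀)).eventually_ne hJ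
  have hdist : ∀ᶠ J in 𝓝 J₀, ∀ i i' : Fin M.F.natDegree, i ≠ i' → ψ i J ≠ ψ i' J := by
    rw [eventually_all]
    intro i
    rw [eventually_all]
    intro i'
    by_cases hii : i = i'
    · exact Eventually.of_forall fun _ h => absurd hii h
    have hci : ContinuousAt (ψ i) J₀ := (hψ i).self_of_nhds.2.continuousAt
    have hci' : ContinuousAt (ψ i') J₀ := (hψ i').self_of_nhds.2.continuousAt
    have hne : ψ i J₀ ≠ ψ i' J₀ := by
      rw [hψ0, hψ0]
      intro h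
      apply hii
      apply hχ₀inj
      exact injOn_tv M J₀ (hχ₀ i) (hχ₀ i') h
    filter_upwards [(hci.sub hci').eventually_ne (sub_ne_zero.2 hne)] with J hJ _
    exact sub_ne_zero.1 hJ
  have hall : ∀ᶠ J in 𝓝 J₀, ∀ i, evC M.F J (ψ i J) = 0 ∧ DifferentiableAt ℂ (ψ i) J :=
    eventually_all.2 hψ
  obtain ⟨ε, hε, hball⟩ := Metric.eventually_nhds_iff_ball.1 (hd.and (hdist.and hall))
  refine ⟨ε, hε, fun i J => X J (ψ i J), ?_⟩
  intro J hJb
  obtain ⟨h1, h2, h3⟩ := hball J hJb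
  have hj : ∀ i, M.jv (X J (ψ i J)) = J := fun i => (hX J (ψ i J) h1 (h3 i).1).1
  have ht : ∀ i, M.tv (X J (ψ i J)) = ψ i J := fun i => (hX J (ψ i J) h1 (h3 i).1).2
  have hinj : Function.Injective fun i => X J (ψ i J) := by
    intro i i' h
    by_contra hii
    apply h2 i i' hii
    rw [← ht i, ← ht i']
    exact congrArg M.tv h
  refine ⟨h1, hj, hinj, ?_, ?_⟩
  · intro χ' hχ'
    have hsub : Set.range (fun i => X J (ψ i J)) ⊆ M.fib J := by
      rintro _ ⟨i, rfl⟩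
      exact hj i
    have hcard : (Set.range (fun i => X J (ψ i J))).ncard = M.F.natDegree := by
      rw [← Set.image_univ, Set.ncard_image_of_injective _ hinj, Set.ncard_univ, Nat.card_fin]
    have heq : Set.range (fun i => X J (ψ i J)) = M.fib J :=
      Set.eq_of_subset_of_ncard_le hsub (by rw [hcard, M.fib_ncard h1]) (M.fib_finite J)
    rw [← heq] at hχ'
    obtain ⟨i, hi⟩ := hχ'
    exact ⟨i, hi.symm⟩
  · intro i e
    have hnhds : ∀ᶠ z in 𝓝 J, M.jv (X z (ψ i z)) = z ∧ M.tv (X z (ψ i z)) = ψ i z := by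
      filter_upwards [Metric.isOpen_ball.mem_nhds hJb] with z hz
      obtain ⟨h1, h2, h3⟩ := hball z hz
      exact hX z (ψ i z) h1 (h3 i).1
    exact hasDerivAt_branch M (fun z => X z (ψ i z)) (h3 i).2 hnhds e

/-- two continuous branches over the same function which agree at a point agree nearby -/
theorem Model.unique_branch {X : Type*} [TopologicalSpace X] {χ χ' : X → (M.R →ₐ[ℂ] ℂ)} {s₀ : X}
    (h1 : ContinuousAt (fun s => M.jv (χ s)) s₀) (h2 : ContinuousAt (fun s => M.tv (χ s)) s₀)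
    (h3 : ContinuousAt (fun s => M.tv (χ' s)) s₀)
    (h : ∀ᶠ s in 𝓝 s₀, M.jv (χ s) = M.jv (χ' s)) (h0 : χ s₀ = χ' s₀) :
    ∀ᶠ s in 𝓝 s₀, χ s = χ' s := by
  have hF := evC_F M (χ s₀)
  obtain ⟨ψ, -, -, hψ⟩ := exists_local_root M.F hF (evC_F' M (M.eval_d_ne_zero (χ s₀)) hF)
  have h1' : ContinuousAt (fun s => M.jv (χ' s)) s₀ := h1.congr h
  have ha := (h1.prodMk h2).eventually hψ
  have hb : ∀ᶠ s in 𝓝 s₀, evC M.F (M.jv (χ' s)) (M.tv (χ' s)) = 0 →
      M.tv (χ' s) = ψ (M.jv (χ' s)) := by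
    refine (h1'.prodMk h3).eventually (p := fun p : ℂ × ℂ => evC M.F p.1 p.2 = 0 → p.2 = ψ p.1) ?_
    have h4 : (fun x => (M.jv (χ' x), M.tv (χ' x))) s₀ = (M.jv (χ s₀), M.tv (χ s₀)) := by
      show (M.jv (χ' s₀), M.tv (χ' s₀)) = _
      rw [← h0]
    rw [h4]
    exact hψ
  filter_upwards [ha, hb, h] with s hs hs' hs''
  refine M.char_ext hs'' ?_
  have e1 := hs (evC_F M (χ s))
  have e2 := hs' (evC_F M (χ' s))
  have e1' : M.tv (χ s) = ψ (M.jv (χ s)) := e1
  rw [e1', e2, hs'']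

end Pool.Agent.EllSch
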