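import Pool.Agent.EllSch.Defs
/-! # [C1] Continuous differentiability in the periods -/

open Filter Topology

namespace Pool.Agent.EllSch

noncomputable section

/-- partial derivatives with respect to the first and second period, as series -/
def wpa (a b z : ℂ) : ℂ := ∑' x : ℤ × ℤ, (x.1 : ℂ) * (2 / (z - lat a b x) ^ 3 + 2 / lat a b x ^ 3)
def wpb (a b z : ℂ) : ℂ := ∑' x : ℤ × ℤ, (x.2 : ℂ) * (2 / (z - lat a b x) ^ 3 + 2 / lat a b x ^ 3)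
def wqa (a b z : ℂ) : ℂ := ∑' x : ℤ × ℤ, (x.1 : ℂ) * (-6 / (z - lat a b x) ^ 4)
def wqb (a b z : ℂ) : ℂ := ∑' x : ℤ × ℤ, (x.2 : ℂ) * (-6 / (z - lat a b x) ^ 4)
def wr (a b z : ℂ) : ℂ := ∑' x : ℤ × ℤ, 6 / (z - lat a b x) ^ 4
def wza (a b z : ℂ) : ℂ :=
  ∑' x : ℤ × ℤ, (x.1 : ℂ) * (1 / (z - lat a b x) ^ 2 - 1 / lat a b x ^ 2 - 2 * z / lat a b x ^ 3)
def wzb (a b z : ℂ) : ℂ :=
  ∑' x : ℤ × ℤ, (x.2 : ℂ) * (1 / (z - lat a b x) ^ 2 - 1 / lat a b x ^ 2 - 2 * z / lat a b x ^ 3)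
def G2a (a b : ℂ) : ℂ := 60 * ∑' x : ℤ × ℤ, (x.1 : ℂ) * (-4 / lat a b x ^ 5)
def G2b (a b : ℂ) : ℂ := 60 * ∑' x : ℤ × ℤ, (x.2 : ℂ) * (-4 / lat a b x ^ 5)
def G3a (a b : ℂ) : ℂ := 140 * ∑' x : ℤ × ℤ, (x.1 : ℂ) * (-6 / lat a b x ^ 7)
def G3b (a b : ℂ) : ℂ := 140 * ∑' x : ℤ × ℤ, (x.2 : ℂ) * (-6 / lat a b x ^ 7)

end

end Pool.Agent.EllSch

namespace Pool.Agent.EllSch.C1

/-- size of a lattice index -/
noncomputable def nx (x : ℤ × ℤ) : ℝ := |(x.1 : ℝ)| + |(x.2 : ℝ)|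

theorem nx_nonneg (x : ℤ × ℤ) : 0 ≤ nx x := by unfold nx; positivity

theorem abs_fst_le (x : ℤ × ℤ) : |(x.1 : ℝ)| ≤ nx x := by
  unfold nx; linarith [abs_nonneg (x.2 : ℝ)]

theorem abs_snd_le (x : ℤ × ℤ) : |(x.2 : ℝ)| ≤ nx x := by
  unfold nx; linarith [abs_nonneg (x.1 : ℝ)]

theorem one_le_nx {x : ℤ × ℤ} (hx : x ≠ 0) : 1 ≤ nx x := by
  have h : x.1 ≠ 0 ∨ x.2 ≠ 0 := by
    by_contra h
    push Not at h
    exact hx (Prod.ext h.1 h.2)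
  unfold nx
  rcases h with h | h
  · have : (1 : ℝ) ≤ |(x.1 : ℝ)| := by
      rw [← Int.cast_abs]
      exact_mod_cast Int.one_le_abs h
    linarith [abs_nonneg (x.2 : ℝ)]
  · have : (1 : ℝ) ≤ |(x.2 : ℝ)| := by
      rw [← Int.cast_abs]
      exact_mod_cast Int.one_le_abs h
    linarith [abs_nonneg (x.1 : ℝ)]

/-- the basic majorant -/
noncomputable def u3 (x : ℤ × ℤ) : ℝ := 1 / (1 + nx x) ^ 3

theorem u3_pos (x : ℤ × ℤ) : 0 < u3 x := by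
  unfold u3
  have := nx_nonneg x
  positivity

theorem summable_u3 : Summable u3 := by
  have h1 := EisensteinSeries.summable_one_div_norm_rpow (k := 3) (by norm_num)
  have h2 : Summable fun x : ℤ × ℤ => ‖(![x.1, x.2] : Fin 2 → ℤ)‖ ^ (-3 : ℝ) := by
    have := (finTwoArrowEquiv ℤ).symm.summable_iff.mpr h1
    exact this
  have h3 : Summable fun x : ℤ × ℤ => if x = 0 then (1 : ℝ) else 0 :=
    summable_of_ne_finset_zero (s := {0}) (fun x hx => by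
      rw [Finset.mem_singleton] at hx
      rw [if_neg hx])
  refine Summable.of_nonneg_of_le (fun x => (u3_pos x).le) (fun x => ?_) (h2.add h3)
  by_cases hx : x = 0
  · subst hx
    simp [u3, nx]
  · rw [if_neg hx, add_zero, Real.rpow_neg (norm_nonneg _)]
    have h4 : ‖(![x.1, x.2] : Fin 2 → ℤ)‖ ≤ nx x := by
      rw [pi_norm_le_iff_of_nonneg (nx_nonneg x)]
      intro i
      fin_cases i
      · simpa [Int.norm_eq_abs] using abs_fst_le x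
      · simpa [Int.norm_eq_abs] using abs_snd_le x
    have h5 : 0 < ‖(![x.1, x.2] : Fin 2 → ℤ)‖ := by
      rw [norm_pos_iff]
      intro h
      apply hx
      have h6 := congrFun h 0
      have h7 := congrFun h 1
      simp at h6 h7
      exact Prod.ext h6 h7
    have h8 : ‖(![x.1, x.2] : Fin 2 → ℤ)‖ ^ (3 : ℝ) = ‖(![x.1, x.2] : Fin 2 → ℤ)‖ ^ 3 := by
      exact_mod_cast Real.rpow_natCast _ 3
    rw [h8, u3, one_div]
    apply inv_anti₀ (by positivity)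
    apply pow_le_pow_left₀ h5.le
    linarith

/-! ### Lower bounds -/

/-- real determinant -/
def rd (a b : ℂ) : ℝ := a.re * b.im - a.im * b.re

theorem continuous_rd : Continuous fun v : ℂ × ℂ => rd v.1 v.2 := by
  unfold rd
  fun_prop

theorem rd_mul_nx_le (a b : ℂ) (x : ℤ × ℤ) :
    |rd a b| * nx x ≤ 2 * (‖a‖ + ‖b‖) * ‖lat a b x‖ := by
  set l := lat a b x with hl
  have hre : l.re = x.1 * a.re + x.2 * b.re := by
    simp [hl, lat]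
  have him : l.im = x.1 * a.im + x.2 * b.im := by
    simp [hl, lat]
  have h1 : (x.1 : ℝ) * rd a b = l.re * b.im - l.im * b.re := by
    rw [hre, him, rd]; ring
  have h2 : (x.2 : ℝ) * rd a b = a.re * l.im - a.im * l.re := by
    rw [hre, him, rd]; ring
  have k1 : |(x.1 : ℝ)| * |rd a b| ≤ 2 * ‖b‖ * ‖l‖ := by
    rw [← abs_mul, h1]
    calc |l.re * b.im - l.im * b.re| ≤ |l.re * b.im| + |l.im * b.re| := abs_sub _ _
      _ = |l.re| * |b.im| + |l.im| * |b.re| := by rw [abs_mul, abs_mul]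
      _ ≤ ‖l‖ * ‖b‖ + ‖l‖ * ‖b‖ := by
          gcongr
          · exact Complex.abs_re_le_norm l
          · exact Complex.abs_im_le_norm b
          · exact Complex.abs_im_le_norm l
          · exact Complex.abs_re_le_norm b
      _ = 2 * ‖b‖ * ‖l‖ := by ring
  have k2 : |(x.2 : ℝ)| * |rd a b| ≤ 2 * ‖a‖ * ‖l‖ := by
    rw [← abs_mul, h2]
    calc |a.re * l.im - a.im * l.re| ≤ |a.re * l.im| + |a.im * l.re| := abs_sub _ _
      _ = |a.re| * |l.im| + |a.im| * |l.re| := by rw [abs_mul, abs_mul]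
      _ ≤ ‖a‖ * ‖l‖ + ‖a‖ * ‖l‖ := by
          gcongr
          · exact Complex.abs_re_le_norm a
          · exact Complex.abs_im_le_norm l
          · exact Complex.abs_im_le_norm a
          · exact Complex.abs_re_le_norm l
      _ = 2 * ‖a‖ * ‖l‖ := by ring
  unfold nx
  nlinarith

end Pool.Agent.EllSch.C1

namespace Pool.Agent.EllSch

open C1

theorem isOpen_ind : IsOpen {v : ℂ × ℂ | Ind v.1 v.2} :=
  isOpen_ne_fun continuous_rd continuous_const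

/-- locally uniform lower bound for lattice vectors -/
theorem lat_lower_bound {a b : ℂ} (h : Ind a b) :
    ∃ c > 0, ∀ᶠ v : ℂ × ℂ in 𝓝 (a, b), ∀ x : ℤ × ℤ,
      c * (|(x.1 : ℝ)| + |(x.2 : ℝ)|) ≤ ‖lat v.1 v.2 x‖ := by
  have hr : 0 < |rd a b| := abs_pos.2 h
  set M := ‖a‖ + ‖b‖ + 1 with hM
  have hM0 : 0 < M := by positivity
  refine ⟨|rd a b| / (4 * M), by positivity, ?_⟩
  have e1 : ∀ᶠ v : ℂ × ℂ in 𝓝 (a, b), |rd a b| / 2 < |rd v.1 v.2| := by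
    have hc : ContinuousAt (fun v : ℂ × ℂ => |rd v.1 v.2|) (a, b) :=
      continuous_rd.abs.continuousAt
    exact hc.eventually_const_lt (by change |rd a b| / 2 < |rd a b|; linarith)
  have e2 : ∀ᶠ v : ℂ × ℂ in 𝓝 (a, b), ‖v.1‖ + ‖v.2‖ < M := by
    have hc : ContinuousAt (fun v : ℂ × ℂ => ‖v.1‖ + ‖v.2‖) (a, b) := by fun_prop
    exact hc.eventually_lt_const (by change ‖a‖ + ‖b‖ < M; linarith)
  filter_upwards [e1, e2] with v h1 h2 x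
  have h3 := rd_mul_nx_le v.1 v.2 x
  have h4 : 0 ≤ nx x := nx_nonneg x
  have h5 : |rd a b| / 2 * nx x ≤ 2 * M * ‖lat v.1 v.2 x‖ := by
    calc |rd a b| / 2 * nx x ≤ |rd v.1 v.2| * nx x := by gcongr
      _ ≤ 2 * (‖v.1‖ + ‖v.2‖) * ‖lat v.1 v.2 x‖ := h3
      _ ≤ 2 * M * ‖lat v.1 v.2 x‖ := by gcongr
  change |rd a b| / (4 * M) * nx x ≤ _
  rw [div_mul_eq_mul_div, div_le_iff₀ (by positivity)]
  linarith

end Pool.Agent.EllSch

namespace Pool.Agent.EllSch.C1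

theorem continuous_lat (x : ℤ × ℤ) : Continuous fun v : ℂ × ℂ => lat v.1 v.2 x := by
  unfold lat
  fun_prop

/-- lower bound for the distances to the lattice vectors -/
theorem w_lower_bound {a b z : ℂ} (h : Ind a b) (hz : ∀ x : ℤ × ℤ, x ≠ 0 → z ≠ lat a b x) :
    ∃ c > 0, ∀ᶠ v : ℂ × ℂ × ℂ in 𝓝 (a, b, z), ∀ x : ℤ × ℤ, x ≠ 0 →
      c * (1 + nx x) ≤ ‖v.2.2 - lat v.1 v.2.1 x‖ := by
  obtain ⟨c, hc, hl⟩ := lat_lower_bound h
  set R : ℝ := 2 * (‖z‖ + 1) / c + 1 with hR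
  have hR0 : 1 ≤ R := by
    have : 0 ≤ 2 * (‖z‖ + 1) / c := by positivity
    linarith
  -- finitely many small indices
  have hfin : {x : ℤ × ℤ | nx x ≤ R}.Finite := by
    apply Set.Finite.subset ((Set.finite_Icc (-⌈R⌉) ⌈R⌉).prod (Set.finite_Icc (-⌈R⌉) ⌈R⌉))
    intro x hx
    have hx' : nx x ≤ R := hx
    have h1 := (abs_fst_le x).trans hx'
    have h2 := (abs_snd_le x).trans hx'
    have hceil := Int.le_ceil R
    rw [abs_le] at h1 h2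
    simp only [Set.mem_prod, Set.mem_Icc]
    refine ⟨⟨?_, ?_⟩, ?_, ?_⟩
    · have : (-⌈R⌉ : ℝ) ≤ x.1 := by linarith
      exact_mod_cast this
    · have : (x.1 : ℝ) ≤ ⌈R⌉ := by linarith
      exact_mod_cast this
    · have : (-⌈R⌉ : ℝ) ≤ x.2 := by linarith
      exact_mod_cast this
    · have : (x.2 : ℝ) ≤ ⌈R⌉ := by linarith
      exact_mod_cast this
  have key : ∀ S : Finset (ℤ × ℤ), (∀ x ∈ S, x ≠ 0) → ∃ δ > 0, ∀ᶠ v : ℂ × ℂ × ℂ in 𝓝 (a, b, z),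
      ∀ x ∈ S, δ ≤ ‖v.2.2 - lat v.1 v.2.1 x‖ := by
    intro S
    induction S using Finset.induction_on with
    | empty => intro _; exact ⟨1, one_pos, by simp⟩
    | insert y S hy ih =>
      intro hS
      obtain ⟨δ, hδ, h1⟩ := ih (fun x hx => hS x (Finset.mem_insert_of_mem hx))
      have hy0 := hS y (Finset.mem_insert_self y S)
      have hpos : 0 < ‖z - lat a b y‖ := norm_pos_iff.2 (sub_ne_zero.2 (hz y hy0))
      have hcont : ContinuousAt (fun v : ℂ × ℂ × ℂ => ‖v.2.2 - lat v.1 v.2.1 y‖) (a, b, z) := by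
        unfold lat
        fun_prop
      have h2 := hcont.eventually_const_lt
        (show ‖z - lat a b y‖ / 2 < ‖(a, b, z).2.2 - lat (a, b, z).1 (a, b, z).2.1 y‖ by
          change ‖z - lat a b y‖ / 2 < ‖z - lat a b y‖; linarith)
      refine ⟨min δ (‖z - lat a b y‖ / 2), lt_min hδ (by positivity), ?_⟩
      filter_upwards [h1, h2] with v hv1 hv2 x hx
      rw [Finset.mem_insert] at hx
      rcases hx with hx | hx
      · rw [hx]; exact (min_le_right _ _).trans hv2.le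
      · exact (min_le_left _ _).trans (hv1 x hx)
  obtain ⟨δ, hδ, h1⟩ := key (hfin.toFinset.filter fun x => x ≠ 0) (fun x hx => (Finset.mem_filter.1 hx).2)
  have h2 : ∀ᶠ v : ℂ × ℂ × ℂ in 𝓝 (a, b, z), ∀ x : ℤ × ℤ, c * nx x ≤ ‖lat v.1 v.2.1 x‖ := by
    have ht : Tendsto (fun v : ℂ × ℂ × ℂ => (v.1, v.2.1)) (𝓝 (a, b, z)) (𝓝 (a, b)) := by
      have : Continuous (fun v : ℂ × ℂ × ℂ => (v.1, v.2.1)) := by fun_prop
      exact this.continuousAt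
    exact ht.eventually hl
  have h3 : ∀ᶠ v : ℂ × ℂ × ℂ in 𝓝 (a, b, z), ‖v.2.2‖ < ‖z‖ + 1 := by
    have hcont : ContinuousAt (fun v : ℂ × ℂ × ℂ => ‖v.2.2‖) (a, b, z) := by fun_prop
    exact hcont.eventually_lt_const (by change ‖z‖ < ‖z‖ + 1; linarith)
  refine ⟨min (c / 4) (δ / (1 + R)), lt_min (by positivity) (by positivity), ?_⟩
  filter_upwards [h1, h2, h3] with v hv1 hv2 hv3 x hx0
  by_cases hxR : nx x ≤ R
  · have h4 := hv1 x (Finset.mem_filter.2 ⟨hfin.mem_toFinset.2 hxR, hx0⟩)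
    calc min (c / 4) (δ / (1 + R)) * (1 + nx x) ≤ δ / (1 + R) * (1 + R) := by
          apply mul_le_mul (min_le_right _ _) (by linarith) (by linarith [nx_nonneg x])
            (by positivity)
      _ = δ := by field_simp
      _ ≤ _ := h4
  · push Not at hxR
    have h4 := hv2 x
    have h5 : ‖lat v.1 v.2.1 x‖ ≤ ‖v.2.2 - lat v.1 v.2.1 x‖ + ‖v.2.2‖ := by
      have := norm_sub_le v.2.2 (v.2.2 - lat v.1 v.2.1 x)
      rw [sub_sub_cancel] at this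
      linarith
    have h6 : 2 * (‖z‖ + 1) < c * nx x := by
      have : 2 * (‖z‖ + 1) / c < nx x := by linarith
      rw [div_lt_iff₀ hc] at this
      linarith
    have h7 : c / 4 * (1 + nx x) ≤ c / 2 * nx x := by nlinarith
    calc min (c / 4) (δ / (1 + R)) * (1 + nx x) ≤ c / 4 * (1 + nx x) := by
          apply mul_le_mul_of_nonneg_right (min_le_left _ _) (by linarith [nx_nonneg x])
      _ ≤ c / 2 * nx x := h7
      _ ≤ _ := by linarith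

theorem lat_zero (a b : ℂ) : lat a b 0 = 0 := by simp [lat]

/-- the same for all indices when `z` is off the lattice -/
theorem w_lower_bound' {a b z : ℂ} (h : Ind a b) (hz : Off a b z) :
    ∃ c > 0, ∀ᶠ v : ℂ × ℂ × ℂ in 𝓝 (a, b, z), ∀ x : ℤ × ℤ,
      c * (1 + nx x) ≤ ‖v.2.2 - lat v.1 v.2.1 x‖ := by
  obtain ⟨c, hc, h1⟩ := w_lower_bound h (fun x _ => hz x)
  have hz0 : z ≠ 0 := by
    have := hz 0
    rwa [lat_zero] at this
  have hzp : 0 < ‖z‖ := norm_pos_iff.2 hz0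
  have h2 : ∀ᶠ v : ℂ × ℂ × ℂ in 𝓝 (a, b, z), ‖z‖ / 2 < ‖v.2.2‖ := by
    have hcont : ContinuousAt (fun v : ℂ × ℂ × ℂ => ‖v.2.2‖) (a, b, z) := by fun_prop
    exact hcont.eventually_const_lt (by change ‖z‖ / 2 < ‖z‖; linarith)
  refine ⟨min c (‖z‖ / 2), lt_min hc (by positivity), ?_⟩
  filter_upwards [h1, h2] with v hv1 hv2 x
  by_cases hx : x = 0
  · subst hx
    rw [lat_zero, sub_zero]
    have : nx 0 = 0 := by simp [nx]
    rw [this, add_zero, mul_one]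
    exact (min_le_right _ _).trans hv2.le
  · refine le_trans ?_ (hv1 x hx)
    apply mul_le_mul_of_nonneg_right (min_le_left _ _) (by linarith [nx_nonneg x])

end Pool.Agent.EllSch.C1

namespace Pool.Agent.EllSch

open C1

theorem isOpen_ind_off : IsOpen {v : ℂ × ℂ × ℂ | Ind v.1 v.2.1 ∧ Off v.1 v.2.1 v.2.2} := by
  rw [isOpen_iff_mem_nhds]
  rintro ⟨a, b, z⟩ ⟨h, hz⟩
  obtain ⟨c, hc, h1⟩ := w_lower_bound' h hz
  have h2 : ∀ᶠ v : ℂ × ℂ × ℂ in 𝓝 (a, b, z), Ind v.1 v.2.1 := by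
    have ht : Tendsto (fun v : ℂ × ℂ × ℂ => (v.1, v.2.1)) (𝓝 (a, b, z)) (𝓝 (a, b)) := by
      have : Continuous (fun v : ℂ × ℂ × ℂ => (v.1, v.2.1)) := by fun_prop
      exact this.continuousAt
    exact ht.eventually (isOpen_ind.mem_nhds h)
  filter_upwards [h1, h2] with v hv1 hv2
  refine ⟨hv2, fun x hx => ?_⟩
  have := hv1 x
  rw [hx, sub_self, norm_zero] at this
  have h3 := nx_nonneg x
  have : 0 < c * (1 + nx x) := by positivity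
  linarith

end Pool.Agent.EllSch
/-! ### The general differentiation lemma -/

namespace Pool.Agent.EllSch.C1

theorem strict_tsum {E : Type*} [NormedAddCommGroup E] [NormedSpace ℂ E] {ι : Type*} [Fintype ι]
    {v₀ : E} (φ : ι → E →L[ℂ] ℂ) (f : ℤ × ℤ → E → ℂ) (A : ι → ℤ × ℤ → E → ℂ) {u : ℤ × ℤ → ℝ}
    (hu : Summable u)
    (h : ∀ᶠ v in 𝓝 v₀, ∀ x, HasFDerivAt (f x) (∑ i, A i x v • φ i) v ∧
      ∀ i, ContinuousAt (A i x) v ∧ ‖A i x v‖ ≤ u x)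
    (h0 : Summable fun x => f x v₀) :
    ∃ L : E →L[ℂ] ℂ, HasStrictFDerivAt (fun v => ∑' x, f x v) L v₀ ∧
      ∀ w, L w = ∑ i, φ i w * ∑' x, A i x v₀ := by
  obtain ⟨ε, hε, hb⟩ := Metric.eventually_nhds_iff_ball.1 h
  have hu' : Summable fun x => u x * ∑ i, ‖φ i‖ := hu.mul_right _
  have hf' : ∀ x, ∀ v ∈ Metric.ball v₀ ε, ‖∑ i, A i x v • φ i‖ ≤ u x * ∑ i, ‖φ i‖ := by
    intro x v hv
    rw [Finset.mul_sum]
    refine (norm_sum_le _ _).trans (Finset.sum_le_sum fun i _ => ?_)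
    rw [norm_smul]
    exact mul_le_mul_of_nonneg_right (((hb v hv x).2 i).2) (norm_nonneg _)
  have hv0 : v₀ ∈ Metric.ball v₀ ε := Metric.mem_ball_self hε
  have hder : ∀ v ∈ Metric.ball v₀ ε,
      HasFDerivAt (fun v => ∑' x, f x v) (∑' x, ∑ i, A i x v • φ i) v := by
    intro v hv
    exact hasFDerivAt_tsum_of_isPreconnected hu' Metric.isOpen_ball
      (convex_ball v₀ ε).isPreconnected (fun x v hv => (hb v hv x).1) hf' hv0 h0 hv
  have hcont : ContinuousAt (fun v => ∑' x, ∑ i, A i x v • φ i) v₀ := by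
    have h1 : ContinuousOn (fun v => ∑' x, ∑ i, A i x v • φ i) (Metric.ball v₀ ε) := by
      apply continuousOn_tsum (fun x => ?_) hu' hf'
      intro v hv
      apply ContinuousAt.continuousWithinAt
      apply tendsto_finset_sum
      intro i _
      exact (((hb v hv x).2 i).1).smul continuousAt_const
    exact h1.continuousAt (Metric.ball_mem_nhds v₀ hε)
  refine ⟨∑' x, ∑ i, A i x v₀ • φ i, ?_, ?_⟩
  · exact hasStrictFDerivAt_of_hasFDerivAt_of_continuousAt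
      (Filter.eventually_of_mem (Metric.ball_mem_nhds v₀ hε) hder) hcont
  · intro w
    have hs : Summable fun x => ∑ i, A i x v₀ • φ i :=
      Summable.of_norm_bounded hu' (fun x => hf' x v₀ hv0)
    have h1 : HasSum (fun x => (∑ i, A i x v₀ • φ i) w) ((∑' x, ∑ i, A i x v₀ • φ i) w) :=
      hs.hasSum.mapL (ContinuousLinearMap.apply ℂ ℂ w)
    have h2 : HasSum (fun x => ∑ i, φ i w * A i x v₀) (∑ i, φ i w * ∑' x, A i x v₀) := by
      apply hasSum_sum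
      intro i _
      apply HasSum.mul_left
      exact (Summable.of_norm_bounded hu (fun x => ((hb v₀ hv0 x).2 i).2)).hasSum
    have h3 : (fun x => (∑ i, A i x v₀ • φ i) w) = fun x => ∑ i, φ i w * A i x v₀ := by
      funext x
      rw [ContinuousLinearMap.sum_apply]
      apply Finset.sum_congr rfl
      intro i _
      rw [ContinuousLinearMap.smul_apply, smul_eq_mul, mul_comm]
    rw [h3] at h1
    exact h1.unique h2

/-! ### Bounds for the terms -/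

/-- the situation near the base point -/
structure Bd (c M : ℝ) (x : ℤ × ℤ) (w l z : ℂ) : Prop where
  hc : 0 < c
  hw : c * (1 + nx x) ≤ ‖w‖
  hl : x ≠ 0 → c * (1 + nx x) ≤ ‖l‖
  hz : ‖z‖ ≤ M
  hwl : w + l = z
  hx : x = 0 → l = 0

section bounds

variable {c M : ℝ} {x : ℤ × ℤ} {w l z : ℂ}

/-- inverse radius -/
noncomputable def rr (c : ℝ) (x : ℤ × ℤ) : ℝ := (c * (1 + nx x))⁻¹

theorem rr_pos (hc : 0 < c) (x : ℤ × ℤ) : 0 < rr c x := by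
  unfold rr
  have := nx_nonneg x
  positivity

theorem rr3 (c : ℝ) (x : ℤ × ℤ) : rr c x ^ 3 = u3 x / c ^ 3 := by
  unfold rr u3
  rw [inv_pow, mul_pow, mul_inv]
  field_simp

theorem rr4 (hc : 0 < c) (x : ℤ × ℤ) : (1 + nx x) * rr c x ^ 4 = u3 x / c ^ 4 := by
  unfold rr u3
  have := nx_nonneg x
  have h1 : (0 : ℝ) < 1 + nx x := by linarith
  field_simp

theorem rr_le (hc : 0 < c) (x : ℤ × ℤ) : rr c x ≤ 1 / c := by
  unfold rr
  rw [mul_inv, one_div]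
  have := nx_nonneg x
  have h1 : (1 + nx x)⁻¹ ≤ 1 := inv_le_one_of_one_le₀ (by linarith)
  have h2 : 0 < c⁻¹ := by positivity
  nlinarith

theorem Bd.hM (h : Bd c M x w l z) : 0 ≤ M := (norm_nonneg z).trans h.hz

theorem Bd.pos (h : Bd c M x w l z) : 0 < c * (1 + nx x) := by
  have := nx_nonneg x
  have := h.hc
  positivity

theorem Bd.w_ne (h : Bd c M x w l z) : w ≠ 0 := norm_pos_iff.1 (h.pos.trans_le h.hw)

theorem Bd.l_ne (h : Bd c M x w l z) (hx : x ≠ 0) : l ≠ 0 :=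
  norm_pos_iff.1 (h.pos.trans_le (h.hl hx))

theorem Bd.w_inv (h : Bd c M x w l z) : ‖w⁻¹‖ ≤ rr c x := by
  rw [norm_inv]
  exact inv_anti₀ h.pos h.hw

theorem Bd.l_inv (h : Bd c M x w l z) : ‖l⁻¹‖ ≤ rr c x := by
  by_cases hx : x = 0
  · rw [h.hx hx, inv_zero, norm_zero]
    exact (rr_pos h.hc x).le
  · rw [norm_inv]
    exact inv_anti₀ h.pos (h.hl hx)

theorem mul_idx {t : ℂ} {B : ℝ} (hB : 0 ≤ B) (hc : 0 < c) (n : ℤ) (hn : |(n : ℝ)| ≤ nx x)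
    (h : n ≠ 0 → ‖t‖ ≤ B * rr c x ^ 4) : ‖(n : ℂ) * t‖ ≤ B / c ^ 4 * u3 x := by
  by_cases hn0 : n = 0
  · subst hn0
    have := u3_pos x
    simp only [Int.cast_zero, zero_mul, norm_zero]
    positivity
  · have h1 : ‖(n : ℂ)‖ = |(n : ℝ)| := Complex.norm_intCast n
    have hr := rr_pos hc x
    have hnx := nx_nonneg x
    rw [norm_mul, h1]
    calc |(n : ℝ)| * ‖t‖ ≤ (1 + nx x) * (B * rr c x ^ 4) := by
          apply mul_le_mul (by linarith) (h hn0) (norm_nonneg _) (by linarith)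
      _ = B * ((1 + nx x) * rr c x ^ 4) := by ring
      _ = B / c ^ 4 * u3 x := by rw [rr4 hc]; ring

/-- `2 / w ^ 3 + 2 / l ^ 3` -/
theorem Bd.b1 (h : Bd c M x w l z) (hx : x ≠ 0) :
    ‖2 / w ^ 3 + 2 / l ^ 3‖ ≤ 6 * M * rr c x ^ 4 := by
  have hw := h.w_ne
  have hl := h.l_ne hx
  have e : 2 / w ^ 3 + 2 / l ^ 3 =
      2 * z * (w⁻¹ ^ 3 * l⁻¹ - w⁻¹ ^ 2 * l⁻¹ ^ 2 + w⁻¹ * l⁻¹ ^ 3) := by
    rw [← h.hwl]
    field_simp
    ring
  rw [e, norm_mul, norm_mul]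
  have h1 := h.w_inv
  have h2 := h.l_inv
  have h3 := rr_pos h.hc x
  have h4 : ‖w⁻¹ ^ 3 * l⁻¹ - w⁻¹ ^ 2 * l⁻¹ ^ 2 + w⁻¹ * l⁻¹ ^ 3‖ ≤
      rr c x ^ 3 * rr c x + rr c x ^ 2 * rr c x ^ 2 + rr c x * rr c x ^ 3 := by
    refine (norm_add_le _ _).trans (add_le_add ((norm_sub_le _ _).trans (add_le_add ?_ ?_)) ?_) <;>
      simp only [norm_mul, norm_pow] <;> gcongr
  have hM := h.hM
  calc ‖(2 : ℂ)‖ * ‖z‖ * ‖w⁻¹ ^ 3 * l⁻¹ - w⁻¹ ^ 2 * l⁻¹ ^ 2 + w⁻¹ * l⁻¹ ^ 3‖ ≤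
      2 * M * (rr c x ^ 3 * rr c x + rr c x ^ 2 * rr c x ^ 2 + rr c x * rr c x ^ 3) := by
        have := h.hz
        rw [Complex.norm_ofNat]
        gcongr
    _ = 6 * M * rr c x ^ 4 := by ring

/-- `1 / w ^ 2 - 1 / l ^ 2 - 2 z / l ^ 3` -/
theorem Bd.b2 (h : Bd c M x w l z) (hx : x ≠ 0) :
    ‖1 / w ^ 2 - 1 / l ^ 2 - 2 * z / l ^ 3‖ ≤ 3 * M ^ 2 * rr c x ^ 4 := by
  have hw := h.w_ne
  have hl := h.l_ne hx
  have e : 1 / w ^ 2 - 1 / l ^ 2 - 2 * z / l ^ 3 =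
      z ^ 2 * (w⁻¹ ^ 2 * l⁻¹ ^ 2 - 2 * (w⁻¹ * l⁻¹ ^ 3)) := by
    rw [← h.hwl]
    field_simp
    ring
  rw [e, norm_mul, norm_pow]
  have h1 := h.w_inv
  have h2 := h.l_inv
  have h3 := rr_pos h.hc x
  have h4 : ‖w⁻¹ ^ 2 * l⁻¹ ^ 2 - 2 * (w⁻¹ * l⁻¹ ^ 3)‖ ≤
      rr c x ^ 2 * rr c x ^ 2 + 2 * (rr c x * rr c x ^ 3) := by
    refine (norm_sub_le _ _).trans (add_le_add ?_ ?_) <;>
      simp only [norm_mul, norm_pow, Complex.norm_ofNat] <;> gcongr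
  have hM := h.hM
  calc ‖z‖ ^ 2 * ‖w⁻¹ ^ 2 * l⁻¹ ^ 2 - 2 * (w⁻¹ * l⁻¹ ^ 3)‖ ≤
      M ^ 2 * (rr c x ^ 2 * rr c x ^ 2 + 2 * (rr c x * rr c x ^ 3)) := by
        have := h.hz
        gcongr
    _ = 3 * M ^ 2 * rr c x ^ 4 := by ring

/-- `k / w ^ 4` -/
theorem Bd.b3 (h : Bd c M x w l z) (k : ℂ) : ‖k / w ^ 4‖ ≤ ‖k‖ * rr c x ^ 4 := by
  have h1 := h.w_inv
  rw [div_eq_mul_inv, ← inv_pow, norm_mul, norm_pow]
  gcongr

/-- `k / w ^ 3` -/
theorem Bd.b4 (h : Bd c M x w l z) (k : ℂ) : ‖k / w ^ 3‖ ≤ ‖k‖ / c ^ 3 * u3 x := by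
  have h1 := h.w_inv
  rw [div_eq_mul_inv, ← inv_pow, norm_mul, norm_pow]
  calc ‖k‖ * ‖w⁻¹‖ ^ 3 ≤ ‖k‖ * rr c x ^ 3 := by gcongr
    _ = ‖k‖ / c ^ 3 * u3 x := by rw [rr3]; ring

/-- `1 / w ^ 2 - 1 / l ^ 2` -/
theorem Bd.b5 (h : Bd c M x w l z) :
    ‖1 / w ^ 2 - 1 / l ^ 2‖ ≤ (2 * M / c ^ 3 + 1 / c ^ 2) * u3 x := by
  have hM := h.hM
  have hc := h.hc
  have hu := u3_pos x
  by_cases hx : x = 0
  · rw [h.hx hx]
    have h1 := h.w_inv
    have e : 1 / w ^ 2 - 1 / (0 : ℂ) ^ 2 = w⁻¹ ^ 2 := by simp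
    rw [e, norm_pow]
    have h2 := rr_le hc x
    have h3 : u3 x = 1 := by rw [hx]; simp [u3, nx]
    rw [h3, mul_one]
    calc ‖w⁻¹‖ ^ 2 ≤ (1 / c) ^ 2 := by
          apply pow_le_pow_left₀ (norm_nonneg _)
          linarith
      _ = 1 / c ^ 2 := by rw [div_pow, one_pow]
      _ ≤ 2 * M / c ^ 3 + 1 / c ^ 2 := by
          have : 0 ≤ 2 * M / c ^ 3 := by positivity
          linarith
  · have hw := h.w_ne
    have hl := h.l_ne hx
    have e : 1 / w ^ 2 - 1 / l ^ 2 = z * (w⁻¹ ^ 2 * l⁻¹ - w⁻¹ * l⁻¹ ^ 2) := by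
      rw [← h.hwl]
      field_simp
      ring
    rw [e, norm_mul]
    have h1 := h.w_inv
    have h2 := h.l_inv
    have h3 := rr_pos h.hc x
    have h4 : ‖w⁻¹ ^ 2 * l⁻¹ - w⁻¹ * l⁻¹ ^ 2‖ ≤ rr c x ^ 2 * rr c x + rr c x * rr c x ^ 2 := by
      refine (norm_sub_le _ _).trans (add_le_add ?_ ?_) <;>
        simp only [norm_mul, norm_pow] <;> gcongr
    calc ‖z‖ * ‖w⁻¹ ^ 2 * l⁻¹ - w⁻¹ * l⁻¹ ^ 2‖ ≤
        M * (rr c x ^ 2 * rr c x + rr c x * rr c x ^ 2) := by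
          have := h.hz
          gcongr
      _ = 2 * M * rr c x ^ 3 := by ring
      _ = 2 * M / c ^ 3 * u3 x := by rw [rr3]; ring
      _ ≤ (2 * M / c ^ 3 + 1 / c ^ 2) * u3 x := by
          apply mul_le_mul_of_nonneg_right _ hu.le
          have : 0 < 1 / c ^ 2 := by positivity
          linarith

/-- `1 / w + 1 / l + z / l ^ 2` -/
theorem Bd.b6 (h : Bd c M x w l z) :
    ‖1 / w + 1 / l + z / l ^ 2‖ ≤ (M ^ 2 / c ^ 3 + 1 / c) * u3 x := by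
  have hM := h.hM
  have hc := h.hc
  have hu := u3_pos x
  by_cases hx : x = 0
  · rw [h.hx hx]
    have h1 := h.w_inv
    have e : 1 / w + 1 / (0 : ℂ) + z / (0 : ℂ) ^ 2 = w⁻¹ := by simp
    rw [e]
    have h2 := rr_le hc x
    have h3 : u3 x = 1 := by rw [hx]; simp [u3, nx]
    rw [h3, mul_one]
    have : 0 ≤ M ^ 2 / c ^ 3 := by positivity
    linarith
  · have hw := h.w_ne
    have hl := h.l_ne hx
    have e : 1 / w + 1 / l + z / l ^ 2 = z ^ 2 * (w⁻¹ * l⁻¹ ^ 2) := by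
      rw [← h.hwl]
      field_simp
      ring
    rw [e, norm_mul, norm_pow, norm_mul, norm_pow]
    have h1 := h.w_inv
    have h2 := h.l_inv
    have h3 := rr_pos h.hc x
    calc ‖z‖ ^ 2 * (‖w⁻¹‖ * ‖l⁻¹‖ ^ 2) ≤ M ^ 2 * (rr c x * rr c x ^ 2) := by
          have := h.hz
          gcongr
      _ = M ^ 2 * rr c x ^ 3 := by ring
      _ = M ^ 2 / c ^ 3 * u3 x := by rw [rr3]; ring
      _ ≤ (M ^ 2 / c ^ 3 + 1 / c) * u3 x := by
          apply mul_le_mul_of_nonneg_right _ hu.le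
          have : 0 < 1 / c := by positivity
          linarith

/-- `1 / l ^ (k + 3)` -/
theorem b7 (hc : 0 < c) (h2 : ‖l⁻¹‖ ≤ rr c x) (k : ℕ) :
    ‖1 / l ^ (k + 3)‖ ≤ (1 / c) ^ k / c ^ 3 * u3 x := by
  have h3 := rr_pos hc x
  have h4 := rr_le hc x
  rw [one_div, ← inv_pow, norm_pow, pow_add]
  calc ‖l⁻¹‖ ^ k * ‖l⁻¹‖ ^ 3 ≤ (1 / c) ^ k * rr c x ^ 3 := by
        gcongr
        exact h2.trans h4
    _ = (1 / c) ^ k / c ^ 3 * u3 x := by rw [rr3]; ring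

theorem b8 (hc : 0 < c) (h2 : ‖l⁻¹‖ ≤ rr c x) (r : ℂ) (k : ℕ) :
    ‖r / l ^ (k + 4)‖ ≤ ‖r‖ * (1 / c) ^ k * rr c x ^ 4 := by
  have h3 := rr_pos hc x
  have h4 := rr_le hc x
  rw [div_eq_mul_inv, ← inv_pow, norm_mul, norm_pow, pow_add]
  calc ‖r‖ * (‖l⁻¹‖ ^ k * ‖l⁻¹‖ ^ 4) ≤ ‖r‖ * ((1 / c) ^ k * rr c x ^ 4) := by
        gcongr
        exact h2.trans h4
    _ = _ := by ring

end bounds

end Pool.Agent.EllSch.C1

namespace Pool.Agent.EllSch.C1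

/-! ### Derivatives of the terms -/

section deriv

variable {E : Type*} [NormedAddCommGroup E] [NormedSpace ℂ E]

theorem hfd_inv_pow {l : E → ℂ} {L : E →L[ℂ] ℂ} {v : E} (hl : HasFDerivAt l L v)
    (h0 : l v ≠ 0) (k : ℕ) :
    HasFDerivAt (fun v => 1 / l v ^ k) ((-(k : ℂ) / l v ^ (k + 1)) • L) v := by
  have h1 : HasDerivAt (fun t : ℂ => 1 / t ^ k) (-(k : ℂ) / l v ^ (k + 1)) (l v) := by
    have h2 : HasDerivAt (fun t : ℂ => (t ^ k)⁻¹)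
        (-((k : ℂ) * l v ^ (k - 1)) / (l v ^ k) ^ 2) (l v) :=
      (hasDerivAt_pow k (l v)).inv (pow_ne_zero k h0)
    have e : (fun t : ℂ => 1 / t ^ k) = fun t : ℂ => (t ^ k)⁻¹ := by
      funext t
      rw [one_div]
    rw [e]
    refine h2.congr_deriv ?_
    rcases k with _ | k
    · simp
    · simp only [Nat.add_sub_cancel]
      field_simp
      ring
  exact h1.comp_hasFDerivAt v hl

theorem hfd_lat (p q : E →L[ℂ] ℂ) (x : ℤ × ℤ) (v : E) :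
    HasFDerivAt (fun v => lat (p v) (q v) x) ((x.1 : ℂ) • p + (x.2 : ℂ) • q) v := by
  unfold lat
  exact (p.hasFDerivAt.const_mul _).add (q.hasFDerivAt.const_mul _)

theorem hfd_lat_inv (p q : E →L[ℂ] ℂ) (x : ℤ × ℤ) (k : ℕ) (v : E)
    (h : x ≠ 0 → lat (p v) (q v) x ≠ 0) :
    HasFDerivAt (fun v => 1 / lat (p v) (q v) x ^ k)
      ((-(k : ℂ) / lat (p v) (q v) x ^ (k + 1)) • ((x.1 : ℂ) • p + (x.2 : ℂ) • q)) v := by
  by_cases hx : x = 0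
  · subst hx
    have h1 : HasFDerivAt (fun v => 1 / lat (p v) (q v) 0 ^ k) (0 : E →L[ℂ] ℂ) v := by
      simp only [lat_zero]
      exact hasFDerivAt_const _ _
    exact h1.congr_fderiv (by ext u; simp)
  · exact hfd_inv_pow (hfd_lat p q x v) (h hx) k

theorem cont_lat_inv (p q : E →L[ℂ] ℂ) (x : ℤ × ℤ) (r : ℂ) (k : ℕ) (v : E)
    (h : x ≠ 0 → lat (p v) (q v) x ≠ 0) :
    ContinuousAt (fun v => r / lat (p v) (q v) x ^ k) v := by
  have h1 := (hfd_lat_inv p q x k v h).continuousAt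
  have h2 : (fun v => r / lat (p v) (q v) x ^ k) = fun v => r * (1 / lat (p v) (q v) x ^ k) := by
    funext v
    ring
  rw [h2]
  exact continuousAt_const.mul h1

end deriv

/-- coordinates of `ℂ × ℂ × ℂ` -/
noncomputable def P0 : ℂ × ℂ × ℂ →L[ℂ] ℂ := ContinuousLinearMap.fst ℂ ℂ (ℂ × ℂ)
noncomputable def P1 : ℂ × ℂ × ℂ →L[ℂ] ℂ :=
  (ContinuousLinearMap.fst ℂ ℂ ℂ).comp (ContinuousLinearMap.snd ℂ ℂ (ℂ × ℂ))
noncomputable def P2 : ℂ × ℂ × ℂ →L[ℂ] ℂ :=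
  (ContinuousLinearMap.snd ℂ ℂ ℂ).comp (ContinuousLinearMap.snd ℂ ℂ (ℂ × ℂ))

theorem P0_apply (v : ℂ × ℂ × ℂ) : P0 v = v.1 := rfl
theorem P1_apply (v : ℂ × ℂ × ℂ) : P1 v = v.2.1 := rfl
theorem P2_apply (v : ℂ × ℂ × ℂ) : P2 v = v.2.2 := rfl

noncomputable def PP : Fin 3 → (ℂ × ℂ × ℂ →L[ℂ] ℂ) := ![P0, P1, P2]

/-- coordinates of `ℂ × ℂ` -/
noncomputable def Q0 : ℂ × ℂ →L[ℂ] ℂ := ContinuousLinearMap.fst ℂ ℂ ℂ
noncomputable def Q1 : ℂ × ℂ →L[ℂ] ℂ := ContinuousLinearMap.snd ℂ ℂ ℂ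

theorem Q0_apply (v : ℂ × ℂ) : Q0 v = v.1 := rfl
theorem Q1_apply (v : ℂ × ℂ) : Q1 v = v.2 := rfl

noncomputable def QQ : Fin 2 → (ℂ × ℂ →L[ℂ] ℂ) := ![Q0, Q1]

/-- `z - m a - n b` -/
theorem hfd_w (x : ℤ × ℤ) (v : ℂ × ℂ × ℂ) :
    HasFDerivAt (fun v : ℂ × ℂ × ℂ => v.2.2 - lat v.1 v.2.1 x)
      (P2 - ((x.1 : ℂ) • P0 + (x.2 : ℂ) • P1)) v :=
  P2.hasFDerivAt.sub (hfd_lat P0 P1 x v)

theorem hfd_l (x : ℤ × ℤ) (k : ℕ) (v : ℂ × ℂ × ℂ) (h : x ≠ 0 → lat v.1 v.2.1 x ≠ 0) :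
    HasFDerivAt (fun v : ℂ × ℂ × ℂ => 1 / lat v.1 v.2.1 x ^ k)
      ((-(k : ℂ) / lat v.1 v.2.1 x ^ (k + 1)) • ((x.1 : ℂ) • P0 + (x.2 : ℂ) • P1)) v :=
  hfd_lat_inv P0 P1 x k v h

theorem cont_w (x : ℤ × ℤ) (r : ℂ) (k : ℕ) (v : ℂ × ℂ × ℂ) (h : v.2.2 - lat v.1 v.2.1 x ≠ 0) :
    ContinuousAt (fun v : ℂ × ℂ × ℂ => r / (v.2.2 - lat v.1 v.2.1 x) ^ k) v := by
  have h1 : ContinuousAt (fun v : ℂ × ℂ × ℂ => (v.2.2 - lat v.1 v.2.1 x) ^ k) v :=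
    (hfd_w x v).continuousAt.pow k
  exact continuousAt_const.div h1 (pow_ne_zero k h)

theorem cont_l (x : ℤ × ℤ) (r : ℂ) (k : ℕ) (v : ℂ × ℂ × ℂ) (h : x ≠ 0 → lat v.1 v.2.1 x ≠ 0) :
    ContinuousAt (fun v : ℂ × ℂ × ℂ => r / lat v.1 v.2.1 x ^ k) v :=
  cont_lat_inv P0 P1 x r k v h

/-! ### The situation near the base point -/

theorem l_inv_le {c : ℝ} {x : ℤ × ℤ} {l : ℂ} (hc : 0 < c) (hl : x ≠ 0 → c * (1 + nx x) ≤ ‖l‖)
    (hx : x = 0 → l = 0) : ‖l⁻¹‖ ≤ rr c x := by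
  by_cases h : x = 0
  · rw [hx h, inv_zero, norm_zero]
    exact (rr_pos hc x).le
  · have := nx_nonneg x
    rw [norm_inv]
    exact inv_anti₀ (by positivity) (hl h)

theorem ev_l {a b : ℂ} (h : Ind a b) :
    ∃ c > 0, ∀ᶠ v : ℂ × ℂ in 𝓝 (a, b), ∀ x : ℤ × ℤ, x ≠ 0 →
      c * (1 + nx x) ≤ ‖lat v.1 v.2 x‖ := by
  obtain ⟨c, hc, h1⟩ := lat_lower_bound h
  refine ⟨c / 2, by positivity, ?_⟩
  filter_upwards [h1] with v hv x hx
  have h2 := one_le_nx hx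
  have h3 : c * nx x ≤ ‖lat v.1 v.2 x‖ := hv x
  nlinarith

theorem ev_Bd {a b z : ℂ} (h : Ind a b) (hz : Off a b z) :
    ∃ c M : ℝ, ∀ᶠ v : ℂ × ℂ × ℂ in 𝓝 (a, b, z), ∀ x : ℤ × ℤ,
      Bd c M x (v.2.2 - lat v.1 v.2.1 x) (lat v.1 v.2.1 x) v.2.2 := by
  obtain ⟨c, hc, h1⟩ := ev_l h
  obtain ⟨c', hc', h2⟩ := w_lower_bound' h hz
  have ht : Tendsto (fun v : ℂ × ℂ × ℂ => (v.1, v.2.1)) (𝓝 (a, b, z)) (𝓝 (a, b)) := by
    have : Continuous (fun v : ℂ × ℂ × ℂ => (v.1, v.2.1)) := by fun_prop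
    exact this.continuousAt
  have h3 := ht.eventually h1
  have h4 : ∀ᶠ v : ℂ × ℂ × ℂ in 𝓝 (a, b, z), ‖v.2.2‖ < ‖z‖ + 1 := by
    have hcont : ContinuousAt (fun v : ℂ × ℂ × ℂ => ‖v.2.2‖) (a, b, z) := by fun_prop
    exact hcont.eventually_lt_const (by change ‖z‖ < ‖z‖ + 1; linarith)
  refine ⟨min c c', ‖z‖ + 1, ?_⟩
  filter_upwards [h2, h3, h4] with v hv2 hv3 hv4 x
  have hn := nx_nonneg x
  refine ⟨lt_min hc hc', ?_, ?_, hv4.le, by ring, ?_⟩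
  · refine le_trans ?_ (hv2 x)
    apply mul_le_mul_of_nonneg_right (min_le_right _ _) (by linarith)
  · intro hx
    refine le_trans ?_ (hv3 x hx)
    apply mul_le_mul_of_nonneg_right (min_le_left _ _) (by linarith)
  · intro hx
    rw [hx, lat_zero]

theorem ev_Bd0 {a b z : ℂ} (h : Ind a b) (hz : Off a b z ∨ z = 0) :
    ∃ c M : ℝ, ∀ᶠ z' : ℂ in 𝓝 z, ∀ x : ℤ × ℤ, x ≠ 0 →
      Bd c M x (z' - lat a b x) (lat a b x) z' := by
  obtain ⟨c, hc, h1⟩ := ev_l h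
  have hz' : ∀ x : ℤ × ℤ, x ≠ 0 → z ≠ lat a b x := by
    intro x hx
    rcases hz with hz | hz
    · exact hz x
    · rw [hz]
      have h5 := h1.self_of_nhds x hx
      intro h6
      have h7 : ‖lat a b x‖ = 0 := by rw [← h6, norm_zero]
      have h8 : c * (1 + nx x) ≤ ‖lat a b x‖ := h5
      have := nx_nonneg x
      have : 0 < c * (1 + nx x) := by positivity
      linarith
  obtain ⟨c', hc', h2⟩ := w_lower_bound h hz'
  have ht : Tendsto (fun z' : ℂ => (a, b, z')) (𝓝 z) (𝓝 (a, b, z)) := by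
    have : Continuous (fun z' : ℂ => (a, b, z')) := by fun_prop
    exact this.continuousAt
  have h3 := ht.eventually h2
  have h4 : ∀ᶠ z' : ℂ in 𝓝 z, ‖z'‖ < ‖z‖ + 1 := by
    have hcont : ContinuousAt (fun z' : ℂ => ‖z'‖) z := by fun_prop
    exact hcont.eventually_lt_const (by change ‖z‖ < ‖z‖ + 1; linarith)
  refine ⟨min c c', ‖z‖ + 1, ?_⟩
  filter_upwards [h3, h4] with v hv3 hv4 x hx
  have hn := nx_nonneg x
  refine ⟨lt_min hc hc', ?_, ?_, hv4.le, by ring, ?_⟩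
  · refine le_trans ?_ (hv3 x hx)
    apply mul_le_mul_of_nonneg_right (min_le_right _ _) (by linarith)
  · intro hx
    refine le_trans ?_ (h1.self_of_nhds x hx)
    apply mul_le_mul_of_nonneg_right (min_le_left _ _) (by linarith)
  · intro hx
    rw [hx, lat_zero]

theorem strict3 {v₀ : ℂ × ℂ × ℂ} (f A B C : ℤ × ℤ → ℂ × ℂ × ℂ → ℂ) {u : ℤ × ℤ → ℝ}
    (hu : Summable u)
    (h : ∀ᶠ v in 𝓝 v₀, ∀ x, HasFDerivAt (f x) (A x v • P0 + B x v • P1 + C x v • P2) v ∧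
      (ContinuousAt (A x) v ∧ ‖A x v‖ ≤ u x) ∧ (ContinuousAt (B x) v ∧ ‖B x v‖ ≤ u x) ∧
      (ContinuousAt (C x) v ∧ ‖C x v‖ ≤ u x))
    (h0 : Summable fun x => f x v₀) :
    ∃ L : ℂ × ℂ × ℂ →L[ℂ] ℂ, HasStrictFDerivAt (fun v => ∑' x, f x v) L v₀ ∧
      ∀ w, L w = w.1 * ∑' x, A x v₀ + w.2.1 * ∑' x, B x v₀ + w.2.2 * ∑' x, C x v₀ := by
  have H : ∀ᶠ v in 𝓝 v₀, ∀ x, HasFDerivAt (f x) (∑ i, (![A, B, C]) i x v • PP i) v ∧
      ∀ i, ContinuousAt ((![A, B, C]) i x) v ∧ ‖(![A, B, C]) i x v‖ ≤ u x := by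
    filter_upwards [h] with v hv x
    obtain ⟨h1, h2, h3, h4⟩ := hv x
    refine ⟨?_, fun i => ?_⟩
    · rw [Fin.sum_univ_three]
      exact h1
    · fin_cases i
      · exact h2
      · exact h3
      · exact h4
  obtain ⟨L, hL, hL2⟩ := strict_tsum PP f _ hu H h0
  refine ⟨L, hL, fun w => ?_⟩
  rw [hL2, Fin.sum_univ_three]
  rfl

theorem strict2 {v₀ : ℂ × ℂ} (f A B : ℤ × ℤ → ℂ × ℂ → ℂ) {u : ℤ × ℤ → ℝ}
    (hu : Summable u)
    (h : ∀ᶠ v in 𝓝 v₀, ∀ x, HasFDerivAt (f x) (A x v • Q0 + B x v • Q1) v ∧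
      (ContinuousAt (A x) v ∧ ‖A x v‖ ≤ u x) ∧ (ContinuousAt (B x) v ∧ ‖B x v‖ ≤ u x))
    (h0 : Summable fun x => f x v₀) :
    ∃ L : ℂ × ℂ →L[ℂ] ℂ, HasStrictFDerivAt (fun v => ∑' x, f x v) L v₀ ∧
      ∀ w, L w = w.1 * ∑' x, A x v₀ + w.2 * ∑' x, B x v₀ := by
  have H : ∀ᶠ v in 𝓝 v₀, ∀ x, HasFDerivAt (f x) (∑ i, (![A, B]) i x v • QQ i) v ∧
      ∀ i, ContinuousAt ((![A, B]) i x) v ∧ ‖(![A, B]) i x v‖ ≤ u x := by
    filter_upwards [h] with v hv x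
    obtain ⟨h1, h2, h3⟩ := hv x
    refine ⟨?_, fun i => ?_⟩
    · rw [Fin.sum_univ_two]
      exact h1
    · fin_cases i
      · exact h2
      · exact h3
  obtain ⟨L, hL, hL2⟩ := strict_tsum QQ f _ hu H h0
  refine ⟨L, hL, fun w => ?_⟩
  rw [hL2, Fin.sum_univ_two]
  rfl

/-- Eisenstein series of weight `k + 3` -/
theorem c1_G {a b : ℂ} (h : Ind a b) (k : ℕ) (hk : 1 ≤ k) (C : ℂ) :
    ∃ L : ℂ × ℂ →L[ℂ] ℂ,
      HasStrictFDerivAt (fun v : ℂ × ℂ => C * ∑' x, 1 / lat v.1 v.2 x ^ (k + 3)) L (a, b) ∧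
      ∀ u, L u = u.1 * (C * ∑' x : ℤ × ℤ, (x.1 : ℂ) * (-((k + 3 : ℕ) : ℂ) / lat a b x ^ (k + 4))) +
        u.2 * (C * ∑' x : ℤ × ℤ, (x.2 : ℂ) * (-((k + 3 : ℕ) : ℂ) / lat a b x ^ (k + 4))) := by
  obtain ⟨c, hc, hev⟩ := ev_l h
  have hinv : ∀ v : ℂ × ℂ, (∀ x : ℤ × ℤ, x ≠ 0 → c * (1 + nx x) ≤ ‖lat v.1 v.2 x‖) →
      ∀ x, ‖(lat v.1 v.2 x)⁻¹‖ ≤ rr c x := fun v hv x =>
    l_inv_le hc (hv x) (fun hx => by rw [hx, lat_zero])
  have H : ∀ᶠ v : ℂ × ℂ in 𝓝 (a, b), ∀ x : ℤ × ℤ,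
      HasFDerivAt (fun v : ℂ × ℂ => 1 / lat v.1 v.2 x ^ (k + 3))
        (((x.1 : ℂ) * (-((k + 3 : ℕ) : ℂ) / lat v.1 v.2 x ^ (k + 4))) • Q0 +
        ((x.2 : ℂ) * (-((k + 3 : ℕ) : ℂ) / lat v.1 v.2 x ^ (k + 4))) • Q1) v ∧
      (ContinuousAt (fun v : ℂ × ℂ => (x.1 : ℂ) * (-((k + 3 : ℕ) : ℂ) / lat v.1 v.2 x ^ (k + 4))) v ∧
        ‖(x.1 : ℂ) * (-((k + 3 : ℕ) : ℂ) / lat v.1 v.2 x ^ (k + 4))‖ ≤
          (‖-((k + 3 : ℕ) : ℂ)‖ * (1 / c) ^ k) / c ^ 4 * u3 x) ∧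
      (ContinuousAt (fun v : ℂ × ℂ => (x.2 : ℂ) * (-((k + 3 : ℕ) : ℂ) / lat v.1 v.2 x ^ (k + 4))) v ∧
        ‖(x.2 : ℂ) * (-((k + 3 : ℕ) : ℂ) / lat v.1 v.2 x ^ (k + 4))‖ ≤
          (‖-((k + 3 : ℕ) : ℂ)‖ * (1 / c) ^ k) / c ^ 4 * u3 x) := by
    filter_upwards [hev] with v hv x
    have hn := nx_nonneg x
    have hl : x ≠ 0 → lat v.1 v.2 x ≠ 0 := fun hx =>
      norm_pos_iff.1 (lt_of_lt_of_le (by positivity) (hv x hx))
    have hi := hinv v hv x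
    have hcont := cont_lat_inv Q0 Q1 x (-((k + 3 : ℕ) : ℂ)) (k + 4) v hl
    refine ⟨?_, ⟨continuousAt_const.mul hcont, ?_⟩, ⟨continuousAt_const.mul hcont, ?_⟩⟩
    · refine (hfd_lat_inv Q0 Q1 x (k + 3) v hl).congr_fderiv ?_
      refine ContinuousLinearMap.ext fun u => ?_
      simp [Q0_apply, Q1_apply]
      ring
    · exact mul_idx (B := ‖-((k + 3 : ℕ) : ℂ)‖ * (1 / c) ^ k) (by positivity) hc x.1
        (abs_fst_le x) (fun _ => b8 hc hi _ k)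
    · exact mul_idx (B := ‖-((k + 3 : ℕ) : ℂ)‖ * (1 / c) ^ k) (by positivity) hc x.2
        (abs_snd_le x) (fun _ => b8 hc hi _ k)
  have H0 : Summable fun x : ℤ × ℤ => 1 / lat a b x ^ (k + 3) :=
    Summable.of_norm_bounded (summable_u3.mul_left ((1 / c) ^ k / c ^ 3))
      (fun x => b7 hc (hinv (a, b) hev.self_of_nhds x) k)
  obtain ⟨L, hL, hL2⟩ := strict2 (v₀ := ((a, b) : ℂ × ℂ)) _ _ _ (summable_u3.mul_left _) H H0
  refine ⟨C • L, hL.const_mul C, fun u => ?_⟩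
  rw [ContinuousLinearMap.smul_apply, hL2, smul_eq_mul]
  ring

end Pool.Agent.EllSch.C1

namespace Pool.Agent.EllSch

open C1

theorem c1_G2 {a b : ℂ} (h : Ind a b) :
    ∃ L : ℂ × ℂ →L[ℂ] ℂ, HasStrictFDerivAt (fun v : ℂ × ℂ => G2 v.1 v.2) L (a, b) ∧
      ∀ u, L u = u.1 * G2a a b + u.2 * G2b a b := by
  obtain ⟨L, hL, hL2⟩ := c1_G h 1 le_rfl 60
  refine ⟨L, hL, fun u => ?_⟩
  rw [hL2]
  simp only [G2a, G2b]
  norm_num

theorem c1_G3 {a b : ℂ} (h : Ind a b) :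
    ∃ L : ℂ × ℂ →L[ℂ] ℂ, HasStrictFDerivAt (fun v : ℂ × ℂ => G3 v.1 v.2) L (a, b) ∧
      ∀ u, L u = u.1 * G3a a b + u.2 * G3b a b := by
  obtain ⟨L, hL, hL2⟩ := c1_G h 3 (by norm_num) 140
  refine ⟨L, hL, fun u => ?_⟩
  rw [hL2]
  simp only [G3a, G3b]
  norm_num

theorem c1_wp {a b z : ℂ} (h : Ind a b) (hz : Off a b z) :
    ∃ L : ℂ × ℂ × ℂ →L[ℂ] ℂ,
      HasStrictFDerivAt (fun v : ℂ × ℂ × ℂ => wp v.1 v.2.1 v.2.2) L (a, b, z) ∧
      ∀ u, L u = u.1 * wpa a b z + u.2.1 * wpb a b z + u.2.2 * wq a b z := by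
  obtain ⟨c, M, hev⟩ := ev_Bd h hz
  have hB := hev.self_of_nhds
  have hc : 0 < c := (hB 0).hc
  have hM : 0 ≤ M := (hB 0).hM
  refine strict3 (v₀ := ((a, b, z) : ℂ × ℂ × ℂ))
    (fun x v => 1 / (v.2.2 - lat v.1 v.2.1 x) ^ 2 - 1 / lat v.1 v.2.1 x ^ 2)
    (fun x v => (x.1 : ℂ) * (2 / (v.2.2 - lat v.1 v.2.1 x) ^ 3 + 2 / lat v.1 v.2.1 x ^ 3))
    (fun x v => (x.2 : ℂ) * (2 / (v.2.2 - lat v.1 v.2.1 x) ^ 3 + 2 / lat v.1 v.2.1 x ^ 3))
    (fun x v => -2 / (v.2.2 - lat v.1 v.2.1 x) ^ 3)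
    (u := fun x => (6 * M / c ^ 4 + ‖(-2 : ℂ)‖ / c ^ 3) * u3 x) (summable_u3.mul_left _) ?_ ?_
  · filter_upwards [hev] with v hv x
    have hBx := hv x
    have hw := hBx.w_ne
    have hl := hBx.l_ne
    have hu := u3_pos x
    have hbd : ∀ n : ℤ, |(n : ℝ)| ≤ nx x → (n ≠ 0 → x ≠ 0) →
        ‖(n : ℂ) * (2 / (v.2.2 - lat v.1 v.2.1 x) ^ 3 + 2 / lat v.1 v.2.1 x ^ 3)‖ ≤
          (6 * M / c ^ 4 + ‖(-2 : ℂ)‖ / c ^ 3) * u3 x := by
      intro n hn hnx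
      refine (mul_idx (B := 6 * M) (by positivity) hc n hn (fun h0 => hBx.b1 (hnx h0))).trans ?_
      apply mul_le_mul_of_nonneg_right _ hu.le
      have : 0 ≤ ‖(-2 : ℂ)‖ / c ^ 3 := by positivity
      linarith
    refine ⟨?_, ⟨continuousAt_const.mul ((cont_w x 2 3 v hw).add (cont_l x 2 3 v hl)),
      hbd x.1 (abs_fst_le x) (fun h0 h1 => h0 (by rw [h1]; rfl))⟩,
      ⟨continuousAt_const.mul ((cont_w x 2 3 v hw).add (cont_l x 2 3 v hl)),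
      hbd x.2 (abs_snd_le x) (fun h0 h1 => h0 (by rw [h1]; rfl))⟩,
      ⟨cont_w x (-2) 3 v hw, ?_⟩⟩
    · refine ((hfd_inv_pow (hfd_w x v) hw 2).sub (hfd_l x 2 v hl)).congr_fderiv ?_
      refine ContinuousLinearMap.ext fun u => ?_
      simp [P0_apply, P1_apply, P2_apply]
      ring
    · refine (hBx.b4 (-2)).trans ?_
      apply mul_le_mul_of_nonneg_right _ hu.le
      have : 0 ≤ 6 * M / c ^ 4 := by positivity
      linarith
  · exact Summable.of_norm_bounded (summable_u3.mul_left (2 * M / c ^ 3 + 1 / c ^ 2))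
      (fun x => (hB x).b5)

theorem c1_wq {a b z : ℂ} (h : Ind a b) (hz : Off a b z) :
    ∃ L : ℂ × ℂ × ℂ →L[ℂ] ℂ,
      HasStrictFDerivAt (fun v : ℂ × ℂ × ℂ => wq v.1 v.2.1 v.2.2) L (a, b, z) ∧
      ∀ u, L u = u.1 * wqa a b z + u.2.1 * wqb a b z + u.2.2 * wr a b z := by
  obtain ⟨c, M, hev⟩ := ev_Bd h hz
  have hB := hev.self_of_nhds
  have hc : 0 < c := (hB 0).hc
  have hM : 0 ≤ M := (hB 0).hM
  refine strict3 (v₀ := ((a, b, z) : ℂ × ℂ × ℂ))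
    (fun x v => -2 / (v.2.2 - lat v.1 v.2.1 x) ^ 3)
    (fun x v => (x.1 : ℂ) * (-6 / (v.2.2 - lat v.1 v.2.1 x) ^ 4))
    (fun x v => (x.2 : ℂ) * (-6 / (v.2.2 - lat v.1 v.2.1 x) ^ 4))
    (fun x v => 6 / (v.2.2 - lat v.1 v.2.1 x) ^ 4)
    (u := fun x => 6 / c ^ 4 * u3 x) (summable_u3.mul_left _) ?_ ?_
  · filter_upwards [hev] with v hv x
    have hBx := hv x
    have hw := hBx.w_ne
    have hu := u3_pos x
    have hn0 := nx_nonneg x
    have hr := rr_pos hc x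
    have hbd : ∀ n : ℤ, |(n : ℝ)| ≤ nx x →
        ‖(n : ℂ) * (-6 / (v.2.2 - lat v.1 v.2.1 x) ^ 4)‖ ≤ 6 / c ^ 4 * u3 x := by
      intro n hn
      refine mul_idx (B := 6) (by norm_num) hc n hn (fun h0 => ?_)
      have := hBx.b3 (-6)
      rwa [norm_neg, Complex.norm_ofNat] at this
    refine ⟨?_, ⟨continuousAt_const.mul (cont_w x (-6) 4 v hw), hbd x.1 (abs_fst_le x)⟩,
      ⟨continuousAt_const.mul (cont_w x (-6) 4 v hw), hbd x.2 (abs_snd_le x)⟩,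
      ⟨cont_w x 6 4 v hw, ?_⟩⟩
    · have h1 := (hfd_inv_pow (hfd_w x v) hw 3).const_mul (-2 : ℂ)
      have e : (fun v : ℂ × ℂ × ℂ => -2 / (v.2.2 - lat v.1 v.2.1 x) ^ 3) =
          fun v : ℂ × ℂ × ℂ => (-2 : ℂ) * (1 / (v.2.2 - lat v.1 v.2.1 x) ^ 3) := by
        funext v
        ring
      rw [e]
      refine h1.congr_fderiv ?_
      refine ContinuousLinearMap.ext fun u => ?_
      simp [P0_apply, P1_apply, P2_apply]
      ring
    · have h1 := hBx.b3 6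
      rw [Complex.norm_ofNat] at h1
      refine h1.trans ?_
      have h2 := rr4 hc x
      calc 6 * rr c x ^ 4 ≤ 6 * ((1 + nx x) * rr c x ^ 4) := by
            have : rr c x ^ 4 ≤ (1 + nx x) * rr c x ^ 4 := by
              have : 0 < rr c x ^ 4 := by positivity
              nlinarith
            linarith
        _ = 6 / c ^ 4 * u3 x := by rw [h2]; ring
  · exact Summable.of_norm_bounded (summable_u3.mul_left (‖(-2 : ℂ)‖ / c ^ 3))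
      (fun x => (hB x).b4 (-2))

theorem c1_wz {a b z : ℂ} (h : Ind a b) (hz : Off a b z) :
    ∃ L : ℂ × ℂ × ℂ →L[ℂ] ℂ,
      HasStrictFDerivAt (fun v : ℂ × ℂ × ℂ => wz v.1 v.2.1 v.2.2) L (a, b, z) ∧
      ∀ u, L u = u.1 * wza a b z + u.2.1 * wzb a b z + u.2.2 * (-wp a b z) := by
  obtain ⟨c, M, hev⟩ := ev_Bd h hz
  have hB := hev.self_of_nhds
  have hc : 0 < c := (hB 0).hc
  have hM : 0 ≤ M := (hB 0).hM
  have key := strict3 (v₀ := ((a, b, z) : ℂ × ℂ × ℂ))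
    (fun x v => 1 / (v.2.2 - lat v.1 v.2.1 x) + 1 / lat v.1 v.2.1 x +
      v.2.2 / lat v.1 v.2.1 x ^ 2)
    (fun x v => (x.1 : ℂ) * (1 / (v.2.2 - lat v.1 v.2.1 x) ^ 2 - 1 / lat v.1 v.2.1 x ^ 2 -
      2 * v.2.2 / lat v.1 v.2.1 x ^ 3))
    (fun x v => (x.2 : ℂ) * (1 / (v.2.2 - lat v.1 v.2.1 x) ^ 2 - 1 / lat v.1 v.2.1 x ^ 2 -
      2 * v.2.2 / lat v.1 v.2.1 x ^ 3))
    (fun x v => -(1 / (v.2.2 - lat v.1 v.2.1 x) ^ 2 - 1 / lat v.1 v.2.1 x ^ 2))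
    (u := fun x => (3 * M ^ 2 / c ^ 4 + (2 * M / c ^ 3 + 1 / c ^ 2)) * u3 x)
    (summable_u3.mul_left _) ?_ ?_
  · obtain ⟨L, hL, hL2⟩ := key
    refine ⟨L, hL, fun u => ?_⟩
    rw [hL2, tsum_neg]
    rfl
  · filter_upwards [hev] with v hv x
    have hBx := hv x
    have hw := hBx.w_ne
    have hl := hBx.l_ne
    have hu := u3_pos x
    have hbd : ∀ n : ℤ, |(n : ℝ)| ≤ nx x → (n ≠ 0 → x ≠ 0) →
        ‖(n : ℂ) * (1 / (v.2.2 - lat v.1 v.2.1 x) ^ 2 - 1 / lat v.1 v.2.1 x ^ 2 -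
          2 * v.2.2 / lat v.1 v.2.1 x ^ 3)‖ ≤
          (3 * M ^ 2 / c ^ 4 + (2 * M / c ^ 3 + 1 / c ^ 2)) * u3 x := by
      intro n hn hnx
      refine (mul_idx (B := 3 * M ^ 2) (by positivity) hc n hn
        (fun h0 => hBx.b2 (hnx h0))).trans ?_
      apply mul_le_mul_of_nonneg_right _ hu.le
      have : 0 ≤ 2 * M / c ^ 3 + 1 / c ^ 2 := by positivity
      linarith
    have c1 := cont_w x 1 2 v hw
    have c2 := cont_l x 1 2 v hl
    have c3 : ContinuousAt (fun v : ℂ × ℂ × ℂ => 2 * v.2.2 / lat v.1 v.2.1 x ^ 3) v := by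
      have h1 := (cont_l x 1 3 v hl)
      have h2 : ContinuousAt (fun v : ℂ × ℂ × ℂ => 2 * v.2.2) v := by fun_prop
      have e : (fun v : ℂ × ℂ × ℂ => 2 * v.2.2 / lat v.1 v.2.1 x ^ 3) =
          fun v : ℂ × ℂ × ℂ => 2 * v.2.2 * (1 / lat v.1 v.2.1 x ^ 3) := by
        funext v
        ring
      rw [e]
      exact h2.mul h1
    refine ⟨?_, ⟨continuousAt_const.mul ((c1.sub c2).sub c3),
      hbd x.1 (abs_fst_le x) (fun h0 h1 => h0 (by rw [h1]; rfl))⟩,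
      ⟨continuousAt_const.mul ((c1.sub c2).sub c3),
      hbd x.2 (abs_snd_le x) (fun h0 h1 => h0 (by rw [h1]; rfl))⟩,
      ⟨(c1.sub c2).neg, ?_⟩⟩
    · have d1 := hfd_inv_pow (hfd_w x v) hw 1
      have d2 := hfd_l x 1 v hl
      have d3 := (P2.hasFDerivAt (x := v)).mul (hfd_l x 2 v hl)
      have e : (fun v : ℂ × ℂ × ℂ => 1 / (v.2.2 - lat v.1 v.2.1 x) + 1 / lat v.1 v.2.1 x +
          v.2.2 / lat v.1 v.2.1 x ^ 2) =
          fun v : ℂ × ℂ × ℂ => 1 / (v.2.2 - lat v.1 v.2.1 x) ^ 1 + 1 / lat v.1 v.2.1 x ^ 1 +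
            P2 v * (1 / lat v.1 v.2.1 x ^ 2) := by
        funext v
        rw [P2_apply]
        ring
      rw [e]
      refine ((d1.add d2).add d3).congr_fderiv ?_
      refine ContinuousLinearMap.ext fun u => ?_
      simp [P0_apply, P1_apply, P2_apply]
      ring
    · rw [norm_neg]
      refine hBx.b5.trans ?_
      apply mul_le_mul_of_nonneg_right _ hu.le
      have : 0 ≤ 3 * M ^ 2 / c ^ 4 := by positivity
      linarith
  · exact Summable.of_norm_bounded (summable_u3.mul_left (M ^ 2 / c ^ 3 + 1 / c))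
      (fun x => (hB x).b6)

/-! ### derivatives in `z` of the partial derivatives -/

theorem C1.hasDerivAt_series {a b z : ℂ} (h : Ind a b) (hz : Off a b z ∨ z = 0)
    (n : ℤ × ℤ → ℤ) (hn : ∀ x, |(n x : ℝ)| ≤ nx x) :
    HasDerivAt (fun z => ∑' x : ℤ × ℤ, (n x : ℂ) * (2 / (z - lat a b x) ^ 3 + 2 / lat a b x ^ 3))
      (∑' x : ℤ × ℤ, (n x : ℂ) * (-6 / (z - lat a b x) ^ 4)) z ∧
    HasDerivAt (fun z => ∑' x : ℤ × ℤ, (n x : ℂ) *
        (1 / (z - lat a b x) ^ 2 - 1 / lat a b x ^ 2 - 2 * z / lat a b x ^ 3))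
      (-∑' x : ℤ × ℤ, (n x : ℂ) * (2 / (z - lat a b x) ^ 3 + 2 / lat a b x ^ 3)) z := by
  obtain ⟨c, M, hev⟩ := ev_Bd0 h hz
  obtain ⟨ε, hε, hb⟩ := Metric.eventually_nhds_iff_ball.1 hev
  have h10 : ((1, 0) : ℤ × ℤ) ≠ 0 := by
    intro h
    simpa using congrArg Prod.fst h
  have hz0 : z ∈ Metric.ball z ε := Metric.mem_ball_self hε
  have hc : 0 < c := (hb z hz0 _ h10).hc
  have hM : 0 ≤ M := (hb z hz0 _ h10).hM
  have hnx : ∀ x, n x ≠ 0 → x ≠ 0 := by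
    intro x h0 h1
    have := hn x
    rw [h1] at this
    simp [nx] at this
    rw [h1] at h0
    exact h0 this
  have hd : ∀ (x : ℤ × ℤ) (z' : ℂ), z' - lat a b x ≠ 0 → ∀ k : ℕ,
      HasDerivAt (fun z => 1 / (z - lat a b x) ^ k) (-(k : ℂ) / (z' - lat a b x) ^ (k + 1)) z' := by
    intro x z' hne k
    have h1 : HasFDerivAt (fun z : ℂ => z - lat a b x) (ContinuousLinearMap.id ℂ ℂ) z' :=
      (hasFDerivAt_id z').sub_const _
    have h2 := (hfd_inv_pow h1 hne k).hasDerivAt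
    simpa using h2
  have s1 : Summable fun x : ℤ × ℤ => (n x : ℂ) * (2 / (z - lat a b x) ^ 3 + 2 / lat a b x ^ 3) :=
    Summable.of_norm_bounded (summable_u3.mul_left (6 * M / c ^ 4)) (fun x =>
      mul_idx (B := 6 * M) (by positivity) hc _ (hn x) (fun h0 => (hb z hz0 x (hnx x h0)).b1
        (hnx x h0)))
  have s2 : Summable fun x : ℤ × ℤ => (n x : ℂ) *
      (1 / (z - lat a b x) ^ 2 - 1 / lat a b x ^ 2 - 2 * z / lat a b x ^ 3) :=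
    Summable.of_norm_bounded (summable_u3.mul_left (3 * M ^ 2 / c ^ 4)) (fun x =>
      mul_idx (B := 3 * M ^ 2) (by positivity) hc _ (hn x) (fun h0 => (hb z hz0 x (hnx x h0)).b2
        (hnx x h0)))
  constructor
  · refine hasDerivAt_tsum_of_isPreconnected
      (g := fun (x : ℤ × ℤ) (z : ℂ) =>
        (n x : ℂ) * (2 / (z - lat a b x) ^ 3 + 2 / lat a b x ^ 3))
      (g' := fun (x : ℤ × ℤ) (z : ℂ) => (n x : ℂ) * (-6 / (z - lat a b x) ^ 4))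
      (u := fun x => 6 / c ^ 4 * u3 x)
      (summable_u3.mul_left _) Metric.isOpen_ball (convex_ball z ε).isPreconnected
      (fun x z' hz' => ?_) (fun x z' hz' => ?_) hz0 s1 hz0
    · by_cases h0 : n x = 0
      · simp only [h0, Int.cast_zero, zero_mul]
        exact hasDerivAt_const _ _
      · have hBx := hb z' hz' x (hnx x h0)
        have h1 := ((hd x z' hBx.w_ne 3).const_mul 2).add_const (2 / lat a b x ^ 3)
        have h2 := h1.const_mul (n x : ℂ)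
        refine (h2.congr_deriv ?_).congr_of_eventuallyEq ?_
        · push_cast
          ring
        · refine Filter.Eventually.of_forall fun w => ?_
          change (n x : ℂ) * (2 / (w - lat a b x) ^ 3 + 2 / lat a b x ^ 3) =
            (n x : ℂ) * (2 * (1 / (w - lat a b x) ^ 3) + 2 / lat a b x ^ 3)
          ring
    · refine mul_idx (B := 6) (by norm_num) hc _ (hn x) (fun h0 => ?_)
      have := (hb z' hz' x (hnx x h0)).b3 (-6)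
      rwa [norm_neg, Complex.norm_ofNat] at this
  · rw [← tsum_neg]
    refine hasDerivAt_tsum_of_isPreconnected
      (g := fun (x : ℤ × ℤ) (z : ℂ) => (n x : ℂ) *
        (1 / (z - lat a b x) ^ 2 - 1 / lat a b x ^ 2 - 2 * z / lat a b x ^ 3))
      (g' := fun (x : ℤ × ℤ) (z : ℂ) =>
        -((n x : ℂ) * (2 / (z - lat a b x) ^ 3 + 2 / lat a b x ^ 3)))
      (u := fun x => 6 * M / c ^ 4 * u3 x)
      (summable_u3.mul_left _) Metric.isOpen_ball (convex_ball z ε).isPreconnected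
      (fun x z' hz' => ?_) (fun x z' hz' => ?_) hz0 s2 hz0
    · by_cases h0 : n x = 0
      · simp only [h0, Int.cast_zero, zero_mul, neg_zero]
        exact hasDerivAt_const _ _
      · have hBx := hb z' hz' x (hnx x h0)
        have h1 := ((hd x z' hBx.w_ne 2).sub_const (1 / lat a b x ^ 2)).sub
          ((hasDerivAt_id z').const_mul (2 / lat a b x ^ 3))
        have h2 := h1.const_mul (n x : ℂ)
        refine (h2.congr_deriv ?_).congr_of_eventuallyEq ?_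
        · push_cast
          ring
        · refine Filter.Eventually.of_forall fun w => ?_
          change (n x : ℂ) * (1 / (w - lat a b x) ^ 2 - 1 / lat a b x ^ 2 -
              2 * w / lat a b x ^ 3) =
            (n x : ℂ) * ((1 / (w - lat a b x) ^ 2 - 1 / lat a b x ^ 2) -
              2 / lat a b x ^ 3 * w)
          ring
    · rw [norm_neg]
      exact mul_idx (B := 6 * M) (by positivity) hc _ (hn x)
        (fun h0 => (hb z' hz' x (hnx x h0)).b1 (hnx x h0))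

/-- derivatives in `z` of the partial derivatives, also at `z = 0` -/
theorem hasDerivAt_wpa {a b z : ℂ} (h : Ind a b) (hz : Off a b z ∨ z = 0) :
    HasDerivAt (wpa a b) (wqa a b z) z :=
  (C1.hasDerivAt_series h hz (fun x => x.1) abs_fst_le).1

theorem hasDerivAt_wpb {a b z : ℂ} (h : Ind a b) (hz : Off a b z ∨ z = 0) :
    HasDerivAt (wpb a b) (wqb a b z) z :=
  (C1.hasDerivAt_series h hz (fun x => x.2) abs_snd_le).1

theorem hasDerivAt_wza {a b z : ℂ} (h : Ind a b) (hz : Off a b z ∨ z = 0) :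
    HasDerivAt (wza a b) (-wpa a b z) z :=
  (C1.hasDerivAt_series h hz (fun x => x.1) abs_fst_le).2

theorem hasDerivAt_wzb {a b z : ℂ} (h : Ind a b) (hz : Off a b z ∨ z = 0) :
    HasDerivAt (wzb a b) (-wpb a b z) z :=
  (C1.hasDerivAt_series h hz (fun x => x.2) abs_snd_le).2

theorem wpa_zero (a b : ℂ) : wpa a b 0 = 0 := by
  unfold wpa
  have h : ∀ x : ℤ × ℤ, (x.1 : ℂ) * (2 / (0 - lat a b x) ^ 3 + 2 / lat a b x ^ 3) = 0 := by
    intro x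
    have : (0 - lat a b x) ^ 3 = -lat a b x ^ 3 := by ring
    rw [this, div_neg]
    ring
  simp only [h, tsum_zero]

theorem wpb_zero (a b : ℂ) : wpb a b 0 = 0 := by
  unfold wpb
  have h : ∀ x : ℤ × ℤ, (x.2 : ℂ) * (2 / (0 - lat a b x) ^ 3 + 2 / lat a b x ^ 3) = 0 := by
    intro x
    have : (0 - lat a b x) ^ 3 = -lat a b x ^ 3 := by ring
    rw [this, div_neg]
    ring
  simp only [h, tsum_zero]

theorem C1.lat_neg (a b : ℂ) (x : ℤ × ℤ) : lat a b (-x) = -lat a b x := by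
  simp [lat]
  ring

theorem wza_neg (a b z : ℂ) : wza a b (-z) = -wza a b z := by
  unfold wza
  rw [← tsum_neg, ← (Equiv.neg (ℤ × ℤ)).tsum_eq]
  congr 1
  funext x
  simp only [Equiv.neg_apply, C1.lat_neg, Prod.fst_neg, Int.cast_neg]
  have e1 : (-z - -lat a b x) ^ 2 = (z - lat a b x) ^ 2 := by ring
  have e2 : (-lat a b x) ^ 2 = lat a b x ^ 2 := by ring
  have e3 : (-lat a b x) ^ 3 = -lat a b x ^ 3 := by ring
  rw [e1, e2, e3, div_neg]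
  ring

theorem wzb_neg (a b z : ℂ) : wzb a b (-z) = -wzb a b z := by
  unfold wzb
  rw [← tsum_neg, ← (Equiv.neg (ℤ × ℤ)).tsum_eq]
  congr 1
  funext x
  simp only [Equiv.neg_apply, C1.lat_neg, Prod.snd_neg, Int.cast_neg]
  have e1 : (-z - -lat a b x) ^ 2 = (z - lat a b x) ^ 2 := by ring
  have e2 : (-lat a b x) ^ 2 = lat a b x ^ 2 := by ring
  have e3 : (-lat a b x) ^ 3 = -lat a b x ^ 3 := by ring
  rw [e1, e2, e3, div_neg]
  ring

end Pool.Agent.EllSch
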