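import Pool.Agent.EllSch.Lattice

/-! # [CU] Behaviour at the cusp -/

open Filter Topology
open scoped Nat MatrixGroups CongruenceSubgroup

namespace Pool.Agent.EllSch

/-- the limit of `℘` at the cusp -/
noncomputable def Scot (z : ℂ) : ℂ := ∑' m : ℤ, (1 / (z - m) ^ 2 - 1 / (m : ℂ) ^ 2)

namespace Cusp

theorem term_bound {z l : ℂ} {M : ℝ} (hM : 0 < M) (hz : ‖z‖ ≤ M) (hl : 2 * M ≤ ‖l‖) :
    ‖1 / (z - l) ^ 2 - 1 / l ^ 2‖ ≤ 10 * M * (1 / ‖l‖ ^ 3) := by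
  have hl0 : 0 < ‖l‖ := by linarith
  have hln : l ≠ 0 := norm_pos_iff.1 hl0
  have h1 : ‖l‖ / 2 ≤ ‖z - l‖ := by
    have := norm_sub_norm_le l z
    rw [norm_sub_rev] at this
    linarith
  have h1' : 0 < ‖z - l‖ := by linarith
  have hzl : z - l ≠ 0 := norm_pos_iff.1 h1'
  have h2 : 1 / (z - l) ^ 2 - 1 / l ^ 2 = z * (2 * l - z) / ((z - l) ^ 2 * l ^ 2) := by
    field_simp
    ring
  have h3 : ‖2 * l - z‖ ≤ 5 / 2 * ‖l‖ := by
    calc ‖2 * l - z‖ ≤ ‖2 * l‖ + ‖z‖ := norm_sub_le _ _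
      _ = 2 * ‖l‖ + ‖z‖ := by rw [norm_mul]; norm_num
      _ ≤ _ := by linarith
  rw [h2, norm_div, norm_mul, norm_mul, norm_pow, norm_pow]
  have h4 : ‖z‖ * ‖2 * l - z‖ ≤ M * (5 / 2 * ‖l‖) := by gcongr
  have h5 : (‖l‖ / 2) ^ 2 * ‖l‖ ^ 2 ≤ ‖z - l‖ ^ 2 * ‖l‖ ^ 2 := by gcongr
  calc ‖z‖ * ‖2 * l - z‖ / (‖z - l‖ ^ 2 * ‖l‖ ^ 2)
      ≤ M * (5 / 2 * ‖l‖) / ((‖l‖ / 2) ^ 2 * ‖l‖ ^ 2) := by
        apply div_le_div₀ (by positivity) h4 (by positivity) h5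
    _ = 10 * M * (1 / ‖l‖ ^ 3) := by
        field_simp
        ring

theorem tannery {α ι : Type*} {F : Filter α} {z : α → ℂ} {z₀ : ℂ} (hz : Tendsto z F (𝓝 z₀))
    (l : α → ι → ℂ) (g : ι → ℂ) (b : ι → ℝ) (hb : Summable b) (hb0 : ∀ x, 0 ≤ b x)
    (S : Finset ι)
    (hlim : ∀ x, Tendsto (fun k => 1 / (z k - l k x) ^ 2 - 1 / (l k x) ^ 2) F (𝓝 (g x)))
    (hS : ∀ᶠ k in F, ∀ x, x ∉ S → 2 * (‖z₀‖ + 1) ≤ ‖l k x‖ ∧ 1 / ‖l k x‖ ^ 3 ≤ b x) :
    Tendsto (fun k => ∑' x, (1 / (z k - l k x) ^ 2 - 1 / (l k x) ^ 2)) F (𝓝 (∑' x, g x)) := by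
  classical
  have hM : 0 < ‖z₀‖ + 1 := by positivity
  have hzM : ∀ᶠ k in F, ‖z k‖ ≤ ‖z₀‖ + 1 := by
    have := hz.norm.eventually (gt_mem_nhds (lt_add_one ‖z₀‖))
    exact this.mono fun k hk => le_of_lt hk
  refine tendsto_tsum_of_dominated_convergence
    (bound := fun x => 10 * (‖z₀‖ + 1) * b x + if x ∈ S then ‖g x‖ + 1 else 0) ?_ hlim ?_
  · refine (hb.mul_left _).add (summable_of_ne_finset_zero (s := S) ?_)
    intro x hx
    rw [if_neg hx]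
  · have h1 : ∀ᶠ k in F, ∀ x ∈ S, ‖1 / (z k - l k x) ^ 2 - 1 / (l k x) ^ 2‖ ≤ ‖g x‖ + 1 := by
      rw [Finset.eventually_all]
      intro x _
      exact ((hlim x).norm.eventually (gt_mem_nhds (lt_add_one ‖g x‖))).mono fun k hk => le_of_lt hk
    filter_upwards [h1, hS, hzM] with k hk1 hk2 hk3 x
    by_cases hx : x ∈ S
    · rw [if_pos hx]
      have := hk1 x hx
      have h0 := mul_nonneg (by positivity : (0 : ℝ) ≤ 10 * (‖z₀‖ + 1)) (hb0 x)
      linarith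
    · rw [if_neg hx, add_zero]
      obtain ⟨h2, h3⟩ := hk2 x hx
      exact (term_bound hM hk3 h2).trans (mul_le_mul_of_nonneg_left h3 (by positivity))

theorem summable_norm_cube : Summable fun x : ℤ × ℤ => 1 / ‖x‖ ^ 3 := by
  have h := EisensteinSeries.summable_one_div_norm_rpow (k := 3) (by norm_num)
  rw [← (finTwoArrowEquiv ℤ).symm.summable_iff] at h
  refine h.congr fun x => ?_
  have hx : ‖(finTwoArrowEquiv ℤ).symm x‖ = ‖x‖ := by
    rw [EisensteinSeries.norm_eq_max_natAbs, Prod.norm_def, Int.norm_eq_abs, Int.norm_eq_abs]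
    simp [finTwoArrowEquiv, Nat.cast_natAbs]
  simp only [Function.comp]
  rw [hx, Real.rpow_neg (norm_nonneg _), one_div]
  norm_num

theorem norm_lat {τ : ℂ} (h1 : |τ.re| ≤ 1 / 2) (h2 : 1 ≤ τ.im) (x : ℤ × ℤ) :
    ‖x‖ / 2 ≤ ‖lat 1 τ x‖ := by
  have hre : (lat 1 τ x).re = x.1 + x.2 * τ.re := by simp [lat]
  have him : (lat 1 τ x).im = x.2 * τ.im := by simp [lat]
  rw [Prod.norm_def, Int.norm_eq_abs, Int.norm_eq_abs]
  have h3 : |(x.2 : ℝ)| ≤ ‖lat 1 τ x‖ := by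
    calc |(x.2 : ℝ)| = |(x.2 : ℝ)| * 1 := by ring
      _ ≤ |(x.2 : ℝ)| * τ.im := by gcongr
      _ = |(lat 1 τ x).im| := by rw [him, abs_mul, abs_of_pos (by linarith : 0 < τ.im)]
      _ ≤ _ := Complex.abs_im_le_norm _
  rcases le_total |(x.1 : ℝ)| |(x.2 : ℝ)| with h | h
  · rw [max_eq_right h]
    have := abs_nonneg (x.2 : ℝ)
    linarith
  · rw [max_eq_left h]
    have h4 : |(x.1 : ℝ)| - |(x.2 : ℝ)| * (1 / 2) ≤ |(lat 1 τ x).re| := by
      rw [hre]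
      have h5 : |(x.2 : ℝ) * τ.re| ≤ |(x.2 : ℝ)| * (1 / 2) := by
        rw [abs_mul]; gcongr
      have h6 := abs_sub_abs_le_abs_sub (x.1 : ℝ) (-((x.2 : ℝ) * τ.re))
      rw [abs_neg, sub_neg_eq_add] at h6
      linarith
    have h7 := Complex.abs_re_le_norm (lat 1 τ x)
    linarith

/-- the finite set of exceptional integers -/
noncomputable def exc (z₀ : ℂ) : Finset ℤ := Finset.Icc (-⌈2 * (‖z₀‖ + 1)⌉) ⌈2 * (‖z₀‖ + 1)⌉

theorem le_of_notMem_exc {z₀ : ℂ} {m : ℤ} (h : m ∉ exc z₀) : 2 * (‖z₀‖ + 1) ≤ ‖(m : ℂ)‖ := by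
  rw [Complex.norm_intCast]
  rw [exc, Finset.mem_Icc, not_and_or, not_le, not_le] at h
  have h0 := Int.le_ceil (2 * (‖z₀‖ + 1))
  rcases h with h | h
  · have h1 : (m : ℝ) < -(⌈2 * (‖z₀‖ + 1)⌉ : ℝ) := by exact_mod_cast h
    have := neg_le_abs (m : ℝ)
    linarith
  · have h1 : (⌈2 * (‖z₀‖ + 1)⌉ : ℝ) < (m : ℝ) := by exact_mod_cast h
    have := le_abs_self (m : ℝ)
    linarith

theorem tendsto_aux {τ z : ℕ → ℂ} {z₀ : ℂ} (hτ : Tendsto (fun k => (τ k).im) atTop atTop)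
    (hre : ∀ k, |(τ k).re| ≤ 1 / 2)
    (hz : Tendsto z atTop (𝓝 z₀)) (hz₀ : ∀ m : ℤ, z₀ ≠ m) :
    Tendsto (fun k => wp 1 (τ k) (z k)) atTop (𝓝 (Scot z₀)) := by
  classical
  set g : ℤ × ℤ → ℂ := fun x =>
    if x.2 = 0 then 1 / (z₀ - x.1) ^ 2 - 1 / (x.1 : ℂ) ^ 2 else 0 with hg
  have hgs : ∑' x, g x = Scot z₀ := by
    have hinj : Function.Injective (fun m : ℤ => ((m, 0) : ℤ × ℤ)) := by
      intro m n h; simpa using h
    rw [← hinj.tsum_eq]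
    · simp [hg, Scot]
    · intro x hx
      rw [Function.mem_support] at hx
      by_cases h : x.2 = 0
      · exact ⟨x.1, by rw [← h]⟩
      · exact absurd (by simp [hg, h]) hx
  rw [← hgs]
  have hM : 0 < ‖z₀‖ + 1 := by positivity
  have hzM : ∀ᶠ k in atTop, ‖z k‖ ≤ ‖z₀‖ + 1 := by
    have := hz.norm.eventually (gt_mem_nhds (lt_add_one ‖z₀‖))
    exact this.mono fun k hk => le_of_lt hk
  have hlat : ∀ k (x : ℤ × ℤ), |(x.2 : ℝ)| * |(τ k).im| ≤ ‖lat 1 (τ k) x‖ := by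
    intro k x
    have him : (lat 1 (τ k) x).im = x.2 * (τ k).im := by simp [lat]
    rw [← abs_mul, ← him]
    exact Complex.abs_im_le_norm _
  have hbig : ∀ x : ℤ × ℤ, x.2 ≠ 0 → Tendsto (fun k => ‖lat 1 (τ k) x‖) atTop atTop := by
    intro x hx
    have hx1 : (1 : ℝ) ≤ |(x.2 : ℝ)| := by exact_mod_cast Int.one_le_abs hx
    refine tendsto_atTop_mono (fun k => ?_) hτ
    calc (τ k).im ≤ |(τ k).im| := le_abs_self _
      _ = 1 * |(τ k).im| := by ring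
      _ ≤ |(x.2 : ℝ)| * |(τ k).im| := by gcongr
      _ ≤ _ := hlat k x
  refine tannery hz (fun k x => lat 1 (τ k) x) g (fun x => 8 * (1 / ‖x‖ ^ 3))
    (summable_norm_cube.mul_left 8) (fun x => by positivity)
    ((exc z₀).image fun m => ((m, 0) : ℤ × ℤ)) ?_ ?_
  · intro x
    by_cases hx : x.2 = 0
    · have h1 : ∀ k, lat 1 (τ k) x = x.1 := by
        intro k; simp [lat, hx]
      have h2 : g x = 1 / (z₀ - x.1) ^ 2 - 1 / (x.1 : ℂ) ^ 2 := by simp [hg, hx]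
      rw [h2]
      simp only [h1]
      have h3 : (z₀ - x.1) ^ 2 ≠ 0 := pow_ne_zero _ (sub_ne_zero.2 (hz₀ x.1))
      exact (tendsto_const_nhds.div ((hz.sub_const _).pow 2) h3).sub_const _
    · have h2 : g x = 0 := by simp [hg, hx]
      rw [h2]
      have h3 : Tendsto (fun k => 10 * (‖z₀‖ + 1) * (1 / ‖lat 1 (τ k) x‖ ^ 3)) atTop (𝓝 0) := by
        have : Tendsto (fun k => 1 / ‖lat 1 (τ k) x‖ ^ 3) atTop (𝓝 0) := by
          simp only [one_div]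
          exact tendsto_inv_atTop_zero.comp ((tendsto_pow_atTop (by norm_num)).comp (hbig x hx))
        simpa using this.const_mul (10 * (‖z₀‖ + 1))
      refine squeeze_zero_norm' ?_ h3
      filter_upwards [hzM, (hbig x hx).eventually_ge_atTop (2 * (‖z₀‖ + 1))] with k hk1 hk2
      exact term_bound hM hk1 hk2
  · filter_upwards [hτ.eventually_ge_atTop 1, hτ.eventually_ge_atTop (2 * (‖z₀‖ + 1))]
      with k hk1 hk2 x hx
    have hx0 : x ≠ 0 := by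
      rintro rfl
      apply hx
      rw [Finset.mem_image]
      refine ⟨0, ?_, rfl⟩
      rw [exc, Finset.mem_Icc]
      have : (0 : ℤ) ≤ ⌈2 * (‖z₀‖ + 1)⌉ := Int.ceil_nonneg (by positivity)
      constructor <;> linarith
    have hxpos : 0 < ‖x‖ := norm_pos_iff.2 hx0
    have h1 : 2 * (‖z₀‖ + 1) ≤ ‖lat 1 (τ k) x‖ := by
      by_cases h : x.2 = 0
      · have h1 : lat 1 (τ k) x = x.1 := by simp [lat, h]
        rw [h1]
        apply le_of_notMem_exc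
        intro h2
        apply hx
        rw [Finset.mem_image]
        exact ⟨x.1, h2, by rw [← h]⟩
      · have hx1 : (1 : ℝ) ≤ |(x.2 : ℝ)| := by exact_mod_cast Int.one_le_abs h
        calc 2 * (‖z₀‖ + 1) ≤ (τ k).im := hk2
          _ ≤ |(τ k).im| := le_abs_self _
          _ = 1 * |(τ k).im| := by ring
          _ ≤ |(x.2 : ℝ)| * |(τ k).im| := by gcongr
          _ ≤ _ := hlat k x
    refine ⟨h1, ?_⟩
    have h2 := norm_lat (hre k) hk1 x
    calc 1 / ‖lat 1 (τ k) x‖ ^ 3 ≤ 1 / (‖x‖ / 2) ^ 3 := by gcongr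
      _ = 8 * (1 / ‖x‖ ^ 3) := by field_simp; norm_num

theorem summable_int_cube : Summable fun m : ℤ => 1 / ‖(m : ℂ)‖ ^ 3 := by
  have h : Function.Injective (fun m : ℤ => ((m, 0) : ℤ × ℤ)) := by
    intro m n h; simpa using h
  refine (summable_norm_cube.comp_injective h).congr fun m => ?_
  simp [Prod.norm_def, Int.norm_eq_abs, Complex.norm_intCast]

end Cusp

open Cusp

theorem tendsto_wp_cusp {τ z : ℕ → ℂ} {z₀ : ℂ} (hτ : Tendsto (fun k => (τ k).im) atTop atTop)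
    (hz : Tendsto z atTop (𝓝 z₀)) (hz₀ : ∀ m : ℤ, z₀ ≠ m) :
    Tendsto (fun k => wp 1 (τ k) (z k)) atTop (𝓝 (Scot z₀)) := by
  have h1 : ∀ k, wp 1 (τ k) (z k) = wp 1 (-(round (τ k).re : ℂ) + τ k) (z k) := by
    intro k
    have := wp_change (a := 1) (b := τ k) (p := 1) (q := 0) (r := -round (τ k).re) (s := 1)
      (by ring) (z k)
    rw [← this]
    simp
  simp only [h1]
  apply tendsto_aux _ _ hz hz₀
  · simpa using hτ
  · intro k
    have := abs_sub_round (τ k).re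
    simp only [Complex.add_re, Complex.neg_re, Complex.intCast_re]
    rwa [neg_add_eq_sub]

theorem continuousAt_Scot {z₀ : ℂ} (hz₀ : ∀ m : ℤ, z₀ ≠ m) : ContinuousAt Scot z₀ := by
  have hz : Tendsto (fun z : ℂ => z) (𝓝 z₀) (𝓝 z₀) := tendsto_id
  refine tannery hz (fun (_ : ℂ) (m : ℤ) => (m : ℂ)) _ (fun m : ℤ => 1 / ‖(m : ℂ)‖ ^ 3)
    summable_int_cube
    (fun x => by positivity) (exc z₀) ?_ ?_
  · intro m
    have h3 : (z₀ - m) ^ 2 ≠ 0 := pow_ne_zero _ (sub_ne_zero.2 (hz₀ m))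
    exact (tendsto_const_nhds.div ((hz.sub_const _).pow 2) h3).sub_const _
  · exact Eventually.of_forall fun _ m hm => ⟨le_of_notMem_exc hm, le_rfl⟩

theorem exists_Scot_large (B : ℝ) : ∃ z : ℂ, (∀ m : ℤ, z ≠ m) ∧ B < ‖Scot z‖ := by
  classical
  -- the terms with `m ≠ 0` have bounded sum
  set C : ℝ := ∑' m : ℤ, 5 * (1 / ‖(m : ℂ)‖ ^ 3) with hC
  have hC0 : 0 ≤ C := tsum_nonneg fun m => by positivity
  set t : ℝ := 1 / (|B| + C + 2) with ht
  have htp : 0 < t := by positivity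
  have ht1 : t ≤ 1 / 2 := by
    rw [ht]
    gcongr
    have := abs_nonneg B
    linarith
  have hterm : ∀ m : ℤ, m ≠ 0 →
      ‖1 / ((t : ℂ) - m) ^ 2 - 1 / (m : ℂ) ^ 2‖ ≤ 5 * (1 / ‖(m : ℂ)‖ ^ 3) := by
    intro m hm
    have h1 : 2 * (1 / 2 : ℝ) ≤ ‖(m : ℂ)‖ := by
      rw [Complex.norm_intCast]
      have : (1 : ℝ) ≤ |(m : ℝ)| := by exact_mod_cast Int.one_le_abs hm
      linarith
    have h2 : ‖(t : ℂ)‖ ≤ 1 / 2 := by
      rw [Complex.norm_real, Real.norm_eq_abs, abs_of_pos htp]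
      exact ht1
    have := term_bound (by norm_num) h2 h1
    linarith
  have hsum : Summable fun m : ℤ => 1 / ((t : ℂ) - m) ^ 2 - 1 / (m : ℂ) ^ 2 := by
    refine Summable.of_norm_bounded_eventually (summable_int_cube.mul_left 5) ?_
    rw [Filter.eventually_cofinite]
    refine (Set.finite_singleton (0 : ℤ)).subset fun m hm => ?_
    by_contra h
    exact hm (hterm m h)
  refine ⟨(t : ℂ), ?_, ?_⟩
  · intro m hm
    have h1 : t = (m : ℝ) := by exact_mod_cast hm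
    have h2 : (0 : ℝ) < (m : ℝ) := by rw [← h1]; exact htp
    have h3 : (m : ℝ) < 1 := by rw [← h1]; linarith
    have h4 : 0 < m := by exact_mod_cast h2
    have h5 : m < 1 := by exact_mod_cast h3
    omega
  · have h1 : Scot (t : ℂ) = 1 / (t : ℂ) ^ 2 + ∑' m : ℤ,
        (if m = 0 then (0 : ℂ) else 1 / ((t : ℂ) - m) ^ 2 - 1 / (m : ℂ) ^ 2) := by
      rw [Scot, hsum.tsum_eq_add_tsum_ite 0]
      simp
    have h2 : ‖∑' m : ℤ, (if m = 0 then (0 : ℂ) else 1 / ((t : ℂ) - m) ^ 2 - 1 / (m : ℂ) ^ 2)‖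
        ≤ C := by
      refine tsum_of_norm_bounded (summable_int_cube.mul_left 5).hasSum fun m => ?_
      by_cases hm : m = 0
      · simp [hm]
      · rw [if_neg hm]; exact hterm m hm
    have h3 : ‖1 / (t : ℂ) ^ 2‖ = 1 / t ^ 2 := by
      rw [norm_div, norm_one, norm_pow, Complex.norm_real, Real.norm_eq_abs, abs_of_pos htp]
    have h4 : |B| + C + 2 ≤ 1 / t ^ 2 := by
      have h5 : 1 / t = |B| + C + 2 := by rw [ht]; field_simp
      have h6 : 1 / t ^ 2 = (|B| + C + 2) * (|B| + C + 2) := by rw [← h5]; field_simp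
      rw [h6]
      have := abs_nonneg B
      nlinarith
    rw [h1]
    have h5 := norm_sub_norm_le (1 / (t : ℂ) ^ 2) (-∑' m : ℤ,
      (if m = 0 then (0 : ℂ) else 1 / ((t : ℂ) - m) ^ 2 - 1 / (m : ℂ) ^ 2))
    rw [norm_neg, sub_neg_eq_add, h3] at h5
    have := le_abs_self B
    linarith


/-! ### `q`-expansions -/

section Q

open UpperHalfPlane EisensteinSeries ModularFormClass

namespace Cusp


theorem tsum_lat_eq (k : ℕ) (τ : UpperHalfPlane) :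
    ∑' x : ℤ × ℤ, 1 / lat 1 (τ : ℂ) x ^ k = ∑' v : Fin 2 → ℤ, eisSummand k v τ := by
  rw [← ((finTwoArrowEquiv ℤ).trans (Equiv.prodComm ℤ ℤ)).tsum_eq]
  refine tsum_congr fun v => ?_
  simp [eisSummand, lat, add_comm]

theorem tsum_lat_eq' {k : ℕ} (hk : 3 ≤ k) (τ : UpperHalfPlane) :
    ∑' x : ℤ × ℤ, 1 / lat 1 (τ : ℂ) x ^ k = 2 * riemannZeta k * ModularForm.E hk τ := by
  rw [tsum_lat_eq, tsum_eisSummand_eq_riemannZeta_mul_eisensteinSeries hk,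
    show ModularForm.E hk τ = (1 / 2 : ℂ) • eisensteinSeriesSIF (N := 1) 0 k τ from rfl,
    eisensteinSeriesSIF_apply 0 k τ]
  simp only [smul_eq_mul]
  ring

theorem exists_q {k : ℕ} (hk : 3 ≤ k) (hk2 : Even k) (c : ℂ) (hc : c ≠ 0) :
    ∃ g : ℂ → ℂ, DifferentiableOn ℂ g (Metric.ball 0 1) ∧ g 0 ≠ 0 ∧
    ∀ τ : ℂ, 0 < τ.im → c * ∑' x : ℤ × ℤ, 1 / lat 1 τ x ^ k =
      g (Complex.exp (2 * Real.pi * Complex.I * τ)) := by
  have hz : riemannZeta k ≠ 0 := riemannZeta_ne_zero_of_one_lt_re (by norm_cast; omega)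
  refine ⟨fun q => c * (2 * riemannZeta k) * cuspFunction 1 (ModularForm.E hk) q, ?_, ?_, ?_⟩
  · intro q hq
    exact ((ModularFormClass.differentiableAt_cuspFunction (ModularForm.E hk) one_pos
      one_mem_strictPeriods_SL (mem_ball_zero_iff.mp hq)).const_mul _).differentiableWithinAt
  · have h0 := EisensteinSeries.E_qExpansion_coeff_zero hk hk2
    have h1 : (qExpansion 1 (ModularForm.E hk)).coeff 0 =
        cuspFunction 1 (ModularForm.E hk) 0 := by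
      simp [qExpansion_coeff]
    simp only
    rw [← h1, h0, mul_one]
    exact mul_ne_zero hc (mul_ne_zero two_ne_zero hz)
  · intro τ hτ
    have h1 := tsum_lat_eq' hk ⟨τ, hτ⟩
    have h2 := SlashInvariantFormClass.eq_cuspFunction (h := 1) (ModularForm.E hk) ⟨τ, hτ⟩
      one_mem_strictPeriods_SL one_ne_zero
    simp only at h1
    rw [← h2] at h1
    have h3 : Function.Periodic.qParam 1 (τ : ℂ) = Complex.exp (2 * Real.pi * Complex.I * τ) := by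
      simp [Function.Periodic.qParam]
    change ∑' x : ℤ × ℤ, 1 / lat 1 τ x ^ k = _ * cuspFunction 1 _ (Function.Periodic.qParam 1 τ) at h1
    rw [h3] at h1
    rw [h1]
    ring


end Cusp

theorem exists_q_G2 : ∃ g : ℂ → ℂ, DifferentiableOn ℂ g (Metric.ball 0 1) ∧ g 0 ≠ 0 ∧
    ∀ τ : ℂ, 0 < τ.im → G2 1 τ = g (Complex.exp (2 * Real.pi * Complex.I * τ)) :=
  exists_q (k := 4) (by norm_num) (by decide) 60 (by norm_num)

theorem exists_q_G3 : ∃ g : ℂ → ℂ, DifferentiableOn ℂ g (Metric.ball 0 1) ∧ g 0 ≠ 0 ∧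
    ∀ τ : ℂ, 0 < τ.im → G3 1 τ = g (Complex.exp (2 * Real.pi * Complex.I * τ)) :=
  exists_q (k := 6) (by norm_num) (by decide) 140 (by norm_num)


end Q

end Pool.Agent.EllSch
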