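import Pool.Agent.EllSch.NumSetup
import Pool.Agent.EllSch.PtMap

/-! # [G] Comparison of two fields containing the same ring -/

open MvPolynomial

namespace Pool.Agent.EllSch

/-- two homomorphisms with the same kernel factor through a common field -/
theorem exists_common {R A B : Type} [CommRing R] [Field A] [Field B] (f : R →+* A) (g : R →+* B)
    (h : ∀ r, g r = 0 ↔ f r = 0) :
    ∃ (L : Type) (_ : Field L) (q : R →+* L) (i : L →+* A) (j : L →+* B),
      (∀ r, i (q r) = f r) ∧ (∀ r, j (q r) = g r) := by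
  have : (RingHom.ker f).IsPrime := RingHom.ker_isPrime f
  let R₀ := R ⧸ RingHom.ker f
  let f₀ : R₀ →+* A := Ideal.Quotient.lift (RingHom.ker f) f (fun a ha => ha)
  let g₀ : R₀ →+* B := Ideal.Quotient.lift (RingHom.ker f) g (fun a ha => (h a).2 ha)
  have hf₀ : Function.Injective f₀ := by
    rw [injective_iff_map_eq_zero]
    intro a
    obtain ⟨r, rfl⟩ := Ideal.Quotient.mk_surjective a
    intro hr
    exact Ideal.Quotient.eq_zero_iff_mem.2 hr
  have hg₀ : Function.Injective g₀ := by
    rw [injective_iff_map_eq_zero]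
    intro a
    obtain ⟨r, rfl⟩ := Ideal.Quotient.mk_surjective a
    intro hr
    exact Ideal.Quotient.eq_zero_iff_mem.2 ((h r).1 hr)
  refine ⟨FractionRing R₀, inferInstance, (algebraMap R₀ (FractionRing R₀)).comp
    (Ideal.Quotient.mk _), IsFractionRing.lift hf₀, IsFractionRing.lift hg₀, ?_, ?_⟩
  · intro r
    rw [RingHom.comp_apply, IsFractionRing.lift_algebraMap]
    rfl
  · intro r
    rw [RingHom.comp_apply, IsFractionRing.lift_algebraMap]
    rfl

theorem alg_of_map {L A : Type*} [Field L] [Field A] [Algebra ℚ L] [Algebra ℚ A] (i : L →ₐ[ℚ] A)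
    (S : Set L) {x : L} (h : IsAlgebraic (IntermediateField.adjoin ℚ (i '' S)) (i x)) :
    IsAlgebraic (IntermediateField.adjoin ℚ S) x := by
  rw [← IntermediateField.adjoin_map] at h
  exact (isAlgebraic_ringHom_iff_of_comp_eq (IntermediateField.equivMap _ i) i i.injective rfl).1 h

theorem map_mem_of_adjoin {L B : Type*} [Field L] [Field B] [Algebra ℚ L] (j : L →+* B)
    (S : Set L) (G : Subfield B) (hS : ∀ s ∈ S, j s ∈ G) {x : L}
    (hx : x ∈ IntermediateField.adjoin ℚ S) : j x ∈ G := by
  induction hx using IntermediateField.adjoin_induction with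
  | mem y hy => exact hS y hy
  | algebraMap c =>
    have h1 : algebraMap ℚ L c = (c : L) := eq_ratCast _ c
    rw [h1, map_ratCast]
    exact SubfieldClass.ratCast_mem G c
  | add a b _ _ ha hb => rw [map_add]; exact add_mem ha hb
  | inv a _ ha => rw [map_inv₀]; exact inv_mem ha
  | mul a b _ _ ha hb => rw [map_mul]; exact mul_mem ha hb

theorem alg_map {L B : Type*} [Field L] [Field B] [Algebra ℚ L] (j : L →+* B)
    (S : Set L) (G : Subfield B) (hS : ∀ s ∈ S, j s ∈ G) {x : L}
    (h : IsAlgebraic (IntermediateField.adjoin ℚ S) x) : IsAlgebraic G (j x) := by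
  let f : IntermediateField.adjoin ℚ S →+* G :=
    RingHom.codRestrict (j.comp (algebraMap (IntermediateField.adjoin ℚ S) L)) G
      (fun y => map_mem_of_adjoin j S G hS y.2)
  exact h.ringHom_of_comp_eq f j f.injective rfl

/-- transfer of algebraicity -/
theorem alg_transfer {R A B : Type} [CommRing R] [Field A] [Field B] [Algebra ℚ A]
    (f : R →+* A) (g : R →+* B)
    (h : ∀ r, g r = 0 ↔ f r = 0) (S : Set R) (G : Subfield B) (hS : ∀ s ∈ S, g s ∈ G) {x : R}
    (hx : IsAlgebraic (IntermediateField.adjoin ℚ (f '' S)) (f x)) : IsAlgebraic G (g x) := by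
  obtain ⟨L, iL, q, i, j, hi, hj⟩ := exists_common f g h
  have : CharZero A := algebraRat.charZero A
  have : CharZero L := (RingHom.charZero_iff i.injective).2 inferInstance
  let i' : L →ₐ[ℚ] A := i.toRatAlgHom
  have h1 : i' '' (q '' S) = f '' S := by
    rw [← Set.image_comp]
    exact Set.image_congr fun r _ => hi r
  have h2 : i' (q x) = f x := hi x
  rw [← h1, ← h2] at hx
  have h3 := alg_map j (q '' S) G (by
    rintro _ ⟨s, hs, rfl⟩
    rw [hj]
    exact hS s hs) (alg_of_map i' (q '' S) hx)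
  rw [hj] at h3
  exact h3

/-- transfer of relations between points -/
theorem sum_pt_transfer {R A B : Type} [CommRing R] [Field A] [Field B] [CharZero A]
    [DecidableEq A] [DecidableEq B]
    (f : R →+* A) (g : R →+* B) (h : ∀ r, g r = 0 ↔ f r = 0) (g2 g3 : R)
    (hΔ : f g2 ^ 3 - 27 * f g3 ^ 2 ≠ 0) {r : ℕ} (x y : Fin r → R)
    (hxy : ∀ k, f (y k) ^ 2 = 4 * f (x k) ^ 3 - f g2 * f (x k) - f g3) (m : Fin r → ℤ)
    (hs : ∑ k, m k • pt (g g2) (g g3) (g (x k)) (g (y k)) = 0) :
    ∑ k, m k • pt (f g2) (f g3) (f (x k)) (f (y k)) = 0 := by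
  classical
  obtain ⟨L, iL, q, i, j, hi, hj⟩ := exists_common f g h
  have : CharZero L := (RingHom.charZero_iff i.injective).2 inferInstance
  have : CharZero B := (RingHom.charZero_iff j.injective).1 inferInstance
  have hΔ' : q g2 ^ 3 - 27 * q g3 ^ 2 ≠ 0 := by
    intro h0
    apply hΔ
    have := congrArg i h0
    simp only [map_sub, map_mul, map_pow, map_ofNat, hi, map_zero] at this
    exact this
  have hxy' : ∀ k, q (y k) ^ 2 = 4 * q (x k) ^ 3 - q g2 * q (x k) - q g3 := by
    intro k
    apply i.injective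
    simp only [map_sub, map_mul, map_pow, map_ofNat, hi]
    exact hxy k
  have e1 := sum_pt_map i hΔ' (fun k => q (x k)) (fun k => q (y k)) hxy' m
  have e2 := sum_pt_map j hΔ' (fun k => q (x k)) (fun k => q (y k)) hxy' m
  obtain rfl : f = i.comp q := RingHom.ext fun r => (hi r).symm
  obtain rfl : g = j.comp q := RingHom.ext fun r => (hj r).symm
  exact e1.2 (e2.1 hs)

theorem aeval_comp_hom {σ κ : Type*} {C' : Type*} [Field C'] [Algebra ℚ C']
    (ψ : MvPolynomial σ ℚ →+* C') (e : κ → MvPolynomial σ ℚ) (P : MvPolynomial κ ℚ) :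
    aeval (fun k => ψ (e k)) P = ψ (aeval e P) := by
  have h1 : ((ψ.toRatAlgHom).comp (aeval e)) = aeval (fun k => ψ (e k)) := by
    apply MvPolynomial.algHom_ext
    intro k
    rw [AlgHom.comp_apply, aeval_X, aeval_X]
    rfl
  rw [← h1]
  rfl

/-- transfer of algebraic independence -/
theorem indep_transfer {σ κ : Type*} {K : Type*} [Field K] [Algebra ℂ K]
    (f : MvPolynomial σ ℚ →+* ℂ) (φ : MvPolynomial σ ℚ →+* K) (h : ∀ r, φ r = 0 ↔ f r = 0)
    (e : κ → MvPolynomial σ ℚ) (hφ : AlgebraicIndependent ℂ (fun k => φ (e k))) :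
    AlgebraicIndependent ℚ (fun k => f (e k)) := by
  have : CharZero K := (RingHom.charZero_iff (algebraMap ℂ K).injective).1 inferInstance
  have h1 : AlgebraicIndependent ℚ (fun k => φ (e k)) :=
    hφ.restrictScalars (algebraMap ℚ ℂ).injective
  rw [algebraicIndependent_iff] at h1 ⊢
  intro P hP
  apply h1
  rw [aeval_comp_hom, h, ← aeval_comp_hom]
  exact hP

end Pool.Agent.EllSch
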