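import Pool.Agent.EllSch.AxCount
import Pool.Agent.EllSch.Glue
import Pool.Agent.EllSch.Hom

/-! # [FB3a] Counting -/

open MvPolynomial

namespace Pool.Agent.EllSch

/-- a maximal algebraically independent subfamily -/
theorem exists_max {ι K : Type} [Fintype ι] [DecidableEq ι] [Field K] [Algebra ℂ K] (e : ι → K) :
    ∃ s : Finset ι, AlgebraicIndependent ℂ (fun i : s => e i) ∧
      ∀ i, IsAlgebraic (IntermediateField.adjoin ℂ (e '' s)) (e i) := by
  classical
  let P : Finset (Finset ι) := Finset.univ.filter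
    (fun s => AlgebraicIndepOn ℂ e (s : Set ι))
  have hP : P.Nonempty := by
    refine ⟨∅, Finset.mem_filter.2 ⟨Finset.mem_univ _, ?_⟩⟩
    have h0 : IsEmpty ((∅ : Finset ι) : Set ι) := by simp
    exact (algebraicIndependent_empty_type_iff).2 (algebraMap ℂ K).injective
  obtain ⟨s, hs, hmax⟩ := Finset.exists_max_image P Finset.card hP
  have hs' : AlgebraicIndepOn ℂ e (s : Set ι) := (Finset.mem_filter.1 hs).2
  refine ⟨s, hs', fun i => ?_⟩
  by_cases hi : i ∈ s
  · exact isAlgebraic_algebraMap (⟨e i, IntermediateField.subset_adjoin _ _ ⟨i, hi, rfl⟩⟩ :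
      IntermediateField.adjoin ℂ (e '' s))
  · have h1 : insert i s ∉ P := by
      intro h
      have := hmax _ h
      rw [Finset.card_insert_of_notMem hi] at this
      omega
    have h2 : ¬AlgebraicIndepOn ℂ e (insert i (s : Set ι)) := by
      intro h
      apply h1
      refine Finset.mem_filter.2 ⟨Finset.mem_univ _, ?_⟩
      rw [Finset.coe_insert]
      exact h
    rw [AlgebraicIndepOn.insert_iff (by simpa using hi)] at h2
    have h3 : IsAlgebraic (Algebra.adjoin ℂ (e '' s)) (e i) := by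
      by_contra h
      exact h2 ⟨hs', h⟩
    open scoped IntermediateField.algebraAdjoinAdjoin in
    exact h3.extendScalars (FaithfulSMul.algebraMap_injective _ _)

/-- the field of elements which are algebraic over a family -/
noncomputable def GG {K κ : Type} [Field K] [Algebra ℂ K] (t : κ → K) : Subfield K :=
  (algebraicClosure (IntermediateField.adjoin ℂ (Set.range t)) K).toSubfield

theorem mem_GG {K κ : Type} [Field K] [Algebra ℂ K] (t : κ → K) (x : K) :
    x ∈ GG t ↔ IsAlgebraic (IntermediateField.adjoin ℂ (Set.range t)) x :=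
  mem_algebraicClosure_iff

theorem GG_closed {K κ : Type} [Field K] [Algebra ℂ K] (t : κ → K) {x : K}
    (h : IsAlgebraic (GG t) x) : x ∈ GG t := by
  rw [mem_GG]
  have h' : IsAlgebraic (algebraicClosure (IntermediateField.adjoin ℂ (Set.range t)) K) x := h
  exact h'.restrictScalars _

theorem range_mem_GG {K κ : Type} [Field K] [Algebra ℂ K] (t : κ → K) (k : κ) : t k ∈ GG t := by
  rw [mem_GG]
  exact isAlgebraic_algebraMap (⟨t k, IntermediateField.subset_adjoin _ _ ⟨k, rfl⟩⟩ :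
      IntermediateField.adjoin ℂ (Set.range t))

theorem const_mem_GG {K κ : Type} [Field K] [Algebra ℂ K] (t : κ → K) (c : ℂ) :
    algebraMap ℂ K c ∈ GG t := by
  rw [mem_GG]
  exact isAlgebraic_algebraMap (⟨algebraMap ℂ K c, algebraMap_mem _ c⟩ :
      IntermediateField.adjoin ℂ (Set.range t))

theorem ax_count' {K : Type} [Field K] [Algebra ℂ K] [DecidableEq K] {r : ℕ} (A : AxData ℂ K r)
    (hind : ∀ m : Fin r → ℤ, m ≠ 0 → ∑ i, m i • pt A.g2 A.g3 (A.x i) (A.y i) ≠ 0)
    {κ : Type} [Fintype κ] (t : κ → K)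
    (hg2 : A.g2 ∈ GG t) (hg3 : A.g3 ∈ GG t) (hw1 : A.w1 ∈ GG t) (hw2 : A.w2 ∈ GG t)
    (he1 : A.e1 ∈ GG t) (he2 : A.e2 ∈ GG t) (hx : ∀ i, A.x i ∈ GG t) (hp : ∀ i, A.p i ∈ GG t)
    (hz : ∀ i, A.z i ∈ GG t) :
    2 * r + 4 ≤ Fintype.card κ := by
  let t' : Fin (Fintype.card κ) → K := t ∘ (Fintype.equivFin κ).symm
  have hr : Set.range t' = Set.range t := (Fintype.equivFin κ).symm.surjective.range_comp t
  have key : ∀ x, x ∈ GG t → IsAlgebraic (IntermediateField.adjoin ℂ (Set.range t')) x := by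
    intro x hx
    rw [hr]
    exact (mem_GG t x).1 hx
  exact ax_count A hind t' (key _ hg2) (key _ hg3) (key _ hw1) (key _ hw2) (key _ he1)
    (key _ he2) (fun i => key _ (hx i)) (fun i => key _ (hp i)) (fun i => key _ (hz i))

noncomputable section

/-- the index set of the conjecture -/
abbrev EIx (n : ℕ) : Type := Fin 2 ⊕ (Fin 3 × Fin n)

/-- the variables of the conjecture -/
def ee (n : ℕ) : EIx n → RR n :=
  Sum.elim ![vg2, vg3] (fun q => ![vp q.2, vx q.2, vz q.2] q.1)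

variable {n : ℕ}

/-- the numbers which are algebraic over the numbers of the conjecture -/
def FF (v : PIx n → ℂ) : Subfield ℂ :=
  (algebraicClosure (IntermediateField.adjoin ℚ (nev v '' (Set.range (ee n)))) ℂ).toSubfield

theorem mem_FF (v : PIx n → ℂ) (x : ℂ) :
    x ∈ FF v ↔ IsAlgebraic (IntermediateField.adjoin ℚ (nev v '' (Set.range (ee n)))) x :=
  mem_algebraicClosure_iff

theorem gen_mem_FF (v : PIx n → ℂ) (i : EIx n) : nev v (ee n i) ∈ FF v := by
  rw [mem_FF]
  exact isAlgebraic_algebraMap (⟨nev v (ee n i), IntermediateField.subset_adjoin _ _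
    ⟨_, ⟨i, rfl⟩, rfl⟩⟩ : IntermediateField.adjoin ℚ (nev v '' (Set.range (ee n))))

theorem FF_sq (v : PIx n → ℂ) {x : ℂ} (h : x ^ 2 ∈ FF v) : x ∈ FF v := by
  rw [mem_FF] at h ⊢
  exact h.of_pow (by norm_num)

/-- the quasi-periods attached to periods in the span of the points are algebraic over the
numbers of the conjecture -/
theorem eta_mem_FF {v : PIx n → ℂ} (hv : v ∈ UU n) (k : Fin n → ℤ) (x : ℤ × ℤ)
    (hk : ∑ i, (k i : ℂ) * v (Sum.inr i) = lat (v (Sum.inl 0)) (v (Sum.inl 1)) x) :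
    eta (v (Sum.inl 0)) (v (Sum.inl 1)) x ∈ FF v := by
  obtain ⟨h, hoff⟩ := hv
  have hg2 : G2 (v (Sum.inl 0)) (v (Sum.inl 1)) ∈ FF v := by
    have := gen_mem_FF v (Sum.inl 0)
    rwa [show ee n (Sum.inl 0) = vg2 from rfl, NumSetup.nev_vg2] at this
  have hg3 : G3 (v (Sum.inl 0)) (v (Sum.inl 1)) ∈ FF v := by
    have := gen_mem_FF v (Sum.inl 1)
    rwa [show ee n (Sum.inl 1) = vg3 from rfl, NumSetup.nev_vg3] at this
  obtain ⟨H, hH⟩ := exists_subgroup h (FF v) hg2
  have hi : ∀ i, v (Sum.inr i) ∈ H := by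
    intro i
    rw [hH]
    left
    have hx : wp (v (Sum.inl 0)) (v (Sum.inl 1)) (v (Sum.inr i)) ∈ FF v := by
      have := gen_mem_FF v (Sum.inr (1, i))
      rwa [show ee n (Sum.inr (1, i)) = vx i from rfl, NumSetup.nev_vx] at this
    have hz : wz (v (Sum.inl 0)) (v (Sum.inl 1)) (v (Sum.inr i)) ∈ FF v := by
      have := gen_mem_FF v (Sum.inr (2, i))
      rwa [show ee n (Sum.inr (2, i)) = vz i from rfl, NumSetup.nev_vz] at this
    refine ⟨hoff i, hx, FF_sq v ?_, hz⟩
    rw [ode h (hoff i)]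
    have h4 : (4 : ℂ) ∈ FF v := ofNat_mem _ 4
    exact sub_mem (sub_mem (mul_mem h4 (pow_mem hx 3)) (mul_mem hg2 hx)) hg3
  have hs : lat (v (Sum.inl 0)) (v (Sum.inl 1)) x ∈ H := by
    rw [← hk]
    refine sum_mem fun i _ => ?_
    have := zsmul_mem (hi i) (k i)
    rwa [zsmul_eq_mul] at this
  rw [hH] at hs
  rcases hs with ⟨h1, -⟩ | ⟨x', h1, h2⟩
  · exact absurd rfl (h1 x)
  · rwa [lat_injective h h1]

section
variable {K : Type} [Field K] [Algebra ℂ K] (φ : RR n →+* K) (v : PIx n → ℂ)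
  (h0 : ∀ h, φ h = 0 ↔ nev v h = 0)

include h0 in
theorem phi_eq {x y : RR n} (h : nev v x = nev v y) : φ x = φ y := by
  rw [← sub_eq_zero, ← map_sub, h0, map_sub, h, sub_self]

include h0 in
theorem mem_transfer {κ : Type} (t : κ → K) (ht : ∀ i, φ (ee n i) ∈ GG t) {x : RR n}
    (hx : nev v x ∈ FF v) : φ x ∈ GG t := by
  apply GG_closed
  refine alg_transfer (nev v) φ h0 (Set.range (ee n)) (GG t) ?_ ((mem_FF v _).1 hx)
  rintro _ ⟨i, rfl⟩
  exact ht i

end

end

end Pool.Agent.EllSch
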