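import Mathlib

/-! # [TR] The transfer lemma -/

open Filter Topology

namespace Pool.Agent.EllSch.Transfer

/-- columns with a nonvanishing minor -/
lemma exists_cols {ι : Type} [Fintype ι] {r : ℕ} (v : Fin r → ι → ℂ) (hv : LinearIndependent ℂ v) :
    ∃ c : Fin r → ι, Matrix.det (Matrix.of fun i j => v i (c j)) ≠ 0 := by
  classical
  set A : Matrix (Fin r) ι ℂ := Matrix.of v with hA
  have h1 : A.rank = r := by
    have := LinearIndependent.rank_matrix (M := A) hv
    simpa using this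
  rw [Matrix.rank_eq_finrank_span_cols] at h1
  obtain ⟨f, hf1, hf2, hf3⟩ := Submodule.exists_fun_fin_finrank_span_eq ℂ (Set.range A.col)
  choose c hc using hf1
  have hinj : LinearIndependent ℂ (fun j : Fin r => f (Fin.cast h1.symm j)) :=
    hf3.comp _ (Fin.cast_injective _)
  refine ⟨fun j => c (Fin.cast h1.symm j), ?_⟩
  have h2 : LinearIndependent ℂ
      (Matrix.transpose (Matrix.of fun i j => v i (c (Fin.cast h1.symm j)))).row := by
    convert! hinj using 1
    funext j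
    rw [← hc]
    rfl
  rw [Matrix.linearIndependent_rows_iff_isUnit, Matrix.isUnit_iff_isUnit_det,
    Matrix.det_transpose] at h2
  exact h2.ne_zero

section alg

variable {R : Type*} [CommRing R] {ι : Type*} [Fintype ι] [DecidableEq ι] {r : ℕ}

/-- coefficients -/
def yv (A : Matrix (Fin r) ι R) (c : Fin r → ι) (x : ι → R) (i : Fin r) : R :=
  ∑ j, x (c j) * (A.submatrix id c).adjugate j i

def Ek (A : Matrix (Fin r) ι R) (c : Fin r → ι) (x : ι → R) (k : ι) : R :=
  (A.submatrix id c).det * x k - ∑ i, yv A c x i * A i k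

def qv (A : Matrix (Fin r) ι R) (c : Fin r → ι) (k0 k : ι) : R :=
  (A.submatrix id c).det * (if k = k0 then 1 else 0) -
    ∑ i, ∑ j, if c j = k then (A.submatrix id c).adjugate j i * A i k0 else 0

lemma sum_qv (A : Matrix (Fin r) ι R) (c : Fin r → ι) (x : ι → R) (k0 : ι) :
    ∑ k, qv A c k0 k * x k = Ek A c x k0 := by
  unfold qv Ek yv
  simp_rw [sub_mul, Finset.sum_sub_distrib]
  congr 1
  · simp
  · simp_rw [Finset.sum_mul]
    rw [Finset.sum_comm]
    apply Finset.sum_congr rfl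
    intro i _
    rw [Finset.sum_comm]
    apply Finset.sum_congr rfl
    intro j _
    simp only [ite_mul, zero_mul]
    rw [Finset.sum_ite_eq]
    simp only [Finset.mem_univ, if_true]
    ring

lemma Ek_span (A : Matrix (Fin r) ι R) (c : Fin r → ι) (x : ι → R) (l : Fin r → R)
    (hx : ∀ k, x k = ∑ i, l i * A i k) (k : ι) : Ek A c x k = 0 := by
  unfold Ek
  have hy : ∀ i, yv A c x i = l i * (A.submatrix id c).det := by
    intro i
    unfold yv
    have h1 : ∀ j, x (c j) * (A.submatrix id c).adjugate j i =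
        ∑ i', l i' * ((A.submatrix id c) i' j * (A.submatrix id c).adjugate j i) := by
      intro j
      rw [hx, Finset.sum_mul]
      apply Finset.sum_congr rfl
      intro i' _
      simp only [Matrix.submatrix_apply, id_eq]
      ring
    simp_rw [h1]
    rw [Finset.sum_comm]
    simp_rw [← Finset.mul_sum, ← Matrix.mul_apply, Matrix.mul_adjugate, Matrix.smul_apply,
      Matrix.one_apply]
    simp
  simp_rw [hy, hx, Finset.mul_sum]
  rw [← Finset.sum_sub_distrib]
  apply Finset.sum_eq_zero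
  intro i _
  ring

lemma map_Ek {S : Type*} [CommRing S] (e : R →+* S) (A : Matrix (Fin r) ι R) (c : Fin r → ι)
    (x : ι → R) (k : ι) : e (Ek A c x k) = Ek (A.map e) c (fun k => e (x k)) k := by
  unfold Ek yv
  rw [map_sub, map_mul, map_sum]
  congr 1
  · rw [RingHom.map_det]
    rfl
  · apply Finset.sum_congr rfl
    intro i _
    rw [map_mul, map_sum]
    congr 1
    apply Finset.sum_congr rfl
    intro j _
    rw [map_mul]
    congr 1
    have := RingHom.map_adjugate e (A.submatrix id c)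
    have h2 := congrFun (congrFun this j) i
    simp only [RingHom.mapMatrix_apply, Matrix.map_apply] at h2
    rw [h2]
    rfl

end alg


section analysis

variable {ι : Type} [Fintype ι] [DecidableEq ι] {R : Type} [CommRing R]

/-- a linear map on `ι → ℂ` in coordinates -/
lemma clm_apply (L : (ι → ℂ) →L[ℂ] ℂ) (x : ι → ℂ) : L x = ∑ k, x k * L (Pi.single k 1) := by
  have h := LinearMap.pi_apply_eq_sum_univ (L : (ι → ℂ) →ₗ[ℂ] ℂ) x
  simp only [ContinuousLinearMap.coe_coe, smul_eq_mul] at h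
  rw [h]
  apply Finset.sum_congr rfl
  intro k _
  congr 2
  funext j
  by_cases hjk : k = j
  · subst hjk; simp
  · rw [Pi.single_eq_of_ne (Ne.symm hjk), if_neg hjk]

/-- the chart -/
def Ph (ev : (ι → ℂ) → R →+* ℂ) {r : ℕ} (h : Fin r → R) (c : Fin r → ι) (v : ι → ℂ) : ι → ℂ :=
  v + ∑ j, (ev v (h j) - v (c j)) • (Pi.single (c j) 1 : ι → ℂ)

lemma Ph_col (ev : (ι → ℂ) → R →+* ℂ) {r : ℕ} (h : Fin r → R) (c : Fin r → ι)
    (hc : Function.Injective c) (v : ι → ℂ) (i : Fin r) : Ph ev h c v (c i) = ev v (h i) := by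
  unfold Ph
  rw [Pi.add_apply, Finset.sum_apply, Finset.sum_eq_single i]
  · simp
  · intro j _ hj
    have : c i ≠ c j := fun h => hj (hc h).symm
    rw [Pi.smul_apply, Pi.single_eq_of_ne this, smul_zero]
  · intro h; exact absurd (Finset.mem_univ i) h

/-- the derivative of the chart -/
noncomputable def Phd {r : ℕ} (c : Fin r → ι) (L : Fin r → (ι → ℂ) →L[ℂ] ℂ) : (ι → ℂ) →L[ℂ] (ι → ℂ) :=
  ContinuousLinearMap.id ℂ (ι → ℂ) +
    ∑ j, (L j - ContinuousLinearMap.proj (c j)).smulRight (Pi.single (c j) 1 : ι → ℂ)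

lemma Ph_deriv (ev : (ι → ℂ) → R →+* ℂ) {r : ℕ} (h : Fin r → R) (c : Fin r → ι) (v : ι → ℂ)
    (L : Fin r → (ι → ℂ) →L[ℂ] ℂ) (hL : ∀ j, HasStrictFDerivAt (fun v => ev v (h j)) (L j) v) :
    HasStrictFDerivAt (Ph ev h c) (Phd c L) v := by
  unfold Ph Phd
  apply HasStrictFDerivAt.add (hasStrictFDerivAt_id v)
  apply HasStrictFDerivAt.fun_sum
  intro j _
  apply HasStrictFDerivAt.smul_const
  exact (hL j).sub (ContinuousLinearMap.proj (R := ℂ) (φ := fun _ : ι => ℂ) (c j)).hasStrictFDerivAt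

lemma Phd_inj {r : ℕ} (c : Fin r → ι) (hc : Function.Injective c)
    (L : Fin r → (ι → ℂ) →L[ℂ] ℂ)
    (hdet : (Matrix.of fun i j => L i (Pi.single (c j) 1)).det ≠ 0) :
    Function.Injective (Phd c L) := by
  rw [injective_iff_map_eq_zero]
  intro x hx
  have hout : ∀ k, (∀ j, c j ≠ k) → x k = 0 := by
    intro k hk
    have h1 := congrFun hx k
    unfold Phd at h1
    simp only [ContinuousLinearMap.add_apply, ContinuousLinearMap.id_apply,
      ContinuousLinearMap.sum_apply, Pi.add_apply, Finset.sum_apply, Pi.zero_apply,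
      ContinuousLinearMap.smulRight_apply, Pi.smul_apply] at h1
    rw [Finset.sum_eq_zero, add_zero] at h1
    · exact h1
    · intro j _
      rw [Pi.single_eq_of_ne (hk j).symm, smul_zero]
  have hL : ∀ i, L i x = 0 := by
    intro i
    have h1 := congrFun hx (c i)
    unfold Phd at h1
    simp only [ContinuousLinearMap.add_apply, ContinuousLinearMap.id_apply,
      ContinuousLinearMap.sum_apply, Pi.add_apply, Finset.sum_apply, Pi.zero_apply,
      ContinuousLinearMap.smulRight_apply, Pi.smul_apply] at h1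
    rw [Finset.sum_eq_single i] at h1
    · simpa using h1
    · intro j _ hj
      have : c i ≠ c j := fun h => hj (hc h).symm
      rw [Pi.single_eq_of_ne this, smul_zero]
    · intro h; exact absurd (Finset.mem_univ i) h
  have hx2 : ∀ i, ∑ j, L i (Pi.single (c j) 1) * x (c j) = 0 := by
    intro i
    have h1 := hL i
    rw [clm_apply] at h1
    rw [← h1]
    have h2 : ∑ k, x k * L i (Pi.single k 1) =
        ∑ k ∈ Finset.univ.image c, x k * L i (Pi.single k 1) := by
      symm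
      apply Finset.sum_subset (Finset.subset_univ _)
      intro k _ hk
      rw [hout k, zero_mul]
      intro j hj
      exact hk (Finset.mem_image.2 ⟨j, Finset.mem_univ j, hj⟩)
    rw [h2, Finset.sum_image fun a _ b _ h => hc h]
    apply Finset.sum_congr rfl
    intro j _
    ring
  have hz : (fun j => x (c j)) = 0 := by
    have h3 : Matrix.mulVec (Matrix.of fun i j => L i (Pi.single (c j) 1)) (fun j => x (c j)) = 0 := by
      funext i
      exact hx2 i
    exact Matrix.eq_zero_of_mulVec_eq_zero hdet h3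
  funext k
  by_cases hk : ∃ j, c j = k
  · obtain ⟨j, rfl⟩ := hk
    exact congrFun hz j
  · push Not at hk
    exact hout k hk

/-- the derivative as an equivalence -/
lemma exists_equiv {r : ℕ} (c : Fin r → ι) (hc : Function.Injective c)
    (L : Fin r → (ι → ℂ) →L[ℂ] ℂ)
    (hdet : (Matrix.of fun i j => L i (Pi.single (c j) 1)).det ≠ 0) :
    ∃ e : (ι → ℂ) ≃L[ℂ] (ι → ℂ), (e : (ι → ℂ) →L[ℂ] (ι → ℂ)) = Phd c L := by
  refine ⟨(LinearEquiv.ofInjectiveEndo ((Phd c L) : (ι → ℂ) →ₗ[ℂ] (ι → ℂ))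
    (Phd_inj c hc L hdet)).toContinuousLinearEquiv, ?_⟩
  ext x k
  rfl

end analysis


section main

variable {ι : Type} [Fintype ι] [DecidableEq ι] {R : Type} [CommRing R]

/-- derivative of a value along a curve -/
lemma deriv_along (f : (ι → ℂ) → ℂ) (L : (ι → ℂ) →L[ℂ] ℂ) (γ : ℝ → ι → ℂ) (γ' : ι → ℂ) (s : ℝ)
    (hf : HasFDerivAt f L (γ s)) (hγ : HasDerivAt γ γ' s) :
    HasDerivAt (fun s => f (γ s)) (∑ k, γ' k * L (Pi.single k 1)) s := by
  have h1 := (hf.restrictScalars ℝ).comp_hasDerivAt s hγ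
  have h2 : (L.restrictScalars ℝ) γ' = ∑ k, γ' k * L (Pi.single k 1) := by
    rw [← clm_apply]
    rfl
  rw [h2] at h1
  exact h1

theorem local_const [IsNoetherianRing R] (ev : (ι → ℂ) → R →+* ℂ) (U : Set (ι → ℂ)) (hU : IsOpen U)
    (d : ι → Derivation ℤ R R) (κ : (ι → ℂ) → ℂ) (hκ : ∀ a ∈ U, κ a ≠ 0)
    (X : ι → R) (hX : ∀ a ∈ U, ∀ k, ev a (X k) = a k)
    (hd : ∀ a ∈ U, ∀ T : R, ∃ L : (ι → ℂ) →L[ℂ] ℂ, HasStrictFDerivAt (fun v => ev v T) L a ∧
      ∀ k, κ a * L (Pi.single k 1) = ev a (d k T))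
    (τ : (ι → ℂ) → ℂ) (T : ι → R) (u : (ι → ℂ) → ℂ)
    (hτ : ∀ a ∈ U, ∃ L : (ι → ℂ) →L[ℂ] ℂ, HasStrictFDerivAt τ L a ∧
      ∀ k, L (Pi.single k 1) = u a * ev a (T k))
    (I : Ideal R) (a : ι → ℂ) (ha : a ∈ U) (hI : ∀ x, x ∈ I ↔ ev a x = 0)
    (hbad : ¬ ∃ q : ι → R, (∀ h : R, ev a h = 0 → ev a (∑ k, q k * d k h) = 0) ∧
      ev a (∑ k, q k * T k) ≠ 0) :
    ∃ V ∈ 𝓝 a, ∀ b ∈ V, b ∈ U → (∀ x ∈ I, ev b x = 0) → τ b = τ a := by
  classical
  rcases isEmpty_or_nonempty ι with hemp | ⟨⟨k0⟩⟩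
  · exact ⟨Set.univ, Filter.univ_mem, fun b _ _ _ => by rw [Subsingleton.elim b a]⟩
  -- the gradients
  set g : R → ι → ℂ := fun h k => ev a (d k h) with hg
  obtain ⟨r, f, hf1, hf2, hf3⟩ : ∃ (r : ℕ) (f : Fin r → ι → ℂ), (∀ i, f i ∈ g '' (I : Set R)) ∧
      Submodule.span ℂ (Set.range f) = Submodule.span ℂ (g '' (I : Set R)) ∧
      LinearIndependent ℂ f := ⟨_, Submodule.exists_fun_fin_finrank_span_eq ℂ (g '' (I : Set R))⟩
  choose h hhI hhf using hf1
  obtain ⟨c, hc⟩ := exists_cols f hf3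
  have hcinj : Function.Injective c := by
    intro i j hij
    by_contra hne
    apply hc
    apply Matrix.det_zero_of_column_eq hne
    intro k
    simp only [Matrix.of_apply, hij]
  set A : Matrix (Fin r) ι R := Matrix.of fun i k => d k (h i) with hA
  have hAmap : ∀ i k, (A.map (ev a)) i k = f i k := by
    intro i k
    rw [← hhf i]
    rfl
  set D : R := (A.submatrix id c).det with hD
  have hDa : ev a D ≠ 0 := by
    rw [hD, RingHom.map_det]
    convert! hc using 2
    ext i j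
    exact hAmap i (c j)
  -- step A
  have hstepA : ∀ x ∈ I, ∀ k, Ek A c (fun k => d k x) k ∈ I := by
    intro x hx k
    rw [hI, map_Ek]
    have h1 : g x ∈ Submodule.span ℂ (Set.range f) := by
      rw [hf2]
      exact Submodule.subset_span ⟨x, hx, rfl⟩
    rw [Submodule.mem_span_range_iff_exists_fun] at h1
    obtain ⟨l, hl⟩ := h1
    apply Ek_span _ _ _ l
    intro k
    have h2 := congrFun hl k
    rw [Finset.sum_apply] at h2
    change ev a (d k x) = _
    have h3 : ev a (d k x) = g x k := rfl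
    rw [h3, ← h2]
    apply Finset.sum_congr rfl
    intro i _
    rw [Pi.smul_apply, smul_eq_mul, hAmap]
  -- step B
  have hstepB : ∀ k, Ek A c T k ∈ I := by
    intro k
    by_contra hcon
    apply hbad
    refine ⟨qv A c k, ?_, ?_⟩
    · intro x hx
      have h1 := sum_qv A c (fun k => d k x) k
      rw [h1, ← hI]
      exact hstepA x ((hI x).2 hx) k
    · rw [sum_qv]
      rw [hI] at hcon
      exact hcon
  -- generators
  obtain ⟨n, F, hF⟩ := Submodule.fg_iff_exists_fin_generating_family.1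
    (IsNoetherian.noetherian I)
  have hFI : ∀ j, F j ∈ I := by
    intro j
    rw [← hF]
    exact Submodule.subset_span ⟨j, rfl⟩
  have hco : ∀ (j : Fin n) (k : ι), ∃ co : Fin n → R,
      ∑ l, co l * F l = Ek A c (fun k => d k (F j)) k := by
    intro j k
    have h1 := hstepA (F j) (hFI j) k
    rw [← hF, Submodule.mem_span_range_iff_exists_fun] at h1
    exact h1
  choose co hco using hco
  -- κ is a value of the ring
  have hκX : ∀ v ∈ U, κ v = ev v (d k0 (X k0)) := by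
    intro v hv
    obtain ⟨L, hL, hLk⟩ := hd v hv (X k0)
    have h1 : HasFDerivAt (fun v : ι → ℂ => v k0)
        (ContinuousLinearMap.proj (R := ℂ) (φ := fun _ : ι => ℂ) k0) v :=
      (ContinuousLinearMap.proj (R := ℂ) (φ := fun _ : ι => ℂ) k0).hasFDerivAt
    have h2 : (fun v : ι → ℂ => v k0) =ᶠ[𝓝 v] fun v => ev v (X k0) := by
      filter_upwards [hU.mem_nhds hv] with w hw
      exact (hX w hw k0).symm
    have h3 := (h2.hasFDerivAt_iff.1 h1).unique hL.hasFDerivAt
    rw [← hLk, ← h3]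
    simp
  have hcont : ∀ v ∈ U, ∀ x : R, ContinuousAt (fun v => ev v x) v := by
    intro v hv x
    obtain ⟨L, hL, _⟩ := hd v hv x
    exact hL.hasFDerivAt.continuousAt
  have hκa : ev a (d k0 (X k0)) ≠ 0 := by
    rw [← hκX a ha]
    exact hκ a ha
  set δ : ℝ := ‖ev a D‖ / 2 with hδ
  set δ' : ℝ := ‖ev a (d k0 (X k0))‖ / 2 with hδ'
  have hδ0 : 0 < δ := by have := norm_pos_iff.2 hDa; positivity
  have hδ'0 : 0 < δ' := by have := norm_pos_iff.2 hκa; positivity
  set N0 : Set (ι → ℂ) := {v | v ∈ U ∧ δ < ‖ev v D‖ ∧ δ' < ‖ev v (d k0 (X k0))‖ ∧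
    ∀ j k l, ‖ev v (co j k l)‖ < ‖ev a (co j k l)‖ + 1} with hN0
  have hN0a : N0 ∈ 𝓝 a := by
    have h1 : ∀ᶠ v in 𝓝 a, δ < ‖ev v D‖ :=
      (hcont a ha D).norm.eventually_const_lt (by
        have := norm_pos_iff.2 hDa
        rw [hδ]; linarith)
    have h2 : ∀ᶠ v in 𝓝 a, δ' < ‖ev v (d k0 (X k0))‖ :=
      (hcont a ha _).norm.eventually_const_lt (by
        have := norm_pos_iff.2 hκa
        rw [hδ']; linarith)
    have h3 : ∀ᶠ v in 𝓝 a, ∀ j k l, ‖ev v (co j k l)‖ < ‖ev a (co j k l)‖ + 1 := by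
      rw [Filter.eventually_all]
      intro j
      rw [Filter.eventually_all]
      intro k
      rw [Filter.eventually_all]
      intro l
      exact (hcont a ha _).norm.eventually_lt_const (lt_add_one _)
    filter_upwards [hU.mem_nhds ha, h1, h2, h3] with v h4 h5 h6 h7
    exact ⟨h4, h5, h6, h7⟩
  -- the derivative of the chart
  have hchart : ∀ v ∈ U, ev v D ≠ 0 → ∃ e : (ι → ℂ) ≃L[ℂ] (ι → ℂ),
      HasStrictFDerivAt (Ph ev h c) (e : (ι → ℂ) →L[ℂ] (ι → ℂ)) v := by
    intro v hv hDv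
    choose L hL hLk using fun j => hd v hv (h j)
    have hdet : (Matrix.of fun i j => L i (Pi.single (c j) 1)).det ≠ 0 := by
      have h1 : (κ v) • (Matrix.of fun i j => L i (Pi.single (c j) 1)) =
          (ev v).mapMatrix (A.submatrix id c) := by
        ext i j
        simp only [Matrix.smul_apply, Matrix.of_apply, smul_eq_mul, hLk]
        rfl
      have h2 : ((κ v) • (Matrix.of fun i j => L i (Pi.single (c j) 1)) :
          Matrix (Fin r) (Fin r) ℂ).det = ev v D := by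
        rw [h1, hD, RingHom.map_det]
      intro h3
      rw [Matrix.det_smul, h3, mul_zero] at h2
      exact hDv h2.symm
    obtain ⟨e, he⟩ := exists_equiv c hcinj L hdet
    refine ⟨e, ?_⟩
    rw [he]
    exact Ph_deriv ev h c v L hL
  obtain ⟨ea, hea⟩ := hchart a ha hDa
  set e := hea.toOpenPartialHomeomorph (Ph ev h c) with he
  have hecoe : (e : (ι → ℂ) → ι → ℂ) = Ph ev h c := hea.toOpenPartialHomeomorph_coe
  have hea_src : a ∈ e.source := hea.mem_toOpenPartialHomeomorph_source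
  have hea_tgt : Ph ev h c a ∈ e.target := hea.image_mem_toOpenPartialHomeomorph_target
  have hsymm_a : e.symm (Ph ev h c a) = a := by
    have := e.left_inv hea_src
    rw [hecoe] at this
    exact this
  have hsymm_strict : HasStrictFDerivAt e.symm (ea.symm : (ι → ℂ) →L[ℂ] (ι → ℂ)) (Ph ev h c a) := by
    apply e.hasStrictFDerivAt_symm hea_tgt
    rw [hsymm_a, hecoe]
    exact hea
  obtain ⟨C, S, hS, hlip⟩ := hsymm_strict.exists_lipschitzOnWith
  have hpre : ∀ᶠ w in 𝓝 (Ph ev h c a), e.symm w ∈ N0 := by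
    have h1 := hsymm_strict.hasFDerivAt.continuousAt
    apply h1.eventually_mem
    rw [hsymm_a]
    exact hN0a
  obtain ⟨ρ, hρ0, hρ⟩ := Metric.mem_nhds_iff.1
    (Filter.inter_mem (Filter.inter_mem hS hpre) (e.open_target.mem_nhds hea_tgt))
  refine ⟨e.source ∩ Ph ev h c ⁻¹' (Metric.ball (Ph ev h c a) ρ), ?_, ?_⟩
  · apply Filter.inter_mem (e.open_source.mem_nhds hea_src)
    exact hea.hasFDerivAt.continuousAt.preimage_mem_nhds (Metric.ball_mem_nhds _ hρ0)
  rintro b ⟨hbs, hbb⟩ hbU hbI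
  -- the curve
  set w0 := Ph ev h c a with hw0
  set w1 := Ph ev h c b with hw1
  set w : ℝ → ι → ℂ := fun s => w0 + s • (w1 - w0) with hw
  set γ : ℝ → ι → ℂ := fun s => e.symm (w s) with hγ
  have hball : ∀ s ∈ Set.Icc (0 : ℝ) 1, w s ∈ Metric.ball w0 ρ := by
    intro s hs
    have hconv := convex_ball w0 ρ
    have h1 := hconv.add_smul_sub_mem (Metric.mem_ball_self hρ0) hbb hs
    exact h1
  have hwd : ∀ s, HasDerivAt w (w1 - w0) s := by
    intro s
    have h1 : HasDerivAt (fun s : ℝ => s • (w1 - w0)) ((1 : ℝ) • (w1 - w0)) s :=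
      (hasDerivAt_id s).smul_const _
    rw [one_smul] at h1
    exact h1.const_add w0
  have hγ0 : γ 0 = a := by
    rw [hγ, hw]
    simp only [zero_smul, add_zero]
    exact hsymm_a
  have hγ1 : γ 1 = b := by
    rw [hγ, hw]
    simp only [one_smul, add_sub_cancel]
    have := e.left_inv hbs
    rw [hecoe] at this
    exact this
  have hγN : ∀ s ∈ Set.Icc (0 : ℝ) 1, γ s ∈ N0 := fun s hs => (hρ (hball s hs)).1.2
  -- derivative of the curve
  have hγd : ∀ s ∈ Set.Icc (0 : ℝ) 1, ∃ γ' : ι → ℂ, HasDerivAt γ γ' s ∧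
      ‖γ'‖ ≤ C * ‖w1 - w0‖ := by
    intro s hs
    have hN := hγN s hs
    have hDne : ev (γ s) D ≠ 0 := norm_pos_iff.1 (hδ0.trans hN.2.1)
    obtain ⟨es, hes⟩ := hchart (γ s) hN.1 hDne
    have htgt : w s ∈ e.target := (hρ (hball s hs)).2
    have h1 : HasFDerivAt e.symm (es.symm : (ι → ℂ) →L[ℂ] (ι → ℂ)) (w s) := by
      apply e.hasFDerivAt_symm htgt
      rw [hecoe]
      exact hes.hasFDerivAt
    have h2 : ‖(es.symm : (ι → ℂ) →L[ℂ] (ι → ℂ))‖ ≤ C := by
      apply h1.le_of_lipschitzOn (Metric.isOpen_ball.mem_nhds (hball s hs))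
      exact hlip.mono fun x hx => (hρ hx).1.1
    refine ⟨(es.symm : (ι → ℂ) →L[ℂ] (ι → ℂ)) (w1 - w0), ?_, ?_⟩
    · exact (h1.restrictScalars ℝ).comp_hasDerivAt s (hwd s)
    · exact (ContinuousLinearMap.le_opNorm _ _).trans
        (mul_le_mul_of_nonneg_right h2 (norm_nonneg _))
  choose! γ' hγ' hγ'b using hγd
  -- derivatives of values along the curve
  have hval : ∀ s ∈ Set.Icc (0 : ℝ) 1, ∀ x : R, HasDerivAt (fun s => ev (γ s) x)
      ((κ (γ s))⁻¹ * ∑ k, γ' s k * ev (γ s) (d k x)) s := by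
    intro s hs x
    obtain ⟨L, hL, hLk⟩ := hd (γ s) (hγN s hs).1 x
    have h1 := deriv_along (fun v => ev v x) L γ (γ' s) s hL.hasFDerivAt (hγ' s hs)
    convert! h1 using 1
    rw [Finset.mul_sum]
    apply Finset.sum_congr rfl
    intro k _
    rw [← hLk]
    have := hκ (γ s) (hγN s hs).1
    field_simp
  -- the functions h i vanish along the curve
  have hhz : ∀ s ∈ Set.Icc (0 : ℝ) 1, ∀ i, ∑ k, γ' s k * ev (γ s) (d k (h i)) = 0 := by
    intro s hs i
    have h1 := hval s hs (h i)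
    have h2 : (fun s => ev (γ s) (h i)) =ᶠ[𝓝 s] fun _ => 0 := by
      have h3 : ∀ᶠ s' in 𝓝 s, w s' ∈ e.target :=
        (hwd s).continuousAt.eventually_mem (e.open_target.mem_nhds (hρ (hball s hs)).2)
      filter_upwards [h3] with s' hs'
      have h4 : Ph ev h c (γ s') = w s' := by
        have := e.right_inv hs'
        rw [hecoe] at this
        exact this
      have h5 := congrFun h4 (c i)
      rw [Ph_col ev h c hcinj] at h5
      have h6 : w0 (c i) = 0 := by
        rw [hw0, Ph_col ev h c hcinj]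
        exact (hI _).1 (hhI i)
      have h7 : w1 (c i) = 0 := by
        rw [hw1, Ph_col ev h c hcinj]
        exact hbI _ (hhI i)
      rw [h5, hw]
      simp only [Pi.add_apply, Pi.smul_apply, Pi.sub_apply, h6, h7, sub_zero, smul_zero, add_zero]
    have h3 := (h2.hasDerivAt_iff.1 h1).unique (hasDerivAt_const s (0 : ℂ))
    have hκs := hκ (γ s) (hγN s hs).1
    rcases mul_eq_zero.1 h3 with h4 | h4
    · exact absurd h4 (inv_ne_zero hκs)
    · exact h4
  -- reduction of a row to the ideal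
  have hred : ∀ s ∈ Set.Icc (0 : ℝ) 1, ∀ x : ι → R,
      ev (γ s) D * ∑ k, γ' s k * ev (γ s) (x k) = ∑ k, γ' s k * ev (γ s) (Ek A c x k) := by
    intro s hs x
    have h1 : ∀ k, γ' s k * ev (γ s) (Ek A c x k) = ev (γ s) D * (γ' s k * ev (γ s) (x k)) -
        ∑ i, ev (γ s) (yv A c x i) * (γ' s k * ev (γ s) (d k (h i))) := by
      intro k
      unfold Ek
      rw [map_sub, map_mul, map_sum, mul_sub, Finset.mul_sum]
      congr 1
      · rw [hD]; ring
      · apply Finset.sum_congr rfl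
        intro i _
        rw [map_mul, hA]
        simp only [Matrix.of_apply]
        ring
    simp_rw [h1]
    rw [Finset.sum_sub_distrib, ← Finset.mul_sum, Finset.sum_comm]
    simp_rw [← Finset.mul_sum, hhz s hs, mul_zero, Finset.sum_const_zero, sub_zero]
  -- the generators vanish along the curve
  set G : ℝ → Fin n → ℂ := fun s j => ev (γ s) (F j) with hG
  set G' : ℝ → Fin n → ℂ := fun s j => (κ (γ s))⁻¹ * ∑ k, γ' s k * ev (γ s) (d k (F j)) with hG'
  have hGd : ∀ s ∈ Set.Icc (0 : ℝ) 1, HasDerivAt G (G' s) s := by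
    intro s hs
    rw [hasDerivAt_pi]
    exact fun j => hval s hs (F j)
  set Cγ : ℝ := C * ‖w1 - w0‖ with hCγ
  have hCγ0 : 0 ≤ Cγ := by positivity
  set K : ℝ := δ'⁻¹ * (δ⁻¹ * ∑ j, ∑ k, ∑ l, Cγ * (‖ev a (co j k l)‖ + 1)) with hK
  have hbound : ∀ s ∈ Set.Icc (0 : ℝ) 1, ‖G' s‖ ≤ K * ‖G s‖ := by
    intro s hs
    have hN := hγN s hs
    have hK0 : 0 ≤ K := by positivity
    rw [pi_norm_le_iff_of_nonneg (by positivity)]
    intro j
    have hDs : 0 < ‖ev (γ s) D‖ := hδ0.trans hN.2.1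
    have h1 : ‖∑ k, γ' s k * ev (γ s) (d k (F j))‖ ≤
        δ⁻¹ * ((∑ k, ∑ l, Cγ * (‖ev a (co j k l)‖ + 1)) * ‖G s‖) := by
      have h2 := hred s hs (fun k => d k (F j))
      have h3 : ‖ev (γ s) D‖ * ‖∑ k, γ' s k * ev (γ s) (d k (F j))‖ ≤
          (∑ k, ∑ l, Cγ * (‖ev a (co j k l)‖ + 1)) * ‖G s‖ := by
        rw [← norm_mul, h2, Finset.sum_mul]
        refine (norm_sum_le _ _).trans (Finset.sum_le_sum fun k _ => ?_)
        rw [norm_mul, ← hco j k, map_sum, Finset.sum_mul]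
        calc ‖γ' s k‖ * ‖∑ l, ev (γ s) (co j k l * F l)‖
            ≤ ‖γ' s k‖ * ∑ l, ‖ev (γ s) (co j k l * F l)‖ :=
              mul_le_mul_of_nonneg_left (norm_sum_le _ _) (norm_nonneg _)
          _ = ∑ l, ‖γ' s k‖ * (‖ev (γ s) (co j k l)‖ * ‖G s l‖) := by
              rw [Finset.mul_sum]
              apply Finset.sum_congr rfl
              intro l _
              rw [map_mul, norm_mul]
          _ ≤ ∑ l, Cγ * (‖ev a (co j k l)‖ + 1) * ‖G s‖ := by
              apply Finset.sum_le_sum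
              intro l _
              rw [mul_assoc]
              apply mul_le_mul ((norm_le_pi_norm _ k).trans (hγ'b s hs)) _ (by positivity) hCγ0
              exact mul_le_mul (hN.2.2.2 j k l).le (norm_le_pi_norm _ l) (norm_nonneg _)
                (by positivity)
      rw [← div_eq_inv_mul, le_div_iff₀ hδ0, mul_comm]
      exact (mul_le_mul_of_nonneg_right hN.2.1.le (norm_nonneg _)).trans h3
    have h2 : ‖(κ (γ s))⁻¹‖ ≤ δ'⁻¹ := by
      rw [norm_inv, hκX (γ s) hN.1]
      exact inv_anti₀ hδ'0 hN.2.2.1.le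
    rw [hG']
    simp only
    rw [norm_mul]
    have h3 : (∑ k, ∑ l, Cγ * (‖ev a (co j k l)‖ + 1)) ≤
        ∑ j, ∑ k, ∑ l, Cγ * (‖ev a (co j k l)‖ + 1) :=
      Finset.single_le_sum (f := fun j => ∑ k, ∑ l, Cγ * (‖ev a (co j k l)‖ + 1))
        (fun i _ => by positivity) (Finset.mem_univ j)
    calc _ ≤ δ'⁻¹ * (δ⁻¹ * ((∑ k, ∑ l, Cγ * (‖ev a (co j k l)‖ + 1)) * ‖G s‖)) :=
          mul_le_mul h2 h1 (norm_nonneg _) (by positivity)
      _ ≤ δ'⁻¹ * (δ⁻¹ * ((∑ j, ∑ k, ∑ l, Cγ * (‖ev a (co j k l)‖ + 1)) * ‖G s‖)) := by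
          gcongr
      _ = K * ‖G s‖ := by rw [hK]; ring
  have hGz : ∀ s ∈ Set.Icc (0 : ℝ) 1, G s = 0 := by
    apply eq_zero_of_abs_deriv_le_mul_abs_self_of_eq_zero_right (f' := G') (K := K)
    · intro s hs
      exact (hGd s hs).continuousAt.continuousWithinAt
    · intro s hs
      exact (hGd s ⟨hs.1, hs.2.le⟩).hasDerivWithinAt
    · funext j
      rw [hG]
      simp only [hγ0, Pi.zero_apply]
      exact (hI _).1 (hFI j)
    · intro s hs
      exact hbound s ⟨hs.1, hs.2.le⟩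
  have hIz : ∀ s ∈ Set.Icc (0 : ℝ) 1, ∀ x ∈ I, ev (γ s) x = 0 := by
    intro s hs x hx
    rw [← hF, Submodule.mem_span_range_iff_exists_fun] at hx
    obtain ⟨l, hl⟩ := hx
    rw [← hl, map_sum]
    apply Finset.sum_eq_zero
    intro j _
    rw [smul_eq_mul, map_mul]
    have := congrFun (hGz s hs) j
    simp only [hG, Pi.zero_apply] at this
    rw [this, mul_zero]
  -- τ is constant along the curve
  have hτd : ∀ s ∈ Set.Icc (0 : ℝ) 1, HasDerivAt (fun s => τ (γ s)) 0 s := by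
    intro s hs
    have hN := hγN s hs
    obtain ⟨L, hL, hLk⟩ := hτ (γ s) hN.1
    have h1 := deriv_along τ L γ (γ' s) s hL.hasFDerivAt (hγ' s hs)
    convert! h1 using 1
    have h2 := hred s hs T
    have h3 : ∑ k, γ' s k * ev (γ s) (Ek A c T k) = 0 := by
      apply Finset.sum_eq_zero
      intro k _
      rw [hIz s hs _ (hstepB k), mul_zero]
    rw [h3] at h2
    have hDs : ev (γ s) D ≠ 0 := norm_pos_iff.1 (hδ0.trans hN.2.1)
    have h4 : ∑ k, γ' s k * ev (γ s) (T k) = 0 := (mul_eq_zero.1 h2).resolve_left hDs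
    simp_rw [hLk]
    have h5 : ∀ k, γ' s k * (u (γ s) * ev (γ s) (T k)) =
        u (γ s) * (γ' s k * ev (γ s) (T k)) := fun k => by ring
    simp_rw [h5]
    rw [← Finset.mul_sum, h4, mul_zero]
  have hfin := constant_of_has_deriv_right_zero (f := fun s => τ (γ s)) (a := 0) (b := 1)
    (fun s hs => (hτd s hs).continuousAt.continuousWithinAt)
    (fun s hs => (hτd s ⟨hs.1, hs.2.le⟩).hasDerivWithinAt) 1 (by norm_num)
  simp only [hγ0, hγ1] at hfin
  exact hfin

end main

end Pool.Agent.EllSch.Transfer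

namespace Pool.Agent.EllSch

/-- Outside a countable set of values of `τ`, every point `a` of `U` carries a vector field with
coefficients in `R`, tangent to the locus cut out by all the relations holding at `a`, along which
`τ` varies. -/
theorem transfer {ι : Type} [Fintype ι] [DecidableEq ι] (R : Type) [CommRing R]
    [IsNoetherianRing R] [Countable R] (ev : (ι → ℂ) → R →+* ℂ) (U : Set (ι → ℂ)) (hU : IsOpen U)
    (d : ι → Derivation ℤ R R) (κ : (ι → ℂ) → ℂ) (hκ : ∀ a ∈ U, κ a ≠ 0)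
    (X : ι → R) (hX : ∀ a ∈ U, ∀ k, ev a (X k) = a k)
    (hd : ∀ a ∈ U, ∀ T : R, ∃ L : (ι → ℂ) →L[ℂ] ℂ, HasStrictFDerivAt (fun v => ev v T) L a ∧
      ∀ k, κ a * L (Pi.single k 1) = ev a (d k T))
    (τ : (ι → ℂ) → ℂ) (T : ι → R) (u : (ι → ℂ) → ℂ)
    (hτ : ∀ a ∈ U, ∃ L : (ι → ℂ) →L[ℂ] ℂ, HasStrictFDerivAt τ L a ∧
      ∀ k, L (Pi.single k 1) = u a * ev a (T k)) :
    {t : ℂ | ∃ a ∈ U, t = τ a ∧ ¬ ∃ q : ι → R,
      (∀ h : R, ev a h = 0 → ev a (∑ k, q k * d k h) = 0) ∧
      ev a (∑ k, q k * T k) ≠ 0}.Countable := by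
  classical
  -- ideals are countable
  have hcount : Countable (Ideal R) := by
    have hsurj : Function.Surjective (fun s : Finset R => Ideal.span (s : Set R)) := by
      intro I
      obtain ⟨s, hs⟩ := IsNoetherian.noetherian I
      exact ⟨s, hs⟩
    exact hsurj.countable
  set bad : (ι → ℂ) → Prop := fun a => ¬ ∃ q : ι → R,
      (∀ h : R, ev a h = 0 → ev a (∑ k, q k * d k h) = 0) ∧
      ev a (∑ k, q k * T k) ≠ 0 with hbad
  set Q : Ideal R → Set (ι → ℂ) := fun I => {a | a ∈ U ∧ bad a ∧ ∀ x, x ∈ I ↔ ev a x = 0} with hQ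
  have hsub : {t : ℂ | ∃ a ∈ U, t = τ a ∧ bad a} ⊆ ⋃ I : Ideal R, τ '' Q I := by
    rintro t ⟨a, ha, rfl, hb⟩
    rw [Set.mem_iUnion]
    exact ⟨RingHom.ker (ev a), a, ⟨ha, hb, fun x => RingHom.mem_ker⟩, rfl⟩
  refine Set.Countable.mono hsub (Set.countable_iUnion fun I => ?_)
  have hloc : ∀ a ∈ Q I, ∃ V ∈ 𝓝 a, ∀ b ∈ V, b ∈ U → (∀ x ∈ I, ev b x = 0) → τ b = τ a := by
    rintro a ⟨ha, hb, hI⟩
    exact Transfer.local_const ev U hU d κ hκ X hX hd τ T u hτ I a ha hI hb
  choose! V hV hVb using hloc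
  obtain ⟨t, htQ, htc, hcov⟩ := TopologicalSpace.countable_cover_nhdsWithin
    (f := V) (s := Q I) (fun a ha => mem_nhdsWithin_of_mem_nhds (hV a ha))
  refine (htc.image τ).mono ?_
  rintro _ ⟨b, hb, rfl⟩
  have h1 := hcov hb
  rw [Set.mem_iUnion₂] at h1
  obtain ⟨a, ha, hba⟩ := h1
  exact ⟨a, ha, (hVb a (htQ ha) b hba hb.1 fun x hx => (hb.2.2 x).1 hx).symm⟩

end Pool.Agent.EllSch
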