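import Pool.Agent.EllSch.FS
import Pool.Agent.EllSch.Transfer

/-! # [NS] The ring of functions on the space of lattices with `n` points, and good derivations -/

open MvPolynomial

namespace Pool.Agent.EllSch

noncomputable section

/-- indices of the variables: `inl 0, …, inl 5` are `a, b, η₁, η₂, g₂, g₃`; `inr (i, 0), …,
inr (i, 3)` are `p i, x i, y i, z i` -/
abbrev VIx (n : ℕ) : Type := Fin 6 ⊕ (Fin n × Fin 4)

/-- the polynomial ring -/
abbrev RR (n : ℕ) : Type := MvPolynomial (VIx n) ℚ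

/-- the coordinates: `inl 0, inl 1` are the periods, `inr i` is the point `p i` -/
abbrev PIx (n : ℕ) : Type := Fin 2 ⊕ Fin n

variable {n : ℕ}

/-- values of the variables at a point of the parameter space -/
def nval (v : PIx n → ℂ) : VIx n → ℂ :=
  Sum.elim ![v (Sum.inl 0), v (Sum.inl 1), eta1 (v (Sum.inl 0)) (v (Sum.inl 1)),
      eta2 (v (Sum.inl 0)) (v (Sum.inl 1)), G2 (v (Sum.inl 0)) (v (Sum.inl 1)),
      G3 (v (Sum.inl 0)) (v (Sum.inl 1))]
    (fun q => ![v (Sum.inr q.1), wp (v (Sum.inl 0)) (v (Sum.inl 1)) (v (Sum.inr q.1)),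
      wq (v (Sum.inl 0)) (v (Sum.inl 1)) (v (Sum.inr q.1)),
      wz (v (Sum.inl 0)) (v (Sum.inl 1)) (v (Sum.inr q.1))] q.2)

/-- evaluation -/
def nev (v : PIx n → ℂ) : RR n →+* ℂ := (aeval (nval v) : RR n →ₐ[ℚ] ℂ).toRingHom

/-- the parameter space -/
def UU (n : ℕ) : Set (PIx n → ℂ) :=
  {v | Ind (v (Sum.inl 0)) (v (Sum.inl 1)) ∧
    ∀ i, Off (v (Sum.inl 0)) (v (Sum.inl 1)) (v (Sum.inr i))}

/-- names of the variables -/
def va : RR n := X (Sum.inl 0)
def vb : RR n := X (Sum.inl 1)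
def ve1 : RR n := X (Sum.inl 2)
def ve2 : RR n := X (Sum.inl 3)
def vg2 : RR n := X (Sum.inl 4)
def vg3 : RR n := X (Sum.inl 5)
def vp (i : Fin n) : RR n := X (Sum.inr (i, 0))
def vx (i : Fin n) : RR n := X (Sum.inr (i, 1))
def vy (i : Fin n) : RR n := X (Sum.inr (i, 2))
def vz (i : Fin n) : RR n := X (Sum.inr (i, 3))

namespace NumSetup

/-! ### The derivations -/

/-- coefficient of `α` -/
def gA : VIx n → RR n :=
  Sum.elim ![va, vb, -ve1, -ve2, -(4 * vg2), -(6 * vg3)]
    (fun q => ![vp q.1, -(2 * vx q.1), -(3 * vy q.1), -vz q.1] q.2)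

/-- coefficient of `β` -/
def gB : VIx n → RR n :=
  Sum.elim ![ve1, ve2, -(C (1 / 12) * vg2 * va), -(C (1 / 12) * vg2 * vb), -(6 * vg3),
      -(C (1 / 3) * vg2 ^ 2)]
    (fun q => ![vz q.1, -(2 * vx q.1 ^ 2) + C (1 / 3) * vg2, -(3 * vx q.1 * vy q.1),
      C (1 / 2) * vy q.1 - C (1 / 12) * vg2 * vp q.1] q.2)

/-- coefficient of `γ i` -/
def gG (q : Fin n × Fin 4) : RR n :=
  ![1, vy q.1, 6 * vx q.1 ^ 2 - C (1 / 2) * vg2, -vx q.1] q.2

/-- values of the derivation on the variables -/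
def gen (α β : RR n) (γ : Fin n → RR n) (x : VIx n) : RR n :=
  α * gA x + β * gB x + Sum.elim (fun _ => 0) (fun q => γ q.1 * gG q) x

theorem sum_gen (q α β : PIx n → RR n) (γ : PIx n → Fin n → RR n) (x : VIx n) :
    ∑ k, q k * gen (α k) (β k) (γ k) x =
      gen (∑ k, q k * α k) (∑ k, q k * β k) (fun i => ∑ k, q k * γ k i) x := by
  unfold gen
  rcases x with j | p
  · simp only [Sum.elim_inl, add_zero, mul_add, Finset.sum_add_distrib, Finset.sum_mul]
    congr 1 <;> exact Finset.sum_congr rfl fun k _ => by ring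
  · simp only [Sum.elim_inr, mul_add, Finset.sum_add_distrib, Finset.sum_mul]
    congr 1
    · congr 1 <;> exact Finset.sum_congr rfl fun k _ => by ring
    · exact Finset.sum_congr rfl fun k _ => by ring

open Classical in
/-- the coordinate `j` of the basis vector `k` -/
def uu (k j : PIx n) : RR n := if j = k then 1 else 0

variable (n)

/-- `α` of the basis vector `k`, times the determinant -/
def ak (k : PIx n) : RR n := uu k (Sum.inl 0) * ve2 - uu k (Sum.inl 1) * ve1

/-- `β` of the basis vector `k`, times the determinant -/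
def bk (k : PIx n) : RR n := va * uu k (Sum.inl 1) - vb * uu k (Sum.inl 0)

/-- `γ` of the basis vector `k`, times the determinant -/
def gk (k : PIx n) (i : Fin n) : RR n :=
  uu k (Sum.inr i) * (va * ve2 - vb * ve1) - ak n k * vp i - bk n k * vz i

/-- The derivation `det · ∂ / ∂ k`. -/
def dd (k : PIx n) : Derivation ℤ (RR n) (RR n) :=
  (mkDerivation ℚ (gen (ak n k) (bk n k) (gk n k))).restrictScalars ℤ

variable {n}

theorem dd_X (k : PIx n) (x : VIx n) : dd n k (X x) = gen (ak n k) (bk n k) (gk n k) x :=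
  mkDerivation_X ℚ _ x

theorem sum_dd (q : PIx n → RR n) (h : RR n) :
    (∑ k, q k • dd n k : Derivation ℤ (RR n) (RR n)) h = ∑ k, q k * dd n k h := by
  have h1 := map_sum (Derivation.coeFnAddMonoidHom : Derivation ℤ (RR n) (RR n) →+ RR n → RR n)
    (fun k => q k • dd n k) Finset.univ
  have h2 := congrFun h1 h
  rw [Finset.sum_apply] at h2
  exact h2

instance instCountableRR : Countable (RR n) := by
  rw [← Cardinal.mk_le_aleph0_iff]
  exact MvPolynomial.cardinalMk_le_max.trans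
    (max_le (max_le Cardinal.mk_le_aleph0 Cardinal.mk_le_aleph0) le_rfl)

theorem dd_C (k : PIx n) (c : ℚ) : dd n k (C c) = 0 :=
  derivation_C (mkDerivation ℚ (gen (ak n k) (bk n k) (gk n k))) c

/-! ### Evaluation -/

theorem nev_X (v : PIx n → ℂ) (x : VIx n) : nev v (X x) = nval v x := by
  simp [nev]

theorem nev_C (v : PIx n → ℂ) (c : ℚ) : nev v (C c) = c := by
  simp [nev]

theorem nev_va (v : PIx n → ℂ) : nev v va = v (Sum.inl 0) := nev_X v _
theorem nev_vb (v : PIx n → ℂ) : nev v vb = v (Sum.inl 1) := nev_X v _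
theorem nev_ve1 (v : PIx n → ℂ) : nev v ve1 = eta1 (v (Sum.inl 0)) (v (Sum.inl 1)) := nev_X v _
theorem nev_ve2 (v : PIx n → ℂ) : nev v ve2 = eta2 (v (Sum.inl 0)) (v (Sum.inl 1)) := nev_X v _
theorem nev_vg2 (v : PIx n → ℂ) : nev v vg2 = G2 (v (Sum.inl 0)) (v (Sum.inl 1)) := nev_X v _
theorem nev_vg3 (v : PIx n → ℂ) : nev v vg3 = G3 (v (Sum.inl 0)) (v (Sum.inl 1)) := nev_X v _
theorem nev_vp (v : PIx n → ℂ) (i : Fin n) : nev v (vp i) = v (Sum.inr i) := nev_X v _
theorem nev_vx (v : PIx n → ℂ) (i : Fin n) :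
    nev v (vx i) = wp (v (Sum.inl 0)) (v (Sum.inl 1)) (v (Sum.inr i)) := nev_X v _
theorem nev_vy (v : PIx n → ℂ) (i : Fin n) :
    nev v (vy i) = wq (v (Sum.inl 0)) (v (Sum.inl 1)) (v (Sum.inr i)) := nev_X v _
theorem nev_vz (v : PIx n → ℂ) (i : Fin n) :
    nev v (vz i) = wz (v (Sum.inl 0)) (v (Sum.inl 1)) (v (Sum.inr i)) := nev_X v _

open Classical in
theorem nev_uu (v : PIx n → ℂ) (k j : PIx n) :
    nev v (uu k j) = (Pi.single k 1 : PIx n → ℂ) j := by
  unfold uu
  rw [Pi.single_apply]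
  split_ifs
  · exact map_one _
  · exact map_zero _

theorem nev_coord (v : PIx n → ℂ) (_ : v ∈ UU n) (k : PIx n) :
    nev v ((Sum.elim ![va, vb] vp : PIx n → RR n) k) = v k := by
  rcases k with j | i
  · fin_cases j
    · exact nev_va v
    · exact nev_vb v
  · exact nev_vp v i

/-! ### Openness -/

/-- the first two coordinates -/
def P2 (n : ℕ) : (PIx n → ℂ) →L[ℂ] ℂ × ℂ :=
  (ContinuousLinearMap.proj (Sum.inl 0)).prod (ContinuousLinearMap.proj (Sum.inl 1))

/-- the first two coordinates and the point number `i` -/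
def P3 (i : Fin n) : (PIx n → ℂ) →L[ℂ] ℂ × ℂ × ℂ :=
  (ContinuousLinearMap.proj (Sum.inl 0)).prod
    ((ContinuousLinearMap.proj (Sum.inl 1)).prod (ContinuousLinearMap.proj (Sum.inr i)))

theorem P2_apply (v : PIx n → ℂ) : P2 n v = (v (Sum.inl 0), v (Sum.inl 1)) := rfl

theorem P3_apply (i : Fin n) (v : PIx n → ℂ) :
    P3 i v = (v (Sum.inl 0), v (Sum.inl 1), v (Sum.inr i)) := rfl

theorem isOpen_UU : IsOpen (UU n) := by
  have h1 : IsOpen ((P2 n) ⁻¹' {v : ℂ × ℂ | Ind v.1 v.2}) :=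
    isOpen_ind.preimage (P2 n).continuous
  have h2 : IsOpen (⋂ i : Fin n, (P3 i) ⁻¹' {v : ℂ × ℂ × ℂ | Ind v.1 v.2.1 ∧ Off v.1 v.2.1 v.2.2}) :=
    isOpen_iInter_of_finite fun i => isOpen_ind_off.preimage (P3 i).continuous
  have h3 : UU n = (P2 n) ⁻¹' {v : ℂ × ℂ | Ind v.1 v.2} ∩
      ⋂ i : Fin n, (P3 i) ⁻¹' {v : ℂ × ℂ × ℂ | Ind v.1 v.2.1 ∧ Off v.1 v.2.1 v.2.2} := by
    ext v
    constructor
    · rintro ⟨h, h'⟩
      exact ⟨h, Set.mem_iInter.2 fun i => ⟨h, h' i⟩⟩
    · rintro ⟨h, h'⟩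
      exact ⟨h, fun i => (Set.mem_iInter.1 h' i).2⟩
  rw [h3]
  exact h1.inter h2

/-! ### Derivatives -/

/-- the differential of a function on the parameter space, in the basis directions -/
def Str (v : PIx n → ℂ) (f : (PIx n → ℂ) → ℂ) (g : PIx n → ℂ) : Prop :=
  ∃ L : (PIx n → ℂ) →L[ℂ] ℂ, HasStrictFDerivAt f L v ∧
    ∀ k, det (v (Sum.inl 0)) (v (Sum.inl 1)) * L (Pi.single k 1) = g k

theorem nev_ak (v : PIx n → ℂ) (k : PIx n) (hv : v ∈ UU n) :
    nev v (ak n k) = det (v (Sum.inl 0)) (v (Sum.inl 1)) *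
      cA (v (Sum.inl 0)) (v (Sum.inl 1))
        ((Pi.single k 1 : PIx n → ℂ) (Sum.inl 0), (Pi.single k 1 : PIx n → ℂ) (Sum.inl 1)) := by
  have hd := det_ne_zero hv.1
  simp only [ak, map_sub, map_mul, nev_uu, nev_ve1, nev_ve2, cA]
  field_simp

theorem nev_bk (v : PIx n → ℂ) (k : PIx n) (hv : v ∈ UU n) :
    nev v (bk n k) = det (v (Sum.inl 0)) (v (Sum.inl 1)) *
      cB (v (Sum.inl 0)) (v (Sum.inl 1))
        ((Pi.single k 1 : PIx n → ℂ) (Sum.inl 0), (Pi.single k 1 : PIx n → ℂ) (Sum.inl 1)) := by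
  have hd := det_ne_zero hv.1
  simp only [bk, map_sub, map_mul, nev_uu, nev_va, nev_vb, cB]
  field_simp

theorem nev_gk (v : PIx n → ℂ) (k : PIx n) (i : Fin n) (hv : v ∈ UU n) :
    nev v (gk n k i) = det (v (Sum.inl 0)) (v (Sum.inl 1)) *
      ((Pi.single k 1 : PIx n → ℂ) (Sum.inr i) -
      cA (v (Sum.inl 0)) (v (Sum.inl 1))
        ((Pi.single k 1 : PIx n → ℂ) (Sum.inl 0), (Pi.single k 1 : PIx n → ℂ) (Sum.inl 1)) *
        v (Sum.inr i) -
      cB (v (Sum.inl 0)) (v (Sum.inl 1))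
        ((Pi.single k 1 : PIx n → ℂ) (Sum.inl 0), (Pi.single k 1 : PIx n → ℂ) (Sum.inl 1)) *
        wz (v (Sum.inl 0)) (v (Sum.inl 1)) (v (Sum.inr i))) := by
  have h1 := nev_ak v k hv
  have h2 := nev_bk v k hv
  simp only [gk, map_sub, map_mul, h1, h2, nev_uu, nev_va, nev_vb, nev_ve1, nev_ve2, nev_vp,
    nev_vz]
  simp only [det]
  ring

theorem strict_X {v : PIx n → ℂ} (hv : v ∈ UU n) (x : VIx n) :
    Str v (fun v => nev v (X x)) (fun k => nev v (dd n k (X x))) := by
  have hd := det_ne_zero hv.1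
  simp only [dd_X]
  rcases x with j | ⟨i, j⟩
  · fin_cases j
    · refine ⟨ContinuousLinearMap.proj (Sum.inl 0), ?_, fun k => ?_⟩
      · have : (fun v : PIx n → ℂ => nev v (X (Sum.inl 0))) = fun v => v (Sum.inl 0) := by
          funext v; exact nev_va v
        show HasStrictFDerivAt (fun v : PIx n → ℂ => nev v (X (Sum.inl 0))) _ v
        rw [this]
        exact (ContinuousLinearMap.proj (R := ℂ) (φ := fun _ : PIx n => ℂ)
          (Sum.inl 0)).hasStrictFDerivAt
      · show det (v (Sum.inl 0)) (v (Sum.inl 1)) * (Pi.single k 1 : PIx n → ℂ) (Sum.inl 0) =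
          nev v (ak n k * va + bk n k * ve1 + 0)
        simp only [map_add, map_mul, map_zero, ak, bk, map_sub, nev_uu, nev_va, nev_vb, nev_ve1,
          nev_ve2, det]
        ring
    · refine ⟨ContinuousLinearMap.proj (Sum.inl 1), ?_, fun k => ?_⟩
      · have : (fun v : PIx n → ℂ => nev v (X (Sum.inl 1))) = fun v => v (Sum.inl 1) := by
          funext v; exact nev_vb v
        show HasStrictFDerivAt (fun v : PIx n → ℂ => nev v (X (Sum.inl 1))) _ v
        rw [this]
        exact (ContinuousLinearMap.proj (R := ℂ) (φ := fun _ : PIx n => ℂ)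
          (Sum.inl 1)).hasStrictFDerivAt
      · show det (v (Sum.inl 0)) (v (Sum.inl 1)) * (Pi.single k 1 : PIx n → ℂ) (Sum.inl 1) =
          nev v (ak n k * vb + bk n k * ve2 + 0)
        simp only [map_add, map_mul, map_zero, ak, bk, map_sub, nev_uu, nev_va, nev_vb, nev_ve1,
          nev_ve2, det]
        ring
    · obtain ⟨L, hL, hLu⟩ := fs_eta1 hv.1
      refine ⟨L.comp (P2 n), ?_, fun k => ?_⟩
      · have : (fun v : PIx n → ℂ => nev v (X (Sum.inl 2))) =
            (fun v : ℂ × ℂ => eta1 v.1 v.2) ∘ (P2 n) := by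
          funext v; exact nev_ve1 v
        show HasStrictFDerivAt (fun v : PIx n → ℂ => nev v (X (Sum.inl 2))) _ v
        rw [this]
        exact HasStrictFDerivAt.comp v (g := fun v : ℂ × ℂ => eta1 v.1 v.2)
          (by rw [P2_apply]; exact hL) (P2 n).hasStrictFDerivAt
      · show det (v (Sum.inl 0)) (v (Sum.inl 1)) * L (P2 n (Pi.single k 1)) =
          nev v (ak n k * (-ve1) + bk n k * (-(C (1 / 12) * vg2 * va)) + 0)
        rw [P2_apply, hLu]
        simp only [map_add, map_mul, map_neg, map_zero, nev_ak v k hv, nev_bk v k hv, nev_ve1,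
          nev_C, nev_vg2, nev_va]
        push_cast
        ring
    · obtain ⟨L, hL, hLu⟩ := fs_eta2 hv.1
      refine ⟨L.comp (P2 n), ?_, fun k => ?_⟩
      · have : (fun v : PIx n → ℂ => nev v (X (Sum.inl 3))) =
            (fun v : ℂ × ℂ => eta2 v.1 v.2) ∘ (P2 n) := by
          funext v; exact nev_ve2 v
        show HasStrictFDerivAt (fun v : PIx n → ℂ => nev v (X (Sum.inl 3))) _ v
        rw [this]
        exact HasStrictFDerivAt.comp v (g := fun v : ℂ × ℂ => eta2 v.1 v.2)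
          (by rw [P2_apply]; exact hL) (P2 n).hasStrictFDerivAt
      · show det (v (Sum.inl 0)) (v (Sum.inl 1)) * L (P2 n (Pi.single k 1)) =
          nev v (ak n k * (-ve2) + bk n k * (-(C (1 / 12) * vg2 * vb)) + 0)
        rw [P2_apply, hLu]
        simp only [map_add, map_mul, map_neg, map_zero, nev_ak v k hv, nev_bk v k hv, nev_ve2,
          nev_C, nev_vg2, nev_vb]
        push_cast
        ring
    · obtain ⟨L, hL, hLu⟩ := fs_G2 hv.1
      refine ⟨L.comp (P2 n), ?_, fun k => ?_⟩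
      · have : (fun v : PIx n → ℂ => nev v (X (Sum.inl 4))) =
            (fun v : ℂ × ℂ => G2 v.1 v.2) ∘ (P2 n) := by
          funext v; exact nev_vg2 v
        show HasStrictFDerivAt (fun v : PIx n → ℂ => nev v (X (Sum.inl 4))) _ v
        rw [this]
        exact HasStrictFDerivAt.comp v (g := fun v : ℂ × ℂ => G2 v.1 v.2)
          (by rw [P2_apply]; exact hL) (P2 n).hasStrictFDerivAt
      · show det (v (Sum.inl 0)) (v (Sum.inl 1)) * L (P2 n (Pi.single k 1)) =
          nev v (ak n k * (-(4 * vg2)) + bk n k * (-(6 * vg3)) + 0)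
        rw [P2_apply, hLu]
        simp only [map_add, map_mul, map_neg, map_zero, nev_ak v k hv, nev_bk v k hv, nev_vg3,
          map_ofNat, nev_vg2]
        ring
    · obtain ⟨L, hL, hLu⟩ := fs_G3 hv.1
      refine ⟨L.comp (P2 n), ?_, fun k => ?_⟩
      · have : (fun v : PIx n → ℂ => nev v (X (Sum.inl 5))) =
            (fun v : ℂ × ℂ => G3 v.1 v.2) ∘ (P2 n) := by
          funext v; exact nev_vg3 v
        show HasStrictFDerivAt (fun v : PIx n → ℂ => nev v (X (Sum.inl 5))) _ v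
        rw [this]
        exact HasStrictFDerivAt.comp v (g := fun v : ℂ × ℂ => G3 v.1 v.2)
          (by rw [P2_apply]; exact hL) (P2 n).hasStrictFDerivAt
      · show det (v (Sum.inl 0)) (v (Sum.inl 1)) * L (P2 n (Pi.single k 1)) =
          nev v (ak n k * (-(6 * vg3)) + bk n k * (-(C (1 / 3) * vg2 ^ 2)) + 0)
        rw [P2_apply, hLu]
        simp only [map_add, map_mul, map_neg, map_zero, map_pow, nev_ak v k hv, nev_bk v k hv,
          nev_vg3, map_ofNat, nev_vg2, nev_C]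
        push_cast
        ring
  · fin_cases j
    · refine ⟨ContinuousLinearMap.proj (Sum.inr i), ?_, fun k => ?_⟩
      · have : (fun v : PIx n → ℂ => nev v (X (Sum.inr (i, 0)))) = fun v => v (Sum.inr i) := by
          funext v; exact nev_vp v i
        show HasStrictFDerivAt (fun v : PIx n → ℂ => nev v (X (Sum.inr (i, 0)))) _ v
        rw [this]
        exact (ContinuousLinearMap.proj (R := ℂ) (φ := fun _ : PIx n => ℂ)
          (Sum.inr i)).hasStrictFDerivAt
      · show det (v (Sum.inl 0)) (v (Sum.inl 1)) * (Pi.single k 1 : PIx n → ℂ) (Sum.inr i) =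
          nev v (ak n k * vp i + bk n k * vz i + gk n k i * 1)
        simp only [map_add, map_mul, map_one, nev_ak v k hv, nev_bk v k hv, nev_gk v k i hv,
          nev_vp, nev_vz]
        ring
    · obtain ⟨L, hL, hLu⟩ := fs_wp hv.1 (hv.2 i)
      refine ⟨L.comp (P3 i), ?_, fun k => ?_⟩
      · have : (fun v : PIx n → ℂ => nev v (X (Sum.inr (i, 1)))) =
            (fun v : ℂ × ℂ × ℂ => wp v.1 v.2.1 v.2.2) ∘ (P3 i) := by
          funext v; exact nev_vx v i
        show HasStrictFDerivAt (fun v : PIx n → ℂ => nev v (X (Sum.inr (i, 1)))) _ v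
        rw [this]
        exact HasStrictFDerivAt.comp v (g := fun v : ℂ × ℂ × ℂ => wp v.1 v.2.1 v.2.2)
          (by rw [P3_apply]; exact hL) (P3 i).hasStrictFDerivAt
      · show det (v (Sum.inl 0)) (v (Sum.inl 1)) * L (P3 i (Pi.single k 1)) =
          nev v (ak n k * (-(2 * vx i)) + bk n k * (-(2 * vx i ^ 2) + C (1 / 3) * vg2) +
            gk n k i * vy i)
        rw [P3_apply, hLu]
        simp only [map_add, map_mul, map_neg, map_pow, nev_ak v k hv, nev_bk v k hv,
          nev_gk v k i hv, map_ofNat, nev_vg2, nev_C, nev_vx, nev_vy]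
        push_cast
        ring
    · obtain ⟨L, hL, hLu⟩ := fs_wq hv.1 (hv.2 i)
      refine ⟨L.comp (P3 i), ?_, fun k => ?_⟩
      · have : (fun v : PIx n → ℂ => nev v (X (Sum.inr (i, 2)))) =
            (fun v : ℂ × ℂ × ℂ => wq v.1 v.2.1 v.2.2) ∘ (P3 i) := by
          funext v; exact nev_vy v i
        show HasStrictFDerivAt (fun v : PIx n → ℂ => nev v (X (Sum.inr (i, 2)))) _ v
        rw [this]
        exact HasStrictFDerivAt.comp v (g := fun v : ℂ × ℂ × ℂ => wq v.1 v.2.1 v.2.2)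
          (by rw [P3_apply]; exact hL) (P3 i).hasStrictFDerivAt
      · show det (v (Sum.inl 0)) (v (Sum.inl 1)) * L (P3 i (Pi.single k 1)) =
          nev v (ak n k * (-(3 * vy i)) + bk n k * (-(3 * vx i * vy i)) +
            gk n k i * (6 * vx i ^ 2 - C (1 / 2) * vg2))
        rw [P3_apply, hLu]
        simp only [map_add, map_sub, map_mul, map_neg, map_pow, nev_ak v k hv, nev_bk v k hv,
          nev_gk v k i hv, map_ofNat, nev_vg2, nev_C, nev_vx, nev_vy]
        push_cast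
        ring
    · obtain ⟨L, hL, hLu⟩ := fs_wz hv.1 (hv.2 i)
      refine ⟨L.comp (P3 i), ?_, fun k => ?_⟩
      · have : (fun v : PIx n → ℂ => nev v (X (Sum.inr (i, 3)))) =
            (fun v : ℂ × ℂ × ℂ => wz v.1 v.2.1 v.2.2) ∘ (P3 i) := by
          funext v; exact nev_vz v i
        show HasStrictFDerivAt (fun v : PIx n → ℂ => nev v (X (Sum.inr (i, 3)))) _ v
        rw [this]
        exact HasStrictFDerivAt.comp v (g := fun v : ℂ × ℂ × ℂ => wz v.1 v.2.1 v.2.2)
          (by rw [P3_apply]; exact hL) (P3 i).hasStrictFDerivAt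
      · show det (v (Sum.inl 0)) (v (Sum.inl 1)) * L (P3 i (Pi.single k 1)) =
          nev v (ak n k * (-vz i) + bk n k * (C (1 / 2) * vy i - C (1 / 12) * vg2 * vp i) +
            gk n k i * (-vx i))
        rw [P3_apply, hLu]
        simp only [map_add, map_sub, map_mul, map_neg, nev_ak v k hv, nev_bk v k hv,
          nev_gk v k i hv, nev_vg2, nev_C, nev_vx, nev_vy, nev_vz, nev_vp]
        push_cast
        ring

theorem strict {v : PIx n → ℂ} (hv : v ∈ UU n) (T : RR n) :
    Str v (fun v => nev v T) (fun k => nev v (dd n k T)) := by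
  induction T using MvPolynomial.induction_on with
  | C c =>
    refine ⟨0, ?_, fun k => ?_⟩
    · simp only [nev_C]
      exact hasStrictFDerivAt_const _ _
    · show det (v (Sum.inl 0)) (v (Sum.inl 1)) * (0 : (PIx n → ℂ) →L[ℂ] ℂ) (Pi.single k 1) =
        nev v (dd n k (C c))
      rw [dd_C]; simp
  | add p q hp hq =>
    obtain ⟨L, hL, hL'⟩ := hp
    obtain ⟨M, hM, hM'⟩ := hq
    refine ⟨L + M, ?_, fun k => ?_⟩
    · simp only [map_add]
      exact hL.add hM
    · have h1 := hL' k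
      have h2 := hM' k
      simp only [map_add] at *
      rw [_root_.add_apply, mul_add, h1, h2]
  | mul_X p x hp =>
    obtain ⟨L, hL, hL'⟩ := hp
    obtain ⟨M, hM, hM'⟩ := strict_X hv x
    refine ⟨nev v p • M + nev v (X x) • L, ?_, fun k => ?_⟩
    · simp only [map_mul]
      exact hL.mul hM
    · have h1 := hL' k
      have h2 := hM' k
      simp only at h1 h2
      show det (v (Sum.inl 0)) (v (Sum.inl 1)) * (nev v p • M + nev v (X x) • L) (Pi.single k 1) =
        nev v (dd n k (p * X x))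
      rw [Derivation.leibniz, map_add, smul_eq_mul, smul_eq_mul, map_mul, map_mul, ← h1, ← h2]
      simp only [_root_.add_apply, _root_.smul_apply, smul_eq_mul]
      ring

theorem strict_tau {v : PIx n → ℂ} (hv : v ∈ UU n) :
    ∃ L : (PIx n → ℂ) →L[ℂ] ℂ,
      HasStrictFDerivAt (fun v : PIx n → ℂ => v (Sum.inl 1) / v (Sum.inl 0)) L v ∧
      ∀ k, L (Pi.single k 1) = 1 / v (Sum.inl 0) ^ 2 * nev v (bk n k) := by
  have ha : v (Sum.inl 0) ≠ 0 := by
    intro h
    apply hv.1
    rw [h]; simp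
  have h0 : HasStrictFDerivAt (fun v : PIx n → ℂ => v (Sum.inl 0))
      (ContinuousLinearMap.proj (R := ℂ) (φ := fun _ : PIx n => ℂ) (Sum.inl 0)) v :=
    (ContinuousLinearMap.proj (R := ℂ) (φ := fun _ : PIx n => ℂ) (Sum.inl 0)).hasStrictFDerivAt
  have h1 : HasStrictFDerivAt (fun v : PIx n → ℂ => v (Sum.inl 1))
      (ContinuousLinearMap.proj (R := ℂ) (φ := fun _ : PIx n => ℂ) (Sum.inl 1)) v :=
    (ContinuousLinearMap.proj (R := ℂ) (φ := fun _ : PIx n => ℂ) (Sum.inl 1)).hasStrictFDerivAt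
  have h2 : HasStrictFDerivAt (fun v : PIx n → ℂ => (v (Sum.inl 0))⁻¹) _ v :=
    (hasStrictDerivAt_inv ha).comp_hasStrictFDerivAt v h0
  have h3 := h1.mul h2
  refine ⟨_, h3, fun k => ?_⟩
  simp only [_root_.add_apply, _root_.smul_apply, smul_eq_mul, ContinuousLinearMap.proj_apply, bk,
    map_sub, map_mul, nev_uu, nev_va, nev_vb]
  field_simp
  ring

end NumSetup

/-- Outside a countable set of ratios `b / a`, every point of the parameter space carries a
derivation `δ` of the polynomial ring which preserves the ideal of relations at the point, has the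
shape `δ = α D₁ + β D₂ + ∑ γ i ∂ / ∂ p i`, and along which `b / a` varies (`β ≠ 0`). -/
theorem num_setup (n : ℕ) : ∃ S : Set ℂ, S.Countable ∧ ∀ v ∈ UU n,
    v (Sum.inl 1) / v (Sum.inl 0) ∉ S →
    ∃ (δ : Derivation ℤ (RR n) (RR n)) (α β : RR n) (γ : Fin n → RR n),
      (∀ h, nev v h = 0 → nev v (δ h) = 0) ∧ nev v β ≠ 0 ∧
      δ va = α * va + β * ve1 ∧ δ vb = α * vb + β * ve2 ∧
      δ ve1 = -(α * ve1) - β * (C (1 / 12) * vg2) * va ∧
      δ ve2 = -(α * ve2) - β * (C (1 / 12) * vg2) * vb ∧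
      δ vg2 = -(4 * α * vg2) - 6 * β * vg3 ∧
      δ vg3 = -(6 * α * vg3) - β * (C (1 / 3) * vg2 ^ 2) ∧
      ∀ i, δ (vp i) = α * vp i + β * vz i + γ i ∧
        δ (vx i) = -(2 * α * vx i) + β * (-(2 * vx i ^ 2) + C (1 / 3) * vg2) + γ i * vy i ∧
        δ (vy i) = -(3 * α * vy i) - 3 * β * vx i * vy i
          + γ i * (6 * vx i ^ 2 - C (1 / 2) * vg2) ∧
        δ (vz i) = -(α * vz i) + β * (C (1 / 2) * vy i - C (1 / 12) * vg2 * vp i)
          - γ i * vx i := by
  classical
  have hc := transfer (RR n) (nev (n := n)) (UU n) NumSetup.isOpen_UU (NumSetup.dd n)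
    (fun v => det (v (Sum.inl 0)) (v (Sum.inl 1))) (fun v hv => det_ne_zero hv.1)
    (Sum.elim ![va, vb] vp) (NumSetup.nev_coord) (fun v hv T => NumSetup.strict hv T)
    (fun v => v (Sum.inl 1) / v (Sum.inl 0)) (NumSetup.bk n) (fun v => 1 / v (Sum.inl 0) ^ 2)
    (fun v hv => NumSetup.strict_tau hv)
  refine ⟨_, hc, ?_⟩
  intro v hv hS
  have hq : ∃ q : PIx n → RR n,
      (∀ h : RR n, nev v h = 0 → nev v (∑ k, q k * NumSetup.dd n k h) = 0) ∧
      nev v (∑ k, q k * NumSetup.bk n k) ≠ 0 := by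
    by_contra hcon
    exact hS ⟨v, hv, rfl, hcon⟩
  obtain ⟨q, hq1, hq2⟩ := hq
  set δ : Derivation ℤ (RR n) (RR n) := ∑ k, q k • NumSetup.dd n k with hδ
  have hδa : ∀ h, δ h = ∑ k, q k * NumSetup.dd n k h := by
    intro h
    rw [hδ]
    exact NumSetup.sum_dd q h
  have hX : ∀ x, δ (X x) = NumSetup.gen (∑ k, q k * NumSetup.ak n k) (∑ k, q k * NumSetup.bk n k)
      (fun i => ∑ k, q k * NumSetup.gk n k i) x := by
    intro x
    rw [hδa]
    simp only [NumSetup.dd_X]
    exact NumSetup.sum_gen _ _ _ _ _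
  refine ⟨δ, ∑ k, q k * NumSetup.ak n k, ∑ k, q k * NumSetup.bk n k,
    fun i => ∑ k, q k * NumSetup.gk n k i, ?_, hq2, ?_⟩
  · intro h hh
    rw [hδa]
    exact hq1 h hh
  · have e0 := hX (Sum.inl 0)
    have e1 := hX (Sum.inl 1)
    have e2 := hX (Sum.inl 2)
    have e3 := hX (Sum.inl 3)
    have e4 := hX (Sum.inl 4)
    have e5 := hX (Sum.inl 5)
    refine ⟨e0.trans ?_, e1.trans ?_, e2.trans ?_, e3.trans ?_, e4.trans ?_, e5.trans ?_, ?_⟩
    · simp only [NumSetup.gen, NumSetup.gA, NumSetup.gB, NumSetup.gG, Sum.elim_inl,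
        Matrix.cons_val]
      ring
    · simp only [NumSetup.gen, NumSetup.gA, NumSetup.gB, NumSetup.gG, Sum.elim_inl,
        Matrix.cons_val]
      ring
    · simp only [NumSetup.gen, NumSetup.gA, NumSetup.gB, NumSetup.gG, Sum.elim_inl,
        Matrix.cons_val]
      ring
    · simp only [NumSetup.gen, NumSetup.gA, NumSetup.gB, NumSetup.gG, Sum.elim_inl,
        Matrix.cons_val]
      ring
    · simp only [NumSetup.gen, NumSetup.gA, NumSetup.gB, NumSetup.gG, Sum.elim_inl,
        Matrix.cons_val]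
      ring
    · simp only [NumSetup.gen, NumSetup.gA, NumSetup.gB, NumSetup.gG, Sum.elim_inl,
        Matrix.cons_val]
      ring
    · intro i
      refine ⟨(hX (Sum.inr (i, 0))).trans ?_, (hX (Sum.inr (i, 1))).trans ?_,
        (hX (Sum.inr (i, 2))).trans ?_, (hX (Sum.inr (i, 3))).trans ?_⟩
      · simp only [NumSetup.gen, NumSetup.gA, NumSetup.gB, NumSetup.gG, Sum.elim_inr,
          Matrix.cons_val]
        ring
      · simp only [NumSetup.gen, NumSetup.gA, NumSetup.gB, NumSetup.gG, Sum.elim_inr,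
          Matrix.cons_val]
        ring
      · simp only [NumSetup.gen, NumSetup.gA, NumSetup.gB, NumSetup.gG, Sum.elim_inr,
          Matrix.cons_val]
        ring
      · simp only [NumSetup.gen, NumSetup.gA, NumSetup.gB, NumSetup.gG, Sum.elim_inr,
          Matrix.cons_val]
        ring

end

end Pool.Agent.EllSch
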