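import Mathlib

/-! # [TAY] Taylor homomorphism and a differential field with constants `ℂ` -/

namespace Pool.Agent.EllSch

namespace Taylor

section

variable {R : Type*} [CommRing R] (ev : R →+* ℂ) (δ : Derivation ℤ R R)

/-- the Taylor series -/
noncomputable def phi (T : R) : PowerSeries ℂ :=
  PowerSeries.mk (fun k => ev (δ^[k] T) / (k.factorial : ℂ))

theorem coeff_phi (T : R) (k : ℕ) :
    PowerSeries.coeff k (phi ev δ T) = ev (δ^[k] T) / (k.factorial : ℂ) :=
  PowerSeries.coeff_mk _ _

theorem constantCoeff_phi (T : R) : PowerSeries.constantCoeff (phi ev δ T) = ev T := by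
  rw [← PowerSeries.coeff_zero_eq_constantCoeff_apply, coeff_phi]
  simp

theorem derivative_phi (T : R) : phi ev δ (δ T) = PowerSeries.derivative ℂ (phi ev δ T) := by
  ext k
  rw [PowerSeries.coeff_derivative, coeff_phi, coeff_phi, Function.iterate_succ_apply,
    Nat.factorial_succ]
  push_cast
  have h1 : (k.factorial : ℂ) ≠ 0 := by exact_mod_cast k.factorial_ne_zero
  have h2 : (k : ℂ) + 1 ≠ 0 := by exact_mod_cast k.succ_ne_zero
  field_simp

theorem phi_add (S T : R) : phi ev δ (S + T) = phi ev δ S + phi ev δ T := by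
  ext k
  rw [map_add, coeff_phi, coeff_phi, coeff_phi, iterate_map_add, map_add, add_div]

theorem phi_mul (S T : R) : phi ev δ (S * T) = phi ev δ S * phi ev δ T := by
  ext k
  induction k generalizing S T with
  | zero =>
    rw [PowerSeries.coeff_zero_eq_constantCoeff_apply, PowerSeries.coeff_zero_eq_constantCoeff_apply,
      map_mul, constantCoeff_phi, constantCoeff_phi, constantCoeff_phi, map_mul]
  | succ k ih =>
    have h2 : (k : ℂ) + 1 ≠ 0 := by exact_mod_cast k.succ_ne_zero
    apply mul_right_cancel₀ h2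
    rw [← PowerSeries.coeff_derivative, ← PowerSeries.coeff_derivative, ← derivative_phi,
      Derivation.leibniz, Derivation.leibniz, ← derivative_phi, ← derivative_phi, phi_add, map_add,
      map_add, smul_eq_mul, smul_eq_mul, smul_eq_mul, smul_eq_mul, ih, ih]

theorem phi_zero : phi ev δ 0 = 0 := by
  ext k
  rw [coeff_phi, iterate_map_zero, map_zero, zero_div, map_zero]

theorem phi_one : phi ev δ 1 = 1 := by
  ext k
  cases k with
  | zero =>
    rw [PowerSeries.coeff_zero_eq_constantCoeff_apply, constantCoeff_phi, map_one,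
      PowerSeries.coeff_zero_eq_constantCoeff_apply, map_one]
  | succ k =>
    rw [coeff_phi, Function.iterate_succ_apply, Derivation.map_one_eq_zero, iterate_map_zero,
      map_zero, zero_div, PowerSeries.coeff_one, if_neg k.succ_ne_zero]

end

section

open HahnSeries

/-- The field of Laurent series. -/
def K : Type := LaurentSeries ℂ

noncomputable instance : Field K := inferInstanceAs (Field (LaurentSeries ℂ))

/-- constants -/
noncomputable def cc : ℂ →+* K := (HahnSeries.C : ℂ →+* LaurentSeries ℂ)

noncomputable instance : Algebra ℂ K := cc.toAlgebra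

theorem algebraMap_K (c : ℂ) : algebraMap ℂ K c = cc c := rfl

/-- coefficients -/
def co (n : ℤ) (f : K) : ℂ := HahnSeries.coeff (f : LaurentSeries ℂ) n

theorem K_ext {f g : K} (h : ∀ n, co n f = co n g) : f = g := HahnSeries.ext (funext h)

theorem co_add (n : ℤ) (f g : K) : co n (f + g) = co n f + co n g := rfl

/-- powers of the variable -/
noncomputable def xx (m : ℤ) : K := (single m (1 : ℂ) : LaurentSeries ℂ)

theorem xx_mul (i j : ℤ) : xx i * xx j = xx (i + j) := by
  change ((single i (1 : ℂ) : LaurentSeries ℂ) * single j (1 : ℂ) : LaurentSeries ℂ) =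
    single (i + j) (1 : ℂ)
  rw [single_mul_single, mul_one]

theorem co_xx_mul (m n : ℤ) (f : K) : co n (xx m * f) = co (n - m) f := by
  let f' : LaurentSeries ℂ := f
  change ((single m (1 : ℂ) : LaurentSeries ℂ) * f').coeff n = _
  rw [coeff_single_mul, one_mul]
  rfl

theorem co_cc_mul (n : ℤ) (c : ℂ) (f : K) : co n (cc c * f) = c * co n f := by
  let f' : LaurentSeries ℂ := f
  change ((HahnSeries.C c : LaurentSeries ℂ) * f').coeff n = _
  rw [C_mul_eq_smul, HahnSeries.coeff_smul]
  rfl

/-- the derivative on Laurent series -/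
noncomputable def D0 (f : K) : K := LaurentSeries.derivative ℂ (f : LaurentSeries ℂ)

theorem coeff_D0 (f : K) (n : ℤ) : co n (D0 f) = ((n : ℂ) + 1) * co (n + 1) f := by
  rw [D0, LaurentSeries.derivative_apply]
  change ((LaurentSeries.hasseDeriv ℂ 1) (f : LaurentSeries ℂ)).coeff n = _
  rw [LaurentSeries.hasseDeriv_coeff, Nat.cast_one, Ring.choose_one_right, zsmul_eq_mul]
  push_cast
  rfl

/-- power series as Laurent series -/
noncomputable def io : PowerSeries ℂ →ₐ[ℂ] K where
  toRingHom := HahnSeries.ofPowerSeries ℤ ℂ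
  commutes' r := HahnSeries.ofPowerSeries_C r

theorem coeff_io (f : PowerSeries ℂ) (n : ℤ) :
    co n (io f) = if n < 0 then 0 else PowerSeries.coeff n.natAbs f :=
  PowerSeries.coeff_coe f n

theorem D0_io (f : PowerSeries ℂ) : D0 (io f) = io (PowerSeries.derivative ℂ f) := by
  apply K_ext
  intro n
  rw [coeff_D0, coeff_io, coeff_io]
  rcases lt_trichotomy n (-1) with h | h | h
  · rw [if_pos (by omega), if_pos (by omega), mul_zero]
  · rw [if_pos (by omega : n < 0), h]
    norm_num
  · have h1 : ¬ n + 1 < 0 := by omega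
    have h2 : ¬ n < 0 := by omega
    rw [if_neg h1, if_neg h2]
    obtain ⟨k, rfl⟩ := Int.eq_ofNat_of_zero_le (by omega : 0 ≤ n)
    have h3 : ((k : ℤ) + 1).natAbs = k + 1 := by omega
    rw [h3, Int.natAbs_natCast, PowerSeries.coeff_derivative]
    push_cast
    ring

theorem D0_xx_mul (m : ℤ) (f : K) :
    D0 (xx m * f) = xx m * D0 f + cc (m : ℂ) * (xx (m - 1) * f) := by
  apply K_ext
  intro n
  rw [coeff_D0, co_xx_mul, co_add, co_xx_mul, coeff_D0, co_cc_mul, co_xx_mul]
  have h1 : n + 1 - m = n - m + 1 := by ring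
  have h2 : n - (m - 1) = n - m + 1 := by ring
  rw [h1, h2]
  push_cast
  ring

theorem exists_eq (x : K) : ∃ (m : ℤ) (f : PowerSeries ℂ), x = xx m * io f :=
  ⟨HahnSeries.order (x : LaurentSeries ℂ), LaurentSeries.powerSeriesPart x,
    (LaurentSeries.single_order_mul_powerSeriesPart x).symm⟩

theorem D0_leibniz (x y : K) : D0 (x * y) = x * D0 y + y * D0 x := by
  obtain ⟨a, f, rfl⟩ := exists_eq x
  obtain ⟨b, g, rfl⟩ := exists_eq y
  have h2 : xx a * io f * (xx b * io g) = xx (a + b) * io (f * g) := by
    rw [← xx_mul, map_mul]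
    ring
  have h3 : a + b - 1 = a + (b - 1) := by ring
  have h4 : a + (b - 1) = (a - 1) + b := by ring
  rw [h2, D0_xx_mul, D0_xx_mul, D0_xx_mul, D0_io, D0_io, D0_io, Derivation.leibniz,
    smul_eq_mul, smul_eq_mul, map_add, map_mul, map_mul, map_mul, h3]
  have h5 : xx (a + (b - 1)) = xx a * xx (b - 1) := (xx_mul _ _).symm
  have h6 : xx (a - 1) * xx b = xx a * xx (b - 1) := by
    rw [xx_mul, xx_mul, h4]
  rw [h5, ← xx_mul a b]
  push_cast
  rw [map_add]
  linear_combination cc (a : ℂ) * (io f * io g) * h6 * (-1)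

/-- the derivation of the field of Laurent series -/
noncomputable def D : Derivation ℂ K K :=
  Derivation.mk'
    { toFun := D0
      map_add' := fun f g => by
        apply K_ext
        intro n
        rw [coeff_D0, co_add, co_add, coeff_D0, coeff_D0]
        ring
      map_smul' := fun c f => by
        apply K_ext
        intro n
        rw [Algebra.smul_def, algebraMap_K, RingHom.id_apply, Algebra.smul_def, algebraMap_K,
          coeff_D0, co_cc_mul, co_cc_mul, coeff_D0]
        ring }
    (fun x y => D0_leibniz x y)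

end

end Taylor

theorem taylor (R : Type*) [CommRing R] (ev : R →+* ℂ) (δ : Derivation ℤ R R)
    (hδ : ∀ h, ev h = 0 → ev (δ h) = 0) :
    ∃ φ : R →+* PowerSeries ℂ, (∀ T, PowerSeries.constantCoeff (φ T) = ev T) ∧
      (∀ T, φ (δ T) = PowerSeries.derivative ℂ (φ T)) ∧ (∀ T, φ T = 0 ↔ ev T = 0) := by
  refine ⟨{ toFun := Taylor.phi ev δ
            map_one' := Taylor.phi_one ev δ
            map_mul' := Taylor.phi_mul ev δ
            map_zero' := Taylor.phi_zero ev δ
            map_add' := Taylor.phi_add ev δ }, Taylor.constantCoeff_phi ev δ,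
            Taylor.derivative_phi ev δ, fun T => ⟨fun h => ?_, fun h => ?_⟩⟩
  · have h1 : Taylor.phi ev δ T = 0 := h
    rw [← Taylor.constantCoeff_phi ev δ T, h1, map_zero]
  · change Taylor.phi ev δ T = 0
    have h1 : ∀ k, ev (δ^[k] T) = 0 := by
      intro k
      induction k with
      | zero => exact h
      | succ k ih =>
        rw [Function.iterate_succ_apply']
        exact hδ _ ih
    ext k
    rw [Taylor.coeff_phi, h1, zero_div, map_zero]

theorem exists_diffField : ∃ (K : Type) (_ : Field K) (_ : Algebra ℂ K) (D : Derivation ℂ K K)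
    (ι : PowerSeries ℂ →ₐ[ℂ] K), Function.Injective ι ∧
      (∀ f, D (ι f) = ι (PowerSeries.derivative ℂ f)) ∧
      ∀ x, D x = 0 → x ∈ Set.range (algebraMap ℂ K) := by
  refine ⟨Taylor.K, inferInstance, inferInstance, Taylor.D, Taylor.io,
    HahnSeries.ofPowerSeries_injective, Taylor.D0_io, fun x hx => ?_⟩
  refine ⟨Taylor.co 0 x, ?_⟩
  have h1 : Taylor.D0 x = 0 := hx
  rw [Taylor.algebraMap_K]
  apply Taylor.K_ext
  intro n
  have h2 := Taylor.co_cc_mul n (Taylor.co 0 x) 1
  rw [mul_one] at h2
  rw [h2]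
  change _ * HahnSeries.coeff (1 : LaurentSeries ℂ) n = _
  rw [HahnSeries.coeff_one]
  split_ifs with h2
  · rw [h2, mul_one]
  · have h3 := Taylor.coeff_D0 x (n - 1)
    rw [h1] at h3
    have h4 : (n : ℂ) - 1 + 1 ≠ 0 := by
      rw [sub_add_cancel]
      exact_mod_cast h2
    have h6 : Taylor.co (n - 1) 0 = 0 := rfl
    rw [h6] at h3
    push_cast at h3
    have h5 := (mul_eq_zero.1 h3.symm).resolve_left h4
    rw [sub_add_cancel] at h5
    rw [h5, mul_zero]

end Pool.Agent.EllSch
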