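import Pool.Agent.EllSch.Ax
import Pool.Agent.EllSch.NumSetup
import Pool.Agent.EllSch.Taylor

/-! # [FB1] From numbers to a differential field -/

open MvPolynomial

namespace Pool.Agent.EllSch

variable {n : ℕ}

namespace NumK

theorem map_C {K : Type} [Field K] (φ : RR n →+* K) [CharZero K] (c : ℚ) :
    φ (C c) = (c : K) :=
  eq_ratCast (φ.comp C) c

end NumK

/-- Outside a countable set of ratios, the ring of numbers at a point embeds into a differential
field with constants `ℂ`, in which the variables satisfy the differential system. -/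
theorem num_field (n : ℕ) : ∃ S : Set ℂ, S.Countable ∧ ∀ v ∈ UU n,
    v (Sum.inl 1) / v (Sum.inl 0) ∉ S →
    ∃ (K : Type) (_ : Field K) (_ : Algebra ℂ K) (D : Derivation ℂ K K) (φ : RR n →+* K),
      (∀ x, D x = 0 → x ∈ Set.range (algebraMap ℂ K)) ∧ (∀ h, φ h = 0 ↔ nev v h = 0) ∧
      be (φ vg2) (φ vg3) D ≠ 0 ∧ nab (φ vg2) (φ vg3) D (φ va, φ ve1) = 0 ∧
      nab (φ vg2) (φ vg3) D (φ vb, φ ve2) = 0 ∧
      ∀ i, nev v (vy i) ≠ 0 → nab (φ vg2) (φ vg3) D (φ (vp i), φ (vz i)) =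
        src (φ vg2) (φ vg3) (φ (vx i)) (φ (vy i)) D := by
  obtain ⟨S, hS, hS'⟩ := num_setup n
  refine ⟨S, hS, fun v hv hvS => ?_⟩
  obtain ⟨δ, α, β, γ, hker, hβ, ea, eb, e1, e2, eg2, eg3, ep⟩ := hS' v hv hvS
  obtain ⟨ψ, -, hψD, hψ0⟩ := taylor (RR n) (nev v) δ hker
  obtain ⟨K, iF, iA, D, ι, hι, hιD, hconst⟩ := exists_diffField
  have : CharZero K := charZero_of_injective_algebraMap (algebraMap ℂ K).injective
  let φ : RR n →+* K := (ι : PowerSeries ℂ →+* K).comp ψ
  have hφ0 : ∀ h, φ h = 0 ↔ nev v h = 0 := by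
    intro h
    rw [← hψ0 h]
    change ι (ψ h) = 0 ↔ _
    rw [map_eq_zero_iff ι hι]
  have hφD : ∀ h, D (φ h) = φ (δ h) := by
    intro h
    have h1 := hψD h
    have h2 := hιD (ψ h)
    exact h2.trans (congrArg ι h1.symm)
  have hC : ∀ c : ℚ, φ (C c) = (c : K) := fun c => NumK.map_C φ c
  have hΔ : φ vg2 ^ 3 - 27 * φ vg3 ^ 2 ≠ 0 := by
    have h1 : φ (vg2 ^ 3 - 27 * vg3 ^ 2) = φ vg2 ^ 3 - 27 * φ vg3 ^ 2 := by
      simp only [map_sub, map_mul, map_pow, map_ofNat]
    rw [← h1]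
    intro h
    rw [hφ0] at h
    simp only [map_sub, map_mul, map_pow, map_ofNat, NumSetup.nev_vg2, NumSetup.nev_vg3] at h
    exact disc_ne_zero hv.1 h
  have d2 : D (φ vg2) = -4 * φ α * φ vg2 - 6 * φ β * φ vg3 := by
    rw [hφD, eg2]
    simp only [map_sub, map_mul, map_neg, map_ofNat]
    ring
  have d3 : D (φ vg3) = -6 * φ α * φ vg3 - φ β * φ vg2 ^ 2 / 3 := by
    rw [hφD, eg3]
    simp only [map_sub, map_mul, map_neg, map_ofNat, map_pow, hC]
    push_cast
    ring
  obtain ⟨hal, hbe⟩ := al_be_unique hΔ d2 d3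
  refine ⟨K, iF, iA, D, φ, hconst, hφ0, ?_, ?_, ?_, ?_⟩
  · rw [hbe]
    intro h
    exact hβ ((hφ0 _).1 h)
  · unfold nab
    rw [hal, hbe]
    ext
    · simp only [hφD, ea, map_add, map_mul, Prod.fst_zero]
      ring
    · simp only [hφD, e1, map_sub, map_mul, map_neg, hC, Prod.snd_zero]
      push_cast
      ring
  · unfold nab
    rw [hal, hbe]
    ext
    · simp only [hφD, eb, map_add, map_mul, Prod.fst_zero]
      ring
    · simp only [hφD, e2, map_sub, map_mul, map_neg, hC, Prod.snd_zero]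
      push_cast
      ring
  · intro i hy
    have hy' : φ (vy i) ≠ 0 := by
      intro h
      exact hy ((hφ0 _).1 h)
    obtain ⟨p1, p2, p3, p4⟩ := ep i
    have hga : ga (φ vg2) (φ vg3) (φ (vx i)) (φ (vy i)) D = φ (γ i) := by
      unfold ga
      rw [hal, hbe, hφD, p2]
      simp only [map_add, map_mul, map_neg, map_pow, map_ofNat, hC]
      push_cast
      field_simp
      ring
    unfold nab src
    rw [hal, hbe, hga]
    ext
    · simp only [hφD, p1, map_add, map_mul]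
      ring
    · simp only [hφD, p4, map_sub, map_add, map_mul, map_neg, hC]
      push_cast
      ring

end Pool.Agent.EllSch
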