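import Pool.Agent.EllSch.Lattice

/-! # [FB2] Splitting off the periods in the span of the points -/

namespace Pool.Agent.EllSch

/-- clearing denominators in a finite family of rationals -/
theorem clear_denoms {ι : Type*} [Finite ι] (c : ι → ℚ) :
    ∃ (N : ℤ) (k : ι → ℤ), N ≠ 0 ∧ ∀ i, (k i : ℚ) = N * c i := by
  obtain ⟨N, hN⟩ := IsLocalization.exist_integer_multiples_of_finite (nonZeroDivisors ℤ) c
  choose k hk using hN
  refine ⟨N, k, nonZeroDivisors.ne_zero N.2, fun i => ?_⟩
  have := hk i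
  simpa [Algebra.smul_def] using this

theorem rank_split {a b : ℂ} (_h : Ind a b) {n : ℕ} (p : Fin n → ℂ)
    (hp : ∀ m : Fin n → ℤ, ∑ i, m i * p i = 0 → m = 0) :
    ∃ (r : ℕ) (f : Fin r → Fin n), Function.Injective f ∧
      (∀ (m : Fin r → ℤ) (x : ℤ × ℤ), ∑ k, m k * p (f k) = lat a b x → m = 0) ∧
      (r = n ∨
        (r + 1 = n ∧ ∃ (k : Fin n → ℤ) (x : ℤ × ℤ), x ≠ 0 ∧ ∑ i, k i * p i = lat a b x) ∨
        (r + 2 = n ∧ ∃ (k k' : Fin n → ℤ) (x x' : ℤ × ℤ), x.1 * x'.2 - x.2 * x'.1 ≠ 0 ∧
          ∑ i, k i * p i = lat a b x ∧ ∑ i, k' i * p i = lat a b x')) := by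
  classical
  have hpZ : LinearIndependent ℤ p := by
    rw [Fintype.linearIndependent_iff]
    intro g hg i
    have h1 : ∑ i, (g i : ℂ) * p i = 0 := by
      rw [← hg]
      exact Finset.sum_congr rfl (fun i _ => by rw [zsmul_eq_mul])
    have := hp g h1
    rw [this]; rfl
  have hpQ : LinearIndependent ℚ p := (LinearIndependent.iff_fractionRing ℤ ℚ).mp hpZ
  let L : Submodule ℚ ℂ := Submodule.span ℚ {a, b}
  have memL : ∀ z : ℂ, z ∈ L ↔ ∃ s t : ℚ, (s : ℂ) * a + (t : ℂ) * b = z := by
    intro z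
    show z ∈ Submodule.span ℚ {a, b} ↔ _
    rw [Submodule.mem_span_pair]
    simp only [Rat.smul_def]
  have hlat : ∀ x : ℤ × ℤ, lat a b x ∈ L := by
    intro x
    rw [memL]
    exact ⟨x.1, x.2, by unfold lat; push_cast; ring⟩
  let P : Fin n → ℂ ⧸ L := fun i => L.mkQ (p i)
  obtain ⟨κ, f, hf, hspan, hli⟩ := exists_linearIndependent' ℚ P
  have : Finite κ := Finite.of_injective f hf
  have : Fintype κ := Fintype.ofFinite κ
  let e := (Fintype.equivFin κ).symm
  have hfin : Module.finrank ℚ L ≤ 2 := by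
    have h1 := finrank_span_finset_le_card (R := ℚ) (M := ℂ) ({a, b} : Finset ℂ)
    have h2 : (({a, b} : Finset ℂ) : Set ℂ) = {a, b} := by simp
    rw [Set.finrank, h2] at h1
    exact h1.trans Finset.card_le_two
  have hfd : FiniteDimensional ℚ L := FiniteDimensional.span_of_finite ℚ (by simp)
  let T : (Fin n → ℚ) →ₗ[ℚ] ℂ ⧸ L := Fintype.linearCombination ℚ P
  let V : (Fin n → ℚ) →ₗ[ℚ] ℂ := Fintype.linearCombination ℚ p
  have hV : ∀ c, V c = ∑ i, (c i : ℂ) * p i := by
    intro c
    show Fintype.linearCombination ℚ p c = _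
    rw [Fintype.linearCombination_apply]
    exact Finset.sum_congr rfl (fun i _ => by rw [Rat.smul_def])
  have hTV : ∀ c, T c = L.mkQ (V c) := by
    intro c
    show Fintype.linearCombination ℚ P c = L.mkQ (Fintype.linearCombination ℚ p c)
    rw [Fintype.linearCombination_apply, Fintype.linearCombination_apply, map_sum]
    exact Finset.sum_congr rfl (fun i _ => by rw [map_smul])
  have hVinj : Function.Injective V :=
    linearIndependent_iff_injective_fintypeLinearCombination.mp hpQ
  have hker : ∀ c ∈ LinearMap.ker T, V c ∈ L := by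
    intro c hc
    rw [LinearMap.mem_ker, hTV] at hc
    exact (Submodule.Quotient.mk_eq_zero L).mp hc
  have hker' : ∀ c, V c ∈ L → c ∈ LinearMap.ker T := by
    intro c hc
    rw [LinearMap.mem_ker, hTV]
    exact (Submodule.Quotient.mk_eq_zero L).mpr hc
  let W : LinearMap.ker T →ₗ[ℚ] L := (V.comp (LinearMap.ker T).subtype).codRestrict L
    (fun c => hker c.1 c.2)
  have hWinj : Function.Injective W := by
    intro c d hcd
    have := congrArg Subtype.val hcd
    exact Subtype.ext (hVinj this)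
  have hrank : Module.finrank ℚ (LinearMap.range T) + Module.finrank ℚ (LinearMap.ker T) = n := by
    have := LinearMap.finrank_range_add_finrank_ker T
    rwa [Module.finrank_fin_fun] at this
  have hr : Module.finrank ℚ (LinearMap.range T) = Fintype.card κ := by
    have h1 : LinearMap.range T = Submodule.span ℚ (Set.range P) := Fintype.range_linearCombination ℚ P
    rw [h1, ← hspan]
    exact finrank_span_eq_card hli
  have hkle : Module.finrank ℚ (LinearMap.ker T) ≤ Module.finrank ℚ L :=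
    LinearMap.finrank_le_finrank_of_injective hWinj
  -- clearing denominators in a relation `V c ∈ L`
  have hclear : ∀ (c : Fin n → ℚ) (s t : ℚ), (s : ℂ) * a + (t : ℂ) * b = V c →
      ∃ (N : ℤ) (k : Fin n → ℤ) (x : ℤ × ℤ), N ≠ 0 ∧ (x.1 : ℚ) = N * s ∧ (x.2 : ℚ) = N * t ∧
        ∑ i, (k i : ℂ) * p i = lat a b x := by
    intro c s t hst
    obtain ⟨N, k, hN, hk⟩ := clear_denoms (Sum.elim c ![s, t])
    have e1 := hk (Sum.inr 0)
    have e2 := hk (Sum.inr 1)
    simp only [Sum.elim_inr, Matrix.cons_val_zero, Matrix.cons_val_one] at e1 e2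
    refine ⟨N, fun i => k (Sum.inl i), (k (Sum.inr 0), k (Sum.inr 1)), hN, e1, e2, ?_⟩
    have e3 : ∀ i, ((k (Sum.inl i) : ℤ) : ℂ) = N * (c i : ℂ) := by
      intro i
      have := hk (Sum.inl i)
      simp only [Sum.elim_inl] at this
      exact_mod_cast congrArg (fun q : ℚ => (q : ℂ)) this
    have e4 : ((k (Sum.inr 0) : ℤ) : ℂ) = N * (s : ℂ) := by
      exact_mod_cast congrArg (fun q : ℚ => (q : ℂ)) e1
    have e5 : ((k (Sum.inr 1) : ℤ) : ℂ) = N * (t : ℂ) := by
      exact_mod_cast congrArg (fun q : ℚ => (q : ℂ)) e2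
    show ∑ i, ((k (Sum.inl i) : ℤ) : ℂ) * p i = ((k (Sum.inr 0) : ℤ) : ℂ) * a + ((k (Sum.inr 1) : ℤ) : ℂ) * b
    rw [e4, e5]
    simp only [e3]
    rw [mul_assoc, mul_assoc, ← mul_add, hst, hV, Finset.mul_sum]
    exact Finset.sum_congr rfl (fun i _ => by ring)
  refine ⟨Fintype.card κ, fun k => f (e k), hf.comp e.injective, ?_, ?_⟩
  · intro m x hm
    have h1 : LinearIndependent ℚ (fun k => P (f (e k))) := hli.comp _ e.injective
    rw [Fintype.linearIndependent_iff] at h1
    have h2 := h1 (fun k => (m k : ℚ)) (by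
      have h3 : ∑ k, ((m k : ℤ) : ℚ) • P (f (e k)) = L.mkQ (∑ k, (m k : ℂ) * p (f (e k))) := by
        rw [map_sum]
        refine Finset.sum_congr rfl (fun k _ => ?_)
        show ((m k : ℤ) : ℚ) • L.mkQ (p (f (e k))) = _
        rw [← map_smul, Rat.smul_def]
        norm_cast
      rw [h3, hm]
      exact (Submodule.Quotient.mk_eq_zero L).mpr (hlat x))
    funext k
    exact_mod_cast h2 k
  · have hcases : Module.finrank ℚ (LinearMap.ker T) = 0 ∨ Module.finrank ℚ (LinearMap.ker T) = 1 ∨
        Module.finrank ℚ (LinearMap.ker T) = 2 := by omega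
    rcases hcases with h0 | h1 | h2
    · left; omega
    · right; left
      refine ⟨by omega, ?_⟩
      have hnt : Nontrivial (LinearMap.ker T) := Module.nontrivial_of_finrank_pos (R := ℚ) (by omega)
      obtain ⟨c, hc⟩ := exists_ne (0 : LinearMap.ker T)
      obtain ⟨s, t, hst⟩ := (memL _).mp (hker c.1 c.2)
      obtain ⟨N, k, x, hN, e1, e2, e3⟩ := hclear c.1 s t hst
      refine ⟨k, x, ?_, e3⟩
      intro hx
      rw [hx] at e1 e2
      have hNQ : (N : ℚ) ≠ 0 := by exact_mod_cast hN
      have hs : s = 0 := by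
        have : (N : ℚ) * s = 0 := by rw [← e1]; simp
        exact (mul_eq_zero.mp this).resolve_left hNQ
      have ht : t = 0 := by
        have : (N : ℚ) * t = 0 := by rw [← e2]; simp
        exact (mul_eq_zero.mp this).resolve_left hNQ
      apply hc
      apply Subtype.ext
      apply hVinj
      rw [← hst, hs, ht]
      simp
    · right; right
      refine ⟨by omega, ?_⟩
      have hsurj : Function.Surjective W := by
        have heq : Module.finrank ℚ (LinearMap.ker T) = Module.finrank ℚ L := by omega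
        exact (LinearMap.injective_iff_surjective_of_finrank_eq_finrank heq).mp hWinj
      have ha : a ∈ L := Submodule.subset_span (by simp)
      have hb : b ∈ L := Submodule.subset_span (by simp)
      obtain ⟨c, hc⟩ := hsurj ⟨a, ha⟩
      obtain ⟨d, hd⟩ := hsurj ⟨b, hb⟩
      have hc' : V c.1 = a := congrArg Subtype.val hc
      have hd' : V d.1 = b := congrArg Subtype.val hd
      obtain ⟨N, k, x, hN, e1, e2, e3⟩ := hclear c.1 1 0 (by rw [hc']; simp)
      obtain ⟨N', k', x', hN', e1', e2', e3'⟩ := hclear d.1 0 1 (by rw [hd']; simp)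
      refine ⟨k, k', x, x', ?_, e3, e3'⟩
      have hx1 : x.1 = N := by exact_mod_cast (by rw [e1, mul_one] : (x.1 : ℚ) = N)
      have hx2 : x.2 = 0 := by exact_mod_cast (by rw [e2, mul_zero] : (x.2 : ℚ) = 0)
      have hx2' : x'.2 = N' := by exact_mod_cast (by rw [e2', mul_one] : (x'.2 : ℚ) = N')
      rw [hx1, hx2, hx2', zero_mul, sub_zero]
      exact mul_ne_zero hN hN'

end Pool.Agent.EllSch
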