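import Pool.Agent.EllSch.FinCount
import Pool.Agent.EllSch.NumK
import Pool.Agent.EllSch.Rank

/-! # [FB3] The theorem for the numbers -/

open MvPolynomial

namespace Pool.Agent.EllSch

noncomputable section

variable {n : ℕ}

section
variable {K : Type} [Field K] [Algebra ℂ K] (φ : RR n →+* K) (v : PIx n → ℂ)
  (D : Derivation ℂ K K)

/-- the data over the differential field -/
def AA (h0 : ∀ h, φ h = 0 ↔ nev v h = 0) (hv : v ∈ UU n)
    (hconst : ∀ x, D x = 0 → x ∈ Set.range (algebraMap ℂ K))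
    (hβ : be (φ vg2) (φ vg3) D ≠ 0) (h1 : nab (φ vg2) (φ vg3) D (φ va, φ ve1) = 0)
    (h2 : nab (φ vg2) (φ vg3) D (φ vb, φ ve2) = 0)
    (hp : ∀ i, nev v (vy i) ≠ 0 → nab (φ vg2) (φ vg3) D (φ (vp i), φ (vz i)) =
        src (φ vg2) (φ vg3) (φ (vx i)) (φ (vy i)) D)
    {r : ℕ} (f : Fin r → Fin n) (hy : ∀ k, nev v (vy (f k)) ≠ 0) : AxData ℂ K r where
  D := D
  g2 := φ vg2
  g3 := φ vg3
  w1 := φ va
  w2 := φ vb
  e1 := φ ve1
  e2 := φ ve2
  x := fun k => φ (vx (f k))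
  y := fun k => φ (vy (f k))
  p := fun k => φ (vp (f k))
  z := fun k => φ (vz (f k))
  hconst := hconst
  hΔ := by
    have e : φ vg2 ^ 3 - 27 * φ vg3 ^ 2 = φ (vg2 ^ 3 - 27 * vg3 ^ 2) := by
      simp only [map_sub, map_mul, map_pow, map_ofNat]
    rw [e]
    intro h
    have := (h0 _).1 h
    simp only [map_sub, map_mul, map_pow, map_ofNat, NumSetup.nev_vg2, NumSetup.nev_vg3] at this
    exact disc_ne_zero hv.1 this
  hdet := by
    have e : φ va * φ ve2 - φ vb * φ ve1 = φ (va * ve2 - vb * ve1) := by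
      simp only [map_sub, map_mul]
    rw [e]
    intro h
    have := (h0 _).1 h
    simp only [map_sub, map_mul, NumSetup.nev_va, NumSetup.nev_vb, NumSetup.nev_ve1,
      NumSetup.nev_ve2] at this
    exact det_ne_zero hv.1 this
  hβ := hβ
  h1 := h1
  h2 := h2
  hy := fun k h => hy k ((h0 _).1 h)
  hxy := fun k => by
    have e : φ (vy (f k) ^ 2 - (4 * vx (f k) ^ 3 - vg2 * vx (f k) - vg3)) = 0 := by
      rw [h0]
      simp only [map_sub, map_mul, map_pow, map_ofNat, NumSetup.nev_vg2, NumSetup.nev_vg3,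
        NumSetup.nev_vx, NumSetup.nev_vy]
      rw [ode hv.1 (hv.2 (f k))]
      ring
    simp only [map_sub, map_mul, map_pow, map_ofNat] at e
    exact sub_eq_zero.1 e
  hp := fun k => hp _ (hy k)

end

/-- a linear relation between the points in the differential field comes from a linear relation
modulo periods -/
theorem rel_of_sum {K : Type} [Field K] [DecidableEq K] (φ : RR n →+* K) (v : PIx n → ℂ)
    (h0 : ∀ h, φ h = 0 ↔ nev v h = 0) (hv : v ∈ UU n) {r : ℕ} (f : Fin r → Fin n)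
    (m : Fin r → ℤ)
    (h : ∑ k, m k • pt (φ vg2) (φ vg3) (φ (vx (f k))) (φ (vy (f k))) = 0) :
    ∃ x : ℤ × ℤ, ∑ k, (m k : ℂ) * v (Sum.inr (f k)) = lat (v (Sum.inl 0)) (v (Sum.inl 1)) x := by
  have e1 := sum_pt_transfer (nev v) φ h0 vg2 vg3 (by
    rw [NumSetup.nev_vg2, NumSetup.nev_vg3]
    exact disc_ne_zero hv.1) (fun k => vx (f k)) (fun k => vy (f k)) (fun k => by
      simp only [NumSetup.nev_vg2, NumSetup.nev_vg3, NumSetup.nev_vx, NumSetup.nev_vy]
      exact ode hv.1 (hv.2 (f k))) m h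
  have key : ∀ (g2' g3' : ℂ) (x' y' : Fin r → ℂ), nev v vg2 = g2' → nev v vg3 = g3' →
      (fun k => nev v (vx (f k))) = x' → (fun k => nev v (vy (f k))) = y' →
      ∑ k, m k • pt g2' g3' (x' k) (y' k) = 0 := by
    rintro _ _ _ _ rfl rfl rfl rfl
    exact e1
  have e3 := key _ _ _ _ (NumSetup.nev_vg2 v) (NumSetup.nev_vg3 v)
    (funext fun k => NumSetup.nev_vx v (f k)) (funext fun k => NumSetup.nev_vy v (f k))
  obtain ⟨Φ, hΦ, -⟩ := exists_hom hv.1
  have e2 : Φ (∑ k, (m k : ℂ) * v (Sum.inr (f k))) = 0 := by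
    rw [map_sum]
    refine (Finset.sum_congr rfl fun k _ => ?_).trans e3
    rw [← zsmul_eq_mul, map_zsmul, hΦ _ (hv.2 (f k))]
  by_contra hcon
  push Not at hcon
  have hoff : Off (v (Sum.inl 0)) (v (Sum.inl 1)) (∑ k, (m k : ℂ) * v (Sum.inr (f k))) :=
    fun x => hcon x
  rw [hΦ _ hoff] at e2
  exact pt_ne_zero (disc_ne_zero hv.1) (ode hv.1 hoff) e2

theorem alg_mono {K : Type} [Field K] [Algebra ℂ K] {S T : Set K} (h : S ⊆ T) {x : K}
    (hx : IsAlgebraic (IntermediateField.adjoin ℂ S) x) :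
    IsAlgebraic (IntermediateField.adjoin ℂ T) x := by
  have hle : IntermediateField.adjoin ℂ S ≤ IntermediateField.adjoin ℂ T :=
    IntermediateField.adjoin.mono ℂ S T h
  exact hx.ringHom_of_comp_eq (IntermediateField.inclusion hle).toRingHom (RingHom.id K)
    (IntermediateField.inclusion hle).injective rfl

/-- the hypotheses on the differential field -/
structure Good {K : Type} [Field K] [Algebra ℂ K] (D : Derivation ℂ K K) (φ : RR n →+* K)
    (v : PIx n → ℂ) : Prop where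
  hv : v ∈ UU n
  hconst : ∀ x, D x = 0 → x ∈ Set.range (algebraMap ℂ K)
  h0 : ∀ h, φ h = 0 ↔ nev v h = 0
  hβ : be (φ vg2) (φ vg3) D ≠ 0
  h1 : nab (φ vg2) (φ vg3) D (φ va, φ ve1) = 0
  h2 : nab (φ vg2) (φ vg3) D (φ vb, φ ve2) = 0
  hp : ∀ i, nev v (vy i) ≠ 0 → nab (φ vg2) (φ vg3) D (φ (vp i), φ (vz i)) =
    src (φ vg2) (φ vg3) (φ (vx i)) (φ (vy i)) D

section
variable {K : Type} [Field K] [Algebra ℂ K] {φ : RR n →+* K} {v : PIx n → ℂ}
  {D : Derivation ℂ K K}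

theorem lat_one_zero (a b : ℂ) (k : ℤ) : lat a b (k, 0) = k * a := by simp [lat]

theorem hy_of_rank (hv : v ∈ UU n) {r : ℕ} (f : Fin r → Fin n)
    (hf : ∀ (m : Fin r → ℤ) (x : ℤ × ℤ), ∑ k, (m k : ℂ) * v (Sum.inr (f k)) =
      lat (v (Sum.inl 0)) (v (Sum.inl 1)) x → m = 0) (k : Fin r) : nev v (vy (f k)) ≠ 0 := by
  rw [NumSetup.nev_vy]
  apply wq_ne_zero hv.1
  intro x hx
  have h1 := hf (Pi.single k 2) x (by
    rw [Finset.sum_eq_single k]
    · rw [Pi.single_eq_same, ← hx]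
      norm_num
    · intro j _ hj
      rw [Pi.single_eq_of_ne hj]
      simp
    · intro h
      exact absurd (Finset.mem_univ k) h)
  have h2 := congrFun h1 k
  rw [Pi.single_eq_same] at h2
  norm_num at h2

theorem Good.step (H : Good D φ v) {r : ℕ} (f : Fin r → Fin n)
    (hf : ∀ (m : Fin r → ℤ) (x : ℤ × ℤ), ∑ k, (m k : ℂ) * v (Sum.inr (f k)) =
      lat (v (Sum.inl 0)) (v (Sum.inl 1)) x → m = 0)
    {κ : Type} [Fintype κ] (t : κ → K) (ht : ∀ i, φ (ee n i) ∈ GG t)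
    (hw1 : φ va ∈ GG t) (hw2 : φ vb ∈ GG t) (he1 : φ ve1 ∈ GG t) (he2 : φ ve2 ∈ GG t) :
    2 * r + 4 ≤ Fintype.card κ := by
  classical
  let A := AA φ v D H.h0 H.hv H.hconst H.hβ H.h1 H.h2 H.hp f (hy_of_rank H.hv f hf)
  refine ax_count' A ?_ t (ht (Sum.inl 0)) (ht (Sum.inl 1)) hw1 hw2 he1 he2
    (fun k => ht (Sum.inr (1, f k))) (fun k => ht (Sum.inr (0, f k)))
    (fun k => ht (Sum.inr (2, f k)))
  intro m hm h
  obtain ⟨x, hx⟩ := rel_of_sum φ v H.h0 H.hv f m h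
  exact hm (hf m x hx)

/-- the Legendre relation -/
theorem Good.legendre (H : Good D φ v) :
    ∃ c : ℂ, φ va * φ ve2 - φ vb * φ ve1 = algebraMap ℂ K c := by
  have : CharZero K := (RingHom.charZero_iff (algebraMap ℂ K).injective).1 inferInstance
  let A := AA φ v D H.h0 H.hv H.hconst H.hβ H.h1 H.h2 H.hp (fun k : Fin 0 => k.elim0)
    (fun k => k.elim0)
  obtain ⟨c, hc⟩ := A.det_const
  exact ⟨c, hc.symm⟩

/-- a period in the span of the points and its quasi-period are algebraic over the numbers of the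
conjecture -/
theorem Good.period (H : Good D φ v) {κ : Type} (t : κ → K) (ht : ∀ i, φ (ee n i) ∈ GG t)
    (k : Fin n → ℤ) (x : ℤ × ℤ)
    (hk : ∑ i, (k i : ℂ) * v (Sum.inr i) = lat (v (Sum.inl 0)) (v (Sum.inl 1)) x) :
    (x.1 : K) * φ va + x.2 * φ vb ∈ GG t ∧ (x.1 : K) * φ ve1 + x.2 * φ ve2 ∈ GG t := by
  constructor
  · have e : φ ((x.1 : RR n) * va + (x.2 : RR n) * vb) = φ (∑ i, (k i : RR n) * vp i) := by
      apply phi_eq φ v H.h0
      simp only [map_add, map_mul, map_intCast, map_sum, NumSetup.nev_va, NumSetup.nev_vb,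
        NumSetup.nev_vp]
      rw [hk]
      rfl
    simp only [map_add, map_mul, map_intCast, map_sum] at e
    rw [e]
    refine sum_mem fun i _ => mul_mem (intCast_mem _ _) ?_
    exact ht (Sum.inr (0, i))
  · have e : φ ((x.1 : RR n) * ve1 + (x.2 : RR n) * ve2) ∈ GG t := by
      apply mem_transfer φ v H.h0 t ht
      have := eta_mem_FF H.hv k x hk
      simp only [map_add, map_mul, map_intCast, NumSetup.nev_ve1, NumSetup.nev_ve2]
      exact this
    simp only [map_add, map_mul, map_intCast] at e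
    exact e

/-- `r = n` -/
theorem Good.case0 (H : Good D φ v)
    (hf : ∀ (m : Fin n → ℤ) (x : ℤ × ℤ), ∑ k, (m k : ℂ) * v (Sum.inr k) =
      lat (v (Sum.inl 0)) (v (Sum.inl 1)) x → m = 0) (s : Finset (EIx n))
    (hs : ∀ i, IsAlgebraic (IntermediateField.adjoin ℂ ((fun i => φ (ee n i)) '' s))
      (φ (ee n i))) : 2 * n + 1 ≤ s.card := by
  let t : s ⊕ Fin 3 → K := Sum.elim (fun i => φ (ee n i)) ![φ va, φ vb, φ ve1]
  have ht : ∀ i, φ (ee n i) ∈ GG t := by
    intro i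
    rw [mem_GG]
    refine alg_mono ?_ (hs i)
    rintro _ ⟨k, hk, rfl⟩
    exact ⟨Sum.inl ⟨k, hk⟩, rfl⟩
  have hw1 : φ va ∈ GG t := range_mem_GG t (Sum.inr 0)
  have hw2 : φ vb ∈ GG t := range_mem_GG t (Sum.inr 1)
  have he1 : φ ve1 ∈ GG t := range_mem_GG t (Sum.inr 2)
  obtain ⟨c, hc⟩ := H.legendre
  have hne : φ va ≠ 0 := by
    intro h
    rw [H.h0, NumSetup.nev_va] at h
    have := H.hv.1
    rw [Ind, h] at this
    simp at this
  have he2 : φ ve2 ∈ GG t := by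
    have e : φ ve2 = (algebraMap ℂ K c + φ vb * φ ve1) / φ va := by
      rw [eq_div_iff hne]
      linear_combination hc
    rw [e]
    exact div_mem (add_mem (const_mem_GG t c) (mul_mem hw2 he1)) hw1
  have := H.step (fun k => k) hf t ht hw1 hw2 he1 he2
  rw [Fintype.card_sum, Fintype.card_coe, Fintype.card_fin] at this
  omega

/-- `r = n - 1` -/
theorem Good.case1 (H : Good D φ v) {r : ℕ} (hr : r + 1 = n) (f : Fin r → Fin n)
    (hf : ∀ (m : Fin r → ℤ) (x : ℤ × ℤ), ∑ k, (m k : ℂ) * v (Sum.inr (f k)) =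
      lat (v (Sum.inl 0)) (v (Sum.inl 1)) x → m = 0) (k : Fin n → ℤ) (x : ℤ × ℤ) (hx : x ≠ 0)
    (hk : ∑ i, (k i : ℂ) * v (Sum.inr i) = lat (v (Sum.inl 0)) (v (Sum.inl 1)) x)
    (s : Finset (EIx n))
    (hs : ∀ i, IsAlgebraic (IntermediateField.adjoin ℂ ((fun i => φ (ee n i)) '' s))
      (φ (ee n i))) : 2 * n + 1 ≤ s.card := by
  have : CharZero K := (RingHom.charZero_iff (algebraMap ℂ K).injective).1 inferInstance
  obtain ⟨c, hc⟩ := H.legendre
  -- the period is nonzero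
  have hl : (x.1 : K) * φ va + x.2 * φ vb ≠ 0 := by
    have e : φ ((x.1 : RR n) * va + (x.2 : RR n) * vb) = (x.1 : K) * φ va + x.2 * φ vb := by
      simp only [map_add, map_mul, map_intCast]
    rw [← e]
    intro h
    rw [H.h0] at h
    simp only [map_add, map_mul, map_intCast, NumSetup.nev_va, NumSetup.nev_vb] at h
    apply hx
    apply lat_injective H.hv.1
    rw [lat_zero]
    exact h
  have main : ∀ (w : K), (∀ t : s ⊕ Fin 1 → K, t = Sum.elim (fun i : s => φ (ee n i)) ![w] →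
      (∀ i, φ (ee n i) ∈ GG t) → w ∈ GG t →
      φ va ∈ GG t ∧ φ vb ∈ GG t ∧ φ ve1 ∈ GG t ∧ φ ve2 ∈ GG t) → 2 * n + 1 ≤ s.card := by
    intro w hw
    let t : s ⊕ Fin 1 → K := Sum.elim (fun i => φ (ee n i)) ![w]
    have ht : ∀ i, φ (ee n i) ∈ GG t := by
      intro i
      rw [mem_GG]
      refine alg_mono ?_ (hs i)
      rintro _ ⟨k, hk, rfl⟩
      exact ⟨Sum.inl ⟨k, hk⟩, rfl⟩
    obtain ⟨h1, h2, h3, h4⟩ := hw t rfl ht (range_mem_GG t (Sum.inr 0))
    have := H.step f hf t ht h1 h2 h3 h4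
    rw [Fintype.card_sum, Fintype.card_coe, Fintype.card_fin] at this
    omega
  by_cases hx2 : x.2 = 0
  · have hx1 : (x.1 : K) ≠ 0 := by
      rw [Ne, Int.cast_eq_zero]
      intro h
      exact hx (Prod.ext h hx2)
    refine main (φ vb) fun t _ ht hw => ?_
    obtain ⟨p1, p2⟩ := H.period t ht k x hk
    rw [hx2, Int.cast_zero, zero_mul, add_zero] at p1 p2 hl
    have hva : φ va ∈ GG t := by
      have := div_mem p1 (intCast_mem (GG t) x.1)
      rwa [mul_div_cancel_left₀ _ hx1] at this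
    have hve1 : φ ve1 ∈ GG t := by
      have := div_mem p2 (intCast_mem (GG t) x.1)
      rwa [mul_div_cancel_left₀ _ hx1] at this
    have hne : φ va ≠ 0 := right_ne_zero_of_mul hl
    refine ⟨hva, hw, hve1, ?_⟩
    have e : φ ve2 = (algebraMap ℂ K c + φ vb * φ ve1) / φ va := by
      rw [eq_div_iff hne]
      linear_combination hc
    rw [e]
    exact div_mem (add_mem (const_mem_GG t c) (mul_mem hw hve1)) hva
  · have hx2' : (x.2 : K) ≠ 0 := by
      rw [Ne, Int.cast_eq_zero]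
      exact hx2
    refine main (φ va) fun t _ ht hw => ?_
    obtain ⟨p1, p2⟩ := H.period t ht k x hk
    have hvb : φ vb ∈ GG t := by
      have := div_mem (sub_mem p1 (mul_mem (intCast_mem (GG t) x.1) hw)) (intCast_mem (GG t) x.2)
      rwa [add_sub_cancel_left, mul_div_cancel_left₀ _ hx2'] at this
    have hve1 : φ ve1 ∈ GG t := by
      have e : φ ve1 = (φ va * ((x.1 : K) * φ ve1 + x.2 * φ ve2) - x.2 * algebraMap ℂ K c) /
          ((x.1 : K) * φ va + x.2 * φ vb) := by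
        rw [eq_div_iff hl]
        linear_combination -(x.2 : K) * hc
      rw [e]
      exact div_mem (sub_mem (mul_mem hw p2) (mul_mem (intCast_mem _ _) (const_mem_GG t c))) p1
    have hve2 : φ ve2 ∈ GG t := by
      have := div_mem (sub_mem p2 (mul_mem (intCast_mem (GG t) x.1) hve1))
        (intCast_mem (GG t) x.2)
      rwa [add_sub_cancel_left, mul_div_cancel_left₀ _ hx2'] at this
    exact ⟨hw, hvb, hve1, hve2⟩

/-- `r = n - 2` -/
theorem Good.case2 (H : Good D φ v) {r : ℕ} (hr : r + 2 = n) (f : Fin r → Fin n)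
    (hf : ∀ (m : Fin r → ℤ) (x : ℤ × ℤ), ∑ k, (m k : ℂ) * v (Sum.inr (f k)) =
      lat (v (Sum.inl 0)) (v (Sum.inl 1)) x → m = 0) (k k' : Fin n → ℤ) (x x' : ℤ × ℤ)
    (hx : x.1 * x'.2 - x.2 * x'.1 ≠ 0)
    (hk : ∑ i, (k i : ℂ) * v (Sum.inr i) = lat (v (Sum.inl 0)) (v (Sum.inl 1)) x)
    (hk' : ∑ i, (k' i : ℂ) * v (Sum.inr i) = lat (v (Sum.inl 0)) (v (Sum.inl 1)) x')
    (s : Finset (EIx n))
    (hs : ∀ i, IsAlgebraic (IntermediateField.adjoin ℂ ((fun i => φ (ee n i)) '' s))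
      (φ (ee n i))) : 2 * n ≤ s.card := by
  have : CharZero K := (RingHom.charZero_iff (algebraMap ℂ K).injective).1 inferInstance
  let t : s → K := fun i => φ (ee n i)
  have ht : ∀ i, φ (ee n i) ∈ GG t := by
    intro i
    rw [mem_GG]
    refine alg_mono ?_ (hs i)
    rintro _ ⟨k, hk, rfl⟩
    exact ⟨⟨k, hk⟩, rfl⟩
  have hd : (x.1 : K) * x'.2 - x.2 * x'.1 ≠ 0 := by exact_mod_cast hx
  have hdm : (x.1 : K) * x'.2 - x.2 * x'.1 ∈ GG t :=
    sub_mem (mul_mem (intCast_mem _ _) (intCast_mem _ _))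
      (mul_mem (intCast_mem _ _) (intCast_mem _ _))
  obtain ⟨p1, p2⟩ := H.period t ht k x hk
  obtain ⟨q1, q2⟩ := H.period t ht k' x' hk'
  have solve : ∀ a b : K, (x.1 : K) * a + x.2 * b ∈ GG t → (x'.1 : K) * a + x'.2 * b ∈ GG t →
      a ∈ GG t ∧ b ∈ GG t := by
    intro a b h1 h2
    constructor
    · have e : a = (x'.2 * ((x.1 : K) * a + x.2 * b) - x.2 * ((x'.1 : K) * a + x'.2 * b)) /
          ((x.1 : K) * x'.2 - x.2 * x'.1) := by
        rw [eq_div_iff hd]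
        ring
      rw [e]
      exact div_mem (sub_mem (mul_mem (intCast_mem _ _) h1) (mul_mem (intCast_mem _ _) h2)) hdm
    · have e : b = (x.1 * ((x'.1 : K) * a + x'.2 * b) - x'.1 * ((x.1 : K) * a + x.2 * b)) /
          ((x.1 : K) * x'.2 - x.2 * x'.1) := by
        rw [eq_div_iff hd]
        ring
      rw [e]
      exact div_mem (sub_mem (mul_mem (intCast_mem _ _) h2) (mul_mem (intCast_mem _ _) h1)) hdm
  obtain ⟨h1, h2⟩ := solve _ _ p1 q1
  obtain ⟨h3, h4⟩ := solve _ _ p2 q2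
  have := H.step f hf t ht h1 h2 h3 h4
  rw [Fintype.card_coe] at this
  omega

end

/-- **Main theorem**, for the evaluation of the variables. -/
theorem core (n : ℕ) : ∃ S : Set ℂ, S.Countable ∧ ∀ v ∈ UU n,
    v (Sum.inl 1) / v (Sum.inl 0) ∉ S →
    (∀ m : Fin n → ℤ, ∑ i, (m i : ℂ) * v (Sum.inr i) = 0 → m = 0) →
    ∃ s : Finset (EIx n),
      (2 * n + 1 ≤ s.card ∨ (2 * n ≤ s.card ∧
        ∃ (k k' : Fin n → ℤ) (x x' : ℤ × ℤ), x.1 * x'.2 - x.2 * x'.1 ≠ 0 ∧
          ∑ i, (k i : ℂ) * v (Sum.inr i) = lat (v (Sum.inl 0)) (v (Sum.inl 1)) x ∧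
          ∑ i, (k' i : ℂ) * v (Sum.inr i) = lat (v (Sum.inl 0)) (v (Sum.inl 1)) x')) ∧
      AlgebraicIndependent ℚ (fun i : s => nev v (ee n i)) := by
  obtain ⟨S, hS, hS'⟩ := num_field n
  refine ⟨S, hS, fun v hv hvS hp => ?_⟩
  obtain ⟨K, iK, iA, D, φ, hconst, h0, hβ, h1, h2, h3⟩ := hS' v hv hvS
  have H : Good D φ v := ⟨hv, hconst, h0, hβ, h1, h2, h3⟩
  obtain ⟨s, hs1, hs2⟩ := exists_max (fun i => φ (ee n i))
  obtain ⟨r, f, hf, hrank, hcase⟩ := rank_split hv.1 (fun i => v (Sum.inr i)) hp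
  refine ⟨s, ?_, indep_transfer (nev v) φ h0 (fun i : s => ee n i) hs1⟩
  rcases hcase with hr | ⟨hr, k, x, hx, hk⟩ | ⟨hr, k, k', x, x', hx, hk, hk'⟩
  · subst hr
    left
    have hb : Function.Bijective f := Finite.injective_iff_bijective.1 hf
    refine H.case0 (fun m x hm => ?_) s hs2
    have h4 := hrank (m ∘ f) x (by
      rw [← hm]
      exact Function.Bijective.sum_comp hb (fun k => (m k : ℂ) * v (Sum.inr k)))
    funext k
    obtain ⟨j, rfl⟩ := hb.2 k
    exact congrFun h4 j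
  · left
    exact H.case1 hr f hrank k x hx hk s hs2
  · right
    exact ⟨H.case2 hr f hrank k k' x x' hx hk hk' s hs2, k, k', x, x', hx, hk, hk'⟩

end

end Pool.Agent.EllSch
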