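import Pool.Agent.EllSch.Final
import Pool.Agent.EllSch.Fix.Legendre
import Pool.Agent.EllSch.Fix.PiTr

/-! # [FB5] The bound `2 n + 1` for all points -/

open MvPolynomial Cardinal

namespace Pool.Agent.EllSch

noncomputable section

namespace Final2

/-- a maximal algebraically independent subfamily -/
theorem exists_max2 {ι E K : Type*} [Fintype ι] [DecidableEq ι] [Field E] [Field K] [Algebra E K]
    (e : ι → K) :
    ∃ s : Finset ι, AlgebraicIndependent E (fun i : s => e i) ∧
      ∀ i, IsAlgebraic (IntermediateField.adjoin E (e '' s)) (e i) := by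
  classical
  let P : Finset (Finset ι) := Finset.univ.filter
    (fun s => AlgebraicIndepOn E e (s : Set ι))
  have hP : P.Nonempty := by
    refine ⟨∅, Finset.mem_filter.2 ⟨Finset.mem_univ _, ?_⟩⟩
    have h0 : IsEmpty ((∅ : Finset ι) : Set ι) := by simp
    exact (algebraicIndependent_empty_type_iff).2 (algebraMap E K).injective
  obtain ⟨s, hs, hmax⟩ := Finset.exists_max_image P Finset.card hP
  have hs' : AlgebraicIndepOn E e (s : Set ι) := (Finset.mem_filter.1 hs).2
  refine ⟨s, hs', fun i => ?_⟩
  by_cases hi : i ∈ s
  · exact isAlgebraic_algebraMap (⟨e i, IntermediateField.subset_adjoin _ _ ⟨i, hi, rfl⟩⟩ :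
      IntermediateField.adjoin E (e '' s))
  · have h1 : insert i s ∉ P := by
      intro h
      have := hmax _ h
      rw [Finset.card_insert_of_notMem hi] at this
      omega
    have h2 : ¬AlgebraicIndepOn E e (insert i (s : Set ι)) := by
      intro h
      apply h1
      refine Finset.mem_filter.2 ⟨Finset.mem_univ _, ?_⟩
      rw [Finset.coe_insert]
      exact h
    rw [AlgebraicIndepOn.insert_iff (by simpa using hi)] at h2
    have h3 : IsAlgebraic (Algebra.adjoin E (e '' s)) (e i) := by
      by_contra h
      exact h2 ⟨hs', h⟩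
    open scoped IntermediateField.algebraAdjoinAdjoin in
    exact h3.extendScalars (FaithfulSMul.algebraMap_injective _ _)

/-- counting algebraically independent numbers which are algebraic over a finite family -/
theorem card_le {k ι κ B : Type} [Field k] [Field B] [Algebra k B] [Fintype κ] (e : ι → B)
    (s : Finset ι) (u : κ → B) (hu : AlgebraicIndependent k u)
    (h : ∀ j, IsAlgebraic (IntermediateField.adjoin k (e '' s)) (u j)) :
    Fintype.card κ ≤ s.card := by
  classical
  let L := IntermediateField.adjoin k (e '' s)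
  let A : IntermediateField k B := (algebraicClosure L B).restrictScalars k
  have hmem : ∀ x, x ∈ A ↔ IsAlgebraic L x := fun x => mem_algebraicClosure_iff
  have hes : ∀ i ∈ s, e i ∈ A := fun i hi => by
    rw [hmem]
    exact isAlgebraic_algebraMap (⟨e i, IntermediateField.subset_adjoin _ _ ⟨i, hi, rfl⟩⟩ : L)
  let T : Set A := Set.range fun i : s => (⟨e i, hes i i.2⟩ : A)
  let u' : κ → A := fun k => ⟨u k, (hmem _).2 (h k)⟩
  have hu' : AlgebraicIndependent k u' := by
    have h1 : AlgebraicIndependent k (A.val ∘ u') := hu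
    exact h1.of_comp A.val
  have halg : Algebra.IsAlgebraic (Algebra.adjoin k T) A := by
    refine ⟨fun x => ?_⟩
    have hx : IsAlgebraic L (x : B) := (hmem _).1 x.2
    -- `L` is the image of `adjoin k T`
    have h1 : IsAlgebraic (IntermediateField.adjoin k T) x := by
      have h2 : L = (IntermediateField.adjoin k T).map A.val := by
        have h3 : e '' (s : Set ι) = A.val '' T := by
          ext c
          constructor
          · rintro ⟨i, hi, rfl⟩
            exact ⟨⟨e i, hes i hi⟩, ⟨⟨i, hi⟩, rfl⟩, rfl⟩
          · rintro ⟨_, ⟨i, rfl⟩, rfl⟩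
            exact ⟨i, i.2, rfl⟩
        rw [IntermediateField.adjoin_map, ← h3]
      have hx' : IsAlgebraic ((IntermediateField.adjoin k T).map A.val) (A.val x) := by
        rw [← h2]; exact hx
      exact (isAlgebraic_ringHom_iff_of_comp_eq (IntermediateField.equivMap _ A.val) A.val
        A.val.injective rfl).1 hx'
    open scoped IntermediateField.algebraAdjoinAdjoin in
    exact (IsFractionRing.isAlgebraic_iff (Algebra.adjoin k T) (IntermediateField.adjoin k T) A).2 h1
  have h1 : Algebra.trdeg k A ≤ #T := Algebra.IsAlgebraic.trdeg_le_cardinalMk k T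
  have h2 : #κ ≤ Algebra.trdeg k A := hu'.cardinalMk_le_trdeg
  have h3 : #T ≤ #s := Cardinal.mk_range_le
  have h4 := (h2.trans h1).trans h3
  rw [Cardinal.mk_fintype, Cardinal.mk_coe_finset] at h4
  exact_mod_cast h4

/-- adjoining a transcendental constant to an algebraically independent family -/
theorem option_indep {k σ B K : Type*} [Field k] [Field B] [Field K] [Algebra k B] [Algebra B K]
    [Algebra k K] [IsScalarTower k B K] {c : B} (hc : Transcendental k c)
    {y : σ → K} (hy : AlgebraicIndependent B y) :
    AlgebraicIndependent k (fun o : Option σ => o.elim (algebraMap B K c) y) := by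
  rw [algebraicIndependent_iff]
  intro P hP
  let e := optionEquivRight k σ
  have key : ∀ P : MvPolynomial (Option σ) k,
      aeval y (MvPolynomial.map ((Polynomial.aeval c : Polynomial k →ₐ[k] B) :
        Polynomial k →+* B) (e P)) =
      aeval (fun o : Option σ => o.elim (algebraMap B K c) y) P := by
    intro P
    induction P using MvPolynomial.induction_on with
    | C a =>
      simp only [e, optionEquivRight_C, map_C, aeval_C]
      simp [IsScalarTower.algebraMap_apply k B K]
    | add p q hp hq => simp only [map_add, hp, hq]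
    | mul_X p i hp =>
      rw [map_mul, map_mul, map_mul, map_mul, hp]
      congr 1
      cases i with
      | none => simp [e]
      | some i => simp [e]
  have h1 := key P
  rw [hP] at h1
  have h2 := (algebraicIndependent_iff.1 hy) _ h1
  have hinj : Function.Injective ((Polynomial.aeval c : Polynomial k →ₐ[k] B) :
      Polynomial k →+* B) := transcendental_iff_injective.1 hc
  have h3 : e P = 0 := MvPolynomial.map_injective _ hinj (by rw [h2, map_zero])
  exact (map_eq_zero_iff e e.injective).1 h3

theorem transcendental_det {a b : ℂ} (h : Ind a b) : Transcendental ℚ (a * eta2 a b - b * eta1 a b) := by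
  intro h1
  apply transcendental_pi
  have h2 : IsAlgebraic ℚ (det a b ^ 2) := IsAlgebraic.pow h1 2
  rw [det_sq h] at h2
  have h3 : IsAlgebraic ℚ ((Real.pi : ℂ) ^ 2) := by
    have h4 : ((Real.pi : ℂ) ^ 2) = (-(4 * (Real.pi : ℂ) ^ 2)) * (((-(1 / 4) : ℚ) : ℂ)) := by
      push_cast; ring
    rw [h4]
    exact h2.mul (isAlgebraic_algebraMap (-(1 / 4) : ℚ))
  exact h3.of_pow (by norm_num)

end Final2

/-- **Main theorem**, with the bound `2 n + 1` in all cases. -/
theorem core2 (n : ℕ) : ∃ S : Set ℂ, S.Countable ∧ ∀ v ∈ UU n,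
    v (Sum.inl 1) / v (Sum.inl 0) ∉ S →
    (∀ m : Fin n → ℤ, ∑ i, (m i : ℂ) * v (Sum.inr i) = 0 → m = 0) →
    ∃ s : Finset (EIx n), 2 * n + 1 ≤ s.card ∧
      AlgebraicIndependent ℚ (fun i : s => nev v (ee n i)) := by
  classical
  obtain ⟨S, hS, hS'⟩ := num_field n
  refine ⟨S, hS, fun v hv hvS hp => ?_⟩
  obtain ⟨K, iK, iA, D, φ, hconst, h0, hβ, h1, h2, h3⟩ := hS' v hv hvS
  have H : Good D φ v := ⟨hv, hconst, h0, hβ, h1, h2, h3⟩
  obtain ⟨s, hs1, hs2⟩ := exists_max (fun i => φ (ee n i))
  obtain ⟨r, f, hf, hrank, hcase⟩ := rank_split hv.1 (fun i => v (Sum.inr i)) hp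
  have hnum := indep_transfer (nev v) φ h0 (fun i : s => ee n i) hs1
  rcases hcase with hr | ⟨hr, k, x, hx, hk⟩ | ⟨hr, k, k', x, x', hx, hk, hk'⟩
  · subst hr
    refine ⟨s, ?_, hnum⟩
    have hb : Function.Bijective f := Finite.injective_iff_bijective.1 hf
    refine H.case0 (fun m x hm => ?_) s hs2
    have h4 := hrank (m ∘ f) x (by
      rw [← hm]
      exact Function.Bijective.sum_comp hb (fun k => (m k : ℂ) * v (Sum.inr k)))
    funext k
    obtain ⟨j, rfl⟩ := hb.2 k
    exact congrFun h4 j
  · exact ⟨s, H.case1 hr f hrank k x hx hk s hs2, hnum⟩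
  · have hcard := H.case2 hr f hrank k k' x x' hx hk hk' s hs2
    have hcz : CharZero K := (RingHom.charZero_iff (algebraMap ℂ K).injective).1 inferInstance
    -- the Legendre determinant
    let dt : RR n := va * ve2 - vb * ve1
    have hdt : nev v dt = v (Sum.inl 0) * eta2 (v (Sum.inl 0)) (v (Sum.inl 1)) -
        v (Sum.inl 1) * eta1 (v (Sum.inl 0)) (v (Sum.inl 1)) := by
      simp only [dt, map_sub, map_mul, NumSetup.nev_va, NumSetup.nev_vb, NumSetup.nev_ve1,
        NumSetup.nev_ve2]
    have hdtr : Transcendental ℚ (nev v dt) := by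
      rw [hdt]; exact Final2.transcendental_det hv.1
    obtain ⟨c, hc⟩ := H.legendre
    have hφdt : φ dt = algebraMap ℂ K c := by
      rw [← hc]
      simp only [dt, map_sub, map_mul]
    have hctr : Transcendental ℚ c := by
      intro h4
      apply hdtr
      obtain ⟨P, hP0, hP⟩ := h4
      refine ⟨P, hP0, ?_⟩
      have e1 : Polynomial.aeval (nev v dt) P = nev v (Polynomial.aeval dt P) := by
        have := Polynomial.aeval_algHom_apply ((nev v).toRatAlgHom) dt P
        exact this
      have e2 : Polynomial.aeval (φ dt) P = φ (Polynomial.aeval dt P) := by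
        have := Polynomial.aeval_algHom_apply (φ.toRatAlgHom) dt P
        exact this
      rw [e1, ← h0, ← e2, hφdt]
      rw [Polynomial.aeval_algebraMap_apply, hP, map_zero]
    have hopt := Final2.option_indep hctr hs1
    -- transfer to the numbers
    have hopt2 : AlgebraicIndependent ℚ (fun o : Option s => nev v (o.elim dt (fun i => ee n i))) := by
      rw [algebraicIndependent_iff] at hopt ⊢
      intro P hP
      apply hopt
      have e1 : (fun o : Option s => o.elim (algebraMap ℂ K c) (fun i : s => φ (ee n i))) =
          fun o : Option s => φ (o.elim dt (fun i => ee n i)) := by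
        funext o
        cases o with
        | none => exact hφdt.symm
        | some i => rfl
      rw [e1, aeval_comp_hom, h0, ← aeval_comp_hom]
      exact hP
    -- counting
    obtain ⟨s', hs1', hs2'⟩ := Final2.exists_max2 (E := ℚ) (fun i => nev v (ee n i))
    refine ⟨s', ?_, hs1'⟩
    have hle := Final2.card_le (fun i => nev v (ee n i)) s' _ hopt2 (fun o => ?_)
    · rw [Fintype.card_option, Fintype.card_coe] at hle
      omega
    cases o with
    | some i => exact hs2' i
    | none =>
      -- the determinant is algebraic over the numbers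
      show IsAlgebraic _ (nev v dt)
      let G : Subfield ℂ := (algebraicClosure (IntermediateField.adjoin ℚ
        ((fun i => nev v (ee n i)) '' s')) ℂ).toSubfield
      have memG : ∀ x, x ∈ G ↔ IsAlgebraic (IntermediateField.adjoin ℚ
        ((fun i => nev v (ee n i)) '' s')) x := fun x => mem_algebraicClosure_iff
      rw [← memG]
      have hFG : ∀ x, x ∈ FF v → x ∈ G := by
        intro x hx
        rw [mem_FF] at hx
        have hle : IntermediateField.adjoin ℚ (nev v '' (Set.range (ee n))) ≤
            (algebraicClosure (IntermediateField.adjoin ℚ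
              ((fun i => nev v (ee n i)) '' s')) ℂ).restrictScalars ℚ := by
          rw [IntermediateField.adjoin_le_iff]
          rintro _ ⟨_, ⟨i, rfl⟩, rfl⟩
          exact (memG _).2 (hs2' i)
        have hx' : IsAlgebraic ((algebraicClosure (IntermediateField.adjoin ℚ
              ((fun i => nev v (ee n i)) '' s')) ℂ)) x :=
          hx.ringHom_of_comp_eq (IntermediateField.inclusion hle).toRingHom (RingHom.id ℂ)
            (IntermediateField.inclusion hle).injective rfl
        rw [memG]
        exact hx'.restrictScalars _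
      -- periods and quasi-periods
      have hper : ∀ (k : Fin n → ℤ) (x : ℤ × ℤ),
          ∑ i, (k i : ℂ) * v (Sum.inr i) = lat (v (Sum.inl 0)) (v (Sum.inl 1)) x →
          lat (v (Sum.inl 0)) (v (Sum.inl 1)) x ∈ G ∧ eta (v (Sum.inl 0)) (v (Sum.inl 1)) x ∈ G := by
        intro k x hk
        refine ⟨?_, hFG _ (eta_mem_FF hv k x hk)⟩
        rw [← hk]
        refine sum_mem fun i _ => mul_mem (intCast_mem _ _) (hFG _ ?_)
        have := gen_mem_FF v (Sum.inr (0, i))
        rwa [show ee n (Sum.inr (0, i)) = vp i from rfl, NumSetup.nev_vp] at this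
      obtain ⟨p1, p2⟩ := hper k x hk
      obtain ⟨q1, q2⟩ := hper k' x' hk'
      have hd : (x.1 : ℂ) * x'.2 - x.2 * x'.1 ≠ 0 := by exact_mod_cast hx
      have e : nev v dt = (lat (v (Sum.inl 0)) (v (Sum.inl 1)) x * eta (v (Sum.inl 0)) (v (Sum.inl 1)) x' -
          lat (v (Sum.inl 0)) (v (Sum.inl 1)) x' * eta (v (Sum.inl 0)) (v (Sum.inl 1)) x) /
          ((x.1 : ℂ) * x'.2 - x.2 * x'.1) := by
        rw [hdt, eq_div_iff hd]
        simp only [lat, eta]
        ring
      rw [e]
      exact div_mem (sub_mem (mul_mem p1 q2) (mul_mem q1 p2))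
        (sub_mem (mul_mem (intCast_mem _ _) (intCast_mem _ _))
          (mul_mem (intCast_mem _ _) (intCast_mem _ _)))

end

end Pool.Agent.EllSch
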