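import Pool.Agent.EllSch.Orbit

/-! # [GF] The canonical logarithm -/

open Polynomial Filter Topology

namespace Pool.Agent.EllSch

namespace GFun

/-- A rational functional on `ℂ`, integral on the `c i`, not vanishing on all of them. -/
theorem exists_functional {r : ℕ} (c : Fin r → ℂ) (hc : c ≠ 0) :
    ∃ (f : ℂ →ₗ[ℚ] ℚ) (a : Fin r → ℤ), (∀ i, f (c i) = (a i : ℚ)) ∧ a ≠ 0 := by
  obtain ⟨i₀, hi₀⟩ : ∃ i, c i ≠ 0 := by
    by_contra h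
    push Not at h
    exact hc (funext h)
  obtain ⟨g, hg⟩ : ∃ g : ℂ →ₗ[ℚ] ℚ, g (c i₀) ≠ 0 := by
    by_contra h
    push Not at h
    exact hi₀ ((Module.forall_dual_apply_eq_zero_iff ℚ (c i₀)).1 h)
  let N : ℕ := ∏ i, (g (c i)).den
  have hN : N ≠ 0 := Finset.prod_ne_zero_iff.2 fun i _ => (g (c i)).den_nz
  have hint : ∀ i, ∃ k : ℤ, (N : ℚ) * g (c i) = k := by
    intro i
    obtain ⟨q, hq⟩ : (g (c i)).den ∣ N := Finset.dvd_prod_of_mem _ (Finset.mem_univ i)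
    refine ⟨q * (g (c i)).num, ?_⟩
    rw [hq]
    push_cast
    have := Rat.den_mul_eq_num (g (c i))
    linear_combination (q : ℚ) * this
  choose a ha using hint
  refine ⟨(N : ℚ) • g, a, fun i => ?_, fun h => ?_⟩
  · rw [LinearMap.smul_apply, smul_eq_mul, ha]
  · have h1 := ha i₀
    rw [h] at h1
    simp only [Pi.zero_apply, Int.cast_zero, mul_eq_zero, Nat.cast_eq_zero, hN, false_or] at h1
    exact hg h1

/-- The functional takes integral values on the group generated by the `c i`. -/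
theorem functional_int {r : ℕ} {c : Fin r → ℂ} {f : ℂ →ₗ[ℚ] ℚ} {a : Fin r → ℤ}
    (ha : ∀ i, f (c i) = (a i : ℚ)) {x : ℂ} (hx : x ∈ AddSubgroup.closure (Set.range c)) :
    ∃ k : ℤ, f x = k := by
  induction hx using AddSubgroup.closure_induction with
  | mem x hx =>
    obtain ⟨i, rfl⟩ := hx
    exact ⟨a i, ha i⟩
  | zero => exact ⟨0, by simp⟩
  | add x y _ _ hx hy =>
    obtain ⟨k, hk⟩ := hx
    obtain ⟨l, hl⟩ := hy
    exact ⟨k + l, by rw [map_add, hk, hl]; push_cast; ring⟩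
  | neg x _ hx =>
    obtain ⟨k, hk⟩ := hx
    exact ⟨-k, by rw [map_neg, hk]; push_cast; ring⟩

theorem f_mul_int (f : ℂ →ₗ[ℚ] ℚ) (z : ℂ) (n : ℤ) : f (z * n) = f z * n := by
  have : z * (n : ℂ) = n • z := by rw [zsmul_eq_mul]; ring
  rw [this, map_zsmul, zsmul_eq_mul]; ring

theorem f_sum {r : ℕ} (f : ℂ →ₗ[ℚ] ℚ) (N : ℕ) (s : ℤ) (w : ℂ) (c : Fin r → ℂ) (a : Fin r → ℤ)
    (ha : ∀ i, f (c i) = (a i : ℚ)) (n : Fin r → ℤ) :
    f (N * (s * (w - ∑ i, c i * n i))) = s * (f (N * w) - ∑ i, ((N * a i : ℤ) : ℚ) * n i) := by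
  have h1 : (N : ℂ) * (s * (w - ∑ i, c i * n i)) =
      (N * w - ∑ i, (c i * ((N : ℤ) * n i : ℤ))) * s := by
    have h2 : ∑ i, (c i * (((N : ℤ) * n i : ℤ) : ℂ)) = N * ∑ i, c i * n i := by
      rw [Finset.mul_sum]
      refine Finset.sum_congr rfl fun i _ => ?_
      push_cast; ring
    rw [h2]; ring
  rw [h1, f_mul_int, map_sub, map_sum]
  have h3 : ∑ i, f (c i * (((N : ℤ) * n i : ℤ) : ℂ)) = ∑ i, ((N * a i : ℤ) : ℚ) * n i := by
    refine Finset.sum_congr rfl fun i _ => ?_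
    rw [f_mul_int, ha]
    push_cast; ring
  rw [h3]; ring

/-- The normalised logarithm. -/
noncomputable def zz {r : ℕ} (f : ℂ →ₗ[ℚ] ℚ) (N : ℕ) (m : Fin r → ℤ) (τ l : ℂ) (p : Fin r → ℂ)
    (w : ℂ × ℂ) : ℂ :=
  (∑ i, m i * p i) / l + ((f (N * w.1) : ℚ) : ℂ) + ((f (N * w.2) : ℚ) : ℂ) * τ

/-- Effect of the choices on the normalised logarithm. -/
theorem zz_change {r : ℕ} {c : Fin r → ℂ} {f : ℂ →ₗ[ℚ] ℚ} {a : Fin r → ℤ}
    (ha : ∀ i, f (c i) = (a i : ℚ)) {N : ℕ} {m : Fin r → ℤ} (hm : ∀ i, m i = N * a i)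
    {τ l : ℂ} (hl : l ≠ 0) {p : Fin r → ℂ} {w : ℂ × ℂ} {s : ℤ} (hs : s = 1 ∨ s = -1)
    {n : Fin r → ℤ × ℤ} {l' : ℂ} {p' : Fin r → ℂ} {w' : ℂ × ℂ} (hl' : l' = s * l)
    (hp' : ∀ i, p' i = p i + lat l (l * τ) (n i))
    (hw1 : w'.1 = s * (w.1 - ∑ i, c i * (n i).1)) (hw2 : w'.2 = s * (w.2 - ∑ i, c i * (n i).2)) :
    zz f N m τ l' p' w' = s * zz f N m τ l p w := by
  have hss : (s : ℂ) * s = 1 := by
    rcases hs with rfl | rfl <;> norm_num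
  have hs0 : (s : ℂ) ≠ 0 := by
    intro h; rw [h, mul_zero] at hss; exact zero_ne_one hss
  unfold zz
  rw [hw1, hw2, f_sum f N s w.1 c a ha (fun i => (n i).1),
    f_sum f N s w.2 c a ha (fun i => (n i).2)]
  have h1 : ∑ i, (m i : ℂ) * p' i =
      ∑ i, (m i : ℂ) * p i + (∑ i, (m i : ℂ) * (n i).1) * l + (∑ i, (m i : ℂ) * (n i).2) * (l * τ) := by
    rw [Finset.sum_mul, Finset.sum_mul, ← Finset.sum_add_distrib, ← Finset.sum_add_distrib]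
    refine Finset.sum_congr rfl fun i _ => ?_
    rw [hp' i, lat]; ring
  have h2 : (s : ℂ)⁻¹ = s := (eq_inv_of_mul_eq_one_left hss).symm
  have h3 : (∑ i, (m i : ℂ) * p' i) / l' =
      s * ((∑ i, (m i : ℂ) * p i) / l + ∑ i, (m i : ℂ) * (n i).1 + (∑ i, (m i : ℂ) * (n i).2) * τ) := by
    rw [h1, hl', div_mul_eq_div_div_swap, div_eq_mul_inv _ (s : ℂ), h2]
    field_simp
  rw [h3]
  push_cast
  have h4 : ∀ g : Fin r → ℤ, ∑ i, ((N : ℂ) * (a i : ℂ)) * (g i : ℂ) = ∑ i, (m i : ℂ) * (g i : ℂ) := by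
    intro g
    refine Finset.sum_congr rfl fun i _ => ?_
    rw [hm i]; push_cast; ring
  rw [h4 (fun i => (n i).1), h4 (fun i => (n i).2)]
  ring

end GFun

section
variable {E : Type} [Field E] [Algebra ℂ E] {D : Derivation ℂ E E} {j : E} {M : Model E D j}
  {r : ℕ}

open Classical in
/-- The square `G` of the normalised canonical logarithm of `∑ m i P i`. -/
theorem exists_G (T : Fam M r) (c : Fin r → ℂ) (hc : c ≠ 0) (u : E × E) (hu1 : u.1 ∈ M.R)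
    (hu2 : u.2 ∈ M.R)
    (heq : nab T.g2 T.g3 D u = ∑ i, algebraMap ℂ E (c i) • src T.g2 T.g3 (T.x i) (T.y i) D) :
    ∃ m : Fin r → ℤ, m ≠ 0 ∧ ∃ G : ℂ → (M.R →ₐ[ℂ] ℂ) → ℂ,
      (∀ τ ∈ HH M, ∀ χ, M.jv χ = jf τ → ∃ (l : ℂ) (p : Fin r → ℂ) (k : ℤ × ℤ),
        Rel0 T τ χ l p ∧ G τ χ = ((∑ i, m i * p i) / l + k.1 + k.2 * τ) ^ 2) ∧
      (∀ τ₀ ∈ HH M, ∀ χ : ℂ → (M.R →ₐ[ℂ] ℂ), (∀ᶠ t in 𝓝 τ₀, M.jv (χ t) = jf t) →
        (∀ e : M.R, ∀ᶠ t in 𝓝 τ₀,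
          HasDerivAt (fun s => χ s e) (deriv jf t * χ t ⟨D e, M.hD e e.2⟩) t) →
        DifferentiableAt ℂ (fun t => G t (χ t)) τ₀) ∧
      (∀ τ ∈ HH M, ∀ χ, M.jv χ = jf τ → G (τ + 1) χ = G τ χ) ∧
      (∀ τ ∈ HH M, ∀ χ, M.jv χ = jf τ → τ ^ 2 * G (-1 / τ) χ = G τ χ) := by
  obtain ⟨f, a, ha, ha0⟩ := GFun.exists_functional c hc
  obtain ⟨N, hN, horb⟩ := orbit T c u hu1 hu2 heq
  set m : Fin r → ℤ := fun i => N * a i with hm
  have hm' : ∀ i, m i = N * a i := fun i => rfl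
  let G : ℂ → (M.R →ₐ[ℂ] ℂ) → ℂ := fun τ χ =>
    if h : ∃ q : ℂ × (Fin r → ℂ) × (ℂ × ℂ), Rel T c u τ χ q.1 q.2.1 q.2.2 then
      (GFun.zz f N m τ h.choose.1 h.choose.2.1 h.choose.2.2) ^ 2 else 0
  -- value of `G` for an arbitrary choice
  have hG : ∀ τ ∈ HH M, ∀ χ, M.jv χ = jf τ → ∀ l p w, Rel T c u τ χ l p w →
      G τ χ = (GFun.zz f N m τ l p w) ^ 2 := by
    intro τ hτ χ hχ l p w h
    have hex : ∃ q : ℂ × (Fin r → ℂ) × (ℂ × ℂ), Rel T c u τ χ q.1 q.2.1 q.2.2 := ⟨(l, p, w), h⟩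
    have h1 : G τ χ = (GFun.zz f N m τ hex.choose.1 hex.choose.2.1 hex.choose.2.2) ^ 2 :=
      dif_pos hex
    obtain ⟨s, n, hs, h2, h3, h4, h5⟩ := rel_unique hτ hχ h hex.choose_spec
    rw [h1, GFun.zz_change ha hm' h.1.1 hs h2 h3 h4 h5]
    have hss : (s : ℂ) * s = 1 := by
      rcases hs with rfl | rfl <;> norm_num
    linear_combination (GFun.zz f N m τ l p w) ^ 2 * hss
  have hrel : ∀ τ ∈ HH M, ∀ χ, M.jv χ = jf τ → ∃ l p w, Rel T c u τ χ l p w := by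
    intro τ hτ χ hχ
    obtain ⟨l, p, h⟩ := exists_rel0 T hτ hχ
    obtain ⟨w, hw⟩ := exists_w T c u hτ h
    exact ⟨l, p, w, hw⟩
  refine ⟨m, ?_, G, ?_, ?_, ?_, ?_⟩
  · intro h
    apply ha0
    funext i
    have := congrFun h i
    simp only [hm, Pi.zero_apply, mul_eq_zero, Nat.cast_eq_zero] at this
    rcases this with h1 | h1
    · omega
    · exact h1
  · intro τ hτ χ hχ
    obtain ⟨l, p, w, h⟩ := hrel τ hτ χ hχ
    obtain ⟨k1, hk1⟩ := GFun.functional_int ha (horb τ hτ χ hχ l p w h).1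
    obtain ⟨k2, hk2⟩ := GFun.functional_int ha (horb τ hτ χ hχ l p w h).2
    refine ⟨l, p, (k1, k2), h.1, ?_⟩
    rw [hG τ hτ χ hχ l p w h, GFun.zz, hk1, hk2]
    push_cast
    rfl
  · intro τ₀ hτ₀ χ hχ hd
    obtain ⟨l₀, p₀, w, h⟩ := hrel τ₀ hτ₀ (χ τ₀) hχ.self_of_nhds
    obtain ⟨l, p, hl, hp, hev⟩ := rel_local T c u hu1 hu2 heq hτ₀ χ hχ hd h
    have heqG : (fun t => G t (χ t)) =ᶠ[𝓝 τ₀] fun t => (GFun.zz f N m t (l t) (p t) w) ^ 2 := by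
      filter_upwards [hev, hχ, (isOpen_HH M).mem_nhds hτ₀] with t ht hχt hτt
      exact hG t hτt (χ t) hχt _ _ _ ht.1
    refine DifferentiableAt.congr_of_eventuallyEq ?_ heqG
    have h0 := hev.self_of_nhds
    unfold GFun.zz
    refine DifferentiableAt.pow ?_ 2
    refine DifferentiableAt.add (DifferentiableAt.add (DifferentiableAt.div ?_ h0.2.1 h0.1.1.1)
      (differentiableAt_const _)) ((differentiableAt_const _).mul differentiableAt_id)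
    exact DifferentiableAt.fun_sum fun i _ => (differentiableAt_const _).mul (h0.2.2 i)
  · intro τ hτ χ hχ
    obtain ⟨l, p, w, h⟩ := hrel τ hτ χ hχ
    have hτ' : τ + 1 ∈ HH M := HH_T.2 hτ
    rw [hG (τ + 1) hτ' χ (by rw [hχ, jf_add_one]) _ _ _ (rel_T hτ h), hG τ hτ χ hχ l p w h]
    have : (N : ℂ) * (w.1 - w.2) = N * w.1 - N * w.2 := by ring
    simp only [GFun.zz, this, map_sub]
    push_cast
    ring
  · intro τ hτ χ hχ
    obtain ⟨l, p, w, h⟩ := hrel τ hτ χ hχ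
    have hτ0 : τ ≠ 0 := by
      rintro rfl
      exact absurd hτ.1 (by simp)
    have hl0 : l ≠ 0 := h.1.1
    rw [hG (-1 / τ) (HH_S hτ) χ (by rw [hχ, jf_S hτ.1]) _ _ _ (rel_S hτ h), hG τ hτ χ hχ l p w h]
    have : (N : ℂ) * (-w.1) = -(N * w.1) := by ring
    simp only [GFun.zz, this, map_neg]
    push_cast
    field_simp
    ring

end

end Pool.Agent.EllSch
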