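import Pool.Agent.EllSch.T5Defs
import Pool.Agent.EllSch.Cusp
import Pool.Agent.EllSch.FS

/-! # [JF] The modular function -/

open Polynomial Filter Topology

namespace Pool.Agent.EllSch

theorem jf_add_one (τ : ℂ) : jf (τ + 1) = jf τ := by
  have h2 : G2 1 (τ + 1) = G2 1 τ := by
    have := G2_change (a := 1) (b := τ) (p := 1) (q := 0) (r := 1) (s := 1) (by norm_num)
    push_cast at this
    rw [← this]
    congr 1 <;> ring
  have h3 : G3 1 (τ + 1) = G3 1 τ := by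
    have := G3_change (a := 1) (b := τ) (p := 1) (q := 0) (r := 1) (s := 1) (by norm_num)
    push_cast at this
    rw [← this]
    congr 1 <;> ring
  unfold jf
  rw [h2, h3]

namespace JFun

theorem ne_zero_of_im {τ : ℂ} (hτ : 0 < τ.im) : τ ≠ 0 := by
  rintro rfl
  simp at hτ

theorem G2_S {τ : ℂ} (hτ : τ ≠ 0) : G2 1 (-1 / τ) = τ ^ 4 * G2 1 τ := by
  have h1 := G2_change (a := 1) (b := τ) (p := 0) (q := 1) (r := -1) (s := 0) (by norm_num)
  have h2 := G2_smul (a := τ) (b := -1) (c := τ⁻¹) (inv_ne_zero hτ)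
  have e1 : τ⁻¹ * τ = 1 := inv_mul_cancel₀ hτ
  have e2 : τ⁻¹ * -1 = -1 / τ := by rw [div_eq_mul_inv]; ring
  have e3 : G2 τ (-1) = G2 1 τ := by
    rw [← h1]
    push_cast
    congr 1 <;> ring
  rw [e1, e2, e3] at h2
  rw [h2, inv_pow, div_inv_eq_mul, mul_comm]

theorem G3_S {τ : ℂ} (hτ : τ ≠ 0) : G3 1 (-1 / τ) = τ ^ 6 * G3 1 τ := by
  have h1 := G3_change (a := 1) (b := τ) (p := 0) (q := 1) (r := -1) (s := 0) (by norm_num)
  have h2 := G3_smul (a := τ) (b := -1) (c := τ⁻¹) (inv_ne_zero hτ)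
  have e1 : τ⁻¹ * τ = 1 := inv_mul_cancel₀ hτ
  have e2 : τ⁻¹ * -1 = -1 / τ := by rw [div_eq_mul_inv]; ring
  have e3 : G3 τ (-1) = G3 1 τ := by
    rw [← h1]
    push_cast
    congr 1 <;> ring
  rw [e1, e2, e3] at h2
  rw [h2, inv_pow, div_inv_eq_mul, mul_comm]

end JFun

theorem jf_S {τ : ℂ} (hτ : 0 < τ.im) : jf (-1 / τ) = jf τ := by
  have h0 := JFun.ne_zero_of_im hτ
  unfold jf
  rw [JFun.G2_S h0, JFun.G3_S h0]
  have h12 : τ ^ 12 ≠ 0 := pow_ne_zero _ h0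
  have e1 : 1728 * (τ ^ 4 * G2 1 τ) ^ 3 = (1728 * G2 1 τ ^ 3) * τ ^ 12 := by ring
  have e2 : (τ ^ 4 * G2 1 τ) ^ 3 - 27 * (τ ^ 6 * G3 1 τ) ^ 2 =
      (G2 1 τ ^ 3 - 27 * G3 1 τ ^ 2) * τ ^ 12 := by ring
  rw [e1, e2, mul_div_mul_right _ _ h12]

theorem ind_one {τ : ℂ} (hτ : 0 < τ.im) : Ind 1 τ := by
  unfold Ind
  simp only [Complex.one_re, Complex.one_im, one_mul, zero_mul, sub_zero]
  exact hτ.ne'

namespace JFun

/-- derivative of `G2` along `τ` -/
theorem hasDerivAt_G2 {τ : ℂ} (hτ : 0 < τ.im) :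
    HasDerivAt (fun t => G2 1 t) (-4 * cA 1 τ (0, 1) * G2 1 τ - 6 * cB 1 τ (0, 1) * G3 1 τ) τ := by
  obtain ⟨L, hL, hL2⟩ := fs_G2 (ind_one hτ)
  have h1 : HasDerivAt (fun t : ℂ => ((1 : ℂ), t)) ((0 : ℂ), (1 : ℂ)) τ :=
    (hasDerivAt_const τ (1 : ℂ)).prodMk (hasDerivAt_id τ)
  have h2 := hL.hasFDerivAt.comp_hasDerivAt τ h1
  rw [hL2] at h2
  exact h2

theorem hasDerivAt_G3 {τ : ℂ} (hτ : 0 < τ.im) :
    HasDerivAt (fun t => G3 1 t)
      (-6 * cA 1 τ (0, 1) * G3 1 τ - cB 1 τ (0, 1) * G2 1 τ ^ 2 / 3) τ := by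
  obtain ⟨L, hL, hL2⟩ := fs_G3 (ind_one hτ)
  have h1 : HasDerivAt (fun t : ℂ => ((1 : ℂ), t)) ((0 : ℂ), (1 : ℂ)) τ :=
    (hasDerivAt_const τ (1 : ℂ)).prodMk (hasDerivAt_id τ)
  have h2 := hL.hasFDerivAt.comp_hasDerivAt τ h1
  rw [hL2] at h2
  exact h2

theorem hasDerivAt_jf {τ : ℂ} (hτ : 0 < τ.im) :
    HasDerivAt jf (1728 * (-18 * cB 1 τ (0, 1) * G2 1 τ ^ 2 * G3 1 τ) /
      (G2 1 τ ^ 3 - 27 * G3 1 τ ^ 2)) τ := by
  have hΔ := disc_ne_zero (ind_one hτ)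
  have h2 := hasDerivAt_G2 hτ
  have h3 := hasDerivAt_G3 hτ
  have hN := (h2.pow 3).const_mul (1728 : ℂ)
  have hD := (h2.pow 3).sub ((h3.pow 2).const_mul (27 : ℂ))
  have h := hN.div hD hΔ
  have e : jf = fun t => 1728 * G2 1 t ^ 3 / (G2 1 t ^ 3 - 27 * G3 1 t ^ 2) := rfl
  rw [e]
  refine h.congr_deriv ?_
  simp only [Pi.sub_apply, Pi.pow_apply]
  rw [div_eq_div_iff (pow_ne_zero 2 hΔ) hΔ]
  norm_num
  ring

end JFun

theorem differentiableAt_G2 {τ : ℂ} (hτ : 0 < τ.im) : DifferentiableAt ℂ (fun t => G2 1 t) τ :=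
  (JFun.hasDerivAt_G2 hτ).differentiableAt

theorem differentiableAt_G3 {τ : ℂ} (hτ : 0 < τ.im) : DifferentiableAt ℂ (fun t => G3 1 t) τ :=
  (JFun.hasDerivAt_G3 hτ).differentiableAt

theorem differentiableAt_jf {τ : ℂ} (hτ : 0 < τ.im) : DifferentiableAt ℂ jf τ :=
  (JFun.hasDerivAt_jf hτ).differentiableAt

namespace JFun

/-- the upper half plane -/
def UH : Set ℂ := {τ : ℂ | 0 < τ.im}

theorem isOpen_UH : IsOpen UH := isOpen_lt continuous_const Complex.continuous_im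

theorem convex_UH : Convex ℝ UH := convex_halfSpace_im_gt 0

theorem cB_ne {τ : ℂ} (hτ : 0 < τ.im) : cB 1 τ (0, 1) ≠ 0 := by
  unfold cB
  simp only [mul_one, mul_zero, sub_zero]
  exact div_ne_zero one_ne_zero (det_ne_zero (ind_one hτ))

/-- points with large imaginary part have small `q` -/
theorem norm_q (τ : ℂ) : ‖Complex.exp (2 * Real.pi * Complex.I * τ)‖ =
    Real.exp (-(2 * Real.pi * τ.im)) := by
  rw [Complex.norm_exp]
  congr 1
  simp [Complex.mul_re, Complex.mul_im]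

theorem exists_tau {q : ℂ} (hq : q ≠ 0) (hq1 : ‖q‖ < 1) :
    ∃ τ : ℂ, 0 < τ.im ∧ Complex.exp (2 * Real.pi * Complex.I * τ) = q := by
  have hc : (2 * Real.pi * Complex.I : ℂ) ≠ 0 := Complex.two_pi_I_ne_zero
  refine ⟨Complex.log q / (2 * Real.pi * Complex.I), ?_, ?_⟩
  · have e : Complex.exp (2 * Real.pi * Complex.I * (Complex.log q / (2 * Real.pi * Complex.I))) =
        q := by
      rw [mul_div_cancel₀ _ hc, Complex.exp_log hq]
    have h := norm_q (Complex.log q / (2 * Real.pi * Complex.I))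
    rw [e] at h
    rw [h, Real.exp_lt_one_iff] at hq1
    have hpi := Real.pi_pos
    by_contra hn
    push Not at hn
    have : 2 * Real.pi * (Complex.log q / (2 * Real.pi * Complex.I)).im ≤ 0 :=
      mul_nonpos_of_nonneg_of_nonpos (by positivity) hn
    linarith
  · rw [mul_div_cancel₀ _ hc, Complex.exp_log hq]

/-- `G2` and `G3` do not vanish near the cusp -/
theorem exists_good : ∃ τ : ℂ, 0 < τ.im ∧ G2 1 τ ≠ 0 ∧ G3 1 τ ≠ 0 := by
  obtain ⟨g, hg, hg0, hg1⟩ := exists_q_G2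
  obtain ⟨h, hh, hh0, hh1⟩ := exists_q_G3
  have hb : Metric.ball (0 : ℂ) 1 ∈ 𝓝 (0 : ℂ) := Metric.ball_mem_nhds 0 one_pos
  have c1 : ContinuousAt g 0 := (hg.differentiableAt hb).continuousAt
  have c2 : ContinuousAt h 0 := (hh.differentiableAt hb).continuousAt
  have e1 : ∀ᶠ q in 𝓝[≠] (0 : ℂ), g q ≠ 0 := (c1.eventually_ne hg0).filter_mono nhdsWithin_le_nhds
  have e2 : ∀ᶠ q in 𝓝[≠] (0 : ℂ), h q ≠ 0 := (c2.eventually_ne hh0).filter_mono nhdsWithin_le_nhds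
  have e3 : ∀ᶠ q in 𝓝[≠] (0 : ℂ), ‖q‖ < 1 := by
    have : ∀ᶠ q in 𝓝 (0 : ℂ), ‖q‖ < 1 := by
      filter_upwards [hb] with q hq
      simpa using hq
    exact this.filter_mono nhdsWithin_le_nhds
  have e4 : ∀ᶠ q in 𝓝[≠] (0 : ℂ), q ≠ 0 := eventually_mem_nhdsWithin
  obtain ⟨q, ⟨⟨q1, q2⟩, q3⟩, q4⟩ := (((e1.and e2).and e3).and e4).exists
  obtain ⟨τ, hτ, hτq⟩ := exists_tau q4 q3
  refine ⟨τ, hτ, ?_, ?_⟩
  · rw [hg1 τ hτ, hτq]; exact q1
  · rw [hh1 τ hτ, hτq]; exact q2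

theorem analyticOnNhd_jf : AnalyticOnNhd ℂ jf UH :=
  DifferentiableOn.analyticOnNhd
    (fun _ hτ => (differentiableAt_jf hτ).differentiableWithinAt) isOpen_UH

theorem analyticOnNhd_poly (P : ℂ[X]) : AnalyticOnNhd ℂ (fun w => P.eval (jf w)) UH :=
  DifferentiableOn.analyticOnNhd
    (fun _ hτ => (P.differentiable.differentiableAt.comp _
      (differentiableAt_jf hτ)).differentiableWithinAt) isOpen_UH

theorem not_forall_zero {P : ℂ[X]} (hP : P ≠ 0) : ¬ ∀ w ∈ UH, P.eval (jf w) = 0 := by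
  intro h
  -- the image is preconnected and finite, hence a point
  have hpre : IsPreconnected (jf '' UH) :=
    convex_UH.isPreconnected.image _ analyticOnNhd_jf.continuousOn
  have hfin : (jf '' UH).Finite := by
    apply (P.roots.toFinset.finite_toSet).subset
    rintro _ ⟨w, hw, rfl⟩
    rw [Finset.mem_coe, Multiset.mem_toFinset, Polynomial.mem_roots hP]
    exact h w hw
  have hsub : (jf '' UH).Subsingleton := by
    by_contra hns
    rw [Set.not_subsingleton_iff] at hns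
    exact hpre.infinite_of_nontrivial hns hfin
  obtain ⟨τ, hτ, h2, h3⟩ := exists_good
  have hd := hasDerivAt_jf hτ
  have hconst : jf =ᶠ[𝓝 τ] fun _ => jf τ := by
    filter_upwards [isOpen_UH.mem_nhds (show τ ∈ UH from hτ)] with w hw
    exact hsub ⟨w, hw, rfl⟩ ⟨τ, hτ, rfl⟩
  have hd0 : HasDerivAt jf 0 τ := (hasDerivAt_const τ (jf τ)).congr_of_eventuallyEq hconst
  have heq := hd.unique hd0
  have hΔ := disc_ne_zero (ind_one hτ)
  have hB := cB_ne hτ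
  rw [div_eq_zero_iff] at heq
  rcases heq with heq | heq
  · have : (1728 : ℂ) * (-18 * cB 1 τ (0, 1) * G2 1 τ ^ 2 * G3 1 τ) ≠ 0 := by
      refine mul_ne_zero (by norm_num) (mul_ne_zero (mul_ne_zero (mul_ne_zero (by norm_num) hB)
        (pow_ne_zero 2 h2)) h3)
    exact this heq
  · exact hΔ heq

end JFun

/-- the values of `jf` in a finite set are attained at isolated points -/
theorem jf_discrete {P : ℂ[X]} (hP : P ≠ 0) {z : ℂ} (hz : 0 < z.im) :
    ∃ ε > 0, ∀ w ∈ Metric.ball z ε, 0 < w.im ∧ (w ≠ z → P.eval (jf w) ≠ 0) := by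
  have hA := JFun.analyticOnNhd_poly P
  have h1 : ∀ᶠ w in 𝓝[≠] z, P.eval (jf w) ≠ 0 := by
    rcases (hA z hz).eventually_eq_zero_or_eventually_ne_zero with h | h
    · exfalso
      apply JFun.not_forall_zero hP
      exact hA.eqOn_zero_of_preconnected_of_eventuallyEq_zero JFun.convex_UH.isPreconnected hz h
    · exact h
  rw [eventually_nhdsWithin_iff] at h1
  have h2 : ∀ᶠ w in 𝓝 z, 0 < w.im := JFun.isOpen_UH.mem_nhds hz
  obtain ⟨ε, hε, h⟩ := Metric.eventually_nhds_iff.1 (h1.and h2)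
  exact ⟨ε, hε, fun w hw => ⟨(h hw).2, fun hne => (h hw).1 hne⟩⟩

theorem jf_countable {P : ℂ[X]} (hP : P ≠ 0) :
    {τ : ℂ | 0 < τ.im ∧ P.eval (jf τ) = 0}.Countable := by
  classical
  choose! ε hε hball using fun (z : ℂ) (hz : 0 < z.im) => jf_discrete hP hz
  obtain ⟨t, hts, htc, hcov⟩ := TopologicalSpace.countable_cover_nhdsWithin
    (s := {τ : ℂ | 0 < τ.im ∧ P.eval (jf τ) = 0}) (f := fun z => Metric.ball z (ε z))
    (fun z hz => mem_nhdsWithin_of_mem_nhds (Metric.ball_mem_nhds z (hε z hz.1)))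
  refine htc.mono ?_
  intro w hw
  have := hcov hw
  rw [Set.mem_iUnion₂] at this
  obtain ⟨z, hz, hwz⟩ := this
  by_contra hne
  have hwz' : w ≠ z := by
    rintro rfl
    exact hne hz
  exact (hball z (hts hz).1 w hwz).2 hwz' hw.2

/-- behaviour at the cusp -/
theorem jf_cusp {P : ℂ[X]} (hP : P ≠ 0) : ∃ ρ : ℝ, 0 < ρ ∧ ρ < 1 ∧ ∃ J : ℂ → ℂ,
    DifferentiableOn ℂ J (Metric.ball 0 ρ \ {0}) ∧ MeromorphicAt J 0 ∧
    (∀ t ∈ Metric.ball (0 : ℂ) ρ \ {0}, P.eval (J t) ≠ 0) ∧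
    ∀ τ : ℂ, 0 < τ.im → ‖Complex.exp (2 * Real.pi * Complex.I * τ)‖ < ρ →
      jf τ = J (Complex.exp (2 * Real.pi * Complex.I * τ)) := by
  obtain ⟨g, hg, hg0, hg1⟩ := exists_q_G2
  obtain ⟨h, hh, hh0, hh1⟩ := exists_q_G3
  let J : ℂ → ℂ := fun q => 1728 * g q ^ 3 / (g q ^ 3 - 27 * h q ^ 2)
  have hb : Metric.ball (0 : ℂ) 1 ∈ 𝓝 (0 : ℂ) := Metric.ball_mem_nhds 0 one_pos
  have hga : AnalyticAt ℂ g 0 := hg.analyticAt hb
  have hha : AnalyticAt ℂ h 0 := hh.analyticAt hb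
  have hJm : MeromorphicAt J 0 := by
    have h1 : AnalyticAt ℂ (fun q => 1728 * g q ^ 3) 0 := analyticAt_const.mul (hga.pow 3)
    have h2 : AnalyticAt ℂ (fun q => g q ^ 3 - 27 * h q ^ 2) 0 :=
      (hga.pow 3).sub (analyticAt_const.mul (hha.pow 2))
    exact h1.meromorphicAt.div h2.meromorphicAt
  have hPJ : MeromorphicAt (fun q => P.eval (J q)) 0 := by
    have : (fun q => P.eval (J q)) = fun q => ∑ i ∈ Finset.range (P.natDegree + 1),
        P.coeff i * J q ^ i := by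
      funext q
      rw [Polynomial.eval_eq_sum_range]
    rw [this]
    apply MeromorphicAt.fun_sum
    intro i _
    exact (MeromorphicAt.const _ _).mul (hJm.pow i)
  have hkey : ∀ q : ℂ, q ≠ 0 → ‖q‖ < 1 → ∃ τ : ℂ, 0 < τ.im ∧
      Complex.exp (2 * Real.pi * Complex.I * τ) = q ∧ J q = jf τ ∧
      g q ^ 3 - 27 * h q ^ 2 ≠ 0 := by
    intro q hq hq1
    obtain ⟨τ, hτ, hτq⟩ := JFun.exists_tau hq hq1
    refine ⟨τ, hτ, hτq, ?_, ?_⟩
    · simp only [J, jf]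
      rw [hg1 τ hτ, hh1 τ hτ, hτq]
    · have := disc_ne_zero (ind_one hτ)
      rwa [hg1 τ hτ, hh1 τ hτ, hτq] at this
  have hne : ∀ᶠ q in 𝓝[≠] (0 : ℂ), P.eval (J q) ≠ 0 := by
    rcases hPJ.eventually_eq_zero_or_eventually_ne_zero with h0 | h0
    · exfalso
      rw [eventually_nhdsWithin_iff] at h0
      obtain ⟨δ, hδ, h0⟩ := Metric.eventually_nhds_iff.1 h0
      -- a point high up
      obtain ⟨y, hy1, hy2⟩ : ∃ y : ℝ, 0 < y ∧ Real.exp (-(2 * Real.pi * y)) < δ := by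
        have ht : Tendsto (fun y : ℝ => Real.exp (-(2 * Real.pi * y))) atTop (𝓝 0) := by
          apply Real.tendsto_exp_neg_atTop_nhds_zero.comp
          exact tendsto_id.const_mul_atTop (by positivity)
        exact ((eventually_gt_atTop 0).and (ht.eventually_lt_const hδ)).exists
      have hz : 0 < (⟨0, y⟩ : ℂ).im := hy1
      obtain ⟨ε, hε, hball⟩ := jf_discrete hP hz
      have hcont : Tendsto (fun w : ℂ => ‖Complex.exp (2 * Real.pi * Complex.I * w)‖)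
          (𝓝[≠] (⟨0, y⟩ : ℂ)) (𝓝 ‖Complex.exp (2 * Real.pi * Complex.I * ⟨0, y⟩)‖) := by
        have : Continuous fun w : ℂ => ‖Complex.exp (2 * Real.pi * Complex.I * w)‖ := by
          fun_prop
        exact this.continuousAt.mono_left nhdsWithin_le_nhds
      have hlt : ‖Complex.exp (2 * Real.pi * Complex.I * ⟨0, y⟩)‖ < min δ 1 := by
        rw [JFun.norm_q]
        refine lt_min hy2 ?_
        rw [Real.exp_lt_one_iff]
        have := Real.pi_pos
        have : 0 < 2 * Real.pi * y := by positivity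
        simpa using this
      have ev1 := hcont.eventually_lt_const hlt
      have ev2 : ∀ᶠ w in 𝓝[≠] (⟨0, y⟩ : ℂ), w ∈ Metric.ball (⟨0, y⟩ : ℂ) ε :=
        nhdsWithin_le_nhds (Metric.ball_mem_nhds _ hε)
      have ev3 : ∀ᶠ w in 𝓝[≠] (⟨0, y⟩ : ℂ), w ≠ ⟨0, y⟩ := eventually_mem_nhdsWithin
      obtain ⟨w, ⟨hw1, hw2⟩, hw3⟩ := ((ev1.and ev2).and ev3).exists
      have hwim := (hball w hw2).1
      apply (hball w hw2).2 hw3
      have hq := h0 (y := Complex.exp (2 * Real.pi * Complex.I * w))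
        (by rw [dist_zero_right]; exact hw1.trans_le (min_le_left _ _)) (Complex.exp_ne_zero _)
      have : J (Complex.exp (2 * Real.pi * Complex.I * w)) = jf w := by
        simp only [J, jf]
        rw [hg1 w hwim, hh1 w hwim]
      rw [← this]
      exact hq
    · exact h0
  rw [eventually_nhdsWithin_iff] at hne
  obtain ⟨δ, hδ, hne⟩ := Metric.eventually_nhds_iff.1 hne
  refine ⟨min δ (1 / 2), lt_min hδ (by norm_num), (min_le_right _ _).trans_lt (by norm_num), J, ?_,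
    hJm, ?_, ?_⟩
  · rintro q ⟨hq, hq0⟩
    rw [Metric.mem_ball, dist_zero_right] at hq
    have hq1 : ‖q‖ < 1 := (hq.trans_le (min_le_right _ _)).trans (by norm_num)
    obtain ⟨τ, _, _, _, hΔ⟩ := hkey q hq0 hq1
    have hm : Metric.ball (0 : ℂ) 1 ∈ 𝓝 q :=
      Metric.isOpen_ball.mem_nhds (by rw [Metric.mem_ball, dist_zero_right]; exact hq1)
    have d1 := hg.differentiableAt hm
    have d2 := hh.differentiableAt hm
    have h1 : DifferentiableAt ℂ (fun q => 1728 * g q ^ 3) q := (d1.pow 3).const_mul _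
    have h2 : DifferentiableAt ℂ (fun q => g q ^ 3 - 27 * h q ^ 2) q :=
      (d1.pow 3).sub ((d2.pow 2).const_mul _)
    exact (h1.div h2 hΔ).differentiableWithinAt
  · rintro t ⟨ht, ht0⟩
    rw [Metric.mem_ball] at ht
    exact hne (ht.trans_le (min_le_left _ _)) ht0
  · intro τ hτ _
    simp only [J, jf]
    rw [hg1 τ hτ, hh1 τ hτ]

end Pool.Agent.EllSch
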