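import Pool.Agent.EllSch.FS

/-! # [LOG] Holomorphic logarithms of holomorphic families of points -/

open Filter Topology

namespace Pool.Agent.EllSch

namespace Log

lemma cA_eq {a b : ℂ} (h : Ind a b) (α β : ℂ) :
    cA a b (α * a + β * eta1 a b, α * b + β * eta2 a b) = α := by
  have hd := det_ne_zero h
  unfold cA
  rw [div_eq_iff hd]
  unfold det
  ring

lemma cB_eq {a b : ℂ} (h : Ind a b) (α β : ℂ) :
    cB a b (α * a + β * eta1 a b, α * b + β * eta2 a b) = β := by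
  have hd := det_ne_zero h
  unfold cB
  rw [div_eq_iff hd]
  unfold det
  ring

/-- the derivative of `(t, z) ↦ (t, F (t, z))` -/
noncomputable def Psd (L : ℂ × ℂ →L[ℂ] ℂ) : ℂ × ℂ →L[ℂ] ℂ × ℂ :=
  (ContinuousLinearMap.fst ℂ ℂ ℂ).prod L

lemma exists_equiv (L : ℂ × ℂ →L[ℂ] ℂ) (hL : L (0, 1) ≠ 0) :
    ∃ e : (ℂ × ℂ) ≃L[ℂ] (ℂ × ℂ), (e : ℂ × ℂ →L[ℂ] ℂ × ℂ) = Psd L := by
  have hinj : Function.Injective (Psd L : ℂ × ℂ →ₗ[ℂ] ℂ × ℂ) := by
    rw [injective_iff_map_eq_zero]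
    rintro ⟨x, y⟩ hx
    have h1 : x = 0 := congrArg Prod.fst hx
    have h2 : L (x, y) = 0 := congrArg Prod.snd hx
    subst h1
    have h3 : ((0 : ℂ), y) = y • ((0 : ℂ), (1 : ℂ)) := by simp
    rw [h3, map_smul, smul_eq_mul] at h2
    have h4 : y = 0 := (mul_eq_zero.1 h2).resolve_right hL
    rw [h4]
    rfl
  refine ⟨(LinearEquiv.ofInjectiveEndo _ hinj).toContinuousLinearEquiv, ?_⟩
  ext <;> rfl

/-- implicit functions for a map which is strictly differentiable near a point -/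
lemma implicit (F : ℂ × ℂ → ℂ) (t₀ z₀ : ℂ)
    (hF : ∀ᶠ v in 𝓝 (t₀, z₀), ∃ L : ℂ × ℂ →L[ℂ] ℂ, HasStrictFDerivAt F L v ∧ L (0, 1) ≠ 0)
    (h0 : F (t₀, z₀) = 0) :
    ∃ z : ℂ → ℂ, z t₀ = z₀ ∧ ∀ᶠ t in 𝓝 t₀, DifferentiableAt ℂ z t ∧ F (t, z t) = 0 := by
  set Ψ : ℂ × ℂ → ℂ × ℂ := fun v => (v.1, F v) with hΨ
  have hder : ∀ᶠ v in 𝓝 (t₀, z₀), ∃ e : (ℂ × ℂ) ≃L[ℂ] (ℂ × ℂ),
      HasStrictFDerivAt Ψ (e : ℂ × ℂ →L[ℂ] ℂ × ℂ) v := by
    filter_upwards [hF] with v hv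
    obtain ⟨L, hL, hL1⟩ := hv
    obtain ⟨e, he⟩ := exists_equiv L hL1
    refine ⟨e, ?_⟩
    rw [he]
    exact hasStrictFDerivAt_fst.prodMk hL
  obtain ⟨e0, he0⟩ := hder.self_of_nhds
  set P := he0.toOpenPartialHomeomorph Ψ with hP
  have hPc : (P : ℂ × ℂ → ℂ × ℂ) = Ψ := he0.toOpenPartialHomeomorph_coe
  have hsrc : (t₀, z₀) ∈ P.source := he0.mem_toOpenPartialHomeomorph_source
  have htgt : Ψ (t₀, z₀) ∈ P.target := he0.image_mem_toOpenPartialHomeomorph_target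
  have hΨ0 : Ψ (t₀, z₀) = (t₀, 0) := by rw [hΨ]; simp only [h0]
  have hsymm : P.symm (t₀, 0) = (t₀, z₀) := by
    have := P.left_inv hsrc
    rw [hPc, hΨ0] at this
    exact this
  rw [hΨ0] at htgt
  refine ⟨fun t => (P.symm (t, 0)).2, by simp only [hsymm], ?_⟩
  have hc : ContinuousAt (fun t : ℂ => ((t, 0) : ℂ × ℂ)) t₀ := by fun_prop
  have h1 : ∀ᶠ t in 𝓝 t₀, ((t, 0) : ℂ × ℂ) ∈ P.target :=
    hc.eventually_mem (P.open_target.mem_nhds htgt)
  have hc2 : ContinuousAt (fun t : ℂ => P.symm (t, 0)) t₀ :=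
    ContinuousAt.comp (f := fun t : ℂ => ((t, 0) : ℂ × ℂ)) (P.symm.continuousAt htgt) hc
  have h2 : ∀ᶠ t in 𝓝 t₀, ∃ e : (ℂ × ℂ) ≃L[ℂ] (ℂ × ℂ),
      HasStrictFDerivAt Ψ (e : ℂ × ℂ →L[ℂ] ℂ × ℂ) (P.symm (t, 0)) := by
    have h3 : Tendsto (fun t : ℂ => P.symm (t, 0)) (𝓝 t₀) (𝓝 (t₀, z₀)) := by
      have := hc2.tendsto
      rw [hsymm] at this
      exact this
    exact h3.eventually hder
  filter_upwards [h1, h2] with t h3 h4
  obtain ⟨e, he⟩ := h4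
  have h5 : Ψ (P.symm (t, 0)) = (t, 0) := by
    have := P.right_inv h3
    rw [hPc] at this
    exact this
  have h6 : (P.symm (t, 0)).1 = t := congrArg Prod.fst h5
  have h7 : F (P.symm (t, 0)) = 0 := congrArg Prod.snd h5
  refine ⟨?_, ?_⟩
  · have h8 : HasFDerivAt P.symm (e.symm : ℂ × ℂ →L[ℂ] ℂ × ℂ) (t, 0) := by
      apply P.hasFDerivAt_symm h3
      rw [hPc]
      exact he.hasFDerivAt
    have h9 : DifferentiableAt ℂ (fun t : ℂ => ((t, 0) : ℂ × ℂ)) t := by fun_prop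
    have h10 : DifferentiableAt ℂ (fun t : ℂ => P.symm (t, 0)) t :=
      DifferentiableAt.comp (f := fun t : ℂ => ((t, 0) : ℂ × ℂ)) t h8.differentiableAt h9
    exact h10.snd
  · have h8 : (t, (P.symm (t, 0)).2) = P.symm (t, 0) := by
      rw [← Prod.mk.eta (p := P.symm (t, 0)), h6]
    rw [h8]
    exact h7

end Log

theorem exists_local_log (a b x y : ℂ → ℂ) (t₀ z₀ : ℂ)
    (ha : ∀ᶠ t in 𝓝 t₀, DifferentiableAt ℂ a t) (hb : ∀ᶠ t in 𝓝 t₀, DifferentiableAt ℂ b t)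
    (hx : ∀ᶠ t in 𝓝 t₀, DifferentiableAt ℂ x t) (hy : ∀ᶠ t in 𝓝 t₀, DifferentiableAt ℂ y t)
    (hind : Ind (a t₀) (b t₀)) (hoff : Off (a t₀) (b t₀) z₀)
    (hxy : ∀ᶠ t in 𝓝 t₀, y t ^ 2 = 4 * x t ^ 3 - G2 (a t) (b t) * x t - G3 (a t) (b t))
    (hy0 : y t₀ ≠ 0) (h1 : wp (a t₀) (b t₀) z₀ = x t₀) (h2 : wq (a t₀) (b t₀) z₀ = y t₀) :
    ∃ z : ℂ → ℂ, z t₀ = z₀ ∧ ∀ᶠ t in 𝓝 t₀, DifferentiableAt ℂ z t ∧ Ind (a t) (b t) ∧
      Off (a t) (b t) (z t) ∧ wp (a t) (b t) (z t) = x t ∧ wq (a t) (b t) (z t) = y t := by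
  -- analyticity
  have han : ∀ f : ℂ → ℂ, (∀ᶠ t in 𝓝 t₀, DifferentiableAt ℂ f t) →
      ∀ᶠ t in 𝓝 t₀, ∃ f', HasStrictDerivAt f f' t := by
    intro f hf
    filter_upwards [hf.eventually_nhds] with t ht
    have := Complex.analyticAt_iff_eventually_differentiableAt.2 ht
    exact ⟨_, this.hasStrictDerivAt⟩
  have hca : ContinuousAt a t₀ := ha.self_of_nhds.continuousAt
  have hcb : ContinuousAt b t₀ := hb.self_of_nhds.continuousAt
  set Q : ℂ × ℂ → ℂ × ℂ × ℂ := fun v => (a v.1, b v.1, v.2) with hQ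
  have hQc : ContinuousAt Q (t₀, z₀) := by
    apply ContinuousAt.prodMk
    · exact ContinuousAt.comp (f := fun v : ℂ × ℂ => v.1) hca continuousAt_fst
    · apply ContinuousAt.prodMk
      · exact ContinuousAt.comp (f := fun v : ℂ × ℂ => v.1) hcb continuousAt_fst
      · exact continuousAt_snd
  have hopen : ∀ᶠ v in 𝓝 (t₀, z₀), Ind (a v.1) (b v.1) ∧ Off (a v.1) (b v.1) v.2 :=
    hQc.eventually_mem (isOpen_ind_off.mem_nhds ⟨hind, hoff⟩)
  have hwqc : ContinuousAt (fun v : ℂ × ℂ × ℂ => wq v.1 v.2.1 v.2.2) (Q (t₀, z₀)) := by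
    obtain ⟨L, hL, _⟩ := fs_wq hind hoff
    exact hL.hasFDerivAt.continuousAt
  have hwq : ContinuousAt (fun v : ℂ × ℂ => wq (a v.1) (b v.1) v.2) (t₀, z₀) :=
    ContinuousAt.comp (f := Q) hwqc hQc
  have hne : ∀ᶠ v in 𝓝 (t₀, z₀), wq (a v.1) (b v.1) v.2 ≠ 0 := by
    apply hwq.eventually_ne
    simp only
    rw [h2]
    exact hy0
  have hfst : ∀ {p : ℂ → Prop}, (∀ᶠ t in 𝓝 t₀, p t) → ∀ᶠ v : ℂ × ℂ in 𝓝 (t₀, z₀), p v.1 :=
    fun hp => (continuousAt_fst (p := (t₀, z₀))).eventually hp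
  obtain ⟨z, hz0, hz⟩ := Log.implicit (fun v => wp (a v.1) (b v.1) v.2 - x v.1) t₀ z₀ (by
    filter_upwards [hopen, hne, hfst (han a ha), hfst (han b hb), hfst (han x hx)] with v h3 h4 h5
      h6 h7
    obtain ⟨a', ha'⟩ := h5
    obtain ⟨b', hb'⟩ := h6
    obtain ⟨x', hx'⟩ := h7
    obtain ⟨L, hL, hLu⟩ := fs_wp h3.1 h3.2
    have e1 := ha'.hasStrictFDerivAt.comp v (hasStrictFDerivAt_fst (𝕜 := ℂ) (p := v))
    have e2 := hb'.hasStrictFDerivAt.comp v (hasStrictFDerivAt_fst (𝕜 := ℂ) (p := v))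
    have e3 := hx'.hasStrictFDerivAt.comp v (hasStrictFDerivAt_fst (𝕜 := ℂ) (p := v))
    have e4 : HasStrictFDerivAt Q _ v :=
      e1.prodMk (e2.prodMk (hasStrictFDerivAt_snd (𝕜 := ℂ) (p := v)))
    have e5 := HasStrictFDerivAt.comp (f := Q) v hL e4
    refine ⟨_, e5.sub e3, ?_⟩
    simp only [ContinuousLinearMap.sub_apply, ContinuousLinearMap.comp_apply,
      ContinuousLinearMap.prod_apply, ContinuousLinearMap.coe_fst', ContinuousLinearMap.coe_snd',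
      map_zero, sub_zero]
    rw [hLu]
    simp only [cA, cB, zero_mul, mul_zero, sub_zero, zero_div, zero_add, one_mul]
    exact h4) (by simp only [h1, sub_self])
  have hzc : ContinuousAt z t₀ := hz.self_of_nhds.1.continuousAt
  have hcurve : Tendsto (fun t => (t, z t)) (𝓝 t₀) (𝓝 (t₀, z₀)) := by
    have : ContinuousAt (fun t => (t, z t)) t₀ := continuousAt_id.prodMk hzc
    have h3 := this.tendsto
    rw [hz0] at h3
    exact h3
  have hyc : ContinuousAt y t₀ := hy.self_of_nhds.continuousAt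
  have hplus : ∀ᶠ t in 𝓝 t₀, wq (a t) (b t) (z t) + y t ≠ 0 := by
    have h3 : Tendsto (fun t => wq (a t) (b t) (z t) + y t) (𝓝 t₀)
        (𝓝 (wq (a t₀) (b t₀) z₀ + y t₀)) := (hwq.tendsto.comp hcurve).add hyc.tendsto
    apply h3.eventually_ne
    rw [h2, ← two_mul]
    exact mul_ne_zero two_ne_zero hy0
  refine ⟨z, hz0, ?_⟩
  filter_upwards [hz, hcurve.eventually hopen, hplus, hxy] with t h3 h4 h5 h6
  have h7 : wp (a t) (b t) (z t) = x t := sub_eq_zero.1 h3.2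
  refine ⟨h3.1, h4.1, h4.2, h7, ?_⟩
  have h8 := ode h4.1 h4.2
  rw [h7, ← h6] at h8
  have h9 : (wq (a t) (b t) (z t) - y t) * (wq (a t) (b t) (z t) + y t) = 0 := by
    linear_combination h8
  exact sub_eq_zero.1 ((mul_eq_zero.1 h9).resolve_right h5)

/-- differentiation along a holomorphic curve: with `α`, `β` determined by
`(a', b') = α (a, b) + β (η₁, η₂)` and `γ = z' - α z - β ζ` -/
theorem hasDerivAt_along {a b z : ℂ → ℂ} {a' b' z' t α β γ : ℂ} (ha : HasDerivAt a a' t)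
    (hb : HasDerivAt b b' t) (hz : HasDerivAt z z' t) (hind : Ind (a t) (b t))
    (hoff : Off (a t) (b t) (z t)) (h1 : a' = α * a t + β * eta1 (a t) (b t))
    (h2 : b' = α * b t + β * eta2 (a t) (b t))
    (h3 : z' = α * z t + β * wz (a t) (b t) (z t) + γ) :
    HasDerivAt (fun s => wp (a s) (b s) (z s)) (-2 * α * wp (a t) (b t) (z t)
      + β * (-2 * wp (a t) (b t) (z t) ^ 2 + G2 (a t) (b t) / 3) + γ * wq (a t) (b t) (z t)) t ∧
    HasDerivAt (fun s => wq (a s) (b s) (z s)) (-3 * α * wq (a t) (b t) (z t)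
      - 3 * β * wp (a t) (b t) (z t) * wq (a t) (b t) (z t)
      + γ * (6 * wp (a t) (b t) (z t) ^ 2 - G2 (a t) (b t) / 2)) t ∧
    HasDerivAt (fun s => wz (a s) (b s) (z s)) (-α * wz (a t) (b t) (z t)
      + β * (wq (a t) (b t) (z t) / 2 - G2 (a t) (b t) / 12 * z t)
      - γ * wp (a t) (b t) (z t)) t := by
  have hcur : HasDerivAt (fun s => (a s, b s, z s)) (a', b', z') t := ha.prodMk (hb.prodMk hz)
  have hA : cA (a t) (b t) (a', b') = α := by rw [h1, h2]; exact Log.cA_eq hind α β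
  have hB : cB (a t) (b t) (a', b') = β := by rw [h1, h2]; exact Log.cB_eq hind α β
  have hg : z' - α * z t - β * wz (a t) (b t) (z t) = γ := by rw [h3]; ring
  refine ⟨?_, ?_, ?_⟩
  · obtain ⟨L, hL, hLu⟩ := fs_wp hind hoff
    have h4 := HasFDerivAt.comp_hasDerivAt (f := fun s => (a s, b s, z s)) t hL.hasFDerivAt hcur
    rw [hLu] at h4
    simp only [hA, hB, hg] at h4
    exact h4
  · obtain ⟨L, hL, hLu⟩ := fs_wq hind hoff
    have h4 := HasFDerivAt.comp_hasDerivAt (f := fun s => (a s, b s, z s)) t hL.hasFDerivAt hcur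
    rw [hLu] at h4
    simp only [hA, hB, hg] at h4
    exact h4
  · obtain ⟨L, hL, hLu⟩ := fs_wz hind hoff
    have h4 := HasFDerivAt.comp_hasDerivAt (f := fun s => (a s, b s, z s)) t hL.hasFDerivAt hcur
    rw [hLu] at h4
    simp only [hA, hB, hg] at h4
    exact h4

theorem hasDerivAt_along' {a b : ℂ → ℂ} {a' b' t α β : ℂ} (ha : HasDerivAt a a' t)
    (hb : HasDerivAt b b' t) (hind : Ind (a t) (b t))
    (h1 : a' = α * a t + β * eta1 (a t) (b t)) (h2 : b' = α * b t + β * eta2 (a t) (b t)) :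
    HasDerivAt (fun s => G2 (a s) (b s)) (-4 * α * G2 (a t) (b t) - 6 * β * G3 (a t) (b t)) t ∧
    HasDerivAt (fun s => G3 (a s) (b s)) (-6 * α * G3 (a t) (b t) - β * G2 (a t) (b t) ^ 2 / 3) t ∧
    HasDerivAt (fun s => eta1 (a s) (b s))
      (-α * eta1 (a t) (b t) - β * (G2 (a t) (b t) / 12) * a t) t ∧
    HasDerivAt (fun s => eta2 (a s) (b s))
      (-α * eta2 (a t) (b t) - β * (G2 (a t) (b t) / 12) * b t) t := by
  have hcur : HasDerivAt (fun s => (a s, b s)) (a', b') t := ha.prodMk hb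
  have hA : cA (a t) (b t) (a', b') = α := by rw [h1, h2]; exact Log.cA_eq hind α β
  have hB : cB (a t) (b t) (a', b') = β := by rw [h1, h2]; exact Log.cB_eq hind α β
  refine ⟨?_, ?_, ?_, ?_⟩
  · obtain ⟨L, hL, hLu⟩ := fs_G2 hind
    have h4 := HasFDerivAt.comp_hasDerivAt (f := fun s => (a s, b s)) t hL.hasFDerivAt hcur
    rw [hLu] at h4
    simp only [hA, hB] at h4
    exact h4
  · obtain ⟨L, hL, hLu⟩ := fs_G3 hind
    have h4 := HasFDerivAt.comp_hasDerivAt (f := fun s => (a s, b s)) t hL.hasFDerivAt hcur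
    rw [hLu] at h4
    simp only [hA, hB] at h4
    exact h4
  · obtain ⟨L, hL, hLu⟩ := fs_eta1 hind
    have h4 := HasFDerivAt.comp_hasDerivAt (f := fun s => (a s, b s)) t hL.hasFDerivAt hcur
    rw [hLu] at h4
    simp only [hA, hB] at h4
    exact h4
  · obtain ⟨L, hL, hLu⟩ := fs_eta2 hind
    have h4 := HasFDerivAt.comp_hasDerivAt (f := fun s => (a s, b s)) t hL.hasFDerivAt hcur
    rw [hLu] at h4
    simp only [hA, hB] at h4
    exact h4

end Pool.Agent.EllSch
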