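import Mathlib

/-! # [IT] Models of function fields of one variable -/

set_option linter.all false

open Polynomial

namespace Pool.Agent.EllSch

noncomputable section

/-- evaluation of a bivariate polynomial (`F = ∑ Fᵢ(X) Yⁱ`) at `X = j`, `Y = θ` -/
def ev2 {E : Type*} [CommRing E] [Algebra ℂ E] (F : ℂ[X][X]) (j θ : E) : E :=
  eval₂ (aeval j : ℂ[X] →ₐ[ℂ] E).toRingHom θ F

/-- A standard étale model: a subalgebra `R ∋ j` of the field `E`, stable under the derivation
`D`, generated by `j`, `1 / d(j)` and `θ`, with `F(j, θ) = 0`, whose complex points are the pairs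
(J, x) with `d(J) ≠ 0` and `F(J, x) = 0`. -/
structure Model (E : Type*) [Field E] [Algebra ℂ E] (D : Derivation ℂ E E) (j : E) where
  R : Subalgebra ℂ E
  d : ℂ[X]
  θ : E
  F : ℂ[X][X]
  hd : d ≠ 0
  hDj : D j = 1
  hj : j ∈ R
  hθ : θ ∈ R
  hD : ∀ e ∈ R, D e ∈ R
  hdinv : (aeval j d)⁻¹ ∈ R
  hdj : aeval j d ≠ 0
  hF : F.Monic
  hdeg : 0 < F.natDegree
  hroot : ev2 F j θ = 0
  hsep : ∀ J : ℂ, d.eval J ≠ 0 → (F.map (evalRingHom J)).Separable
  hchar : ∀ J x : ℂ, d.eval J ≠ 0 → (F.map (evalRingHom J)).IsRoot x →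
    ∃ χ : R →ₐ[ℂ] ℂ, χ ⟨j, hj⟩ = J ∧ χ ⟨θ, hθ⟩ = x
  hrep : ∀ e ∈ R, ∃ (N : ℂ[X][X]) (n : ℕ), e * aeval j d ^ n = ev2 N j θ

namespace ModelAux

section commring

variable {E : Type*} [CommRing E] [Algebra ℂ E]

theorem ev2_add (M N : ℂ[X][X]) (j θ : E) : ev2 (M + N) j θ = ev2 M j θ + ev2 N j θ := by
  simp [ev2]

theorem ev2_mul (M N : ℂ[X][X]) (j θ : E) : ev2 (M * N) j θ = ev2 M j θ * ev2 N j θ := by
  simp [ev2, eval₂_mul]

theorem ev2_C (a : ℂ[X]) (j θ : E) : ev2 (C a) j θ = aeval j a := by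
  simp [ev2]

theorem ev2_X (j θ : E) : ev2 X j θ = θ := by
  simp [ev2]

theorem ev2_pow (M : ℂ[X][X]) (n : ℕ) (j θ : E) : ev2 (M ^ n) j θ = ev2 M j θ ^ n := by
  simp [ev2, eval₂_pow]

theorem ev2_neg (M : ℂ[X][X]) (j θ : E) : ev2 (-M) j θ = -ev2 M j θ := by
  simp [ev2]

theorem ev2_sub (M N : ℂ[X][X]) (j θ : E) : ev2 (M - N) j θ = ev2 M j θ - ev2 N j θ := by
  simp [ev2]

theorem ev2_monomial (n : ℕ) (a : ℂ[X]) (j θ : E) :
    ev2 (monomial n a) j θ = aeval j a * θ ^ n := by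
  simp [ev2]

end commring

variable {E : Type} [Field E] [Algebra ℂ E]

/-- the derivative of a value `N(j, θ)` -/
theorem exists_deriv (D : Derivation ℂ E E) (j θ : E) (hDj : D j = 1) (N : ℂ[X][X]) :
    ∃ N₁ : ℂ[X][X], D (ev2 N j θ) = ev2 N₁ j θ + ev2 (derivative N) j θ * D θ := by
  induction N using Polynomial.induction_on' with
  | add p q hp hq =>
    obtain ⟨p₁, hp⟩ := hp
    obtain ⟨q₁, hq⟩ := hq
    refine ⟨p₁ + q₁, ?_⟩
    rw [ev2_add, map_add, hp, hq, derivative_add, ev2_add, ev2_add]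
    ring
  | monomial n a =>
    refine ⟨monomial n (derivative a), ?_⟩
    rw [ev2_monomial, Derivation.leibniz, Derivation.leibniz_pow, Derivation.map_aeval, hDj,
      derivative_monomial, ev2_monomial, ev2_monomial]
    simp only [smul_eq_mul, mul_one, map_mul, map_natCast, nsmul_eq_mul]
    ring

/-- the algebra of the model -/
def ringR (j θ : E) (d : ℂ[X]) : Subalgebra ℂ E where
  carrier := {e | ∃ (N : ℂ[X][X]) (n : ℕ), e * aeval j d ^ n = ev2 N j θ}
  mul_mem' := by
    rintro a b ⟨N, n, h⟩ ⟨M, m, h'⟩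
    refine ⟨N * M, n + m, ?_⟩
    rw [ev2_mul, ← h, ← h']
    ring
  add_mem' := by
    rintro a b ⟨N, n, h⟩ ⟨M, m, h'⟩
    refine ⟨N * C d ^ m + M * C d ^ n, n + m, ?_⟩
    rw [ev2_add, ev2_mul, ev2_mul, ev2_pow, ev2_pow, ev2_C, ← h, ← h']
    ring
  algebraMap_mem' := by
    intro c
    refine ⟨C (C c), 0, ?_⟩
    rw [ev2_C]
    simp

theorem mem_ringR {j θ : E} {d : ℂ[X]} {e : E} :
    e ∈ ringR j θ d ↔ ∃ (N : ℂ[X][X]) (n : ℕ), e * aeval j d ^ n = ev2 N j θ := Iff.rfl

theorem ev2_mem (j θ : E) (d : ℂ[X]) (N : ℂ[X][X]) : ev2 N j θ ∈ ringR j θ d :=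
  ⟨N, 0, by simp⟩

theorem aeval_mem (j θ : E) (d a : ℂ[X]) : aeval j a ∈ ringR j θ d := by
  rw [← ev2_C a j θ]; exact ev2_mem _ _ _ _

theorem inv_mem (j θ : E) (d : ℂ[X]) (h : aeval j d ≠ 0) : (aeval j d)⁻¹ ∈ ringR j θ d :=
  ⟨1, 1, by simp [h, ev2]⟩

/-- evaluating a bivariate polynomial at a complex point -/
def evC (N : ℂ[X][X]) (J x : ℂ) : ℂ := (N.map (evalRingHom J)).eval x

theorem evC_add (M N : ℂ[X][X]) (J x : ℂ) : evC (M + N) J x = evC M J x + evC N J x := by
  simp [evC]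

theorem evC_mul (M N : ℂ[X][X]) (J x : ℂ) : evC (M * N) J x = evC M J x * evC N J x := by
  simp [evC]

theorem evC_sub (M N : ℂ[X][X]) (J x : ℂ) : evC (M - N) J x = evC M J x - evC N J x := by
  simp [evC]

theorem evC_C (a : ℂ[X]) (J x : ℂ) : evC (C a) J x = a.eval J := by
  simp [evC]

theorem evC_pow (M : ℂ[X][X]) (n : ℕ) (J x : ℂ) : evC (M ^ n) J x = evC M J x ^ n := by
  simp [evC]

section character

variable (j θ : E) (d : ℂ[X]) (J x : ℂ) (hd : d.eval J ≠ 0)
  (hker : ∀ N : ℂ[X][X], ev2 N j θ = 0 → evC N J x = 0)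

/-- the value of the character -/
def chiFun (e : ringR j θ d) : ℂ :=
  evC (mem_ringR.1 e.2).choose J x / d.eval J ^ (mem_ringR.1 e.2).choose_spec.choose

include hd hker in
theorem chiFun_eq (e : ringR j θ d) (N : ℂ[X][X]) (n : ℕ)
    (h : (e : E) * aeval j d ^ n = ev2 N j θ) :
    chiFun j θ d J x e = evC N J x / d.eval J ^ n := by
  have h' := (mem_ringR.1 e.2).choose_spec.choose_spec
  set M := (mem_ringR.1 e.2).choose with hM
  set m := (mem_ringR.1 e.2).choose_spec.choose with hm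
  have h1 : ev2 (M * C d ^ n - N * C d ^ m) j θ = 0 := by
    rw [ev2_sub, ev2_mul, ev2_mul, ev2_pow, ev2_pow, ev2_C, ← h, ← h']
    ring
  have h2 := hker _ h1
  rw [evC_sub, evC_mul, evC_mul, evC_pow, evC_pow, evC_C, sub_eq_zero] at h2
  have h3 : chiFun j θ d J x e = evC M J x / d.eval J ^ m := rfl
  rw [h3, div_eq_div_iff (pow_ne_zero _ hd) (pow_ne_zero _ hd)]
  exact h2

/-- the character -/
def chi : ringR j θ d →ₐ[ℂ] ℂ where
  toFun := chiFun j θ d J x
  map_one' := by
    rw [chiFun_eq j θ d J x hd hker 1 1 0 (by simp [ev2])]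
    simp [evC]
  map_zero' := by
    rw [chiFun_eq j θ d J x hd hker 0 0 0 (by simp [ev2])]
    simp [evC]
  map_mul' := by
    rintro ⟨a, N, n, h⟩ ⟨b, M, m, h'⟩
    rw [chiFun_eq j θ d J x hd hker ⟨a, N, n, h⟩ N n h, chiFun_eq j θ d J x hd hker ⟨b, M, m, h'⟩ M m h',
      chiFun_eq j θ d J x hd hker _ (N * M) (n + m) (by
        show a * b * _ = _
        rw [ev2_mul, ← h, ← h']; ring), evC_mul, pow_add]
    field_simp
  map_add' := by
    rintro ⟨a, N, n, h⟩ ⟨b, M, m, h'⟩
    rw [chiFun_eq j θ d J x hd hker ⟨a, N, n, h⟩ N n h, chiFun_eq j θ d J x hd hker ⟨b, M, m, h'⟩ M m h',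
      chiFun_eq j θ d J x hd hker _ (N * C d ^ m + M * C d ^ n) (n + m) (by
        show (a + b) * _ = _
        rw [ev2_add, ev2_mul, ev2_mul, ev2_pow, ev2_pow, ev2_C, ← h, ← h']; ring), evC_add, evC_mul,
        evC_mul, evC_pow, evC_pow, evC_C, pow_add]
    field_simp
  commutes' := by
    intro c
    rw [chiFun_eq j θ d J x hd hker _ (C (C c)) 0 (by
      rw [ev2_C]
      show algebraMap ℂ E c * _ = _
      simp)]
    simp [evC]

theorem chi_apply (e : ringR j θ d) (N : ℂ[X][X]) (n : ℕ)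
    (h : (e : E) * aeval j d ^ n = ev2 N j θ) :
    chi j θ d J x hd hker e = evC N J x / d.eval J ^ n :=
  chiFun_eq j θ d J x hd hker e N n h

end character

theorem exists_integral_generator {A E : Type*} [CommRing A] [IsDomain A] [IsIntegrallyClosed A]
    [CharZero A] [Field E] [Algebra A E] [FaithfulSMul A E] (halg : ∀ e : E, IsAlgebraic A e)
    (S : Finset E) :
    ∃ (θ : E) (F : A[X]) (b : A), b ≠ 0 ∧ F.Monic ∧ 0 < F.natDegree ∧ aeval θ F = 0 ∧
      (∀ N : A[X], aeval θ N = 0 → F ∣ N) ∧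
      (∃ U V : A[X], U * F + V * derivative F = C b) ∧
      (∀ s ∈ S, ∃ N : A[X], s * algebraMap A E b = aeval θ N) := by
  classical
  let K := FractionRing A
  letI : Algebra K E := FractionRing.liftAlgebra A E
  haveI : IsScalarTower A K E := FractionRing.isScalarTower_liftAlgebra A E
  haveI : CharZero K := charZero_of_injective_algebraMap (IsFractionRing.injective A K)
  have hinj : Function.Injective (algebraMap A E) := FaithfulSMul.algebraMap_injective A E
  have halgK : ∀ e : E, IsAlgebraic K e := fun e =>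
    (IsFractionRing.isAlgebraic_iff A K E).1 (halg e)
  let L : IntermediateField K E := IntermediateField.adjoin K (S : Set E)
  haveI : FiniteDimensional K L :=
    IntermediateField.finiteDimensional_adjoin fun x _ => (halgK x).isIntegral
  obtain ⟨α, hα⟩ := Field.exists_primitive_element K L
  obtain ⟨y, hy0, hyint⟩ := (halg (α : E)).exists_integral_multiple
  set θ : E := y • (α : E) with hθ
  have hyE : algebraMap A E y ≠ 0 := fun h => hy0 (hinj (by rw [h, map_zero]))
  -- every element of `L` is a polynomial in `θ`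
  have hLθ : ∀ s ∈ L, ∃ p : K[X], s = aeval θ p := by
    intro s hs
    have h1 : (IntermediateField.adjoin K {(α : E)}) = L := by
      rw [← IntermediateField.lift_adjoin_simple, hα, IntermediateField.lift_top]
    have h2 : s ∈ IntermediateField.adjoin K {θ} := by
      have h3 : (IntermediateField.adjoin K {(α : E)}) ≤ IntermediateField.adjoin K {θ} := by
        rw [IntermediateField.adjoin_simple_le_iff]
        have h4 : θ ∈ IntermediateField.adjoin K {θ} := IntermediateField.mem_adjoin_simple_self K θ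
        have h5 : (α : E) = algebraMap K E (algebraMap A K y)⁻¹ * θ := by
          rw [hθ, map_inv₀, ← IsScalarTower.algebraMap_apply, Algebra.smul_def, ← mul_assoc,
            inv_mul_cancel₀ hyE, one_mul]
        rw [h5]
        exact mul_mem (IntermediateField.algebraMap_mem _ _) h4
      exact h3 (by rw [h1]; exact hs)
    have h6 : s ∈ (IntermediateField.adjoin K {θ}).toSubalgebra := h2
    rw [IntermediateField.adjoin_simple_toSubalgebra_of_isAlgebraic (halgK θ),
      Algebra.adjoin_singleton_eq_range_aeval] at h6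
    obtain ⟨p, hp⟩ := h6
    exact ⟨p, hp.symm⟩
  -- the minimal polynomial
  have hFK : minpoly K θ = (minpoly A θ).map (algebraMap A K) :=
    minpoly.isIntegrallyClosed_eq_field_fractions' K hyint
  have hsep : (minpoly K θ).Separable := by
    apply Irreducible.separable
    exact minpoly.irreducible (halgK θ).isIntegral
  -- clearing denominators
  have hclear : ∀ p : K[X], ∃ b : A, b ≠ 0 ∧ ∃ q : A[X], q.map (algebraMap A K) = C (algebraMap A K b) * p := by
    intro p
    obtain ⟨b, hb, hb'⟩ := IsLocalization.integerNormalization_spec (nonZeroDivisors A) p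
    refine ⟨b, nonZeroDivisors.ne_zero hb, _, hb'.trans ?_⟩
    rw [Algebra.smul_def]
    rfl
  have hS : ∀ T : Finset E, (∀ s ∈ T, s ∈ L) → ∃ b : A, b ≠ 0 ∧ ∀ s ∈ T, ∃ N : A[X],
      s * algebraMap A E b = aeval θ N := by
    intro T
    induction T using Finset.induction_on with
    | empty => intro _; exact ⟨1, one_ne_zero, by simp⟩
    | insert s T hsT ih =>
      intro hT
      obtain ⟨b, hb, hbT⟩ := ih fun t ht => hT t (Finset.mem_insert_of_mem ht)
      obtain ⟨p, hp⟩ := hLθ s (hT s (Finset.mem_insert_self _ _))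
      obtain ⟨c, hc, q, hq⟩ := hclear p
      refine ⟨b * c, mul_ne_zero hb hc, ?_⟩
      intro t ht
      rcases Finset.mem_insert.1 ht with rfl | ht
      · refine ⟨C b * q, ?_⟩
        have : aeval θ q = algebraMap A E c * t := by
          rw [← aeval_map_algebraMap K, hq, map_mul, aeval_C, ← IsScalarTower.algebraMap_apply, ← hp]
        rw [map_mul, map_mul, aeval_C, this]
        ring
      · obtain ⟨N, hN⟩ := hbT t ht
        refine ⟨N * C c, ?_⟩
        rw [map_mul (aeval θ), aeval_C, ← hN, map_mul (algebraMap A E) b]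
        ring
  obtain ⟨b, hb, hbS⟩ := hS S fun s hs => IntermediateField.subset_adjoin K _ hs
  obtain ⟨U, V, hUV⟩ := hsep
  obtain ⟨c₁, hc₁, U₁, hU₁⟩ := hclear U
  obtain ⟨c₂, hc₂, V₁, hV₁⟩ := hclear V
  have hmapinj : Function.Injective (Polynomial.map (algebraMap A K)) :=
    Polynomial.map_injective _ (IsFractionRing.injective A K)
  have hUV' : (U₁ * C c₂) * minpoly A θ + (V₁ * C c₁) * derivative (minpoly A θ) =
      C (c₁ * c₂) := by
    apply hmapinj
    rw [Polynomial.map_add, Polynomial.map_mul, Polynomial.map_mul, Polynomial.map_mul,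
      Polynomial.map_mul, ← Polynomial.derivative_map, ← hFK, hU₁, hV₁, Polynomial.map_C,
      Polynomial.map_C, Polynomial.map_C, map_mul, C_mul]
    linear_combination (C (algebraMap A K c₁) * C (algebraMap A K c₂)) * hUV
  refine ⟨θ, minpoly A θ, b * (c₁ * c₂), mul_ne_zero hb (mul_ne_zero hc₁ hc₂),
    minpoly.monic hyint, minpoly.natDegree_pos hyint, minpoly.aeval A θ, ?_, ?_, ?_⟩
  · intro N hN
    exact minpoly.isIntegrallyClosed_dvd hyint hN
  · refine ⟨C b * (U₁ * C c₂), C b * (V₁ * C c₁), ?_⟩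
    rw [C_mul, ← hUV']
    ring
  · intro s hs
    obtain ⟨N, hN⟩ := hbS s hs
    refine ⟨N * C (c₁ * c₂), ?_⟩
    rw [map_mul (aeval θ), aeval_C, ← hN, map_mul (algebraMap A E) b]
    ring

end ModelAux

open ModelAux in
theorem exists_model {E : Type} [Field E] [Algebra ℂ E] (D : Derivation ℂ E E) (j : E)
    (hj : Transcendental ℂ j) (hDj : D j = 1)
    (halg : ∀ e : E, IsAlgebraic (IntermediateField.adjoin ℂ {j}) e) (S : Finset E) :
    ∃ M : Model E D j, ↑S ⊆ (M.R : Set E) := by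
  classical
  letI : Algebra ℂ[X] E := (aeval j : ℂ[X] →ₐ[ℂ] E).toRingHom.toAlgebra
  have hinj : Function.Injective (algebraMap ℂ[X] E) := transcendental_iff_injective.1 hj
  haveI : FaithfulSMul ℂ[X] E := (faithfulSMul_iff_algebraMap_injective ℂ[X] E).2 hinj
  have halg' : ∀ e : E, IsAlgebraic ℂ[X] e := by
    intro e
    open scoped IntermediateField.algebraAdjoinAdjoin in
    have h1 : IsAlgebraic (Algebra.adjoin ℂ {j}) e :=
      (IsFractionRing.isAlgebraic_iff (Algebra.adjoin ℂ {j}) (IntermediateField.adjoin ℂ {j}) E).2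
        (halg e)
    have h2 : ∀ p : ℂ[X], aeval j p ∈ Algebra.adjoin ℂ {j} := fun p => by
      rw [Algebra.adjoin_singleton_eq_range_aeval]; exact ⟨p, rfl⟩
    let f : ℂ[X] →ₐ[ℂ] Algebra.adjoin ℂ {j} := (aeval j).codRestrict _ h2
    have hf : Function.Surjective f := by
      rintro ⟨x, hx⟩
      have hx' := hx
      rw [Algebra.adjoin_singleton_eq_range_aeval] at hx'
      obtain ⟨p, hp⟩ := hx'
      exact ⟨p, Subtype.ext hp⟩
    exact IsAlgebraic.of_ringHom_of_comp_eq f (RingHom.id E) (a := e) h1 hf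
      Function.injective_id (by ext x <;> rfl)
  obtain ⟨θ, F, b, hb, hF, hdeg, hroot, hdvd, ⟨U, V, hUV⟩, hS⟩ :=
    exists_integral_generator (A := ℂ[X]) (E := E) halg' S
  have hbj : aeval j b ≠ 0 := fun h => hb (hinj (by rw [map_zero]; exact h))
  have hroot' : ev2 F j θ = 0 := hroot
  have hdvd' : ∀ N : ℂ[X][X], ev2 N j θ = 0 → F ∣ N := hdvd
  have hFθ : ev2 V j θ * ev2 (derivative F) j θ = aeval j b := by
    rw [← ev2_C b j θ, ← hUV, ev2_add, ev2_mul, ev2_mul, hroot', mul_zero, zero_add]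
  -- the derivative of `θ`
  have hDθ : D θ ∈ ringR j θ b := by
    obtain ⟨N₁, hN₁⟩ := exists_deriv D j θ hDj F
    rw [hroot', map_zero] at hN₁
    refine ⟨-(N₁ * V), 1, ?_⟩
    rw [ev2_neg, ev2_mul, pow_one, ← hFθ]
    linear_combination (-ev2 V j θ) * hN₁
  have hD : ∀ e ∈ ringR j θ b, D e ∈ ringR j θ b := by
    rintro e ⟨N, n, h⟩
    obtain ⟨N₁, hN₁⟩ := exists_deriv D j θ hDj N
    have h1 : D (e * aeval j b ^ n) ∈ ringR j θ b := by
      rw [h, hN₁]
      exact add_mem (ev2_mem _ _ _ _) (mul_mem (ev2_mem _ _ _ _) hDθ)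
    have he : e ∈ ringR j θ b := ⟨N, n, h⟩
    have h2 : D (aeval j b ^ n) ∈ ringR j θ b := by
      rw [← map_pow, Derivation.map_aeval, hDj, smul_eq_mul, mul_one]
      exact aeval_mem _ _ _ _
    have h3 : D e = (D (e * aeval j b ^ n) - e * D (aeval j b ^ n)) * ((aeval j b)⁻¹) ^ n := by
      rw [Derivation.leibniz, smul_eq_mul, smul_eq_mul]
      have : aeval j b ^ n * ((aeval j b)⁻¹) ^ n = 1 := by
        rw [← mul_pow, mul_inv_cancel₀ hbj, one_pow]
      linear_combination (-D e) * this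
    rw [h3]
    exact mul_mem (sub_mem h1 (mul_mem he h2)) (pow_mem (inv_mem _ _ _ hbj) n)
  have hjR : j ∈ ringR j θ b := by
    have := aeval_mem j θ b X
    rwa [aeval_X] at this
  have hθR : θ ∈ ringR j θ b := by
    have := ev2_mem j θ b X
    rwa [ev2_X] at this
  refine ⟨⟨ringR j θ b, b, θ, F, hb, hDj, hjR, hθR, hD, inv_mem _ _ _ hbj, hbj, hF, hdeg, hroot',
    ?_, ?_, fun e he => he⟩, ?_⟩
  · intro J hJ
    have h1 := congrArg (Polynomial.map (evalRingHom J)) hUV
    rw [Polynomial.map_add, Polynomial.map_mul, Polynomial.map_mul, Polynomial.map_C,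
      ← Polynomial.derivative_map] at h1
    refine ⟨C (b.eval J)⁻¹ * U.map (evalRingHom J), C (b.eval J)⁻¹ * V.map (evalRingHom J), ?_⟩
    have h2 : C (b.eval J)⁻¹ * C ((evalRingHom J) b) = (1 : ℂ[X]) := by
      rw [coe_evalRingHom, ← C_mul, inv_mul_cancel₀ hJ, C_1]
    linear_combination C (b.eval J)⁻¹ * h1 + h2
  · intro J x hJ hx
    have hker : ∀ N : ℂ[X][X], ev2 N j θ = 0 → evC N J x = 0 := by
      intro N hN
      obtain ⟨Q, rfl⟩ := hdvd' N hN
      rw [evC_mul]
      have : evC F J x = 0 := hx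
      rw [this, zero_mul]
    refine ⟨chi j θ b J x hJ hker, ?_, ?_⟩
    · rw [chi_apply j θ b J x hJ hker _ (C X) 0 (by simp [ev2])]
      simp [evC]
    · rw [chi_apply j θ b J x hJ hker _ X 0 (by simp [ev2])]
      simp [evC]
  · intro s hs
    obtain ⟨N, hN⟩ := hS s hs
    exact ⟨N, 1, by rw [pow_one]; exact hN⟩

end

end Pool.Agent.EllSch
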