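import Pool.Agent.EllSch.RelB
import Pool.Agent.EllSch.Upper

/-! # [ORB] Finite orbits of the modular group -/

open Polynomial Filter Topology

namespace Pool.Agent.EllSch

namespace Orb

/-- a set valued function which is locally constant on a preconnected open set is constant -/
theorem const_of_local {Y : Type*} {H : Set ℂ} (hH : IsPreconnected H) (f : ℂ → Y)
    (hf : ∀ τ ∈ H, ∀ᶠ t in 𝓝 τ, f t = f τ) {τ τ' : ℂ} (h : τ ∈ H) (h' : τ' ∈ H) :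
    f τ = f τ' := by
  have : PreconnectedSpace H := isPreconnected_iff_preconnectedSpace.1 hH
  have hl : IsLocallyConstant (fun x : H => f x) := by
    rw [IsLocallyConstant.iff_eventually_eq]
    intro x
    exact (continuous_subtype_val.tendsto x).eventually (hf x x.2)
  exact hl.apply_eq_of_preconnectedSpace ⟨τ, h⟩ ⟨τ', h'⟩

end Orb

section
variable {E : Type} [Field E] [Algebra ℂ E] {D : Derivation ℂ E E} {j : E} {M : Model E D j}
  {r : ℕ}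

/-- `HH M` is preconnected, open and nonempty -/
theorem isPreconnected_HH (M : Model E D j) : IsPreconnected (HH M) := by
  have h : HH M = {τ : ℂ | 0 < τ.im} \ {τ : ℂ | 0 < τ.im ∧ M.d.eval (jf τ) = 0} := by
    ext τ
    simp only [HH, Set.mem_ofPred_eq, Set.mem_sdiff, ne_eq, not_and]
    constructor
    · rintro ⟨h1, h2⟩
      exact ⟨h1, fun _ => h2⟩
    · rintro ⟨h1, h2⟩
      exact ⟨h1, h2 h1⟩
  rw [h]
  exact isPreconnected_upper_sdiff (jf_countable M.hd)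

theorem isOpen_HH (M : Model E D j) : IsOpen (HH M) := by
  rw [isOpen_iff_mem_nhds]
  rintro τ ⟨h1, h2⟩
  have hc : ContinuousAt (fun t => M.d.eval (jf t)) τ :=
    M.d.continuous.continuousAt.comp (differentiableAt_jf h1).continuousAt
  have e1 : ∀ᶠ t : ℂ in 𝓝 τ, 0 < t.im :=
    (isOpen_lt continuous_const Complex.continuous_im).mem_nhds h1
  have e2 : ∀ᶠ t : ℂ in 𝓝 τ, M.d.eval (jf t) ≠ 0 := hc.eventually_ne h2
  filter_upwards [e1, e2] with t a b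
  exact ⟨a, b⟩

theorem nonempty_HH (M : Model E D j) : (HH M).Nonempty := by
  obtain ⟨ε, hε, h⟩ := jf_discrete M.hd (z := Complex.I) (by simp)
  have hw : Complex.I + ((ε / 2 : ℝ) : ℂ) ∈ Metric.ball Complex.I ε := by
    rw [Metric.mem_ball, dist_eq_norm]
    simp only [add_sub_cancel_left, Complex.norm_real, Real.norm_eq_abs]
    rw [abs_of_pos (by positivity)]
    linarith
  have hne : Complex.I + ((ε / 2 : ℝ) : ℂ) ≠ Complex.I := by
    intro h0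
    have : ((ε / 2 : ℝ) : ℂ) = 0 := by
      have := sub_eq_zero.2 h0
      simpa using this
    rw [Complex.ofReal_eq_zero] at this
    linarith
  exact ⟨_, (h _ hw).1, (h _ hw).2 hne⟩

/-- local branches in the upper half plane: near `τ₀` there are `natDegree F` branches, which
enumerate the characters over `jf t`, and every element has the expected derivative -/
theorem upper_branches (M : Model E D j) {τ₀ : ℂ} (hτ₀ : τ₀ ∈ HH M) :
    ∃ χ : Fin M.F.natDegree → ℂ → (M.R →ₐ[ℂ] ℂ), ∀ᶠ t in 𝓝 τ₀,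
      t ∈ HH M ∧ (∀ i, M.jv (χ i t) = jf t) ∧ (Function.Injective fun i => χ i t) ∧
      (∀ χ' ∈ M.fib (jf t), ∃ i, χ' = χ i t) ∧
      ∀ (i) (e : M.R), HasDerivAt (fun s => χ i s e) (deriv jf t * χ i t ⟨D e, M.hD e e.2⟩) t := by
  obtain ⟨ε, hε, χ, hχ⟩ := M.local_branches hτ₀.2
  refine ⟨fun i t => χ i (jf t), ?_⟩
  have hc : ContinuousAt jf τ₀ := (differentiableAt_jf hτ₀.1).continuousAt
  have e1 : ∀ᶠ t in 𝓝 τ₀, jf t ∈ Metric.ball (jf τ₀) ε :=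
    hc.eventually (Metric.ball_mem_nhds _ hε)
  have e2 : ∀ᶠ t in 𝓝 τ₀, t ∈ HH M := (isOpen_HH M).mem_nhds hτ₀
  filter_upwards [e1, e2] with t a b
  obtain ⟨-, h2, h3, h4, h5⟩ := hχ _ a
  refine ⟨b, fun i => h2 i, h3, fun χ' h' => h4 χ' h', fun i e => ?_⟩
  have h6 := (h5 i e).comp t (differentiableAt_jf b.1).hasDerivAt
  rw [mul_comm] at h6
  exact h6

namespace Orb

variable (T : Fam M r) (c : Fin r → ℂ) (u : E × E)

/-- the set of all possible coordinates `w` over `τ` -/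
def WW (τ : ℂ) : Set (ℂ × ℂ) :=
  {w | ∃ χ, M.jv χ = jf τ ∧ ∃ l p, Rel T c u τ χ l p w}

/-- the set generated by representatives -/
def gen {m : ℕ} (w : Fin m → ℂ × ℂ) : Set (ℂ × ℂ) :=
  {v | ∃ (i : Fin m) (s : ℤ) (n : Fin r → ℤ × ℤ), (s = 1 ∨ s = -1) ∧
    v = ((s : ℂ) * ((w i).1 - ∑ k, c k * (n k).1), (s : ℂ) * ((w i).2 - ∑ k, c k * (n k).2))}

variable {T c u}

theorem WW_eq_gen {t : ℂ} (ht : t ∈ HH M) {m : ℕ} {χ : Fin m → (M.R →ₐ[ℂ] ℂ)}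
    (h1 : ∀ i, M.jv (χ i) = jf t) (h2 : ∀ χ' ∈ M.fib (jf t), ∃ i, χ' = χ i)
    {l : Fin m → ℂ} {p : Fin m → Fin r → ℂ} {w : Fin m → ℂ × ℂ}
    (h3 : ∀ i, Rel T c u t (χ i) (l i) (p i) (w i)) : WW T c u t = gen c w := by
  ext v
  constructor
  · rintro ⟨χ', hχ', l', p', hv⟩
    obtain ⟨i, rfl⟩ := h2 χ' hχ'
    obtain ⟨s, n, hs, -, -, e1, e2⟩ := rel_unique ht hχ' (h3 i) hv
    exact ⟨i, s, n, hs, Prod.ext e1 e2⟩
  · rintro ⟨i, s, n, hs, rfl⟩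
    have h4 := rel_shift ht (h3 i) n
    rcases hs with rfl | rfl
    · refine ⟨χ i, h1 i, l i, fun k => p i k + lat (l i) (l i * t) (n k), ?_⟩
      convert h4 using 2 <;> simp
    · refine ⟨χ i, h1 i, -l i, fun k => p i k + lat (l i) (l i * t) (n k), ?_⟩
      convert rel_neg ht h4 using 2 <;> simp

theorem WW_local (hu1 : u.1 ∈ M.R) (hu2 : u.2 ∈ M.R)
    (heq : nab T.g2 T.g3 D u = ∑ i, algebraMap ℂ E (c i) • src T.g2 T.g3 (T.x i) (T.y i) D)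
    {τ₀ : ℂ} (hτ₀ : τ₀ ∈ HH M) :
    ∃ w : Fin M.F.natDegree → ℂ × ℂ, ∀ᶠ t in 𝓝 τ₀, WW T c u t = gen c w := by
  obtain ⟨χ, hχ⟩ := upper_branches M hτ₀
  have h0 := hχ.self_of_nhds
  have hex : ∀ i, ∃ (l : ℂ) (p : Fin r → ℂ) (w : ℂ × ℂ), Rel T c u τ₀ (χ i τ₀) l p w := by
    intro i
    obtain ⟨l, p, hlp⟩ := exists_rel0 T hτ₀ (h0.2.1 i)
    obtain ⟨w, hw⟩ := exists_w T c u hτ₀ hlp
    exact ⟨l, p, w, hw⟩
  choose l p w hw using hex
  refine ⟨w, ?_⟩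
  have hloc : ∀ i, ∃ (l' : ℂ → ℂ) (p' : ℂ → Fin r → ℂ), ∀ᶠ t in 𝓝 τ₀,
      Rel T c u t (χ i t) (l' t) (p' t) (w i) := by
    intro i
    obtain ⟨l', p', -, -, h⟩ := rel_local T c u hu1 hu2 heq hτ₀ (χ i)
      (hχ.mono fun t ht => ht.2.1 i) (fun e => hχ.mono fun t ht => ht.2.2.2.2 i e) (hw i)
    exact ⟨l', p', h.mono fun t ht => ht.1⟩
  choose l' p' hlp using hloc
  filter_upwards [hχ, eventually_all.2 hlp] with t ht ht'
  exact WW_eq_gen ht.1 ht.2.1 ht.2.2.2.1 ht'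

theorem WW_const (hu1 : u.1 ∈ M.R) (hu2 : u.2 ∈ M.R)
    (heq : nab T.g2 T.g3 D u = ∑ i, algebraMap ℂ E (c i) • src T.g2 T.g3 (T.x i) (T.y i) D)
    {τ τ' : ℂ} (hτ : τ ∈ HH M) (hτ' : τ' ∈ HH M) : WW T c u τ = WW T c u τ' := by
  refine const_of_local (isPreconnected_HH M) (WW T c u) ?_ hτ hτ'
  intro t ht
  obtain ⟨w, hw⟩ := WW_local hu1 hu2 heq ht
  have h0 := hw.self_of_nhds
  filter_upwards [hw] with s hs
  rw [hs, h0]

theorem WW_T {τ : ℂ} (hτ : τ ∈ HH M) {w : ℂ × ℂ} (h : w ∈ WW T c u τ) :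
    (w.1 - w.2, w.2) ∈ WW T c u (τ + 1) := by
  obtain ⟨χ, hχ, l, p, hr⟩ := h
  exact ⟨χ, by rw [hχ, jf_add_one], l, p, rel_T hτ hr⟩

theorem WW_S {τ : ℂ} (hτ : τ ∈ HH M) {w : ℂ × ℂ} (h : w ∈ WW T c u τ) :
    (w.2, -w.1) ∈ WW T c u (-1 / τ) := by
  obtain ⟨χ, hχ, l, p, hr⟩ := h
  exact ⟨χ, by rw [hχ, jf_S hτ.1], _, p, rel_S hτ hr⟩

theorem sum_mem (c : Fin r → ℂ) (n : Fin r → ℤ) :
    ∑ k, c k * (n k : ℂ) ∈ AddSubgroup.closure (Set.range c) := by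
  refine AddSubgroup.sum_mem _ fun k _ => ?_
  have h : c k * (n k : ℂ) = n k • c k := by
    rw [zsmul_eq_mul, mul_comm]
  rw [h]
  exact AddSubgroup.zsmul_mem _ (AddSubgroup.subset_closure (Set.mem_range_self k)) _

/-- pigeonhole: a set invariant under `(w₁, w₂) ↦ (w₁ - w₂, w₂)` and generated by `m`
representatives -/
theorem pigeon {m : ℕ} {w : Fin m → ℂ × ℂ} (hT : ∀ v ∈ gen c w, (v.1 - v.2, v.2) ∈ gen c w)
    {v : ℂ × ℂ} (hv : v ∈ gen c w) :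
    ((Nat.factorial (2 * m) : ℕ) : ℂ) * v.2 ∈ AddSubgroup.closure (Set.range c) := by
  have hTk : ∀ k : ℕ, (v.1 - k * v.2, v.2) ∈ gen c w := by
    intro k
    induction k with
    | zero => simpa using hv
    | succ k ih =>
      have := hT _ ih
      convert this using 2
      push_cast
      ring
  choose i s n hs he using fun k : ℕ => hTk k
  let f : Fin (2 * m + 1) → Fin m × Bool := fun k => (i k, decide (s k = 1))
  obtain ⟨a, b, hab, hf⟩ := Fintype.exists_ne_map_eq_of_card_lt f (by simp; omega)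
  have key : ∀ a b : ℕ, a < b → b ≤ 2 * m → i a = i b → s a = s b →
      ((Nat.factorial (2 * m) : ℕ) : ℂ) * v.2 ∈ AddSubgroup.closure (Set.range c) := by
    intro a b hab hb hi hss
    have e1 := congrArg Prod.fst (he a)
    have e2 := congrArg Prod.fst (he b)
    simp only at e1 e2
    have e3 : ((b - a : ℕ) : ℂ) * v.2 = (s a : ℂ) * (∑ k, c k * ((n b k).1 : ℂ)) -
        (s a : ℂ) * (∑ k, c k * ((n a k).1 : ℂ)) := by
      rw [Nat.cast_sub hab.le]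
      rw [← hi, ← hss] at e2
      linear_combination e1 - e2
    have h3 : ((b - a : ℕ) : ℂ) * v.2 ∈ AddSubgroup.closure (Set.range c) := by
      rw [e3]
      have h4 : ∀ x ∈ AddSubgroup.closure (Set.range c), (s a : ℂ) * x ∈
          AddSubgroup.closure (Set.range c) := by
        intro x hx
        rw [← zsmul_eq_mul]
        exact AddSubgroup.zsmul_mem _ hx _
      exact AddSubgroup.sub_mem _ (h4 _ (sum_mem c fun k => (n b k).1))
        (h4 _ (sum_mem c fun k => (n a k).1))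
    obtain ⟨q, hq⟩ : (b - a) ∣ Nat.factorial (2 * m) :=
      Nat.dvd_factorial (by omega) (by omega)
    rw [hq, Nat.cast_mul, mul_comm ((b - a : ℕ) : ℂ), mul_assoc, ← nsmul_eq_mul]
    exact AddSubgroup.nsmul_mem _ h3 _
  simp only [f, Prod.mk.injEq] at hf
  have hss : s a = s b := by
    have h5 := hf.2
    rcases hs a with h | h <;> rcases hs b with h' | h' <;> simp [h, h'] at h5 ⊢
  have hne : (a : ℕ) ≠ b := fun h => hab (Fin.ext h)
  rcases lt_or_gt_of_ne hne with h | h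
  · exact key a b h (by omega) hf.1 hss
  · exact key b a h (by omega) hf.1.symm hss.symm

end Orb

/-- the coordinates `w` are torsion modulo the group generated by the coefficients `c` -/
theorem orbit (T : Fam M r) (c : Fin r → ℂ) (u : E × E) (hu1 : u.1 ∈ M.R) (hu2 : u.2 ∈ M.R)
    (heq : nab T.g2 T.g3 D u = ∑ i, algebraMap ℂ E (c i) • src T.g2 T.g3 (T.x i) (T.y i) D) :
    ∃ N₀ : ℕ, 0 < N₀ ∧ ∀ τ ∈ HH M, ∀ χ, M.jv χ = jf τ → ∀ l p w, Rel T c u τ χ l p w →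
      (N₀ : ℂ) * w.1 ∈ AddSubgroup.closure (Set.range c) ∧
      (N₀ : ℂ) * w.2 ∈ AddSubgroup.closure (Set.range c) := by
  refine ⟨Nat.factorial (2 * M.F.natDegree), Nat.factorial_pos _, ?_⟩
  intro τ hτ χ hχ l p w hw
  obtain ⟨w₀, hw₀⟩ := Orb.WW_local hu1 hu2 heq hτ
  have h0 : Orb.WW T c u τ = Orb.gen c w₀ := hw₀.self_of_nhds
  have hT : ∀ v ∈ Orb.gen c w₀, (v.1 - v.2, v.2) ∈ Orb.gen c w₀ := by
    intro v hv
    rw [← h0] at hv ⊢
    rw [Orb.WW_const hu1 hu2 heq hτ (HH_T.2 hτ)]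
    exact Orb.WW_T hτ hv
  have hS : ∀ v ∈ Orb.gen c w₀, (v.2, -v.1) ∈ Orb.gen c w₀ := by
    intro v hv
    rw [← h0] at hv ⊢
    rw [Orb.WW_const hu1 hu2 heq hτ (HH_S hτ)]
    exact Orb.WW_S hτ hv
  have hmem : w ∈ Orb.gen c w₀ := by
    rw [← h0]
    exact ⟨χ, hχ, l, p, hw⟩
  constructor
  · have h1 := Orb.pigeon hT (hS _ hmem)
    simp only [mul_neg] at h1
    exact (AddSubgroup.neg_mem_iff _).1 h1
  · exact Orb.pigeon hT hmem

namespace Orb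

section Ric

variable {T : Fam M 0} {ρ : E}

/-- the linear condition on `v` attached to a character -/
def LL (T : Fam M 0) (ρ : E) (τ : ℂ) (χ : M.R →ₐ[ℂ] ℂ) (v : ℂ × ℂ) : Prop :=
  ∃ l p, Rel0 T τ χ l p ∧
    M.vl χ ρ * (l * v.1 + l * τ * v.2) = eta1 l (l * τ) * v.1 + eta2 l (l * τ) * v.2

theorem LL_T {τ : ℂ} (hτ : τ ∈ HH M) {χ : M.R →ₐ[ℂ] ℂ} {v : ℂ × ℂ} (h : LL T ρ τ χ v) :
    LL T ρ (τ + 1) χ (v.1 - v.2, v.2) := by
  obtain ⟨l, p, h0, hv⟩ := h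
  have h1 : Rel T 0 (algebraMap ℂ E (l * v.1 + l * τ * v.2),
      algebraMap ℂ E (eta1 l (l * τ) * v.1 + eta2 l (l * τ) * v.2)) τ χ l p v := by
    refine ⟨h0, ?_, ?_⟩ <;> rw [vl_const] <;> simp
  obtain ⟨h2, h3, h4⟩ := rel_T hτ h1
  refine ⟨l, p, h2, ?_⟩
  simp only [vl_const, Finset.univ_eq_empty, Finset.sum_empty, zero_add] at h3 h4
  rw [← h3, ← h4, hv]

theorem LL_S {τ : ℂ} (hτ : τ ∈ HH M) {χ : M.R →ₐ[ℂ] ℂ} {v : ℂ × ℂ} (h : LL T ρ τ χ v) :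
    LL T ρ (-1 / τ) χ (v.2, -v.1) := by
  obtain ⟨l, p, h0, hv⟩ := h
  have h1 : Rel T 0 (algebraMap ℂ E (l * v.1 + l * τ * v.2),
      algebraMap ℂ E (eta1 l (l * τ) * v.1 + eta2 l (l * τ) * v.2)) τ χ l p v := by
    refine ⟨h0, ?_, ?_⟩ <;> rw [vl_const] <;> simp
  obtain ⟨h2, h3, h4⟩ := rel_S hτ h1
  refine ⟨l * τ, p, h2, ?_⟩
  simp only [vl_const, Finset.univ_eq_empty, Finset.sum_empty, zero_add] at h3 h4
  rw [← h3, ← h4, hv]

/-- the linear form is not zero -/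
theorem form_ne {τ l e : ℂ} (hτ : τ ∈ HH M) (hl : l ≠ 0)
    (h1 : e * l - eta1 l (l * τ) = 0) (h2 : e * (l * τ) - eta2 l (l * τ) = 0) : False := by
  apply det_ne_zero (Ind_scale hτ.1 hl)
  unfold det
  linear_combination (l * τ) * h1 - l * h2

/-- proportionality -/
theorem prop_of {a b : ℂ} (hab : ¬(a = 0 ∧ b = 0)) {x y : ℂ × ℂ} (hx : a * x.1 + b * x.2 = 0)
    (hy : a * y.1 + b * y.2 = 0) (hy0 : y ≠ 0) : ∃ k : ℂ, x = (k * y.1, k * y.2) := by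
  have hd : x.1 * y.2 = x.2 * y.1 := by
    by_cases ha : a = 0
    · have hb : b ≠ 0 := fun hb => hab ⟨ha, hb⟩
      subst ha
      have e1 : x.2 = 0 := by simpa [hb] using hx
      have e2 : y.2 = 0 := by simpa [hb] using hy
      rw [e1, e2]
      ring
    · have h1 : a * (x.1 * y.2 - x.2 * y.1) = 0 := by
        linear_combination y.2 * hx - x.2 * hy
      exact sub_eq_zero.1 ((mul_eq_zero.1 h1).resolve_left ha)
  by_cases h1 : y.1 = 0
  · have h2 : y.2 ≠ 0 := fun h2 => hy0 (Prod.ext h1 h2)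
    refine ⟨x.2 / y.2, Prod.ext ?_ ?_⟩
    · have : x.1 * y.2 = 0 := by rw [hd, h1, mul_zero]
      have h3 : x.1 = 0 := (mul_eq_zero.1 this).resolve_right h2
      simp [h3, h1]
    · field_simp
  · refine ⟨x.1 / y.1, Prod.ext ?_ ?_⟩
    · field_simp
    · simp only
      field_simp
      exact hd.symm

/-- the union of all the lines over `τ` -/
def VV (T : Fam M 0) (ρ : E) (τ : ℂ) : Set (ℂ × ℂ) := {v | ∃ χ, M.jv χ = jf τ ∧ LL T ρ τ χ v}

/-- the union of the lines spanned by the `v i` -/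
def lin {m : ℕ} (v : Fin m → ℂ × ℂ) : Set (ℂ × ℂ) :=
  {x | ∃ (i : Fin m) (k : ℂ), x = (k * (v i).1, k * (v i).2)}

theorem VV_local (hρ : ρ ∈ M.R)
    (heq : D ρ = -(be T.g2 T.g3 D * (T.g2 / 12)) - 2 * al T.g2 T.g3 D * ρ
      - be T.g2 T.g3 D * ρ ^ 2) {τ₀ : ℂ} (hτ₀ : τ₀ ∈ HH M) :
    ∃ v : Fin M.F.natDegree → ℂ × ℂ, (∀ i, v i ≠ 0) ∧ ∀ᶠ t in 𝓝 τ₀, VV T ρ t = lin v := by
  obtain ⟨χ, hχ⟩ := upper_branches M hτ₀
  have h0 := hχ.self_of_nhds
  have hex : ∀ i, ∃ (l : ℂ) (p : Fin 0 → ℂ), Rel0 T τ₀ (χ i τ₀) l p := fun i =>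
    exists_rel0 T hτ₀ (h0.2.1 i)
  choose l p hlp using hex
  let v : Fin M.F.natDegree → ℂ × ℂ := fun i =>
    (-(M.vl (χ i τ₀) ρ * (l i * τ₀) - eta2 (l i) (l i * τ₀)),
      M.vl (χ i τ₀) ρ * l i - eta1 (l i) (l i * τ₀))
  have hv0 : ∀ i, v i ≠ 0 := by
    intro i hi
    have e1 := congrArg Prod.fst hi
    have e2 := congrArg Prod.snd hi
    simp only [v, Prod.fst_zero, Prod.snd_zero, neg_eq_zero] at e1 e2
    exact form_ne hτ₀ (hlp i).1 e2 e1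
  refine ⟨v, hv0, ?_⟩
  have hloc : ∀ i, ∀ᶠ t in 𝓝 τ₀, ∀ l : ℂ,
      l ^ 2 = G3 1 t * M.vl (χ i t) T.g2 / (G2 1 t * M.vl (χ i t) T.g3) →
      M.vl (χ i t) ρ * (l * (v i).1 + l * t * (v i).2) =
        eta1 l (l * t) * (v i).1 + eta2 l (l * t) * (v i).2 := by
    intro i
    refine riccati_local T ρ hρ heq hτ₀ (χ i) (hχ.mono fun t ht => ht.2.1 i)
      (fun e => hχ.mono fun t ht => ht.2.2.2.2 i e) ((hlp i).sq hτ₀ (h0.2.1 i)) ?_
    simp only [v]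
    ring
  filter_upwards [hχ, eventually_all.2 hloc] with t ht ht'
  ext x
  constructor
  · rintro ⟨χ', hχ', l', p', hr, hx⟩
    obtain ⟨i, rfl⟩ := ht.2.2.2.1 χ' hχ'
    have h1 := ht' i l' (hr.sq ht.1 hχ')
    obtain ⟨k, hk⟩ := prop_of (a := M.vl (χ i t) ρ * l' - eta1 l' (l' * t))
      (b := M.vl (χ i t) ρ * (l' * t) - eta2 l' (l' * t)) (x := x) (y := v i)
      (fun h => form_ne ht.1 hr.1 h.1 h.2) (by linear_combination hx)
      (by linear_combination h1) (hv0 i)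
    exact ⟨i, k, hk⟩
  · rintro ⟨i, k, rfl⟩
    obtain ⟨l', p', hr⟩ := exists_rel0 T ht.1 (ht.2.1 i)
    refine ⟨χ i t, ht.2.1 i, l', p', hr, ?_⟩
    have h1 := ht' i l' (hr.sq ht.1 (ht.2.1 i))
    simp only
    linear_combination k * h1

theorem VV_const (hρ : ρ ∈ M.R)
    (heq : D ρ = -(be T.g2 T.g3 D * (T.g2 / 12)) - 2 * al T.g2 T.g3 D * ρ
      - be T.g2 T.g3 D * ρ ^ 2)
    {τ τ' : ℂ} (hτ : τ ∈ HH M) (hτ' : τ' ∈ HH M) : VV T ρ τ = VV T ρ τ' := by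
  refine const_of_local (isPreconnected_HH M) (VV T ρ) ?_ hτ hτ'
  intro t ht
  obtain ⟨v, -, hv⟩ := VV_local hρ heq ht
  have h0 := hv.self_of_nhds
  filter_upwards [hv] with s hs
  rw [hs, h0]

theorem pigeon2 {m : ℕ} {w : Fin m → ℂ × ℂ} (hT : ∀ v ∈ lin w, (v.1 - v.2, v.2) ∈ lin w)
    {v : ℂ × ℂ} (hv : v ∈ lin w) : v.2 = 0 := by
  have hTk : ∀ k : ℕ, (v.1 - k * v.2, v.2) ∈ lin w := by
    intro k
    induction k with
    | zero => simpa using hv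
    | succ k ih =>
      have := hT _ ih
      convert this using 2
      push_cast
      ring
  choose i s he using fun k : ℕ => hTk k
  obtain ⟨a, b, hab, hf⟩ := Fintype.exists_ne_map_eq_of_card_lt
    (fun k : Fin (m + 1) => i k) (by simp)
  replace hf : i a = i b := hf
  have e1 := he a
  have e2 := he b
  rw [← hf] at e2
  simp only [Prod.mk.injEq] at e1 e2
  by_contra h2
  have hw : (w (i a)).2 ≠ 0 := by
    intro h3
    rw [h3, mul_zero] at e1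
    exact h2 e1.2
  have hs : s a = s b := mul_right_cancel₀ hw (e1.2.symm.trans e2.2)
  have h3 : ((a : ℕ) : ℂ) * v.2 = ((b : ℕ) : ℂ) * v.2 := by
    rw [← hs] at e2
    linear_combination e2.1 - e1.1
  have h4 := mul_right_cancel₀ h2 h3
  exact hab (Fin.ext (Nat.cast_injective h4))

end Ric

end Orb

/-- the Riccati equation has no solution in the function field -/
theorem no_riccati1 (T : Fam M 0) (ρ : E) (hρ : ρ ∈ M.R)
    (heq : D ρ = -(be T.g2 T.g3 D * (T.g2 / 12)) - 2 * al T.g2 T.g3 D * ρ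
      - be T.g2 T.g3 D * ρ ^ 2) : False := by
  obtain ⟨τ, hτ⟩ := nonempty_HH M
  obtain ⟨v, hv0, hv⟩ := Orb.VV_local hρ heq hτ
  have h0 : Orb.VV T ρ τ = Orb.lin v := hv.self_of_nhds
  have hT : ∀ x ∈ Orb.lin v, (x.1 - x.2, x.2) ∈ Orb.lin v := by
    intro x hx
    rw [← h0] at hx ⊢
    rw [Orb.VV_const hρ heq hτ (HH_T.2 hτ)]
    obtain ⟨χ, hχ, h⟩ := hx
    exact ⟨χ, by rw [hχ, jf_add_one], Orb.LL_T hτ h⟩
  have hS : ∀ x ∈ Orb.lin v, (x.2, -x.1) ∈ Orb.lin v := by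
    intro x hx
    rw [← h0] at hx ⊢
    rw [Orb.VV_const hρ heq hτ (HH_S hτ)]
    obtain ⟨χ, hχ, h⟩ := hx
    exact ⟨χ, by rw [hχ, jf_S hτ.1], Orb.LL_S hτ h⟩
  have hm : v ⟨0, M.hdeg⟩ ∈ Orb.lin v := ⟨⟨0, M.hdeg⟩, 1, by simp⟩
  have h2 := Orb.pigeon2 hT hm
  have h1 := Orb.pigeon2 hT (hS _ hm)
  simp only [neg_eq_zero] at h1
  exact hv0 _ (Prod.ext h1 h2)

end

end Pool.Agent.EllSch
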