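import Pool.Agent.EllSch.T5Defs
import Pool.Agent.EllSch.Basic
import Pool.Agent.EllSch.JFun
import Pool.Agent.EllSch.Branch

/-! # [RELa] Existence, uniqueness and equivariance for the relation `Rel` -/

set_option linter.all false

open Polynomial

namespace Pool.Agent.EllSch

section
variable {E : Type} [Field E] [Algebra ℂ E] {D : Derivation ℂ E E} {j : E} {M : Model E D j}
  {r : ℕ}

/-! values of characters -/
theorem vl_of_mem (M : Model E D j) (χ : M.R →ₐ[ℂ] ℂ) {e : E} (h : e ∈ M.R) :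
    M.vl χ e = χ ⟨e, h⟩ := by
  unfold Model.vl
  rw [dif_pos h]

theorem vl_add (M : Model E D j) (χ : M.R →ₐ[ℂ] ℂ) {e f : E} (he : e ∈ M.R) (hf : f ∈ M.R) :
    M.vl χ (e + f) = M.vl χ e + M.vl χ f := by
  rw [vl_of_mem M χ (add_mem he hf), vl_of_mem M χ he, vl_of_mem M χ hf, ← map_add]
  rfl

theorem vl_sub (M : Model E D j) (χ : M.R →ₐ[ℂ] ℂ) {e f : E} (he : e ∈ M.R) (hf : f ∈ M.R) :
    M.vl χ (e - f) = M.vl χ e - M.vl χ f := by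
  rw [vl_of_mem M χ (sub_mem he hf), vl_of_mem M χ he, vl_of_mem M χ hf, ← map_sub]
  rfl

theorem vl_mul (M : Model E D j) (χ : M.R →ₐ[ℂ] ℂ) {e f : E} (he : e ∈ M.R) (hf : f ∈ M.R) :
    M.vl χ (e * f) = M.vl χ e * M.vl χ f := by
  rw [vl_of_mem M χ (mul_mem he hf), vl_of_mem M χ he, vl_of_mem M χ hf, ← map_mul]
  rfl

theorem vl_pow (M : Model E D j) (χ : M.R →ₐ[ℂ] ℂ) {e : E} (he : e ∈ M.R) (n : ℕ) :
    M.vl χ (e ^ n) = M.vl χ e ^ n := by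
  rw [vl_of_mem M χ (pow_mem he n), vl_of_mem M χ he, ← map_pow]
  rfl

theorem vl_const (M : Model E D j) (χ : M.R →ₐ[ℂ] ℂ) (z : ℂ) :
    M.vl χ (algebraMap ℂ E z) = z := by
  rw [vl_of_mem M χ (M.R.algebraMap_mem z)]
  exact χ.commutes z

theorem vl_inv (M : Model E D j) (χ : M.R →ₐ[ℂ] ℂ) {e : E} (he : e ∈ M.R) (he' : e⁻¹ ∈ M.R)
    (h0 : e ≠ 0) : M.vl χ e⁻¹ = (M.vl χ e)⁻¹ ∧ M.vl χ e ≠ 0 := by
  have h1 : M.vl χ e * M.vl χ e⁻¹ = 1 := by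
    rw [← vl_mul M χ he he', mul_inv_cancel₀ h0, ← map_one (algebraMap ℂ E), vl_const]
  exact ⟨eq_inv_of_mul_eq_one_right h1, left_ne_zero_of_mul_eq_one h1⟩

/-- the value at `j` -/
theorem vl_j (M : Model E D j) (χ : M.R →ₐ[ℂ] ℂ) : M.vl χ j = M.jv χ := vl_of_mem M χ M.hj

/-- transport of the curve equation and of the value of `j` -/
theorem vl_curve (T : Fam M r) (χ : M.R →ₐ[ℂ] ℂ) (i : Fin r) :
    M.vl χ (T.y i) ^ 2 = 4 * M.vl χ (T.x i) ^ 3 - M.vl χ T.g2 * M.vl χ (T.x i) - M.vl χ T.g3 ∧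
    M.vl χ (T.y i) ≠ 0 := by
  refine ⟨?_, (vl_inv M χ (T.hy i) (T.hy' i) (T.hy0 i)).2⟩
  have h : (⟨T.y i, T.hy i⟩ : M.R) ^ 2 = 4 * (⟨T.x i, T.hx i⟩ : M.R) ^ 3 -
      (⟨T.g2, T.hg2⟩ : M.R) * (⟨T.x i, T.hx i⟩ : M.R) - (⟨T.g3, T.hg3⟩ : M.R) :=
    Subtype.ext (T.hxy i)
  have h1 := congrArg χ h
  rw [map_pow, map_sub, map_sub, map_mul, map_mul, map_pow, map_ofNat] at h1
  rw [vl_of_mem M χ (T.hy i), vl_of_mem M χ (T.hx i), vl_of_mem M χ T.hg2, vl_of_mem M χ T.hg3]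
  exact h1

theorem vl_disc (T : Fam M r) (χ : M.R →ₐ[ℂ] ℂ) :
    M.vl χ T.g2 ≠ 0 ∧ M.vl χ T.g3 ≠ 0 ∧ M.vl χ T.g2 ^ 3 - 27 * M.vl χ T.g3 ^ 2 ≠ 0 ∧
    M.jv χ = 1728 * M.vl χ T.g2 ^ 3 / (M.vl χ T.g2 ^ 3 - 27 * M.vl χ T.g3 ^ 2) := by
  have h1 := (vl_inv M χ T.hg2 T.hg2' T.hg20).2
  have h2 := (vl_inv M χ T.hg3 T.hg3' T.hg30).2
  have e2 : M.vl χ T.g2 = χ ⟨T.g2, T.hg2⟩ := vl_of_mem M χ T.hg2
  have e3 : M.vl χ T.g3 = χ ⟨T.g3, T.hg3⟩ := vl_of_mem M χ T.hg3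
  have h3 : ((⟨T.g2, T.hg2⟩ : M.R) ^ 3 - 27 * (⟨T.g3, T.hg3⟩ : M.R) ^ 2) *
      (⟨_, T.hΔ'⟩ : M.R) = 1 := Subtype.ext (mul_inv_cancel₀ T.hΔ)
  have h4 := congrArg χ h3
  rw [map_mul, map_sub, map_mul, map_pow, map_pow, map_ofNat, map_one, ← e2, ← e3] at h4
  have h5 : M.vl χ T.g2 ^ 3 - 27 * M.vl χ T.g3 ^ 2 ≠ 0 := left_ne_zero_of_mul_eq_one h4
  refine ⟨h1, h2, h5, ?_⟩
  have h6 : (⟨j, M.hj⟩ : M.R) * ((⟨T.g2, T.hg2⟩ : M.R) ^ 3 - 27 * (⟨T.g3, T.hg3⟩ : M.R) ^ 2) =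
      1728 * (⟨T.g2, T.hg2⟩ : M.R) ^ 3 := by
    apply Subtype.ext
    show j * (T.g2 ^ 3 - 27 * T.g3 ^ 2) = 1728 * T.g2 ^ 3
    exact (eq_div_iff T.hΔ).1 T.hj
  have h7 := congrArg χ h6
  rw [map_mul, map_sub, map_mul, map_mul, map_pow, map_pow, map_ofNat, map_ofNat, ← e2, ← e3] at h7
  rw [eq_div_iff h5]
  exact h7

theorem jf_mul {τ : ℂ} (hτ : 0 < τ.im) :
    jf τ * (G2 1 τ ^ 3 - 27 * G3 1 τ ^ 2) = 1728 * G2 1 τ ^ 3 :=
  div_mul_cancel₀ _ (disc_ne_zero (ind_one hτ))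

/-- if `χ` lies over `jf τ` then `G2 1 τ` and `G3 1 τ` do not vanish -/
theorem G_ne_zero (T : Fam M r) {τ : ℂ} (hτ : τ ∈ HH M) {χ : M.R →ₐ[ℂ] ℂ}
    (hχ : M.jv χ = jf τ) : G2 1 τ ≠ 0 ∧ G3 1 τ ≠ 0 := by
  obtain ⟨h2, h3, hd, hj⟩ := vl_disc T χ
  have hD := disc_ne_zero (ind_one hτ.1)
  have hm := jf_mul hτ.1
  rw [← hχ] at hm
  have hj' : M.jv χ * (M.vl χ T.g2 ^ 3 - 27 * M.vl χ T.g3 ^ 2) = 1728 * M.vl χ T.g2 ^ 3 := by
    rw [hj]; exact div_mul_cancel₀ _ hd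
  constructor
  · intro h
    rw [h] at hm hD
    have h4 : M.jv χ = 0 := by
      have : M.jv χ * (0 ^ 3 - 27 * G3 1 τ ^ 2) = 0 := by rw [hm]; ring
      exact (mul_eq_zero.1 this).resolve_right hD
    rw [h4, zero_mul] at hj'
    have h5 : M.vl χ T.g2 ^ 3 = 0 := by
      have : (1728 : ℂ) ≠ 0 := by norm_num
      exact (mul_eq_zero.1 hj'.symm).resolve_left this
    exact h2 (pow_eq_zero_iff (by norm_num) |>.1 h5)
  · intro h
    rw [h] at hm hD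
    have h4 : M.jv χ = 1728 := by
      have : (M.jv χ - 1728) * (G2 1 τ ^ 3 - 27 * 0 ^ 2) = 0 := by linear_combination hm
      exact sub_eq_zero.1 ((mul_eq_zero.1 this).resolve_right hD)
    rw [h4] at hj'
    have h5 : M.vl χ T.g3 ^ 2 = 0 := by
      linear_combination (-1 / (1728 * 27)) * hj'
    exact h3 (pow_eq_zero_iff (by norm_num) |>.1 h5)

/-- equality of the `j`-invariants -/
theorem jeq (T : Fam M r) {τ : ℂ} (hτ : τ ∈ HH M) {χ : M.R →ₐ[ℂ] ℂ}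
    (hχ : M.jv χ = jf τ) :
    G2 1 τ ^ 3 * M.vl χ T.g3 ^ 2 = M.vl χ T.g2 ^ 3 * G3 1 τ ^ 2 := by
  obtain ⟨h2, h3, hd, hj⟩ := vl_disc T χ
  have hD := disc_ne_zero (ind_one hτ.1)
  have hm := jf_mul hτ.1
  rw [← hχ] at hm
  have hj' : M.jv χ * (M.vl χ T.g2 ^ 3 - 27 * M.vl χ T.g3 ^ 2) = 1728 * M.vl χ T.g2 ^ 3 := by
    rw [hj]; exact div_mul_cancel₀ _ hd
  have key : G2 1 τ ^ 3 * (M.vl χ T.g2 ^ 3 - 27 * M.vl χ T.g3 ^ 2) =
      M.vl χ T.g2 ^ 3 * (G2 1 τ ^ 3 - 27 * G3 1 τ ^ 2) := by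
    linear_combination (1 / 1728) * (G2 1 τ ^ 3 - 27 * G3 1 τ ^ 2) * hj' -
      (1 / 1728) * (M.vl χ T.g2 ^ 3 - 27 * M.vl χ T.g3 ^ 2) * hm
  linear_combination (-1 / 27) * key

theorem G2_scale {l τ : ℂ} (hl : l ≠ 0) : G2 l (l * τ) = G2 1 τ / l ^ 4 := by
  have := G2_smul (a := 1) (b := τ) hl
  rwa [mul_one] at this

theorem G3_scale {l τ : ℂ} (hl : l ≠ 0) : G3 l (l * τ) = G3 1 τ / l ^ 6 := by
  have := G3_smul (a := 1) (b := τ) hl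
  rwa [mul_one] at this

/-- the square of the scaling factor -/
theorem Rel0.sq {T : Fam M r} {τ : ℂ} (hτ : τ ∈ HH M) {χ : M.R →ₐ[ℂ] ℂ} (hχ : M.jv χ = jf τ)
    {l : ℂ} {p : Fin r → ℂ} (h : Rel0 T τ χ l p) :
    l ^ 2 = G3 1 τ * M.vl χ T.g2 / (G2 1 τ * M.vl χ T.g3) := by
  obtain ⟨h2, h3, hd, hj⟩ := vl_disc T χ
  obtain ⟨hG2, hG3⟩ := G_ne_zero T hτ hχ
  obtain ⟨hl, e2, e3, -⟩ := h
  rw [G2_scale hl] at e2
  rw [G3_scale hl] at e3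
  rw [← e2, ← e3]
  field_simp

/-- conversely a square root of this number is a scaling factor -/
theorem scale_of_sq (T : Fam M r) {τ : ℂ} (hτ : τ ∈ HH M) {χ : M.R →ₐ[ℂ] ℂ}
    (hχ : M.jv χ = jf τ) {l : ℂ}
    (hl : l ^ 2 = G3 1 τ * M.vl χ T.g2 / (G2 1 τ * M.vl χ T.g3)) :
    l ≠ 0 ∧ G2 l (l * τ) = M.vl χ T.g2 ∧ G3 l (l * τ) = M.vl χ T.g3 := by
  obtain ⟨h2, h3, hd, hj⟩ := vl_disc T χ
  obtain ⟨hG2, hG3⟩ := G_ne_zero T hτ hχ
  have hje := jeq T hτ hχ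
  have hl0 : l ≠ 0 := by
    rintro rfl
    have : G3 1 τ * M.vl χ T.g2 / (G2 1 τ * M.vl χ T.g3) ≠ 0 :=
      div_ne_zero (mul_ne_zero hG3 h2) (mul_ne_zero hG2 h3)
    exact this (by rw [← hl]; ring)
  have hl' : l ^ 2 * (G2 1 τ * M.vl χ T.g3) = G3 1 τ * M.vl χ T.g2 := by
    rw [hl]; exact div_mul_cancel₀ _ (mul_ne_zero hG2 h3)
  refine ⟨hl0, ?_, ?_⟩
  · rw [G2_scale hl0, div_eq_iff (pow_ne_zero _ hl0)]
    have h5 : (G2 1 τ - M.vl χ T.g2 * l ^ 4) * (G2 1 τ * M.vl χ T.g3) ^ 2 = 0 := by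
      have h6 : l ^ 4 * (G2 1 τ * M.vl χ T.g3) ^ 2 = (G3 1 τ * M.vl χ T.g2) ^ 2 := by
        rw [← hl']; ring
      linear_combination (-M.vl χ T.g2) * h6 + hje
    exact sub_eq_zero.1 ((mul_eq_zero.1 h5).resolve_right (pow_ne_zero _ (mul_ne_zero hG2 h3)))
  · rw [G3_scale hl0, div_eq_iff (pow_ne_zero _ hl0)]
    have h5 : (G3 1 τ - M.vl χ T.g3 * l ^ 6) * (G2 1 τ * M.vl χ T.g3) ^ 3 = 0 := by
      have h6 : l ^ 6 * (G2 1 τ * M.vl χ T.g3) ^ 3 = (G3 1 τ * M.vl χ T.g2) ^ 3 := by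
        rw [← hl']; ring
      linear_combination (-M.vl χ T.g3) * h6 + (G3 1 τ * M.vl χ T.g3) * hje
    exact sub_eq_zero.1 ((mul_eq_zero.1 h5).resolve_right (pow_ne_zero _ (mul_ne_zero hG2 h3)))

theorem Ind_scale {τ l : ℂ} (hτ : 0 < τ.im) (hl : l ≠ 0) : Ind l (l * τ) := by
  have := ind_smul (ind_one hτ) hl
  rwa [mul_one] at this

theorem exists_rel0 (T : Fam M r) {τ : ℂ} (hτ : τ ∈ HH M) {χ : M.R →ₐ[ℂ] ℂ}
    (hχ : M.jv χ = jf τ) : ∃ (l : ℂ) (p : Fin r → ℂ), Rel0 T τ χ l p := by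
  obtain ⟨l, hl⟩ := IsAlgClosed.exists_pow_nat_eq
    (G3 1 τ * M.vl χ T.g2 / (G2 1 τ * M.vl χ T.g3)) (n := 2) (by norm_num)
  obtain ⟨hl0, e2, e3⟩ := scale_of_sq T hτ hχ hl
  have hex : ∀ i, ∃ z, Off l (l * τ) z ∧ wp l (l * τ) z = M.vl χ (T.x i) ∧
      wq l (l * τ) z = M.vl χ (T.y i) := by
    intro i
    apply exists_wp_eq (Ind_scale hτ.1 hl0)
    rw [e2, e3]
    exact (vl_curve T χ i).1
  choose p hp using hex
  exact ⟨l, p, hl0, e2, e3, hp⟩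

theorem exists_w (T : Fam M r) (c : Fin r → ℂ) (u : E × E) {τ : ℂ} (hτ : τ ∈ HH M)
    {χ : M.R →ₐ[ℂ] ℂ} {l : ℂ} {p : Fin r → ℂ} (h : Rel0 T τ χ l p) :
    ∃ w : ℂ × ℂ, Rel T c u τ χ l p w := by
  have hdet := det_ne_zero (Ind_scale hτ.1 h.1)
  unfold det at hdet
  set A := M.vl χ u.1 - ∑ i, c i * p i with hA
  set B := M.vl χ u.2 - ∑ i, c i * wz l (l * τ) (p i) with hB
  set d := l * eta2 l (l * τ) - l * τ * eta1 l (l * τ) with hd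
  refine ⟨((eta2 l (l * τ) * A - l * τ * B) / d, (l * B - eta1 l (l * τ) * A) / d), h, ?_, ?_⟩
  · have h1 : l * ((eta2 l (l * τ) * A - l * τ * B) / d) +
        l * τ * ((l * B - eta1 l (l * τ) * A) / d) = A := by
      rw [← mul_div_assoc, ← mul_div_assoc, ← add_div, div_eq_iff hdet, hd]
      ring
    show M.vl χ u.1 = ∑ i, c i * p i + (l * ((eta2 l (l * τ) * A - l * τ * B) / d) +
        l * τ * ((l * B - eta1 l (l * τ) * A) / d))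
    rw [h1, hA]
    ring
  · have h1 : eta1 l (l * τ) * ((eta2 l (l * τ) * A - l * τ * B) / d) +
        eta2 l (l * τ) * ((l * B - eta1 l (l * τ) * A) / d) = B := by
      rw [← mul_div_assoc, ← mul_div_assoc, ← add_div, div_eq_iff hdet, hd]
      ring
    show M.vl χ u.2 = ∑ i, c i * wz l (l * τ) (p i) +
        (eta1 l (l * τ) * ((eta2 l (l * τ) * A - l * τ * B) / d) +
        eta2 l (l * τ) * ((l * B - eta1 l (l * τ) * A) / d))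
    rw [h1, hB]
    ring

theorem rel_w_unique {T : Fam M r} {c : Fin r → ℂ} {u : E × E} {τ : ℂ} (hτ : τ ∈ HH M)
    {χ : M.R →ₐ[ℂ] ℂ} {l : ℂ} {p : Fin r → ℂ} {w w' : ℂ × ℂ} (h : Rel T c u τ χ l p w)
    (h' : Rel T c u τ χ l p w') : w = w' := by
  have hdet := det_ne_zero (Ind_scale hτ.1 h.1.1)
  unfold det at hdet
  obtain ⟨-, e1, e2⟩ := h
  obtain ⟨-, f1, f2⟩ := h'
  rw [e1] at f1
  rw [e2] at f2
  have g1 := add_left_cancel f1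
  have g2 := add_left_cancel f2
  have k1 : (w.1 - w'.1) * (l * eta2 l (l * τ) - l * τ * eta1 l (l * τ)) = 0 := by
    linear_combination (eta2 l (l * τ)) * g1 - (l * τ) * g2
  have k2 : (w.2 - w'.2) * (l * eta2 l (l * τ) - l * τ * eta1 l (l * τ)) = 0 := by
    linear_combination (-eta1 l (l * τ)) * g1 + l * g2
  exact Prod.ext (sub_eq_zero.1 ((mul_eq_zero.1 k1).resolve_right hdet))
    (sub_eq_zero.1 ((mul_eq_zero.1 k2).resolve_right hdet))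

/-- changing the logarithms by lattice vectors -/
theorem rel_shift {T : Fam M r} {c : Fin r → ℂ} {u : E × E} {τ : ℂ} (hτ : τ ∈ HH M)
    {χ : M.R →ₐ[ℂ] ℂ} {l : ℂ} {p : Fin r → ℂ} {w : ℂ × ℂ} (h : Rel T c u τ χ l p w)
    (n : Fin r → ℤ × ℤ) :
    Rel T c u τ χ l (fun i => p i + lat l (l * τ) (n i))
      (w.1 - ∑ i, c i * (n i).1, w.2 - ∑ i, c i * (n i).2) := by
  obtain ⟨⟨hl, e2, e3, hp⟩, h1, h2⟩ := h
  have hI := Ind_scale hτ.1 hl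
  refine ⟨⟨hl, e2, e3, fun i => ⟨(off_add_lat (n i)).2 (hp i).1, ?_, ?_⟩⟩, ?_, ?_⟩
  · rw [wp_add_lat hI]; exact (hp i).2.1
  · rw [wq_add_lat hI]; exact (hp i).2.2
  · have hs : ∑ i, c i * (p i + lat l (l * τ) (n i)) =
        ∑ i, c i * p i + (l * ∑ i, c i * ((n i).1 : ℂ) + l * τ * ∑ i, c i * ((n i).2 : ℂ)) := by
      rw [Finset.mul_sum, Finset.mul_sum, ← Finset.sum_add_distrib, ← Finset.sum_add_distrib]
      refine Finset.sum_congr rfl fun i _ => ?_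
      unfold lat
      ring
    rw [hs, h1]
    ring
  · have hs : ∑ i, c i * wz l (l * τ) (p i + lat l (l * τ) (n i)) =
        ∑ i, c i * wz l (l * τ) (p i) + (eta1 l (l * τ) * ∑ i, c i * ((n i).1 : ℂ) +
          eta2 l (l * τ) * ∑ i, c i * ((n i).2 : ℂ)) := by
      rw [Finset.mul_sum, Finset.mul_sum, ← Finset.sum_add_distrib, ← Finset.sum_add_distrib]
      refine Finset.sum_congr rfl fun i _ => ?_
      rw [wz_add_lat hI (hp i).1]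
      unfold eta
      ring
    rw [hs, h2]
    ring

/-- unimodular change of the basis of periods -/
theorem rel_change {T : Fam M r} {c : Fin r → ℂ} {u : E × E} {τ : ℂ} (hτ : τ ∈ HH M)
    {χ : M.R →ₐ[ℂ] ℂ} {l : ℂ} {p : Fin r → ℂ} {w : ℂ × ℂ} (h : Rel T c u τ χ l p w)
    {a b a' b' : ℤ} (hd : a * b' - b * a' = 1) {l' τ' : ℂ} (hl' : l' ≠ 0)
    (e1 : l' = a * l + b * (l * τ)) (e2 : l' * τ' = a' * l + b' * (l * τ)) :
    Rel T c u τ' χ l' p (b' * w.1 - a' * w.2, -b * w.1 + a * w.2) := by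
  obtain ⟨⟨hl, f2, f3, hp⟩, h1, h2⟩ := h
  have hI := Ind_scale hτ.1 hl
  have hdc : (a : ℂ) * b' - b * a' = 1 := by exact_mod_cast hd
  have k2 : G2 l' (l' * τ') = G2 l (l * τ) := by rw [e2, e1]; exact G2_change hd
  have k3 : G3 l' (l' * τ') = G3 l (l * τ) := by rw [e2, e1]; exact G3_change hd
  have ko : ∀ z, Off l' (l' * τ') z ↔ Off l (l * τ) z := by
    intro z; rw [e2, e1]; exact off_change hd z
  have kp : ∀ z, wp l' (l' * τ') z = wp l (l * τ) z := by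
    intro z; rw [e2, e1]; exact wp_change hd z
  have kq : ∀ z, wq l' (l' * τ') z = wq l (l * τ) z := by
    intro z; rw [e2, e1]; exact wq_change hd z
  have kz : ∀ z, wz l' (l' * τ') z = wz l (l * τ) z := by
    intro z; rw [e2, e1]; exact wz_change hd z
  have n1 : eta1 l' (l' * τ') = a * eta1 l (l * τ) + b * eta2 l (l * τ) := by
    rw [e2, e1]; exact eta1_change hI hd
  have n2 : eta2 l' (l' * τ') = a' * eta1 l (l * τ) + b' * eta2 l (l * τ) := by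
    rw [e2, e1]; exact eta2_change hI hd
  refine ⟨⟨hl', k2.trans f2, k3.trans f3, fun i => ⟨(ko _).2 (hp i).1, (kp _).trans (hp i).2.1,
    (kq _).trans (hp i).2.2⟩⟩, ?_, ?_⟩
  · show M.vl χ u.1 = ∑ i, c i * p i + (l' * (b' * w.1 - a' * w.2) +
      l' * τ' * (-b * w.1 + a * w.2))
    rw [e2, e1, h1]
    linear_combination (-(l * w.1 + l * τ * w.2)) * hdc
  · show M.vl χ u.2 = ∑ i, c i * wz l' (l' * τ') (p i) + (eta1 l' (l' * τ') *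
      (b' * w.1 - a' * w.2) + eta2 l' (l' * τ') * (-b * w.1 + a * w.2))
    rw [n1, n2, h2]
    simp only [kz]
    linear_combination (-(eta1 l (l * τ) * w.1 + eta2 l (l * τ) * w.2)) * hdc

/-- changing the sign of the scaling factor -/
theorem rel_neg {T : Fam M r} {c : Fin r → ℂ} {u : E × E} {τ : ℂ} (hτ : τ ∈ HH M)
    {χ : M.R →ₐ[ℂ] ℂ} {l : ℂ} {p : Fin r → ℂ} {w : ℂ × ℂ} (h : Rel T c u τ χ l p w) :
    Rel T c u τ χ (-l) p (-w.1, -w.2) := by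
  have := rel_change hτ h (a := -1) (b := 0) (a' := 0) (b' := -1) (by norm_num) (l' := -l)
    (τ' := τ) (neg_ne_zero.2 h.1.1) (by push_cast; ring) (by push_cast; ring)
  convert this using 2 <;> push_cast <;> ring

/-- two solutions over the same point differ by a sign and by lattice vectors -/
theorem rel_unique {T : Fam M r} {c : Fin r → ℂ} {u : E × E} {τ : ℂ} (hτ : τ ∈ HH M)
    {χ : M.R →ₐ[ℂ] ℂ} (hχ : M.jv χ = jf τ) {l l' : ℂ} {p p' : Fin r → ℂ} {w w' : ℂ × ℂ}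
    (h : Rel T c u τ χ l p w) (h' : Rel T c u τ χ l' p' w') :
    ∃ (s : ℤ) (n : Fin r → ℤ × ℤ), (s = 1 ∨ s = -1) ∧ l' = s * l ∧
      (∀ i, p' i = p i + lat l (l * τ) (n i)) ∧
      w'.1 = s * (w.1 - ∑ i, c i * (n i).1) ∧ w'.2 = s * (w.2 - ∑ i, c i * (n i).2) := by
  have key : ∀ {l : ℂ} {p p' : Fin r → ℂ} {w w' : ℂ × ℂ}, Rel T c u τ χ l p w →
      Rel T c u τ χ l p' w' → ∃ n : Fin r → ℤ × ℤ, (∀ i, p' i = p i + lat l (l * τ) (n i)) ∧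
      w'.1 = w.1 - ∑ i, c i * (n i).1 ∧ w'.2 = w.2 - ∑ i, c i * (n i).2 := by
    intro l p p' w w' h h'
    have hI := Ind_scale hτ.1 h.1.1
    have hex : ∀ i, ∃ x, p' i = p i + lat l (l * τ) x := by
      intro i
      obtain ⟨a1, a2, a3⟩ := h.1.2.2.2 i
      obtain ⟨b1, b2, b3⟩ := h'.1.2.2.2 i
      exact exists_lat_of_eq hI b1 a1 (b2.trans a2.symm) (b3.trans a3.symm)
    choose n hn using hex
    have h1 := rel_shift hτ h n
    have h2 : (fun i => p i + lat l (l * τ) (n i)) = p' := funext fun i => (hn i).symm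
    rw [h2] at h1
    have h3 := rel_w_unique hτ h' h1
    exact ⟨n, hn, congrArg Prod.fst h3, congrArg Prod.snd h3⟩
  have hsq : l' ^ 2 = l ^ 2 := by
    rw [Rel0.sq hτ hχ h'.1, Rel0.sq hτ hχ h.1]
  rcases sq_eq_sq_iff_eq_or_eq_neg.1 hsq with rfl | rfl
  · obtain ⟨n, a, b, d⟩ := key h h'
    refine ⟨1, n, Or.inl rfl, by push_cast; ring, a, ?_, ?_⟩
    · rw [b]; push_cast; ring
    · rw [d]; push_cast; ring
  · obtain ⟨n, a, b, d⟩ := key (rel_neg hτ h) h'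
    refine ⟨-1, fun i => -n i, Or.inr rfl, by push_cast; ring, ?_, ?_, ?_⟩
    · intro i
      rw [a i]
      unfold lat
      simp only [Prod.fst_neg, Prod.snd_neg]
      push_cast
      ring
    · rw [b]
      simp only [Prod.fst_neg, Int.cast_neg, mul_neg, Finset.sum_neg_distrib]
      push_cast
      ring
    · rw [d]
      simp only [Prod.snd_neg, Int.cast_neg, mul_neg, Finset.sum_neg_distrib]
      push_cast
      ring

theorem HH_T {τ : ℂ} : τ + 1 ∈ HH M ↔ τ ∈ HH M := by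
  unfold HH
  simp only [Set.mem_setOf_eq, jf_add_one, Complex.add_im, Complex.one_im, add_zero]

theorem im_S {τ : ℂ} (hτ : 0 < τ.im) : 0 < (-1 / τ).im := by
  have h0 : τ ≠ 0 := by rintro rfl; simp at hτ
  rw [Complex.div_im]
  have hn : 0 < Complex.normSq τ := Complex.normSq_pos.2 h0
  simp only [Complex.neg_im, Complex.one_im, neg_zero, zero_mul, zero_div, Complex.neg_re,
    Complex.one_re, neg_mul, one_mul, neg_div, zero_sub, neg_neg, sub_neg_eq_add, zero_add]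
  positivity

theorem HH_S {τ : ℂ} (hτ : τ ∈ HH M) : -1 / τ ∈ HH M := by
  refine ⟨im_S hτ.1, ?_⟩
  rw [jf_S hτ.1]
  exact hτ.2

theorem rel_T {T : Fam M r} {c : Fin r → ℂ} {u : E × E} {τ : ℂ} (hτ : τ ∈ HH M)
    {χ : M.R →ₐ[ℂ] ℂ} {l : ℂ} {p : Fin r → ℂ} {w : ℂ × ℂ} (h : Rel T c u τ χ l p w) :
    Rel T c u (τ + 1) χ l p (w.1 - w.2, w.2) := by
  have := rel_change hτ h (a := 1) (b := 0) (a' := 1) (b' := 1) (by norm_num) (l' := l)
    (τ' := τ + 1) h.1.1 (by push_cast; ring) (by push_cast; ring)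
  convert this using 2 <;> push_cast <;> ring

theorem rel_S {T : Fam M r} {c : Fin r → ℂ} {u : E × E} {τ : ℂ} (hτ : τ ∈ HH M)
    {χ : M.R →ₐ[ℂ] ℂ} {l : ℂ} {p : Fin r → ℂ} {w : ℂ × ℂ} (h : Rel T c u τ χ l p w) :
    Rel T c u (-1 / τ) χ (l * τ) p (w.2, -w.1) := by
  have h0 : τ ≠ 0 := by
    intro h
    have := hτ.1
    rw [h] at this
    simp at this
  have := rel_change hτ h (a := 0) (b := 1) (a' := -1) (b' := 0) (by norm_num) (l' := l * τ)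
    (τ' := -1 / τ) (mul_ne_zero h.1.1 h0) (by push_cast; ring) (by push_cast; field_simp; ring)
  convert this using 2 <;> push_cast <;> ring

end

end Pool.Agent.EllSch
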