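import Pool.Agent.EllSch.RelA
import Pool.Agent.EllSch.Log

/-! # [RELb] Local constancy of `w` along branches -/

open Polynomial Filter Topology

namespace Pool.Agent.EllSch

namespace RelB

/-- a function with vanishing derivative near a point is constant near this point -/
theorem ev_const {f : ℂ → ℂ} {t₀ : ℂ} (h : ∀ᶠ t in 𝓝 t₀, HasDerivAt f 0 t) :
    ∀ᶠ t in 𝓝 t₀, f t = f t₀ := by
  obtain ⟨ε, hε, hb⟩ := Metric.eventually_nhds_iff_ball.1 h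
  filter_upwards [Metric.ball_mem_nhds t₀ hε] with t ht
  refine IsOpen.is_const_of_deriv_eq_zero Metric.isOpen_ball
    (convex_ball t₀ ε).isPreconnected (fun x hx => ?_) (fun x hx => ?_) ht
    (Metric.mem_ball_self hε)
  · exact (hb x hx).differentiableAt.differentiableWithinAt
  · exact (hb x hx).deriv

/-- local square roots -/
theorem exists_sqrt {R : ℂ → ℂ} {t₀ l₀ : ℂ} (hR : ∀ᶠ t in 𝓝 t₀, DifferentiableAt ℂ R t)
    (h0 : R t₀ ≠ 0) (hl : l₀ ^ 2 = R t₀) :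
    ∃ l : ℂ → ℂ, l t₀ = l₀ ∧ ∀ᶠ t in 𝓝 t₀, DifferentiableAt ℂ l t ∧ l t ^ 2 = R t := by
  have hl0 : l₀ ^ 2 ≠ 0 := by rw [hl]; exact h0
  have hc : ContinuousAt R t₀ := hR.self_of_nhds.continuousAt
  refine ⟨fun t => l₀ * Complex.exp (Complex.log (R t / l₀ ^ 2) / 2), ?_, ?_⟩
  · simp only [← hl, div_self hl0, Complex.log_one, zero_div, Complex.exp_zero, mul_one]
  · have h1 : ∀ᶠ t in 𝓝 t₀, R t / l₀ ^ 2 ∈ Complex.slitPlane := by
      have h2 : ContinuousAt (fun t => R t / l₀ ^ 2) t₀ := hc.div_const _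
      apply h2.eventually_mem
      apply Complex.isOpen_slitPlane.mem_nhds
      simp only [← hl, div_self hl0]
      exact Complex.one_mem_slitPlane
    filter_upwards [h1, hR] with t h2 h3
    constructor
    · have h4 : DifferentiableAt ℂ (fun t => R t / l₀ ^ 2) t := h3.div_const _
      exact (DifferentiableAt.cexp ((h4.clog h2).div_const 2)).const_mul l₀
    · rw [mul_pow, ← Complex.exp_nat_mul]
      have h5 : ((2 : ℕ) : ℂ) * (Complex.log (R t / l₀ ^ 2) / 2) = Complex.log (R t / l₀ ^ 2) := by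
        push_cast; ring
      rw [h5, Complex.exp_log (Complex.slitPlane_ne_zero h2)]
      exact mul_div_cancel₀ _ hl0

section
variable {E : Type} [Field E] [Algebra ℂ E] {D : Derivation ℂ E E} {j : E} {M : Model E D j}
  {r : ℕ}

theorem ev_HH {τ₀ : ℂ} (hτ₀ : τ₀ ∈ HH M) : ∀ᶠ t in 𝓝 τ₀, t ∈ HH M := by
  have h1 : ∀ᶠ t : ℂ in 𝓝 τ₀, 0 < t.im :=
    Complex.continuous_im.continuousAt.eventually (lt_mem_nhds hτ₀.1)
  have h2 : ContinuousAt (fun t => M.d.eval (jf t)) τ₀ :=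
    ContinuousAt.comp (g := fun z => M.d.eval z) M.d.continuous.continuousAt
      (differentiableAt_jf hτ₀.1).continuousAt
  filter_upwards [h1, h2.eventually_ne hτ₀.2] with t h3 h4
  exact ⟨h3, h4⟩

theorem disc_mem (T : Fam M r) : T.g2 ^ 3 - 27 * T.g3 ^ 2 ∈ M.R := by
  refine sub_mem (pow_mem T.hg2 _) (mul_mem ?_ (pow_mem T.hg3 _))
  exact_mod_cast M.R.natCast_mem 27

theorem nat_mem (M : Model E D j) (n : ℕ) : (n : E) ∈ M.R := M.R.natCast_mem n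

theorem inv_nat_mem (M : Model E D j) (n : ℕ) : ((n : E))⁻¹ ∈ M.R := by
  have := M.R.algebraMap_mem ((n : ℂ)⁻¹)
  rwa [map_inv₀, map_natCast] at this

theorem vl_nat (M : Model E D j) (χ : M.R →ₐ[ℂ] ℂ) (n : ℕ) : M.vl χ (n : E) = n := by
  have := vl_const M χ (n : ℂ)
  rwa [map_natCast] at this

theorem vl_inv_nat (M : Model E D j) (χ : M.R →ₐ[ℂ] ℂ) (n : ℕ) :
    M.vl χ ((n : E))⁻¹ = ((n : ℂ))⁻¹ := by
  have := vl_const M χ ((n : ℂ)⁻¹)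
  rwa [map_inv₀, map_natCast] at this

theorem al_mem (T : Fam M r) : al T.g2 T.g3 D ∈ M.R := by
  have h : al T.g2 T.g3 D =
    (-D (T.g2 ^ 3 - 27 * T.g3 ^ 2)) * (((12 : ℕ) : E)⁻¹ * (T.g2 ^ 3 - 27 * T.g3 ^ 2)⁻¹) := by
    rw [al, div_eq_mul_inv, mul_inv]
    push_cast
    rfl
  rw [h]
  exact mul_mem (neg_mem (M.hD _ (disc_mem T))) (mul_mem (inv_nat_mem M 12) T.hΔ')

theorem be_mem (T : Fam M r) : be T.g2 T.g3 D ∈ M.R := by
  have h : be T.g2 T.g3 D = ((3 : ℕ) : E) * ((2 : ℕ) : E)⁻¹ *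
    (((3 : ℕ) : E) * T.g3 * D T.g2 - ((2 : ℕ) : E) * T.g2 * D T.g3) *
      (T.g2 ^ 3 - 27 * T.g3 ^ 2)⁻¹ := by
    rw [be, div_eq_mul_inv]
    push_cast
    ring
  rw [h]
  exact mul_mem (mul_mem (mul_mem (nat_mem M 3) (inv_nat_mem M 2))
    (sub_mem (mul_mem (mul_mem (nat_mem M 3) T.hg3) (M.hD _ T.hg2))
      (mul_mem (mul_mem (nat_mem M 2) T.hg2) (M.hD _ T.hg3)))) T.hΔ'

theorem ga_mem (T : Fam M r) (i : Fin r) : ga T.g2 T.g3 (T.x i) (T.y i) D ∈ M.R := by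
  have h : ga T.g2 T.g3 (T.x i) (T.y i) D =
    (D (T.x i) + ((2 : ℕ) : E) * al T.g2 T.g3 D * T.x i
      + ((2 : ℕ) : E) * be T.g2 T.g3 D * T.x i ^ 2
      - be T.g2 T.g3 D * T.g2 * ((3 : ℕ) : E)⁻¹) * (T.y i)⁻¹ := by
    rw [ga, div_eq_mul_inv, div_eq_mul_inv]
    push_cast
    rfl
  rw [h]
  exact mul_mem (sub_mem (add_mem (add_mem (M.hD _ (T.hx i))
    (mul_mem (mul_mem (nat_mem M 2) (al_mem T)) (T.hx i)))
    (mul_mem (mul_mem (nat_mem M 2) (be_mem T)) (pow_mem (T.hx i) 2)))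
    (mul_mem (mul_mem (be_mem T) T.hg2) (inv_nat_mem M 3))) (T.hy' i)

theorem charZero (_M : Model E D j) : CharZero E :=
  charZero_of_injective_algebraMap (algebraMap ℂ E).injective

/-- the value of `D g₂` -/
theorem vl_Dg2 (T : Fam M r) (χ : M.R →ₐ[ℂ] ℂ) : M.vl χ (D T.g2) =
    -4 * M.vl χ (al T.g2 T.g3 D) * M.vl χ T.g2 - 6 * M.vl χ (be T.g2 T.g3 D) * M.vl χ T.g3 := by
  have := charZero M
  have h4 : (-4 : E) = algebraMap ℂ E (-4) := by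
    rw [map_neg]; congr 1; exact (map_ofNat (algebraMap ℂ E) 4).symm
  have h6 : (6 : E) = algebraMap ℂ E 6 := (map_ofNat (algebraMap ℂ E) 6).symm
  have e4 := M.R.algebraMap_mem (-4)
  have e6 := M.R.algebraMap_mem 6
  have ha := al_mem T
  have hb := be_mem T
  rw [der_g2 T.hΔ D, h4, h6, vl_sub M χ (mul_mem (mul_mem e4 ha) T.hg2)
    (mul_mem (mul_mem e6 hb) T.hg3), vl_mul M χ (mul_mem e4 ha) T.hg2, vl_mul M χ e4 ha,
    vl_mul M χ (mul_mem e6 hb) T.hg3, vl_mul M χ e6 hb, vl_const, vl_const]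

/-- the value of `D g₃` -/
theorem vl_Dg3 (T : Fam M r) (χ : M.R →ₐ[ℂ] ℂ) : M.vl χ (D T.g3) =
    -6 * M.vl χ (al T.g2 T.g3 D) * M.vl χ T.g3
      - M.vl χ (be T.g2 T.g3 D) * M.vl χ T.g2 ^ 2 / 3 := by
  have := charZero M
  have h6 : (-6 : E) = algebraMap ℂ E (-6) := by
    rw [map_neg]; congr 1; exact (map_ofNat (algebraMap ℂ E) 6).symm
  have h3 : (3 : E)⁻¹ = algebraMap ℂ E 3⁻¹ := by
    rw [map_inv₀]; congr 1; exact (map_ofNat (algebraMap ℂ E) 3).symm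
  have e6 := M.R.algebraMap_mem (-6)
  have e3 := M.R.algebraMap_mem 3⁻¹
  have ha := al_mem T
  have hb := be_mem T
  have hg := pow_mem T.hg2 2
  rw [der_g3 T.hΔ D, div_eq_mul_inv, h6, h3, vl_sub M χ (mul_mem (mul_mem e6 ha) T.hg3)
    (mul_mem (mul_mem hb hg) e3), vl_mul M χ (mul_mem e6 ha) T.hg3, vl_mul M χ e6 ha,
    vl_mul M χ (mul_mem hb hg) e3, vl_mul M χ hb hg, vl_pow M χ T.hg2, vl_const, vl_const]
  ring

/-- the value of `D x` -/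
theorem vl_Dx (T : Fam M r) (χ : M.R →ₐ[ℂ] ℂ) (i : Fin r) : M.vl χ (D (T.x i)) =
    -2 * M.vl χ (al T.g2 T.g3 D) * M.vl χ (T.x i)
      + M.vl χ (be T.g2 T.g3 D) * (-2 * M.vl χ (T.x i) ^ 2 + M.vl χ T.g2 / 3)
      + M.vl χ (ga T.g2 T.g3 (T.x i) (T.y i) D) * M.vl χ (T.y i) := by
  have := charZero M
  have h2 : (-2 : E) = algebraMap ℂ E (-2) := by
    rw [map_neg]; congr 1; exact (map_ofNat (algebraMap ℂ E) 2).symm
  have h3 : (3 : E)⁻¹ = algebraMap ℂ E 3⁻¹ := by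
    rw [map_inv₀]; congr 1; exact (map_ofNat (algebraMap ℂ E) 3).symm
  have e2 := M.R.algebraMap_mem (-2)
  have e3 := M.R.algebraMap_mem 3⁻¹
  have ha := al_mem T
  have hb := be_mem T
  have hc := ga_mem T i
  have hx := T.hx i
  have hxx := pow_mem (T.hx i) 2
  have hy := T.hy i
  rw [der_x (T.hy0 i) D, div_eq_mul_inv, h2, h3]
  rw [vl_add M χ (add_mem (mul_mem (mul_mem e2 ha) hx)
    (mul_mem hb (add_mem (mul_mem e2 hxx) (mul_mem T.hg2 e3)))) (mul_mem hc hy),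
    vl_add M χ (mul_mem (mul_mem e2 ha) hx)
    (mul_mem hb (add_mem (mul_mem e2 hxx) (mul_mem T.hg2 e3))),
    vl_mul M χ (mul_mem e2 ha) hx, vl_mul M χ e2 ha,
    vl_mul M χ hb (add_mem (mul_mem e2 hxx) (mul_mem T.hg2 e3)),
    vl_add M χ (mul_mem e2 hxx) (mul_mem T.hg2 e3), vl_mul M χ e2 hxx, vl_mul M χ T.hg2 e3,
    vl_pow M χ hx, vl_mul M χ hc hy, vl_const, vl_const]
  ring

/-- derivatives of values along the branch -/
theorem vl_deriv {τ₀ : ℂ} {χ : ℂ → (M.R →ₐ[ℂ] ℂ)}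
    (hd : ∀ e : M.R, ∀ᶠ t in 𝓝 τ₀,
      HasDerivAt (fun s => χ s e) (deriv jf t * χ t ⟨D e, M.hD e e.2⟩) t) {e : E} (he : e ∈ M.R) :
    ∀ᶠ t in 𝓝 τ₀, HasDerivAt (fun s => M.vl (χ s) e) (deriv jf t * M.vl (χ t) (D e)) t := by
  filter_upwards [hd ⟨e, he⟩] with t ht
  have h1 : (fun s => M.vl (χ s) e) = fun s => χ s ⟨e, he⟩ := by
    funext s
    exact vl_of_mem M (χ s) he
  rw [h1, vl_of_mem M (χ t) (M.hD e he)]
  exact ht

/-- the linear system determining `α` and `β` -/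
theorem lin_unique {g h α β α' β' k : ℂ} (hΔ : g ^ 3 - 27 * h ^ 2 ≠ 0)
    (h1 : -4 * α * g - 6 * β * h = k * (-4 * α' * g - 6 * β' * h))
    (h2 : -6 * α * h - β * g ^ 2 / 3 = k * (-6 * α' * h - β' * g ^ 2 / 3)) :
    α = k * α' ∧ β = k * β' := by
  constructor
  · apply mul_right_cancel₀ hΔ
    linear_combination (-(g ^ 2) / 4) * h1 + 9 / 2 * h * h2
  · apply mul_right_cancel₀ hΔ
    linear_combination (9 / 2 * h) * h1 - 3 * g * h2

/-- the number whose square root is the scaling factor -/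
noncomputable def RR (T : Fam M r) (χ : M.R →ₐ[ℂ] ℂ) (t : ℂ) : ℂ :=
  G3 1 t * M.vl χ T.g2 / (G2 1 t * M.vl χ T.g3)

theorem RR_ne_zero (T : Fam M r) {χ : M.R →ₐ[ℂ] ℂ} {t : ℂ} (ht : t ∈ HH M)
    (hχ : M.jv χ = jf t) : RR T χ t ≠ 0 := by
  obtain ⟨h1, h2⟩ := G_ne_zero T ht hχ
  obtain ⟨h3, h4, -⟩ := vl_disc T χ
  exact div_ne_zero (mul_ne_zero h2 h3) (mul_ne_zero h1 h4)

/-- the data attached to the local choice of the scaling factor -/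
structure Good (T : Fam M r) (χ : ℂ → (M.R →ₐ[ℂ] ℂ)) (l : ℂ → ℂ) (t : ℂ) : Prop where
  hH : t ∈ HH M
  hjv : M.jv (χ t) = jf t
  hsq : l t ^ 2 = RR T (χ t) t
  h0 : l t ≠ 0
  hG2 : G2 (l t) (l t * t) = M.vl (χ t) T.g2
  hG3 : G3 (l t) (l t * t) = M.vl (χ t) T.g3
  hind : Ind (l t) (l t * t)
  hl : HasDerivAt l (deriv jf t * M.vl (χ t) (al T.g2 T.g3 D) * l t +
    deriv jf t * M.vl (χ t) (be T.g2 T.g3 D) * eta1 (l t) (l t * t)) t
  hl' : HasDerivAt (fun s => l s * s) (deriv jf t * M.vl (χ t) (al T.g2 T.g3 D) * (l t * t) +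
    deriv jf t * M.vl (χ t) (be T.g2 T.g3 D) * eta2 (l t) (l t * t)) t

theorem exists_l (T : Fam M r) {τ₀ : ℂ} (hτ₀ : τ₀ ∈ HH M) (χ : ℂ → (M.R →ₐ[ℂ] ℂ))
    (hχ : ∀ᶠ t in 𝓝 τ₀, M.jv (χ t) = jf t)
    (hd : ∀ e : M.R, ∀ᶠ t in 𝓝 τ₀,
      HasDerivAt (fun s => χ s e) (deriv jf t * χ t ⟨D e, M.hD e e.2⟩) t)
    {l₀ : ℂ} (hl₀ : l₀ ^ 2 = RR T (χ τ₀) τ₀) :
    ∃ l : ℂ → ℂ, l τ₀ = l₀ ∧ ∀ᶠ t in 𝓝 τ₀, Good T χ l t := by
  have hR : ∀ᶠ t in 𝓝 τ₀, DifferentiableAt ℂ (fun t => RR T (χ t) t) t := by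
    filter_upwards [ev_HH hτ₀, hχ, vl_deriv hd T.hg2, vl_deriv hd T.hg3] with t h1 h2 h3 h4
    obtain ⟨h5, h6⟩ := G_ne_zero T h1 h2
    obtain ⟨h7, h8, -⟩ := vl_disc T (χ t)
    exact ((differentiableAt_G3 h1.1).mul h3.differentiableAt).div
      ((differentiableAt_G2 h1.1).mul h4.differentiableAt) (mul_ne_zero h5 h8)
  obtain ⟨l, hl0, hl⟩ := exists_sqrt hR (RR_ne_zero T hτ₀ hχ.self_of_nhds) hl₀
  refine ⟨l, hl0, ?_⟩
  have hsc : ∀ᶠ t in 𝓝 τ₀, l t ≠ 0 ∧ G2 (l t) (l t * t) = M.vl (χ t) T.g2 ∧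
      G3 (l t) (l t * t) = M.vl (χ t) T.g3 := by
    filter_upwards [ev_HH hτ₀, hχ, hl] with t h1 h2 h3
    exact scale_of_sq T h1 h2 h3.2
  filter_upwards [ev_HH hτ₀, hχ, hl, hsc.eventually_nhds, vl_deriv hd T.hg2,
    vl_deriv hd T.hg3] with t h1 h2 h3 h4 h5 h6
  obtain ⟨h7, h8, h9⟩ := h4.self_of_nhds
  have hind := Ind_scale h1.1 h7
  have hlt : HasDerivAt l (deriv l t) t := h3.1.hasDerivAt
  have hlt' : HasDerivAt (fun s => l s * s) (deriv l t * t + l t * 1) t :=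
    hlt.mul (hasDerivAt_id t)
  obtain ⟨hA, hB⟩ := FS.decomp hind (deriv l t, deriv l t * t + l t * 1)
  set α := cA (l t) (l t * t) (deriv l t, deriv l t * t + l t * 1) with hα
  set β := cB (l t) (l t * t) (deriv l t, deriv l t * t + l t * 1) with hβ
  simp only at hA hB
  obtain ⟨k2, k3, -, -⟩ := hasDerivAt_along' (a := l) (b := fun s => l s * s) hlt hlt' hind hA hB
  have e2 : (fun s => G2 (l s) (l s * s)) =ᶠ[𝓝 t] fun s => M.vl (χ s) T.g2 := by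
    filter_upwards [h4] with s hs
    exact hs.2.1
  have e3 : (fun s => G3 (l s) (l s * s)) =ᶠ[𝓝 t] fun s => M.vl (χ s) T.g3 := by
    filter_upwards [h4] with s hs
    exact hs.2.2
  have u2 := (k2.congr_of_eventuallyEq e2.symm).unique h5
  have u3 := (k3.congr_of_eventuallyEq e3.symm).unique h6
  rw [vl_Dg2 T] at u2
  rw [vl_Dg3 T] at u3
  simp only [h8, h9] at u2 u3
  obtain ⟨v1, v2⟩ := lin_unique (vl_disc T (χ t)).2.2.1 u2 u3
  rw [v1, v2] at hA hB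
  refine ⟨h1, h2, h3.2, h7, h8, h9, hind, ?_, ?_⟩
  · rw [← hA]; exact hlt
  · rw [← hB]; exact hlt'

/-- membership of the covariant derivative and of the source -/
theorem Good.eta {T : Fam M r} {χ : ℂ → (M.R →ₐ[ℂ] ℂ)} {l : ℂ → ℂ} {t : ℂ}
    (h : Good T χ l t) :
    HasDerivAt (fun s => eta1 (l s) (l s * s))
      (-(deriv jf t * M.vl (χ t) (al T.g2 T.g3 D)) * eta1 (l t) (l t * t)
        - deriv jf t * M.vl (χ t) (be T.g2 T.g3 D) * (M.vl (χ t) T.g2 / 12) * l t) t ∧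
    HasDerivAt (fun s => eta2 (l s) (l s * s))
      (-(deriv jf t * M.vl (χ t) (al T.g2 T.g3 D)) * eta2 (l t) (l t * t)
        - deriv jf t * M.vl (χ t) (be T.g2 T.g3 D) * (M.vl (χ t) T.g2 / 12) * (l t * t)) t := by
  obtain ⟨-, -, h1, h2⟩ := hasDerivAt_along' (a := l) (b := fun s => l s * s) h.hl h.hl' h.hind
    rfl rfl
  simp only [h.hG2] at h1 h2
  exact ⟨h1, h2⟩

/-- a solution of the homogeneous linear system which vanishes at one point vanishes -/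
theorem lin_zero {A B a b e f : ℂ → ℂ} {α β g : ℂ → ℂ} {t₀ : ℂ}
    (hA : ∀ᶠ t in 𝓝 t₀, HasDerivAt A (α t * A t + β t * B t) t)
    (hB : ∀ᶠ t in 𝓝 t₀, HasDerivAt B (-(β t * g t * A t) - α t * B t) t)
    (ha : ∀ᶠ t in 𝓝 t₀, HasDerivAt a (α t * a t + β t * e t) t)
    (he : ∀ᶠ t in 𝓝 t₀, HasDerivAt e (-α t * e t - β t * g t * a t) t)
    (hb : ∀ᶠ t in 𝓝 t₀, HasDerivAt b (α t * b t + β t * f t) t)
    (hf : ∀ᶠ t in 𝓝 t₀, HasDerivAt f (-α t * f t - β t * g t * b t) t)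
    (hdet : ∀ᶠ t in 𝓝 t₀, a t * f t - b t * e t ≠ 0) (hA0 : A t₀ = 0) (hB0 : B t₀ = 0) :
    ∀ᶠ t in 𝓝 t₀, A t = 0 ∧ B t = 0 := by
  have h1 : ∀ᶠ t in 𝓝 t₀, HasDerivAt (fun s => A s * f s - B s * b s) 0 t := by
    filter_upwards [hA, hB, hb, hf] with t k1 k2 k3 k4
    refine ((k1.mul k4).sub (k2.mul k3)).congr_deriv ?_
    ring
  have h2 : ∀ᶠ t in 𝓝 t₀, HasDerivAt (fun s => A s * e s - B s * a s) 0 t := by
    filter_upwards [hA, hB, ha, he] with t k1 k2 k3 k4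
    refine ((k1.mul k4).sub (k2.mul k3)).congr_deriv ?_
    ring
  filter_upwards [ev_const h1, ev_const h2, hdet] with t k1 k2 k3
  simp only [hA0, hB0, zero_mul, sub_zero] at k1 k2
  constructor
  · have k4 : (a t * f t - b t * e t) * A t = 0 := by linear_combination a t * k1 - b t * k2
    exact (mul_eq_zero.1 k4).resolve_left k3
  · have k4 : (a t * f t - b t * e t) * B t = 0 := by linear_combination e t * k1 - f t * k2
    exact (mul_eq_zero.1 k4).resolve_left k3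

/-- the points along the branch -/
theorem exists_p (T : Fam M r) {τ₀ : ℂ} (χ : ℂ → (M.R →ₐ[ℂ] ℂ))
    (hd : ∀ e : M.R, ∀ᶠ t in 𝓝 τ₀,
      HasDerivAt (fun s => χ s e) (deriv jf t * χ t ⟨D e, M.hD e e.2⟩) t)
    {l : ℂ → ℂ} (hl : ∀ᶠ t in 𝓝 τ₀, Good T χ l t) (i : Fin r) {p₀ : ℂ}
    (hoff : Off (l τ₀) (l τ₀ * τ₀) p₀) (h1 : wp (l τ₀) (l τ₀ * τ₀) p₀ = M.vl (χ τ₀) (T.x i))
    (h2 : wq (l τ₀) (l τ₀ * τ₀) p₀ = M.vl (χ τ₀) (T.y i)) :
    ∃ z : ℂ → ℂ, z τ₀ = p₀ ∧ ∀ᶠ t in 𝓝 τ₀, Off (l t) (l t * t) (z t) ∧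
      wp (l t) (l t * t) (z t) = M.vl (χ t) (T.x i) ∧
      wq (l t) (l t * t) (z t) = M.vl (χ t) (T.y i) ∧
      HasDerivAt z (deriv jf t * M.vl (χ t) (al T.g2 T.g3 D) * z t
        + deriv jf t * M.vl (χ t) (be T.g2 T.g3 D) * wz (l t) (l t * t) (z t)
        + deriv jf t * M.vl (χ t) (ga T.g2 T.g3 (T.x i) (T.y i) D)) t ∧
      HasDerivAt (fun s => wz (l s) (l s * s) (z s))
        (-(deriv jf t * M.vl (χ t) (al T.g2 T.g3 D)) * wz (l t) (l t * t) (z t)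
        + deriv jf t * M.vl (χ t) (be T.g2 T.g3 D) * (M.vl (χ t) (T.y i) / 2
          - M.vl (χ t) T.g2 / 12 * z t)
        - deriv jf t * M.vl (χ t) (ga T.g2 T.g3 (T.x i) (T.y i) D) * M.vl (χ t) (T.x i)) t := by
  obtain ⟨z, hz0, hz⟩ := exists_local_log l (fun t => l t * t) (fun t => M.vl (χ t) (T.x i))
    (fun t => M.vl (χ t) (T.y i)) τ₀ p₀
    (by filter_upwards [hl] with t ht; exact ht.hl.differentiableAt)
    (by filter_upwards [hl] with t ht; exact ht.hl'.differentiableAt)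
    (by filter_upwards [vl_deriv hd (T.hx i)] with t ht; exact ht.differentiableAt)
    (by filter_upwards [vl_deriv hd (T.hy i)] with t ht; exact ht.differentiableAt)
    hl.self_of_nhds.hind hoff
    (by
      filter_upwards [hl] with t ht
      rw [ht.hG2, ht.hG3]
      exact (vl_curve T (χ t) i).1)
    (vl_curve T (χ τ₀) i).2 h1 h2
  refine ⟨z, hz0, ?_⟩
  filter_upwards [hl, hz.eventually_nhds, vl_deriv hd (T.hx i)] with t h3 h4 h5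
  obtain ⟨k1, k2, k3, k4, k5⟩ := h4.self_of_nhds
  have hzt : HasDerivAt z (deriv z t) t := k1.hasDerivAt
  set α := deriv jf t * M.vl (χ t) (al T.g2 T.g3 D) with hα
  set β := deriv jf t * M.vl (χ t) (be T.g2 T.g3 D) with hβ
  set γ := deriv z t - α * z t - β * wz (l t) (l t * t) (z t) with hγ
  have hzt' : deriv z t = α * z t + β * wz (l t) (l t * t) (z t) + γ := by rw [hγ]; ring
  obtain ⟨m1, -, m3⟩ := hasDerivAt_along (a := l) (b := fun s => l s * s) h3.hl h3.hl' hzt k2 k3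
    rfl rfl hzt'
  have e1 : (fun s => wp (l s) (l s * s) (z s)) =ᶠ[𝓝 t] fun s => M.vl (χ s) (T.x i) := by
    filter_upwards [h4] with s hs
    exact hs.2.2.2.1
  have u1 := (m1.congr_of_eventuallyEq e1.symm).unique h5
  simp only [k4, k5, h3.hG2] at u1 m3
  rw [vl_Dx T] at u1
  have hγ' : γ = deriv jf t * M.vl (χ t) (ga T.g2 T.g3 (T.x i) (T.y i) D) := by
    apply mul_right_cancel₀ (vl_curve T (χ t) i).2
    linear_combination u1
  refine ⟨k3, k4, k5, ?_, ?_⟩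
  · rw [← hγ', ← hzt']; exact hzt
  · rw [← hγ']; exact m3

theorem vl_sum (M : Model E D j) (χ : M.R →ₐ[ℂ] ℂ) {ι : Type*} (S : Finset ι) (f : ι → E)
    (hf : ∀ i ∈ S, f i ∈ M.R) : M.vl χ (∑ i ∈ S, f i) = ∑ i ∈ S, M.vl χ (f i) := by
  classical
  induction S using Finset.induction_on with
  | empty =>
    simp only [Finset.sum_empty]
    have := vl_const M χ 0
    rwa [map_zero] at this
  | insert a S ha ih =>
    rw [Finset.sum_insert ha, Finset.sum_insert ha, vl_add M χ (hf a (Finset.mem_insert_self a S))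
      (sum_mem fun i hi => hf i (Finset.mem_insert_of_mem hi)),
      ih fun i hi => hf i (Finset.mem_insert_of_mem hi)]

/-- the values of `D u.1` and `D u.2` -/
theorem vl_Du (T : Fam M r) (c : Fin r → ℂ) (u : E × E) (hu1 : u.1 ∈ M.R) (hu2 : u.2 ∈ M.R)
    (heq : nab T.g2 T.g3 D u = ∑ i, algebraMap ℂ E (c i) • src T.g2 T.g3 (T.x i) (T.y i) D)
    (χ : M.R →ₐ[ℂ] ℂ) :
    M.vl χ (D u.1) = M.vl χ (al T.g2 T.g3 D) * M.vl χ u.1 + M.vl χ (be T.g2 T.g3 D) * M.vl χ u.2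
      + ∑ i, c i * M.vl χ (ga T.g2 T.g3 (T.x i) (T.y i) D) ∧
    M.vl χ (D u.2) = -(M.vl χ (be T.g2 T.g3 D) * (M.vl χ T.g2 / 12) * M.vl χ u.1)
      - M.vl χ (al T.g2 T.g3 D) * M.vl χ u.2
      + ∑ i, c i * (M.vl χ (be T.g2 T.g3 D) * M.vl χ (T.y i) / 2
        - M.vl χ (ga T.g2 T.g3 (T.x i) (T.y i) D) * M.vl χ (T.x i)) := by
  have := charZero M
  have h12 : (12 : E)⁻¹ = algebraMap ℂ E 12⁻¹ := by
    rw [map_inv₀]; congr 1; exact (map_ofNat (algebraMap ℂ E) 12).symm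
  have h2 : (2 : E)⁻¹ = algebraMap ℂ E 2⁻¹ := by
    rw [map_inv₀]; congr 1; exact (map_ofNat (algebraMap ℂ E) 2).symm
  have e12 := M.R.algebraMap_mem 12⁻¹
  have e2 := M.R.algebraMap_mem 2⁻¹
  have ec : ∀ i, algebraMap ℂ E (c i) ∈ M.R := fun i => M.R.algebraMap_mem (c i)
  have ha := al_mem T
  have hb := be_mem T
  have hg := fun i => ga_mem T i
  have h1 := congrArg Prod.fst heq
  have h3 := congrArg Prod.snd heq
  simp only [nab, src, Prod.fst_sum, Prod.smul_fst, smul_eq_mul] at h1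
  simp only [nab, src, Prod.snd_sum, Prod.smul_snd, smul_eq_mul] at h3
  rw [sub_eq_iff_eq_add] at h1
  rw [← eq_sub_iff_add_eq] at h3
  have m1 : ∀ i ∈ Finset.univ, algebraMap ℂ E (c i) * ga T.g2 T.g3 (T.x i) (T.y i) D ∈ M.R :=
    fun i _ => mul_mem (ec i) (hg i)
  have m2 : ∀ i, be T.g2 T.g3 D * T.y i * algebraMap ℂ E 2⁻¹ ∈ M.R :=
    fun i => mul_mem (mul_mem hb (T.hy i)) e2
  have m3 : ∀ i, ga T.g2 T.g3 (T.x i) (T.y i) D * T.x i ∈ M.R := fun i => mul_mem (hg i) (T.hx i)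
  constructor
  · rw [h1, vl_add M χ (sum_mem m1) (add_mem (mul_mem ha hu1) (mul_mem hb hu2)),
      vl_sum M χ _ _ m1, vl_add M χ (mul_mem ha hu1) (mul_mem hb hu2), vl_mul M χ ha hu1,
      vl_mul M χ hb hu2, add_comm]
    congr 1
    refine Finset.sum_congr rfl fun i _ => ?_
    rw [vl_mul M χ (ec i) (hg i), vl_const]
  · simp only [div_eq_mul_inv, h12, h2] at h3
    have m4 : ∀ i ∈ Finset.univ, algebraMap ℂ E (c i) * (be T.g2 T.g3 D * T.y i *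
        algebraMap ℂ E 2⁻¹ - ga T.g2 T.g3 (T.x i) (T.y i) D * T.x i) ∈ M.R :=
      fun i _ => mul_mem (ec i) (sub_mem (m2 i) (m3 i))
    have m5 : be T.g2 T.g3 D * (T.g2 * algebraMap ℂ E 12⁻¹) * u.1 ∈ M.R :=
      mul_mem (mul_mem hb (mul_mem T.hg2 e12)) hu1
    rw [h3, vl_sub M χ (sum_mem m4) (add_mem m5 (mul_mem ha hu2)), vl_sum M χ _ _ m4,
      vl_add M χ m5 (mul_mem ha hu2), vl_mul M χ (mul_mem hb (mul_mem T.hg2 e12)) hu1,
      vl_mul M χ hb (mul_mem T.hg2 e12), vl_mul M χ T.hg2 e12, vl_mul M χ ha hu2, vl_const]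
    have m6 : ∀ i ∈ Finset.univ, M.vl χ (algebraMap ℂ E (c i) * (be T.g2 T.g3 D * T.y i *
        algebraMap ℂ E 2⁻¹ - ga T.g2 T.g3 (T.x i) (T.y i) D * T.x i)) =
        c i * (M.vl χ (be T.g2 T.g3 D) * M.vl χ (T.y i) / 2
        - M.vl χ (ga T.g2 T.g3 (T.x i) (T.y i) D) * M.vl χ (T.x i)) := by
      intro i _
      rw [vl_mul M χ (ec i) (sub_mem (m2 i) (m3 i)), vl_sub M χ (m2 i) (m3 i),
        vl_mul M χ (mul_mem hb (T.hy i)) e2, vl_mul M χ hb (T.hy i), vl_mul M χ (hg i) (T.hx i),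
        vl_const, vl_const]
      ring
    rw [Finset.sum_congr rfl m6]
    ring

/-- the discrepancies vanish along the branch -/
theorem discr (T : Fam M r) (c : Fin r → ℂ) (u : E × E) (hu1 : u.1 ∈ M.R) (hu2 : u.2 ∈ M.R)
    (heq : nab T.g2 T.g3 D u = ∑ i, algebraMap ℂ E (c i) • src T.g2 T.g3 (T.x i) (T.y i) D)
    {τ₀ : ℂ} (χ : ℂ → (M.R →ₐ[ℂ] ℂ))
    (hd : ∀ e : M.R, ∀ᶠ t in 𝓝 τ₀,
      HasDerivAt (fun s => χ s e) (deriv jf t * χ t ⟨D e, M.hD e e.2⟩) t)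
    {l : ℂ → ℂ} (hl : ∀ᶠ t in 𝓝 τ₀, Good T χ l t) {p : ℂ → Fin r → ℂ}
    (hp : ∀ᶠ t in 𝓝 τ₀, ∀ i,
      HasDerivAt (fun s => p s i) (deriv jf t * M.vl (χ t) (al T.g2 T.g3 D) * p t i
        + deriv jf t * M.vl (χ t) (be T.g2 T.g3 D) * wz (l t) (l t * t) (p t i)
        + deriv jf t * M.vl (χ t) (ga T.g2 T.g3 (T.x i) (T.y i) D)) t ∧
      HasDerivAt (fun s => wz (l s) (l s * s) (p s i))
        (-(deriv jf t * M.vl (χ t) (al T.g2 T.g3 D)) * wz (l t) (l t * t) (p t i)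
        + deriv jf t * M.vl (χ t) (be T.g2 T.g3 D) * (M.vl (χ t) (T.y i) / 2
          - M.vl (χ t) T.g2 / 12 * p t i)
        - deriv jf t * M.vl (χ t) (ga T.g2 T.g3 (T.x i) (T.y i) D) * M.vl (χ t) (T.x i)) t)
    {w : ℂ × ℂ}
    (hw1 : M.vl (χ τ₀) u.1 = ∑ i, c i * p τ₀ i + (l τ₀ * w.1 + l τ₀ * τ₀ * w.2))
    (hw2 : M.vl (χ τ₀) u.2 = ∑ i, c i * wz (l τ₀) (l τ₀ * τ₀) (p τ₀ i) +
      (eta1 (l τ₀) (l τ₀ * τ₀) * w.1 + eta2 (l τ₀) (l τ₀ * τ₀) * w.2)) :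
    ∀ᶠ t in 𝓝 τ₀, M.vl (χ t) u.1 = ∑ i, c i * p t i + (l t * w.1 + l t * t * w.2) ∧
      M.vl (χ t) u.2 = ∑ i, c i * wz (l t) (l t * t) (p t i) +
      (eta1 (l t) (l t * t) * w.1 + eta2 (l t) (l t * t) * w.2) := by
  have key := lin_zero
    (A := fun t => M.vl (χ t) u.1 - (∑ i, c i * p t i + (l t * w.1 + l t * t * w.2)))
    (B := fun t => M.vl (χ t) u.2 - (∑ i, c i * wz (l t) (l t * t) (p t i) +
      (eta1 (l t) (l t * t) * w.1 + eta2 (l t) (l t * t) * w.2)))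
    (a := l) (b := fun t => l t * t) (e := fun t => eta1 (l t) (l t * t))
    (f := fun t => eta2 (l t) (l t * t))
    (α := fun t => deriv jf t * M.vl (χ t) (al T.g2 T.g3 D))
    (β := fun t => deriv jf t * M.vl (χ t) (be T.g2 T.g3 D))
    (g := fun t => M.vl (χ t) T.g2 / 12) (t₀ := τ₀)
    (by
      filter_upwards [hl, hp, vl_deriv hd hu1] with t h1 h2 h3
      have h4 : HasDerivAt (fun s => ∑ i, c i * p s i) (∑ i, c i * _) t :=
        HasDerivAt.fun_sum fun i _ => ((h2 i).1.const_mul (c i))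
      refine (h3.sub (h4.add ((h1.hl.mul_const w.1).add (h1.hl'.mul_const w.2)))).congr_deriv ?_
      rw [(vl_Du T c u hu1 hu2 heq (χ t)).1]
      simp only [mul_add, mul_sub, Finset.sum_add_distrib, Finset.mul_sum]
      have e1 : ∀ i, c i * (deriv jf t * M.vl (χ t) (al T.g2 T.g3 D) * p t i) =
        deriv jf t * M.vl (χ t) (al T.g2 T.g3 D) * (c i * p t i) := fun i => by ring
      have e2 : ∀ i, c i * (deriv jf t * M.vl (χ t) (be T.g2 T.g3 D) *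
          wz (l t) (l t * t) (p t i)) =
        deriv jf t * M.vl (χ t) (be T.g2 T.g3 D) * (c i * wz (l t) (l t * t) (p t i)) :=
        fun i => by ring
      have e3 : ∀ i, c i * (deriv jf t * M.vl (χ t) (ga T.g2 T.g3 (T.x i) (T.y i) D)) =
        deriv jf t * (c i * M.vl (χ t) (ga T.g2 T.g3 (T.x i) (T.y i) D)) := fun i => by ring
      simp only [e1, e2, e3]
      ring)
    (by
      filter_upwards [hl, hp, vl_deriv hd hu2] with t h1 h2 h3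
      have h4 : HasDerivAt (fun s => ∑ i, c i * wz (l s) (l s * s) (p s i)) (∑ i, c i * _) t :=
        HasDerivAt.fun_sum fun i _ => ((h2 i).2.const_mul (c i))
      refine (h3.sub (h4.add ((h1.eta.1.mul_const w.1).add
        (h1.eta.2.mul_const w.2)))).congr_deriv ?_
      rw [(vl_Du T c u hu1 hu2 heq (χ t)).2]
      have e1 : ∀ i, c i * (-(deriv jf t * M.vl (χ t) (al T.g2 T.g3 D)) *
          wz (l t) (l t * t) (p t i)
        + deriv jf t * M.vl (χ t) (be T.g2 T.g3 D) * (M.vl (χ t) (T.y i) / 2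
          - M.vl (χ t) T.g2 / 12 * p t i)
        - deriv jf t * M.vl (χ t) (ga T.g2 T.g3 (T.x i) (T.y i) D) * M.vl (χ t) (T.x i)) =
        deriv jf t * (c i * (M.vl (χ t) (be T.g2 T.g3 D) * M.vl (χ t) (T.y i) / 2
        - M.vl (χ t) (ga T.g2 T.g3 (T.x i) (T.y i) D) * M.vl (χ t) (T.x i)))
        - deriv jf t * M.vl (χ t) (be T.g2 T.g3 D) * (M.vl (χ t) T.g2 / 12) * (c i * p t i)
        - deriv jf t * M.vl (χ t) (al T.g2 T.g3 D) * (c i * wz (l t) (l t * t) (p t i)) :=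
        fun i => by ring
      simp only [e1, Finset.sum_sub_distrib, ← Finset.mul_sum]
      ring)
    (by filter_upwards [hl] with t h1; exact h1.hl)
    (by filter_upwards [hl] with t h1; exact h1.eta.1)
    (by filter_upwards [hl] with t h1; exact h1.hl')
    (by filter_upwards [hl] with t h1; exact h1.eta.2)
    (by
      filter_upwards [hl] with t h1
      have := det_ne_zero h1.hind
      rwa [det] at this)
    (by simp only [hw1, sub_self]) (by simp only [hw2, sub_self])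
  filter_upwards [key] with t ht
  exact ⟨sub_eq_zero.1 ht.1, sub_eq_zero.1 ht.2⟩

end

end RelB

section
variable {E : Type} [Field E] [Algebra ℂ E] {D : Derivation ℂ E E} {j : E} {M : Model E D j}
  {r : ℕ}

/-- Along a branch `χ` of characters over `jf` through `(τ₀, χ₀)`, every solution at `τ₀` extends
holomorphically, with constant `w`. -/
theorem rel_local (T : Fam M r) (c : Fin r → ℂ) (u : E × E) (hu1 : u.1 ∈ M.R) (hu2 : u.2 ∈ M.R)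
    (heq : nab T.g2 T.g3 D u = ∑ i, algebraMap ℂ E (c i) • src T.g2 T.g3 (T.x i) (T.y i) D)
    {τ₀ : ℂ} (hτ₀ : τ₀ ∈ HH M) (χ : ℂ → (M.R →ₐ[ℂ] ℂ)) (hχ : ∀ᶠ t in 𝓝 τ₀, M.jv (χ t) = jf t)
    (hd : ∀ e : M.R, ∀ᶠ t in 𝓝 τ₀,
      HasDerivAt (fun s => χ s e) (deriv jf t * χ t ⟨D e, M.hD e e.2⟩) t)
    {l₀ : ℂ} {p₀ : Fin r → ℂ} {w : ℂ × ℂ} (h : Rel T c u τ₀ (χ τ₀) l₀ p₀ w) :
    ∃ (l : ℂ → ℂ) (p : ℂ → Fin r → ℂ), l τ₀ = l₀ ∧ p τ₀ = p₀ ∧
      ∀ᶠ t in 𝓝 τ₀, Rel T c u t (χ t) (l t) (p t) w ∧ DifferentiableAt ℂ l t ∧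
        ∀ i, DifferentiableAt ℂ (fun s => p s i) t := by
  obtain ⟨h0, h1, h2⟩ := h
  obtain ⟨l, hl0, hl⟩ := RelB.exists_l T hτ₀ χ hχ hd (h0.sq hτ₀ hχ.self_of_nhds)
  subst hl0
  have hex := fun i => RelB.exists_p T χ hd hl i (h0.2.2.2 i).1 (h0.2.2.2 i).2.1 (h0.2.2.2 i).2.2
  choose z hz0 hz using hex
  have hz' : ∀ᶠ t in 𝓝 τ₀, ∀ i, _ := Filter.eventually_all.2 hz
  have hp0 : (fun i => z i τ₀) = p₀ := funext hz0
  refine ⟨l, fun t i => z i t, rfl, hp0, ?_⟩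
  subst hp0
  have hdis := RelB.discr T c u hu1 hu2 heq χ hd hl (p := fun t i => z i t)
    (by filter_upwards [hz'] with t ht i; exact ⟨(ht i).2.2.2.1, (ht i).2.2.2.2⟩) h1 h2
  filter_upwards [hl, hz', hdis] with t k1 k2 k3
  exact ⟨⟨⟨k1.h0, k1.hG2, k1.hG3, fun i => ⟨(k2 i).1, (k2 i).2.1, (k2 i).2.2.1⟩⟩, k3.1, k3.2⟩,
    k1.hl.differentiableAt, fun i => (k2 i).2.2.2.1.differentiableAt⟩

theorem RelB.vl_Drho (T : Fam M r) (ρ : E) (hρ : ρ ∈ M.R)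
    (heq : D ρ = -(be T.g2 T.g3 D * (T.g2 / 12)) - 2 * al T.g2 T.g3 D * ρ
      - be T.g2 T.g3 D * ρ ^ 2) (χ : M.R →ₐ[ℂ] ℂ) :
    M.vl χ (D ρ) = -(M.vl χ (be T.g2 T.g3 D) * (M.vl χ T.g2 / 12))
      - 2 * M.vl χ (al T.g2 T.g3 D) * M.vl χ ρ - M.vl χ (be T.g2 T.g3 D) * M.vl χ ρ ^ 2 := by
  have h12 : (12 : E)⁻¹ = algebraMap ℂ E 12⁻¹ := by
    rw [map_inv₀]; congr 1; exact (map_ofNat (algebraMap ℂ E) 12).symm
  have h2 : (2 : E) = algebraMap ℂ E 2 := (map_ofNat (algebraMap ℂ E) 2).symm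
  have h1 : (-1 : E) = algebraMap ℂ E (-1) := by rw [map_neg, map_one]
  have e12 := M.R.algebraMap_mem 12⁻¹
  have e2 := M.R.algebraMap_mem 2
  have e1 := M.R.algebraMap_mem (-1)
  have ha := RelB.al_mem T
  have hb := RelB.be_mem T
  have m1 := mul_mem hb (mul_mem T.hg2 e12)
  have m2 := mul_mem (mul_mem e2 ha) hρ
  have m3 := pow_mem hρ 2
  rw [heq, div_eq_mul_inv, h12, h2, ← neg_one_mul, h1,
    vl_sub M χ (sub_mem (mul_mem e1 m1) m2) (mul_mem hb m3), vl_sub M χ (mul_mem e1 m1) m2,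
    vl_mul M χ e1 m1, vl_mul M χ hb (mul_mem T.hg2 e12), vl_mul M χ T.hg2 e12,
    vl_mul M χ (mul_mem e2 ha) hρ, vl_mul M χ e2 ha, vl_mul M χ hb m3, vl_pow M χ hρ, vl_const,
    vl_const, vl_const]
  ring

/-- a linear combination of two solutions of a first order equation, not both vanishing -/
theorem RelB.fo_zero {F G k : ℂ → ℂ} {t₀ : ℂ} (hF : ∀ᶠ t in 𝓝 t₀, HasDerivAt F (k t * F t) t)
    (hG : ∀ᶠ t in 𝓝 t₀, HasDerivAt G (k t * G t) t) (h0 : F t₀ = 0) (hne : G t₀ ≠ 0) :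
    ∀ᶠ t in 𝓝 t₀, F t = 0 := by
  have hG0 : ∀ᶠ t in 𝓝 t₀, G t ≠ 0 :=
    (hG.self_of_nhds.continuousAt.eventually_ne hne)
  have h1 : ∀ᶠ t in 𝓝 t₀, HasDerivAt (fun s => F s / G s) 0 t := by
    filter_upwards [hF, hG, hG0] with t k1 k2 k3
    refine (k1.div k2 k3).congr_deriv ?_
    rw [div_eq_zero_iff]
    left
    ring
  filter_upwards [RelB.ev_const h1, hG0] with t k1 k2
  rw [h0, zero_div, div_eq_zero_iff] at k1
  exact k1.resolve_right k2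

/-- Case A (Riccati equation): the line `(χ ρ) · (Φ v)₁ = (Φ v)₂` is constant along branches -/
theorem riccati_local (T : Fam M 0) (ρ : E) (hρ : ρ ∈ M.R)
    (heq : D ρ = -(be T.g2 T.g3 D * (T.g2 / 12)) - 2 * al T.g2 T.g3 D * ρ
      - be T.g2 T.g3 D * ρ ^ 2)
    {τ₀ : ℂ} (hτ₀ : τ₀ ∈ HH M) (χ : ℂ → (M.R →ₐ[ℂ] ℂ)) (hχ : ∀ᶠ t in 𝓝 τ₀, M.jv (χ t) = jf t)
    (hd : ∀ e : M.R, ∀ᶠ t in 𝓝 τ₀,
      HasDerivAt (fun s => χ s e) (deriv jf t * χ t ⟨D e, M.hD e e.2⟩) t)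
    {l₀ : ℂ} {v : ℂ × ℂ}
    (hl : l₀ ^ 2 = G3 1 τ₀ * M.vl (χ τ₀) T.g2 / (G2 1 τ₀ * M.vl (χ τ₀) T.g3))
    (hv : M.vl (χ τ₀) ρ * (l₀ * v.1 + l₀ * τ₀ * v.2) =
      eta1 l₀ (l₀ * τ₀) * v.1 + eta2 l₀ (l₀ * τ₀) * v.2) :
    ∀ᶠ t in 𝓝 τ₀, ∀ l : ℂ, l ^ 2 = G3 1 t * M.vl (χ t) T.g2 / (G2 1 t * M.vl (χ t) T.g3) →
      M.vl (χ t) ρ * (l * v.1 + l * t * v.2) = eta1 l (l * t) * v.1 + eta2 l (l * t) * v.2 := by
  obtain ⟨l, hl0, hg⟩ := RelB.exists_l T hτ₀ χ hχ hd hl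
  subst hl0
  have hF1 : ∀ᶠ t in 𝓝 τ₀, HasDerivAt (fun s => M.vl (χ s) ρ * l s - eta1 (l s) (l s * s))
      (-(deriv jf t * M.vl (χ t) (al T.g2 T.g3 D) +
        deriv jf t * M.vl (χ t) (be T.g2 T.g3 D) * M.vl (χ t) ρ) *
        (M.vl (χ t) ρ * l t - eta1 (l t) (l t * t))) t := by
    filter_upwards [hg, RelB.vl_deriv hd hρ] with t k1 k2
    refine ((k2.mul k1.hl).sub k1.eta.1).congr_deriv ?_
    rw [RelB.vl_Drho T ρ hρ heq]
    ring
  have hF2 : ∀ᶠ t in 𝓝 τ₀, HasDerivAt (fun s => M.vl (χ s) ρ * (l s * s) - eta2 (l s) (l s * s))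
      (-(deriv jf t * M.vl (χ t) (al T.g2 T.g3 D) +
        deriv jf t * M.vl (χ t) (be T.g2 T.g3 D) * M.vl (χ t) ρ) *
        (M.vl (χ t) ρ * (l t * t) - eta2 (l t) (l t * t))) t := by
    filter_upwards [hg, RelB.vl_deriv hd hρ] with t k1 k2
    refine ((k2.mul k1.hl').sub k1.eta.2).congr_deriv ?_
    rw [RelB.vl_Drho T ρ hρ heq]
    ring
  have hF : ∀ᶠ t in 𝓝 τ₀, HasDerivAt (fun s => (M.vl (χ s) ρ * l s - eta1 (l s) (l s * s)) * v.1 +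
      (M.vl (χ s) ρ * (l s * s) - eta2 (l s) (l s * s)) * v.2)
      (-(deriv jf t * M.vl (χ t) (al T.g2 T.g3 D) +
        deriv jf t * M.vl (χ t) (be T.g2 T.g3 D) * M.vl (χ t) ρ) *
        ((M.vl (χ t) ρ * l t - eta1 (l t) (l t * t)) * v.1 +
      (M.vl (χ t) ρ * (l t * t) - eta2 (l t) (l t * t)) * v.2)) t := by
    filter_upwards [hF1, hF2] with t k1 k2
    refine ((k1.mul_const v.1).add (k2.mul_const v.2)).congr_deriv ?_
    ring
  have h0 : (M.vl (χ τ₀) ρ * l τ₀ - eta1 (l τ₀) (l τ₀ * τ₀)) * v.1 +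
      (M.vl (χ τ₀) ρ * (l τ₀ * τ₀) - eta2 (l τ₀) (l τ₀ * τ₀)) * v.2 = 0 := by
    linear_combination hv
  have hz : ∀ᶠ t in 𝓝 τ₀, (M.vl (χ t) ρ * l t - eta1 (l t) (l t * t)) * v.1 +
      (M.vl (χ t) ρ * (l t * t) - eta2 (l t) (l t * t)) * v.2 = 0 := by
    by_cases h1 : M.vl (χ τ₀) ρ * l τ₀ - eta1 (l τ₀) (l τ₀ * τ₀) = 0
    · have h2 : M.vl (χ τ₀) ρ * (l τ₀ * τ₀) - eta2 (l τ₀) (l τ₀ * τ₀) ≠ 0 := by
        intro h2
        have := det_ne_zero hg.self_of_nhds.hind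
        apply this
        rw [det]
        linear_combination (l τ₀ * τ₀) * h1 - l τ₀ * h2
      exact RelB.fo_zero hF hF2 h0 h2
    · exact RelB.fo_zero hF hF1 h0 h1
  filter_upwards [hg, hz] with t k1 k2 l' hl'
  have h3 : (l' - l t) * (l' + l t) = 0 := by
    have := k1.hsq
    rw [RelB.RR, ← hl'] at this
    linear_combination -this
  rcases mul_eq_zero.1 h3 with h4 | h4
  · rw [sub_eq_zero.1 h4]
    linear_combination k2
  · have h5 : l' = (-1) * l t := by linear_combination h4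
    have h6 : l' * t = (-1) * (l t * t) := by rw [h5]; ring
    rw [h6, h5, eta1_smul (by norm_num), eta2_smul (by norm_num)]
    linear_combination (-1) * k2

end

end Pool.Agent.EllSch
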