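import Pool.Agent.EllSch.AxFlat
import Pool.Agent.EllSch.Model

/-! # [T5] Definitions for the monodromy argument -/

open Polynomial

namespace Pool.Agent.EllSch

noncomputable section

/-- the modular function -/
def jf (τ : ℂ) : ℂ := 1728 * G2 1 τ ^ 3 / (G2 1 τ ^ 3 - 27 * G3 1 τ ^ 2)

section
variable {E : Type} [Field E] [Algebra ℂ E] {D : Derivation ℂ E E} {j : E}

open Classical in
/-- value of a character at an element of the field (zero outside the model) -/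
def Model.vl (M : Model E D j) (χ : M.R →ₐ[ℂ] ℂ) (e : E) : ℂ :=
  if h : e ∈ M.R then χ ⟨e, h⟩ else 0

/-- A family of elliptic curves with points over a model. -/
structure Fam (M : Model E D j) (r : ℕ) where
  g2 : E
  g3 : E
  x : Fin r → E
  y : Fin r → E
  hg2 : g2 ∈ M.R
  hg2' : g2⁻¹ ∈ M.R
  hg20 : g2 ≠ 0
  hg3 : g3 ∈ M.R
  hg3' : g3⁻¹ ∈ M.R
  hg30 : g3 ≠ 0
  hΔ' : (g2 ^ 3 - 27 * g3 ^ 2)⁻¹ ∈ M.R
  hΔ : g2 ^ 3 - 27 * g3 ^ 2 ≠ 0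
  hx : ∀ i, x i ∈ M.R
  hy : ∀ i, y i ∈ M.R
  hy' : ∀ i, (y i)⁻¹ ∈ M.R
  hy0 : ∀ i, y i ≠ 0
  hxy : ∀ i, y i ^ 2 = 4 * x i ^ 3 - g2 * x i - g3
  hj : j = 1728 * g2 ^ 3 / (g2 ^ 3 - 27 * g3 ^ 2)

variable {M : Model E D j} {r : ℕ}

/-- the points of the upper half plane where the characters over `jf τ` behave well -/
def HH (M : Model E D j) : Set ℂ := {τ | 0 < τ.im ∧ M.d.eval (jf τ) ≠ 0}

/-- `l (ℤ + ℤ τ)` is the lattice of the curve specialised at `χ`, the `p i` are logarithms of the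
points -/
def Rel0 (T : Fam M r) (τ : ℂ) (χ : M.R →ₐ[ℂ] ℂ) (l : ℂ) (p : Fin r → ℂ) : Prop :=
  l ≠ 0 ∧ G2 l (l * τ) = M.vl χ T.g2 ∧ G3 l (l * τ) = M.vl χ T.g3 ∧
    ∀ i, Off l (l * τ) (p i) ∧ wp l (l * τ) (p i) = M.vl χ (T.x i) ∧
      wq l (l * τ) (p i) = M.vl χ (T.y i)

/-- `Rel0` together with the coordinates `w` of `u - ∑ c i (p i, ζ (p i))` in the basis of
periods -/
def Rel (T : Fam M r) (c : Fin r → ℂ) (u : E × E) (τ : ℂ) (χ : M.R →ₐ[ℂ] ℂ) (l : ℂ)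
    (p : Fin r → ℂ) (w : ℂ × ℂ) : Prop :=
  Rel0 T τ χ l p ∧
  M.vl χ u.1 = ∑ i, c i * p i + (l * w.1 + l * τ * w.2) ∧
  M.vl χ u.2 = ∑ i, c i * wz l (l * τ) (p i) + (eta1 l (l * τ) * w.1 + eta2 l (l * τ) * w.2)

end

end

end Pool.Agent.EllSch
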