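import Pool.Agent.EllSch.GFun
import Pool.Agent.EllSch.Bound2
import Pool.Agent.EllSch.PtMap

/-! # [T5E] The theorem of the kernel over a function field of one variable -/

open Polynomial Filter Topology

namespace Pool.Agent.EllSch

section
variable {E : Type} [Field E] [Algebra ℂ E]

theorem g_ne_zero {j : E} (hj : Transcendental ℂ j) {g2 g3 : E}
    (hΔ : g2 ^ 3 - 27 * g3 ^ 2 ≠ 0) (hjj : j = 1728 * g2 ^ 3 / (g2 ^ 3 - 27 * g3 ^ 2)) :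
    g2 ≠ 0 ∧ g3 ≠ 0 := by
  constructor
  · rintro rfl
    apply hj
    rw [hjj]
    simp only [ne_eq, OfNat.ofNat_ne_zero, not_false_eq_true, zero_pow, mul_zero, zero_div]
    exact isAlgebraic_zero
  · rintro rfl
    apply hj
    have h1 : j = algebraMap ℂ E 1728 := by
      rw [hjj, map_ofNat]
      simp only [ne_eq, OfNat.ofNat_ne_zero, not_false_eq_true, zero_pow, mul_zero, sub_zero] at hΔ ⊢
      rw [mul_div_assoc, div_self hΔ, mul_one]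
    rw [h1]
    exact isAlgebraic_algebraMap _

theorem no_riccati_E (D : Derivation ℂ E E) (j : E) (hj : Transcendental ℂ j) (hDj : D j = 1)
    (halg : ∀ e : E, IsAlgebraic (IntermediateField.adjoin ℂ {j}) e) {g2 g3 : E}
    (hΔ : g2 ^ 3 - 27 * g3 ^ 2 ≠ 0) (hjj : j = 1728 * g2 ^ 3 / (g2 ^ 3 - 27 * g3 ^ 2)) (ρ : E)
    (h : D ρ = -(be g2 g3 D * (g2 / 12)) - 2 * al g2 g3 D * ρ - be g2 g3 D * ρ ^ 2) : False := by
  classical
  obtain ⟨h2, h3⟩ := g_ne_zero hj hΔ hjj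
  obtain ⟨M, hM⟩ := exists_model D j hj hDj halg
    ({g2, g2⁻¹, g3, g3⁻¹, (g2 ^ 3 - 27 * g3 ^ 2)⁻¹, ρ} : Finset E)
  simp only [Finset.coe_insert, Finset.coe_singleton, Set.insert_subset_iff,
    Set.singleton_subset_iff, SetLike.mem_coe] at hM
  obtain ⟨m1, m2, m3, m4, m5, m6⟩ := hM
  let T : Fam M 0 :=
    { g2 := g2, g3 := g3, x := fun i => 0, y := fun i => 0, hg2 := m1, hg2' := m2, hg20 := h2,
      hg3 := m3, hg3' := m4, hg30 := h3, hΔ' := m5, hΔ := hΔ, hx := fun i => i.elim0,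
      hy := fun i => i.elim0, hy' := fun i => i.elim0, hy0 := fun i => i.elim0,
      hxy := fun i => i.elim0, hj := hjj }
  exact no_riccati1 T ρ m6 h

/-- the elements required to define a family -/
def famSet (E : Type) [Field E] [DecidableEq E] {r : ℕ} (g2 g3 : E) (x y : Fin r → E) :
    Finset E :=
  ({g2, g2⁻¹, g3, g3⁻¹, (g2 ^ 3 - 27 * g3 ^ 2)⁻¹} : Finset E) ∪ Finset.univ.image x ∪
    Finset.univ.image y ∪ Finset.univ.image fun i => (y i)⁻¹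

/-- the family attached to a large enough model -/
def mkFam [DecidableEq E] {D : Derivation ℂ E E} {j : E} (M : Model E D j) {r : ℕ} {g2 g3 : E}
    {x y : Fin r → E} (h2 : g2 ≠ 0) (h3 : g3 ≠ 0) (hΔ : g2 ^ 3 - 27 * g3 ^ 2 ≠ 0)
    (hjj : j = 1728 * g2 ^ 3 / (g2 ^ 3 - 27 * g3 ^ 2)) (hy : ∀ i, y i ≠ 0)
    (hxy : ∀ i, y i ^ 2 = 4 * x i ^ 3 - g2 * x i - g3)
    (hM : ∀ e ∈ famSet E g2 g3 x y, e ∈ M.R) : Fam M r where
  g2 := g2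
  g3 := g3
  x := x
  y := y
  hg2 := hM _ (by simp [famSet])
  hg2' := hM _ (by simp [famSet])
  hg20 := h2
  hg3 := hM _ (by simp [famSet])
  hg3' := hM _ (by simp [famSet])
  hg30 := h3
  hΔ' := hM _ (by simp [famSet])
  hΔ := hΔ
  hx := fun i => hM _ (by simp [famSet])
  hy := fun i => hM _ (by simp [famSet])
  hy' := fun i => hM _ (by simp [famSet])
  hy0 := hy
  hxy := hxy
  hj := hjj

/-- a model containing the generators of another one contains it -/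
theorem model_le {D : Derivation ℂ E E} {j : E} (M M' : Model E D j) (h1 : M.θ ∈ M'.R)
    (h2 : (aeval j M.d)⁻¹ ∈ M'.R) : M.R ≤ M'.R := by
  intro e he
  obtain ⟨N, n, hN⟩ := M.hrep e he
  have h3 : ev2 N j M.θ ∈ M'.R := by
    rw [ev2, eval₂_eq_sum, Polynomial.sum]
    refine Subalgebra.sum_mem _ fun i _ => Subalgebra.mul_mem _ ?_ (Subalgebra.pow_mem _ h1 i)
    exact Polynomial.aeval_mem_adjoin_singleton ℂ j |> fun h =>
      (Algebra.adjoin_le (by simpa using M'.hj) : Algebra.adjoin ℂ {j} ≤ M'.R) h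
  have h4 : e = ev2 N j M.θ * ((aeval j M.d)⁻¹) ^ n := by
    rw [← hN, inv_pow, mul_assoc, mul_inv_cancel₀ (pow_ne_zero n M.hdj), mul_one]
  rw [h4]
  exact M'.R.mul_mem h3 (M'.R.pow_mem h2 n)

theorem manin_kernel_E [DecidableEq E] (D : Derivation ℂ E E) (j : E) (hj : Transcendental ℂ j)
    (hDj : D j = 1) (halg : ∀ e : E, IsAlgebraic (IntermediateField.adjoin ℂ {j}) e) {g2 g3 : E}
    (hΔ : g2 ^ 3 - 27 * g3 ^ 2 ≠ 0) (hjj : j = 1728 * g2 ^ 3 / (g2 ^ 3 - 27 * g3 ^ 2)) {r : ℕ}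
    (x y : Fin r → E) (hy : ∀ i, y i ≠ 0)
    (hxy : ∀ i, y i ^ 2 = 4 * x i ^ 3 - g2 * x i - g3) (c : Fin r → ℂ) (hc : c ≠ 0) (u : E × E)
    (h : nab g2 g3 D u = ∑ i, algebraMap ℂ E (c i) • src g2 g3 (x i) (y i) D) :
    ∃ m : Fin r → ℤ, m ≠ 0 ∧ ∑ i, m i • pt g2 g3 (x i) (y i) = 0 := by
  have hchar : CharZero E := charZero_of_injective_algebraMap (algebraMap ℂ E).injective
  obtain ⟨h2, h3⟩ := g_ne_zero hj hΔ hjj
  -- first model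
  obtain ⟨M₁, hM₁⟩ := exists_model D j hj hDj halg (famSet E g2 g3 x y ∪ {u.1, u.2})
  have hF₁ : ∀ e ∈ famSet E g2 g3 x y, e ∈ M₁.R := fun e he =>
    hM₁ (by simp only [Finset.coe_union, Set.mem_union, Finset.mem_coe]; exact Or.inl he)
  have hu1 : u.1 ∈ M₁.R := hM₁ (by simp)
  have hu2 : u.2 ∈ M₁.R := hM₁ (by simp)
  set T₁ := mkFam M₁ h2 h3 hΔ hjj hy hxy hF₁ with hT₁
  obtain ⟨m, hm, G, hG1, hG2, hG3, hG4⟩ := exists_G T₁ c hc u hu1 hu2 h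
  refine ⟨m, hm, ?_⟩
  by_contra hne
  obtain ⟨S', hS'0, hcase⟩ := sum_pt_spec (L := ℂ) hΔ x y hxy m
  rcases hcase with ⟨h0, -⟩ | ⟨X, Y, hXY, -, hspec⟩
  · exact hne h0
  -- second model
  obtain ⟨M₂, hM₂⟩ := exists_model D j hj hDj halg (famSet E g2 g3 x y ∪
    {M₁.θ, (aeval j M₁.d)⁻¹, X, Y} ∪ S' ∪ S'.image fun t => t⁻¹)
  have hmem : ∀ e ∈ famSet E g2 g3 x y ∪ {M₁.θ, (aeval j M₁.d)⁻¹, X, Y} ∪ S' ∪
      S'.image (fun t => t⁻¹), e ∈ M₂.R := fun e he => hM₂ he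
  have hF₂ : ∀ e ∈ famSet E g2 g3 x y, e ∈ M₂.R := fun e he =>
    hmem e (by simp only [Finset.mem_union]; exact Or.inl (Or.inl (Or.inl he)))
  have hle : M₁.R ≤ M₂.R := model_le M₁ M₂ (hmem _ (by simp)) (hmem _ (by simp))
  have hX : X ∈ M₂.R := hmem _ (by simp)
  have hY : Y ∈ M₂.R := hmem _ (by simp)
  have hS1 : ∀ t ∈ S', t ∈ M₂.R := fun t ht => hmem _ (by simp [ht])
  have hS2 : ∀ t ∈ S', t⁻¹ ∈ M₂.R := fun t ht => hmem _ (by simp [ht])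
  set T₂ := mkFam M₂ h2 h3 hΔ hjj hy hxy hF₂ with hT₂
  let res : (M₂.R →ₐ[ℂ] ℂ) → (M₁.R →ₐ[ℂ] ℂ) := fun χ => χ.comp (Subalgebra.inclusion hle)
  have hresv : ∀ (χ : M₂.R →ₐ[ℂ] ℂ) (e : E), e ∈ M₁.R → M₁.vl (res χ) e = M₂.vl χ e := by
    intro χ e he
    rw [vl_of_mem M₁ _ he, vl_of_mem M₂ _ (hle he)]
    rfl
  have hresj : ∀ χ : M₂.R →ₐ[ℂ] ℂ, M₁.jv (res χ) = M₂.jv χ := fun χ => rfl
  have hHH : ∀ τ ∈ HH M₂, ∀ χ, M₂.jv χ = jf τ → τ ∈ HH M₁ := by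
    intro τ hτ χ hχ
    refine ⟨hτ.1, ?_⟩
    have := M₁.eval_d_ne_zero (res χ)
    rwa [hresj, hχ] at this
  have hGd : GData T₂ m fun τ χ => G τ (res χ) := by
    refine ⟨?_, ?_, ?_, ?_⟩
    · intro τ hτ χ hχ
      obtain ⟨l, p, k, hr, hG⟩ := hG1 τ (hHH τ hτ χ hχ) (res χ) hχ
      refine ⟨l, p, k, ?_, hG⟩
      obtain ⟨r1, r2, r3, r4⟩ := hr
      refine ⟨r1, ?_, ?_, fun i => ?_⟩
      · rw [r2]; exact hresv χ g2 T₁.hg2
      · rw [r3]; exact hresv χ g3 T₁.hg3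
      · obtain ⟨s1, s2, s3⟩ := r4 i
        refine ⟨s1, ?_, ?_⟩
        · rw [s2]; exact hresv χ (x i) (T₁.hx i)
        · rw [s3]; exact hresv χ (y i) (T₁.hy i)
    · intro τ₀ hτ₀ χ hχ hd
      refine hG2 τ₀ (hHH τ₀ hτ₀ (χ τ₀) hχ.self_of_nhds) (fun t => res (χ t)) hχ fun e => ?_
      exact hd ⟨e, hle e.2⟩
    · intro τ hτ χ hχ
      exact hG3 τ (hHH τ hτ χ hχ) (res χ) hχ
    · intro τ hτ χ hχ
      exact hG4 τ (hHH τ hτ χ hχ) (res χ) hχ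
  have hSd : SpecData T₂ m X Y := by
    refine ⟨hX, hY, hXY, fun χ => ?_⟩
    have hR := hspec M₂.R.toSubring T₂.hg2 T₂.hg3 T₂.hx T₂.hy hX hY
      (fun t ht => ⟨hS1 t ht, hS2 t ht⟩) χ.toRingHom
    have v1 : M₂.vl χ T₂.g2 = χ ⟨g2, T₂.hg2⟩ := vl_of_mem M₂ χ T₂.hg2
    have v2 : M₂.vl χ T₂.g3 = χ ⟨g3, T₂.hg3⟩ := vl_of_mem M₂ χ T₂.hg3
    have v3 : ∀ i, M₂.vl χ (T₂.x i) = χ ⟨x i, T₂.hx i⟩ := fun i => vl_of_mem M₂ χ (T₂.hx i)
    have v4 : ∀ i, M₂.vl χ (T₂.y i) = χ ⟨y i, T₂.hy i⟩ := fun i => vl_of_mem M₂ χ (T₂.hy i)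
    have v5 : M₂.vl χ X = χ ⟨X, hX⟩ := vl_of_mem M₂ χ hX
    have v6 : M₂.vl χ Y = χ ⟨Y, hY⟩ := vl_of_mem M₂ χ hY
    rw [v1, v2, v5, v6]
    simp only [v3, v4]
    exact hR
  exact G_contradiction hGd hSd

end

end Pool.Agent.EllSch
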